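import Pool.Agent.HBW.Stmts

set_option autoImplicit false

namespace Pool.Agent.HBW

open MeasureTheory Set Filter Topology
open scoped ENNReal Real

namespace ALB_

theorem sum1 (κ A a c : ℝ) (hκ : 0 < κ) :
    Summable fun n : ℤ => Real.exp (-κ * (a - n) ^ 2 + A * |a - n| + c) := by
  have h0 : Summable fun n : ℤ => Real.exp (-|(n : ℝ)|) := by
    rw [summable_int_iff_summable_nat_and_neg]
    constructor
    · refine Real.summable_exp_neg_nat.congr fun n => ?_
      simp
    · refine Real.summable_exp_neg_nat.congr fun n => ?_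
      simp
  refine Summable.of_nonneg_of_le (fun n => (Real.exp_pos _).le) (fun n => ?_)
    (h0.mul_left (Real.exp ((A + 1) ^ 2 / (4 * κ) + |a| + c)))
  rw [← Real.exp_add]
  apply Real.exp_le_exp.2
  set x : ℝ := |a - n| with hx
  have h1 : (a - n) ^ 2 = x ^ 2 := by rw [hx, sq_abs]
  have h2 : |(n : ℝ)| ≤ x + |a| := by
    have : (n : ℝ) = -(a - n) + a := by ring
    calc |(n : ℝ)| = |-(a - n) + a| := by rw [← this]
      _ ≤ |-(a - n)| + |a| := abs_add_le _ _
      _ = x + |a| := by rw [abs_neg]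
  have h3 : 0 ≤ κ * (x - (A + 1) / (2 * κ)) ^ 2 := by positivity
  have h4 : κ * (x - (A + 1) / (2 * κ)) ^ 2 = κ * x ^ 2 - (A + 1) * x + (A + 1) ^ 2 / (4 * κ) := by
    field_simp
    ring
  rw [h4] at h3
  rw [h1]
  linarith

theorem sumPi {D : ℕ} (f : Fin D → ℤ → ℝ) (h0 : ∀ i n, 0 ≤ f i n) (hs : ∀ i, Summable (f i)) :
    Summable fun k : Fin D → ℤ => ∏ i, f i (k i) := by
  classical
  refine summable_of_sum_le (c := ∏ i, ∑' n, f i n)
    (fun k => Finset.prod_nonneg fun i _ => h0 i _) (fun S => ?_)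
  have hsub : S ⊆ Fintype.piFinset fun i => S.image fun k => k i := by
    intro k hk
    rw [Fintype.mem_piFinset]
    intro i
    exact Finset.mem_image_of_mem _ hk
  calc ∑ k ∈ S, ∏ i, f i (k i) ≤ ∑ k ∈ Fintype.piFinset (fun i => S.image fun k => k i),
        ∏ i, f i (k i) :=
        Finset.sum_le_sum_of_subset_of_nonneg hsub fun k _ _ =>
          Finset.prod_nonneg fun i _ => h0 i _
    _ = ∏ i, ∑ n ∈ S.image (fun k => k i), f i n := by
        rw [Finset.prod_univ_sum]
    _ ≤ ∏ i, ∑' n, f i n :=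
        Finset.prod_le_prod (fun i _ => Finset.sum_nonneg fun n _ => h0 i n)
          (fun i _ => (hs i).sum_le_tsum _ (fun n _ => h0 i n))

theorem inv_re (τ : ℝ) (hτ : 0 < τ) (ζ : ℂ) (h : ‖ζ - τ‖ ≤ τ / 2) :
    τ / 2 ≤ ‖ζ‖ ∧ 0 < ζ.re ∧ 2 / (3 * τ) ≤ (ζ⁻¹).re := by
  have h1 : |(ζ - τ).re| ≤ τ / 2 := (Complex.abs_re_le_norm _).trans h
  have h2 : (ζ - τ).re = ζ.re - τ := by simp
  rw [h2, abs_le] at h1
  have hre : τ / 2 ≤ ζ.re := by linarith
  have hre2 : ζ.re ≤ 3 * τ / 2 := by linarith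
  have hpos : 0 < ζ.re := by linarith
  refine ⟨hre.trans ((le_abs_self _).trans (Complex.abs_re_le_norm ζ)), hpos, ?_⟩
  have h3 : ‖ζ - τ‖ ^ 2 ≤ (τ / 2) ^ 2 := pow_le_pow_left₀ (norm_nonneg _) h 2
  rw [← Complex.normSq_eq_norm_sq, Complex.normSq_apply] at h3
  have h4 : (ζ - τ).im = ζ.im := by simp
  rw [h2, h4] at h3
  have h5 : Complex.normSq ζ ≤ (3 * τ / 2) * ζ.re := by
    rw [Complex.normSq_apply]
    nlinarith
  have h6 : 0 < Complex.normSq ζ := by
    rw [Complex.normSq_apply]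
    nlinarith [mul_self_nonneg ζ.im]
  rw [Complex.inv_re, div_le_div_iff₀ (by positivity) h6]
  nlinarith

theorem mon_le {D : ℕ} (v : List (Fin D)) (x : P D) :
    |mon v x| ≤ Real.exp (v.length * ∑ i, |x i|) := by
  induction v with
  | nil => simp [mon]
  | cons a v ih =>
    have h1 : mon (a :: v) x = x a * mon v x := by simp [mon]
    rw [h1, abs_mul]
    have h2 : |x a| ≤ Real.exp (∑ i, |x i|) := by
      have h3 : |x a| ≤ ∑ i, |x i| :=
        Finset.single_le_sum (f := fun i => |x i|) (fun i _ => abs_nonneg _) (Finset.mem_univ a)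
      exact h3.trans (by linarith [Real.add_one_le_exp (∑ i, |x i|)])
    calc |x a| * |mon v x| ≤ Real.exp (∑ i, |x i|) * Real.exp (v.length * ∑ i, |x i|) :=
          mul_le_mul h2 ih (abs_nonneg _) (Real.exp_pos _).le
      _ = Real.exp ((a :: v).length * ∑ i, |x i|) := by
          rw [← Real.exp_add]
          congr 1
          push_cast [List.length_cons]
          ring

end ALB_

open ALB_ in
theorem ALB_proof (hGWB : Stmt_GWB) : Stmt_ALB := by
  intro D τ w v z hτ
  set m : ℝ := τ / 2 with hm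
  have hm0 : 0 < m := by positivity
  set κ : ℝ := 2 / (3 * τ) with hκ
  have hκ0 : 0 < κ := by positivity
  set C : ℝ := w.length.factorial * (1 : ℝ)⁻¹ ^ w.length * (Real.sqrt (π * m))⁻¹ ^ D with hC
  have hC0 : 0 ≤ C := by positivity
  set A : ℝ := 2 / m + v.length with hA
  refine ⟨fun k => C * ∏ i, Real.exp (-κ * (z i - k i) ^ 2 + A * |z i - k i| + 1 / m), ?_, ?_⟩
  · exact (sumPi (fun i n => Real.exp (-κ * (z i - n) ^ 2 + A * |z i - n| + 1 / m))
      (fun i n => (Real.exp_pos _).le) (fun i => sum1 κ A (z i) (1 / m) hκ0)).mul_left C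
  · intro ζ hζ k
    obtain ⟨q1, q2, q3⟩ := inv_re τ hτ ζ hζ
    have hb := hGWB D ζ κ m 1 w (z - zr k) hm0 q1 q2 q3 one_pos
    have hmon := mon_le v (zr k - z)
    rw [norm_mul, Complex.norm_real, Real.norm_eq_abs]
    have hmul := mul_le_mul hb hmon (abs_nonneg _) (by positivity)
    refine hmul.trans (le_of_eq ?_)
    show _ = C * ∏ i, Real.exp (-κ * (z i - k i) ^ 2 + A * |z i - k i| + 1 / m)
    rw [mul_assoc, ← Real.exp_add, ← Real.exp_sum]
    rw [hC]
    congr 2
    rw [Finset.mul_sum, ← Finset.sum_add_distrib]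
    refine Finset.sum_congr rfl fun i _ => ?_
    have e1 : (z - zr k) i = z i - k i := by simp [zr]
    have e2 : |(zr k - z) i| = |z i - k i| := by
      rw [abs_sub_comm (z i)]
      simp [zr]
    rw [e1, e2, hA]
    field_simp
    ring

end Pool.Agent.HBW
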