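import Pool.Agent.HBW.Stmts

/-!
Squad HBW, module ALD: aliasing in dimension `D`.
-/

set_option autoImplicit false

namespace Pool.Agent.HBW

open MeasureTheory Set Filter Topology
open scoped ENNReal Real

namespace ALD_

/-- products of sums -/
theorem tsum_pi (D : ℕ) (f : Fin D → ℤ → ℂ) (hf : ∀ i, Summable fun k => ‖f i k‖) :
    (Summable fun k : Fin D → ℤ => ‖∏ i, f i (k i)‖) ∧
    ∑' k : Fin D → ℤ, ∏ i, f i (k i) = ∏ i, ∑' k, f i k := by
  induction D with
  | zero =>
    refine ⟨?_, ?_⟩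
    · exact (hasSum_fintype _).summable
    · rw [tsum_fintype]
      simp
  | succ D ih =>
    obtain ⟨h1, h2⟩ := ih (fun i => f i.succ) (fun i => hf i.succ)
    set g : (Fin D → ℤ) → ℂ := fun k => ∏ i : Fin D, f i.succ (k i) with hg
    have h1' : Summable fun k => ‖g k‖ := h1
    have h2' : ∑' k, g k = ∏ i : Fin D, ∑' k, f i.succ k := h2
    have hprod : ∀ p : ℤ × (Fin D → ℤ), ∏ i, f i
        ((Fin.consEquiv (fun _ : Fin (D + 1) => ℤ)) p i) =
        f 0 p.1 * g p.2 := by
      intro p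
      rw [Fin.prod_univ_succ]
      rfl
    refine ⟨?_, ?_⟩
    · rw [← (Fin.consEquiv (fun _ : Fin (D + 1) => ℤ)).summable_iff]
      have h3 := Summable.mul_norm (hf 0) h1'
      refine h3.congr fun p => ?_
      rw [← hprod]
      rfl
    · rw [← (Fin.consEquiv (fun _ : Fin (D + 1) => ℤ)).tsum_eq, Fin.prod_univ_succ, ← h2',
        tsum_mul_tsum_of_summable_norm (hf 0) h1']
      exact tsum_congr hprod

theorem mprod {D : ℕ} {M : Type} [CommMonoid M] (w : List (Fin D)) (f : Fin D → M) :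
    (w.map f).prod = ∏ i, f i ^ w.count i := by
  rw [Finset.prod_list_map_count]
  refine Finset.prod_subset (Finset.subset_univ _) fun i _ hi => ?_
  rw [List.count_eq_zero_of_not_mem (by simpa using hi), pow_zero]

theorem sum_count {D : ℕ} (w : List (Fin D)) : ∑ i, w.count i = w.length := by
  rw [← List.sum_toFinset_count_eq_length]
  refine (Finset.sum_subset (Finset.subset_univ _) fun i _ hi => ?_).symm
  exact List.count_eq_zero_of_not_mem (by simpa using hi)

theorem prod_fact {D : ℕ} (w : List (Fin D)) {N : ℕ} (hw : w.length ≤ N) :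
    ∏ i, ((w.count i).factorial : ℝ) ≤ (N : ℝ) ^ w.length := by
  have h1 : ∏ i, (w.count i).factorial ≤ w.length.factorial := by
    have := Nat.le_of_dvd (Nat.factorial_pos _)
      (Nat.prod_factorial_dvd_factorial_sum Finset.univ fun i => w.count i)
    rwa [sum_count] at this
  have h2 : w.length.factorial ≤ N ^ w.length :=
    (Nat.factorial_le_pow _).trans (Nat.pow_le_pow_left hw _)
  exact_mod_cast h1.trans h2

/-- perturbation of products -/
theorem prod_pert {ι : Type} (s : Finset ι) (S I : ι → ℂ) (G : ι → ℝ) (ε : ℝ) (hε : 0 ≤ ε)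
    (hG : ∀ i, 0 ≤ G i) (hI : ∀ i, ‖I i‖ ≤ G i) (hS : ∀ i, ‖S i - I i‖ ≤ G i * ε) :
    ‖∏ i ∈ s, S i - ∏ i ∈ s, I i‖ ≤ (∏ i ∈ s, G i) * ((1 + ε) ^ s.card - 1) := by
  classical
  induction s using Finset.induction_on with
  | empty => simp
  | insert a s ha ih =>
    rw [Finset.prod_insert ha, Finset.prod_insert ha, Finset.prod_insert ha,
      Finset.card_insert_of_notMem ha]
    have hSn : ∀ i, ‖S i‖ ≤ G i * (1 + ε) := by
      intro i
      calc ‖S i‖ = ‖(S i - I i) + I i‖ := by ring_nf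
        _ ≤ ‖S i - I i‖ + ‖I i‖ := norm_add_le _ _
        _ ≤ G i * ε + G i := add_le_add (hS i) (hI i)
        _ = _ := by ring
    have hSp : ‖∏ i ∈ s, S i‖ ≤ (∏ i ∈ s, G i) * (1 + ε) ^ s.card := by
      rw [norm_prod, ← Finset.prod_const, ← Finset.prod_mul_distrib]
      exact Finset.prod_le_prod (fun i _ => norm_nonneg _) fun i _ => hSn i
    have hGp : 0 ≤ ∏ i ∈ s, G i := Finset.prod_nonneg fun i _ => hG i
    calc ‖S a * ∏ i ∈ s, S i - I a * ∏ i ∈ s, I i‖
        = ‖(S a - I a) * ∏ i ∈ s, S i + I a * (∏ i ∈ s, S i - ∏ i ∈ s, I i)‖ := by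
          ring_nf
      _ ≤ ‖(S a - I a) * ∏ i ∈ s, S i‖ + ‖I a * (∏ i ∈ s, S i - ∏ i ∈ s, I i)‖ :=
          norm_add_le _ _
      _ = ‖S a - I a‖ * ‖∏ i ∈ s, S i‖ + ‖I a‖ * ‖∏ i ∈ s, S i - ∏ i ∈ s, I i‖ := by
          rw [norm_mul, norm_mul]
      _ ≤ (G a * ε) * ((∏ i ∈ s, G i) * (1 + ε) ^ s.card) +
          G a * ((∏ i ∈ s, G i) * ((1 + ε) ^ s.card - 1)) := by
          have := hG a
          have h1 := hS a
          have h2 := hI a
          gcongr
      _ = G a * (∏ i ∈ s, G i) * ((1 + ε) ^ (s.card + 1) - 1) := by ring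

end ALD_

open ALD_ in
theorem ald_proof (hTH1 : Stmt_TH1) (hIN1 : Stmt_IN1) (hALB : Stmt_ALB) : Stmt_ALD := by
  intro D τ ζ w v z hD hτ hDτ hζ hw hv
  have hτ0 : (0 : ℝ) < τ := by linarith
  have hζre : 0 < ζ.re := by
    have h1 : |(ζ - (τ : ℂ)).re| ≤ τ / 2 := (Complex.abs_re_le_norm _).trans hζ
    rw [Complex.sub_re, Complex.ofReal_re] at h1
    have := (abs_le.1 h1).1
    linarith
  have hζn : ‖ζ‖ ≤ 3 * τ / 2 := by
    calc ‖ζ‖ = ‖(ζ - τ) + (τ : ℂ)‖ := by ring_nf
      _ ≤ ‖ζ - τ‖ + ‖(τ : ℂ)‖ := norm_add_le _ _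
      _ ≤ τ / 2 + τ := by
          rw [Complex.norm_real, Real.norm_eq_abs, abs_of_pos hτ0]
          linarith
      _ = _ := by ring
  have hsum : Summable (fun k : Z D => ‖gw w ζ (z - zr k) * (mon v (zr k - z) : ℂ)‖) := by
    obtain ⟨b, hb, hbk⟩ := hALB D τ w v z hτ0
    exact Summable.of_nonneg_of_le (fun k => norm_nonneg _) (fun k => hbk ζ hζ k) hb
  refine ⟨hsum, ?_⟩
  -- coordinates
  set a : Fin D → ℕ := fun i => w.count i with ha
  set b : Fin D → ℕ := fun i => v.count i with hb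
  set f : Fin D → ℤ → ℂ := fun i k =>
    iteratedDeriv (a i) (phc ζ) ((z i - k : ℝ) : ℂ) * (((k : ℝ) - z i : ℝ) : ℂ) ^ b i with hf
  have hT := fun i => hTH1 τ ζ (a i) (b i) (z i) hτ hζ
  have hN := fun i => hIN1 ζ (a i) (b i) hζre
  set I : Fin D → ℂ := fun i =>
    ∫ t : ℝ, iteratedDeriv (a i) (phc ζ) ((-t : ℝ) : ℂ) * (t : ℂ) ^ b i with hI
  set S : Fin D → ℂ := fun i => ∑' k : ℤ, f i k with hS
  have hmon : ∀ x : P D, (mon v x : ℂ) = ∏ i, (x i : ℂ) ^ b i := by
    intro x
    unfold mon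
    rw [mprod]
    push_cast
    rfl
  have hterm : ∀ k : Z D, gw w ζ (z - zr k) * (mon v (zr k - z) : ℂ) = ∏ i, f i (k i) := by
    intro k
    rw [hmon]
    unfold gw
    rw [← Finset.prod_mul_distrib]
    rfl
  have hlat : (∑' k : Z D, gw w ζ (z - zr k) * (mon v (zr k - z) : ℂ)) = ∏ i, S i := by
    rw [tsum_congr hterm]
    exact (tsum_pi D f fun i => (hT i).1).2
  have hint : INc ζ w v = ∏ i, I i := by
    unfold INc
    have h1 : ∀ x : P D, gw w ζ (-x) * (mon v x : ℂ) = ∏ i,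
        (fun (i : Fin D) (t : ℝ) => iteratedDeriv (a i) (phc ζ) ((-t : ℝ) : ℂ) *
          (t : ℂ) ^ b i) i (x i) := by
      intro x
      rw [hmon]
      unfold gw
      rw [← Finset.prod_mul_distrib]
      rfl
    simp_rw [h1]
    exact integral_fintype_prod_volume_eq_prod (fun (i : Fin D) (t : ℝ) =>
      iteratedDeriv (a i) (phc ζ) ((-t : ℝ) : ℂ) * (t : ℂ) ^ b i)
  rw [hlat, hint]
  -- the bounds
  set G : Fin D → ℝ := fun i => (a i).factorial * (b i).factorial * (8 * τ) ^ b i with hG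
  have hG0 : ∀ i, 0 ≤ G i := fun i => by rw [hG]; positivity
  have hfac : ∀ m : ℕ, (1 : ℝ) ≤ (m.factorial : ℝ) := by
    intro m
    exact_mod_cast Nat.one_le_iff_ne_zero.2 (Nat.factorial_ne_zero m)
  have hIG : ∀ i, ‖I i‖ ≤ G i := by
    intro i
    obtain ⟨-, m, j, hm, hj, -, hmj⟩ := hN i
    have h1 : I i = m * ζ ^ j := hmj ζ hζre
    rw [h1, norm_mul, norm_pow]
    calc ‖m‖ * ‖ζ‖ ^ j ≤ (b i).factorial * (3 * τ / 2) ^ j := by gcongr
      _ ≤ (b i).factorial * (8 * τ) ^ j := by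
          gcongr
          linarith
      _ ≤ (b i).factorial * (8 * τ) ^ b i := by
          gcongr
          linarith
      _ = 1 * (b i).factorial * (8 * τ) ^ b i := by ring
      _ ≤ G i := by
          have := hfac (a i)
          show 1 * ((b i).factorial : ℝ) * (8 * τ) ^ b i ≤
            ((a i).factorial : ℝ) * (b i).factorial * (8 * τ) ^ b i
          gcongr
  have hSG : ∀ i, ‖S i - I i‖ ≤ G i * (3 * Real.exp (-3 * τ)) := by
    intro i
    refine (hT i).2.trans ?_
    rw [hG]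
    have h1 : (8 : ℝ) ^ b i ≤ (8 * τ) ^ b i := by
      gcongr
      linarith
    calc ((a i).factorial : ℝ) * (b i).factorial * 8 ^ b i * 3 * Real.exp (-3 * τ)
        ≤ ((a i).factorial : ℝ) * (b i).factorial * (8 * τ) ^ b i * 3 * Real.exp (-3 * τ) := by
          gcongr
      _ = _ := by ring
  have hP := prod_pert Finset.univ S I G (3 * Real.exp (-3 * τ)) (by positivity) hG0 hIG hSG
  rw [Finset.card_univ, Fintype.card_fin] at hP
  refine hP.trans ?_
  -- the power
  have hD0 : (0 : ℝ) ≤ D := by positivity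
  have hpow : (1 + 3 * Real.exp (-3 * τ)) ^ D - 1 ≤ 6 * D * Real.exp (-3 * τ) := by
    have h1 : (1 + 3 * Real.exp (-3 * τ)) ^ D ≤ Real.exp (D * (3 * Real.exp (-3 * τ))) := by
      rw [Real.exp_nat_mul]
      apply pow_le_pow_left₀ (by positivity)
      have := Real.add_one_le_exp (3 * Real.exp (-3 * τ))
      linarith
    have h2 : (D : ℝ) * (3 * Real.exp (-3 * τ)) ≤ 1 / 2 := by
      have h3 : Real.exp (-3 * τ) = Real.exp (-τ) * Real.exp (-2 * τ) := by
        rw [← Real.exp_add]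
        congr 1
        ring
      have h4 : (D : ℝ) * Real.exp (-τ) ≤ 1 := by
        calc (D : ℝ) * Real.exp (-τ) ≤ Real.exp τ * Real.exp (-τ) := by gcongr
          _ = 1 := by rw [← Real.exp_add]; simp
      have h5 : Real.exp (-2 * τ) ≤ 1 / 6 := by
        rw [show -2 * τ = -(2 * τ) by ring, Real.exp_neg]
        rw [inv_le_comm₀ (Real.exp_pos _) (by norm_num)]
        have := Real.add_one_le_exp (2 * τ)
        linarith
      calc (D : ℝ) * (3 * Real.exp (-3 * τ)) = 3 * ((D : ℝ) * Real.exp (-τ)) *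
            Real.exp (-2 * τ) := by rw [h3]; ring
        _ ≤ 3 * 1 * (1 / 6) := by
            have : 0 ≤ (D : ℝ) * Real.exp (-τ) := by positivity
            gcongr
        _ = 1 / 2 := by norm_num
    set x : ℝ := (D : ℝ) * (3 * Real.exp (-3 * τ)) with hx
    have hx0 : 0 ≤ x := by positivity
    have h6 : Real.exp x ≤ 1 + 2 * x := by
      refine (Real.exp_bound_div_one_sub_of_interval hx0 (by linarith)).trans ?_
      rw [div_le_iff₀ (by linarith)]
      nlinarith
    have h7 : 6 * (D : ℝ) * Real.exp (-3 * τ) = 2 * x := by rw [hx]; ring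
    linarith
  have hGp : ∏ i, G i ≤ (2 * (D : ℝ)) ^ w.length * ((2 * (D : ℝ)) ^ v.length *
      (8 ^ v.length * τ ^ v.length)) := by
    have h1 : ∏ i, G i = (∏ i, ((w.count i).factorial : ℝ)) *
        ((∏ i, ((v.count i).factorial : ℝ)) * ((8 * τ) ^ v.length)) := by
      have h2 : (8 * τ) ^ v.length = ∏ i, (8 * τ) ^ v.count i := by
        rw [Finset.prod_pow_eq_pow_sum, sum_count]
      rw [h2, ← Finset.prod_mul_distrib, ← Finset.prod_mul_distrib]
      exact Finset.prod_congr rfl fun i _ => by rw [hG]; ring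
    rw [h1, ← mul_pow 8 τ]
    have h3 := prod_fact w hw
    have h4 := prod_fact v hv
    push_cast at h3 h4
    gcongr
  have hτv : τ ^ v.length * Real.exp (-3 * τ) ≤ (2 * (D : ℝ)) ^ v.length * Real.exp (-2 * τ) := by
    have h1 := Real.pow_div_factorial_le_exp τ hτ0.le v.length
    have h2 : (0 : ℝ) < (v.length.factorial : ℝ) := by positivity
    rw [div_le_iff₀ h2] at h1
    have h3 : ((v.length.factorial : ℕ) : ℝ) ≤ (2 * (D : ℝ)) ^ v.length := by
      have : v.length.factorial ≤ (2 * D) ^ v.length :=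
        (Nat.factorial_le_pow _).trans (Nat.pow_le_pow_left hv _)
      exact_mod_cast this
    calc τ ^ v.length * Real.exp (-3 * τ)
        ≤ (Real.exp τ * (v.length.factorial : ℝ)) * Real.exp (-3 * τ) := by gcongr
      _ = (v.length.factorial : ℝ) * Real.exp (-2 * τ) := by
          have : Real.exp (-2 * τ) = Real.exp τ * Real.exp (-3 * τ) := by
            rw [← Real.exp_add]
            congr 1
            ring
          rw [this]
          ring
      _ ≤ _ := by gcongr
  have hpow0 : 0 ≤ (1 + 3 * Real.exp (-3 * τ)) ^ D - 1 := by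
    have : 1 ≤ (1 + 3 * Real.exp (-3 * τ)) ^ D := one_le_pow₀ (by
      have := Real.exp_pos (-3 * τ)
      linarith)
    linarith
  calc (∏ i, G i) * ((1 + 3 * Real.exp (-3 * τ)) ^ D - 1)
      ≤ ((2 * (D : ℝ)) ^ w.length * ((2 * (D : ℝ)) ^ v.length *
        (8 ^ v.length * τ ^ v.length))) * (6 * D * Real.exp (-3 * τ)) := by gcongr
    _ = ((2 * (D : ℝ)) ^ w.length * (2 * (D : ℝ)) ^ v.length * 8 ^ v.length * (6 * D)) *
        (τ ^ v.length * Real.exp (-3 * τ)) := by ring
    _ ≤ ((2 * (D : ℝ)) ^ w.length * (2 * (D : ℝ)) ^ v.length * 8 ^ v.length * (6 * D)) *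
        ((2 * (D : ℝ)) ^ v.length * Real.exp (-2 * τ)) := by gcongr
    _ = (2 * (D : ℝ)) ^ w.length * (32 * (D : ℝ) ^ 2) ^ v.length * (6 * D) *
        Real.exp (-2 * τ) := by
        have : (32 * (D : ℝ) ^ 2) ^ v.length =
            (2 * (D : ℝ)) ^ v.length * 8 ^ v.length * (2 * (D : ℝ)) ^ v.length := by
          rw [← mul_pow, ← mul_pow]
          congr 1
          ring
        rw [this]
        ring

end Pool.Agent.HBW
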