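import Pool.Agent.HBW.Stmts

set_option autoImplicit false

namespace Pool.Agent.HBW

open MeasureTheory Set Filter Topology
open scoped ENNReal Real

namespace CCB_

theorem fac (r : ℕ) : 2 ^ r * (r.factorial * r.factorial) ≤ (2 * r).factorial := by
  induction r with
  | zero => simp
  | succ r ih =>
    have e : (2 * (r + 1)).factorial = (2 * r + 2) * ((2 * r + 1) * (2 * r).factorial) := by
      rw [show 2 * (r + 1) = (2 * r + 1) + 1 by ring, Nat.factorial_succ, Nat.factorial_succ]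
    rw [e, Nat.factorial_succ]
    calc 2 ^ (r + 1) * ((r + 1) * r.factorial * ((r + 1) * r.factorial))
        = (2 * r + 2) * ((r + 1) * (2 ^ r * (r.factorial * r.factorial))) := by ring
      _ ≤ (2 * r + 2) * ((2 * r + 1) * (2 * r).factorial) := by
          gcongr
          omega

theorem facR (r : ℕ) : (4 : ℝ) ^ r * r.factorial / (2 * r).factorial ≤ 2 ^ r / r.factorial := by
  have h := fac r
  have h' : (2 : ℝ) ^ r * ((r.factorial : ℝ) * r.factorial) ≤ ((2 * r).factorial : ℝ) := by exact_mod_cast h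
  have p1 : (0 : ℝ) < r.factorial := by exact_mod_cast Nat.factorial_pos r
  have p2 : (0 : ℝ) < (2 * r).factorial := by exact_mod_cast Nat.factorial_pos _
  rw [div_le_div_iff₀ p2 p1]
  have h4 : (4 : ℝ) ^ r = 2 ^ r * 2 ^ r := by rw [← mul_pow]; norm_num
  rw [h4]
  calc (2 : ℝ) ^ r * 2 ^ r * r.factorial * r.factorial
      = 2 ^ r * (2 ^ r * ((r.factorial : ℝ) * r.factorial)) := by ring
    _ ≤ 2 ^ r * (2 * r).factorial := by gcongr

theorem facR1 (r : ℕ) : (4 : ℝ) ^ r * r.factorial / (2 * r + 1).factorial ≤ 2 ^ r / r.factorial := by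
  refine le_trans ?_ (facR r)
  have p2 : (0 : ℝ) < (2 * r).factorial := by exact_mod_cast Nat.factorial_pos _
  have h : ((2 * r).factorial : ℝ) ≤ ((2 * r + 1).factorial : ℝ) := by
    exact_mod_cast Nat.factorial_le (by omega)
  gcongr

theorem hs (a : ℝ) (c : ℝ) : HasSum (fun r : ℕ => c * (a ^ r / r.factorial)) (c * Real.exp a) := by
  have h := NormedSpace.expSeries_div_hasSum_exp (𝔸 := ℝ) a
  rw [← Real.exp_eq_exp_ℝ] at h
  exact h.mul_left c

theorem pcb (ω τ : ℝ) (x : ℂ) (hτ : 0 < τ) (hx : ‖x‖ = τ / 2) :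
    ‖Pc ω x‖ ≤ 2 / τ * Real.exp (4 * ω ^ 2 / τ) := by
  refine tsum_of_norm_bounded (hs (4 * ω ^ 2 / τ) (2 / τ)) fun r => ?_
  rw [norm_mul, norm_div, norm_mul, norm_mul, norm_inv, norm_pow x, hx, norm_pow, norm_pow, norm_neg,
    Complex.norm_natCast, Complex.norm_natCast, Complex.norm_real, Real.norm_eq_abs]
  have h4 : ‖(4 : ℂ)‖ = 4 := by simp
  have ho : |ω| ^ (2 * r) = (ω ^ 2) ^ r := by rw [pow_mul, sq_abs]
  rw [h4, ho]
  have hb := facR r
  have hinv : ((τ / 2) ^ (r + 1))⁻¹ = 2 / τ * (2 / τ) ^ r := by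
    rw [← inv_pow, inv_div, pow_succ]
    ring
  rw [hinv]
  calc (ω ^ 2) ^ r * 4 ^ r * r.factorial / (2 * r).factorial * (2 / τ * (2 / τ) ^ r)
      = (4 ^ r * r.factorial / (2 * r).factorial) * ((ω ^ 2) ^ r * (2 / τ * (2 / τ) ^ r)) := by ring
    _ ≤ (2 ^ r / r.factorial) * ((ω ^ 2) ^ r * (2 / τ * (2 / τ) ^ r)) := by gcongr
    _ = 2 / τ * ((2 * ω ^ 2 * (2 / τ)) ^ r / r.factorial) := by
        rw [mul_pow, mul_pow]
        ring
    _ = 2 / τ * ((4 * ω ^ 2 / τ) ^ r / r.factorial) := by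
        rw [show 2 * ω ^ 2 * (2 / τ) = 4 * ω ^ 2 / τ by ring]

theorem psb (ω τ : ℝ) (x : ℂ) (hτ : 0 < τ) (hω : 0 ≤ ω) (hx : ‖x‖ = τ / 2) :
    ‖Ps ω x‖ ≤ ω * (2 / τ) * Real.exp (4 * ω ^ 2 / τ) := by
  refine tsum_of_norm_bounded (hs (4 * ω ^ 2 / τ) (ω * (2 / τ))) fun r => ?_
  rw [norm_mul, norm_div, norm_mul, norm_mul, norm_inv, norm_pow x, hx, norm_pow, norm_pow, norm_neg,
    Complex.norm_natCast, Complex.norm_natCast, Complex.norm_real, Real.norm_eq_abs]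
  have h4 : ‖(4 : ℂ)‖ = 4 := by simp
  have ho : |ω| ^ (2 * r + 1) = (ω ^ 2) ^ r * ω := by rw [pow_succ, pow_mul, sq_abs, abs_of_nonneg hω]
  rw [h4, ho]
  have hb := facR1 r
  have hinv : ((τ / 2) ^ (r + 1))⁻¹ = 2 / τ * (2 / τ) ^ r := by
    rw [← inv_pow, inv_div, pow_succ]
    ring
  rw [hinv]
  calc (ω ^ 2) ^ r * ω * 4 ^ r * r.factorial / (2 * r + 1).factorial * (2 / τ * (2 / τ) ^ r)
      = (4 ^ r * r.factorial / (2 * r + 1).factorial) * ((ω ^ 2) ^ r * ω * (2 / τ * (2 / τ) ^ r)) := by ring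
    _ ≤ (2 ^ r / r.factorial) * ((ω ^ 2) ^ r * ω * (2 / τ * (2 / τ) ^ r)) := by gcongr
    _ = ω * (2 / τ) * ((2 * ω ^ 2 * (2 / τ)) ^ r / r.factorial) := by
        rw [mul_pow, mul_pow]
        ring
    _ = ω * (2 / τ) * ((4 * ω ^ 2 / τ) ^ r / r.factorial) := by
        rw [show 2 * ω ^ 2 * (2 / τ) = 4 * ω ^ 2 / τ by ring]

end CCB_

open CCB_ in
theorem ccb_proof : Stmt_CCB := by
  intro ω τ C g hτ hω hg
  have hR : (0 : ℝ) ≤ τ / 2 := by linarith
  have hball : ∀ ζ ∈ Metric.sphere (τ : ℂ) (τ / 2), ‖ζ - τ‖ = τ / 2 := fun ζ hζ => by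
    rwa [← dist_eq_norm]
  constructor
  · have h1 := circleIntegral.norm_two_pi_i_inv_smul_integral_le_of_norm_le_const
      (f := fun ζ => Pc ω (ζ - τ) * g ζ) (c := (τ : ℂ)) (R := τ / 2)
      (C := 2 / τ * Real.exp (4 * ω ^ 2 / τ) * C) hR (fun ζ hζ => by
        have hz := hball ζ hζ
        rw [norm_mul]
        exact mul_le_mul (pcb ω τ _ hτ hz) (hg ζ hz) (norm_nonneg _) (by positivity))
    rw [smul_eq_mul] at h1
    refine h1.trans (le_of_eq ?_)
    field_simp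
  · have h1 := circleIntegral.norm_two_pi_i_inv_smul_integral_le_of_norm_le_const
      (f := fun ζ => Ps ω (ζ - τ) * g ζ) (c := (τ : ℂ)) (R := τ / 2)
      (C := ω * (2 / τ) * Real.exp (4 * ω ^ 2 / τ) * C) hR (fun ζ hζ => by
        have hz := hball ζ hζ
        rw [norm_mul]
        exact mul_le_mul (psb ω τ _ hτ hω hz) (hg ζ hz) (norm_nonneg _) (by positivity))
    rw [smul_eq_mul] at h1
    refine h1.trans (le_of_eq ?_)
    field_simp

end Pool.Agent.HBW
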