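import Pool.Agent.HBW.Stmts

/-!
Squad HBW, module CCI: interchange of the circle transforms with sums.
-/

set_option autoImplicit false

namespace Pool.Agent.HBW

open MeasureTheory Set Filter Topology
open scoped ENNReal Real

noncomputable section

namespace CCI_

lemma fac (r : ℕ) : (r.factorial : ℝ) / ((2 * r).factorial : ℝ) ≤ 1 / (r.factorial : ℝ) := by
  have h1 : r.factorial * r.factorial ≤ (2 * r).factorial := by
    have := Nat.le_of_dvd (Nat.factorial_pos (r + r)) (Nat.factorial_mul_factorial_dvd_factorial_add r r)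
    rwa [← two_mul] at this
  have h2 : (r.factorial : ℝ) * r.factorial ≤ ((2 * r).factorial : ℝ) := by exact_mod_cast h1
  have h3 : (0 : ℝ) < r.factorial := by exact_mod_cast r.factorial_pos
  have h4 : (0 : ℝ) < (2 * r).factorial := by exact_mod_cast (2 * r).factorial_pos
  rw [div_le_div_iff₀ h4 h3]
  linarith

lemma fac' (r : ℕ) : (r.factorial : ℝ) / ((2 * r + 1).factorial : ℝ) ≤ 1 / (r.factorial : ℝ) := by
  refine le_trans ?_ (fac r)
  have h4 : (0 : ℝ) < (2 * r).factorial := by exact_mod_cast (2 * r).factorial_pos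
  have h3 : (0 : ℝ) ≤ r.factorial := by positivity
  refine div_le_div_of_nonneg_left h3 h4 ?_
  exact_mod_cast Nat.factorial_le (Nat.le_succ _)

/-- continuity of `Pc` on circles -/
lemma Pc_cont (ω s : ℝ) (hs : 0 < s) : ContinuousOn (Pc ω) (Metric.sphere (0 : ℂ) s) := by
  unfold Pc
  refine continuousOn_tsum (u := fun r : ℕ => s⁻¹ * ((4 * ω ^ 2 / s) ^ r / (r.factorial : ℝ)))
    ?_ ?_ ?_
  · intro r
    refine ContinuousOn.mul continuousOn_const (ContinuousOn.inv₀ (by fun_prop) ?_)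
    intro x hx
    have : x ≠ 0 := by
      rintro rfl
      simp at hx
      exact hs.ne hx
    exact pow_ne_zero _ this
  · exact (Real.summable_pow_div_factorial _).mul_left _
  · intro r x hx
    have hx' : ‖x‖ = s := by simpa using hx
    have h4 : (0 : ℝ) < (2 * r).factorial := by exact_mod_cast (2 * r).factorial_pos
    have : ‖(ω : ℂ) ^ (2 * r) * (-4) ^ r * (r.factorial : ℂ) / ((2 * r).factorial : ℂ) *
        (x ^ (r + 1))⁻¹‖ = s⁻¹ * (4 * ω ^ 2 / s) ^ r * ((r.factorial : ℝ) /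
          ((2 * r).factorial : ℝ)) := by
      rw [norm_mul, norm_div, norm_mul, norm_mul, norm_pow, norm_pow, norm_inv, norm_pow, hx']
      simp only [Complex.norm_real, Complex.norm_natCast, norm_neg, Real.norm_eq_abs]
      rw [pow_mul, sq_abs, div_pow, mul_pow]
      have : ‖(4 : ℂ)‖ = 4 := by simp
      rw [this]
      field_simp
      ring
    rw [this]
    calc s⁻¹ * (4 * ω ^ 2 / s) ^ r * ((r.factorial : ℝ) / ((2 * r).factorial : ℝ))
        ≤ s⁻¹ * (4 * ω ^ 2 / s) ^ r * (1 / (r.factorial : ℝ)) := by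
          refine mul_le_mul_of_nonneg_left (fac r) (by positivity)
      _ = s⁻¹ * ((4 * ω ^ 2 / s) ^ r / (r.factorial : ℝ)) := by ring

/-- continuity of `Ps` on circles -/
lemma Ps_cont (ω s : ℝ) (hs : 0 < s) : ContinuousOn (Ps ω) (Metric.sphere (0 : ℂ) s) := by
  unfold Ps
  refine continuousOn_tsum
    (u := fun r : ℕ => |ω| * s⁻¹ * ((4 * ω ^ 2 / s) ^ r / (r.factorial : ℝ))) ?_ ?_ ?_
  · intro r
    refine ContinuousOn.mul continuousOn_const (ContinuousOn.inv₀ (by fun_prop) ?_)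
    intro x hx
    have : x ≠ 0 := by
      rintro rfl
      simp at hx
      exact hs.ne hx
    exact pow_ne_zero _ this
  · exact (Real.summable_pow_div_factorial _).mul_left _
  · intro r x hx
    have hx' : ‖x‖ = s := by simpa using hx
    have h4 : (0 : ℝ) < (2 * r + 1).factorial := by exact_mod_cast (2 * r + 1).factorial_pos
    have : ‖(ω : ℂ) ^ (2 * r + 1) * (-4) ^ r * (r.factorial : ℂ) / ((2 * r + 1).factorial : ℂ) *
        (x ^ (r + 1))⁻¹‖ = |ω| * s⁻¹ * (4 * ω ^ 2 / s) ^ r * ((r.factorial : ℝ) /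
          ((2 * r + 1).factorial : ℝ)) := by
      rw [norm_mul, norm_div, norm_mul, norm_mul, norm_pow, norm_pow, norm_inv, norm_pow, hx']
      simp only [Complex.norm_real, Complex.norm_natCast, norm_neg, Real.norm_eq_abs]
      rw [pow_succ, pow_mul, sq_abs, div_pow, mul_pow]
      have : ‖(4 : ℂ)‖ = 4 := by simp
      rw [this]
      field_simp
      ring
    rw [this]
    calc |ω| * s⁻¹ * (4 * ω ^ 2 / s) ^ r * ((r.factorial : ℝ) / ((2 * r + 1).factorial : ℝ))
        ≤ |ω| * s⁻¹ * (4 * ω ^ 2 / s) ^ r * (1 / (r.factorial : ℝ)) := by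
          refine mul_le_mul_of_nonneg_left (fac' r) (by positivity)
      _ = |ω| * s⁻¹ * ((4 * ω ^ 2 / s) ^ r / (r.factorial : ℝ)) := by ring

/-- the shifted kernel along the circle is continuous and bounded -/
lemma shift_cont (K : ℂ → ℂ) (τ : ℝ) (hτ : 0 < τ)
    (hK : ContinuousOn K (Metric.sphere (0 : ℂ) (τ / 2))) :
    Continuous (fun θ : ℝ => K (circleMap (τ : ℂ) (τ / 2) θ - τ)) := by
  have h1 : Continuous (fun θ : ℝ => circleMap (τ : ℂ) (τ / 2) θ - (τ : ℂ)) :=
    (continuous_circleMap _ _).sub continuous_const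
  refine hK.comp_continuous h1 ?_
  intro θ
  have := circleMap_mem_sphere (τ : ℂ) (by positivity : 0 ≤ τ / 2) θ
  simpa [Metric.mem_sphere, dist_eq_norm] using this

lemma bdd (K : ℂ → ℂ) (s : ℝ) (hK : ContinuousOn K (Metric.sphere (0 : ℂ) s)) :
    ∃ M : ℝ, 0 ≤ M ∧ ∀ x : ℂ, ‖x‖ = s → ‖K x‖ ≤ M := by
  obtain ⟨M, hM⟩ := (isCompact_sphere (0 : ℂ) s).exists_bound_of_continuousOn hK
  refine ⟨max M 0, le_max_right _ _, fun x hx => le_trans (hM x (by simpa using hx))
    (le_max_left _ _)⟩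

/-- general interchange with sums -/
lemma gen (ι : Type) (K : ℂ → ℂ) (τ : ℝ) (g : ι → ℂ → ℂ) (b : ι → ℝ) (hτ : 0 < τ)
    (hι : Countable ι) (hK : ContinuousOn K (Metric.sphere (0 : ℂ) (τ / 2)))
    (hg : ∀ k, ContinuousOn (g k) (Metric.sphere (τ : ℂ) (τ / 2))) (hb : Summable b)
    (hgb : ∀ k (ζ : ℂ), ‖ζ - (τ : ℂ)‖ = τ / 2 → ‖g k ζ‖ ≤ b k) :
    HasSum (fun k => (2 * (π : ℂ) * Complex.I)⁻¹ * ∮ ζ in C((τ : ℂ), τ / 2), K (ζ - τ) * g k ζ)
      ((2 * (π : ℂ) * Complex.I)⁻¹ * ∮ ζ in C((τ : ℂ), τ / 2), K (ζ - τ) * ∑' k, g k ζ) := by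
  refine HasSum.mul_left _ ?_
  obtain ⟨M, hM0, hM⟩ := bdd K (τ / 2) hK
  have hmem : ∀ θ : ℝ, ‖circleMap (τ : ℂ) (τ / 2) θ - τ‖ = τ / 2 := by
    intro θ
    have := circleMap_mem_sphere (τ : ℂ) (by positivity : 0 ≤ τ / 2) θ
    simpa [Metric.mem_sphere, dist_eq_norm] using this
  have hKc := shift_cont K τ hτ hK
  unfold circleIntegral
  refine intervalIntegral.hasSum_integral_of_dominated_convergence
    (fun k _ => τ / 2 * (M * b k)) ?_ ?_ ?_ ?_ ?_
  · intro k
    refine Continuous.aestronglyMeasurable ?_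
    simp only [deriv_circleMap]
    refine Continuous.smul ((continuous_circleMap _ _).mul continuous_const)
      (Continuous.mul hKc ?_)
    · refine (hg k).comp_continuous (continuous_circleMap _ _) ?_
      intro θ
      exact circleMap_mem_sphere (τ : ℂ) (by positivity : 0 ≤ τ / 2) θ
  · intro k
    refine Eventually.of_forall fun θ _ => ?_
    rw [norm_smul, norm_mul, deriv_circleMap, norm_mul, Complex.norm_I, mul_one,
      norm_circleMap_zero, abs_of_pos (by positivity : 0 < τ / 2)]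
    have h1 := hM _ (hmem θ)
    have h2 := hgb k _ (hmem θ)
    gcongr
  · refine Eventually.of_forall fun θ _ => ?_
    exact (hb.mul_left M).mul_left (τ / 2)
  · exact intervalIntegrable_const
  · refine Eventually.of_forall fun θ _ => ?_
    refine HasSum.const_smul _ (HasSum.mul_left _ ?_)
    refine Summable.hasSum ?_
    exact Summable.of_norm_bounded hb (fun k => hgb k _ (hmem θ))

end CCI_

theorem cci_proof : Stmt_CCI := by
  intro ι ω τ g b hτ hι hg hb hgb
  refine ⟨?_, ?_⟩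
  · exact CCI_.gen ι (Pc ω) τ g b hτ hι (CCI_.Pc_cont ω (τ / 2) (by positivity)) hg hb hgb
  · exact CCI_.gen ι (Ps ω) τ g b hτ hι (CCI_.Ps_cont ω (τ / 2) (by positivity)) hg hb hgb

end

end Pool.Agent.HBW
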