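import Pool.Agent.HBW.CCI

/-!
Squad HBW, module CCJ: interchange of the circle transforms with integrals.
-/

set_option autoImplicit false

namespace Pool.Agent.HBW

open MeasureTheory Set Filter Topology
open scoped ENNReal Real

noncomputable section

namespace CCJ_

/-- general interchange with integrals -/
lemma gen (D : ℕ) (K : ℂ → ℂ) (τ : ℝ) (g : ℂ → P D → ℂ) (b : P D → ℝ) (hτ : 0 < τ)
    (hK : ContinuousOn K (Metric.sphere (0 : ℂ) (τ / 2)))
    (hg : ContinuousOn (fun p : ℂ × P D => g p.1 p.2) (Metric.sphere (τ : ℂ) (τ / 2) ×ˢ univ))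
    (hb : Integrable b)
    (hgb : ∀ (ζ : ℂ) (x : P D), ‖ζ - (τ : ℂ)‖ = τ / 2 → ‖g ζ x‖ ≤ b x) :
    Integrable (fun x => (2 * (π : ℂ) * Complex.I)⁻¹ *
      ∮ ζ in C((τ : ℂ), τ / 2), K (ζ - τ) * g ζ x) ∧
    ∫ x, (2 * (π : ℂ) * Complex.I)⁻¹ * ∮ ζ in C((τ : ℂ), τ / 2), K (ζ - τ) * g ζ x =
      (2 * (π : ℂ) * Complex.I)⁻¹ * ∮ ζ in C((τ : ℂ), τ / 2), K (ζ - τ) * ∫ x, g ζ x := by
  obtain ⟨M, hM0, hM⟩ := CCI_.bdd K (τ / 2) hK
  have hmem : ∀ θ : ℝ, ‖circleMap (τ : ℂ) (τ / 2) θ - τ‖ = τ / 2 := by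
    intro θ
    have := circleMap_mem_sphere (τ : ℂ) (by positivity : 0 ≤ τ / 2) θ
    simpa [Metric.mem_sphere, dist_eq_norm] using this
  have hKc := CCI_.shift_cont K τ hτ hK
  set F : ℝ → P D → ℂ := fun θ x => deriv (circleMap (τ : ℂ) (τ / 2)) θ •
    (K (circleMap (τ : ℂ) (τ / 2) θ - τ) * g (circleMap (τ : ℂ) (τ / 2) θ) x) with hF
  have hFc : Continuous (Function.uncurry F) := by
    simp only [hF, deriv_circleMap]
    refine Continuous.smul (((continuous_circleMap _ _).comp continuous_fst).mul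
      continuous_const) (Continuous.mul (hKc.comp continuous_fst) ?_)
    have h1 : Continuous (fun p : ℝ × P D => (circleMap (τ : ℂ) (τ / 2) p.1, p.2)) :=
      ((continuous_circleMap _ _).comp continuous_fst).prodMk continuous_snd
    refine hg.comp_continuous h1 ?_
    intro p
    exact ⟨circleMap_mem_sphere (τ : ℂ) (by positivity : 0 ≤ τ / 2) p.1, mem_univ _⟩
  have hFb : ∀ θ x, ‖F θ x‖ ≤ τ / 2 * M * b x := by
    intro θ x
    simp only [hF]
    rw [norm_smul, norm_mul, deriv_circleMap, norm_mul, Complex.norm_I, mul_one,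
      norm_circleMap_zero, abs_of_pos (by positivity : 0 < τ / 2)]
    have h1 := hM _ (hmem θ)
    have h2 := hgb _ x (hmem θ)
    have h3 : 0 ≤ b x := (norm_nonneg _).trans h2
    rw [mul_assoc]
    gcongr
  have hFi : Integrable (Function.uncurry F) ((volume.restrict (Ioc 0 (2 * π))).prod volume) := by
    have hmaj : Integrable (fun p : ℝ × P D => (τ / 2 * M) * b p.2)
        ((volume.restrict (Ioc 0 (2 * π))).prod volume) := by
      refine Integrable.mul_prod (f := fun _ : ℝ => τ / 2 * M) (g := b) ?_ hb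
      exact integrable_const _
    refine hmaj.mono' hFc.aestronglyMeasurable ?_
    exact Eventually.of_forall fun p => hFb p.1 p.2
  have h2pi : (0 : ℝ) ≤ 2 * π := by positivity
  have hin : ∀ x, ∮ ζ in C((τ : ℂ), τ / 2), K (ζ - τ) * g ζ x = ∫ θ in Ioc 0 (2 * π), F θ x := by
    intro x
    unfold circleIntegral
    rw [intervalIntegral.integral_of_le h2pi]
  refine ⟨?_, ?_⟩
  · refine Integrable.const_mul ?_ _
    simp only [hin]
    exact hFi.integral_prod_right
  · rw [integral_const_mul]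
    congr 1
    simp only [hin]
    rw [← integral_integral_swap hFi]
    unfold circleIntegral
    rw [intervalIntegral.integral_of_le h2pi]
    refine integral_congr_ae (Eventually.of_forall fun θ => ?_)
    simp only [hF]
    rw [integral_smul, integral_const_mul]

end CCJ_

theorem ccj_proof : Stmt_CCJ := by
  intro D ω τ g b hτ hg hb hgb
  have h1 := CCJ_.gen D (Pc ω) τ g b hτ (CCI_.Pc_cont ω (τ / 2) (by positivity)) hg hb hgb
  have h2 := CCJ_.gen D (Ps ω) τ g b hτ (CCI_.Ps_cont ω (τ / 2) (by positivity)) hg hb hgb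
  exact ⟨h1.1, h1.2, h2.1, h2.2⟩

end

end Pool.Agent.HBW
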