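import Pool.Agent.HBW.Stmts

/-!
Squad HBW, module CCS: circle transforms as series of derivatives.
-/

set_option autoImplicit false

namespace Pool.Agent.HBW

open MeasureTheory Set Filter Topology
open scoped ENNReal Real

namespace CCS_

lemma gen (τ : ℝ) (g : ℂ → ℂ) (u : ℕ → ℂ) (hτ : 0 < τ)
    (hg : DifferentiableOn ℂ g {ζ | 0 < ζ.re})
    (hu : Summable fun r => ‖u r‖ * ((τ / 2) ^ (r + 1))⁻¹) :
    HasSum (fun r : ℕ => u r * ((r.factorial : ℂ)⁻¹ * iteratedDeriv r g τ))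
      ((2 * (π : ℂ) * Complex.I)⁻¹ *
        ∮ ζ in C((τ : ℂ), τ / 2), (∑' r, u r * ((ζ - τ) ^ (r + 1))⁻¹) * g ζ) := by
  have hs : (0 : ℝ) < τ / 2 := by positivity
  have hsub : Metric.closedBall (τ : ℂ) (τ / 2) ⊆ {ζ : ℂ | 0 < ζ.re} := by
    intro ζ hζ
    have h1 : ‖ζ - τ‖ ≤ τ / 2 := by simpa [dist_eq_norm] using hζ
    have h2 : |(ζ - τ).re| ≤ ‖ζ - τ‖ := Complex.abs_re_le_norm _
    have h3 : (ζ - τ).re = ζ.re - τ := by simp
    rw [h3] at h2
    have h4 := (abs_le.1 (h2.trans h1)).1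
    show 0 < ζ.re
    linarith
  have hgc : DifferentiableOn ℂ g (Metric.closedBall (τ : ℂ) (τ / 2)) := hg.mono hsub
  have hcont : ContinuousOn g (Metric.sphere (τ : ℂ) (τ / 2)) :=
    hgc.continuousOn.mono Metric.sphere_subset_closedBall
  obtain ⟨C, hC⟩ := (isCompact_sphere (τ : ℂ) (τ / 2)).exists_bound_of_continuousOn hcont
  have hmem : ∀ θ : ℝ, circleMap (τ : ℂ) (τ / 2) θ ∈ Metric.sphere (τ : ℂ) (τ / 2) :=
    fun θ => circleMap_mem_sphere _ hs.le θ
  have hnorm : ∀ θ : ℝ, ‖circleMap (τ : ℂ) (τ / 2) θ - τ‖ = τ / 2 := by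
    intro θ
    have := hmem θ
    rwa [mem_sphere_iff_norm] at this
  have hne : ∀ θ : ℝ, circleMap (τ : ℂ) (τ / 2) θ - τ ≠ 0 := by
    intro θ h
    have := hnorm θ
    rw [h, norm_zero] at this
    linarith
  have hgcirc : Continuous fun θ : ℝ => g (circleMap (τ : ℂ) (τ / 2) θ) :=
    hcont.comp_continuous (continuous_circleMap _ _) hmem
  have hC0 : 0 ≤ C := (norm_nonneg _).trans (hC _ (hmem 0))
  -- pointwise bound of the terms
  have hterm : ∀ (r : ℕ) (θ : ℝ),
      ‖u r * ((circleMap (τ : ℂ) (τ / 2) θ - τ) ^ (r + 1))⁻¹‖ =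
        ‖u r‖ * ((τ / 2) ^ (r + 1))⁻¹ := by
    intro r θ
    rw [norm_mul, norm_inv, norm_pow, hnorm]
  have hsum : ∀ θ : ℝ, Summable fun r =>
      u r * ((circleMap (τ : ℂ) (τ / 2) θ - τ) ^ (r + 1))⁻¹ := by
    intro θ
    apply Summable.of_norm
    refine hu.congr fun r => ?_
    rw [hterm]
  have key : HasSum (fun r : ℕ => ∫ θ in (0 : ℝ)..2 * π,
      deriv (circleMap (τ : ℂ) (τ / 2)) θ •
        ((u r * ((circleMap (τ : ℂ) (τ / 2) θ - τ) ^ (r + 1))⁻¹) *
          g (circleMap (τ : ℂ) (τ / 2) θ)))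
      (∫ θ in (0 : ℝ)..2 * π, deriv (circleMap (τ : ℂ) (τ / 2)) θ •
        ((∑' r, u r * ((circleMap (τ : ℂ) (τ / 2) θ - τ) ^ (r + 1))⁻¹) *
          g (circleMap (τ : ℂ) (τ / 2) θ))) := by
    apply intervalIntegral.hasSum_integral_of_dominated_convergence
      (fun r _ => (τ / 2) * ((‖u r‖ * ((τ / 2) ^ (r + 1))⁻¹) * C))
    · intro r
      apply Continuous.aestronglyMeasurable
      have h1 : Continuous fun θ : ℝ => deriv (circleMap (τ : ℂ) (τ / 2)) θ := by
        simp only [deriv_circleMap]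
        exact (continuous_circleMap _ _).mul continuous_const
      have h2 : Continuous fun θ : ℝ =>
          ((circleMap (τ : ℂ) (τ / 2) θ - τ) ^ (r + 1))⁻¹ := by
        apply Continuous.inv₀
        · exact ((continuous_circleMap _ _).sub continuous_const).pow _
        · intro θ
          exact pow_ne_zero _ (hne θ)
      exact h1.smul ((continuous_const.mul h2).mul hgcirc)
    · intro r
      filter_upwards with θ _
      rw [norm_smul, norm_mul, hterm, deriv_circleMap, norm_mul, Complex.norm_I, mul_one]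
      have h1 : ‖circleMap 0 (τ / 2) θ‖ = τ / 2 := by
        rw [norm_circleMap_zero, abs_of_pos hs]
      rw [h1]
      have h2 := hC _ (hmem θ)
      have h3 : 0 ≤ ‖u r‖ * ((τ / 2) ^ (r + 1))⁻¹ := by positivity
      exact mul_le_mul_of_nonneg_left (mul_le_mul_of_nonneg_left h2 h3) hs.le
    · filter_upwards with θ _
      exact (hu.mul_right C).mul_left (τ / 2)
    · exact intervalIntegrable_const
    · filter_upwards with θ _
      exact ((hsum θ).hasSum.mul_right _).const_smul _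
  have hcauchy : ∀ r : ℕ, (∫ θ in (0 : ℝ)..2 * π,
      deriv (circleMap (τ : ℂ) (τ / 2)) θ •
        ((u r * ((circleMap (τ : ℂ) (τ / 2) θ - τ) ^ (r + 1))⁻¹) *
          g (circleMap (τ : ℂ) (τ / 2) θ))) =
      u r * ((2 * π * Complex.I / r.factorial) * iteratedDeriv r g τ) := by
    intro r
    have h1 := DifferentiableOn.circleIntegral_one_div_sub_center_pow_smul hs r hgc
    rw [smul_eq_mul] at h1
    rw [← h1, circleIntegral, ← intervalIntegral.integral_const_mul]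
    apply intervalIntegral.integral_congr
    intro θ _
    simp only [smul_eq_mul, one_div]
    ring
  have hfin : (∮ ζ in C((τ : ℂ), τ / 2), (∑' r, u r * ((ζ - τ) ^ (r + 1))⁻¹) * g ζ) =
      (∫ θ in (0 : ℝ)..2 * π, deriv (circleMap (τ : ℂ) (τ / 2)) θ •
        ((∑' r, u r * ((circleMap (τ : ℂ) (τ / 2) θ - τ) ^ (r + 1))⁻¹) *
          g (circleMap (τ : ℂ) (τ / 2) θ))) := rfl
  rw [hfin]
  have h2 := key.mul_left ((2 * (π : ℂ) * Complex.I)⁻¹)
  have h3 : (fun r : ℕ => u r * ((r.factorial : ℂ)⁻¹ * iteratedDeriv r g τ)) =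
      fun r : ℕ => (2 * (π : ℂ) * Complex.I)⁻¹ * ∫ θ in (0 : ℝ)..2 * π,
      deriv (circleMap (τ : ℂ) (τ / 2)) θ •
        ((u r * ((circleMap (τ : ℂ) (τ / 2) θ - τ) ^ (r + 1))⁻¹) *
          g (circleMap (τ : ℂ) (τ / 2) θ)) := by
    funext r
    rw [hcauchy r]
    have hpi : (2 * (π : ℂ) * Complex.I) ≠ 0 := Complex.two_pi_I_ne_zero
    field_simp
  rw [h3]
  exact h2

lemma fac_bound (r : ℕ) : ((r.factorial : ℝ) / ((2 * r).factorial : ℝ)) ≤
    1 / (r.factorial : ℝ) := by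
  have h1 : r.factorial * r.factorial ≤ (2 * r).factorial := by
    have := Nat.le_of_dvd (Nat.factorial_pos _) (Nat.factorial_mul_factorial_dvd_factorial_add r r)
    rwa [← two_mul] at this
  have h2 : (r.factorial : ℝ) * r.factorial ≤ ((2 * r).factorial : ℝ) := by exact_mod_cast h1
  have h3 : (0 : ℝ) < r.factorial := by exact_mod_cast Nat.factorial_pos r
  have h4 : (0 : ℝ) < (2 * r).factorial := by exact_mod_cast Nat.factorial_pos _
  rw [div_le_div_iff₀ h4 h3]
  linarith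

lemma fac_bound' (r : ℕ) : ((r.factorial : ℝ) / ((2 * r + 1).factorial : ℝ)) ≤
    1 / (r.factorial : ℝ) := by
  refine le_trans ?_ (fac_bound r)
  have h3 : (0 : ℝ) ≤ r.factorial := by positivity
  have h4 : (0 : ℝ) < (2 * r).factorial := by exact_mod_cast Nat.factorial_pos _
  have h5 : ((2 * r).factorial : ℝ) ≤ ((2 * r + 1).factorial : ℝ) := by
    exact_mod_cast Nat.factorial_le (Nat.le_succ _)
  exact div_le_div_of_nonneg_left h3 h4 h5

end CCS_

open CCS_ in
theorem ccs_proof (_h : Stmt_CCI) : Stmt_CCS := by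
  intro ω τ g hτ hg
  have hs : (0 : ℝ) < τ / 2 := by positivity
  have hfac : ∀ r : ℕ, (0 : ℝ) < r.factorial := fun r => by exact_mod_cast Nat.factorial_pos r
  have hfacC : ∀ r : ℕ, (r.factorial : ℂ) ≠ 0 := fun r => by
    exact_mod_cast Nat.factorial_ne_zero r
  constructor
  · have h1 := gen τ g (fun r => (ω : ℂ) ^ (2 * r) * (-4) ^ r * (r.factorial : ℂ) /
      ((2 * r).factorial : ℂ)) hτ hg ?_
    · have h2 : (fun r : ℕ => (ω : ℂ) ^ (2 * r) * (-4) ^ r / ((2 * r).factorial : ℂ) *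
          iteratedDeriv r g τ) = fun r : ℕ => (ω : ℂ) ^ (2 * r) * (-4) ^ r * (r.factorial : ℂ) /
          ((2 * r).factorial : ℂ) * ((r.factorial : ℂ)⁻¹ * iteratedDeriv r g τ) := by
        funext r
        have := hfacC r
        have := hfacC (2 * r)
        field_simp
      rw [h2]
      exact h1
    · refine Summable.of_nonneg_of_le (fun r => by positivity) ?_
        ((Real.summable_pow_div_factorial (4 * ω ^ 2 / (τ / 2))).mul_left (τ / 2)⁻¹)
      intro r
      rw [norm_div, norm_mul, norm_mul, norm_pow, norm_pow, norm_neg]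
      have e1 : ‖(ω : ℂ)‖ ^ (2 * r) = (ω ^ 2) ^ r := by
        rw [Complex.norm_real, Real.norm_eq_abs, pow_mul, sq_abs]
      have e2 : ‖(4 : ℂ)‖ = 4 := by simp
      have e3 : ‖(r.factorial : ℂ)‖ = r.factorial := by simp
      have e4 : ‖((2 * r).factorial : ℂ)‖ = (2 * r).factorial := by
        rw [Complex.norm_natCast]
      rw [e1, e2, e3, e4]
      have h5 := fac_bound r
      have h6 : (ω ^ 2) ^ r * 4 ^ r * (r.factorial : ℝ) / ((2 * r).factorial : ℝ) *
          ((τ / 2) ^ (r + 1))⁻¹ = (τ / 2)⁻¹ * ((4 * ω ^ 2 / (τ / 2)) ^ r *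
            ((r.factorial : ℝ) / ((2 * r).factorial : ℝ))) := by
        rw [div_pow (4 * ω ^ 2) (τ / 2) r, mul_pow 4 (ω ^ 2) r, pow_succ (τ / 2) r]
        have := (hfac (2 * r)).ne'
        field_simp
      rw [h6]
      have h7 : (0 : ℝ) ≤ (4 * ω ^ 2 / (τ / 2)) ^ r := by positivity
      have h8 : (0 : ℝ) ≤ (τ / 2)⁻¹ := by positivity
      refine mul_le_mul_of_nonneg_left ?_ h8
      calc (4 * ω ^ 2 / (τ / 2)) ^ r * ((r.factorial : ℝ) / ((2 * r).factorial : ℝ))
          ≤ (4 * ω ^ 2 / (τ / 2)) ^ r * (1 / (r.factorial : ℝ)) :=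
            mul_le_mul_of_nonneg_left h5 h7
        _ = (4 * ω ^ 2 / (τ / 2)) ^ r / (r.factorial : ℝ) := by ring
  · have h1 := gen τ g (fun r => (ω : ℂ) ^ (2 * r + 1) * (-4) ^ r * (r.factorial : ℂ) /
      ((2 * r + 1).factorial : ℂ)) hτ hg ?_
    · have h2 : (fun r : ℕ => (ω : ℂ) ^ (2 * r + 1) * (-4) ^ r / ((2 * r + 1).factorial : ℂ) *
          iteratedDeriv r g τ) = fun r : ℕ => (ω : ℂ) ^ (2 * r + 1) * (-4) ^ r *
          (r.factorial : ℂ) / ((2 * r + 1).factorial : ℂ) *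
          ((r.factorial : ℂ)⁻¹ * iteratedDeriv r g τ) := by
        funext r
        have := hfacC r
        have := hfacC (2 * r + 1)
        field_simp
      rw [h2]
      exact h1
    · refine Summable.of_nonneg_of_le (fun r => by positivity) ?_
        ((Real.summable_pow_div_factorial (4 * ω ^ 2 / (τ / 2))).mul_left (|ω| * (τ / 2)⁻¹))
      intro r
      rw [norm_div, norm_mul, norm_mul, norm_pow, norm_pow, norm_neg]
      have e1 : ‖(ω : ℂ)‖ ^ (2 * r + 1) = |ω| * (ω ^ 2) ^ r := by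
        rw [Complex.norm_real, Real.norm_eq_abs, pow_succ, pow_mul, sq_abs, mul_comm]
      have e2 : ‖(4 : ℂ)‖ = 4 := by simp
      have e3 : ‖(r.factorial : ℂ)‖ = r.factorial := by simp
      have e4 : ‖((2 * r + 1).factorial : ℂ)‖ = (2 * r + 1).factorial := by
        rw [Complex.norm_natCast]
      rw [e1, e2, e3, e4]
      have h5 := fac_bound' r
      have h6 : |ω| * (ω ^ 2) ^ r * 4 ^ r * (r.factorial : ℝ) / ((2 * r + 1).factorial : ℝ) *
          ((τ / 2) ^ (r + 1))⁻¹ = |ω| * (τ / 2)⁻¹ * ((4 * ω ^ 2 / (τ / 2)) ^ r *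
            ((r.factorial : ℝ) / ((2 * r + 1).factorial : ℝ))) := by
        rw [div_pow (4 * ω ^ 2) (τ / 2) r, mul_pow 4 (ω ^ 2) r, pow_succ (τ / 2) r]
        have := (hfac (2 * r + 1)).ne'
        field_simp
      rw [h6]
      have h7 : (0 : ℝ) ≤ (4 * ω ^ 2 / (τ / 2)) ^ r := by positivity
      have h8 : (0 : ℝ) ≤ |ω| * (τ / 2)⁻¹ := by positivity
      refine mul_le_mul_of_nonneg_left ?_ h8
      calc (4 * ω ^ 2 / (τ / 2)) ^ r * ((r.factorial : ℝ) / ((2 * r + 1).factorial : ℝ))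
          ≤ (4 * ω ^ 2 / (τ / 2)) ^ r * (1 / (r.factorial : ℝ)) :=
            mul_le_mul_of_nonneg_left h5 h7
        _ = (4 * ω ^ 2 / (τ / 2)) ^ r / (r.factorial : ℝ) := by ring

end Pool.Agent.HBW
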