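import Pool.Agent.HBW.Stmts

set_option autoImplicit false

namespace Pool.Agent.HBW

open MeasureTheory Set Filter Topology
open scoped ENNReal Real

namespace CMX_

/-! ### the moments -/

lemma mon_eq {D : ℕ} (v : List (Fin D)) (x : P D) : mon v x = ∏ i, x i ^ v.count i := by
  induction v with
  | nil => simp [mon]
  | cons j v ih =>
    have h1 : mon (j :: v) x = x j * mon v x := by simp [mon]
    rw [h1, ih]
    have h2 : ∀ i, x i ^ (j :: v).count i = (if j = i then x i else 1) * x i ^ v.count i := by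
      intro i
      rw [List.count_cons]
      by_cases h : j = i
      · subst h
        simp [pow_succ, mul_comm]
      · have : ¬ (j == i) = true := by simpa using h
        simp [h]
    rw [Finset.prod_congr rfl (fun i _ => h2 i), Finset.prod_mul_distrib]
    congr 1
    simp

lemma integrand_eq {D : ℕ} (ζ : ℂ) (w v : List (Fin D)) (x : P D) :
    gw w ζ (-x) * (mon v x : ℂ) =
      ∏ i, (iteratedDeriv (w.count i) (phc ζ) ((-(x i) : ℝ) : ℂ) * ((x i : ℝ) : ℂ) ^ v.count i) := by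
  rw [mon_eq, gw, Finset.prod_mul_distrib]
  congr 1
  push_cast
  rfl

lemma integrable_INc (hIN1 : Stmt_IN1) {D : ℕ} (ζ : ℂ) (w v : List (Fin D)) (hζ : 0 < ζ.re) :
    Integrable (fun x : P D => gw w ζ (-x) * (mon v x : ℂ)) := by
  have h : Integrable (fun x : Fin D → ℝ => ∏ i, (iteratedDeriv (w.count i) (phc ζ)
      ((-(x i) : ℝ) : ℂ) * ((x i : ℝ) : ℂ) ^ v.count i))
      (Measure.pi (fun _ => (volume : Measure ℝ))) :=
    Integrable.fintype_prod (ι := Fin D) (𝕜 := ℂ) (E := ℝ)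
      (μ := fun _ => (volume : Measure ℝ))
      (f := fun i (t : ℝ) => iteratedDeriv (w.count i) (phc ζ) ((-t : ℝ) : ℂ) *
      ((t : ℝ) : ℂ) ^ v.count i) (fun i => (hIN1 ζ (w.count i) (v.count i) hζ).1)
  refine (Integrable.congr h ?_)
  filter_upwards with x
  rw [integrand_eq]

lemma exists_mJ (hIN1 : Stmt_IN1) {D : ℕ} (w v : List (Fin D)) :
    ∃ (m : ℂ) (J : ℕ), J ≤ v.length ∧ ∀ ζ : ℂ, 0 < ζ.re → INc ζ w v = m * ζ ^ J := by
  have h := fun i : Fin D => (hIN1 1 (w.count i) (v.count i) (by simp)).2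
  choose m j hm hj h0 hint using h
  refine ⟨∏ i, m i, ∑ i, j i, ?_, ?_⟩
  · calc ∑ i, j i ≤ ∑ i, v.count i := Finset.sum_le_sum (fun i _ => hj i)
      _ = v.length := by
        have h2 : ∑ a ∈ v.toFinset, v.count a = ∑ i, v.count i := by
          refine Finset.sum_subset (Finset.subset_univ _) ?_
          intro i _ hi
          rw [List.count_eq_zero]
          simpa using hi
        rw [← h2, List.sum_toFinset_count_eq_length]
  · intro ζ hζ
    rw [INc]
    simp_rw [integrand_eq]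
    rw [MeasureTheory.integral_fintype_prod_volume_eq_prod (ι := Fin D) (𝕜 := ℂ)
      (E := fun _ => ℝ) (f := fun i (t : ℝ) => iteratedDeriv (w.count i) (phc ζ) ((-t : ℝ) : ℂ) *
      ((t : ℝ) : ℂ) ^ v.count i)]
    rw [Finset.prod_congr rfl (fun i _ => hint i ζ hζ), Finset.prod_mul_distrib,
      Finset.prod_pow_eq_pow_sum]

lemma INc_real (hGSR : Stmt_GSR) {D : ℕ} (s : ℝ) (hs : 0 < s) (w v : List (Fin D)) :
    INc (s : ℂ) w v = ((∫ x : P D, gr w s (-x) * mon v x : ℝ) : ℂ) := by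
  rw [INc]
  have h : ∀ x : P D, gw w (s : ℂ) (-x) * (mon v x : ℂ) = ((gr w s (-x) * mon v x : ℝ) : ℂ) := by
    intro x
    rw [(hGSR D s hs).1 w (-x)]
    push_cast
    rfl
  simp_rw [h]
  exact integral_ofReal

lemma exists_mJr (hIN1 : Stmt_IN1) (hGSR : Stmt_GSR) {D : ℕ} (w v : List (Fin D)) :
    ∃ (m : ℝ) (J : ℕ), J ≤ v.length ∧ ∀ ζ : ℂ, 0 < ζ.re → INc ζ w v = (m : ℂ) * ζ ^ J := by
  obtain ⟨m, J, hJ, h⟩ := exists_mJ hIN1 w v
  refine ⟨m.re, J, hJ, ?_⟩
  have h1 := h ((1 : ℝ) : ℂ) (by simp)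
  rw [INc_real hGSR 1 one_pos] at h1
  have h2 : m = ((∫ x : P D, gr w 1 (-x) * mon v x : ℝ) : ℂ) := by
    rw [h1]; simp
  have h3 : (m.re : ℂ) = m := by
    rw [h2]; simp
  rw [h3]
  exact h

lemma integrable_gr (hIN1 : Stmt_IN1) (hGSR : Stmt_GSR) {D : ℕ} (s : ℝ) (hs : 0 < s)
    (w v : List (Fin D)) :
    Integrable (fun x : P D => gr w s (-x) * mon v x) := by
  have h := (integrable_INc hIN1 (s : ℂ) w v (by simpa using hs)).re
  refine h.congr ?_
  filter_upwards with x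
  rw [(hGSR D s hs).1 w (-x)]
  rw [← Complex.ofReal_mul]
  simp

/-! ### the third line -/

lemma third (hPO3 : Stmt_PO3) (hTEX : Stmt_TEX) (hIN1 : Stmt_IN1) (hGSR : Stmt_GSR)
    (D : ℕ) (X : Type) [NormedAddCommGroup X] [NormedSpace ℝ X]
    [FiniteDimensional ℝ X] (M : ℕ) (Q : P D → X) (s : ℝ) (w : List (Fin D)) (z : P D)
    (hQ : IsPol M Q) (hs : 0 < s) :
    (∑ m ∈ Finset.range M, (1 / m.factorial : ℝ) • ∑ v : Fin m → Fin D,
    (INc (s : ℂ) w (List.ofFn v)).re • pdw (List.ofFn v) Q z) = pdw w (Tp M s Q) z := by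
  rw [← (hPO3 D X M Q s w z hQ hs).2]
  have h1 : ∀ x, gr w s (z - x) • Q x = ∑ m ∈ Finset.range M, (1 / m.factorial : ℝ) •
      ∑ v : Fin m → Fin D, (gr w s (z - x) * mon (List.ofFn v) (x - z)) •
        pdw (List.ofFn v) Q z := by
    intro x
    conv_lhs => rw [hTEX D X M Q z x hQ]
    rw [Finset.smul_sum]
    refine Finset.sum_congr rfl (fun m _ => ?_)
    rw [smul_comm, Finset.smul_sum]
    congr 1
    refine Finset.sum_congr rfl (fun v _ => ?_)
    rw [smul_smul]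
  have hI : ∀ v : List (Fin D), Integrable (fun x : P D => gr w s (z - x) * mon v (x - z)) := by
    intro v
    have h := (integrable_gr hIN1 hGSR s hs w v).comp_sub_right z
    refine h.congr ?_
    filter_upwards with x
    simp
  have hV : ∀ v : List (Fin D), ∫ x : P D, gr w s (z - x) * mon v (x - z) =
      (INc (s : ℂ) w v).re := by
    intro v
    rw [INc_real hGSR s hs]
    rw [Complex.ofReal_re]
    rw [← integral_sub_right_eq_self (fun x : P D => gr w s (-x) * mon v x) z]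
    congr 1
    funext x
    simp
  simp_rw [h1]
  rw [integral_finsetSum]
  · refine Finset.sum_congr rfl (fun m _ => ?_)
    rw [integral_smul, integral_finsetSum]
    · congr 1
      refine Finset.sum_congr rfl (fun v _ => ?_)
      rw [integral_smul_const, hV]
    · intro v _
      exact (hI _).smul_const _
  · intro m _
    refine Integrable.smul _ ?_
    refine integrable_finsetSum _ (fun v _ => ?_)
    exact (hI _).smul_const _

/-! ### comparison of power sums -/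

lemma scal {ι κ : Type} (S : Finset ι) (T : Finset κ) (J : ι → ℕ) (L : κ → ℕ)
    (a : ι → ℝ) (b : κ → ℝ)
    (h : ∀ s : ℝ, 0 < s → ∑ i ∈ S, s ^ J i * a i = ∑ k ∈ T, s ^ L k * b k) (lam : ℕ → ℝ) :
    ∑ i ∈ S, lam (J i) * a i = ∑ k ∈ T, lam (L k) * b k := by
  have hp : (∑ i ∈ S, Polynomial.monomial (J i) (a i) : Polynomial ℝ) =
      ∑ k ∈ T, Polynomial.monomial (L k) (b k) := by
    apply Polynomial.eq_of_infinite_eval_eq
    refine Set.Infinite.mono ?_ (Set.Ioi_infinite (0 : ℝ))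
    intro s hs
    simp only [Set.mem_ofPred_eq, Polynomial.eval_finsetSum, Polynomial.eval_monomial]
    have := h s hs
    simp_rw [mul_comm (a _), mul_comm (b _)]
    exact this
  have h2 := congrArg ((Polynomial.basisMonomials ℝ).constr ℝ lam) hp
  have h3 : ∀ (j : ℕ) (c : ℝ), (Polynomial.basisMonomials ℝ).constr ℝ lam
      (Polynomial.monomial j c) = lam j * c := by
    intro j c
    have h4 : (Polynomial.monomial j c : Polynomial ℝ) = c • (Polynomial.basisMonomials ℝ) j := by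
      rw [Polynomial.coe_basisMonomials, Polynomial.smul_monomial]
      simp
    rw [h4, map_smul, Module.Basis.constr_basis, smul_eq_mul, mul_comm]
  rw [map_sum, map_sum] at h2
  simp_rw [h3] at h2
  exact h2

lemma vect {X : Type} [NormedAddCommGroup X] [NormedSpace ℝ X]
    {ι κ : Type} (S : Finset ι) (T : Finset κ) (J : ι → ℕ) (L : κ → ℕ)
    (a : ι → X) (b : κ → X)
    (h : ∀ s : ℝ, 0 < s → ∑ i ∈ S, s ^ J i • a i = ∑ k ∈ T, s ^ L k • b k) (lam : ℕ → ℝ) :
    ∑ i ∈ S, lam (J i) • a i = ∑ k ∈ T, lam (L k) • b k := by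
  rw [← sub_eq_zero]
  rw [← Module.forall_dual_apply_eq_zero_iff ℝ]
  intro φ
  rw [map_sub, map_sum, map_sum, sub_eq_zero]
  simp_rw [map_smul, smul_eq_mul]
  apply scal
  intro s hs
  have := congrArg φ (h s hs)
  rw [map_sum, map_sum] at this
  simp_rw [map_smul, smul_eq_mul] at this
  exact this

/-! ### the circle transforms -/

/-- the value of a power series of derivatives at a power -/
noncomputable def lamc (c : ℕ → ℝ) (M : ℕ) (τ : ℝ) (l : ℕ) : ℝ :=
  ∑ r ∈ Finset.range M, c r * (l.descFactorial r * τ ^ (l - r))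

noncomputable def c1 (ω : ℝ) (r : ℕ) : ℝ := ω ^ (2 * r) * (-4) ^ r / (2 * r).factorial
noncomputable def c2 (ω : ℝ) (r : ℕ) : ℝ := ω ^ (2 * r + 1) * (-4) ^ r / (2 * r + 1).factorial

lemma ser_eq (c : ℕ → ℝ) (cC : ℕ → ℂ) (hc : ∀ r, cC r = (c r : ℂ)) (M J : ℕ) (hJ : J < M)
    (τ : ℝ) (y : ℂ)
    (h : HasSum (fun r : ℕ => cC r * iteratedDeriv r (fun ζ : ℂ => ζ ^ J) (τ : ℂ)) y) :
    y = (lamc c M τ J : ℂ) := by
  have h2 : HasSum (fun r : ℕ => cC r * iteratedDeriv r (fun ζ : ℂ => ζ ^ J) (τ : ℂ))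
      (∑ r ∈ Finset.range M, cC r * iteratedDeriv r (fun ζ : ℂ => ζ ^ J) (τ : ℂ)) := by
    apply hasSum_sum_of_ne_finset_zero
    intro r hr
    have hr2 : M ≤ r := by simpa using hr
    rw [iteratedDeriv_pow, Nat.descFactorial_eq_zero_iff_lt.mpr (by omega)]
    simp
  rw [h.unique h2, lamc]
  push_cast
  refine Finset.sum_congr rfl (fun r _ => ?_)
  rw [iteratedDeriv_pow, hc]

lemma sphere_re (τ : ℝ) (hτ : 0 < τ) (ζ : ℂ) (h : ζ ∈ Metric.sphere (τ : ℂ) (τ / 2)) :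
    0 < ζ.re := by
  rw [mem_sphere_iff_norm] at h
  have h1 := Complex.abs_re_le_norm (ζ - (τ : ℂ))
  rw [h] at h1
  have h2 := (abs_le.mp h1).1
  simp at h2
  linarith

lemma cc_eq (hCCS : Stmt_CCS) (ω τ : ℝ) (hτ : 0 < τ) (M J : ℕ) (hJ : J < M) (m : ℝ) (g : ℂ → ℂ)
    (hg : ∀ ζ : ℂ, 0 < ζ.re → g ζ = (m : ℂ) * ζ ^ J) :
    (cc ω τ g).re = lamc (c1 ω) M τ J * m := by
  have h1 : cc ω τ g = (m : ℂ) * cc ω τ (fun ζ => ζ ^ J) := by
    rw [cc, cc]
    rw [circleIntegral.integral_congr (g := fun ζ => (m : ℂ) * (Pc ω (ζ - τ) * ζ ^ J))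
      (by positivity)]
    · rw [circleIntegral.integral_const_mul]
      ring
    · intro ζ hζ
      simp only
      rw [hg ζ (sphere_re τ hτ ζ hζ)]
      ring
  have h2 := (hCCS ω τ (fun ζ => ζ ^ J) hτ (by fun_prop)).1
  have h3 := ser_eq (c1 ω) _ (fun r => by rw [c1]; push_cast; rfl) M J hJ τ _ h2
  rw [h1, h3, ← Complex.ofReal_mul, Complex.ofReal_re, mul_comm]

lemma cs_eq (hCCS : Stmt_CCS) (ω τ : ℝ) (hτ : 0 < τ) (M J : ℕ) (hJ : J < M) (m : ℝ) (g : ℂ → ℂ)
    (hg : ∀ ζ : ℂ, 0 < ζ.re → g ζ = (m : ℂ) * ζ ^ J) :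
    (cs ω τ g).re = lamc (c2 ω) M τ J * m := by
  have h1 : cs ω τ g = (m : ℂ) * cs ω τ (fun ζ => ζ ^ J) := by
    rw [cs, cs]
    rw [circleIntegral.integral_congr (g := fun ζ => (m : ℂ) * (Ps ω (ζ - τ) * ζ ^ J))
      (by positivity)]
    · rw [circleIntegral.integral_const_mul]
      ring
    · intro ζ hζ
      simp only
      rw [hg ζ (sphere_re τ hτ ζ hζ)]
      ring
  have h2 := (hCCS ω τ (fun ζ => ζ ^ J) hτ (by fun_prop)).2
  have h3 := ser_eq (c2 ω) _ (fun r => by rw [c2]; push_cast; rfl) M J hJ τ _ h2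
  rw [h1, h3, ← Complex.ofReal_mul, Complex.ofReal_re, mul_comm]

/-! ### resummation -/

lemma resum {X : Type} [NormedAddCommGroup X] [NormedSpace ℝ X] (c : ℕ → ℝ) (M : ℕ) (τ : ℝ)
    (Y : ℕ → X) (hY : ∀ l, M ≤ l → Y l = 0) :
    ∑ l ∈ Finset.range M, (lamc c M τ l) • ((((1 / 4 : ℝ) ^ l / l.factorial)) • Y l) =
    ∑ r ∈ Finset.range M, (c r * (1 / 4) ^ r) • ∑ l ∈ Finset.range M,
      ((τ / 4) ^ l / l.factorial : ℝ) • Y (r + l) := by
  have h1 : ∀ l ∈ Finset.range M, (lamc c M τ l) • ((((1 / 4 : ℝ) ^ l / l.factorial)) • Y l) =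
      ∑ r ∈ Finset.range M, (c r * (l.descFactorial r * τ ^ (l - r)) *
        ((1 / 4 : ℝ) ^ l / l.factorial)) • Y l := by
    intro l _
    rw [lamc, Finset.sum_smul]
    refine Finset.sum_congr rfl (fun r _ => ?_)
    rw [smul_smul]
  rw [Finset.sum_congr rfl h1, Finset.sum_comm]
  refine Finset.sum_congr rfl (fun r hr => ?_)
  have hr' : r < M := by simpa using hr
  obtain ⟨k, rfl⟩ : ∃ k, M = r + k := ⟨M - r, by omega⟩
  rw [Finset.sum_range_add (fun l => (c r * (l.descFactorial r * τ ^ (l - r)) *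
        ((1 / 4 : ℝ) ^ l / l.factorial)) • Y l) r k]
  have h2 : ∑ x ∈ Finset.range r, (c r * (x.descFactorial r * τ ^ (x - r)) *
        ((1 / 4 : ℝ) ^ x / x.factorial)) • Y x = 0 := by
    refine Finset.sum_eq_zero (fun x hx => ?_)
    have hx' : x < r := by simpa using hx
    rw [Nat.descFactorial_eq_zero_iff_lt.mpr hx']
    simp
  rw [h2, zero_add]
  rw [add_comm r k, Finset.sum_range_add (fun l => ((τ / 4) ^ l / l.factorial : ℝ) • Y (r + l)) k r]
  have h3 : ∑ x ∈ Finset.range r, ((τ / 4) ^ (k + x) / (k + x).factorial : ℝ) • Y (r + (k + x)) =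
      0 := by
    refine Finset.sum_eq_zero (fun x _ => ?_)
    rw [hY _ (by omega), smul_zero]
  rw [h3, add_zero, Finset.smul_sum]
  refine Finset.sum_congr rfl (fun x _ => ?_)
  rw [smul_smul]
  congr 1
  have h4 : ((r + x).factorial : ℝ) = x.factorial * (r + x).descFactorial r := by
    have := Nat.factorial_mul_descFactorial (k := r) (n := r + x) (by omega)
    rw [← this]
    push_cast
    rw [show r + x - r = x by omega]
  have h5 : ((r + x).factorial : ℝ) ≠ 0 := by positivity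
  have h6 : (x.factorial : ℝ) ≠ 0 := by positivity
  have h7 : ((r + x).descFactorial r : ℝ) ≠ 0 := by
    intro h0
    rw [h0, mul_zero] at h4
    exact h5 h4
  rw [h4, show r + x - r = x by omega, pow_add, div_pow τ 4 x, one_div, inv_pow, inv_pow]
  field_simp

/-! ### derivatives of sums -/

lemma smo_sum {D : ℕ} {X : Type} [NormedAddCommGroup X] [NormedSpace ℝ X] {ι : Type}
    (S : Finset ι) (c : ι → ℝ) (F : ι → P D → X) (hF : ∀ i, Smo (F i)) :
    Smo (fun x => ∑ i ∈ S, c i • F i x) := by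
  refine ContDiff.sum (fun i _ => ?_)
  exact (hF i).const_smul (c i)

lemma pdw_sum (hSMO : Stmt_SMO) {D : ℕ} {X : Type} [NormedAddCommGroup X] [NormedSpace ℝ X]
    {ι : Type} [DecidableEq ι]
    (S : Finset ι) (c : ι → ℝ) (F : ι → P D → X) (hF : ∀ i, Smo (F i)) (w : List (Fin D)) :
    pdw w (fun x => ∑ i ∈ S, c i • F i x) = fun x => ∑ i ∈ S, c i • pdw w (F i) x := by
  induction S using Finset.induction_on with
  | empty =>
    have h0 : Smo (fun _ : P D => (0 : X)) := contDiff_const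
    have h := (hSMO D X 0 (fun _ => 0) (fun _ => 0) h0 h0).2.2.2.2.2.2.1 w 0
    simp only [zero_smul] at h
    simpa using h
  | insert i S hi ih =>
    have h1 : (fun x => ∑ j ∈ insert i S, c j • F j x) =
        fun x => c i • F i x + ∑ j ∈ S, c j • F j x := by
      funext x
      rw [Finset.sum_insert hi]
    rw [h1, (hSMO D X 0 (fun x => c i • F i x) (fun x => ∑ j ∈ S, c j • F j x)
      ((hF i).const_smul (c i)) (smo_sum S c F hF)).2.2.2.2.2.1 w, ih,
      (hSMO D X 0 (F i) (F i) (hF i) (hF i)).2.2.2.2.2.2.1 w (c i)]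
    funext x
    rw [Finset.sum_insert hi]

lemma Lap_sum (hSMO : Stmt_SMO) {D : ℕ} {X : Type} [NormedAddCommGroup X] [NormedSpace ℝ X]
    {ι : Type} [DecidableEq ι]
    (S : Finset ι) (c : ι → ℝ) (F : ι → P D → X) (hF : ∀ i, Smo (F i)) :
    Lap (fun x => ∑ i ∈ S, c i • F i x) = fun x => ∑ i ∈ S, c i • Lap (F i) x := by
  funext x
  have h1 : ∀ (f : P D → X) (x : P D), Lap f x = ∑ i, pdw [i, i] f x := fun f x => rfl
  simp_rw [h1]
  simp_rw [pdw_sum hSMO S c F hF]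
  simp_rw [Finset.smul_sum]
  rw [Finset.sum_comm]

lemma smo_iter (hSMO : Stmt_SMO) {D : ℕ} {X : Type} [NormedAddCommGroup X] [NormedSpace ℝ X]
    (f : P D → X) (hf : Smo f) (r : ℕ) : Smo (Lap^[r] f) := by
  induction r with
  | zero => exact hf
  | succ r ih =>
    rw [Function.iterate_succ_apply']
    exact (hSMO D X 0 _ _ ih ih).2.2.2.2.2.2.2.2.2.1

lemma iter_sum (hSMO : Stmt_SMO) {D : ℕ} {X : Type} [NormedAddCommGroup X] [NormedSpace ℝ X]
    {ι : Type} [DecidableEq ι]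
    (S : Finset ι) (c : ι → ℝ) (F : ι → P D → X) (hF : ∀ i, Smo (F i)) (r : ℕ) :
    Lap^[r] (fun x => ∑ i ∈ S, c i • F i x) = fun x => ∑ i ∈ S, c i • (Lap^[r] (F i)) x := by
  induction r with
  | zero => rfl
  | succ r ih =>
    rw [Function.iterate_succ_apply', ih,
      Lap_sum hSMO S c (fun i => Lap^[r] (F i)) (fun i => smo_iter hSMO _ (hF i) r)]
    simp_rw [Function.iterate_succ_apply']

lemma pol_iter (hSMO : Stmt_SMO) {D : ℕ} {X : Type} [NormedAddCommGroup X] [NormedSpace ℝ X]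
    (M : ℕ) (Q : P D → X) (hQ : IsPol M Q) (l : ℕ) : IsPol (M - 2 * l) (Lap^[l] Q) := by
  induction l with
  | zero => simpa using hQ
  | succ l ih =>
    rw [Function.iterate_succ_apply']
    refine ⟨(hSMO D X 0 _ _ ih.sm ih.sm).2.2.2.2.2.2.2.2.2.1, ?_⟩
    intro w hw x
    rw [(hSMO D X 0 _ _ ih.sm ih.sm).2.2.2.2.2.2.2.2.2.2.2.1 w]
    show ∑ i, pdw (i :: i :: w) (Lap^[l] Q) x = 0
    refine Finset.sum_eq_zero (fun i _ => ?_)
    apply ih.top
    simp only [List.length_cons]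
    omega

lemma Y_zero (hSMO : Stmt_SMO) {D : ℕ} {X : Type} [NormedAddCommGroup X] [NormedSpace ℝ X]
    (M : ℕ) (Q : P D → X) (hQ : IsPol M Q) (w : List (Fin D)) (z : P D) (l : ℕ) (hl : M ≤ l) :
    pdw w (Lap^[l] Q) z = 0 := by
  apply (pol_iter hSMO M Q hQ l).top
  omega

lemma pdw_Tp (hSMO : Stmt_SMO) {D : ℕ} {X : Type} [NormedAddCommGroup X] [NormedSpace ℝ X]
    (M : ℕ) (Q : P D → X) (hQ : IsPol M Q) (w : List (Fin D)) (z : P D) (s : ℝ) (r : ℕ) :
    pdw w (Lap^[r] (Tp M s Q)) z =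
      ∑ l ∈ Finset.range M, ((s / 4) ^ l / l.factorial : ℝ) • pdw w (Lap^[r + l] Q) z := by
  have h1 : Tp M s Q = fun x => ∑ l ∈ Finset.range M,
    ((s / 4) ^ l / l.factorial : ℝ) • (Lap^[l] Q) x := rfl
  rw [h1, iter_sum hSMO _ _ (fun l => Lap^[l] Q) (fun l => smo_iter hSMO Q hQ.sm l),
    pdw_sum hSMO _ _ (fun l => Lap^[r] (Lap^[l] Q))
      (fun l => smo_iter hSMO _ (smo_iter hSMO Q hQ.sm l) r)]
  simp_rw [← Function.iterate_add_apply]

/-! ### the final theorem -/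

lemma key (hPO3 : Stmt_PO3) (hTEX : Stmt_TEX) (hIN1 : Stmt_IN1) (hGSR : Stmt_GSR)
    (hSMO : Stmt_SMO) (D : ℕ) (X : Type) [NormedAddCommGroup X] [NormedSpace ℝ X]
    [FiniteDimensional ℝ X] (M : ℕ) (Q : P D → X) (τ : ℝ) (w : List (Fin D)) (z : P D)
    (hQ : IsPol M Q) (c : ℕ → ℝ) (T : (m : ℕ) → (Fin m → Fin D) → ℝ)
    (hT : ∀ (m : ℕ) (v : Fin m → Fin D) (a : ℝ) (J : ℕ), m < M → J ≤ m →
      (∀ ζ : ℂ, 0 < ζ.re → INc ζ w (List.ofFn v) = (a : ℂ) * ζ ^ J) →
      T m v = lamc c M τ J * a) :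
    (∑ m ∈ Finset.range M, (1 / m.factorial : ℝ) • ∑ v : Fin m → Fin D,
      T m v • pdw (List.ofFn v) Q z) =
    ∑ r ∈ Finset.range M, (c r * (1 / 4) ^ r) • pdw w (Lap^[r] (Tp M τ Q)) z := by
  have h := fun v : List (Fin D) => exists_mJr hIN1 hGSR w v
  choose a J hJ hint using h
  have h1 : ∀ s : ℝ, 0 < s → ∑ x ∈ (Finset.range M).sigma (fun m => (Finset.univ :
      Finset (Fin m → Fin D))), s ^ J (List.ofFn x.2) • (((1 / x.1.factorial : ℝ) *
        a (List.ofFn x.2)) • pdw (List.ofFn x.2) Q z) =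
      ∑ l ∈ Finset.range M, s ^ l • ((((1 / 4 : ℝ) ^ l / l.factorial)) •
        pdw w (Lap^[l] Q) z) := by
    intro s hs
    have h2 := third hPO3 hTEX hIN1 hGSR D X M Q s w z hQ hs
    have h3 := pdw_Tp hSMO M Q hQ w z s 0
    simp only [Function.iterate_zero, id_eq, zero_add] at h3
    rw [h3] at h2
    rw [Finset.sum_sigma]
    rw [show (∑ l ∈ Finset.range M, s ^ l • ((((1 / 4 : ℝ) ^ l / l.factorial)) •
        pdw w (Lap^[l] Q) z)) = ∑ l ∈ Finset.range M, ((s / 4) ^ l / l.factorial : ℝ) •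
          pdw w (Lap^[l] Q) z by
      refine Finset.sum_congr rfl (fun l _ => ?_)
      rw [smul_smul]
      congr 1
      rw [div_pow, div_pow, one_pow]
      field_simp]
    rw [← h2]
    refine Finset.sum_congr rfl (fun m _ => ?_)
    rw [Finset.smul_sum]
    refine Finset.sum_congr rfl (fun v _ => ?_)
    rw [hint (List.ofFn v) (s : ℂ) (by simpa using hs)]
    rw [← Complex.ofReal_pow, ← Complex.ofReal_mul, Complex.ofReal_re, smul_smul, smul_smul]
    congr 1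
    ring
  have h4 := vect _ _ _ _ _ _ h1 (lamc c M τ)
  rw [resum c M τ (fun l => pdw w (Lap^[l] Q) z) (fun l hl => Y_zero hSMO M Q hQ w z l hl)] at h4
  simp_rw [← pdw_Tp hSMO M Q hQ w z τ] at h4
  rw [← h4, Finset.sum_sigma]
  refine Finset.sum_congr rfl (fun m hm => ?_)
  have hm' : m < M := by simpa using hm
  rw [Finset.smul_sum]
  refine Finset.sum_congr rfl (fun v _ => ?_)
  rw [hT m v (a (List.ofFn v)) (J (List.ofFn v)) hm' (by simpa using hJ (List.ofFn v))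
    (hint (List.ofFn v)), smul_smul, smul_smul]
  congr 1
  ring

lemma pdw_CS (hSMO : Stmt_SMO) {D : ℕ} {X : Type} [NormedAddCommGroup X] [NormedSpace ℝ X]
    (M : ℕ) (F : P D → X) (hF : Smo F) (w : List (Fin D)) (z : P D) (d : ℕ → ℝ) :
    pdw w (fun x => ∑ r ∈ Finset.range M, d r • (Lap^[r] F) x) z =
      ∑ r ∈ Finset.range M, d r • pdw w (Lap^[r] F) z := by
  rw [pdw_sum hSMO _ d (fun r => Lap^[r] F) (fun r => smo_iter hSMO F hF r)]

end CMX_

open CMX_ in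
theorem cmx_proof (hPO3 : Stmt_PO3) (hTEX : Stmt_TEX) (hIN1 : Stmt_IN1) (hCCS : Stmt_CCS)
    (hGSR : Stmt_GSR) (hPO1 : Stmt_PO1) (hSMO : Stmt_SMO) (_hALB : Stmt_ALB) : Stmt_CMX := by
  intro D X _ _ _ M Q τ ω w z hQ hτ
  have hT : IsPol M (Tp M τ Q) := (hPO1 D X 0 M Q hQ).2.2.2.1 τ
  refine ⟨?_, ?_, third hPO3 hTEX hIN1 hGSR D X M Q τ w z hQ hτ⟩
  · rw [key hPO3 hTEX hIN1 hGSR hSMO D X M Q τ w z hQ (c1 ω)
      (fun m v => (cc ω τ (fun ζ => INc ζ w (List.ofFn v))).re)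
      (fun m v a J hm hJ h => cc_eq hCCS ω τ hτ M J (by omega) a _ h)]
    rw [show Ch M ω τ Q = fun x => ∑ r ∈ Finset.range M,
      ((-1) ^ r * ω ^ (2 * r) / (2 * r).factorial : ℝ) • (Lap^[r] (Tp M τ Q)) x from rfl,
      pdw_CS hSMO M _ hT.sm w z (fun r => ((-1) ^ r * ω ^ (2 * r) / (2 * r).factorial : ℝ))]
    refine Finset.sum_congr rfl (fun r _ => ?_)
    congr 1
    rw [c1, one_div, inv_pow, show (-4 : ℝ) = (-1) * 4 by norm_num, mul_pow]
    field_simp
  · rw [key hPO3 hTEX hIN1 hGSR hSMO D X M Q τ w z hQ (c2 ω)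
      (fun m v => (cs ω τ (fun ζ => INc ζ w (List.ofFn v))).re)
      (fun m v a J hm hJ h => cs_eq hCCS ω τ hτ M J (by omega) a _ h)]
    rw [show Sh M ω τ Q = fun x => ∑ r ∈ Finset.range M,
      ((-1) ^ r * ω ^ (2 * r + 1) / (2 * r + 1).factorial : ℝ) • (Lap^[r] (Tp M τ Q)) x from rfl,
      pdw_CS hSMO M _ hT.sm w z
        (fun r => ((-1) ^ r * ω ^ (2 * r + 1) / (2 * r + 1).factorial : ℝ))]
    refine Finset.sum_congr rfl (fun r _ => ?_)
    congr 1
    rw [c2, one_div, inv_pow, show (-4 : ℝ) = (-1) * 4 by norm_num, mul_pow]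
    field_simp

end Pool.Agent.HBW
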