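import Pool.Agent.HBW.Stmts

/-!
Squad HBW, module CR1: crude bound for the finite differences of Gaussians.
-/

set_option autoImplicit false

namespace Pool.Agent.HBW

open MeasureTheory Set Filter Topology
open scoped ENNReal Real

namespace CR1_

/-! ### finite differences -/

theorem dd (F : ℕ → ℝ → ℂ) (hF : ∀ j, ∀ x > 0, HasDerivAt (F j) (F (j + 1) x) x) {h : ℝ}
    (hh : 0 ≤ h) (k : ℕ) : ∀ (j : ℕ) (x : ℝ), 0 < x →
      HasDerivAt ((fwdDiff h)^[k] (F j)) ((fwdDiff h)^[k] (F (j + 1)) x) x := by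
  induction k with
  | zero => exact fun j x hx => hF j x hx
  | succ k ih =>
    intro j x hx
    have e : ∀ j, (fwdDiff h)^[k + 1] (F j) =
        fun y => (fwdDiff h)^[k] (F j) (y + h) - (fwdDiff h)^[k] (F j) y := by
      intro j
      rw [Function.iterate_succ_apply']
      rfl
    rw [e j, e (j + 1)]
    exact ((ih j (x + h) (by linarith)).comp_add_const x h).sub (ih j x hx)

theorem db (F : ℕ → ℝ → ℂ) (hF : ∀ j, ∀ x > 0, HasDerivAt (F j) (F (j + 1) x) x) {h : ℝ}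
    (hh : 0 ≤ h) (k : ℕ) : ∀ (j : ℕ) (x M : ℝ), 0 < x → (∀ s, x ≤ s → ‖F (j + k) s‖ ≤ M) →
      ‖(fwdDiff h)^[k] (F j) x‖ ≤ h ^ k * M := by
  induction k with
  | zero =>
    intro j x M hx hM
    have := hM x le_rfl
    simpa using this
  | succ k ih =>
    intro j x M hx hM
    have e : (fwdDiff h)^[k + 1] (F j) x =
        (fwdDiff h)^[k] (F j) (x + h) - (fwdDiff h)^[k] (F j) x := by
      rw [Function.iterate_succ_apply']
      rfl
    rw [e]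
    have h1 : ‖(fwdDiff h)^[k] (F j) (x + h) - (fwdDiff h)^[k] (F j) x‖ ≤
        (h ^ k * M) * ‖(x + h) - x‖ := by
      refine (convex_Ici x).norm_image_sub_le_of_norm_hasDerivWithin_le
        (f' := fun y => (fwdDiff h)^[k] (F (j + 1)) y) (fun y hy => ?_) (fun y hy => ?_)
        (mem_Ici.2 le_rfl) (mem_Ici.2 (by linarith))
      · exact (dd F hF hh k j y (lt_of_lt_of_le hx hy)).hasDerivWithinAt
      · refine ih (j + 1) y M (lt_of_lt_of_le hx hy) fun s hs => ?_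
        have h2 := hM s (le_trans hy hs)
        have h3 : j + 1 + k = j + (k + 1) := by omega
        rw [h3]
        exact h2
    refine h1.trans (le_of_eq ?_)
    rw [add_sub_cancel_left, Real.norm_of_nonneg hh, pow_succ]
    ring

/-! ### the holomorphic family -/

theorem opn : IsOpen {ζ : ℂ | 0 < ζ.re} := isOpen_lt continuous_const Complex.continuous_re

theorem itd {G : ℂ → ℂ} (hG : DifferentiableOn ℂ G {ζ | 0 < ζ.re}) (j : ℕ) :
    DifferentiableOn ℂ (iteratedDeriv j G) {ζ | 0 < ζ.re} := by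
  induction j with
  | zero => simpa using hG
  | succ j ih =>
    rw [iteratedDeriv_succ]
    exact ih.deriv opn

theorem itr {G : ℂ → ℂ} (hG : DifferentiableOn ℂ G {ζ | 0 < ζ.re}) (j : ℕ) (x : ℝ) (hx : 0 < x) :
    HasDerivAt (fun s : ℝ => iteratedDeriv j G (s : ℂ)) (iteratedDeriv (j + 1) G (x : ℂ)) x := by
  have h1 : DifferentiableAt ℂ (iteratedDeriv j G) (x : ℂ) :=
    (itd hG j).differentiableAt (opn.mem_nhds (by simpa using hx))
  rw [iteratedDeriv_succ]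
  exact h1.hasDerivAt.comp_ofReal

/-! ### bounds on circles -/

theorem crc {s : ℝ} {ζ : ℂ} (hs : 0 < s) (h : ‖ζ - s‖ = s / 2) :
    s / 2 ≤ ‖ζ‖ ∧ 0 < ζ.re ∧ 2 / (3 * s) ≤ (ζ⁻¹).re := by
  have h1 : ‖ζ - s‖ ^ 2 = (ζ.re - s) ^ 2 + ζ.im ^ 2 := by
    rw [← Complex.normSq_eq_norm_sq, Complex.normSq_apply]
    simp
    ring
  rw [h] at h1
  have h2 : |(ζ - s).re| ≤ ‖ζ - s‖ := Complex.abs_re_le_norm _
  rw [h] at h2
  have h3 : (ζ - (s : ℂ)).re = ζ.re - s := by simp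
  rw [h3, abs_le] at h2
  have h4 : 0 < ζ.re := by linarith [h2.1]
  have h5 : ζ.re ≤ ‖ζ‖ := (le_abs_self _).trans (Complex.abs_re_le_norm _)
  refine ⟨by linarith [h2.1], h4, ?_⟩
  rw [Complex.inv_re]
  have h6 : Complex.normSq ζ = ζ.re ^ 2 + ζ.im ^ 2 := by
    rw [Complex.normSq_apply]
    ring
  have h7 : 0 < Complex.normSq ζ := by
    rw [h6]
    positivity
  rw [div_le_div_iff₀ (by positivity) h7, h6]
  nlinarith [h2.2, h1]

theorem nrm2 {D : ℕ} (z : P D) : ‖z‖ ^ 2 ≤ ∑ i, z i ^ 2 := by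
  have h0 : 0 ≤ ∑ i, z i ^ 2 := Finset.sum_nonneg fun i _ => sq_nonneg _
  have h1 : ‖z‖ ≤ Real.sqrt (∑ i, z i ^ 2) := by
    rw [pi_norm_le_iff_of_nonneg (Real.sqrt_nonneg _)]
    intro i
    rw [Real.norm_eq_abs]
    refine Real.le_sqrt_of_sq_le ?_
    rw [sq_abs]
    exact Finset.single_le_sum (f := fun i => z i ^ 2) (fun i _ => sq_nonneg _) (Finset.mem_univ i)
  calc ‖z‖ ^ 2 ≤ Real.sqrt (∑ i, z i ^ 2) ^ 2 := by gcongr
    _ = _ := Real.sq_sqrt h0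

/-- exponential decay gives polynomial decay -/
theorem dec (D : ℕ) {s r : ℝ} (hs : 1 / 100 ≤ s) (hr : 0 ≤ r) :
    Real.exp (-(r ^ 2 / (3 * s))) ≤
      2 ^ (3 * D) * (3 * s) ^ (3 * D) * ((3 * D : ℕ) : ℝ) ^ (3 * D) * Real.exp 34 *
        ((1 + r) ^ (6 * D))⁻¹ := by
  have hs0 : 0 < s := by linarith
  have h1 : (1 + r) ^ (6 * D) ≤ 2 ^ (3 * D) * (1 + r ^ 2) ^ (3 * D) := by
    rw [← mul_pow, show 6 * D = 2 * (3 * D) by ring, pow_mul]
    refine pow_le_pow_left₀ (by positivity) ?_ _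
    nlinarith [sq_nonneg (r - 1)]
  have h2 := Real.pow_div_factorial_le_exp ((1 + r ^ 2) / (3 * s)) (by positivity) (3 * D)
  have h3 : ((1 + r ^ 2) / (3 * s)) ^ (3 * D) ≤
      ((3 * D : ℕ) : ℝ) ^ (3 * D) * Real.exp ((1 + r ^ 2) / (3 * s)) := by
    rw [div_le_iff₀ (by positivity)] at h2
    have h4 : (((3 * D).factorial : ℕ) : ℝ) ≤ ((3 * D : ℕ) : ℝ) ^ (3 * D) := by
      exact_mod_cast Nat.factorial_le_pow (3 * D)
    refine h2.trans ?_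
    rw [mul_comm]
    exact mul_le_mul_of_nonneg_right h4 (Real.exp_pos _).le
  have h5 : Real.exp ((1 + r ^ 2) / (3 * s)) ≤ Real.exp 34 * Real.exp (r ^ 2 / (3 * s)) := by
    rw [← Real.exp_add]
    refine Real.exp_le_exp.2 ?_
    rw [add_div]
    have : 1 / (3 * s) ≤ 34 := by
      rw [div_le_iff₀ (by positivity)]
      linarith
    linarith
  have h6 : (1 + r ^ 2) ^ (3 * D) ≤ (3 * s) ^ (3 * D) * (((3 * D : ℕ) : ℝ) ^ (3 * D) *
      (Real.exp 34 * Real.exp (r ^ 2 / (3 * s)))) := by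
    have h7 : (1 + r ^ 2) ^ (3 * D) = (3 * s) ^ (3 * D) * ((1 + r ^ 2) / (3 * s)) ^ (3 * D) := by
      rw [← mul_pow]
      congr 1
      field_simp
    rw [h7]
    refine mul_le_mul_of_nonneg_left (h3.trans ?_) (by positivity)
    exact mul_le_mul_of_nonneg_left h5 (by positivity)
  have h8 : (1 + r) ^ (6 * D) ≤ 2 ^ (3 * D) * ((3 * s) ^ (3 * D) * (((3 * D : ℕ) : ℝ) ^ (3 * D) *
      (Real.exp 34 * Real.exp (r ^ 2 / (3 * s))))) :=
    h1.trans (mul_le_mul_of_nonneg_left h6 (by positivity))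
  rw [Real.exp_neg, ← div_eq_mul_inv, le_div_iff₀ (by positivity), inv_mul_le_iff₀ (Real.exp_pos _)]
  refine h8.trans (le_of_eq ?_)
  ring

/-- bound for the Gaussians on a circle -/
theorem gwc (hGWB : Stmt_GWB) {D : ℕ} (hD : 16 ≤ D) (w : List (Fin D)) (z : P D) {s : ℝ}
    (hs : 1 / 100 ≤ s) {ζ : ℂ} (h : ‖ζ - s‖ = s / 2) :
    ‖gw w ζ z‖ ≤ w.length.factorial * (D : ℝ) ^ w.length * 10 ^ D * Real.exp 88 *
      (2 ^ (3 * D) * (3 * s) ^ (3 * D) * ((3 * D : ℕ) : ℝ) ^ (3 * D) * Real.exp 34 *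
        ((1 + ‖z‖) ^ (6 * D))⁻¹) := by
  have hs0 : 0 < s := by linarith
  have hD0 : (0 : ℝ) < D := by
    have : (16 : ℝ) ≤ D := by exact_mod_cast hD
    linarith
  obtain ⟨h1, h2, h3⟩ := crc hs0 h
  have h4 := hGWB D ζ (2 / (3 * s)) (s / 2) (1 / D) w z (by positivity) h1 h2 h3 (by positivity)
  rw [one_div, inv_inv] at h4
  have h5 : (Real.sqrt (π * (s / 2)))⁻¹ ≤ 10 := by
    rw [inv_le_comm₀ (Real.sqrt_pos.2 (by positivity)) (by norm_num)]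
    refine Real.le_sqrt_of_sq_le ?_
    nlinarith [Real.pi_gt_three]
  have h6 : ∑ i, (-(2 / (3 * s)) * z i ^ 2 + (2 * |z i| * (D : ℝ)⁻¹ + (D : ℝ)⁻¹ ^ 2) / (s / 2)) ≤
      88 + -(‖z‖ ^ 2 / (3 * s)) := by
    have h7 : ∀ i, -(2 / (3 * s)) * z i ^ 2 + (2 * |z i| * (D : ℝ)⁻¹ + (D : ℝ)⁻¹ ^ 2) / (s / 2) ≤
        -(z i ^ 2) / (3 * s) + 14 * (D : ℝ)⁻¹ ^ 2 / s := by
      intro i
      have e1 : -(2 / (3 * s)) * z i ^ 2 + (2 * |z i| * (D : ℝ)⁻¹ + (D : ℝ)⁻¹ ^ 2) / (s / 2) =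
          (-(2 / 3) * z i ^ 2 + 2 * (2 * |z i| * (D : ℝ)⁻¹ + (D : ℝ)⁻¹ ^ 2)) / s := by
        field_simp
      have e2 : -(z i ^ 2) / (3 * s) + 14 * (D : ℝ)⁻¹ ^ 2 / s =
          (-(1 / 3) * z i ^ 2 + 14 * (D : ℝ)⁻¹ ^ 2) / s := by
        field_simp
      rw [e1, e2]
      refine div_le_div_of_nonneg_right ?_ hs0.le
      have e3 := sq_nonneg (|z i| - 6 * (D : ℝ)⁻¹)
      have e4 := sq_abs (z i)
      nlinarith [e3, e4]
    refine (Finset.sum_le_sum fun i _ => h7 i).trans ?_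
    rw [Finset.sum_add_distrib, ← Finset.sum_div, Finset.sum_neg_distrib, Finset.sum_const,
      Finset.card_univ, Fintype.card_fin, nsmul_eq_mul, add_comm]
    refine add_le_add ?_ ?_
    · have e1 : (D : ℝ) * (14 * (D : ℝ)⁻¹ ^ 2 / s) = 14 / (D * s) := by
        field_simp
      rw [e1, div_le_iff₀ (by positivity)]
      have e2 : (16 : ℝ) ≤ D := by exact_mod_cast hD
      nlinarith
    · rw [neg_div]
      refine neg_le_neg (div_le_div_of_nonneg_right (nrm2 z) (by positivity))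
  have h7 : Real.exp (∑ i, (-(2 / (3 * s)) * z i ^ 2 +
      (2 * |z i| * (D : ℝ)⁻¹ + (D : ℝ)⁻¹ ^ 2) / (s / 2))) ≤
      Real.exp 88 * (2 ^ (3 * D) * (3 * s) ^ (3 * D) * ((3 * D : ℕ) : ℝ) ^ (3 * D) * Real.exp 34 *
        ((1 + ‖z‖) ^ (6 * D))⁻¹) := by
    refine (Real.exp_le_exp.2 h6).trans ?_
    rw [Real.exp_add]
    exact mul_le_mul_of_nonneg_left (dec D hs (norm_nonneg _)) (Real.exp_pos _).le
  refine h4.trans ?_
  have h8 : (Real.sqrt (π * (s / 2)))⁻¹ ^ D ≤ 10 ^ D :=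
    pow_le_pow_left₀ (inv_nonneg.2 (Real.sqrt_nonneg _)) h5 _
  calc _ ≤ w.length.factorial * (D : ℝ) ^ w.length * 10 ^ D *
        (Real.exp 88 * (2 ^ (3 * D) * (3 * s) ^ (3 * D) * ((3 * D : ℕ) : ℝ) ^ (3 * D) *
          Real.exp 34 * ((1 + ‖z‖) ^ (6 * D))⁻¹)) := by
        refine mul_le_mul ?_ h7 (Real.exp_pos _).le (by positivity)
        exact mul_le_mul_of_nonneg_left h8 (by positivity)
    _ = _ := by ring

/-- bound for the derivatives in the heat time -/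
theorem der (hGWB : Stmt_GWB) (hGWA : Stmt_GWA) {D : ℕ} (hD : 16 ≤ D) (w : List (Fin D)) (z : P D)
    {s : ℝ} (hs : 1 / 100 ≤ s) :
    ‖iteratedDeriv (4 * D) (fun ζ => gw w ζ z) (s : ℂ)‖ ≤ (4 * D).factorial *
      (w.length.factorial * (D : ℝ) ^ w.length * 10 ^ D * Real.exp 88 *
      (2 ^ (3 * D) * 3 ^ (3 * D) * ((3 * D : ℕ) : ℝ) ^ (3 * D) * Real.exp 34 *
        ((1 + ‖z‖) ^ (6 * D))⁻¹)) * 2 ^ (4 * D) * (s ^ D)⁻¹ := by
  have hs0 : 0 < s := by linarith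
  have hd : DiffContOnCl ℂ (fun ζ => gw w ζ z) (Metric.ball (s : ℂ) (s / 2)) := by
    refine DifferentiableOn.diffContOnCl ?_
    refine ((hGWA D w).1 z).mono ?_
    rw [closure_ball _ (by positivity)]
    intro ζ hζ
    rw [Metric.mem_closedBall, dist_eq_norm] at hζ
    have h2 : |(ζ - s).re| ≤ ‖ζ - s‖ := Complex.abs_re_le_norm _
    have h3 : (ζ - (s : ℂ)).re = ζ.re - s := by simp
    rw [h3] at h2
    have h4 := (abs_le.1 (h2.trans hζ)).1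
    show 0 < ζ.re
    linarith
  have h1 := Complex.norm_iteratedDeriv_le_of_forall_mem_sphere_norm_le (4 * D)
    (by positivity : 0 < s / 2) hd (fun ζ hζ => gwc hGWB hD w z hs
      (by rw [mem_sphere_iff_norm] at hζ; exact hζ))
  refine h1.trans (le_of_eq ?_)
  have e1 : s ^ (4 * D) = s ^ (3 * D) * s ^ D := by
    rw [← pow_add]
    congr 1
    ring
  rw [div_pow, mul_pow 3 s, e1]
  field_simp

/-- crude constants -/
theorem cru {n : ℕ} (hn : 2 ≤ n) :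
    (4 * (n : ℝ) ^ 8) ^ (4 * n ^ 4) * ((4 * n ^ 4).factorial * (10 ^ n ^ 4 * Real.exp 88 *
      (2 ^ (3 * n ^ 4) * 3 ^ (3 * n ^ 4) * ((3 * n ^ 4 : ℕ) : ℝ) ^ (3 * n ^ 4) * Real.exp 34)) *
        2 ^ (4 * n ^ 4) * 100 ^ n ^ 4) ≤ (n : ℝ) ^ (122 * n ^ 4) := by
  have hn2 : (2 : ℝ) ≤ n := by exact_mod_cast hn
  have hn1 : (1 : ℝ) ≤ n := by linarith
  have hn0 : (0 : ℝ) ≤ n := by linarith
  have h16 : 16 ≤ n ^ 4 := by
    calc 16 = 2 ^ 4 := by norm_num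
      _ ≤ n ^ 4 := Nat.pow_le_pow_left hn 4
  have p4 : (4 : ℝ) ≤ (n : ℝ) ^ 2 := by nlinarith
  have p16 : (16 : ℝ) ≤ (n : ℝ) ^ 4 := by exact_mod_cast h16
  have p3 : (3 : ℝ) ≤ (n : ℝ) ^ 2 := by linarith
  have p100 : (100 : ℝ) ≤ (n : ℝ) ^ 7 := by
    have : (2 : ℝ) ^ 7 ≤ (n : ℝ) ^ 7 := pow_le_pow_left₀ (by norm_num) hn2 7
    norm_num at this
    linarith
  -- the factors
  have f1 : (4 * (n : ℝ) ^ 8) ^ (4 * n ^ 4) ≤ (n : ℝ) ^ (40 * n ^ 4) := by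
    calc (4 * (n : ℝ) ^ 8) ^ (4 * n ^ 4) ≤ ((n : ℝ) ^ 10) ^ (4 * n ^ 4) := by
          refine pow_le_pow_left₀ (by positivity) ?_ _
          calc 4 * (n : ℝ) ^ 8 ≤ (n : ℝ) ^ 2 * (n : ℝ) ^ 8 :=
                mul_le_mul_of_nonneg_right p4 (by positivity)
            _ = (n : ℝ) ^ 10 := by ring
      _ = (n : ℝ) ^ (40 * n ^ 4) := by
          rw [← pow_mul]
          congr 1
          ring
  have f2 : (((4 * n ^ 4).factorial : ℕ) : ℝ) ≤ (n : ℝ) ^ (24 * n ^ 4) := by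
    calc (((4 * n ^ 4).factorial : ℕ) : ℝ) ≤ ((4 * n ^ 4 : ℕ) : ℝ) ^ (4 * n ^ 4) := by
          exact_mod_cast Nat.factorial_le_pow (4 * n ^ 4)
      _ ≤ ((n : ℝ) ^ 6) ^ (4 * n ^ 4) := by
          refine pow_le_pow_left₀ (by positivity) ?_ _
          push_cast
          calc 4 * (n : ℝ) ^ 4 ≤ (n : ℝ) ^ 2 * (n : ℝ) ^ 4 :=
                mul_le_mul_of_nonneg_right p4 (by positivity)
            _ = (n : ℝ) ^ 6 := by ring
      _ = (n : ℝ) ^ (24 * n ^ 4) := by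
          rw [← pow_mul]
          congr 1
          ring
  have f3 : (10 : ℝ) ^ n ^ 4 ≤ (n : ℝ) ^ (4 * n ^ 4) := by
    rw [pow_mul]
    exact pow_le_pow_left₀ (by norm_num) (by linarith) _
  have f4 : Real.exp 88 * Real.exp 34 ≤ (n : ℝ) ^ (16 * n ^ 4) := by
    have e0 : Real.exp 1 < 3 := Real.exp_one_lt_three
    have e1 : Real.exp 88 * Real.exp 34 = Real.exp 1 ^ 122 := by
      rw [← Real.exp_add, ← Real.exp_nat_mul]
      norm_num
    rw [e1]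
    calc Real.exp 1 ^ 122 ≤ ((n : ℝ) ^ 2) ^ 122 :=
          pow_le_pow_left₀ (Real.exp_pos _).le (by linarith) _
      _ = (n : ℝ) ^ 244 := by rw [← pow_mul]
      _ ≤ (n : ℝ) ^ (16 * n ^ 4) := pow_le_pow_right₀ hn1 (by omega)
  have f5 : (2 : ℝ) ^ (3 * n ^ 4) ≤ (n : ℝ) ^ (3 * n ^ 4) := pow_le_pow_left₀ (by norm_num) hn2 _
  have f6 : (3 : ℝ) ^ (3 * n ^ 4) ≤ (n : ℝ) ^ (6 * n ^ 4) := by
    calc (3 : ℝ) ^ (3 * n ^ 4) ≤ ((n : ℝ) ^ 2) ^ (3 * n ^ 4) :=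
          pow_le_pow_left₀ (by norm_num) p3 _
      _ = (n : ℝ) ^ (6 * n ^ 4) := by
          rw [← pow_mul]
          congr 1
          ring
  have f7 : ((3 * n ^ 4 : ℕ) : ℝ) ^ (3 * n ^ 4) ≤ (n : ℝ) ^ (18 * n ^ 4) := by
    calc ((3 * n ^ 4 : ℕ) : ℝ) ^ (3 * n ^ 4) ≤ ((n : ℝ) ^ 6) ^ (3 * n ^ 4) := by
          refine pow_le_pow_left₀ (by positivity) ?_ _
          push_cast
          calc 3 * (n : ℝ) ^ 4 ≤ (n : ℝ) ^ 2 * (n : ℝ) ^ 4 :=
                mul_le_mul_of_nonneg_right p3 (by positivity)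
            _ = (n : ℝ) ^ 6 := by ring
      _ = (n : ℝ) ^ (18 * n ^ 4) := by
          rw [← pow_mul]
          congr 1
          ring
  have f8 : (2 : ℝ) ^ (4 * n ^ 4) ≤ (n : ℝ) ^ (4 * n ^ 4) := pow_le_pow_left₀ (by norm_num) hn2 _
  have f9 : (100 : ℝ) ^ n ^ 4 ≤ (n : ℝ) ^ (7 * n ^ 4) := by
    rw [pow_mul]
    exact pow_le_pow_left₀ (by norm_num) p100 _
  calc (4 * (n : ℝ) ^ 8) ^ (4 * n ^ 4) * ((4 * n ^ 4).factorial * (10 ^ n ^ 4 * Real.exp 88 *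
      (2 ^ (3 * n ^ 4) * 3 ^ (3 * n ^ 4) * ((3 * n ^ 4 : ℕ) : ℝ) ^ (3 * n ^ 4) * Real.exp 34)) *
        2 ^ (4 * n ^ 4) * 100 ^ n ^ 4) =
      (4 * (n : ℝ) ^ 8) ^ (4 * n ^ 4) * ((4 * n ^ 4).factorial : ℕ) * 10 ^ n ^ 4 *
        (Real.exp 88 * Real.exp 34) * 2 ^ (3 * n ^ 4) * 3 ^ (3 * n ^ 4) *
        ((3 * n ^ 4 : ℕ) : ℝ) ^ (3 * n ^ 4) * 2 ^ (4 * n ^ 4) * 100 ^ n ^ 4 := by ring
    _ ≤ (n : ℝ) ^ (40 * n ^ 4) * (n : ℝ) ^ (24 * n ^ 4) * (n : ℝ) ^ (4 * n ^ 4) *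
        (n : ℝ) ^ (16 * n ^ 4) * (n : ℝ) ^ (3 * n ^ 4) * (n : ℝ) ^ (6 * n ^ 4) *
        (n : ℝ) ^ (18 * n ^ 4) * (n : ℝ) ^ (4 * n ^ 4) * (n : ℝ) ^ (7 * n ^ 4) := by
        gcongr
    _ = (n : ℝ) ^ (122 * n ^ 4) := by
        simp only [← pow_add]
        congr 1
        ring

end CR1_

open CR1_

theorem cr1_proof (hGWB : Stmt_GWB) (hGWA : Stmt_GWA) : Stmt_CR1 := by
  refine ⟨122, fun n hn w z u hu => ?_⟩
  have hD : 16 ≤ dm n := by
    calc 16 = 2 ^ 4 := by norm_num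
      _ ≤ n ^ 4 := Nat.pow_le_pow_left hn 4
  have hn0 : (0 : ℝ) < n := by
    have : (2 : ℝ) ≤ n := by exact_mod_cast hn
    linarith
  have hL : Ln n = 4 * dm n := rfl
  set K : ℝ := (4 * dm n).factorial *
      (w.length.factorial * (dm n : ℝ) ^ w.length * 10 ^ dm n * Real.exp 88 *
      (2 ^ (3 * dm n) * 3 ^ (3 * dm n) * ((3 * dm n : ℕ) : ℝ) ^ (3 * dm n) * Real.exp 34 *
        ((1 + ‖z‖) ^ (6 * dm n))⁻¹)) * 2 ^ (4 * dm n) with hK
  have hK0 : 0 ≤ K := by positivity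
  have hum : (0 : ℝ) ≤ 4 * um n := by
    unfold um
    positivity
  have hx0 : (0 : ℝ) < t0 + 4 * u := by
    unfold t0
    positivity
  have hb : ∀ s, t0 + 4 * u ≤ s →
      ‖iteratedDeriv (0 + 4 * dm n) (fun ζ => gw w ζ z) (s : ℂ)‖ ≤
        K * (100 ^ dm n * (1 + u) ^ (-2 : ℤ)) := by
    intro s hs
    have h1 : (1 + u) / 100 ≤ s := by
      refine le_trans ?_ hs
      unfold t0
      linarith
    have h2 : 1 / 100 ≤ s := by linarith
    rw [zero_add]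
    refine (der hGWB hGWA hD w z h2).trans ?_
    refine mul_le_mul_of_nonneg_left ?_ hK0
    have h3 : ((1 + u) / 100) ^ dm n ≤ s ^ dm n := pow_le_pow_left₀ (by positivity) h1 _
    have h4 : (s ^ dm n)⁻¹ ≤ (((1 + u) / 100) ^ dm n)⁻¹ := inv_anti₀ (by positivity) h3
    refine h4.trans ?_
    rw [div_pow, inv_div, div_eq_mul_inv]
    refine mul_le_mul_of_nonneg_left ?_ (by positivity)
    rw [zpow_neg]
    refine inv_anti₀ (by positivity) ?_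
    have h5 : (1 + u) ^ (2 : ℤ) = (1 + u) ^ 2 := by norm_cast
    rw [h5]
    exact pow_le_pow_right₀ (by linarith) (by omega)
  have hfd := db (fun j s => iteratedDeriv j (fun ζ => gw w ζ z) (s : ℂ))
    (fun j x hx => itr ((hGWA (dm n) w).1 z) j x hx) hum (4 * dm n) 0 (t0 + 4 * u) _ hx0 hb
  have hsum : ∑ l ∈ Finset.range (Ln n + 1), bs n l * gr w (tl n l + 4 * u) z =
      ((fwdDiff (4 * um n))^[4 * dm n]
        (fun s : ℝ => iteratedDeriv 0 (fun ζ => gw w ζ z) (s : ℂ)) (t0 + 4 * u)).re := by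
    rw [fwdDiff_iter_eq_sum_shift, Complex.re_sum, hL]
    refine Finset.sum_congr rfl fun l hl => ?_
    have hl' : l ≤ 4 * dm n := by
      rw [Finset.mem_range] at hl
      omega
    have e1 : (-1 : ℤ) ^ (4 * dm n - l) = (-1) ^ l := by
      have e2 : (-1 : ℤ) ^ (4 * dm n - l) * (-1) ^ l = 1 := by
        rw [← pow_add, Nat.sub_add_cancel hl', pow_mul]
        norm_num
      have e3 : (-1 : ℤ) ^ l * (-1) ^ l = 1 := by
        rw [← mul_pow]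
        simp
      calc (-1 : ℤ) ^ (4 * dm n - l) = (-1 : ℤ) ^ (4 * dm n - l) * ((-1) ^ l * (-1) ^ l) := by
            rw [e3, mul_one]
        _ = ((-1 : ℤ) ^ (4 * dm n - l) * (-1) ^ l) * (-1) ^ l := by ring
        _ = (-1) ^ l := by rw [e2, one_mul]
    rw [e1, iteratedDeriv_zero, zsmul_eq_mul]
    have e4 : t0 + 4 * u + l • (4 * um n) = tl n l + 4 * u := by
      rw [nsmul_eq_mul]
      unfold tl
      ring
    rw [e4]
    have e5 : (((-1 : ℤ) ^ l * ((4 * dm n).choose l : ℤ) : ℤ) : ℂ) = ((bs n l : ℝ) : ℂ) := by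
      unfold bs
      rw [hL]
      push_cast
      ring
    rw [e5, Complex.re_ofReal_mul]
    rfl
  rw [hsum]
  refine (Complex.abs_re_le_norm _).trans (hfd.trans ?_)
  have hz : (1 + ‖z‖) ^ (-(6 * (dm n : ℤ))) = ((1 + ‖z‖) ^ (6 * dm n))⁻¹ := by
    rw [zpow_neg]
    congr 1
  unfold crd
  rw [hz]
  have hc : (4 * um n) ^ (4 * dm n) * ((4 * dm n).factorial * (10 ^ dm n * Real.exp 88 *
      (2 ^ (3 * dm n) * 3 ^ (3 * dm n) * ((3 * dm n : ℕ) : ℝ) ^ (3 * dm n) * Real.exp 34)) *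
        2 ^ (4 * dm n) * 100 ^ dm n) ≤ (n : ℝ) ^ (122 * n ^ 4) := cru hn
  have hT : 0 ≤ w.length.factorial * (dm n : ℝ) ^ w.length * ((1 + ‖z‖) ^ (6 * dm n))⁻¹ *
      (1 + u) ^ (-2 : ℤ) := by positivity
  have hm := mul_le_mul_of_nonneg_left hc hT
  refine le_trans (le_of_eq ?_) (hm.trans (le_of_eq ?_))
  · rw [hK]
    ring
  · ring

end Pool.Agent.HBW
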