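import Pool.Agent.HBW.Stmts

set_option autoImplicit false

namespace Pool.Agent.HBW

open MeasureTheory Set Filter Topology
open scoped ENNReal Real

namespace CR2_

lemma circ (τ : ℝ) (hτ : 0 < τ) (ζ : ℂ) (h : ‖ζ - τ‖ = τ / 2) :
    0 < ζ.re ∧ τ / 2 ≤ ‖ζ‖ ∧ 2 / (3 * τ) ≤ (ζ⁻¹).re := by
  have h1 : (ζ.re - τ) ^ 2 + ζ.im ^ 2 = (τ / 2) ^ 2 := by
    have h2 : ‖ζ - τ‖ ^ 2 = (τ / 2) ^ 2 := by rw [h]
    rw [Complex.sq_norm, Complex.normSq_apply] at h2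
    simp at h2
    linarith
  have h3 : |ζ.re - τ| ≤ τ / 2 := by
    have := Complex.abs_re_le_norm (ζ - τ)
    simpa [h] using this
  have h4 := abs_le.1 h3
  have h0 : τ / 2 ≤ ζ.re := by linarith [h4.1]
  have hre : 0 < ζ.re := by linarith
  refine ⟨hre, h0.trans (Complex.re_le_norm _), ?_⟩
  rw [Complex.inv_re, Complex.normSq_apply]
  have h5 : 0 < ζ.re * ζ.re + ζ.im * ζ.im := by nlinarith [mul_self_nonneg ζ.im]
  rw [div_le_div_iff₀ (by positivity) h5]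
  have h6 : ζ.re * ζ.re + ζ.im * ζ.im = 2 * τ * ζ.re - 3 / 4 * τ ^ 2 := by nlinarith
  rw [h6]
  nlinarith [h4.2]

lemma decay (n : ℕ) (hn : 2 ≤ n) (τ s : ℝ) (hτ : 0 < τ) (h2 : τ ≤ 17 * (n : ℝ) ^ 12) (hs : 0 ≤ s) :
    (1 + s) ^ (6 * dm n) * Real.exp (-(s ^ 2 / (3 * τ))) ≤ (n : ℝ) ^ (75 * n ^ 4) := by
  have hn' : (2 : ℝ) ≤ n := by exact_mod_cast hn
  have hD : (dm n : ℝ) = (n : ℝ) ^ 4 := by simp [dm]
  have hDpos : 0 < (dm n : ℝ) := by rw [hD]; positivity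
  obtain ⟨K, hK⟩ : ∃ K : ℝ, K = 153 * (n : ℝ) ^ 16 := ⟨_, rfl⟩
  have hK1 : 1 ≤ K := by
    have : (1 : ℝ) ≤ (n : ℝ) ^ 16 := one_le_pow₀ (by linarith)
    rw [hK]; linarith
  have hK2 : 9 * τ * dm n ≤ K := by
    rw [hK, hD]
    have h3 : τ * (n : ℝ) ^ 4 ≤ 17 * (n : ℝ) ^ 12 * (n : ℝ) ^ 4 :=
      mul_le_mul_of_nonneg_right h2 (by positivity)
    have h4 : 17 * (n : ℝ) ^ 12 * (n : ℝ) ^ 4 = 17 * (n : ℝ) ^ 16 := by ring
    rw [h4] at h3; linarith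
  have h3 : 1 + s ^ 2 ≤ K * Real.exp (s ^ 2 / (9 * τ * dm n)) := by
    have h4 := Real.add_one_le_exp (s ^ 2 / (9 * τ * dm n))
    have h5 : s ^ 2 ≤ K * (s ^ 2 / (9 * τ * dm n)) := by
      rw [mul_div_assoc', le_div_iff₀ (by positivity), mul_comm]
      exact mul_le_mul_of_nonneg_right hK2 (by positivity)
    have h6 := mul_le_mul_of_nonneg_left h4 (by linarith : 0 ≤ K)
    linarith
  have h4 : (1 + s) ^ 2 ≤ 2 * K * Real.exp (s ^ 2 / (9 * τ * dm n)) := by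
    nlinarith [sq_nonneg (s - 1)]
  have h5 : (1 + s) ^ (6 * dm n) ≤ (2 * K) ^ (3 * dm n) * Real.exp (s ^ 2 / (3 * τ)) := by
    have h6 := pow_le_pow_left₀ (by positivity) h4 (3 * dm n)
    rw [← pow_mul, mul_pow, ← Real.exp_nat_mul] at h6
    have h7 : ((3 * dm n : ℕ) : ℝ) * (s ^ 2 / (9 * τ * dm n)) = s ^ 2 / (3 * τ) := by
      push_cast; field_simp; ring
    rw [h7] at h6
    have h8 : 2 * (3 * dm n) = 6 * dm n := by ring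
    rwa [h8] at h6
  have h6 : 2 * K ≤ (n : ℝ) ^ 25 := by
    rw [hK]
    have h7 : (2 : ℝ) ^ 9 ≤ (n : ℝ) ^ 9 := pow_le_pow_left₀ (by norm_num) hn' 9
    have h8 : (n : ℝ) ^ 25 = (n : ℝ) ^ 9 * (n : ℝ) ^ 16 := by ring
    rw [h8]
    have h9 : (0 : ℝ) ≤ (n : ℝ) ^ 16 := by positivity
    nlinarith
  calc (1 + s) ^ (6 * dm n) * Real.exp (-(s ^ 2 / (3 * τ)))
      ≤ (2 * K) ^ (3 * dm n) * Real.exp (s ^ 2 / (3 * τ)) * Real.exp (-(s ^ 2 / (3 * τ))) :=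
        mul_le_mul_of_nonneg_right h5 (Real.exp_pos _).le
    _ = (2 * K) ^ (3 * dm n) := by
        rw [mul_assoc, ← Real.exp_add, add_neg_cancel, Real.exp_zero, mul_one]
    _ ≤ ((n : ℝ) ^ 25) ^ (3 * dm n) := pow_le_pow_left₀ (by positivity) h6 _
    _ = (n : ℝ) ^ (75 * n ^ 4) := by rw [← pow_mul]; congr 1; simp only [dm]; ring

lemma sum_sq_ge {D : ℕ} (z : P D) : ‖z‖ ^ 2 ≤ ∑ i, z i ^ 2 := by
  rcases isEmpty_or_nonempty (Fin D) with h | h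
  · have : z = 0 := Subsingleton.elim _ _
    simp [this]
  · obtain ⟨i, -, hi⟩ := Finset.exists_max_image (Finset.univ : Finset (Fin D)) (fun i => |z i|)
      Finset.univ_nonempty
    have h1 : ‖z‖ ≤ |z i| := (pi_norm_le_iff_of_nonneg (abs_nonneg _)).2 fun j => hi j
      (Finset.mem_univ j)
    calc ‖z‖ ^ 2 ≤ |z i| ^ 2 := pow_le_pow_left₀ (norm_nonneg _) h1 2
      _ = z i ^ 2 := sq_abs _
      _ ≤ ∑ i, z i ^ 2 := Finset.single_le_sum (f := fun i => z i ^ 2)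
          (fun j _ => sq_nonneg _) (Finset.mem_univ i)

lemma key (hGWB : Stmt_GWB) (n : ℕ) (hn : 2 ≤ n) (τ : ℝ) (h1 : 1 / 100 ≤ τ)
    (h2 : τ ≤ 17 * (n : ℝ) ^ 12) (w : List (Fin (dm n))) (z : P (dm n)) (ζ : ℂ)
    (hζ : ‖ζ - τ‖ = τ / 2) :
    ‖gw w ζ z‖ ≤ w.length.factorial * (dm n : ℝ) ^ w.length * (n : ℝ) ^ (87 * n ^ 4) *
      (1 + ‖z‖) ^ (-(6 * (dm n : ℤ))) := by
  have hτ : 0 < τ := by linarith
  have hn' : (2 : ℝ) ≤ n := by exact_mod_cast hn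
  have hD : (dm n : ℝ) = (n : ℝ) ^ 4 := by simp [dm]
  have hD16 : (16 : ℝ) ≤ dm n := by
    rw [hD]; have := pow_le_pow_left₀ (by norm_num : (0 : ℝ) ≤ 2) hn' 4
    norm_num at this; linarith
  have hDpos : 0 < (dm n : ℝ) := by linarith
  obtain ⟨c1, c2, c3⟩ := circ τ hτ ζ hζ
  have hG := hGWB (dm n) ζ (2 / (3 * τ)) (τ / 2) (1 / dm n) w z (by positivity) c2 c1 c3
    (by positivity)
  have hinv : (1 / (dm n : ℝ))⁻¹ = dm n := by simp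
  rw [hinv] at hG
  -- the square root
  have hsq : (Real.sqrt (π * (τ / 2)))⁻¹ ^ dm n ≤ (n : ℝ) ^ (4 * n ^ 4) := by
    have h3 : (1 : ℝ) / 10 ≤ Real.sqrt (π * (τ / 2)) := by
      apply Real.le_sqrt_of_sq_le
      have := Real.pi_gt_three
      nlinarith
    have h4 : (Real.sqrt (π * (τ / 2)))⁻¹ ≤ 10 := by
      rw [inv_le_comm₀ (by linarith) (by norm_num)]; norm_num at h3 ⊢; linarith
    have h5 : (Real.sqrt (π * (τ / 2)))⁻¹ ≤ (n : ℝ) ^ 4 := by rw [← hD]; linarith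
    calc (Real.sqrt (π * (τ / 2)))⁻¹ ^ dm n ≤ ((n : ℝ) ^ 4) ^ dm n :=
          pow_le_pow_left₀ (by positivity) h5 _
      _ = (n : ℝ) ^ (4 * n ^ 4) := by rw [← pow_mul]; rfl
  -- the exponential
  have hexp : Real.exp (∑ i, (-(2 / (3 * τ)) * z i ^ 2 + (2 * |z i| * (1 / dm n) +
      (1 / (dm n : ℝ)) ^ 2) / (τ / 2))) ≤ (n : ℝ) ^ (8 * n ^ 4) *
      Real.exp (-(‖z‖ ^ 2 / (3 * τ))) := by
    have h3 : ∀ i, (-(2 / (3 * τ)) * z i ^ 2 + (2 * |z i| * (1 / dm n) +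
      (1 / (dm n : ℝ)) ^ 2) / (τ / 2)) ≤ -(1 / (3 * τ)) * z i ^ 2 + 14 / (dm n ^ 2 * τ) := by
      intro i
      have h4 : 0 ≤ 1 / (3 * τ) * (|z i| - 6 / dm n) ^ 2 := by positivity
      have h5 : 1 / (3 * τ) * (|z i| - 6 / dm n) ^ 2 = 1 / (3 * τ) * z i ^ 2 -
          4 * |z i| / (τ * dm n) + 12 / (dm n ^ 2 * τ) := by
        rw [sub_sq, sq_abs]; field_simp; ring
      have h6 : (2 * |z i| * (1 / dm n) + (1 / (dm n : ℝ)) ^ 2) / (τ / 2) =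
          4 * |z i| / (τ * dm n) + 2 / (dm n ^ 2 * τ) := by field_simp; ring
      have h7 : 14 / ((dm n : ℝ) ^ 2 * τ) = 12 / (dm n ^ 2 * τ) + 2 / (dm n ^ 2 * τ) := by ring
      have h8 : 2 / (3 * τ) = 1 / (3 * τ) + 1 / (3 * τ) := by ring
      rw [h6, h7, h8]; linarith
    have h4 := Finset.sum_le_sum fun i (_ : i ∈ Finset.univ) => h3 i
    have h5 : ∑ i, (-(1 / (3 * τ)) * z i ^ 2 + 14 / ((dm n : ℝ) ^ 2 * τ)) =
        -(1 / (3 * τ)) * ∑ i, z i ^ 2 + 14 / (dm n * τ) := by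
      rw [Finset.sum_add_distrib, ← Finset.mul_sum, Finset.sum_const, Finset.card_univ,
        Fintype.card_fin, nsmul_eq_mul]
      congr 1
      field_simp
    rw [h5] at h4
    have h6 : 14 / (dm n * τ) ≤ 88 := by
      rw [div_le_iff₀ (by positivity)]
      nlinarith
    have h7 : -(1 / (3 * τ)) * ∑ i, z i ^ 2 ≤ -(‖z‖ ^ 2 / (3 * τ)) := by
      have := mul_le_mul_of_nonneg_left (sum_sq_ge z) (by positivity : 0 ≤ 1 / (3 * τ))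
      have h8 : ‖z‖ ^ 2 / (3 * τ) = 1 / (3 * τ) * ‖z‖ ^ 2 := by ring
      rw [h8]; linarith
    have h8 : Real.exp 88 ≤ (n : ℝ) ^ (8 * n ^ 4) := by
      have h9 : Real.exp 88 ≤ 2 ^ 128 := by
        have h10 : Real.exp 88 = Real.exp 1 ^ 88 := by rw [← Real.exp_nat_mul]; norm_num
        rw [h10]
        calc Real.exp 1 ^ 88 ≤ (2.7182818286 : ℝ) ^ 88 :=
              pow_le_pow_left₀ (Real.exp_pos _).le Real.exp_one_lt_d9.le 88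
          _ ≤ 2 ^ 128 := by norm_num
      have h10 : (2 : ℝ) ^ 128 ≤ (n : ℝ) ^ 128 := pow_le_pow_left₀ (by norm_num) hn' _
      have h11 : (n : ℝ) ^ 128 ≤ (n : ℝ) ^ (8 * n ^ 4) := by
        refine pow_le_pow_right₀ (by linarith) ?_
        have : 2 ^ 4 ≤ n ^ 4 := Nat.pow_le_pow_left hn 4
        omega
      linarith
    calc _ ≤ Real.exp (88 + -(‖z‖ ^ 2 / (3 * τ))) := Real.exp_le_exp.2 (by linarith)
      _ = Real.exp 88 * Real.exp (-(‖z‖ ^ 2 / (3 * τ))) := Real.exp_add _ _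
      _ ≤ _ := mul_le_mul_of_nonneg_right h8 (Real.exp_pos _).le
  have hdec := decay n hn τ ‖z‖ hτ h2 (norm_nonneg _)
  have hz : 0 < 1 + ‖z‖ := by positivity
  have hzp : (1 + ‖z‖) ^ (-(6 * (dm n : ℤ))) = ((1 + ‖z‖) ^ (6 * dm n))⁻¹ := by
    rw [zpow_neg]; congr 1
  have hdec2 : Real.exp (-(‖z‖ ^ 2 / (3 * τ))) ≤ (n : ℝ) ^ (75 * n ^ 4) *
      (1 + ‖z‖) ^ (-(6 * (dm n : ℤ))) := by
    rw [hzp, ← div_eq_mul_inv, le_div_iff₀ (by positivity), mul_comm]; exact hdec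
  have hw : (0 : ℝ) ≤ w.length.factorial * (dm n : ℝ) ^ w.length := by positivity
  calc ‖gw w ζ z‖ ≤ _ := hG
    _ ≤ w.length.factorial * (dm n : ℝ) ^ w.length * (n : ℝ) ^ (4 * n ^ 4) *
        ((n : ℝ) ^ (8 * n ^ 4) * ((n : ℝ) ^ (75 * n ^ 4) *
        (1 + ‖z‖) ^ (-(6 * (dm n : ℤ))))) := by
        refine mul_le_mul (mul_le_mul_of_nonneg_left hsq hw)
          (hexp.trans (mul_le_mul_of_nonneg_left hdec2 (by positivity))) (Real.exp_pos _).le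
          (by positivity)
    _ = _ := by
        have : (n : ℝ) ^ (87 * n ^ 4) = (n : ℝ) ^ (4 * n ^ 4) * (n : ℝ) ^ (8 * n ^ 4) *
          (n : ℝ) ^ (75 * n ^ 4) := by rw [← pow_add, ← pow_add]; congr 1; ring
        rw [this]; ring

lemma key2 (hGWB : Stmt_GWB) (n : ℕ) (hn : 2 ≤ n) (τ : ℝ) (h1 : 1 / 100 ≤ τ)
    (h2 : τ ≤ 17 * (n : ℝ) ^ 12) (w : List (Fin (dm n))) (z : P (dm n)) :
    |gr w τ z| ≤ w.length.factorial * (dm n : ℝ) ^ w.length * (n : ℝ) ^ (87 * n ^ 4) *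
      (1 + ‖z‖) ^ (-(6 * (dm n : ℤ))) := by
  have h3 : |gr w τ z| ≤ ‖gw w (τ : ℂ) z‖ := Complex.abs_re_le_norm _
  refine h3.trans ?_
  have hτ : 0 < τ := by linarith
  rcases le_total (2 * τ) (17 * (n : ℝ) ^ 12) with h | h
  · refine key hGWB n hn (2 * τ) (by linarith) h w z τ ?_
    have : ((τ : ℂ) - ((2 * τ : ℝ) : ℂ)) = ((-τ : ℝ) : ℂ) := by push_cast; ring
    rw [this, Complex.norm_real, Real.norm_eq_abs, abs_neg, abs_of_pos hτ]; ring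
  · have hn' : (1 : ℝ) ≤ (n : ℝ) ^ 12 := one_le_pow₀ (by exact_mod_cast (by omega : 1 ≤ n))
    refine key hGWB n hn (2 / 3 * τ) (by linarith) (by linarith) w z τ ?_
    have : ((τ : ℂ) - ((2 / 3 * τ : ℝ) : ℂ)) = ((τ / 3 : ℝ) : ℂ) := by push_cast; ring
    rw [this, Complex.norm_real, Real.norm_eq_abs, abs_of_pos (by positivity)]; ring

end CR2_

open CR2_ in
theorem cr2_proof (hGWB : Stmt_GWB) : Stmt_CR2 := by
  refine ⟨87, ?_⟩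
  intro n hn w z u l hu hub hl
  have hn' : (2 : ℝ) ≤ n := by exact_mod_cast hn
  have h0 : (0 : ℝ) ≤ 4 * l * (n : ℝ) ^ 8 := by positivity
  have h3 : (l : ℝ) ≤ 4 * (n : ℝ) ^ 4 := by
    have : (l : ℝ) ≤ (Ln n : ℝ) := by exact_mod_cast hl
    simpa [Ln] using this
  have h4 : (l : ℝ) * (n : ℝ) ^ 8 ≤ 4 * (n : ℝ) ^ 4 * (n : ℝ) ^ 8 :=
    mul_le_mul_of_nonneg_right h3 (by positivity)
  have h5 : 4 * (n : ℝ) ^ 4 * (n : ℝ) ^ 8 = 4 * (n : ℝ) ^ 12 := by ring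
  rw [h5] at h4
  have h6 : 4 * (n : ℝ) ^ 2 + 1 ≤ (n : ℝ) ^ 12 := by
    have h7 : (2 : ℝ) ^ 10 ≤ (n : ℝ) ^ 10 := pow_le_pow_left₀ (by norm_num) hn' 10
    have h8 : (n : ℝ) ^ 12 = (n : ℝ) ^ 10 * (n : ℝ) ^ 2 := by ring
    have h9 : (4 : ℝ) ≤ (n : ℝ) ^ 2 := by nlinarith
    rw [h8]; nlinarith
  have hub' : u ≤ (n : ℝ) ^ 2 := hub
  have key3 := key2 hGWB n hn (tl n l + 4 * u) (by unfold tl t0 um; linarith)
    (by unfold tl t0 um; linarith) w z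
  refine key3.trans (le_of_eq ?_)
  rw [crd]

end Pool.Agent.HBW
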