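import Pool.Agent.HBW.Stmts

/-!
# CRD: crude bounds for the kernels
-/

set_option autoImplicit false

namespace Pool.Agent.HBW

open MeasureTheory Set Filter Topology
open scoped ENNReal Real

namespace CRD_

theorem crd_nonneg (n C : ℕ) (w : List (Fin (dm n))) (z : P (dm n)) : 0 ≤ crd n C w z := by
  unfold crd
  positivity

theorem crd_mul {n : ℕ} (C k : ℕ) (w : List (Fin (dm n))) (z : P (dm n)) {a : ℝ}
    (ha : a ≤ (n : ℝ) ^ (k * n ^ 4)) : a * crd n C w z ≤ crd n (C + k) w z := by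
  have h1 : crd n (C + k) w z = (n : ℝ) ^ (k * n ^ 4) * crd n C w z := by
    unfold crd
    rw [add_mul, pow_add]
    ring
  rw [h1]
  exact mul_le_mul_of_nonneg_right ha (crd_nonneg n C w z)

theorem crd_mono {n : ℕ} (hn : 2 ≤ n) {C C' : ℕ} (h : C ≤ C') (w : List (Fin (dm n)))
    (z : P (dm n)) : crd n C w z ≤ crd n C' w z := by
  obtain ⟨k, rfl⟩ := Nat.exists_eq_add_of_le h
  have h1 : (1 : ℝ) ≤ (n : ℝ) ^ (k * n ^ 4) :=
    one_le_pow₀ (by exact_mod_cast (by omega : 1 ≤ n))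
  have := crd_mul C k w z h1
  rwa [one_mul] at this

theorem pow2_le {n : ℕ} (hn : 2 ≤ n) (k : ℕ) : (2 : ℝ) ^ (k * n ^ 4) ≤ (n : ℝ) ^ (k * n ^ 4) :=
  pow_le_pow_left₀ (by norm_num) (by exact_mod_cast hn) _

theorem small_le {n : ℕ} (hn : 2 ≤ n) : (3 : ℝ) ≤ (n : ℝ) ^ (1 * n ^ 4) := by
  have h1 : 2 ^ 4 ≤ n ^ 4 := Nat.pow_le_pow_left hn 4
  calc (3 : ℝ) ≤ 2 ^ 2 := by norm_num
    _ ≤ 2 ^ (1 * n ^ 4) := pow_le_pow_right₀ (by norm_num) (by omega)
    _ ≤ _ := pow2_le hn 1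

theorem n_le {n : ℕ} (hn : 2 ≤ n) : 2 * (n : ℝ) ≤ (n : ℝ) ^ (1 * n ^ 4) := by
  have h1 : 2 ^ 4 ≤ n ^ 4 := Nat.pow_le_pow_left hn 4
  have h2 : (2 : ℝ) ≤ n := by exact_mod_cast hn
  calc 2 * (n : ℝ) ≤ n ^ 2 := by nlinarith
    _ ≤ (n : ℝ) ^ (1 * n ^ 4) := pow_le_pow_right₀ (by linarith) (by omega)

theorem sum_bs (n : ℕ) : ∑ l ∈ Finset.range (Ln n + 1), |bs n l| = 2 ^ (4 * n ^ 4) := by
  have h1 : ∀ l, |bs n l| = ((Ln n).choose l : ℝ) := by
    intro l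
    unfold bs
    rw [abs_mul, abs_pow, abs_neg, abs_one, one_pow, one_mul, Nat.abs_cast]
  simp only [h1]
  have h2 := Nat.sum_range_choose (Ln n)
  unfold Ln at *
  exact_mod_cast h2

theorem sum_le {n : ℕ} (hn : 2 ≤ n) (C : ℕ) (w : List (Fin (dm n))) (z : P (dm n)) (x : ℕ → ℝ)
    (hx : ∀ l, l ≤ Ln n → |x l| ≤ crd n C w z) :
    |∑ l ∈ Finset.range (Ln n + 1), bs n l * x l| ≤ crd n (C + 4) w z := by
  calc |∑ l ∈ Finset.range (Ln n + 1), bs n l * x l|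
      ≤ ∑ l ∈ Finset.range (Ln n + 1), |bs n l * x l| := Finset.abs_sum_le_sum_abs _ _
    _ ≤ ∑ l ∈ Finset.range (Ln n + 1), |bs n l| * crd n C w z := by
        refine Finset.sum_le_sum fun l hl => ?_
        rw [abs_mul]
        refine mul_le_mul_of_nonneg_left (hx l ?_) (abs_nonneg _)
        have := Finset.mem_range.1 hl
        omega
    _ = 2 ^ (4 * n ^ 4) * crd n C w z := by rw [← Finset.sum_mul, sum_bs]
    _ ≤ crd n (C + 4) w z := crd_mul C 4 w z (pow2_le hn 4)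

theorem wf_le (ω u : ℝ) (hu : 0 < u) : 0 ≤ Wf ω u ∧ Wf ω u ≤ u ^ (-(1 / 2) : ℝ) := by
  unfold Wf
  have h1 : 0 < Real.sqrt (π * u) := Real.sqrt_pos.2 (mul_pos Real.pi_pos hu)
  refine ⟨by positivity, ?_⟩
  have h2 : Real.exp (-ω ^ 2 / (4 * u)) ≤ 1 := by
    rw [Real.exp_le_one_iff]
    have : 0 ≤ ω ^ 2 / (4 * u) := by positivity
    have e : -ω ^ 2 / (4 * u) = -(ω ^ 2 / (4 * u)) := by ring
    rw [e]
    linarith
  have h3 : (Real.sqrt (π * u))⁻¹ ≤ u ^ (-(1 / 2) : ℝ) := by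
    rw [Real.rpow_neg hu.le, ← Real.sqrt_eq_rpow]
    refine inv_anti₀ (Real.sqrt_pos.2 hu) (Real.sqrt_le_sqrt ?_)
    have := Real.pi_gt_three
    nlinarith
  calc (Real.sqrt (π * u))⁻¹ * Real.exp (-ω ^ 2 / (4 * u)) ≤ (Real.sqrt (π * u))⁻¹ * 1 :=
        mul_le_mul_of_nonneg_left h2 (by positivity)
    _ ≤ _ := by rw [mul_one]; exact h3

theorem int_half (b : ℝ) (hb : 0 ≤ b) : IntegrableOn (fun u : ℝ => u ^ (-(1 / 2) : ℝ)) (Ioc 0 b) ∧
    ∫ u in Ioc 0 b, u ^ (-(1 / 2) : ℝ) = 2 * Real.sqrt b := by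
  have h1 : IntervalIntegrable (fun u : ℝ => u ^ (-(1 / 2) : ℝ)) volume 0 b :=
    intervalIntegral.intervalIntegrable_rpow' (by norm_num)
  refine ⟨(intervalIntegrable_iff_integrableOn_Ioc_of_le hb).1 h1, ?_⟩
  rw [← intervalIntegral.integral_of_le hb, integral_rpow (Or.inl (by norm_num))]
  rw [Real.sqrt_eq_rpow]
  have e : (-(1 / 2) + 1 : ℝ) = 1 / 2 := by norm_num
  rw [e, Real.zero_rpow (by norm_num)]
  ring

/-- the dominating function -/
noncomputable def dom (u : ℝ) : ℝ := if u ≤ 1 then u ^ (-(1 / 2) : ℝ) else u ^ (-2 : ℝ)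

theorem int_dom : IntegrableOn dom (Ioi 0) ∧ ∫ u in Ioi (0 : ℝ), dom u = 3 := by
  have h1 := int_half 1 zero_le_one
  have i1 : IntegrableOn dom (Ioc 0 1) := by
    refine h1.1.congr_fun (fun u hu => ?_) measurableSet_Ioc
    unfold dom
    rw [if_pos hu.2]
  have i2 : IntegrableOn dom (Ioi 1) := by
    refine (integrableOn_Ioi_rpow_of_lt (by norm_num : (-2 : ℝ) < -1) one_pos).congr_fun
      (fun u hu => ?_) measurableSet_Ioi
    unfold dom
    rw [if_neg (not_le.2 hu)]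
  have hu : Ioc (0 : ℝ) 1 ∪ Ioi 1 = Ioi 0 := Ioc_union_Ioi_eq_Ioi zero_le_one
  refine ⟨by rw [← hu]; exact i1.union i2, ?_⟩
  rw [← hu, setIntegral_union (Ioc_disjoint_Ioi le_rfl) measurableSet_Ioi i1 i2]
  have e1 : ∫ u in Ioc (0 : ℝ) 1, dom u = 2 := by
    rw [setIntegral_congr_fun (g := fun u : ℝ => u ^ (-(1 / 2) : ℝ)) measurableSet_Ioc
      (fun u hu => ?_), h1.2, Real.sqrt_one, mul_one]
    unfold dom
    rw [if_pos hu.2]
  have e2 : ∫ u in Ioi (1 : ℝ), dom u = 1 := by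
    rw [setIntegral_congr_fun (g := fun u : ℝ => u ^ (-2 : ℝ)) measurableSet_Ioi
      (fun u hu => ?_), integral_Ioi_rpow_of_lt (by norm_num) one_pos]
    · norm_num
    · unfold dom
      rw [if_neg (not_le.2 hu)]
  rw [e1, e2]
  norm_num

theorem dom_ge (ω u : ℝ) (hu : 0 < u) : Wf ω u * (1 + u) ^ (-2 : ℤ) ≤ dom u := by
  obtain ⟨h0, h1⟩ := wf_le ω u hu
  have h2 : (1 + u) ^ (-2 : ℤ) = ((1 + u) ^ 2)⁻¹ := by
    rw [zpow_neg]
    rfl
  have h3 : ((1 + u) ^ 2)⁻¹ ≤ 1 := inv_le_one_of_one_le₀ (by nlinarith)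
  unfold dom
  rw [h2]
  split_ifs with h
  · calc Wf ω u * ((1 + u) ^ 2)⁻¹ ≤ u ^ (-(1 / 2) : ℝ) * 1 :=
          mul_le_mul h1 h3 (by positivity) (by positivity)
      _ = _ := mul_one _
  · push Not at h
    have h4 : u ^ (-(1 / 2) : ℝ) ≤ 1 := Real.rpow_le_one_of_one_le_of_nonpos h.le (by norm_num)
    have h5 : u ^ (-2 : ℝ) = (u ^ 2)⁻¹ := by
      rw [Real.rpow_neg hu.le]
      norm_num
    rw [h5]
    calc Wf ω u * ((1 + u) ^ 2)⁻¹ ≤ 1 * (u ^ 2)⁻¹ := by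
          refine mul_le_mul (h1.trans h4) ?_ (by positivity) zero_le_one
          exact inv_anti₀ (by positivity) (by nlinarith)
      _ = _ := one_mul _

end CRD_

open CRD_

theorem crd_proof (hCR0 : Stmt_CR0) (hCR1 : Stmt_CR1) (hCR2 : Stmt_CR2) : Stmt_CRD := by
  obtain ⟨C0, h0⟩ := hCR0
  obtain ⟨C1, h1⟩ := hCR1
  obtain ⟨C2, h2⟩ := hCR2
  refine ⟨C0 + C1 + C2 + 6, fun n hn w z => ?_⟩
  have tl0 : tl n 0 = t0 := by
    unfold tl
    simp
  have a0 : ∀ l, l ≤ Ln n → |(cc (om n) (tl n l) (fun ζ => gw w ζ z)).re| ≤ crd n C0 w z :=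
    fun l hl => (Complex.abs_re_le_norm _).trans (h0 n hn w z l hl).1
  have a1 : ∀ l, l ≤ Ln n → |(cs (om n) (tl n l) (fun ζ => gw w ζ z)).re| ≤ crd n C0 w z :=
    fun l hl => (Complex.abs_re_le_norm _).trans (h0 n hn w z l hl).2
  refine ⟨?_, ?_, ?_, ?_, ?_⟩
  · exact (sum_le hn C0 w z _ a0).trans (crd_mono hn (by omega) w z)
  · have b1 := sum_le hn C0 w z _ a1
    have b2 : |∫ u in Ioi (0 : ℝ), Wf (om n) u *
        ∑ l ∈ Finset.range (Ln n + 1), bs n l * gr w (tl n l + 4 * u) z| ≤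
        crd n (C1 + 1) w z := by
      have hb : ‖∫ u in Ioi (0 : ℝ), Wf (om n) u *
          ∑ l ∈ Finset.range (Ln n + 1), bs n l * gr w (tl n l + 4 * u) z‖ ≤
          ∫ u in Ioi (0 : ℝ), crd n C1 w z * dom u := by
        refine norm_integral_le_of_norm_le (int_dom.1.const_mul _) ?_
        filter_upwards [ae_restrict_mem measurableSet_Ioi] with u hu
        have hu' : 0 < u := hu
        rw [Real.norm_eq_abs, abs_mul, abs_of_nonneg (wf_le (om n) u hu').1]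
        calc Wf (om n) u * |∑ l ∈ Finset.range (Ln n + 1), bs n l * gr w (tl n l + 4 * u) z|
            ≤ Wf (om n) u * (crd n C1 w z * (1 + u) ^ (-2 : ℤ)) :=
              mul_le_mul_of_nonneg_left (h1 n hn w z u hu'.le) (wf_le (om n) u hu').1
          _ = crd n C1 w z * (Wf (om n) u * (1 + u) ^ (-2 : ℤ)) := by ring
          _ ≤ crd n C1 w z * dom u :=
              mul_le_mul_of_nonneg_left (dom_ge _ _ hu') (crd_nonneg _ _ _ _)
      rw [integral_const_mul, int_dom.2, Real.norm_eq_abs, mul_comm] at hb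
      exact hb.trans (crd_mul C1 1 w z (small_le hn))
    have e1 : |K1 n w z| ≤ crd n (C0 + 4) w z + crd n (C1 + 1) w z :=
      (abs_add_le _ _).trans (add_le_add b1 b2)
    have e2 := crd_mono hn (by omega : C0 + 4 ≤ C0 + C1 + C2 + 5) w z
    have e3 := crd_mono hn (by omega : C1 + 1 ≤ C0 + C1 + C2 + 5) w z
    have e4 := crd_mul (C0 + C1 + C2 + 5) 1 w z (a := 2) (by linarith [small_le hn])
    have e5 := crd_nonneg n (C0 + C1 + C2 + 5) w z
    refine e1.trans ?_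
    have e6 : C0 + C1 + C2 + 5 + 1 = C0 + C1 + C2 + 6 := by ring
    rw [e6] at e4
    linarith
  · have := a0 0 (Nat.zero_le _)
    rw [tl0] at this
    exact this.trans (crd_mono hn (by omega) w z)
  · have := a1 0 (Nat.zero_le _)
    rw [tl0] at this
    exact this.trans (crd_mono hn (by omega) w z)
  · have hub : 0 ≤ ub n := by
      unfold ub
      positivity
    obtain ⟨i1, i2⟩ := int_half (ub n) hub
    have hsq : Real.sqrt (ub n) = n := by
      unfold ub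
      exact Real.sqrt_sq (Nat.cast_nonneg n)
    have hb : ‖∫ u in Ioc (0 : ℝ) (ub n), Wf (om n) u * gr w (t0 + 4 * u) z‖ ≤
        ∫ u in Ioc (0 : ℝ) (ub n), crd n C2 w z * u ^ (-(1 / 2) : ℝ) := by
      refine norm_integral_le_of_norm_le (i1.const_mul _) ?_
      filter_upwards [ae_restrict_mem measurableSet_Ioc] with u hu
      obtain ⟨w0, w1⟩ := wf_le (om n) u hu.1
      have h3 := h2 n hn w z u 0 hu.1.le hu.2 (Nat.zero_le _)
      rw [tl0] at h3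
      rw [Real.norm_eq_abs, abs_mul, abs_of_nonneg w0, mul_comm]
      exact mul_le_mul h3 w1 w0 (crd_nonneg _ _ _ _)
    rw [integral_const_mul, i2, hsq, Real.norm_eq_abs, mul_comm] at hb
    exact (hb.trans (crd_mul C2 1 w z (n_le hn))).trans (crd_mono hn (by omega) w z)

end Pool.Agent.HBW
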