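import Pool.Agent.HBW.Stmts

/-!
Module DED: location of dead points.
-/

set_option autoImplicit false

namespace Pool.Agent.HBW

open MeasureTheory Set Filter Topology
open scoped ENNReal Real

namespace DED_

variable {n N0 : ℕ}

theorem dm_pos (hn : 2 ≤ n) : 0 < dm n := pow_pos (by omega) 4

theorem rho_pos (hn : 2 ≤ n) : 0 < rho n := Nat.mul_pos (dm_pos hn) (by positivity)

theorem rho_two (hn : 2 ≤ n) : 2 ≤ rho n := by
  have h1 : 1 ≤ n ^ 4 := dm_pos hn
  have h2 : 2 ^ 1 ≤ 2 ^ n := Nat.pow_le_pow_right (by norm_num) (by omega)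
  unfold rho
  nlinarith

theorem Nj_pos (hn : 2 ≤ n) (hN : 1 ≤ N0) (j : ℕ) : 0 < Nj n N0 j :=
  Nat.mul_pos hN (pow_pos (rho_pos hn) j)

theorem Nj_succ (j : ℕ) : (Nj n N0 (j + 1) : ℝ) = Nj n N0 j * rho n := by
  unfold Nj
  push_cast
  ring

theorem Nj_succ' (j : ℕ) : (Nj n N0 (j + 1) : ℝ) = Nj n N0 j * dm n * 2 ^ n := by
  rw [Nj_succ]
  unfold rho dm
  push_cast
  ring

theorem mem_chd (hn : 2 ≤ n) (S : Finset (Z (dm n))) (q : Z (dm n)) (h : pc n q ∈ S) :
    q ∈ chd n S := by
  unfold chd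
  rw [Finset.mem_biUnion]
  refine ⟨pc n q, h, ?_⟩
  rw [Fintype.mem_piFinset]
  intro i
  have hr : (0 : ℤ) < (rho n : ℤ) := by exact_mod_cast rho_pos hn
  rw [Finset.mem_Ico]
  exact ⟨Int.ediv_mul_le _ (ne_of_gt hr), Int.lt_ediv_add_one_mul_self _ hr⟩

/-- every point lies in a cube -/
theorem exists_cube (hn : 2 ≤ n) (hN : 1 ≤ N0) (j : ℕ) (x : P (dm n)) :
    ∃ q : Z (dm n), (∀ i, q i = ⌊x i * (dm n * Nj n N0 j : ℝ)⌋) ∧ x ∈ cube n N0 j q := by
  have hD : (0 : ℝ) < dm n := by exact_mod_cast dm_pos hn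
  have hNj : (0 : ℝ) < Nj n N0 j := by exact_mod_cast Nj_pos hn hN j
  refine ⟨fun i => ⌊x i * (dm n * Nj n N0 j : ℝ)⌋, fun i => rfl, fun i => ⟨?_, ?_⟩⟩
  · rw [div_le_iff₀ (mul_pos hD hNj)]
    exact Int.floor_le _
  · rw [le_div_iff₀ (mul_pos hD hNj)]
    exact (Int.lt_floor_add_one _).le

/-- the parent cube contains the child -/
theorem cube_sub (hn : 2 ≤ n) (hN : 1 ≤ N0) (j : ℕ) (q : Z (dm n)) (x : P (dm n))
    (hx : x ∈ cube n N0 (j + 1) q) : x ∈ cube n N0 j (pc n q) := by
  have hD : (0 : ℝ) < dm n := by exact_mod_cast dm_pos hn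
  have hNj : (0 : ℝ) < Nj n N0 j := by exact_mod_cast Nj_pos hn hN j
  have hr : (0 : ℤ) < (rho n : ℤ) := by exact_mod_cast rho_pos hn
  have hr' : (0 : ℝ) < rho n := by exact_mod_cast rho_pos hn
  intro i
  obtain ⟨h1, h2⟩ := hx i
  have h3 : q i / (rho n : ℤ) * (rho n : ℤ) ≤ q i := Int.ediv_mul_le _ (ne_of_gt hr)
  have h4 : q i + 1 ≤ (q i / (rho n : ℤ) + 1) * (rho n : ℤ) :=
    Int.lt_ediv_add_one_mul_self _ hr
  have h3' : ((q i / (rho n : ℤ) : ℤ) : ℝ) * rho n ≤ q i := by exact_mod_cast h3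
  have h4' : (q i : ℝ) + 1 ≤ (((q i / (rho n : ℤ) : ℤ) : ℝ) + 1) * rho n := by exact_mod_cast h4
  rw [Nj_succ, ← mul_assoc] at h1 h2
  constructor
  · refine le_trans ?_ h1
    rw [div_le_div_iff₀ (mul_pos hD hNj) (mul_pos (mul_pos hD hNj) hr')]
    calc (pc n q i : ℝ) * (dm n * Nj n N0 j * rho n)
        = (((q i / (rho n : ℤ) : ℤ) : ℝ) * rho n) * (dm n * Nj n N0 j) := by
          unfold pc
          ring
      _ ≤ q i * (dm n * Nj n N0 j) := mul_le_mul_of_nonneg_right h3' (mul_pos hD hNj).le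
  · refine h2.trans ?_
    rw [div_le_div_iff₀ (mul_pos (mul_pos hD hNj) hr') (mul_pos hD hNj)]
    calc ((q i : ℝ) + 1) * (dm n * Nj n N0 j)
        ≤ ((((q i / (rho n : ℤ) : ℤ) : ℝ) + 1) * rho n) * (dm n * Nj n N0 j) :=
          mul_le_mul_of_nonneg_right h4' (mul_pos hD hNj).le
      _ = ((pc n q i : ℝ) + 1) * (dm n * Nj n N0 j * rho n) := by
          unfold pc
          ring

/-- moving into the interior of a cube -/
theorem move (hn : 2 ≤ n) (hN : 1 ≤ N0) (j : ℕ) (p : Z (dm n)) (y : P (dm n))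
    (hy : y ∈ cube n N0 j p) : ∃ z : P (dm n), (∀ i, |z i - y i| ≤ 1 / Nj n N0 (j + 1)) ∧
      ∀ p', z ∈ cube n N0 j p' → p' = p := by
  have hD : (0 : ℝ) < dm n := by exact_mod_cast dm_pos hn
  have hNj : (0 : ℝ) < Nj n N0 j := by exact_mod_cast Nj_pos hn hN j
  have hNj1 : (0 : ℝ) < Nj n N0 (j + 1) := by exact_mod_cast Nj_pos hn hN (j + 1)
  set δ : ℝ := 1 / Nj n N0 (j + 1) with hδ
  have hδ0 : 0 < δ := by positivity
  have hside : 4 * δ ≤ 1 / (dm n * Nj n N0 j : ℝ) := by
    rw [hδ, Nj_succ', mul_one_div, div_le_div_iff₀ (by positivity) (by positivity)]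
    have h2 : (4 : ℝ) ≤ 2 ^ n := by
      calc (4 : ℝ) = 2 ^ 2 := by norm_num
        _ ≤ 2 ^ n := pow_le_pow_right₀ (by norm_num) hn
    have h3 : (0 : ℝ) < dm n * Nj n N0 j := mul_pos hD hNj
    nlinarith
  have hLU : ∀ i, ((p i : ℝ) + 1) / (dm n * Nj n N0 j) =
      (p i : ℝ) / (dm n * Nj n N0 j) + 1 / (dm n * Nj n N0 j : ℝ) := fun i => add_div _ _ _
  refine ⟨fun i => max ((p i : ℝ) / (dm n * Nj n N0 j) + δ)
    (min (((p i : ℝ) + 1) / (dm n * Nj n N0 j) - δ) (y i)), fun i => ?_, fun p' hp' => ?_⟩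
  · obtain ⟨h1, h2⟩ := hy i
    have h3 := hLU i
    show |max _ (min _ _) - y i| ≤ δ
    rw [abs_le]
    constructor
    · have h4 : y i - δ ≤ min (((p i : ℝ) + 1) / (dm n * Nj n N0 j) - δ) (y i) :=
        le_min (by linarith) (by linarith)
      have h5 := h4.trans (le_max_right ((p i : ℝ) / (dm n * Nj n N0 j) + δ) _)
      linarith
    · have h4 : max ((p i : ℝ) / (dm n * Nj n N0 j) + δ)
          (min (((p i : ℝ) + 1) / (dm n * Nj n N0 j) - δ) (y i)) ≤ y i + δ :=
        max_le (by linarith) ((min_le_right _ _).trans (by linarith))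
      linarith
  · funext i
    obtain ⟨h1, h2⟩ := hp' i
    have h3 := hLU i
    have h4 : (p i : ℝ) / (dm n * Nj n N0 j) < max ((p i : ℝ) / (dm n * Nj n N0 j) + δ)
        (min (((p i : ℝ) + 1) / (dm n * Nj n N0 j) - δ) (y i)) :=
      lt_of_lt_of_le (by linarith) (le_max_left _ _)
    have h5 : max ((p i : ℝ) / (dm n * Nj n N0 j) + δ)
        (min (((p i : ℝ) + 1) / (dm n * Nj n N0 j) - δ) (y i)) <
        ((p i : ℝ) + 1) / (dm n * Nj n N0 j) :=
      max_lt (by linarith) (lt_of_le_of_lt (min_le_left _ _) (by linarith))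
    have h6 := lt_of_lt_of_le h4 h2
    have h7 := lt_of_le_of_lt h1 h5
    rw [div_lt_div_iff_of_pos_right (mul_pos hD hNj)] at h6 h7
    have h8 : p i < p' i + 1 := by exact_mod_cast h6
    have h9 : p' i < p i + 1 := by exact_mod_cast h7
    omega

end DED_

open DED_ in
theorem ded_proof : Stmt_DED := by
  intro n N0 B0 X _ _ A f S a hn hN hC
  have hD : (0 : ℝ) < dm n := by exact_mod_cast dm_pos hn
  have hρ : (2 : ℝ) ≤ rho n := by exact_mod_cast rho_two hn
  have hρ0 : (0 : ℝ) < rho n := by linarith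
  have hNp : ∀ j, (0 : ℝ) < Nj n N0 j := fun j => by exact_mod_cast Nj_pos hn hN j
  set κ : ℝ := (rn n : ℝ) + 2 with hκ
  have hκ0 : 0 < κ := by positivity
  -- the distances
  set b : ℕ → ℕ → ℝ := fun i j => 2 * κ / rho n * (1 / Nj n N0 i - 1 / Nj n N0 j) with hb
  have hbstep : ∀ i j, b i j + κ / Nj n N0 (j + 1) ≤ b i (j + 1) := by
    intro i j
    have h1 : (1 : ℝ) / Nj n N0 j = rho n / Nj n N0 (j + 1) := by
      rw [Nj_succ, mul_comm, div_mul_cancel_left₀ (ne_of_gt hρ0), one_div]
    have h2 : κ / Nj n N0 (j + 1) ≤ 2 * κ / rho n * (1 / Nj n N0 j - 1 / Nj n N0 (j + 1)) := by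
      rw [h1, ← sub_div, mul_div_assoc', div_le_div_iff_of_pos_right (hNp (j + 1)),
        div_mul_eq_mul_div, le_div_iff₀ hρ0]
      nlinarith
    simp only [hb]
    linarith
  have hbnn : ∀ i j, i ≤ j → 0 ≤ b i j := by
    intro i j hij
    induction j, hij using Nat.le_induction with
    | base => simp [hb]
    | succ j _ ih => linarith [hbstep i j, div_pos hκ0 (hNp (j + 1))]
  have claim : ∀ j, ∀ x ∈ Wd (dm n), (∀ p ∈ S j, x ∉ cube n N0 j p) →
      (∃ i, x i ≤ b 0 j ∨ 1 - b 0 j ≤ x i) ∨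
      ∃ i ≥ 1, i ≤ j ∧ ∃ q ∈ chd n (S (i - 1)), GC n (S (i - 1)) q ∧ B0 * lam n ^ i < a i q ∧
        ∃ y ∈ cube n N0 i q, ∀ k, |x k - y k| ≤ b i j := by
    intro j
    induction j with
    | zero =>
      intro x hx hdead
      exfalso
      obtain ⟨q, hq, hxq⟩ := exists_cube hn hN 0 x
      refine hdead q ((hC.s0 q).2 fun i => ?_) hxq
      have hx1 : 0 < x i := (hx i).1
      have hx2 : x i < 1 := (hx i).2
      have hN0 : (Nj n N0 0 : ℝ) = N0 := by simp [Nj]
      have hpos : (0 : ℝ) < dm n * Nj n N0 0 := mul_pos hD (hNp 0)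
      constructor
      · rw [hq i]
        exact Int.floor_nonneg.2 (mul_pos hx1 hpos).le
      · rw [hq i, Int.floor_lt]
        push_cast
        rw [← hN0]
        nlinarith
    | succ j ih =>
      intro x hx hdead
      obtain ⟨q, -, hxq⟩ := exists_cube hn hN (j + 1) x
      have hqS : q ∉ S (j + 1) := fun h => hdead q h hxq
      -- the case of a point near a dead cube of generation j
      have near : ∀ p : Z (dm n), p ∉ S j → ∀ y ∈ cube n N0 j p,
          (∀ i, |x i - y i| ≤ (κ - 1) / Nj n N0 (j + 1)) →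
          (∃ i, x i ≤ b 0 (j + 1) ∨ 1 - b 0 (j + 1) ≤ x i) ∨
          ∃ i ≥ 1, i ≤ j + 1 ∧ ∃ q ∈ chd n (S (i - 1)), GC n (S (i - 1)) q ∧
            B0 * lam n ^ i < a i q ∧ ∃ y ∈ cube n N0 i q, ∀ k, |x k - y k| ≤ b i (j + 1) := by
        intro p hp y hy hxy
        obtain ⟨z, hz, huniq⟩ := move hn hN j p y hy
        have hxz : ∀ i, |x i - z i| ≤ κ / Nj n N0 (j + 1) := by
          intro i
          have h1 : |x i - z i| ≤ |x i - y i| + |y i - z i| := abs_sub_le _ _ _
          have h2 := hxy i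
          have h3 := hz i
          rw [abs_sub_comm] at h3
          have h4 : (κ - 1) / Nj n N0 (j + 1) + 1 / Nj n N0 (j + 1) = κ / Nj n N0 (j + 1) := by
            rw [← add_div]
            ring
          linarith
        have hzd : ∀ p' ∈ S j, z ∉ cube n N0 j p' := by
          intro p' hp' hz'
          rw [huniq p' hz'] at hp'
          exact hp hp'
        by_cases hzW : z ∈ Wd (dm n)
        · rcases ih z hzW hzd with ⟨i, hi⟩ | ⟨i, hi1, hij, q', hq', hG, hbad, y', hy', hd⟩
          · left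
            refine ⟨i, ?_⟩
            have h1 := hxz i
            have h2 := hbstep 0 j
            rw [abs_le] at h1
            rcases hi with h | h
            · left; linarith
            · right; linarith
          · right
            refine ⟨i, hi1, by omega, q', hq', hG, hbad, y', hy', fun k => ?_⟩
            have h1 := hxz k
            have h2 := hbstep i j
            have h3 := hd k
            have h4 : |x k - y' k| ≤ |x k - z k| + |z k - y' k| := abs_sub_le _ _ _
            linarith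
        · left
          have hex : ∃ i, z i ≤ 0 ∨ 1 ≤ z i := by
            by_contra hno
            push Not at hno
            exact hzW fun i => ⟨(hno i).1, (hno i).2⟩
          obtain ⟨i, hi⟩ := hex
          refine ⟨i, ?_⟩
          have h1 := hxz i
          have h2 := hbstep 0 j
          have h3 := hbnn 0 j (Nat.zero_le j)
          rw [abs_le] at h1
          rcases hi with h | h
          · left; linarith
          · right; linarith
      have hκ1 : 0 ≤ κ - 1 := by
        have : (0 : ℝ) ≤ (rn n : ℝ) := Nat.cast_nonneg _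
        linarith
      by_cases hq1 : q ∈ chd n (S j)
      · by_cases hG : GC n (S j) q
        · -- a bad cube
          right
          have hbad : B0 * lam n ^ (j + 1) < a (j + 1) q := by
            by_contra hle
            exact hqS ((hC.alive j q).2 ⟨hq1, hG, not_lt.1 hle⟩)
          refine ⟨j + 1, by omega, le_rfl, q, hq1, hG, hbad, x, hxq, fun k => ?_⟩
          rw [sub_self, abs_zero]
          exact hbnn _ _ le_rfl
        · unfold GC at hG
          push Not at hG
          obtain ⟨p, ⟨z, hz, y, hy, hzy⟩, hp⟩ := hG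
          refine near p hp (fun i => y i / Nj n N0 (j + 1)) ?_ ?_
          · intro i
            obtain ⟨h1, h2⟩ := hy i
            constructor
            · rw [Nj_succ', div_le_div_iff₀ (mul_pos hD (hNp j))
                (mul_pos (mul_pos (hNp j) hD) (by positivity))]
              calc (p i : ℝ) * (Nj n N0 j * dm n * 2 ^ n) = (p i * 2 ^ n) * (dm n * Nj n N0 j) := by
                    ring
                _ ≤ y i * (dm n * Nj n N0 j) :=
                    mul_le_mul_of_nonneg_right h1 (mul_pos hD (hNp j)).le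
            · rw [Nj_succ', div_le_div_iff₀ (mul_pos (mul_pos (hNp j) hD) (by positivity))
                (mul_pos hD (hNp j))]
              calc y i * (dm n * Nj n N0 j) ≤ (((p i : ℝ) + 1) * 2 ^ n) * (dm n * Nj n N0 j) :=
                    mul_le_mul_of_nonneg_right h2 (mul_pos hD (hNp j)).le
                _ = ((p i : ℝ) + 1) * (Nj n N0 j * dm n * 2 ^ n) := by ring
          · intro i
            obtain ⟨h1, h2⟩ := hz i
            obtain ⟨h3, h4⟩ := hxq i
            have hNp1 := hNp (j + 1)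
            have h5 : |z i - y i| ≤ rn n := by
              have := norm_le_pi_norm (z - y) i
              rw [Pi.sub_apply, Real.norm_eq_abs] at this
              exact this.trans hzy
            have h6 : |x i * Nj n N0 (j + 1) - z i| ≤ 1 / dm n := by
              have h3' : (q i : ℝ) / dm n ≤ x i * Nj n N0 (j + 1) := by
                rw [div_le_iff₀ (mul_pos hD hNp1)] at h3
                rw [div_le_iff₀ hD]
                linarith
              have h4' : x i * Nj n N0 (j + 1) ≤ ((q i : ℝ) + 1) / dm n := by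
                rw [le_div_iff₀ (mul_pos hD hNp1)] at h4
                rw [le_div_iff₀ hD]
                linarith
              rw [add_div] at h2 h4'
              rw [abs_le]
              constructor <;> linarith
            have h7 : (1 : ℝ) / dm n ≤ 1 := by
              rw [div_le_one hD]
              exact_mod_cast dm_pos hn
            have h8 : x i - y i / Nj n N0 (j + 1) =
                (x i * Nj n N0 (j + 1) - y i) / Nj n N0 (j + 1) := by
              field_simp
            rw [h8, abs_div, abs_of_pos hNp1, div_le_div_iff_of_pos_right hNp1]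
            have h9 : |x i * Nj n N0 (j + 1) - y i| ≤
                |x i * Nj n N0 (j + 1) - z i| + |z i - y i| := abs_sub_le _ _ _
            linarith
      · have hp : pc n q ∉ S j := fun h => hq1 (mem_chd hn _ _ h)
        refine near (pc n q) hp x (cube_sub hn hN j q x hxq) fun i => ?_
        rw [sub_self, abs_zero]
        exact div_nonneg hκ1 (hNp _).le
  intro j x hx hdead
  have hbfin : ∀ i, b i j ≤ 2 * κ / (rho n * Nj n N0 i) := by
    intro i
    have h1 : 2 * κ / (rho n * Nj n N0 i) = 2 * κ / rho n * (1 / Nj n N0 i) := by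
      rw [mul_one_div, div_div]
    rw [h1]
    have h2 : (0 : ℝ) < 1 / Nj n N0 j := one_div_pos.2 (hNp j)
    exact mul_le_mul_of_nonneg_left (by linarith) (by positivity)
  have hN0 : (Nj n N0 0 : ℝ) = N0 := by simp [Nj]
  rcases claim j x hx hdead with ⟨i, hi⟩ | ⟨i, hi1, hij, q, hq, hG, hbad, y, hy, hd⟩
  · left
    have h1 := hbfin 0
    rw [hN0] at h1
    refine ⟨i, ?_⟩
    rcases hi with h | h
    · left; linarith
    · right; linarith
  · right
    refine ⟨i, hi1, q, hq, hG, hbad, y, hy, ?_⟩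
    have h1 := hbfin i
    have h2 := hbnn i j hij
    rw [pi_norm_le_iff_of_nonneg (by linarith)]
    intro k
    rw [Pi.sub_apply, Real.norm_eq_abs]
    exact (hd k).trans h1

end Pool.Agent.HBW
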