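import Pool.Agent.HBW.Stmts

/-!
Squad HBW, module DST: the derivatives of one step.
-/

set_option autoImplicit false

namespace Pool.Agent.HBW

open MeasureTheory Set Filter Topology
open scoped ENNReal Real

namespace DST_

variable {D : ℕ} {X : Type} [NormedAddCommGroup X] [NormedSpace ℝ X]

theorem key (φ : P D → ℝ) (hφ : Smo φ) (c : X) (v z : P D) :
    HasFDerivAt (fun z => φ (z - v) • c) ((fderiv ℝ φ (z - v)).smulRight c) z := by
  have h : HasFDerivAt φ (fderiv ℝ φ (z - v)) (z - v) :=
    (hφ.differentiable (by simp) (z - v)).hasFDerivAt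
  have h2 : HasFDerivAt (fun z : P D => z - v) (ContinuousLinearMap.id ℝ (P D)) z :=
    (hasFDerivAt_id z).sub_const v
  have h3 : HasFDerivAt (fun z : P D => φ (z - v)) (fderiv ℝ φ (z - v)) z := by
    have := h.comp z h2
    rw [ContinuousLinearMap.comp_id] at this
    exact this
  exact h3.smul_const c

theorem smo_shift (φ : P D → ℝ) (hφ : Smo φ) (c : X) (v : P D) :
    Smo (fun z => φ (z - v) • c) :=
  (hφ.comp (contDiff_id.sub contDiff_const)).smul contDiff_const

end DST_

open DST_

theorem dst_proof (hKF0 : Stmt_KF0) (hKF1 : Stmt_KF1) (hSMO : Stmt_SMO) : Stmt_DST := by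
  intro n hn X _ _ A S F hF
  have hsm : Smo (stp n A S F) := by
    unfold stp kap
    refine hF.add (ContDiff.sum fun k _ => ?_)
    refine (smo_shift _ (hKF0 n hn []).1 _ _).add (ContDiff.sum fun i _ => ?_)
    exact smo_shift _ (hKF1 n hn [i]).1 _ _
  refine ⟨hsm, ?_⟩
  have hw : ∀ w : List (Fin (dm n)), pdw w (stp n A S F) = fun z =>
      pdw w F z + ∑ k ∈ ZA n S, (K0 n w (z - zr k) • LL n A F (zr k) +
        ∑ i, K1 n (i :: w) (z - zr k) • A i (LL n A F (zr k))) := by
    intro w
    induction w with
    | nil =>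
      funext z
      rfl
    | cons j w ih =>
      show pd j (pdw w (stp n A S F)) = _
      rw [ih]
      funext z
      have hpw : Smo (pdw w F) := (hSMO (dm n) X A F F hF hF).2.1 w
      have H : HasFDerivAt (fun z => pdw w F z + ∑ k ∈ ZA n S, (K0 n w (z - zr k) • LL n A F (zr k) +
          ∑ i, K1 n (i :: w) (z - zr k) • A i (LL n A F (zr k))))
          (fderiv ℝ (pdw w F) z + ∑ k ∈ ZA n S,
            ((fderiv ℝ (K0 n w) (z - zr k)).smulRight (LL n A F (zr k)) +
            ∑ i, (fderiv ℝ (K1 n (i :: w)) (z - zr k)).smulRight (A i (LL n A F (zr k))))) z := by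
        refine (hpw.differentiable (by simp) z).hasFDerivAt.fun_add ?_
        refine HasFDerivAt.fun_sum fun k _ => ?_
        refine (key _ (hKF0 n hn w).1 _ _ _).fun_add ?_
        exact HasFDerivAt.fun_sum fun i _ => key _ (hKF1 n hn (i :: w)).1 _ _ _
      show (fderiv ℝ _ z) (Pi.single j 1) = _
      rw [H.fderiv]
      rw [_root_.add_apply, _root_.sum_apply]
      congr 1
      refine Finset.sum_congr rfl fun k _ => ?_
      rw [_root_.add_apply, _root_.sum_apply]
      congr 1
      · rw [ContinuousLinearMap.smulRight_apply]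
        have h1 := (hKF0 n hn w).2.1 j
        rw [← h1]
        rfl
      · refine Finset.sum_congr rfl fun i _ => ?_
        rw [ContinuousLinearMap.smulRight_apply]
        have h1 := (hKF1 n hn (i :: w)).2.1 j
        have h2 := (hKF1 n hn (j :: i :: w)).2.2 (i :: j :: w) (List.Perm.swap i j w)
        rw [h2, ← h1]
        rfl
  intro w z
  rw [hw w]

end Pool.Agent.HBW
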