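import Pool.Agent.HBW.Stmts

set_option autoImplicit false

namespace Pool.Agent.HBW

open MeasureTheory Set Filter Topology
open scoped ENNReal Real

noncomputable section

namespace FRK_

variable {D : ℕ}

/-- `|ξ|²` -/
def qq (ξ : P D) : ℝ := ∑ i, ξ i ^ 2

lemma qq_nonneg (ξ : P D) : 0 ≤ qq ξ := Finset.sum_nonneg fun _ _ => sq_nonneg _

lemma qq_cont : Continuous (qq : P D → ℝ) := by unfold qq; fun_prop

lemma qq_cast (ξ : P D) : (∑ i, (ξ i : ℂ) ^ 2) = (qq ξ : ℂ) := by unfold qq; push_cast; rfl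

lemma qq_pos {ξ : P D} (h : ξ ≠ 0) : 0 < qq ξ := by
  rcases (qq_nonneg ξ).lt_or_eq with h1 | h1
  · exact h1
  · exfalso
    apply h
    have h2 := (Finset.sum_eq_zero_iff_of_nonneg (fun i _ => sq_nonneg (ξ i))).mp h1.symm
    funext i
    exact pow_eq_zero_iff (two_ne_zero) |>.mp (h2 i (Finset.mem_univ i))

/-- `z · ξ` -/
def dt (z ξ : P D) : ℝ := ∑ i, z i * ξ i

lemma dt_cont (z : P D) : Continuous (dt z) := by unfold dt; fun_prop

lemma dt_cast (z ξ : P D) : (∑ i, (z i : ℂ) * (ξ i : ℂ)) = (dt z ξ : ℂ) := by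
  unfold dt; push_cast; rfl

/-! integrability -/

lemma int_gauss {c : ℝ} (hc : 0 < c) : Integrable (fun ξ : P D => Real.exp (-c * qq ξ)) := by
  have h := GaussianFourier.integrable_cexp_neg_mul_sum_add (ι := Fin D) (b := (c : ℂ))
    (by simpa using hc) (fun _ => 0)
  have h2 := h.re
  refine h2.congr (Filter.Eventually.of_forall fun ξ => ?_)
  simp only [zero_mul, Finset.sum_const_zero, add_zero]
  rw [qq_cast]
  have : (-(c : ℂ) * (qq ξ : ℂ)) = ((-c * qq ξ : ℝ) : ℂ) := by push_cast; ring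
  rw [this, ← Complex.ofReal_exp]
  exact Complex.ofReal_re _

lemma abs_mul_exp {c x : ℝ} (hc : 0 < c) : |x| * Real.exp (-c * x ^ 2) ≤ (1 + 1 / c) / 2 := by
  have h1 : |x| ≤ (1 + x ^ 2) / 2 := by
    have := sq_nonneg (|x| - 1)
    have h2 : |x| ^ 2 = x ^ 2 := sq_abs x
    nlinarith
  have h3 : c * x ^ 2 * Real.exp (-c * x ^ 2) ≤ 1 := by
    have := Real.add_one_le_exp (c * x ^ 2)
    have h4 : Real.exp (-c * x ^ 2) = (Real.exp (c * x ^ 2))⁻¹ := by
      rw [← Real.exp_neg]; ring_nf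
    rw [h4, ← div_eq_mul_inv, div_le_one (Real.exp_pos _)]
    linarith
  have h5 : Real.exp (-c * x ^ 2) ≤ 1 := Real.exp_le_one_iff.mpr (by nlinarith [sq_nonneg x])
  have h6 : x ^ 2 * Real.exp (-c * x ^ 2) ≤ 1 / c := by
    rw [le_div_iff₀ hc]
    calc x ^ 2 * Real.exp (-c * x ^ 2) * c = c * x ^ 2 * Real.exp (-c * x ^ 2) := by ring
      _ ≤ 1 := h3
  calc |x| * Real.exp (-c * x ^ 2) ≤ (1 + x ^ 2) / 2 * Real.exp (-c * x ^ 2) :=
        mul_le_mul_of_nonneg_right h1 (Real.exp_pos _).le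
    _ = (Real.exp (-c * x ^ 2) + x ^ 2 * Real.exp (-c * x ^ 2)) / 2 := by ring
    _ ≤ _ := by linarith

lemma int_gauss1 {c : ℝ} (hc : 0 < c) (i : Fin D) :
    Integrable (fun ξ : P D => |ξ i| * Real.exp (-c * qq ξ)) := by
  have h0 := (int_gauss (D := D) (c := c / 2) (by positivity)).const_mul ((1 + 1 / (c / 2)) / 2)
  refine h0.mono' ?_ (Filter.Eventually.of_forall fun ξ => ?_)
  · have : Continuous (fun ξ : P D => |ξ i| * Real.exp (-c * qq ξ)) := by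
      have := qq_cont (D := D)
      fun_prop
    exact this.aestronglyMeasurable
  · rw [Real.norm_of_nonneg (by positivity)]
    have h1 : ξ i ^ 2 ≤ qq ξ :=
      Finset.single_le_sum (f := fun i => ξ i ^ 2) (fun _ _ => sq_nonneg _) (Finset.mem_univ i)
    have h2 : Real.exp (-c * qq ξ) = Real.exp (-(c / 2) * qq ξ) * Real.exp (-(c / 2) * qq ξ) := by
      rw [← Real.exp_add]; ring_nf
    have h3 : Real.exp (-(c / 2) * qq ξ) ≤ Real.exp (-(c / 2) * ξ i ^ 2) := by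
      apply Real.exp_le_exp.mpr
      nlinarith
    rw [h2, ← mul_assoc]
    apply mul_le_mul_of_nonneg_right _ (Real.exp_pos _).le
    exact (mul_le_mul_of_nonneg_left h3 (abs_nonneg _)).trans (abs_mul_exp (by positivity))

/-! the circle transforms of exponentials -/

lemma iter_exp (b c : ℂ) (r : ℕ) : iteratedDeriv r (fun ζ : ℂ => Complex.exp (b * ζ) * c) =
    fun ζ => b ^ r * (Complex.exp (b * ζ) * c) := by
  induction r with
  | zero => ext ζ; simp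
  | succ r ih =>
    rw [iteratedDeriv_succ, ih]
    ext ζ
    have h1 : HasDerivAt (fun ζ : ℂ => b * ζ) b ζ := by
      simpa using (hasDerivAt_id ζ).const_mul b
    have h2 := ((h1.cexp).mul_const c).const_mul (b ^ r)
    rw [h2.deriv]
    ring

lemma sq_s {q : ℝ} (hq : 0 ≤ q) : ((Real.sqrt q : ℝ) : ℂ) ^ 2 = q := by
  rw [← Complex.ofReal_pow, Real.sq_sqrt hq]

lemma cc_exp (hCCS : Stmt_CCS) {ω τ q : ℝ} (hτ : 0 < τ) (hq : 0 ≤ q) (c : ℂ) :
    cc ω τ (fun ζ => Complex.exp (-(ζ / 4) * q) * c) =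
      Real.cosh (ω * Real.sqrt q) * (Real.exp (-τ / 4 * q) * c) := by
  have e0 : (fun ζ : ℂ => Complex.exp (-(ζ / 4) * q) * c) =
      fun ζ => Complex.exp ((-(q : ℂ) / 4) * ζ) * c := by
    ext ζ
    congr 2
    ring
  rw [e0]
  have hd : DifferentiableOn ℂ (fun ζ : ℂ => Complex.exp ((-(q : ℂ) / 4) * ζ) * c)
      {ζ | 0 < ζ.re} := by
    apply Differentiable.differentiableOn
    fun_prop
  have h1 := (hCCS ω τ _ hτ hd).1
  have h2 : HasSum (fun r : ℕ => (ω : ℂ) ^ (2 * r) * (-4) ^ r / ((2 * r).factorial : ℂ) *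
      iteratedDeriv r (fun ζ : ℂ => Complex.exp ((-(q : ℂ) / 4) * ζ) * c) τ)
      (Complex.cosh ((ω : ℂ) * Real.sqrt q) * (Complex.exp ((-(q : ℂ) / 4) * τ) * c)) := by
    have h3 := (Complex.hasSum_cosh ((ω : ℂ) * Real.sqrt q)).mul_right
      (Complex.exp ((-(q : ℂ) / 4) * τ) * c)
    refine Eq.mp (congrArg (fun g : ℕ → ℂ => HasSum g _) (funext fun r => ?_)) h3
    symm
    rw [iter_exp]
    have e1 : ((-4 : ℂ)) ^ r * (-(q : ℂ) / 4) ^ r = ((Real.sqrt q : ℝ) : ℂ) ^ (2 * r) := by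
      rw [← mul_pow, pow_mul, sq_s hq]
      congr 1
      ring
    calc (ω : ℂ) ^ (2 * r) * (-4) ^ r / ((2 * r).factorial : ℂ) *
        ((-(q : ℂ) / 4) ^ r * (Complex.exp ((-(q : ℂ) / 4) * τ) * c)) =
        (ω : ℂ) ^ (2 * r) * ((-4) ^ r * (-(q : ℂ) / 4) ^ r) / ((2 * r).factorial : ℂ) *
        (Complex.exp ((-(q : ℂ) / 4) * τ) * c) := by ring
      _ = _ := by rw [e1, mul_pow]
  have h4 := h1.unique h2
  rw [h4]
  congr 1
  · push_cast; rfl
  · congr 1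
    push_cast
    congr 1
    ring

lemma cs_exp (hCCS : Stmt_CCS) {ω τ q : ℝ} (hτ : 0 < τ) (hq : 0 < q) (c : ℂ) :
    cs ω τ (fun ζ => Complex.exp (-(ζ / 4) * q) * c) =
      (Real.sinh (ω * Real.sqrt q) / Real.sqrt q : ℝ) * (Real.exp (-τ / 4 * q) * c) := by
  have e0 : (fun ζ : ℂ => Complex.exp (-(ζ / 4) * q) * c) =
      fun ζ => Complex.exp ((-(q : ℂ) / 4) * ζ) * c := by
    ext ζ
    congr 2
    ring
  rw [e0]
  have hs : ((Real.sqrt q : ℝ) : ℂ) ≠ 0 := by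
    have : Real.sqrt q ≠ 0 := (Real.sqrt_pos.mpr hq).ne'
    exact_mod_cast this
  have hd : DifferentiableOn ℂ (fun ζ : ℂ => Complex.exp ((-(q : ℂ) / 4) * ζ) * c)
      {ζ | 0 < ζ.re} := by
    apply Differentiable.differentiableOn
    fun_prop
  have h1 := (hCCS ω τ _ hτ hd).2
  have h2 : HasSum (fun r : ℕ => (ω : ℂ) ^ (2 * r + 1) * (-4) ^ r / ((2 * r + 1).factorial : ℂ) *
      iteratedDeriv r (fun ζ : ℂ => Complex.exp ((-(q : ℂ) / 4) * ζ) * c) τ)
      (Complex.sinh ((ω : ℂ) * Real.sqrt q) *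
        (((Real.sqrt q : ℝ) : ℂ)⁻¹ * (Complex.exp ((-(q : ℂ) / 4) * τ) * c))) := by
    have h3 := (Complex.hasSum_sinh ((ω : ℂ) * Real.sqrt q)).mul_right
      (((Real.sqrt q : ℝ) : ℂ)⁻¹ * (Complex.exp ((-(q : ℂ) / 4) * τ) * c))
    refine Eq.mp (congrArg (fun g : ℕ → ℂ => HasSum g _) (funext fun r => ?_)) h3
    symm
    rw [iter_exp]
    have e1 : ((-4 : ℂ)) ^ r * (-(q : ℂ) / 4) ^ r = ((Real.sqrt q : ℝ) : ℂ) ^ (2 * r) := by
      rw [← mul_pow, pow_mul, sq_s hq.le]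
      congr 1
      ring
    calc (ω : ℂ) ^ (2 * r + 1) * (-4) ^ r / ((2 * r + 1).factorial : ℂ) *
        ((-(q : ℂ) / 4) ^ r * (Complex.exp ((-(q : ℂ) / 4) * τ) * c)) =
        (ω : ℂ) ^ (2 * r + 1) * ((-4) ^ r * (-(q : ℂ) / 4) ^ r) / ((2 * r + 1).factorial : ℂ) *
        (Complex.exp ((-(q : ℂ) / 4) * τ) * c) := by ring
      _ = _ := by
        rw [e1, mul_pow, pow_succ (((Real.sqrt q : ℝ) : ℂ))]
        field_simp
  have h4 := h1.unique h2
  rw [h4]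
  have e2 : Complex.exp ((-(q : ℂ) / 4) * τ) = Real.exp (-τ / 4 * q) := by
    push_cast
    congr 1
    ring
  rw [e2]
  push_cast
  field_simp

/-! Fourier representations -/

/-- integrand -/
def Fz (z : P D) (ζ : ℂ) (ξ : P D) : ℂ :=
  Complex.exp (-(ζ / 4) * qq ξ) * Complex.exp (Complex.I * dt z ξ)

lemma norm_Fz (z : P D) (ζ : ℂ) (ξ : P D) : ‖Fz z ζ ξ‖ = Real.exp (-(ζ.re / 4) * qq ξ) := by
  unfold Fz
  rw [norm_mul, Complex.norm_exp, Complex.norm_exp]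
  have h1 : (-(ζ / 4) * (qq ξ : ℂ)).re = -(ζ.re / 4) * qq ξ := by
    rw [Complex.re_mul_ofReal]
    congr 1
    simp
  have h2 : (Complex.I * (dt z ξ : ℂ)).re = 0 := by simp
  rw [h1, h2]
  simp

lemma Fz_cont (z : P D) : Continuous (fun p : ℂ × P D => Fz z p.1 p.2) := by
  unfold Fz
  have h1 := qq_cont (D := D)
  have h2 := dt_cont z
  fun_prop

lemma gft (hGFT : Stmt_GFT) {ζ : ℂ} (hζ : 0 < ζ.re) (z : P D) :
    gw [] ζ z = ((2 * (π : ℂ)) ^ D)⁻¹ * ∫ ξ, Fz z ζ ξ := by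
  have h := hGFT D ζ z hζ
  have hp : (2 * (π : ℂ)) ^ D ≠ 0 := by
    have : (π : ℂ) ≠ 0 := by exact_mod_cast Real.pi_ne_zero
    exact pow_ne_zero _ (mul_ne_zero two_ne_zero this)
  have e : (fun ξ : P D => Complex.exp (-(ζ / 4) * (∑ i, (ξ i : ℂ) ^ 2)) *
      Complex.exp (Complex.I * ∑ i, (z i : ℂ) * (ξ i : ℂ))) = Fz z ζ := by
    funext ξ
    rw [qq_cast, dt_cast]
    rfl
  rw [e] at h
  rw [h]
  field_simp

lemma dt_line (z ξ : P D) (i : Fin D) (t : ℝ) :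
    dt (z + t • Pi.single i 1) ξ = dt z ξ + t * ξ i := by
  unfold dt
  have : ∀ j, (z + t • Pi.single i (1 : ℝ) : P D) j * ξ j =
      z j * ξ j + t * ((Pi.single i (1 : ℝ) : P D) j * ξ j) := by
    intro j
    simp only [Pi.add_apply, Pi.smul_apply, smul_eq_mul]
    ring
  rw [Finset.sum_congr rfl (fun j _ => this j), Finset.sum_add_distrib, ← Finset.mul_sum]
  congr 2
  simp [Pi.single_apply]

/-- derivative of the integral along a line -/
lemma line_deriv {ζ : ℂ} (hζ : 0 < ζ.re) (z v : P D) (i : Fin D)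
    (hv : ∀ (t : ℝ) (ξ : P D), dt (z + t • v) ξ = dt z ξ + t * ξ i) :
    HasDerivAt (fun t : ℝ => ∫ ξ, Fz (z + t • v) ζ ξ)
      (∫ ξ, Fz (z + (0 : ℝ) • v) ζ ξ * (Complex.I * ξ i)) 0 := by
  have hF : ∀ t : ℝ, Continuous (fun ξ : P D => Fz (z + t • v) ζ ξ) := by
    intro t
    exact (Fz_cont _).comp (by fun_prop : Continuous (fun ξ : P D => (ζ, ξ)))
  have a1 : ∀ᶠ t : ℝ in 𝓝 0, AEStronglyMeasurable (fun ξ : P D => Fz (z + t • v) ζ ξ)
      (volume : Measure (P D)) :=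
    Filter.Eventually.of_forall fun t => (hF t).aestronglyMeasurable
  have a2 : Integrable (fun ξ : P D => Fz (z + (0 : ℝ) • v) ζ ξ) := by
    refine (int_gauss (D := D) (c := ζ.re / 4) (by positivity)).mono' (hF 0).aestronglyMeasurable
      (Filter.Eventually.of_forall fun ξ => ?_)
    rw [norm_Fz]
  have a3 : AEStronglyMeasurable (fun ξ : P D => Fz (z + (0 : ℝ) • v) ζ ξ * (Complex.I * ξ i))
      (volume : Measure (P D)) := by
    have : Continuous (fun ξ : P D => Fz (z + (0 : ℝ) • v) ζ ξ * (Complex.I * ξ i)) := by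
      have := hF 0
      fun_prop
    exact this.aestronglyMeasurable
  have a4 : ∀ᵐ ξ : P D, ∀ t ∈ (univ : Set ℝ),
      ‖Fz (z + t • v) ζ ξ * (Complex.I * ξ i)‖ ≤ |ξ i| * Real.exp (-(ζ.re / 4) * qq ξ) := by
    refine Filter.Eventually.of_forall fun ξ t _ => ?_
    rw [norm_mul, norm_Fz, norm_mul, Complex.norm_I, one_mul, Complex.norm_real,
      Real.norm_eq_abs, mul_comm]
  have a5 : Integrable (fun ξ : P D => |ξ i| * Real.exp (-(ζ.re / 4) * qq ξ)) :=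
    int_gauss1 (by positivity) i
  have a6 : ∀ᵐ ξ : P D, ∀ t ∈ (univ : Set ℝ),
      HasDerivAt (fun t : ℝ => Fz (z + t • v) ζ ξ) (Fz (z + t • v) ζ ξ * (Complex.I * ξ i)) t := by
    refine Filter.Eventually.of_forall fun ξ t _ => ?_
    have h8 : ∀ t : ℝ, Fz (z + t • v) ζ ξ =
        Complex.exp (-(ζ / 4) * qq ξ) * Complex.exp (Complex.I * dt z ξ +
          (t : ℂ) * (Complex.I * ξ i)) := by
      intro t
      unfold Fz
      rw [hv]
      congr 2
      push_cast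
      ring
    have h9 : HasDerivAt (fun t : ℝ => Complex.I * (dt z ξ : ℂ) + (t : ℂ) * (Complex.I * ξ i))
        (Complex.I * ξ i) t := by
      have := ((Complex.ofRealCLM.hasDerivAt (x := t)).mul_const (Complex.I * (ξ i : ℂ))).const_add
        (Complex.I * (dt z ξ : ℂ))
      simpa using this
    have h10 := (h9.cexp).const_mul (Complex.exp (-(ζ / 4) * qq ξ))
    have e : (fun t : ℝ => Fz (z + t • v) ζ ξ) = fun t : ℝ =>
        Complex.exp (-(ζ / 4) * qq ξ) * Complex.exp (Complex.I * dt z ξ +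
          (t : ℂ) * (Complex.I * ξ i)) := funext h8
    rw [e, h8 t, mul_assoc]
    exact h10
  exact (hasDerivAt_integral_of_dominated_loc_of_deriv_le univ_mem a1 a2 a3 a4 a5 a6).2

lemma gft1 (hGFT : Stmt_GFT) (hGWD : Stmt_GWD) {ζ : ℂ} (hζ : 0 < ζ.re) (z : P D) (i : Fin D) :
    gw [i] ζ z = ((2 * (π : ℂ)) ^ D)⁻¹ * ∫ ξ, Fz z ζ ξ * (Complex.I * ξ i) := by
  have hd := hGWD D ζ []
  obtain ⟨v, hv0⟩ : ∃ v : P D, v = Pi.single i (1 : ℝ) := ⟨_, rfl⟩
  have hv : ∀ (t : ℝ) (ξ : P D), dt (z + t • v) ξ = dt z ξ + t * ξ i := by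
    intro t ξ
    rw [hv0]
    exact dt_line z ξ i t
  have h1 : gw [i] ζ z = fderiv ℝ (gw [] ζ) z v := by
    rw [← hd.2.1 i, hv0]; rfl
  have h2 : HasDerivAt (fun t : ℝ => gw [] ζ (z + t • v)) (gw [i] ζ z) 0 := by
    rw [h1]
    have h3 : HasFDerivAt (gw [] ζ) (fderiv ℝ (gw [] ζ) z) (z + (0 : ℝ) • v) := by
      rw [zero_smul, add_zero]
      exact ((hd.1.differentiable (by simp)) z).hasFDerivAt
    have h4 : HasDerivAt (fun t : ℝ => z + t • v) v 0 := by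
      have := ((hasDerivAt_id (0 : ℝ)).smul_const v).const_add z
      simpa using this
    exact h3.comp_hasDerivAt (0 : ℝ) h4
  have e : (fun t : ℝ => gw [] ζ (z + t • v)) =
      fun t : ℝ => ((2 * (π : ℂ)) ^ D)⁻¹ * ∫ ξ, Fz (z + t • v) ζ ξ := by
    funext t
    exact gft hGFT hζ _
  rw [e] at h2
  have h6 := (line_deriv hζ z v i hv).const_mul ((2 * (π : ℂ)) ^ D)⁻¹
  have h7 := h2.unique h6
  rw [h7]
  simp only [zero_smul, add_zero]

/-! the kernels -/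

lemma sphere_re {τ : ℝ} {ζ : ℂ} (h : ‖ζ - τ‖ = τ / 2) : τ / 2 ≤ ζ.re := by
  have h1 : |(ζ - τ).re| ≤ τ / 2 := by rw [← h]; exact Complex.abs_re_le_norm _
  have h2 := (abs_le.mp h1).1
  simp at h2
  linarith

/-- `cc` and `cs` of the Fourier integral with a factor depending on `ξ` -/
lemma cc_int (hCCJ : Stmt_CCJ) {ω τ : ℝ} (hτ : 0 < τ) (z : P D) (b : P D → ℂ) (hb : Continuous b)
    (B : P D → ℝ) (hB : Integrable (fun ξ => Real.exp (-(τ / 8) * qq ξ) * B ξ))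
    (hbB : ∀ ξ, ‖b ξ‖ ≤ B ξ) :
    Integrable (fun ξ => cc ω τ (fun ζ => Fz z ζ ξ * b ξ)) ∧
    ∫ ξ, cc ω τ (fun ζ => Fz z ζ ξ * b ξ) = cc ω τ (fun ζ => ∫ ξ, Fz z ζ ξ * b ξ) ∧
    Integrable (fun ξ => cs ω τ (fun ζ => Fz z ζ ξ * b ξ)) ∧
    ∫ ξ, cs ω τ (fun ζ => Fz z ζ ξ * b ξ) = cs ω τ (fun ζ => ∫ ξ, Fz z ζ ξ * b ξ) := by
  apply hCCJ D ω τ (fun ζ ξ => Fz z ζ ξ * b ξ) (fun ξ => Real.exp (-(τ / 8) * qq ξ) * B ξ) hτ
  · apply Continuous.continuousOn
    exact (Fz_cont z).mul (hb.comp continuous_snd)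
  · exact hB
  · intro ζ ξ h
    rw [norm_mul, norm_Fz]
    apply mul_le_mul _ (hbB ξ) (norm_nonneg _) (Real.exp_pos _).le
    apply Real.exp_le_exp.mpr
    have := sphere_re h
    have := qq_nonneg ξ
    nlinarith

lemma cc_congr {ω τ : ℝ} (hτ : 0 < τ) {g h : ℂ → ℂ} (hgh : ∀ ζ : ℂ, ‖ζ - τ‖ = τ / 2 → g ζ = h ζ) :
    cc ω τ g = cc ω τ h ∧ cs ω τ g = cs ω τ h := by
  unfold cc cs
  constructor
  · congr 1
    apply circleIntegral.integral_congr (by positivity)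
    intro ζ hζ
    rw [mem_sphere_iff_norm] at hζ
    simp only
    rw [hgh ζ hζ]
  · congr 1
    apply circleIntegral.integral_congr (by positivity)
    intro ζ hζ
    rw [mem_sphere_iff_norm] at hζ
    simp only
    rw [hgh ζ hζ]

lemma cc_const_mul (ω τ : ℝ) (c : ℂ) (g : ℂ → ℂ) :
    cc ω τ (fun ζ => c * g ζ) = c * cc ω τ g ∧ cs ω τ (fun ζ => c * g ζ) = c * cs ω τ g := by
  unfold cc cs
  constructor
  · have : (fun ζ => Pc ω (ζ - τ) * (c * g ζ)) = fun ζ => c * (Pc ω (ζ - τ) * g ζ) := by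
      funext ζ; ring
    rw [this, circleIntegral.integral_const_mul]
    ring
  · have : (fun ζ => Ps ω (ζ - τ) * (c * g ζ)) = fun ζ => c * (Ps ω (ζ - τ) * g ζ) := by
      funext ζ; ring
    rw [this, circleIntegral.integral_const_mul]
    ring

lemma pow2pi : ((2 * (π : ℂ)) ^ D)⁻¹ = ((((2 * π) ^ D)⁻¹ : ℝ) : ℂ) := by push_cast; rfl

/-- the scalar kernel, one heat time -/
lemma cc_gw (hGFT : Stmt_GFT) (hCCS : Stmt_CCS) (hCCJ : Stmt_CCJ) {ω τ : ℝ} (hτ : 0 < τ)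
    (z : P D) :
    Integrable (fun ξ : P D => Real.cosh (ω * Real.sqrt (qq ξ)) * Real.exp (-τ / 4 * qq ξ) *
      Real.cos (dt z ξ)) ∧
    (cc ω τ (fun ζ => gw [] ζ z)).re = ((2 * π) ^ D)⁻¹ *
      ∫ ξ : P D, Real.cosh (ω * Real.sqrt (qq ξ)) * Real.exp (-τ / 4 * qq ξ) *
        Real.cos (dt z ξ) := by
  have h1 := cc_int hCCJ (ω := ω) hτ z (fun _ => 1) continuous_const (fun _ => 1)
    (by simpa using int_gauss (D := D) (c := τ / 8) (by positivity)) (fun _ => by simp)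
  have e1 : ∀ ξ : P D, cc ω τ (fun ζ => Fz z ζ ξ * 1) =
      Real.cosh (ω * Real.sqrt (qq ξ)) * (Real.exp (-τ / 4 * qq ξ) *
        Complex.exp (Complex.I * dt z ξ)) := by
    intro ξ
    have := cc_exp hCCS (ω := ω) hτ (qq_nonneg ξ) (Complex.exp (Complex.I * dt z ξ))
    rw [← this]
    simp only [mul_one, Fz]
  have e2 : ∀ ξ : P D, (Real.cosh (ω * Real.sqrt (qq ξ)) * (Real.exp (-τ / 4 * qq ξ) *
      Complex.exp (Complex.I * dt z ξ)) : ℂ).re =
      Real.cosh (ω * Real.sqrt (qq ξ)) * Real.exp (-τ / 4 * qq ξ) * Real.cos (dt z ξ) := by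
    intro ξ
    rw [← mul_assoc, ← Complex.ofReal_mul, Complex.re_ofReal_mul, mul_comm Complex.I,
      Complex.exp_ofReal_mul_I_re]
  have h2 := h1.1
  simp only [e1] at h2
  have h3 := h2.re
  have h4 : Integrable (fun ξ : P D => Real.cosh (ω * Real.sqrt (qq ξ)) *
      Real.exp (-τ / 4 * qq ξ) * Real.cos (dt z ξ)) :=
    h3.congr (Filter.Eventually.of_forall e2)
  refine ⟨h4, ?_⟩
  have h5 := (cc_congr (ω := ω) hτ (g := fun ζ => gw [] ζ z)
    (h := fun ζ => ((2 * (π : ℂ)) ^ D)⁻¹ * ∫ ξ, Fz z ζ ξ * 1) (fun ζ hζ => by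
      have := sphere_re hζ
      simp only [mul_one]
      exact gft hGFT (by linarith) z)).1
  rw [h5, (cc_const_mul ω τ _ _).1, ← h1.2.1, pow2pi, Complex.re_ofReal_mul]
  congr 1
  simp only [e1]
  have h6 := integral_re h2
  have h7 : (∫ ξ : P D, (Real.cosh (ω * Real.sqrt (qq ξ)) * (Real.exp (-τ / 4 * qq ξ) *
      Complex.exp (Complex.I * dt z ξ)) : ℂ)).re = RCLike.re (∫ ξ : P D,
      (Real.cosh (ω * Real.sqrt (qq ξ)) * (Real.exp (-τ / 4 * qq ξ) *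
      Complex.exp (Complex.I * dt z ξ)) : ℂ)) := rfl
  rw [h7, ← h6]
  congr 1
  funext ξ
  exact e2 ξ

lemma nz_ae [Nonempty (Fin D)] : ∀ᵐ ξ : P D, ξ ≠ 0 := by
  have : (volume : Measure (P D)) {0} = 0 := measure_singleton _
  exact measure_eq_zero_iff_ae_notMem.mp this

/-- the vector kernel, one heat time, local part -/
lemma cs_gw [Nonempty (Fin D)] (hGFT : Stmt_GFT) (hCCS : Stmt_CCS) (hCCJ : Stmt_CCJ)
    (hGWD : Stmt_GWD) {ω τ : ℝ} (hτ : 0 < τ) (z : P D) (i : Fin D) :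
    Integrable (fun ξ : P D => Real.sinh (ω * Real.sqrt (qq ξ)) / Real.sqrt (qq ξ) *
      Real.exp (-τ / 4 * qq ξ) * (ξ i * Real.sin (dt z ξ))) ∧
    (cs ω τ (fun ζ => gw [i] ζ z)).re = -(((2 * π) ^ D)⁻¹ *
      ∫ ξ : P D, Real.sinh (ω * Real.sqrt (qq ξ)) / Real.sqrt (qq ξ) *
        Real.exp (-τ / 4 * qq ξ) * (ξ i * Real.sin (dt z ξ))) := by
  have h1 := cc_int hCCJ (ω := ω) hτ z (fun ξ => Complex.I * ξ i) (by fun_prop)
    (fun ξ => |ξ i|) (by
      have := int_gauss1 (D := D) (c := τ / 8) (by positivity) i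
      refine this.congr (Filter.Eventually.of_forall fun ξ => ?_)
      simp only
      ring) (fun ξ => by
      rw [norm_mul, Complex.norm_I, one_mul, Complex.norm_real, Real.norm_eq_abs])
  have e1 : ∀ᵐ ξ : P D, cs ω τ (fun ζ => Fz z ζ ξ * (Complex.I * ξ i)) =
      (Real.sinh (ω * Real.sqrt (qq ξ)) / Real.sqrt (qq ξ) : ℝ) * (Real.exp (-τ / 4 * qq ξ) *
        (Complex.exp (Complex.I * dt z ξ) * (Complex.I * ξ i))) := by
    filter_upwards [nz_ae (D := D)] with ξ hξ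
    have := cs_exp hCCS (ω := ω) hτ (qq_pos hξ)
      (Complex.exp (Complex.I * dt z ξ) * (Complex.I * ξ i))
    rw [← this]
    congr 1
    funext ζ
    unfold Fz
    ring
  have e2 : ∀ ξ : P D, ((Real.sinh (ω * Real.sqrt (qq ξ)) / Real.sqrt (qq ξ) : ℝ) *
      (Real.exp (-τ / 4 * qq ξ) * (Complex.exp (Complex.I * dt z ξ) * (Complex.I * ξ i))) : ℂ).re =
      -(Real.sinh (ω * Real.sqrt (qq ξ)) / Real.sqrt (qq ξ) * Real.exp (-τ / 4 * qq ξ) *
        (ξ i * Real.sin (dt z ξ))) := by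
    intro ξ
    have h : Complex.exp (Complex.I * dt z ξ) * (Complex.I * ξ i) =
        (ξ i : ℂ) * (Complex.I * Complex.exp (dt z ξ * Complex.I)) := by
      rw [mul_comm Complex.I (dt z ξ : ℂ)]
      ring
    rw [← mul_assoc, ← Complex.ofReal_mul, Complex.re_ofReal_mul, h, Complex.re_ofReal_mul,
      Complex.I_mul_re, Complex.exp_ofReal_mul_I_im]
    ring
  have h2 := h1.2.2.1.congr e1
  have h3 := h2.re
  have h4 : Integrable (fun ξ : P D => -(Real.sinh (ω * Real.sqrt (qq ξ)) / Real.sqrt (qq ξ) *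
      Real.exp (-τ / 4 * qq ξ) * (ξ i * Real.sin (dt z ξ)))) :=
    h3.congr (Filter.Eventually.of_forall e2)
  refine ⟨by simpa using h4.neg, ?_⟩
  have h5 := (cc_congr (ω := ω) hτ (g := fun ζ => gw [i] ζ z)
    (h := fun ζ => ((2 * (π : ℂ)) ^ D)⁻¹ * ∫ ξ, Fz z ζ ξ * (Complex.I * ξ i)) (fun ζ hζ => by
      have := sphere_re hζ
      exact gft1 hGFT hGWD (by linarith) z i)).2
  rw [h5, (cc_const_mul ω τ _ _).2, ← h1.2.2.2, pow2pi, Complex.re_ofReal_mul,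
    integral_congr_ae e1]
  have h6 := integral_re h2
  have h7 : (∫ ξ : P D, ((Real.sinh (ω * Real.sqrt (qq ξ)) / Real.sqrt (qq ξ) : ℝ) *
      (Real.exp (-τ / 4 * qq ξ) * (Complex.exp (Complex.I * dt z ξ) *
      (Complex.I * ξ i))) : ℂ)).re = RCLike.re (∫ ξ : P D,
      ((Real.sinh (ω * Real.sqrt (qq ξ)) / Real.sqrt (qq ξ) : ℝ) *
      (Real.exp (-τ / 4 * qq ξ) * (Complex.exp (Complex.I * dt z ξ) *
      (Complex.I * ξ i))) : ℂ)) := rfl
  rw [h7, ← h6, ← mul_neg, ← integral_neg]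
  congr 1
  apply integral_congr_ae
  exact Filter.Eventually.of_forall e2

/-- real Gaussian derivatives -/
lemma gr_rep (hGFT : Stmt_GFT) (hGWD : Stmt_GWD) {τ : ℝ} (hτ : 0 < τ) (z : P D) (i : Fin D) :
    Integrable (fun ξ : P D => Real.exp (-τ / 4 * qq ξ) * (ξ i * Real.sin (dt z ξ))) ∧
    gr [i] τ z = -(((2 * π) ^ D)⁻¹ *
      ∫ ξ : P D, Real.exp (-τ / 4 * qq ξ) * (ξ i * Real.sin (dt z ξ))) := by
  have h2 : Integrable (fun ξ : P D => Fz z (τ : ℂ) ξ * (Complex.I * ξ i)) := by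
    refine (int_gauss1 (D := D) (c := τ / 4) (by positivity) i).mono' ?_
      (Filter.Eventually.of_forall fun ξ => ?_)
    · have h0 : Continuous (fun ξ : P D => Fz z (τ : ℂ) ξ) :=
        (Fz_cont z).comp (by fun_prop : Continuous (fun ξ : P D => ((τ : ℂ), ξ)))
      have : Continuous (fun ξ : P D => Fz z (τ : ℂ) ξ * (Complex.I * ξ i)) := by fun_prop
      exact this.aestronglyMeasurable
    · rw [norm_mul, norm_Fz, norm_mul, Complex.norm_I, one_mul, Complex.norm_real,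
        Real.norm_eq_abs, mul_comm, Complex.ofReal_re]
  have e2 : ∀ ξ : P D, (Fz z (τ : ℂ) ξ * (Complex.I * ξ i)).re =
      -(Real.exp (-τ / 4 * qq ξ) * (ξ i * Real.sin (dt z ξ))) := by
    intro ξ
    have h : Fz z (τ : ℂ) ξ * (Complex.I * ξ i) =
        (Real.exp (-τ / 4 * qq ξ) : ℝ) * ((ξ i : ℂ) *
          (Complex.I * Complex.exp (dt z ξ * Complex.I))) := by
      unfold Fz
      rw [mul_comm Complex.I (dt z ξ : ℂ)]
      have : Complex.exp (-((τ : ℂ) / 4) * qq ξ) = (Real.exp (-τ / 4 * qq ξ) : ℝ) := by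
        push_cast
        congr 1
        ring
      rw [this]
      ring
    rw [h, Complex.re_ofReal_mul, Complex.re_ofReal_mul, Complex.I_mul_re,
      Complex.exp_ofReal_mul_I_im]
    ring
  have h4 : Integrable (fun ξ : P D => -(Real.exp (-τ / 4 * qq ξ) *
      (ξ i * Real.sin (dt z ξ)))) := h2.re.congr (Filter.Eventually.of_forall e2)
  refine ⟨by simpa using h4.neg, ?_⟩
  unfold gr
  rw [gft1 hGFT hGWD (by simpa using hτ) z i, pow2pi, Complex.re_ofReal_mul]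
  have h6 := integral_re h2
  have h7 : (∫ ξ : P D, Fz z (τ : ℂ) ξ * (Complex.I * ξ i)).re = RCLike.re
      (∫ ξ : P D, Fz z (τ : ℂ) ξ * (Complex.I * ξ i)) := rfl
  rw [h7, ← h6, ← mul_neg, ← integral_neg]
  congr 1
  apply integral_congr_ae
  exact Filter.Eventually.of_forall e2

lemma tl_pos (n l : ℕ) : 0 < tl n l := by
  unfold tl t0 um
  positivity

/-- binomial sum -/
lemma binom (n : ℕ) (q u : ℝ) : ∑ l ∈ Finset.range (Ln n + 1), bs n l *
    Real.exp (-(tl n l + 4 * u) / 4 * q) =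
    Real.exp (-u * q) * ((1 - Real.exp (-um n * q)) ^ Ln n * Real.exp (-t0 / 4 * q)) := by
  have h1 : ∀ l : ℕ, Real.exp (-(tl n l + 4 * u) / 4 * q) =
      Real.exp (-u * q) * (Real.exp (-t0 / 4 * q) * Real.exp (-um n * q) ^ l) := by
    intro l
    rw [← Real.exp_nat_mul, ← Real.exp_add, ← Real.exp_add]
    congr 1
    unfold tl
    ring
  have h2 : (1 - Real.exp (-um n * q)) ^ Ln n =
      ∑ l ∈ Finset.range (Ln n + 1), bs n l * Real.exp (-um n * q) ^ l := by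
    rw [sub_eq_neg_add, add_pow]
    apply Finset.sum_congr rfl
    intro l _
    unfold bs
    rw [one_pow, mul_one, neg_pow]
    ring
  rw [h2, Finset.sum_mul, Finset.mul_sum]
  apply Finset.sum_congr rfl
  intro l _
  rw [h1 l]
  ring

lemma binom0 (n : ℕ) (q : ℝ) : ∑ l ∈ Finset.range (Ln n + 1), bs n l *
    Real.exp (-tl n l / 4 * q) =
    (1 - Real.exp (-um n * q)) ^ Ln n * Real.exp (-t0 / 4 * q) := by
  have := binom n q 0
  simpa using this

theorem k0 (hGFT : Stmt_GFT) (hCCS : Stmt_CCS) (hCCJ : Stmt_CCJ) (n : ℕ) (z : P (dm n)) :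
    K0 n [] z = ((2 * π) ^ dm n)⁻¹ * ∫ ξ : P (dm n), m0 n ξ * Real.cos (∑ i, z i * ξ i) := by
  unfold K0
  have h1 : ∀ l ∈ Finset.range (Ln n + 1), bs n l * (cc (om n) (tl n l) (fun ζ => gw [] ζ z)).re =
      ((2 * π) ^ dm n)⁻¹ * ∫ ξ : P (dm n), bs n l * (Real.cosh (om n * Real.sqrt (qq ξ)) *
        Real.exp (-tl n l / 4 * qq ξ) * Real.cos (dt z ξ)) := by
    intro l _
    rw [(cc_gw hGFT hCCS hCCJ (tl_pos n l) z).2, integral_const_mul]
    ring
  rw [Finset.sum_congr rfl h1, ← Finset.mul_sum, ← integral_finsetSum]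
  · congr 1
    apply integral_congr_ae
    refine Filter.Eventually.of_forall fun ξ => ?_
    simp only
    have h2 : ∑ l ∈ Finset.range (Ln n + 1), bs n l * (Real.cosh (om n * Real.sqrt (qq ξ)) *
        Real.exp (-tl n l / 4 * qq ξ) * Real.cos (dt z ξ)) =
        Real.cosh (om n * Real.sqrt (qq ξ)) * (∑ l ∈ Finset.range (Ln n + 1), bs n l *
          Real.exp (-tl n l / 4 * qq ξ)) * Real.cos (dt z ξ) := by
      rw [Finset.mul_sum, Finset.sum_mul]
      apply Finset.sum_congr rfl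
      intro l _
      ring
    rw [h2, binom0]
    unfold m0 qq dt
    ring
  · intro l _
    exact (cc_gw hGFT hCCS hCCJ (tl_pos n l) z).1.const_mul _

/-- the multiplier without the `cosh` factor -/
def SS (n : ℕ) (q : ℝ) : ℝ := (1 - Real.exp (-um n * q)) ^ Ln n * Real.exp (-t0 / 4 * q)

lemma um_nonneg (n : ℕ) : 0 ≤ um n := by unfold um; positivity

lemma SS_bound (n : ℕ) {q : ℝ} (hq : 0 ≤ q) : |SS n q| ≤ Real.exp (-(t0 / 4) * q) := by
  unfold SS
  have h1 : Real.exp (-um n * q) ≤ 1 :=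
    Real.exp_le_one_iff.mpr (by have := mul_nonneg (um_nonneg n) hq; nlinarith)
  have h2 := Real.exp_pos (-um n * q)
  rw [abs_mul, abs_of_pos (Real.exp_pos _), abs_pow, abs_of_nonneg (by linarith)]
  have h3 : (1 - Real.exp (-um n * q)) ^ Ln n ≤ 1 := pow_le_one₀ (by linarith) (by linarith)
  have h4 : -t0 / 4 * q = -(t0 / 4) * q := by ring
  rw [h4]
  have := Real.exp_pos (-(t0 / 4) * q)
  nlinarith

lemma SS_cont (n : ℕ) : Continuous (SS n) := by unfold SS; fun_prop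

lemma Wf_meas (ω : ℝ) : Measurable (Wf ω) := by
  unfold Wf
  fun_prop

lemma Wf_nonneg (ω u : ℝ) : 0 ≤ Wf ω u := by unfold Wf; positivity

/-- integrand of the double integral -/
def ff (n : ℕ) (z : P (dm n)) (i : Fin (dm n)) (u : ℝ) (ξ : P (dm n)) : ℝ :=
  Wf (om n) u * (Real.exp (-u * qq ξ) * (SS n (qq ξ) * (ξ i * Real.sin (dt z ξ))))

lemma ff_meas (n : ℕ) (z : P (dm n)) (i : Fin (dm n)) :
    Measurable (fun p : ℝ × P (dm n) => ff n z i p.1 p.2) := by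
  unfold ff
  have h1 := (qq_cont (D := dm n)).measurable
  have h2 := (dt_cont z).measurable
  have h3 := (SS_cont n).measurable
  have h4 := Wf_meas (om n)
  fun_prop

lemma om_nonneg (n : ℕ) : 0 ≤ om n := by unfold om; positivity

lemma ff_u (hSUB : Stmt_SUB) (n : ℕ) (z : P (dm n)) (i : Fin (dm n)) {ξ : P (dm n)} (hξ : ξ ≠ 0) :
    IntegrableOn (fun u => ff n z i u ξ) (Ioi 0) ∧
    ∫ u in Ioi (0 : ℝ), ff n z i u ξ = Real.exp (-om n * Real.sqrt (qq ξ)) / Real.sqrt (qq ξ) *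
      (SS n (qq ξ) * (ξ i * Real.sin (dt z ξ))) ∧
    ∫ u in Ioi (0 : ℝ), ‖ff n z i u ξ‖ = Real.exp (-om n * Real.sqrt (qq ξ)) / Real.sqrt (qq ξ) *
      |SS n (qq ξ) * (ξ i * Real.sin (dt z ξ))| := by
  have hs : 0 < Real.sqrt (qq ξ) := Real.sqrt_pos.mpr (qq_pos hξ)
  have h := hSUB.2.2.1 (om n) (om_nonneg n) _ hs
  rw [Real.sq_sqrt (qq_nonneg ξ)] at h
  have e1 : ∀ u, ff n z i u ξ = Wf (om n) u * Real.exp (-u * qq ξ) *
      (SS n (qq ξ) * (ξ i * Real.sin (dt z ξ))) := fun u => by unfold ff; ring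
  have e2 : ∀ u, ‖ff n z i u ξ‖ = Wf (om n) u * Real.exp (-u * qq ξ) *
      |SS n (qq ξ) * (ξ i * Real.sin (dt z ξ))| := fun u => by
    rw [e1, Real.norm_eq_abs, abs_mul, abs_of_nonneg
      (mul_nonneg (Wf_nonneg _ _) (Real.exp_pos _).le)]
  refine ⟨?_, ?_, ?_⟩
  · have := h.1.mul_const (SS n (qq ξ) * (ξ i * Real.sin (dt z ξ)))
    exact (integrableOn_congr_fun (fun u _ => e1 u) measurableSet_Ioi).mpr this
  · simp only [e1]
    rw [integral_mul_const, h.2]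
  · simp only [e2]
    rw [integral_mul_const, h.2]

lemma coord_le (ξ : P D) (i : Fin D) : |ξ i| ≤ Real.sqrt (qq ξ) := by
  apply Real.abs_le_sqrt
  exact Finset.single_le_sum (f := fun i => ξ i ^ 2) (fun _ _ => sq_nonneg _) (Finset.mem_univ i)

lemma ff_bound (n : ℕ) (z : P (dm n)) (i : Fin (dm n)) (ξ : P (dm n)) :
    |Real.exp (-om n * Real.sqrt (qq ξ)) / Real.sqrt (qq ξ) *
      (SS n (qq ξ) * (ξ i * Real.sin (dt z ξ)))| ≤ Real.exp (-(t0 / 4) * qq ξ) := by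
  have h0 : 0 ≤ Real.sqrt (qq ξ) := Real.sqrt_nonneg _
  have h1 : Real.exp (-om n * Real.sqrt (qq ξ)) ≤ 1 :=
    Real.exp_le_one_iff.mpr (by have := mul_nonneg (om_nonneg n) h0; nlinarith)
  have h2 := SS_bound n (qq_nonneg ξ)
  have h3 := coord_le ξ i
  have h4 : |Real.sin (dt z ξ)| ≤ 1 := Real.abs_sin_le_one _
  have h5 : |ξ i| / Real.sqrt (qq ξ) ≤ 1 := div_le_one_of_le₀ h3 h0
  have h6 : |Real.exp (-om n * Real.sqrt (qq ξ)) / Real.sqrt (qq ξ) *
      (SS n (qq ξ) * (ξ i * Real.sin (dt z ξ)))| = Real.exp (-om n * Real.sqrt (qq ξ)) *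
      (|ξ i| / Real.sqrt (qq ξ)) * |Real.sin (dt z ξ)| * |SS n (qq ξ)| := by
    rw [abs_mul, abs_div, abs_of_pos (Real.exp_pos _), abs_of_nonneg h0, abs_mul, abs_mul]
    ring
  rw [h6]
  have h7 : Real.exp (-om n * Real.sqrt (qq ξ)) * (|ξ i| / Real.sqrt (qq ξ)) *
      |Real.sin (dt z ξ)| ≤ 1 := by
    have a1 : Real.exp (-om n * Real.sqrt (qq ξ)) * (|ξ i| / Real.sqrt (qq ξ)) ≤ 1 :=
      mul_le_one₀ h1 (by positivity) h5
    exact mul_le_one₀ a1 (abs_nonneg _) h4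
  calc _ ≤ 1 * |SS n (qq ξ)| := mul_le_mul_of_nonneg_right h7 (abs_nonneg _)
    _ ≤ _ := by rw [one_mul]; exact h2

lemma ex_meas (n : ℕ) (z : P (dm n)) (i : Fin (dm n)) :
    Measurable (fun ξ : P (dm n) => Real.exp (-om n * Real.sqrt (qq ξ)) / Real.sqrt (qq ξ) *
      (SS n (qq ξ) * (ξ i * Real.sin (dt z ξ)))) := by
  have h1 := (qq_cont (D := dm n)).measurable
  have h2 := (dt_cont z).measurable
  have h3 := (SS_cont n).measurable
  fun_prop

lemma ex_int (n : ℕ) (z : P (dm n)) (i : Fin (dm n)) :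
    Integrable (fun ξ : P (dm n) => Real.exp (-om n * Real.sqrt (qq ξ)) / Real.sqrt (qq ξ) *
      (SS n (qq ξ) * (ξ i * Real.sin (dt z ξ)))) := by
  refine (int_gauss (D := dm n) (c := t0 / 4) (by unfold t0; norm_num)).mono'
    (ex_meas n z i).aestronglyMeasurable (Filter.Eventually.of_forall fun ξ => ?_)
  rw [Real.norm_eq_abs]
  exact ff_bound n z i ξ

lemma ff_int (n : ℕ) [Nonempty (Fin (dm n))] (hSUB : Stmt_SUB) (z : P (dm n))
    (i : Fin (dm n)) : Integrable (fun p : ℝ × P (dm n) => ff n z i p.1 p.2)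
      (((volume : Measure ℝ).restrict (Ioi 0)).prod volume) := by
  rw [integrable_prod_iff' (ff_meas n z i).aestronglyMeasurable]
  constructor
  · filter_upwards [nz_ae (D := dm n)] with ξ hξ
    exact (ff_u hSUB n z i hξ).1
  · refine (ex_int n z i).norm.congr ?_
    filter_upwards [nz_ae (D := dm n)] with ξ hξ
    rw [(ff_u hSUB n z i hξ).2.2, norm_mul, Real.norm_eq_abs, Real.norm_eq_abs, abs_of_nonneg]
    positivity

lemma second (hGFT : Stmt_GFT) (hSUB : Stmt_SUB) (hGWD : Stmt_GWD) (n : ℕ)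
    [Nonempty (Fin (dm n))] (z : P (dm n)) (i : Fin (dm n)) :
    ∫ u in Ioi (0 : ℝ), Wf (om n) u *
      ∑ l ∈ Finset.range (Ln n + 1), bs n l * gr [i] (tl n l + 4 * u) z =
    -(((2 * π) ^ dm n)⁻¹ * ∫ ξ : P (dm n),
      Real.exp (-om n * Real.sqrt (qq ξ)) / Real.sqrt (qq ξ) *
      (SS n (qq ξ) * (ξ i * Real.sin (dt z ξ)))) := by
  have h1 : ∀ u ∈ Ioi (0 : ℝ), Wf (om n) u *
      ∑ l ∈ Finset.range (Ln n + 1), bs n l * gr [i] (tl n l + 4 * u) z =
      -(((2 * π) ^ dm n)⁻¹ * ∫ ξ : P (dm n), ff n z i u ξ) := by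
    intro u hu
    rw [mem_Ioi] at hu
    have hτ : ∀ l, 0 < tl n l + 4 * u := fun l => by have := tl_pos n l; linarith
    have h2 : ∀ l ∈ Finset.range (Ln n + 1), bs n l * gr [i] (tl n l + 4 * u) z =
        -(((2 * π) ^ dm n)⁻¹ * ∫ ξ : P (dm n), bs n l *
          (Real.exp (-(tl n l + 4 * u) / 4 * qq ξ) * (ξ i * Real.sin (dt z ξ)))) := by
      intro l _
      rw [(gr_rep hGFT hGWD (hτ l) z i).2, integral_const_mul]
      ring
    rw [Finset.sum_congr rfl h2, Finset.sum_neg_distrib, ← Finset.mul_sum,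
      ← integral_finsetSum _ (fun l _ => ((gr_rep hGFT hGWD (hτ l) z i).1.const_mul _)),
      mul_neg, mul_left_comm, ← integral_const_mul]
    congr 2
    apply integral_congr_ae
    refine Filter.Eventually.of_forall fun ξ => ?_
    simp only
    have h3 : ∑ l ∈ Finset.range (Ln n + 1), bs n l *
        (Real.exp (-(tl n l + 4 * u) / 4 * qq ξ) * (ξ i * Real.sin (dt z ξ))) =
        (∑ l ∈ Finset.range (Ln n + 1), bs n l * Real.exp (-(tl n l + 4 * u) / 4 * qq ξ)) *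
          (ξ i * Real.sin (dt z ξ)) := by
      rw [Finset.sum_mul]
      apply Finset.sum_congr rfl
      intro l _
      ring
    rw [h3, binom]
    unfold ff SS
    ring
  rw [setIntegral_congr_fun measurableSet_Ioi h1, integral_neg, integral_const_mul]
  congr 2
  rw [integral_integral_swap (ff_int n hSUB z i)]
  apply integral_congr_ae
  filter_upwards [nz_ae (D := dm n)] with ξ hξ
  exact (ff_u hSUB n z i hξ).2.1

theorem k1 (hGFT : Stmt_GFT) (hCCS : Stmt_CCS) (hCCJ : Stmt_CCJ) (hSUB : Stmt_SUB)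
    (hGWD : Stmt_GWD) (n : ℕ) [Nonempty (Fin (dm n))] (z : P (dm n)) (i : Fin (dm n)) :
    K1 n [i] z = -(((2 * π) ^ dm n)⁻¹ * ∫ ξ : P (dm n),
      (m0 n ξ * (ξ i / Real.sqrt (∑ i, ξ i ^ 2))) * Real.sin (∑ i, z i * ξ i)) := by
  unfold K1
  rw [second hGFT hSUB hGWD n z i]
  have h1 : ∀ l ∈ Finset.range (Ln n + 1), bs n l *
      (cs (om n) (tl n l) (fun ζ => gw [i] ζ z)).re =
      -(((2 * π) ^ dm n)⁻¹ * ∫ ξ : P (dm n), bs n l *
        (Real.sinh (om n * Real.sqrt (qq ξ)) / Real.sqrt (qq ξ) *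
        Real.exp (-tl n l / 4 * qq ξ) * (ξ i * Real.sin (dt z ξ)))) := by
    intro l _
    rw [(cs_gw hGFT hCCS hCCJ hGWD (tl_pos n l) z i).2, integral_const_mul]
    ring
  have hi : ∀ l ∈ Finset.range (Ln n + 1), Integrable (fun ξ : P (dm n) => bs n l *
        (Real.sinh (om n * Real.sqrt (qq ξ)) / Real.sqrt (qq ξ) *
        Real.exp (-tl n l / 4 * qq ξ) * (ξ i * Real.sin (dt z ξ)))) := fun l _ =>
    (cs_gw hGFT hCCS hCCJ hGWD (tl_pos n l) z i).1.const_mul _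
  rw [Finset.sum_congr rfl h1, Finset.sum_neg_distrib, ← Finset.mul_sum,
    ← integral_finsetSum _ hi, ← neg_add, ← mul_add]
  have hi2 := integrable_finsetSum (Finset.range (Ln n + 1)) hi
  congr 2
  rw [← integral_add hi2 (ex_int n z i)]
  apply integral_congr_ae
  refine Filter.Eventually.of_forall fun ξ => ?_
  simp only
  have h2 : ∑ l ∈ Finset.range (Ln n + 1), bs n l *
      (Real.sinh (om n * Real.sqrt (qq ξ)) / Real.sqrt (qq ξ) *
      Real.exp (-tl n l / 4 * qq ξ) * (ξ i * Real.sin (dt z ξ))) =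
      Real.sinh (om n * Real.sqrt (qq ξ)) / Real.sqrt (qq ξ) *
      (∑ l ∈ Finset.range (Ln n + 1), bs n l * Real.exp (-tl n l / 4 * qq ξ)) *
      (ξ i * Real.sin (dt z ξ)) := by
    rw [Finset.mul_sum, Finset.sum_mul]
    apply Finset.sum_congr rfl
    intro l _
    ring
  rw [h2, binom0]
  have h3 : Real.cosh (om n * Real.sqrt (qq ξ)) =
      Real.sinh (om n * Real.sqrt (qq ξ)) + Real.exp (-om n * Real.sqrt (qq ξ)) := by
    rw [neg_mul, ← Real.cosh_sub_sinh]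
    ring
  have h4 : m0 n ξ = Real.cosh (om n * Real.sqrt (qq ξ)) * SS n (qq ξ) := by
    unfold m0 qq SS
    ring
  have h5 : Real.sqrt (∑ i, ξ i ^ 2) = Real.sqrt (qq ξ) := rfl
  have h6 : (∑ i, z i * ξ i) = dt z ξ := rfl
  rw [h4, h5, h6, h3]
  unfold SS
  ring

end FRK_

theorem frk_proof (hGFT : Stmt_GFT) (hCCS : Stmt_CCS) (hCCJ : Stmt_CCJ) (hSUB : Stmt_SUB)
    (_hMIN : Stmt_MIN) (hGWD : Stmt_GWD) : Stmt_FRK := by
  intro n hn z
  have : Nonempty (Fin (dm n)) := ⟨⟨0, by unfold dm; positivity⟩⟩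
  exact ⟨FRK_.k0 hGFT hCCS hCCJ n z, fun i => FRK_.k1 hGFT hCCS hCCJ hSUB hGWD n z i⟩

end

end Pool.Agent.HBW
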