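import Pool.Agent.HBW.Stmts

set_option autoImplicit false

namespace Pool.Agent.HBW

open MeasureTheory Set Filter Topology
open scoped ENNReal Real

namespace GFT_

lemma sqrt_id (ζ : ℂ) (h : 0 < ζ.re) :
    ((π : ℂ) / (ζ / 4)) ^ (1 / 2 : ℂ) = 2 * (π : ℂ) * ((π : ℂ) * ζ) ^ (-(1 / 2) : ℂ) := by
  have hζ : ζ ≠ 0 := by rintro rfl; simp at h
  have hπ : (π : ℂ) ≠ 0 := by exact_mod_cast Real.pi_ne_zero
  set w : ℂ := (π : ℂ) * ζ with hw
  have hw0 : w ≠ 0 := mul_ne_zero hπ hζ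
  have hwre : 0 < w.re := by
    rw [hw, Complex.re_ofReal_mul]
    exact mul_pos Real.pi_pos h
  have harg : w.arg ≠ π := by
    have := Complex.abs_arg_lt_pi_div_two_iff.2 (Or.inl hwre)
    intro h0
    rw [h0, abs_of_pos Real.pi_pos] at this
    linarith [Real.pi_pos]
  have hr : (0 : ℝ) < (2 * π) ^ 2 := by positivity
  have e1 : (π : ℂ) / (ζ / 4) = (((2 * π) ^ 2 : ℝ) : ℂ) * w⁻¹ := by
    rw [hw]
    push_cast
    field_simp
    norm_num
  rw [e1, Complex.cpow_def_of_ne_zero (mul_ne_zero (by exact_mod_cast hr.ne') (inv_ne_zero hw0)),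
    Complex.log_ofReal_mul hr (inv_ne_zero hw0), Complex.log_inv _ harg,
    Complex.cpow_def_of_ne_zero hw0, add_mul, Complex.exp_add]
  congr 1
  · rw [Real.log_pow]
    push_cast
    rw [show (2 : ℂ) * Real.log (2 * π) * (1 / 2) = ((Real.log (2 * π) : ℝ) : ℂ) by ring,
      ← Complex.ofReal_exp, Real.exp_log (by positivity)]
    push_cast
    rfl
  · congr 1
    ring

end GFT_

open GFT_ in
theorem gft_proof : Stmt_GFT := by
  intro D ζ z h
  have hb : 0 < (ζ / 4).re := by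
    have : (ζ / 4).re = ζ.re / 4 := by simp
    rw [this]; linarith
  have hζ : ζ ≠ 0 := by rintro rfl; simp at h
  have key := GaussianFourier.integral_cexp_neg_sum_mul_add (ι := Fin D) (b := fun _ => ζ / 4)
    (fun _ => hb) (fun i => Complex.I * (z i : ℂ))
  have e1 : (fun ξ : P D => Complex.exp (-(ζ / 4) * (∑ i, (ξ i : ℂ) ^ 2)) *
      Complex.exp (Complex.I * ∑ i, (z i : ℂ) * (ξ i : ℂ))) =
      fun v : Fin D → ℝ => Complex.exp (-∑ i, (ζ / 4) * (v i : ℂ) ^ 2 + ∑ i, Complex.I * (z i : ℂ) * (v i : ℂ)) := by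
    funext v
    rw [← Complex.exp_add]
    congr 1
    have a1 : ∑ i, (ζ / 4) * (v i : ℂ) ^ 2 = (ζ / 4) * ∑ i, (v i : ℂ) ^ 2 := by
      rw [Finset.mul_sum]
    have a2 : ∑ i, Complex.I * (z i : ℂ) * (v i : ℂ) = Complex.I * ∑ i, (z i : ℂ) * (v i : ℂ) := by
      rw [Finset.mul_sum]
      exact Finset.sum_congr rfl fun i _ => mul_assoc _ _ _
    rw [a1, a2]
    ring
  rw [e1, key]
  unfold gw
  have e2 : (2 * (π : ℂ)) ^ D = ∏ _i : Fin D, (2 * (π : ℂ)) := by simp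
  rw [e2, ← Finset.prod_mul_distrib]
  refine Finset.prod_congr rfl fun i _ => ?_
  rw [sqrt_id ζ h]
  simp only [List.count_nil, iteratedDeriv_zero, phc]
  rw [mul_assoc]
  congr 3
  rw [mul_pow, Complex.I_sq]
  field_simp

end Pool.Agent.HBW
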