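import Pool.Agent.HBW.Stmts

set_option autoImplicit false

namespace Pool.Agent.HBW

open MeasureTheory Set Filter Topology
open scoped ENNReal Real

namespace GSR_

variable {D : ℕ}

theorem phr (τ x : ℝ) (hτ : 0 < τ) :
    phc (τ : ℂ) (x : ℂ) = (((Real.sqrt (π * τ))⁻¹ * Real.exp (-x ^ 2 / τ) : ℝ) : ℂ) := by
  unfold phc
  have hπ := Real.pi_pos
  have h1 : ((π : ℂ) * (τ : ℂ)) ^ (-(1 / 2) : ℂ) = (((Real.sqrt (π * τ))⁻¹ : ℝ) : ℂ) := by
    rw [Real.sqrt_eq_rpow, ← Real.rpow_neg (by positivity), Complex.ofReal_cpow (by positivity)]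
    push_cast
    rfl
  rw [h1]
  push_cast
  rfl

theorem base (τ : ℝ) (hτ : 0 < τ) (z : P D) : gw [] (τ : ℂ) z = (gs τ z : ℂ) := by
  unfold gw gs
  have h : ∀ i, iteratedDeriv (([] : List (Fin D)).count i) (phc (τ : ℂ)) (z i : ℂ) =
      (((Real.sqrt (π * τ))⁻¹ * Real.exp (-(z i) ^ 2 / τ) : ℝ) : ℂ) := by
    intro i
    rw [List.count_nil, iteratedDeriv_zero]
    exact phr τ (z i) hτ
  rw [Finset.prod_congr rfl (fun i _ => h i), ← Complex.ofReal_prod, Finset.prod_mul_distrib,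
    Finset.prod_const, Finset.card_univ, Fintype.card_fin, ← Real.exp_sum]
  congr 4
  rw [← Finset.sum_div, ← Finset.sum_neg_distrib]

theorem main (hGWD : Stmt_GWD) (τ : ℝ) (hτ : 0 < τ) (w : List (Fin D)) :
    (∀ z : P D, gw w (τ : ℂ) z = (gr w τ z : ℂ)) ∧ pdw w (gs τ) = gr w τ := by
  induction w with
  | nil =>
    have h : ∀ z : P D, gs τ z = gr [] τ z := by
      intro z
      unfold gr
      rw [base τ hτ z, Complex.ofReal_re]
    refine ⟨fun z => ?_, funext h⟩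
    rw [base τ hτ z, h z]
  | cons i w ih =>
    obtain ⟨h1, h2⟩ := ih
    have hs : Smo (gw w (τ : ℂ)) := (hGWD D (τ : ℂ) w).1
    have hg : Differentiable ℝ (gr w τ) := by
      have : Differentiable ℝ (gw w (τ : ℂ)) := hs.differentiable (by simp)
      exact Complex.reCLM.differentiable.comp this
    have e : gw w (τ : ℂ) = fun z => ((gr w τ z : ℝ) : ℂ) := funext h1
    have hp : ∀ z, gw (i :: w) (τ : ℂ) z = ((pd i (gr w τ) z : ℝ) : ℂ) := by
      intro z
      rw [← (hGWD D (τ : ℂ) w).2.1 i, e]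
      unfold pd
      have h3 : HasFDerivAt (fun z => ((gr w τ z : ℝ) : ℂ))
          (Complex.ofRealCLM.comp (fderiv ℝ (gr w τ) z)) z :=
        Complex.ofRealCLM.hasFDerivAt.comp z (hg z).hasFDerivAt
      rw [h3.fderiv]
      rfl
    have hq : ∀ z, gr (i :: w) τ z = pd i (gr w τ) z := by
      intro z
      unfold gr
      rw [hp z, Complex.ofReal_re]
      rfl
    refine ⟨fun z => ?_, ?_⟩
    · rw [hp z, hq z]
    · funext z
      change pd i (pdw w (gs τ)) z = _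
      rw [h2, hq z]

theorem int1 (τ : ℝ) (hτ : 0 < τ) : ∫ x : P D, gs τ x = 1 := by
  have e : (fun x : P D => gs τ x) =
      fun x => ∏ i, (fun y : ℝ => (Real.sqrt (π * τ))⁻¹ * Real.exp (-τ⁻¹ * y ^ 2)) (x i) := by
    funext x
    unfold gs
    rw [Finset.prod_mul_distrib, Finset.prod_const, Finset.card_univ, Fintype.card_fin,
      ← Real.exp_sum]
    congr 2
    rw [← Finset.mul_sum, div_eq_mul_inv]
    ring
  rw [e, integral_fintype_prod_volume_eq_prod
    (fun (_ : Fin D) (y : ℝ) => (Real.sqrt (π * τ))⁻¹ * Real.exp (-τ⁻¹ * y ^ 2))]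
  apply Finset.prod_eq_one
  intro i _
  rw [integral_const_mul, integral_gaussian, div_inv_eq_mul]
  exact inv_mul_cancel₀ (Real.sqrt_pos.2 (mul_pos Real.pi_pos hτ)).ne'

end GSR_

theorem gsr_proof (hGWD : Stmt_GWD) (_hGWA : Stmt_GWA) : Stmt_GSR := by
  intro D τ hτ
  refine ⟨fun w => (GSR_.main hGWD τ hτ w).1, fun w => (GSR_.main hGWD τ hτ w).2,
    GSR_.int1 τ hτ, fun x => ?_⟩
  unfold gs
  have := Real.pi_pos
  positivity

end Pool.Agent.HBW
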