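import Pool.Agent.HBW.Stmts

set_option autoImplicit false

namespace Pool.Agent.HBW

open MeasureTheory Set Filter Topology
open scoped ENNReal Real

namespace GWA_

theorem derphc (ζ x : ℂ) : HasDerivAt (phc ζ) (phc ζ x * (-2 * x * ζ⁻¹)) x := by
  have h1 : HasDerivAt (fun x : ℂ => -x ^ 2 / ζ) (-2 * x * ζ⁻¹) x := by
    have h := ((hasDerivAt_pow 2 x).neg).div_const ζ
    refine h.congr_deriv ?_
    rw [div_eq_mul_inv]
    norm_num
  have h2 := (h1.cexp).const_mul (((π : ℂ) * ζ) ^ (-(1 / 2) : ℂ))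
  refine h2.congr_deriv ?_
  unfold phc
  ring

theorem rep (a : ℕ) : ∃ q : ℂ × ℂ → ℂ, ContDiff ℂ ((⊤ : ℕ∞) : WithTop ℕ∞) q ∧
    ∀ ζ x, iteratedDeriv a (phc ζ) x = q (x, ζ⁻¹) * phc ζ x := by
  induction a with
  | zero => exact ⟨fun _ => 1, contDiff_const, fun ζ x => by simp⟩
  | succ a ih =>
    obtain ⟨q, hq, h⟩ := ih
    refine ⟨fun p => fderiv ℂ q p (1, 0) + q p * (-2 * p.1 * p.2), ?_, ?_⟩
    · have h1 : ContDiff ℂ ((⊤ : ℕ∞) : WithTop ℕ∞) (fderiv ℂ q) := hq.fderiv_right (by simp)
      have h2 : ContDiff ℂ ((⊤ : ℕ∞) : WithTop ℕ∞) (fun p => fderiv ℂ q p (1, 0)) :=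
        h1.clm_apply contDiff_const
      exact h2.add (hq.mul ((contDiff_const.mul contDiff_fst).mul contDiff_snd))
    · intro ζ x
      rw [iteratedDeriv_succ]
      have e : iteratedDeriv a (phc ζ) = fun x => q (x, ζ⁻¹) * phc ζ x := funext fun x => h ζ x
      rw [e]
      have hd : DifferentiableAt ℂ q (x, ζ⁻¹) := (hq.differentiable (by simp)) _
      have h3 : HasDerivAt (fun x : ℂ => (x, ζ⁻¹)) ((1 : ℂ), (0 : ℂ)) x :=
        (hasDerivAt_id x).prodMk (hasDerivAt_const x ζ⁻¹)
      have h4 : HasDerivAt (fun x : ℂ => q (x, ζ⁻¹)) (fderiv ℂ q (x, ζ⁻¹) (1, 0)) x :=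
        hd.hasFDerivAt.comp_hasDerivAt x h3
      have h5 := h4.mul (derphc ζ x)
      have h6 := h5.deriv
      refine h6.trans ?_
      ring

theorem contphc : ContinuousOn (fun p : ℂ × ℂ => phc p.1 p.2) {p | 0 < p.1.re} := by
  unfold phc
  apply ContinuousOn.mul
  · apply ContinuousOn.cpow
    · exact (continuous_const.mul continuous_fst).continuousOn
    · exact continuousOn_const
    · intro p hp
      left
      rw [Complex.re_ofReal_mul]
      exact mul_pos Real.pi_pos hp
  · apply ContinuousOn.cexp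
    apply ContinuousOn.div
    · exact (continuous_snd.pow 2).neg.continuousOn
    · exact continuous_fst.continuousOn
    · intro p hp h0
      have hp' : 0 < p.1.re := hp
      rw [h0] at hp'
      simp at hp'

theorem difphc (x : ℂ) : DifferentiableOn ℂ (fun ζ => phc ζ x) {ζ | 0 < ζ.re} := by
  unfold phc
  intro ζ hζ
  have hζ' : 0 < ζ.re := hζ
  have h0 : ζ ≠ 0 := by
    intro h
    rw [h] at hζ'
    simp at hζ'
  apply DifferentiableAt.differentiableWithinAt
  apply DifferentiableAt.mul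
  · apply DifferentiableAt.cpow
    · exact (differentiableAt_const _).mul differentiableAt_id
    · exact differentiableAt_const _
    · left
      have h2 : 0 < ((π : ℂ) * ζ).re := by
        rw [Complex.re_ofReal_mul]
        exact mul_pos Real.pi_pos hζ'
      exact h2
  · apply DifferentiableAt.cexp
    exact (differentiableAt_const _).div differentiableAt_id h0

theorem ne (ζ : ℂ) (hζ : 0 < ζ.re) : ζ ≠ 0 := by
  intro h
  rw [h] at hζ
  simp at hζ

end GWA_

theorem gwa_proof : Stmt_GWA := by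
  intro D w
  refine ⟨?_, ?_⟩
  · intro z
    unfold gw
    apply DifferentiableOn.fun_finsetProd
    intro i _
    obtain ⟨q, hq, h⟩ := GWA_.rep (w.count i)
    have e : (fun ζ : ℂ => iteratedDeriv (w.count i) (phc ζ) (z i : ℂ)) =
        fun ζ => q ((z i : ℂ), ζ⁻¹) * phc ζ (z i : ℂ) := funext fun ζ => h ζ _
    rw [e]
    apply DifferentiableOn.mul _ (GWA_.difphc _)
    intro ζ hζ
    apply DifferentiableAt.differentiableWithinAt
    have h1 : DifferentiableAt ℂ (fun ζ : ℂ => ((z i : ℂ), ζ⁻¹)) ζ :=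
      (differentiableAt_const _).prodMk (differentiableAt_inv (GWA_.ne ζ hζ))
    exact ((hq.differentiable (by simp)) _).comp ζ h1
  · unfold gw
    apply continuousOn_finsetProd
    intro i _
    obtain ⟨q, hq, h⟩ := GWA_.rep (w.count i)
    have e : (fun p : ℂ × P D => iteratedDeriv (w.count i) (phc p.1) (p.2 i : ℂ)) =
        fun p => q ((p.2 i : ℂ), p.1⁻¹) * phc p.1 (p.2 i : ℂ) := funext fun p => h p.1 _
    rw [e]
    have hc : Continuous (fun p : ℂ × P D => ((p.2 i : ℝ) : ℂ)) :=
      Complex.continuous_ofReal.comp ((continuous_apply i).comp continuous_snd)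
    apply ContinuousOn.mul
    · apply hq.continuous.comp_continuousOn
      apply ContinuousOn.prodMk hc.continuousOn
      apply ContinuousOn.inv₀ continuous_fst.continuousOn
      intro p hp
      exact GWA_.ne p.1 hp
    · have h2 : ContinuousOn (fun p : ℂ × P D => (p.1, ((p.2 i : ℝ) : ℂ))) {p | 0 < p.1.re} :=
        (continuous_fst.prodMk hc).continuousOn
      have hm : MapsTo (fun p : ℂ × P D => (p.1, ((p.2 i : ℝ) : ℂ))) {p | 0 < p.1.re}
          {p : ℂ × ℂ | 0 < p.1.re} := fun p hp => hp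
      have h3 := ContinuousOn.comp (g := fun p : ℂ × ℂ => phc p.1 p.2) GWA_.contphc h2 hm
      exact h3

end Pool.Agent.HBW
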