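import Pool.Agent.HBW.Stmts

set_option autoImplicit false

namespace Pool.Agent.HBW

open MeasureTheory Set Filter Topology
open scoped ENNReal Real

namespace GWB_

theorem cnt {D : ℕ} (w : List (Fin D)) : ∑ i, w.count i = w.length := by
  have h := Multiset.sum_count_eq_card (s := (Finset.univ : Finset (Fin D)))
    (m := (w : Multiset (Fin D))) (fun a _ => Finset.mem_univ a)
  simpa using h

theorem fac {D : ℕ} (w : List (Fin D)) :
    (∏ i, ((w.count i).factorial : ℝ)) ≤ (w.length.factorial : ℝ) := by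
  have h := Nat.le_of_dvd (Nat.factorial_pos _)
    (Nat.prod_factorial_dvd_factorial_sum (Finset.univ : Finset (Fin D)) (fun i => w.count i))
  rw [cnt] at h
  exact_mod_cast h

end GWB_

theorem gwb_proof (hPHB : Stmt_PHB) : Stmt_GWB := by
  intro D ζ κ m h w z hm hζ hr hκ hh
  unfold gw
  rw [norm_prod]
  calc ∏ i, ‖iteratedDeriv (w.count i) (phc ζ) (z i : ℂ)‖
      ≤ ∏ i, ((w.count i).factorial * h⁻¹ ^ (w.count i) * (Real.sqrt (π * m))⁻¹ *
          Real.exp (-κ * z i ^ 2 + (2 * |z i| * h + h ^ 2) / m)) :=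
        Finset.prod_le_prod (fun i _ => norm_nonneg _)
          (fun i _ => hPHB ζ κ m h (z i) (w.count i) hm hζ hr hκ hh)
    _ = (∏ i, ((w.count i).factorial : ℝ)) * h⁻¹ ^ w.length * (Real.sqrt (π * m))⁻¹ ^ D *
          Real.exp (∑ i, (-κ * z i ^ 2 + (2 * |z i| * h + h ^ 2) / m)) := by
        rw [Finset.prod_mul_distrib, Finset.prod_mul_distrib, Finset.prod_mul_distrib,
          Finset.prod_pow_eq_pow_sum, GWB_.cnt, Finset.prod_const, Finset.card_univ,
          Fintype.card_fin, Real.exp_sum]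
    _ ≤ _ := by
        have := GWB_.fac w
        gcongr

end Pool.Agent.HBW
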