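import Pool.Agent.HBW.Stmts

set_option autoImplicit false

namespace Pool.Agent.HBW

open MeasureTheory Set Filter Topology
open scoped ENNReal Real

namespace GWD_

theorem dif (ζ : ℂ) (a : ℕ) : Differentiable ℂ (iteratedDeriv a (phc ζ)) := by
  have hd : Differentiable ℂ (phc ζ) := by
    unfold phc
    fun_prop
  have h1 : ContDiff ℂ (a + 1 : ℕ) (phc ζ) := hd.contDiff
  exact h1.differentiable_iteratedDeriv a (by exact_mod_cast Nat.lt_succ_self a)

theorem sm (ζ : ℂ) (a : ℕ) :
    ContDiff ℝ ((⊤ : ℕ∞) : WithTop ℕ∞) (fun t : ℝ => iteratedDeriv a (phc ζ) (t : ℂ)) := by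
  have h1 : ContDiff ℂ ((⊤ : ℕ∞) : WithTop ℕ∞) (iteratedDeriv a (phc ζ)) := (dif ζ a).contDiff
  exact (h1.restrict_scalars ℝ).comp Complex.ofRealCLM.contDiff

theorem der (ζ : ℂ) (a : ℕ) (t : ℝ) :
    HasDerivAt (fun t : ℝ => iteratedDeriv a (phc ζ) (t : ℂ))
      (iteratedDeriv (a + 1) (phc ζ) (t : ℂ)) t := by
  rw [iteratedDeriv_succ]
  exact ((dif ζ a) (t : ℂ)).hasDerivAt.comp_ofReal

theorem smo {D : ℕ} (ζ : ℂ) (w : List (Fin D)) : Smo (gw w ζ) := by
  have h : gw w ζ = fun z : P D => ∏ i, (fun t : ℝ => iteratedDeriv (w.count i) (phc ζ) (t : ℂ)) (z i) := rfl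
  rw [h]
  apply contDiff_prod
  intro i _
  exact (sm ζ (w.count i)).comp (contDiff_apply ℝ ℝ i)

end GWD_

theorem gwd_proof : Stmt_GWD := by
  intro D ζ w
  refine ⟨GWD_.smo ζ w, ?_, ?_⟩
  · intro i
    funext z
    unfold pd
    have hdiff : DifferentiableAt ℝ (gw w ζ) z :=
      ((GWD_.smo ζ w).differentiable (by simp)) z
    have h1 : HasDerivAt (fun s : ℝ => gw w ζ (Function.update z i s))
        (fderiv ℝ (gw w ζ) z (Pi.single i 1)) (z i) := by
      have h2 : HasFDerivAt (gw w ζ) (fderiv ℝ (gw w ζ) z) (Function.update z i (z i)) := by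
        rw [Function.update_eq_self]
        exact hdiff.hasFDerivAt
      exact h2.comp_hasDerivAt (z i) (hasDerivAt_update z i (z i))
    have h3 : (fun s : ℝ => gw w ζ (Function.update z i s)) = fun s : ℝ =>
        iteratedDeriv (w.count i) (phc ζ) (s : ℂ) *
          ∏ j ∈ Finset.univ.erase i, iteratedDeriv (w.count j) (phc ζ) (z j : ℂ) := by
      funext s
      unfold gw
      rw [← Finset.mul_prod_erase Finset.univ _ (Finset.mem_univ i), Function.update_self]
      congr 1
      refine Finset.prod_congr rfl fun j hj => ?_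
      rw [Function.update_of_ne (Finset.ne_of_mem_erase hj)]
    have h4 : HasDerivAt (fun s : ℝ => gw w ζ (Function.update z i s))
        (iteratedDeriv (w.count i + 1) (phc ζ) (z i : ℂ) *
          ∏ j ∈ Finset.univ.erase i, iteratedDeriv (w.count j) (phc ζ) (z j : ℂ)) (z i) := by
      rw [h3]
      exact (GWD_.der ζ (w.count i) (z i)).mul_const _
    rw [h1.unique h4]
    unfold gw
    rw [← Finset.mul_prod_erase Finset.univ _ (Finset.mem_univ i)]
    congr 1
    · rw [List.count_cons_self]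
    · refine Finset.prod_congr rfl fun j hj => ?_
      rw [List.count_cons_of_ne (Finset.ne_of_mem_erase hj).symm]
  · intro w' hp
    funext z
    unfold gw
    refine Finset.prod_congr rfl fun i _ => ?_
    rw [hp.count_eq]

end Pool.Agent.HBW
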