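import Pool.Agent.HBW.Stmts

set_option autoImplicit false

namespace Pool.Agent.HBW

open MeasureTheory Set Filter Topology
open scoped ENNReal Real

namespace HAC_

variable {D : ℕ} {X : Type} [NormedAddCommGroup X] [NormedSpace ℝ X]

theorem bcb {f : P D → X} {B : ℝ} (h : BC 1 B f) (x : P D) : ‖f x‖ ≤ B := h.bd [] (by simp) x

theorem bcp {f : P D → X} {B : ℝ} (h : BC 1 B f) (i : Fin D) (x : P D) : ‖pd i f x‖ ≤ B :=
  h.bd [i] (by simp) x

theorem diff {f : P D → X} {B : ℝ} (h : BC 1 B f) : Differentiable ℝ f :=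
  h.sm.differentiable (by norm_num)

theorem pdc {f : P D → X} {B : ℝ} (h : BC 1 B f) (i : Fin D) : Continuous (pd i f) :=
  (h.sm.continuous_fderiv (by norm_num)).clm_apply continuous_const

theorem ddc (A : Fin D → (X →L[ℝ] X)) {f : P D → X} {B : ℝ} (h : BC 1 B f) :
    Continuous (DD A f) := by
  unfold DD
  exact continuous_finset_sum _ fun i _ => (A i).continuous.comp (pdc h i)

theorem ddb (A : Fin D → (X →L[ℝ] X)) {f : P D → X} {B : ℝ} (h : BC 1 B f) (x : P D) :
    ‖DD A f x‖ ≤ (∑ i, ‖A i‖) * B := by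
  unfold DD
  refine (norm_sum_le _ _).trans ?_
  rw [Finset.sum_mul]
  refine Finset.sum_le_sum fun i _ => ?_
  exact ((A i).le_opNorm _).trans (mul_le_mul_of_nonneg_left (bcp h i x) (norm_nonneg _))

theorem pd_add {f g : P D → X} (hf : Differentiable ℝ f) (hg : Differentiable ℝ g) (i : Fin D)
    (x : P D) : pd i (fun z => f z + g z) x = pd i f x + pd i g x := by
  unfold pd
  rw [fderiv_fun_add (hf x) (hg x), ContinuousLinearMap.add_apply]

theorem pd_sub {f g : P D → X} (hf : Differentiable ℝ f) (hg : Differentiable ℝ g) (i : Fin D)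
    (x : P D) : pd i (fun z => f z - g z) x = pd i f x - pd i g x := by
  unfold pd
  rw [fderiv_fun_sub (hf x) (hg x), ContinuousLinearMap.sub_apply]

theorem pd_smul {f : P D → X} (hf : Differentiable ℝ f) (c : ℝ) (i : Fin D)
    (x : P D) : pd i (fun z => c • f z) x = c • pd i f x := by
  unfold pd
  rw [fderiv_fun_const_smul (hf x), ContinuousLinearMap.smul_apply]

theorem pd_sc {f : P D → X} (hf : Differentiable ℝ f) (N : ℝ) (x0 : P D) (i : Fin D)
    (x : P D) : pd i (fun z => f (N • z - x0)) x = N • pd i f (N • x - x0) := by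
  unfold pd
  have h1 : HasFDerivAt (fun z : P D => N • z - x0) (N • ContinuousLinearMap.id ℝ (P D)) x :=
    ((hasFDerivAt_id x).const_smul N).sub_const x0
  have h2 := (hf (N • x - x0)).hasFDerivAt.comp x h1
  have h3 : fderiv ℝ (fun z => f (N • z - x0)) x =
      (fderiv ℝ f (N • x - x0)).comp (N • ContinuousLinearMap.id ℝ (P D)) := h2.fderiv
  rw [h3]
  simp

theorem dd_add (A : Fin D → (X →L[ℝ] X)) {f g : P D → X} (hf : Differentiable ℝ f)
    (hg : Differentiable ℝ g) : DD A (fun z => f z + g z) = fun x => DD A f x + DD A g x := by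
  funext x
  unfold DD
  rw [← Finset.sum_add_distrib]
  refine Finset.sum_congr rfl fun i _ => ?_
  rw [pd_add hf hg, map_add]

theorem dd_smul (A : Fin D → (X →L[ℝ] X)) {f : P D → X} (hf : Differentiable ℝ f) (c : ℝ) :
    DD A (fun z => c • f z) = fun x => c • DD A f x := by
  funext x
  unfold DD
  rw [Finset.smul_sum]
  refine Finset.sum_congr rfl fun i _ => ?_
  rw [pd_smul hf, map_smul]

theorem dd_sc (A : Fin D → (X →L[ℝ] X)) {f : P D → X} (hf : Differentiable ℝ f) (N : ℝ)
    (x0 : P D) : DD A (fun z => f (N • z - x0)) = fun x => N • DD A f (N • x - x0) := by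
  funext x
  unfold DD
  rw [Finset.smul_sum]
  refine Finset.sum_congr rfl fun i _ => ?_
  rw [pd_sc hf, map_smul]

variable [FiniteDimensional ℝ X]

theorem poi_add (hPB2 : Stmt_PB2) {f g : P D → X} {B C : ℝ} (hf : Continuous f)
    (hg : Continuous g) (hB : ∀ x, ‖f x‖ ≤ B) (hC : ∀ x, ‖g x‖ ≤ C) (x : P D) (y : ℝ)
    (hy : 0 < y) : Poi (fun z => f z + g z) x y = Poi f x y + Poi g x y :=
  (hPB2 D X f g (max B C) hf hg (fun x => (hB x).trans (le_max_left _ _))
    (fun x => (hC x).trans (le_max_right _ _)) y hy x).1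

theorem poi_smul (hPB2 : Stmt_PB2) {f : P D → X} {B : ℝ} (hf : Continuous f)
    (hB : ∀ x, ‖f x‖ ≤ B) (c : ℝ) (x : P D) (y : ℝ) (hy : 0 < y) :
    Poi (fun z => c • f z) x y = c • Poi f x y :=
  (hPB2 D X f f B hf hf hB hB y hy x).2.1 c

theorem poi_sub (hPB2 : Stmt_PB2) {f g : P D → X} {B C : ℝ} (hf : Continuous f)
    (hg : Continuous g) (hB : ∀ x, ‖f x‖ ≤ B) (hC : ∀ x, ‖g x‖ ≤ C) (x : P D) (y : ℝ)
    (hy : 0 < y) : Poi (fun z => f z - g z) x y = Poi f x y - Poi g x y := by
  have h1 : (fun z => f z - g z) = fun z => f z + (-1 : ℝ) • g z := by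
    funext z
    rw [neg_one_smul, sub_eq_add_neg]
  rw [h1, poi_add hPB2 (g := fun z => (-1 : ℝ) • g z) (C := C) hf (hg.const_smul _) hB
    (fun z => by rw [norm_smul]; simpa using hC z) x y hy, poi_smul hPB2 hg hC _ x y hy,
    neg_one_smul, sub_eq_add_neg]

theorem dist_poi (hPB1 : Stmt_PB1) (hPB2 : Stmt_PB2) {f g : P D → X} {B C ε : ℝ}
    (hf : Continuous f) (hg : Continuous g) (hB : ∀ x, ‖f x‖ ≤ B) (hC : ∀ x, ‖g x‖ ≤ C)
    (hε : ∀ x, ‖f x - g x‖ ≤ ε) (x : P D) (y : ℝ) (hy : 0 < y) :
    ‖Poi f x y - Poi g x y‖ ≤ ε := by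
  rw [← poi_sub hPB2 hf hg hB hC x y hy]
  exact ((hPB1 D X (fun z => f z - g z) ε (hf.sub hg) hε).2.1 y hy x).2

end HAC_

open HAC_ in
theorem hac_proof (hPB1 : Stmt_PB1) (hPB2 : Stmt_PB2) (_hPB3 : Stmt_PB3) (hPB5 : Stmt_PB5) :
    Stmt_HAC := by
  intro D X _ _ _ A
  refine ⟨?_, ?_, ?_⟩
  · intro f g B hf hg Hf Hg
    constructor
    · intro x y hy
      have h1 : (fun s => Poi (fun z => f z + g z) x s) =ᶠ[𝓝 y]
          fun s => Poi f x s + Poi g x s := by
        filter_upwards [lt_mem_nhds hy] with s hs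
        exact poi_add hPB2 hf.sm.continuous hg.sm.continuous (bcb hf) (bcb hg) x s hs
      refine (((Hf x y hy).add (Hg x y hy)).congr_of_eventuallyEq h1).congr_deriv ?_
      rw [dd_add A (diff hf) (diff hg),
        poi_add hPB2 (ddc A hf) (ddc A hg) (ddb A hf) (ddb A hg) x y hy, neg_add]
    · intro c x y hy
      have h1 : (fun s => Poi (fun z => c • f z) x s) =ᶠ[𝓝 y] fun s => c • Poi f x s := by
        filter_upwards [lt_mem_nhds hy] with s hs
        exact poi_smul hPB2 hf.sm.continuous (bcb hf) c x s hs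
      refine (((Hf x y hy).const_smul c).congr_of_eventuallyEq h1).congr_deriv ?_
      rw [dd_smul A (diff hf), poi_smul hPB2 (ddc A hf) (ddb A hf) c x y hy, smul_neg]
  · intro f B N x0 hf hN Hf x y hy
    have h1 : (fun s => Poi (fun z => f (N • z - x0)) x s) =ᶠ[𝓝 y]
        fun s => Poi f (N • x - x0) (N * s) := by
      filter_upwards [lt_mem_nhds hy] with s hs
      exact hPB5 D X f B N x0 x s hf.sm.continuous (bcb hf) hN hs
    have h2 : HasDerivAt (fun s => Poi f (N • x - x0) (N * s))
        (N • -(Poi (DD A f) (N • x - x0) (N * y))) y := by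
      have h3 : HasDerivAt (fun s : ℝ => N * s) N y := by
        simpa using (hasDerivAt_id y).const_mul N
      exact (Hf (N • x - x0) (N * y) (by positivity)).scomp y h3
    refine (h2.congr_of_eventuallyEq h1).congr_deriv ?_
    have h4 : Poi (fun z => N • DD A f (N • z - x0)) x y =
        N • Poi (DD A f) (N • x - x0) (N * y) := by
      have h5 : Continuous fun z : P D => DD A f (N • z - x0) :=
        (ddc A hf).comp ((continuous_const_smul N).sub continuous_const)
      rw [poi_smul hPB2 h5 (fun z => ddb A hf _) N x y hy,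
        hPB5 D X (DD A f) ((∑ i, ‖A i‖) * B) N x0 x y (ddc A hf) (ddb A hf) hN hy]
    rw [dd_sc A (diff hf), h4, smul_neg]
  · intro f g B ε hf hd hε Hf
    have hgd : Differentiable ℝ g := by
      have h1 : g = fun x => f 0 x - (f 0 x - g x) := by funext x; abel
      rw [h1]
      exact (diff (hf 0)).sub (diff (hd 0))
    have hg : BC 1 (B 0 + ε 0) g := by
      have h1 : g = fun x => f 0 x - (f 0 x - g x) := by funext x; abel
      constructor
      · rw [h1]
        exact (hf 0).sm.sub (hd 0).sm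
      · intro w hw x
        match w, hw with
        | [], _ =>
          have h2 : pdw ([] : List (Fin D)) g x = f 0 x - (f 0 x - g x) := by
            simp [pdw]
          rw [h2]
          exact (norm_sub_le _ _).trans (add_le_add (bcb (hf 0) x) (bcb (hd 0) x))
        | [i], _ =>
          have h2 : pdw [i] g x = pd i (f 0) x - pd i (fun z => f 0 z - g z) x := by
            rw [pd_sub (diff (hf 0)) hgd]
            simp [pdw]
          rw [h2]
          exact (norm_sub_le _ _).trans (add_le_add (bcp (hf 0) i x) (bcp (hd 0) i x))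
        | i :: j :: w, hw => simp at hw
    have hdd : ∀ j x, ‖DD A (f j) x - DD A g x‖ ≤ (∑ i, ‖A i‖) * ε j := by
      intro j x
      have h1 : DD A (f j) x - DD A g x = DD A (fun z => f j z - g z) x := by
        unfold DD
        rw [← Finset.sum_sub_distrib]
        refine Finset.sum_congr rfl fun i _ => ?_
        rw [pd_sub (diff (hf j)) hgd, map_sub]
      rw [h1]
      exact ddb A (hd j) x
    intro x y hy
    have hlim : Tendsto (fun j => (∑ i, ‖A i‖) * ε j) atTop (𝓝 0) := by
      simpa using hε.const_mul (∑ i, ‖A i‖)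
    refine hasDerivAt_of_tendstoUniformlyOn (l := atTop) (isOpen_Ioi (a := (0 : ℝ)))
      (f := fun j s => Poi (f j) x s) (f' := fun j s => -(Poi (DD A (f j)) x s))
      (g' := fun s => -(Poi (DD A g) x s)) ?_ ?_ ?_ hy
    · rw [Metric.tendstoUniformlyOn_iff]
      intro δ hδ
      filter_upwards [hlim.eventually (gt_mem_nhds hδ)] with j hj s hs
      rw [dist_comm, dist_eq_norm]
      have h1 := dist_poi hPB1 hPB2 (ddc A (hf j)) (ddc A hg) (ddb A (hf j)) (ddb A hg)
        (hdd j) x s hs
      have h2 : ‖-(Poi (DD A (f j)) x s) - -(Poi (DD A g) x s)‖ =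
          ‖Poi (DD A (f j)) x s - Poi (DD A g) x s‖ := by
        rw [← norm_neg]
        congr 1
        abel
      rw [h2]
      exact h1.trans_lt hj
    · exact Filter.Eventually.of_forall fun j s hs => Hf j x s hs
    · intro s hs
      rw [tendsto_iff_norm_sub_tendsto_zero]
      refine squeeze_zero (fun _ => norm_nonneg _) (fun j => ?_) hε
      exact dist_poi hPB1 hPB2 (hf j).sm.continuous hg.sm.continuous (bcb (hf j)) (bcb hg)
        (fun z => bcb (hd j) z) x s hs

end Pool.Agent.HBW
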