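import Pool.Agent.HBW.Stmts

set_option autoImplicit false

namespace Pool.Agent.HBW

open MeasureTheory Set Filter Topology
open scoped ENNReal Real

namespace HAK_

variable {D : ℕ}

/-- euclidean norm -/
noncomputable def rr (ξ : P D) : ℝ := Real.sqrt (∑ i, ξ i ^ 2)

noncomputable def dt (z ξ : P D) : ℝ := ∑ i, z i * ξ i

lemma rr_nonneg (ξ : P D) : 0 ≤ rr ξ := Real.sqrt_nonneg _

lemma rr_cont : Continuous (rr : P D → ℝ) := by unfold rr; fun_prop

lemma dt_cont (z : P D) : Continuous (dt z) := by unfold dt; fun_prop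

lemma abs_le_rr (ξ : P D) (j : Fin D) : |ξ j| ≤ rr ξ := by
  unfold rr
  apply Real.abs_le_sqrt
  exact Finset.single_le_sum (f := fun i => ξ i ^ 2) (fun _ _ => sq_nonneg _) (Finset.mem_univ j)

noncomputable def Cm (m : P D → ℝ) : P D → ℝ := fun z => ∫ ξ, m ξ * Real.cos (dt z ξ)
noncomputable def Sm (m : P D → ℝ) : P D → ℝ := fun z => ∫ ξ, m ξ * Real.sin (dt z ξ)
noncomputable def Cy (m : P D → ℝ) (x : P D) (y : ℝ) : ℝ :=
  ∫ ξ, m ξ * Real.exp (-y * rr ξ) * Real.cos (dt x ξ)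
noncomputable def Sy (m : P D → ℝ) (x : P D) (y : ℝ) : ℝ :=
  ∫ ξ, m ξ * Real.exp (-y * rr ξ) * Real.sin (dt x ξ)

lemma Cm_bd {m : P D → ℝ} (hm : Integrable m) (z : P D) : ‖Cm m z‖ ≤ ∫ ξ, |m ξ| := by
  refine norm_integral_le_of_norm_le hm.abs (Eventually.of_forall fun ξ => ?_)
  rw [norm_mul]
  exact mul_le_of_le_one_right (norm_nonneg _) (Real.abs_cos_le_one _)

lemma Sm_bd {m : P D → ℝ} (hm : Integrable m) (z : P D) : ‖Sm m z‖ ≤ ∫ ξ, |m ξ| := by
  refine norm_integral_le_of_norm_le hm.abs (Eventually.of_forall fun ξ => ?_)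
  rw [norm_mul]
  exact mul_le_of_le_one_right (norm_nonneg _) (Real.abs_sin_le_one _)

lemma dt_add (z ξ : P D) (t : ℝ) (j : Fin D) :
    dt (z + t • Pi.single j 1) ξ = dt z ξ + t * ξ j := by
  unfold dt
  simp only [Pi.add_apply, Pi.smul_apply, smul_eq_mul, add_mul, Finset.sum_add_distrib]
  congr 1
  simp [Pi.single_apply]

/-- partial derivative from the derivative along the line -/
lemma pd_eq {f : P D → ℝ} {z : P D} {j : Fin D} {a : ℝ} (hf : DifferentiableAt ℝ f z)
    (h : HasDerivAt (fun t : ℝ => f (z + t • Pi.single j 1)) a 0) : pd j f z = a := by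
  have h1 : HasDerivAt (fun t : ℝ => z + t • (Pi.single j 1 : P D)) (Pi.single j 1) 0 := by
    have := ((hasDerivAt_id (0 : ℝ)).smul_const (Pi.single j 1 : P D)).const_add z
    simpa using this
  have h2 : HasFDerivAt f (fderiv ℝ f z) (z + (0 : ℝ) • (Pi.single j 1 : P D)) := by
    simpa using hf.hasFDerivAt
  have h3 := h2.comp_hasDerivAt (0 : ℝ) h1
  exact h3.unique h

lemma int_mul {m g : P D → ℝ} (hm : Integrable m) (hg : Continuous g) (h : ∀ ξ, |g ξ| ≤ 1) :
    Integrable (fun ξ => m ξ * g ξ) := by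
  refine hm.mono (hm.aestronglyMeasurable.mul hg.aestronglyMeasurable)
    (Eventually.of_forall fun ξ => ?_)
  rw [norm_mul]
  exact mul_le_of_le_one_right (norm_nonneg _) (h ξ)

lemma meas_mul {m g : P D → ℝ} (hm : Integrable m) (hg : Continuous g) :
    AEStronglyMeasurable (fun ξ => m ξ * g ξ) volume :=
  hm.aestronglyMeasurable.mul hg.aestronglyMeasurable

lemma dCm {m : P D → ℝ} (hm : Integrable m) (j : Fin D)
    (hj : Integrable (fun ξ => m ξ * ξ j)) (z : P D) :
    HasDerivAt (fun t : ℝ => Cm m (z + t • Pi.single j 1)) (-Sm (fun ξ => m ξ * ξ j) z) 0 := by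
  have h := hasDerivAt_integral_of_dominated_loc_of_deriv_le (μ := (volume : Measure (P D)))
    (F := fun (t : ℝ) ξ => m ξ * Real.cos (dt z ξ + t * ξ j))
    (F' := fun (t : ℝ) ξ => m ξ * (-Real.sin (dt z ξ + t * ξ j) * ξ j))
    (x₀ := 0) (s := univ) (bound := fun ξ => |m ξ * ξ j|) univ_mem
    (Eventually.of_forall fun t => meas_mul hm (by have := dt_cont z; fun_prop))
    (int_mul hm (by have := dt_cont z; fun_prop) (fun ξ => Real.abs_cos_le_one _))
    (meas_mul hm (by have := dt_cont z; fun_prop))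
    (Eventually.of_forall fun ξ t _ => by
      rw [Real.norm_eq_abs, abs_mul, abs_mul, abs_mul, abs_neg]
      have := Real.abs_sin_le_one (dt z ξ + t * ξ j)
      have h1 := abs_nonneg (m ξ)
      have h2 := abs_nonneg (ξ j)
      nlinarith [mul_nonneg h1 h2, mul_le_mul_of_nonneg_left this (mul_nonneg h1 h2)])
    hj.abs
    (Eventually.of_forall fun ξ t _ => by
      have h1 : HasDerivAt (fun t : ℝ => dt z ξ + t * ξ j) (ξ j) t := by
        simpa using ((hasDerivAt_id t).mul_const (ξ j)).const_add (dt z ξ)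
      exact (h1.cos).const_mul (m ξ))
  have h2 := h.2
  have e1 : (fun t : ℝ => Cm m (z + t • Pi.single j 1)) =
      fun t : ℝ => ∫ ξ, m ξ * Real.cos (dt z ξ + t * ξ j) := by
    funext t
    unfold Cm
    simp only [dt_add]
  have e2 : -Sm (fun ξ => m ξ * ξ j) z = ∫ ξ, m ξ * (-Real.sin (dt z ξ + 0 * ξ j) * ξ j) := by
    unfold Sm
    rw [← integral_neg]
    refine integral_congr_ae (Eventually.of_forall fun ξ => ?_)
    simp only [zero_mul, add_zero]
    ring
  rw [e1, e2]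
  exact h2

lemma dSm {m : P D → ℝ} (hm : Integrable m) (j : Fin D)
    (hj : Integrable (fun ξ => m ξ * ξ j)) (z : P D) :
    HasDerivAt (fun t : ℝ => Sm m (z + t • Pi.single j 1)) (Cm (fun ξ => m ξ * ξ j) z) 0 := by
  have h := hasDerivAt_integral_of_dominated_loc_of_deriv_le (μ := (volume : Measure (P D)))
    (F := fun (t : ℝ) ξ => m ξ * Real.sin (dt z ξ + t * ξ j))
    (F' := fun (t : ℝ) ξ => m ξ * (Real.cos (dt z ξ + t * ξ j) * ξ j))
    (x₀ := 0) (s := univ) (bound := fun ξ => |m ξ * ξ j|) univ_mem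
    (Eventually.of_forall fun t => meas_mul hm (by have := dt_cont z; fun_prop))
    (int_mul hm (by have := dt_cont z; fun_prop) (fun ξ => Real.abs_sin_le_one _))
    (meas_mul hm (by have := dt_cont z; fun_prop))
    (Eventually.of_forall fun ξ t _ => by
      rw [Real.norm_eq_abs, abs_mul, abs_mul, abs_mul]
      have := Real.abs_cos_le_one (dt z ξ + t * ξ j)
      have h1 := abs_nonneg (m ξ)
      have h2 := abs_nonneg (ξ j)
      nlinarith [mul_nonneg h1 h2, mul_le_mul_of_nonneg_left this (mul_nonneg h1 h2)])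
    hj.abs
    (Eventually.of_forall fun ξ t _ => by
      have h1 : HasDerivAt (fun t : ℝ => dt z ξ + t * ξ j) (ξ j) t := by
        simpa using ((hasDerivAt_id t).mul_const (ξ j)).const_add (dt z ξ)
      exact (h1.sin).const_mul (m ξ))
  have h2 := h.2
  have e1 : (fun t : ℝ => Sm m (z + t • Pi.single j 1)) =
      fun t : ℝ => ∫ ξ, m ξ * Real.sin (dt z ξ + t * ξ j) := by
    funext t
    unfold Sm
    simp only [dt_add]
  have e2 : Cm (fun ξ => m ξ * ξ j) z = ∫ ξ, m ξ * (Real.cos (dt z ξ + 0 * ξ j) * ξ j) := by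
    unfold Cm
    refine integral_congr_ae (Eventually.of_forall fun ξ => ?_)
    simp only [zero_mul, add_zero]
    ring
  rw [e1, e2]
  exact h2

lemma dCy {m : P D → ℝ} (hm : Integrable m) (hr : Integrable (fun ξ => m ξ * rr ξ))
    (x : P D) {y : ℝ} (hy : 0 < y) (tr : ℝ → ℝ) (htr : Continuous tr) (ht1 : ∀ t, |tr t| ≤ 1) :
    HasDerivAt (fun y => ∫ ξ, m ξ * Real.exp (-y * rr ξ) * tr (dt x ξ))
      (-∫ ξ, (m ξ * rr ξ) * Real.exp (-y * rr ξ) * tr (dt x ξ)) y := by
  have hc := dt_cont x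
  have hrc := rr_cont (D := D)
  have h := hasDerivAt_integral_of_dominated_loc_of_deriv_le (μ := (volume : Measure (P D)))
    (F := fun (y : ℝ) ξ => m ξ * (Real.exp (-y * rr ξ) * tr (dt x ξ)))
    (F' := fun (y : ℝ) ξ => m ξ * (Real.exp (-y * rr ξ) * (-rr ξ) * tr (dt x ξ)))
    (x₀ := y) (s := Ioi 0) (bound := fun ξ => |m ξ * rr ξ|) (Ioi_mem_nhds hy)
    (Eventually.of_forall fun t => meas_mul hm (by fun_prop))
    (int_mul hm (by fun_prop) (fun ξ => by
      rw [abs_mul, abs_of_pos (Real.exp_pos _)]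
      have h1 : Real.exp (-y * rr ξ) ≤ 1 := Real.exp_le_one_iff.2 (by nlinarith [rr_nonneg ξ])
      calc _ ≤ 1 * 1 := mul_le_mul h1 (ht1 _) (abs_nonneg _) zero_le_one
        _ = 1 := one_mul 1))
    (meas_mul hm (by fun_prop))
    (Eventually.of_forall fun ξ t ht => by
      have ht : (0 : ℝ) < t := ht
      rw [Real.norm_eq_abs, abs_mul, abs_mul, abs_mul, abs_mul, abs_neg,
        abs_of_pos (Real.exp_pos _)]
      have h1 : Real.exp (-t * rr ξ) ≤ 1 := Real.exp_le_one_iff.2 (by nlinarith [rr_nonneg ξ])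
      have h3 : Real.exp (-t * rr ξ) * |rr ξ| * |tr (dt x ξ)| ≤ |rr ξ| := by
        calc _ ≤ (1 * |rr ξ|) * 1 := by
              refine mul_le_mul (mul_le_mul_of_nonneg_right h1 (abs_nonneg _)) (ht1 _)
                (abs_nonneg _) (by positivity)
          _ = |rr ξ| := by ring
      exact mul_le_mul_of_nonneg_left h3 (abs_nonneg _))
    hr.abs
    (Eventually.of_forall fun ξ t _ => by
      have h1 : HasDerivAt (fun t : ℝ => -t * rr ξ) (-rr ξ) t := by
        simpa using ((hasDerivAt_id t).neg.mul_const (rr ξ))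
      exact ((h1.exp).mul_const (tr (dt x ξ))).const_mul (m ξ))
  have h2 := h.2
  have e1 : (fun y : ℝ => ∫ ξ, m ξ * Real.exp (-y * rr ξ) * tr (dt x ξ)) =
      fun y : ℝ => ∫ ξ, m ξ * (Real.exp (-y * rr ξ) * tr (dt x ξ)) := by
    funext t
    simp only [mul_assoc]
  have e2 : -∫ ξ, (m ξ * rr ξ) * Real.exp (-y * rr ξ) * tr (dt x ξ) =
      ∫ ξ, m ξ * (Real.exp (-y * rr ξ) * (-rr ξ) * tr (dt x ξ)) := by
    rw [← integral_neg]
    refine integral_congr_ae (Eventually.of_forall fun ξ => ?_)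
    simp only
    ring
  rw [e1, e2]
  exact h2

lemma dCy' {m : P D → ℝ} (hm : Integrable m) (hr : Integrable (fun ξ => m ξ * rr ξ))
    (x : P D) {y : ℝ} (hy : 0 < y) :
    HasDerivAt (fun y => Cy m x y) (-Cy (fun ξ => m ξ * rr ξ) x y) y :=
  dCy hm hr x hy Real.cos Real.continuous_cos Real.abs_cos_le_one

lemma dSy' {m : P D → ℝ} (hm : Integrable m) (hr : Integrable (fun ξ => m ξ * rr ξ))
    (x : P D) {y : ℝ} (hy : 0 < y) :
    HasDerivAt (fun y => Sy m x y) (-Sy (fun ξ => m ξ * rr ξ) x y) y :=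
  dCy hm hr x hy Real.sin Real.continuous_sin Real.abs_sin_le_one

/-- Clifford sum -/
lemma cliff_sum {X : Type} [NormedAddCommGroup X] [NormedSpace ℝ X] {A : Fin D → (X →L[ℝ] X)}
    (hA : Cliff A) (a : Fin D → Fin D → ℝ) (ha : ∀ i j, a i j = a j i) (c : X) :
    ∑ j, ∑ i, a j i • A j (A i c) = -((∑ j, a j j) • c) := by
  have h1 : ∑ j, ∑ i, a j i • A j (A i c) = ∑ j, ∑ i, a j i • A i (A j c) := by
    rw [Finset.sum_comm]
    refine Finset.sum_congr rfl fun j _ => Finset.sum_congr rfl fun i _ => ?_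
    rw [ha]
  have h2 : (∑ j, ∑ i, a j i • A j (A i c)) + ∑ j, ∑ i, a j i • A j (A i c) =
      ∑ j, (-(2 : ℝ) * a j j) • c := by
    nth_rewrite 2 [h1]
    rw [← Finset.sum_add_distrib]
    refine Finset.sum_congr rfl fun j _ => ?_
    rw [← Finset.sum_add_distrib]
    rw [Finset.sum_eq_single j]
    · rw [hA.sq, ← smul_add, ← two_smul ℝ (-c), smul_smul, smul_neg, ← neg_smul]
      congr 1
      ring
    · intro i _ hij
      rw [hA.anti i j hij, smul_neg, add_neg_cancel]
    · intro h; exact absurd (Finset.mem_univ j) h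
  have h3 : (2 : ℝ) • (∑ j, ∑ i, a j i • A j (A i c)) = (2 : ℝ) • (-((∑ j, a j j) • c)) := by
    rw [two_smul, h2, ← Finset.sum_smul, ← Finset.mul_sum, smul_neg, smul_smul, ← neg_smul,
      neg_mul]
  exact smul_right_injective X (two_ne_zero : (2 : ℝ) ≠ 0) h3

section poi

variable {X : Type} [NormedAddCommGroup X] [NormedSpace ℝ X] [FiniteDimensional ℝ X]

lemma poi_smul (h2 : Stmt_PB2) (k : P D → ℝ) (B : ℝ) (hk : Continuous k) (hB : ∀ x, ‖k x‖ ≤ B)
    (c : X) (x : P D) {y : ℝ} (hy : 0 < y) :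
    Poi (fun z => k z • c) x y = Poi k x y • c := by
  have := (h2 D ℝ k k B hk hk hB hB y hy x).2.2.1 X
    ((ContinuousLinearMap.id ℝ ℝ).smulRight c)
  simpa using this

lemma poi_sum (h2 : Stmt_PB2) {ι : Type} (s : Finset ι) (f : ι → P D → X) (B : ι → ℝ)
    (hf : ∀ i, Continuous (f i)) (hB : ∀ i x, ‖f i x‖ ≤ B i) (x : P D) {y : ℝ} (hy : 0 < y) :
    Poi (fun z => ∑ i ∈ s, f i z) x y = ∑ i ∈ s, Poi (f i) x y := by
  classical
  induction s using Finset.induction_on with
  | empty =>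
    have := (h2 D X (fun _ => 0) (fun _ => 0) 0 continuous_const continuous_const
      (by simp) (by simp) y hy x).2.2.2 0
    simpa using this
  | insert i s hi ih =>
    have hBs : ∀ z, ‖∑ i ∈ s, f i z‖ ≤ ∑ i ∈ s, B i := fun z =>
      (norm_sum_le _ _).trans (Finset.sum_le_sum fun i _ => hB i z)
    have := (h2 D X (f i) (fun z => ∑ i ∈ s, f i z) (max (B i) (∑ i ∈ s, B i)) (hf i)
      (continuous_finsetSum _ fun i _ => hf i)
      (fun z => (hB i z).trans (le_max_left _ _)) (fun z => (hBs z).trans (le_max_right _ _))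
      y hy x).1
    simp only [Finset.sum_insert hi]
    rw [this, ih]

/-- Poisson extension of `k₀ c + ∑ k_i c_i` -/
lemma poi_main (h2 : Stmt_PB2) (k0 : P D → ℝ) (k1 : Fin D → P D → ℝ) (B0 : ℝ) (B1 : Fin D → ℝ)
    (h0 : Continuous k0) (h1 : ∀ i, Continuous (k1 i)) (hB0 : ∀ x, ‖k0 x‖ ≤ B0)
    (hB1 : ∀ i x, ‖k1 i x‖ ≤ B1 i) (c : X) (d : Fin D → X) (x : P D) {y : ℝ} (hy : 0 < y) :
    Poi (fun z => k0 z • c + ∑ i, k1 i z • d i) x y =
      Poi k0 x y • c + ∑ i, Poi (k1 i) x y • d i := by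
  have hb : ∀ i z, ‖k1 i z • d i‖ ≤ B1 i * ‖d i‖ := fun i z => by
    rw [norm_smul]
    exact mul_le_mul_of_nonneg_right (hB1 i z) (norm_nonneg _)
  have hs := poi_sum h2 Finset.univ (fun i z => k1 i z • d i) (fun i => B1 i * ‖d i‖)
    (fun i => (h1 i).smul continuous_const) hb x hy
  have := (h2 D X (fun z => k0 z • c) (fun z => ∑ i, k1 i z • d i)
    (max (B0 * ‖c‖) (∑ i, B1 i * ‖d i‖)) (h0.smul continuous_const)
    (continuous_finsetSum _ fun i _ => (h1 i).smul continuous_const)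
    (fun z => le_trans (by
      rw [norm_smul]
      exact mul_le_mul_of_nonneg_right (hB0 z) (norm_nonneg _)) (le_max_left _ _))
    (fun z => le_trans ((norm_sum_le _ _).trans (Finset.sum_le_sum fun i _ => hb i z))
      (le_max_right _ _)) y hy x).1
  rw [this, hs, poi_smul h2 k0 B0 h0 hB0 c x hy]
  congr 1
  exact Finset.sum_congr rfl fun i _ => poi_smul h2 (k1 i) (B1 i) (h1 i) (hB1 i) (d i) x hy

end poi

/-- partial derivatives of `k₀ c + ∑ k_i c_i` -/
lemma pd_main {X : Type} [NormedAddCommGroup X] [NormedSpace ℝ X] (k0 : P D → ℝ)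
    (k1 : Fin D → P D → ℝ) (h0 : Differentiable ℝ k0) (h1 : ∀ i, Differentiable ℝ (k1 i))
    (c : X) (d : Fin D → X) (j : Fin D) (z : P D) :
    pd j (fun z => k0 z • c + ∑ i, k1 i z • d i) z = pd j k0 z • c + ∑ i, pd j (k1 i) z • d i := by
  have h : HasFDerivAt (fun z => k0 z • c + ∑ i, k1 i z • d i)
      ((fderiv ℝ k0 z).smulRight c + ∑ i, (fderiv ℝ (k1 i) z).smulRight (d i)) z :=
    ((h0 z).hasFDerivAt.smul_const c).add
      (HasFDerivAt.fun_sum (u := Finset.univ) fun i _ => ((h1 i z).hasFDerivAt.smul_const (d i)))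
  unfold pd
  rw [h.fderiv]
  simp

end HAK_

open HAK_ in
theorem hak_proof (hFRK : Stmt_FRK) (hPFT : Stmt_PFT) (hMIN : Stmt_MIN) (hKF0 : Stmt_KF0)
    (hKF1 : Stmt_KF1) (_hPB1 : Stmt_PB1) (hPB2 : Stmt_PB2) (_hSUB : Stmt_SUB) : Stmt_HAK := by
  intro n hn X _ _ _ A c hA x y hy
  set cD : ℝ := ((2 * π) ^ dm n)⁻¹ with hcD
  set M0 : P (dm n) → ℝ := fun ξ => cD * m0 n ξ with hM0
  set M1 : Fin (dm n) → P (dm n) → ℝ := fun i ξ => -(cD * (m0 n ξ * (ξ i / rr ξ))) with hM1
  have hm0c : Continuous (m0 n) := by unfold m0; fun_prop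
  have hrc := rr_cont (D := dm n)
  have hI0 : Integrable (fun ξ : P (dm n) => m0 n ξ) := by simpa using hMIN n hn 0
  have hI1 : Integrable (fun ξ : P (dm n) => m0 n ξ * rr ξ) := by
    refine (hMIN n hn 1).mono (hm0c.mul hrc).aestronglyMeasurable
      (Eventually.of_forall fun ξ => ?_)
    rw [norm_mul, norm_mul]
    refine mul_le_mul_of_nonneg_left ?_ (norm_nonneg _)
    rw [Real.norm_of_nonneg (rr_nonneg ξ), pow_one, Real.norm_of_nonneg (by positivity)]
    show rr ξ ≤ 1 + rr ξ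
    linarith
  have hIg : ∀ g : P (dm n) → ℝ, Measurable g → (∀ ξ, |g ξ| ≤ rr ξ) →
      Integrable (fun ξ => m0 n ξ * g ξ) := by
    intro g hg hle
    refine hI1.mono (hm0c.measurable.mul hg).aestronglyMeasurable
      (Eventually.of_forall fun ξ => ?_)
    rw [norm_mul, norm_mul]
    refine mul_le_mul_of_nonneg_left ?_ (norm_nonneg _)
    rw [Real.norm_of_nonneg (rr_nonneg ξ)]
    exact hle ξ
  have hq : ∀ i (ξ : P (dm n)), |ξ i / rr ξ| ≤ 1 := by
    intro i ξ
    rw [abs_div, abs_of_nonneg (rr_nonneg ξ)]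
    exact div_le_one_of_le₀ (abs_le_rr ξ i) (rr_nonneg ξ)
  have hqm : ∀ i, Measurable (fun ξ : P (dm n) => ξ i / rr ξ) := fun i =>
    (measurable_pi_apply i).div hrc.measurable
  -- integrability of the symbols
  have iM0 : Integrable M0 := hI0.const_mul cD
  have iM0j : ∀ j, Integrable (fun ξ => M0 ξ * ξ j) := fun j => by
    have := (hIg (fun ξ => ξ j) (measurable_pi_apply j) (fun ξ => abs_le_rr ξ j)).const_mul cD
    simpa only [hM0, mul_assoc] using this
  have iM0r : Integrable (fun ξ => M0 ξ * rr ξ) := by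
    have := hI1.const_mul cD
    simpa only [hM0, mul_assoc] using this
  have iM1 : ∀ i, Integrable (M1 i) := fun i => by
    have : Integrable (fun ξ : P (dm n) => m0 n ξ * (ξ i / rr ξ)) := by
      refine hI0.mono (hm0c.measurable.mul (hqm i)).aestronglyMeasurable
        (Eventually.of_forall fun ξ => ?_)
      rw [norm_mul]
      exact mul_le_of_le_one_right (norm_nonneg _) (hq i ξ)
    exact (this.const_mul cD).neg
  have iM1j : ∀ i j, Integrable (fun ξ => M1 i ξ * ξ j) := fun i j => by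
    have := (hIg (fun ξ => (ξ i / rr ξ) * ξ j) ((hqm i).mul (measurable_pi_apply j)) (fun ξ => by
      rw [abs_mul]
      calc |ξ i / rr ξ| * |ξ j| ≤ 1 * rr ξ :=
            mul_le_mul (hq i ξ) (abs_le_rr ξ j) (abs_nonneg _) zero_le_one
        _ = rr ξ := one_mul _)).const_mul (-cD)
    refine this.congr (Eventually.of_forall fun ξ => ?_)
    simp only [hM1]
    ring
  have iM1r : ∀ i, Integrable (fun ξ => M1 i ξ * rr ξ) := fun i => by
    have := (hIg (fun ξ => (ξ i / rr ξ) * rr ξ) ((hqm i).mul hrc.measurable) (fun ξ => by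
      rw [abs_mul, abs_of_nonneg (rr_nonneg ξ)]
      calc |ξ i / rr ξ| * rr ξ ≤ 1 * rr ξ :=
            mul_le_mul_of_nonneg_right (hq i ξ) (rr_nonneg ξ)
        _ = rr ξ := one_mul _)).const_mul (-cD)
    refine this.congr (Eventually.of_forall fun ξ => ?_)
    simp only [hM1]
    ring
  -- kernels as Fourier integrals
  have eK0 : K0 n [] = Cm M0 := by
    funext z
    rw [(hFRK n hn z).1, ← integral_const_mul]
    unfold Cm
    refine integral_congr_ae (Eventually.of_forall fun ξ => ?_)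
    simp only [hM0, mul_assoc]
    rfl
  have eK1 : ∀ i, K1 n [i] = Sm (M1 i) := by
    intro i
    funext z
    rw [(hFRK n hn z).2 i, ← integral_const_mul, ← integral_neg]
    unfold Sm
    refine integral_congr_ae (Eventually.of_forall fun ξ => ?_)
    simp only [hM1, neg_mul, mul_assoc]
    rfl
  have dK0 : ∀ w, Differentiable ℝ (K0 n w) := fun w => (hKF0 n hn w).1.differentiable (by simp)
  have dK1 : ∀ w, Differentiable ℝ (K1 n w) := fun w => (hKF1 n hn w).1.differentiable (by simp)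
  have eK0j : ∀ j, K0 n [j] = fun z => -Sm (fun ξ => M0 ξ * ξ j) z := by
    intro j
    rw [← (hKF0 n hn []).2.1 j]
    funext z
    refine pd_eq (dK0 [] z) ?_
    rw [eK0]
    exact dCm iM0 j (iM0j j) z
  have eK1j : ∀ j i, K1 n [j, i] = Cm (fun ξ => M1 i ξ * ξ j) := by
    intro j i
    rw [← (hKF1 n hn [i]).2.1 j]
    funext z
    refine pd_eq (dK1 [i] z) ?_
    rw [eK1]
    exact dSm (iM1 i) j (iM1j i j) z
  -- Poisson extensions
  have pC : ∀ m : P (dm n) → ℝ, Integrable m → ∀ y > 0, Poi (Cm m) x y = Cy m x y :=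
    fun m hm y hy => (hPFT (dm n) m hm x y hy).1
  have pS : ∀ m : P (dm n) → ℝ, Integrable m → ∀ y > 0, Poi (Sm m) x y = Sy m x y :=
    fun m hm y hy => (hPFT (dm n) m hm x y hy).2
  have hkap : ∀ y > 0, Poi (kap n A c) x y = Cy M0 x y • c + ∑ i, Sy (M1 i) x y • A i c := by
    intro y hy
    have := poi_main hPB2 (K0 n []) (fun i => K1 n [i]) (∫ ξ, |M0 ξ|) (fun i => ∫ ξ, |M1 i ξ|)
      (dK0 []).continuous (fun i => (dK1 [i]).continuous)
      (fun z => by rw [eK0]; exact Cm_bd iM0 z) (fun i z => by rw [eK1]; exact Sm_bd (iM1 i) z)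
      c (fun i => A i c) x hy
    unfold kap
    rw [this, eK0, pC M0 iM0 y hy]
    congr 1
    refine Finset.sum_congr rfl fun i _ => ?_
    rw [eK1, pS (M1 i) (iM1 i) y hy]
  have hpd : ∀ j z, pd j (kap n A c) z = K0 n [j] z • c + ∑ i, K1 n [j, i] z • A i c := by
    intro j z
    unfold kap
    rw [pd_main (K0 n []) (fun i => K1 n [i]) (dK0 []) (fun i => dK1 [i]) c (fun i => A i c) j z,
      (hKF0 n hn []).2.1 j]
    congr 1
    refine Finset.sum_congr rfl fun i _ => ?_
    rw [(hKF1 n hn [i]).2.1 j]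
  have bK0j : ∀ j z, ‖K0 n [j] z‖ ≤ ∫ ξ, |M0 ξ * ξ j| := fun j z => by
    rw [eK0j, norm_neg]; exact Sm_bd (iM0j j) z
  have bK1j : ∀ j i z, ‖K1 n [j, i] z‖ ≤ ∫ ξ, |M1 i ξ * ξ j| := fun j i z => by
    rw [eK1j]; exact Cm_bd (iM1j i j) z
  have pK0j : ∀ j, Poi (K0 n [j]) x y = -Sy (fun ξ => M0 ξ * ξ j) x y := by
    intro j
    have h0 : Continuous (Sm fun ξ : P (dm n) => M0 ξ * ξ j) := by
      have e : (Sm fun ξ : P (dm n) => M0 ξ * ξ j) = fun z => -K0 n [j] z := by
        funext z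
        rw [eK0j, neg_neg]
      rw [e]
      exact (dK0 [j]).continuous.neg
    have := (hPB2 (dm n) ℝ (Sm fun ξ : P (dm n) => M0 ξ * ξ j) (Sm fun ξ : P (dm n) => M0 ξ * ξ j)
      (∫ ξ, |M0 ξ * ξ j|) h0 h0 (Sm_bd (iM0j j)) (Sm_bd (iM0j j)) y hy x).2.1 (-1)
    rw [eK0j]
    simp only [neg_smul, one_smul] at this
    rw [this, pS _ (iM0j j) y hy]
  have pK1j : ∀ j i, Poi (K1 n [j, i]) x y = Cy (fun ξ => M1 i ξ * ξ j) x y := by
    intro j i
    rw [eK1j, pC _ (iM1j i j) y hy]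
  have hDD : Poi (DD A (kap n A c)) x y = ∑ j, A j (-Sy (fun ξ => M0 ξ * ξ j) x y • c +
      ∑ i, Cy (fun ξ => M1 i ξ * ξ j) x y • A i c) := by
    have e : DD A (kap n A c) = fun z => ∑ j, A j (K0 n [j] z • c + ∑ i, K1 n [j, i] z • A i c) := by
      funext z
      unfold DD
      simp only [hpd]
    have hc : ∀ j, Continuous (fun z => K0 n [j] z • c + ∑ i, K1 n [j, i] z • A i c) := fun j =>
      ((dK0 [j]).continuous.smul continuous_const).add
        (continuous_finsetSum _ fun i _ => (dK1 [j, i]).continuous.smul continuous_const)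
    have hb : ∀ j z, ‖K0 n [j] z • c + ∑ i, K1 n [j, i] z • A i c‖ ≤
        (∫ ξ, |M0 ξ * ξ j|) * ‖c‖ + ∑ i, (∫ ξ, |M1 i ξ * ξ j|) * ‖A i c‖ := by
      intro j z
      refine (norm_add_le _ _).trans (add_le_add ?_ ((norm_sum_le _ _).trans ?_))
      · rw [norm_smul]
        exact mul_le_mul_of_nonneg_right (bK0j j z) (norm_nonneg _)
      · refine Finset.sum_le_sum fun i _ => ?_
        rw [norm_smul]
        exact mul_le_mul_of_nonneg_right (bK1j j i z) (norm_nonneg _)
    rw [e, poi_sum hPB2 Finset.univ (fun j z => A j (K0 n [j] z • c + ∑ i, K1 n [j, i] z • A i c))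
      (fun j => ‖A j‖ * ((∫ ξ, |M0 ξ * ξ j|) * ‖c‖ + ∑ i, (∫ ξ, |M1 i ξ * ξ j|) * ‖A i c‖))
      (fun j => (A j).continuous.comp (hc j))
      (fun j z => ((A j).le_opNorm _).trans (mul_le_mul_of_nonneg_left (hb j z) (norm_nonneg _)))
      x hy]
    refine Finset.sum_congr rfl fun j _ => ?_
    rw [(hPB2 (dm n) X _ _ _ (hc j) (hc j) (hb j) (hb j) y hy x).2.2.1 X (A j)]
    congr 1
    rw [poi_main hPB2 (K0 n [j]) (fun i => K1 n [j, i]) (∫ ξ, |M0 ξ * ξ j|)
      (fun i => ∫ ξ, |M1 i ξ * ξ j|) (dK0 [j]).continuous (fun i => (dK1 [j, i]).continuous)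
      (bK0j j) (fun i => bK1j j i) c (fun i => A i c) x hy, pK0j]
    congr 1
    exact Finset.sum_congr rfl fun i _ => by rw [pK1j]
  -- derivative
  have hder : HasDerivAt (fun y => Cy M0 x y • c + ∑ i, Sy (M1 i) x y • A i c)
      ((-Cy (fun ξ => M0 ξ * rr ξ) x y) • c +
        ∑ i, (-Sy (fun ξ => M1 i ξ * rr ξ) x y) • A i c) y := by
    refine ((dCy' iM0 iM0r x hy).smul_const c).add ?_
    exact HasDerivAt.fun_sum fun i _ => (dSy' (iM1 i) (iM1r i) x hy).smul_const (A i c)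
  have hder' : HasDerivAt (fun s => Poi (kap n A c) x s)
      ((-Cy (fun ξ => M0 ξ * rr ξ) x y) • c +
        ∑ i, (-Sy (fun ξ => M1 i ξ * rr ξ) x y) • A i c) y := by
    refine hder.congr_of_eventuallyEq ?_
    filter_upwards [Ioi_mem_nhds hy] with s hs
    exact hkap s hs
  -- algebra
  have e1 : ∀ i, -Sy (fun ξ => M1 i ξ * rr ξ) x y = Sy (fun ξ => M0 ξ * ξ i) x y := by
    intro i
    unfold Sy
    rw [← integral_neg]
    refine integral_congr_ae (Eventually.of_forall fun ξ => ?_)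
    simp only [hM1, hM0]
    by_cases h0 : rr ξ = 0
    · have h1 : ξ i = 0 := by
        have := abs_le_rr ξ i
        rw [h0] at this
        exact abs_eq_zero.1 (le_antisymm this (abs_nonneg _))
      simp [h0, h1]
    · field_simp
  have e2 : ∑ j, Cy (fun ξ => M1 j ξ * ξ j) x y = -Cy (fun ξ => M0 ξ * rr ξ) x y := by
    unfold Cy
    rw [← integral_finsetSum, ← integral_neg]
    · refine integral_congr_ae (Eventually.of_forall fun ξ => ?_)
      simp only [hM1, hM0]
      rw [← Finset.sum_mul, ← Finset.sum_mul]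
      have h2 : ∑ i, -(cD * (m0 n ξ * (ξ i / rr ξ))) * ξ i = -(cD * m0 n ξ * rr ξ) := by
        have h3 : ∑ i, ξ i ^ 2 = rr ξ ^ 2 := by
          unfold rr
          rw [Real.sq_sqrt (Finset.sum_nonneg fun _ _ => sq_nonneg _)]
        calc ∑ i, -(cD * (m0 n ξ * (ξ i / rr ξ))) * ξ i
            = ∑ i, (-(cD * m0 n ξ) / rr ξ) * ξ i ^ 2 := by
              refine Finset.sum_congr rfl fun i _ => ?_
              ring
          _ = (-(cD * m0 n ξ) / rr ξ) * rr ξ ^ 2 := by rw [← Finset.mul_sum, h3]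
          _ = -(cD * m0 n ξ * rr ξ) := by
              by_cases h0 : rr ξ = 0
              · simp [h0]
              · field_simp
      rw [h2]
      ring
    · intro i _
      have h4 := int_mul (g := fun ξ => Real.exp (-y * rr ξ) * Real.cos (dt x ξ)) (iM1j i i)
        (by have := dt_cont x; fun_prop) (fun ξ => by
          rw [abs_mul, abs_of_pos (Real.exp_pos _)]
          have h1 : Real.exp (-y * rr ξ) ≤ 1 :=
            Real.exp_le_one_iff.2 (by nlinarith [rr_nonneg ξ])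
          calc _ ≤ 1 * 1 := mul_le_mul h1 (Real.abs_cos_le_one _) (abs_nonneg _) zero_le_one
            _ = 1 := one_mul 1)
      simpa only [mul_assoc] using h4
  have e3 : -Poi (DD A (kap n A c)) x y = (-Cy (fun ξ => M0 ξ * rr ξ) x y) • c +
      ∑ i, (-Sy (fun ξ => M1 i ξ * rr ξ) x y) • A i c := by
    rw [hDD]
    simp only [map_add, map_sum, map_smul, Finset.sum_add_distrib]
    rw [cliff_sum hA (fun j i => Cy (fun ξ => M1 i ξ * ξ j) x y) (fun i j => by
      unfold Cy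
      refine integral_congr_ae (Eventually.of_forall fun ξ => ?_)
      simp only [hM1]
      ring) c, e2]
    simp only [e1]
    simp only [neg_smul, Finset.sum_neg_distrib, neg_add_rev, neg_neg]
  rw [e3]
  exact hder'

end Pool.Agent.HBW
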