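import Pool.Agent.HBW.Stmts

/-!
HBW HAP: the plane wave is a Hardy function
-/

set_option autoImplicit false

namespace Pool.Agent.HBW

open MeasureTheory Set Filter Topology
open scoped ENNReal Real

namespace HAP_

variable {D : ℕ} {X : Type} [NormedAddCommGroup X] [NormedSpace ℝ X]

/-- waves -/
noncomputable def G (i : Fin D) (N c : ℝ) (a b : X) : P D → X :=
  fun x => Real.cos (N * (x i - c)) • a + Real.sin (N * (x i - c)) • b

theorem hasF (i : Fin D) (N c : ℝ) (a b : X) (x : P D) :
    HasFDerivAt (G i N c a b)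
      ((N • (ContinuousLinearMap.proj i : P D →L[ℝ] ℝ)).smulRight
        (Real.cos (N * (x i - c)) • b - Real.sin (N * (x i - c)) • a)) x := by
  have h0 : HasFDerivAt (fun x : P D => N * (x i - c))
      (N • (ContinuousLinearMap.proj i : P D →L[ℝ] ℝ)) x :=
    ((ContinuousLinearMap.proj (R := ℝ) (φ := fun _ : Fin D => ℝ) i).hasFDerivAt.sub_const
      c).const_mul N
  have h1 := (h0.cos.smul_const a).add (h0.sin.smul_const b)
  refine h1.congr_fderiv ?_
  ext v
  simp only [_root_.add_apply, ContinuousLinearMap.smulRight_apply,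
    _root_.smul_apply, smul_eq_mul]
  module

theorem pd_G (j i : Fin D) (N c : ℝ) (a b : X) :
    pd j (G i N c a b) = if j = i then G i N c (N • b) (-(N • a)) else G i N c 0 0 := by
  funext x
  have h : pd j (G i N c a b) x = ((Pi.single j (1 : ℝ) : P D) i * N) •
      (Real.cos (N * (x i - c)) • b - Real.sin (N * (x i - c)) • a) := by
    unfold pd
    rw [(hasF i N c a b x).fderiv]
    simp [mul_comm]
  rw [h]
  split_ifs with hj
  · subst hj
    simp only [Pi.single_eq_same, one_mul, G]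
    module
  · rw [Pi.single_eq_of_ne (Ne.symm hj)]
    simp [G]

theorem pdw_G (i : Fin D) (N c : ℝ) (hN : 0 ≤ N) (w : List (Fin D)) (a b : X) (M : ℝ)
    (ha : ‖a‖ ≤ M) (hb : ‖b‖ ≤ M) : ∃ a' b' : X, pdw w (G i N c a b) = G i N c a' b' ∧
      ‖a'‖ ≤ N ^ w.length * M ∧ ‖b'‖ ≤ N ^ w.length * M := by
  have hM : 0 ≤ M := (norm_nonneg _).trans ha
  induction w with
  | nil => exact ⟨a, b, rfl, by simpa using ha, by simpa using hb⟩
  | cons j w ih =>
    obtain ⟨a', b', h1, h2, h3⟩ := ih
    have h4 : pdw (j :: w) (G i N c a b) = pd j (G i N c a' b') := by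
      show pd j (pdw w (G i N c a b)) = _
      rw [h1]
    rw [h4, pd_G]
    split_ifs with hj
    · refine ⟨N • b', -(N • a'), rfl, ?_, ?_⟩
      · rw [norm_smul, Real.norm_of_nonneg hN, List.length_cons, pow_succ']
        calc N * ‖b'‖ ≤ N * (N ^ w.length * M) := mul_le_mul_of_nonneg_left h3 hN
          _ = _ := by ring
      · rw [norm_neg, norm_smul, Real.norm_of_nonneg hN, List.length_cons, pow_succ']
        calc N * ‖a'‖ ≤ N * (N ^ w.length * M) := mul_le_mul_of_nonneg_left h2 hN
          _ = _ := by ring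
    · refine ⟨0, 0, rfl, ?_, ?_⟩ <;> · rw [norm_zero]; positivity

theorem norm_G (i : Fin D) (N c : ℝ) (a b : X) (M : ℝ) (ha : ‖a‖ ≤ M) (hb : ‖b‖ ≤ M) (x : P D) :
    ‖G i N c a b x‖ ≤ 2 * M := by
  unfold G
  refine (norm_add_le _ _).trans ?_
  rw [norm_smul, norm_smul]
  have h1 : ‖Real.cos (N * (x i - c))‖ ≤ 1 := Real.abs_cos_le_one _
  have h2 : ‖Real.sin (N * (x i - c))‖ ≤ 1 := Real.abs_sin_le_one _
  nlinarith [norm_nonneg a, norm_nonneg b, mul_le_mul_of_nonneg_right h1 (norm_nonneg a),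
    mul_le_mul_of_nonneg_right h2 (norm_nonneg b)]

theorem smo_G (i : Fin D) (N c : ℝ) (a b : X) : Smo (G i N c a b) := by
  unfold G
  have h : ContDiff ℝ ((⊤ : ℕ∞) : WithTop ℕ∞) (fun x : P D => N * (x i - c)) :=
    contDiff_const.mul ((contDiff_apply ℝ ℝ i).sub contDiff_const)
  exact (h.cos.smul contDiff_const).add (h.sin.smul contDiff_const)

/-- the Fourier transform of the Gaussian -/
theorem fourier (i : Fin D) (τ N : ℝ) (hτ : 0 < τ) :
    ∫ z : P D, (gs τ z : ℂ) * Complex.exp (Complex.I * (N * z i : ℝ)) =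
      (Real.exp (-(N ^ 2 * τ / 4)) : ℂ) := by
  have hb : 0 < ((τ : ℂ)⁻¹).re := by
    rw [← Complex.ofReal_inv, Complex.ofReal_re]
    exact inv_pos.2 hτ
  have h := GaussianFourier.integral_cexp_neg_mul_sum_add (ι := Fin D) hb
    (Pi.single i (Complex.I * N))
  have hpos : 0 < π * τ := by positivity
  have e1 : ∀ z : P D, (gs τ z : ℂ) * Complex.exp (Complex.I * (N * z i : ℝ)) =
      (((Real.sqrt (π * τ))⁻¹ ^ D : ℝ) : ℂ) * Complex.exp (-(τ : ℂ)⁻¹ * ∑ j, (z j : ℂ) ^ 2 +
        ∑ j, (Pi.single i (Complex.I * N) : Fin D → ℂ) j * z j) := by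
    intro z
    unfold gs
    rw [Complex.exp_add]
    push_cast
    have e2 : ∑ j, (Pi.single i (Complex.I * (N : ℂ)) : Fin D → ℂ) j * (z j : ℂ) =
        Complex.I * (N * z i) := by
      rw [Finset.sum_eq_single i]
      · rw [Pi.single_eq_same]; ring
      · intro j _ hj
        rw [Pi.single_eq_of_ne hj, zero_mul]
      · intro h
        exact absurd (Finset.mem_univ _) h
    rw [e2, mul_assoc]
    congr 3
    field_simp
  simp_rw [e1]
  rw [integral_const_mul, h]
  have e3 : ∑ j, (Pi.single i (Complex.I * (N : ℂ)) : Fin D → ℂ) j ^ 2 = -(N : ℂ) ^ 2 := by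
    rw [Finset.sum_eq_single i]
    · rw [Pi.single_eq_same, mul_pow, Complex.I_sq]; ring
    · intro j _ hj
      rw [Pi.single_eq_of_ne hj]; ring
    · intro h
      exact absurd (Finset.mem_univ _) h
  have e4 : ((π : ℂ) / (τ : ℂ)⁻¹) ^ ((Fintype.card (Fin D) : ℂ) / 2) =
      ((Real.sqrt (π * τ) ^ D : ℝ) : ℂ) := by
    have e5 : (π : ℂ) / (τ : ℂ)⁻¹ = ((π * τ : ℝ) : ℂ) := by
      push_cast
      rw [div_inv_eq_mul]
    rw [e5, Fintype.card_fin]
    have e6 : ((D : ℂ) / 2) = (((D : ℝ) / 2 : ℝ) : ℂ) := by push_cast; ring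
    rw [e6, ← Complex.ofReal_cpow hpos.le]
    congr 1
    rw [Real.sqrt_eq_rpow, ← Real.rpow_natCast, ← Real.rpow_mul hpos.le]
    congr 1
    ring
  rw [e3, e4, ← mul_assoc, ← Complex.ofReal_mul, ← mul_pow, inv_mul_cancel₀
    (Real.sqrt_ne_zero'.2 hpos), one_pow, Complex.ofReal_one, one_mul, Complex.ofReal_exp]
  congr 1
  push_cast
  have : (τ : ℂ) ≠ 0 := by exact_mod_cast hτ.ne'
  field_simp

theorem ht_G [FiniteDimensional ℝ X] (hGSR : Stmt_GSR) (i : Fin D) (N c : ℝ) (a b : X) (u : ℝ)
    (hu : 0 < u) (x : P D) :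
    ht u (G i N c a b) x = Real.exp (-(u * N ^ 2)) • G i N c a b x := by
  have hτ : 0 < 4 * u := by positivity
  obtain ⟨-, -, hint, hpos⟩ := hGSR D (4 * u) hτ
  have hgi : Integrable (gs (4 * u) : P D → ℝ) := by
    by_contra h
    rw [integral_undef h] at hint
    exact zero_ne_one hint
  have hF := fourier i (4 * u) N hτ
  have hexp : Integrable (fun z : P D => (gs (4 * u) z : ℂ) *
      Complex.exp (Complex.I * (N * z i : ℝ))) := by
    refine (hgi.ofReal (𝕜 := ℂ)).mul_bdd (c := 1) ?_ ?_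
    · exact (by fun_prop : Continuous fun z : P D =>
        Complex.exp (Complex.I * (N * z i : ℝ))).aestronglyMeasurable
    · refine Filter.Eventually.of_forall fun z => ?_
      rw [mul_comm, Complex.norm_exp_ofReal_mul_I]
  have hre : ∀ z : P D, ((gs (4 * u) z : ℂ) * Complex.exp (Complex.I * (N * z i : ℝ))).re =
      gs (4 * u) z * Real.cos (N * z i) := by
    intro z
    rw [Complex.re_ofReal_mul, mul_comm Complex.I, Complex.exp_ofReal_mul_I_re]
  have him : ∀ z : P D, ((gs (4 * u) z : ℂ) * Complex.exp (Complex.I * (N * z i : ℝ))).im =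
      gs (4 * u) z * Real.sin (N * z i) := by
    intro z
    rw [Complex.im_ofReal_mul, mul_comm Complex.I, Complex.exp_ofReal_mul_I_im]
  have hcos : ∫ z : P D, gs (4 * u) z * Real.cos (N * z i) = Real.exp (-(u * N ^ 2)) := by
    have h1 := congrArg Complex.re hF
    rw [Complex.ofReal_re] at h1
    have h2 := integral_re hexp
    have h3 : ∫ z : P D, ((gs (4 * u) z : ℂ) * Complex.exp (Complex.I * (N * z i : ℝ))).re =
        Real.exp (-(N ^ 2 * (4 * u) / 4)) := by
      rw [← h1]; exact h2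
    simp_rw [hre] at h3
    rw [h3]
    congr 1
    ring
  have hsin : ∫ z : P D, gs (4 * u) z * Real.sin (N * z i) = 0 := by
    have h1 := congrArg Complex.im hF
    rw [Complex.ofReal_im] at h1
    have h2 := integral_im hexp
    have h3 : ∫ z : P D, ((gs (4 * u) z : ℂ) * Complex.exp (Complex.I * (N * z i : ℝ))).im =
        0 := by
      rw [← h1]; exact h2
    simp_rw [him] at h3
    exact h3
  have ic : Integrable (fun z : P D => gs (4 * u) z * Real.cos (N * z i)) :=
    hexp.re.congr (Filter.Eventually.of_forall hre)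
  have is : Integrable (fun z : P D => gs (4 * u) z * Real.sin (N * z i)) :=
    hexp.im.congr (Filter.Eventually.of_forall him)
  unfold ht
  rw [← integral_sub_left_eq_self (fun y => gs (4 * u) (x - y) • G i N c a b y) volume x]
  have e1 : ∀ z : P D, gs (4 * u) (x - (x - z)) • G i N c a b (x - z) =
      (gs (4 * u) z * Real.cos (N * z i)) • G i N c a b x +
      (gs (4 * u) z * Real.sin (N * z i)) • G i N c (-b) a x := by
    intro z
    rw [sub_sub_cancel]
    unfold G
    have e2 : N * ((x - z) i - c) = N * (x i - c) - N * z i := by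
      rw [Pi.sub_apply]; ring
    rw [e2, Real.cos_sub, Real.sin_sub]
    module
  simp_rw [e1]
  rw [integral_add (ic.smul_const _) (is.smul_const _), integral_smul_const, integral_smul_const,
    hcos, hsin, zero_smul, add_zero]

end HAP_

open HAP_

theorem hap_proof (_hPB1 : Stmt_PB1) (_hPB2 : Stmt_PB2) (hSUB : Stmt_SUB) (hGSR : Stmt_GSR) :
    Stmt_HAP := by
  intro D X _ _ _ A i N x0 e hA hN he
  have hpw : pw A i N x0 e = G i N (x0 i) e (-(A i e)) := by
    funext x
    simp only [pw, G, smul_neg, sub_eq_add_neg]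
  have hAe : ‖-(A i e)‖ ≤ 1 := by
    rw [norm_neg]
    calc ‖A i e‖ ≤ ‖A i‖ * ‖e‖ := (A i).le_opNorm e
      _ ≤ 1 * 1 := mul_le_mul (hA.nrm i) he (norm_nonneg _) zero_le_one
      _ = 1 := one_mul 1
  have hPoi : ∀ (a b : X) (x : P D) (y : ℝ), 0 < y →
      Poi (G i N (x0 i) a b) x y = Real.exp (-(N * y)) • G i N (x0 i) a b x := by
    intro a b x y hy
    unfold Poi
    have h1 : ∫ u in Ioi (0 : ℝ), lev y u • ht u (G i N (x0 i) a b) x =
        ∫ u in Ioi (0 : ℝ), (lev y u * Real.exp (-u * N ^ 2)) • G i N (x0 i) a b x := by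
      refine setIntegral_congr_fun measurableSet_Ioi fun u hu => ?_
      show lev y u • ht u (G i N (x0 i) a b) x = _
      rw [ht_G hGSR i N (x0 i) a b u hu x, smul_smul]
      congr 3
      ring
    rw [h1, integral_smul_const, (hSUB.1 y hy N hN.le).2]
    congr 2
    ring
  refine ⟨?_, ?_, ?_, ?_⟩
  · rw [hpw]
    exact smo_G i N (x0 i) e (-(A i e))
  · intro w x
    rw [hpw]
    obtain ⟨a', b', h1, h2, h3⟩ := pdw_G i N (x0 i) hN.le w e (-(A i e)) 1 he hAe
    rw [h1]
    have := norm_G i N (x0 i) a' b' _ h2 h3 x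
    linarith
  · intro x y hy
    have hDD : DD A (pw A i N x0 e) = G i N (x0 i) (N • e) (-(N • A i e)) := by
      funext z
      unfold DD
      rw [Finset.sum_eq_single i]
      · rw [hpw, pd_G, if_pos rfl]
        simp only [G, map_add, map_smul, map_neg, hA.sq]
        module
      · intro j _ hj
        rw [hpw, pd_G, if_neg hj]
        simp [G]
      · intro h
        exact absurd (Finset.mem_univ _) h
    rw [hDD, hPoi _ _ x y hy]
    have h1 : HasDerivAt (fun s => Real.exp (-(N * s)) • pw A i N x0 e x)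
        (-(Real.exp (-(N * y)) • G i N (x0 i) (N • e) (-(N • A i e)) x)) y := by
      have h2 : HasDerivAt (fun s : ℝ => Real.exp (-(N * s))) (Real.exp (-(N * y)) * (-N)) y := by
        have h3 : HasDerivAt (fun s : ℝ => -(N * s)) (-N) y := by
          have h5 := (hasDerivAt_id y).const_mul (-N)
          rw [mul_one] at h5
          refine h5.congr_of_eventuallyEq (Filter.Eventually.of_forall fun s => ?_)
          show -(N * s) = -N * s
          ring
        exact h3.exp
      have h4 := h2.smul_const (pw A i N x0 e x)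
      convert h4 using 1
      rw [hpw]
      simp only [G]
      module
    refine h1.congr_of_eventuallyEq ?_
    filter_upwards [Ioi_mem_nhds hy] with s hs
    rw [hpw]
    exact hPoi _ _ x s hs
  · intro x y hy
    rw [hpw]
    exact hPoi _ _ x y hy

end Pool.Agent.HBW
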