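import Pool.Agent.HBW.Stmts

/-!
Squad HBW, module IN1: one dimensional moments of the complex Gaussian.
-/

set_option autoImplicit false

namespace Pool.Agent.HBW

open MeasureTheory Set Filter Topology
open scoped ENNReal Real

noncomputable section

namespace IN1_

/-- the polynomial factors of the derivatives of the Gaussian -/
def PP (ζ : ℂ) : ℕ → Polynomial ℂ
  | 0 => Polynomial.C (((π : ℂ) * ζ) ^ (-(1 / 2) : ℂ))
  | a + 1 => Polynomial.derivative (PP ζ a) - Polynomial.C (2 / ζ) * Polynomial.X * PP ζ a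

lemma hasDeriv_gauss (ζ x : ℂ) : HasDerivAt (fun x : ℂ => Complex.exp (-x ^ 2 / ζ))
    (Complex.exp (-x ^ 2 / ζ) * (-(2 * x) / ζ)) x := by
  have h1 : HasDerivAt (fun x : ℂ => -x ^ 2 / ζ) (-(2 * x) / ζ) x := by
    have h2 := ((hasDerivAt_pow 2 x).neg).div_const ζ
    simpa using h2
  exact h1.cexp

lemma hasDeriv_rep (ζ : ℂ) (a : ℕ) (x : ℂ) :
    HasDerivAt (fun x : ℂ => (PP ζ a).eval x * Complex.exp (-x ^ 2 / ζ))
      ((PP ζ (a + 1)).eval x * Complex.exp (-x ^ 2 / ζ)) x := by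
  have h1 := ((PP ζ a).hasDerivAt x).mul (hasDeriv_gauss ζ x)
  refine h1.congr_deriv ?_
  simp only [PP, Polynomial.eval_sub, Polynomial.eval_mul, Polynomial.eval_C, Polynomial.eval_X]
  ring

lemma rep (ζ : ℂ) (a : ℕ) : iteratedDeriv a (phc ζ) =
    fun x : ℂ => (PP ζ a).eval x * Complex.exp (-x ^ 2 / ζ) := by
  induction a with
  | zero =>
    rw [iteratedDeriv_zero]
    funext x
    simp only [PP, Polynomial.eval_C, phc]
  | succ a ih =>
    rw [iteratedDeriv_succ, ih]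
    funext x
    exact (hasDeriv_rep ζ a x).deriv

lemma inv_re {ζ : ℂ} (hζ : 0 < ζ.re) : 0 < (ζ⁻¹).re := by
  rw [Complex.inv_re]
  have h0 : ζ ≠ 0 := by
    intro h
    rw [h] at hζ
    simp at hζ
  exact div_pos hζ (Complex.normSq_pos.2 h0)

lemma int_pow {ζ : ℂ} (hζ : 0 < ζ.re) (n : ℕ) :
    Integrable (fun t : ℝ => (t : ℂ) ^ n * Complex.exp (-(t : ℂ) ^ 2 / ζ)) := by
  have h1 : Integrable (fun t : ℝ => t ^ (n : ℝ) * Real.exp (-(ζ⁻¹).re * t ^ 2)) :=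
    integrable_rpow_mul_exp_neg_mul_sq (inv_re hζ) (by
      have : (0 : ℝ) ≤ n := Nat.cast_nonneg n
      linarith)
  simp only [Real.rpow_natCast] at h1
  refine Integrable.mono' h1.norm ?_ (Eventually.of_forall fun t => ?_)
  · apply Continuous.aestronglyMeasurable
    fun_prop
  · rw [norm_mul, norm_mul, norm_pow, Complex.norm_real, norm_pow, Complex.norm_exp]
    refine mul_le_mul_of_nonneg_left (le_of_eq ?_) (by positivity)
    rw [Real.norm_of_nonneg (Real.exp_pos _).le]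
    congr 1
    have h2 : -(t : ℂ) ^ 2 / ζ = ((-t ^ 2 : ℝ) : ℂ) * ζ⁻¹ := by
      push_cast
      rw [div_eq_mul_inv]
    rw [h2, Complex.re_ofReal_mul]
    ring

lemma int_poly {ζ : ℂ} (hζ : 0 < ζ.re) (p : Polynomial ℂ) :
    Integrable (fun t : ℝ => p.eval (t : ℂ) * Complex.exp (-(t : ℂ) ^ 2 / ζ)) := by
  induction p using Polynomial.induction_on' with
  | add p q hp hq =>
    refine (hp.add hq).congr (Eventually.of_forall fun t => ?_)
    simp only [Pi.add_apply, Polynomial.eval_add]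
    ring
  | monomial n c =>
    refine ((int_pow hζ n).const_mul c).congr (Eventually.of_forall fun t => ?_)
    simp only [Polynomial.eval_monomial]
    ring

lemma int_J {ζ : ℂ} (hζ : 0 < ζ.re) (a b : ℕ) :
    Integrable (fun t : ℝ => iteratedDeriv a (phc ζ) ((-t : ℝ) : ℂ) * (t : ℂ) ^ b) := by
  have h1 := int_poly hζ (((PP ζ a).comp (-Polynomial.X)) * Polynomial.X ^ b)
  refine h1.congr (Eventually.of_forall fun t => ?_)
  simp only [rep, Polynomial.eval_mul, Polynomial.eval_comp, Polynomial.eval_neg,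
    Polynomial.eval_X, Polynomial.eval_pow]
  push_cast
  rw [neg_sq]
  ring

/-- the moments -/
def J (ζ : ℂ) (a b : ℕ) : ℂ := ∫ t : ℝ, iteratedDeriv a (phc ζ) ((-t : ℝ) : ℂ) * (t : ℂ) ^ b

lemma hasDeriv_t (ζ : ℂ) (a b : ℕ) (t : ℝ) :
    HasDerivAt (fun t : ℝ => iteratedDeriv a (phc ζ) ((-t : ℝ) : ℂ) * (t : ℂ) ^ b)
      (-(iteratedDeriv (a + 1) (phc ζ) ((-t : ℝ) : ℂ) * (t : ℂ) ^ b) +
        b * (iteratedDeriv a (phc ζ) ((-t : ℝ) : ℂ) * (t : ℂ) ^ (b - 1))) t := by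
  have h1 : HasDerivAt (iteratedDeriv a (phc ζ)) (iteratedDeriv (a + 1) (phc ζ) (-(t : ℂ)))
      (-(t : ℂ)) := by
    rw [rep, rep]
    exact hasDeriv_rep ζ a _
  have h2 : HasDerivAt (fun s : ℂ => -s) (-1) (t : ℂ) := (hasDerivAt_id (t : ℂ)).neg
  have h3 : HasDerivAt (fun s : ℂ => iteratedDeriv a (phc ζ) (-s))
      (iteratedDeriv (a + 1) (phc ζ) (-(t : ℂ)) * (-1)) (t : ℂ) := HasDerivAt.comp _ h1 h2
  have h4 : HasDerivAt (fun s : ℂ => s ^ b) (b * (t : ℂ) ^ (b - 1)) (t : ℂ) :=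
    hasDerivAt_pow b (t : ℂ)
  have h5 := (h3.mul h4).comp_ofReal
  have h6 : (fun y : ℝ => iteratedDeriv a (phc ζ) (-(y : ℂ)) * (y : ℂ) ^ b) =
      fun t : ℝ => iteratedDeriv a (phc ζ) ((-t : ℝ) : ℂ) * (t : ℂ) ^ b := by
    funext y
    push_cast
    rfl
  have h7 : HasDerivAt (fun t : ℝ => iteratedDeriv a (phc ζ) ((-t : ℝ) : ℂ) * (t : ℂ) ^ b)
      (iteratedDeriv (a + 1) (phc ζ) (-(t : ℂ)) * (-1) * (t : ℂ) ^ b +
        iteratedDeriv a (phc ζ) (-(t : ℂ)) * (b * (t : ℂ) ^ (b - 1))) t := by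
    rw [← h6]
    exact h5
  refine h7.congr_deriv ?_
  push_cast
  ring

lemma J_rec {ζ : ℂ} (hζ : 0 < ζ.re) (a b : ℕ) : J ζ (a + 1) b = b * J ζ a (b - 1) := by
  have i1 := int_J hζ (a + 1) b
  have i2 := (int_J hζ a (b - 1)).const_mul (b : ℂ)
  have h := integral_eq_zero_of_hasDerivAt_of_integrable (hasDeriv_t ζ a b)
    (i1.neg.add i2) (int_J hζ a b)
  have h2 : (∫ t : ℝ, (-(iteratedDeriv (a + 1) (phc ζ) ((-t : ℝ) : ℂ) * (t : ℂ) ^ b) +
      b * (iteratedDeriv a (phc ζ) ((-t : ℝ) : ℂ) * (t : ℂ) ^ (b - 1)))) =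
      -J ζ (a + 1) b + b * J ζ a (b - 1) := by
    unfold J
    rw [← integral_neg, ← integral_const_mul]
    exact integral_add i1.neg i2
  rw [h2] at h
  linear_combination -h

lemma J_one {ζ : ℂ} (hζ : 0 < ζ.re) (b : ℕ) : J ζ 1 b = (2 / ζ) * J ζ 0 (b + 1) := by
  unfold J
  rw [← integral_const_mul]
  refine integral_congr_ae (Eventually.of_forall fun t => ?_)
  simp only [rep, PP, Polynomial.eval_sub, Polynomial.eval_mul, Polynomial.eval_C,
    Polynomial.eval_X, Polynomial.derivative_C, Polynomial.eval_zero]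
  push_cast
  ring

lemma J_zero {ζ : ℂ} (hζ : 0 < ζ.re) : J ζ 0 0 = 1 := by
  have h0 : ζ ≠ 0 := by
    intro h
    rw [h] at hζ
    simp at hζ
  have hp : (π : ℂ) * ζ ≠ 0 := mul_ne_zero (by exact_mod_cast Real.pi_ne_zero) h0
  unfold J
  have h1 : (fun t : ℝ => iteratedDeriv 0 (phc ζ) ((-t : ℝ) : ℂ) * (t : ℂ) ^ 0) =
      fun t : ℝ => ((π : ℂ) * ζ) ^ (-(1 / 2) : ℂ) * Complex.exp (-ζ⁻¹ * (t : ℂ) ^ 2) := by
    funext t
    rw [iteratedDeriv_zero, pow_zero, mul_one]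
    unfold phc
    congr 2
    push_cast
    rw [neg_sq, div_eq_mul_inv]
    ring
  rw [h1, integral_const_mul, integral_gaussian_complex (inv_re hζ)]
  have h2 : (π : ℂ) / ζ⁻¹ = (π : ℂ) * ζ := by
    rw [div_inv_eq_mul]
  rw [h2, ← Complex.cpow_add _ _ hp]
  norm_num

lemma J_rec2 {ζ : ℂ} (hζ : 0 < ζ.re) (c : ℕ) :
    J ζ 0 (c + 2) = (c + 1) / 2 * ζ * J ζ 0 c := by
  have h0 : ζ ≠ 0 := by
    intro h
    rw [h] at hζ
    simp at hζ
  have h1 := J_one hζ (c + 1)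
  have h2 := J_rec hζ 0 (c + 1)
  rw [zero_add, h1] at h2
  have h3 : c + 1 - 1 = c := by omega
  rw [h3] at h2
  have h4 : ζ * (2 / ζ * J ζ 0 (c + 1 + 1)) = 2 * J ζ 0 (c + 1 + 1) := by
    field_simp
  have h5 : 2 * J ζ 0 (c + 1 + 1) = ζ * (((c + 1 : ℕ) : ℂ) * J ζ 0 c) := by
    rw [← h2, h4]
  push_cast at h5
  have h6 : c + 2 = c + 1 + 1 := rfl
  rw [h6]
  linear_combination h5 / 2

lemma J_01 {ζ : ℂ} (hζ : 0 < ζ.re) : J ζ 0 1 = 0 := by
  have h0 : ζ ≠ 0 := by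
    intro h
    rw [h] at hζ
    simp at hζ
  have h1 := J_one hζ 0
  have h2 := J_rec hζ 0 0
  rw [zero_add, h1] at h2
  simp only [Nat.cast_zero, zero_mul, zero_add, mul_eq_zero, div_eq_zero_iff] at h2
  rcases h2 with h2 | h2
  · rcases h2 with h2 | h2
    · norm_num at h2
    · exact absurd h2 h0
  · exact h2

lemma form0 (c : ℕ) : ∃ (m : ℂ) (j : ℕ), ‖m‖ ≤ c.factorial ∧ j ≤ c ∧ (c = 0 → m = 1 ∧ j = 0) ∧
    ∀ ζ : ℂ, 0 < ζ.re → J ζ 0 c = m * ζ ^ j := by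
  induction c using Nat.twoStepInduction with
  | zero => exact ⟨1, 0, by simp, le_rfl, fun _ => ⟨rfl, rfl⟩, fun ζ hζ => by
      rw [J_zero hζ]
      simp⟩
  | one => exact ⟨0, 0, by simp, by omega, fun h => by omega, fun ζ hζ => by
      rw [J_01 hζ]
      simp⟩
  | more c ih _ =>
    obtain ⟨m, j, h1, h2, -, h4⟩ := ih
    refine ⟨(c + 1) / 2 * m, j + 1, ?_, by omega, fun h => by omega, fun ζ hζ => ?_⟩
    · rw [norm_mul]
      have e1 : ‖((c : ℂ) + 1) / 2‖ ≤ (c + 1 : ℝ) := by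
        have : ((c : ℂ) + 1) / 2 = (((c + 1 : ℝ) / 2 : ℝ) : ℂ) := by
          push_cast
          ring
        rw [this, Complex.norm_real, Real.norm_of_nonneg (by positivity)]
        have : (0 : ℝ) ≤ c := Nat.cast_nonneg c
        linarith
      have e2 : ((c + 1 : ℝ)) * c.factorial ≤ (c + 2).factorial := by
        have e3 : (c + 1) * c.factorial ≤ (c + 2).factorial := by
          rw [← Nat.factorial_succ]
          exact Nat.factorial_le (by omega)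
        exact_mod_cast e3
      exact (mul_le_mul e1 h1 (norm_nonneg _) (by positivity)).trans e2
    · rw [J_rec2 hζ, h4 ζ hζ]
      ring

lemma form (a : ℕ) : ∀ b : ℕ, ∃ (m : ℂ) (j : ℕ), ‖m‖ ≤ b.factorial ∧ j ≤ b ∧
    (a = 0 → b = 0 → m = 1 ∧ j = 0) ∧ ∀ ζ : ℂ, 0 < ζ.re → J ζ a b = m * ζ ^ j := by
  induction a with
  | zero =>
    intro b
    obtain ⟨m, j, h1, h2, h3, h4⟩ := form0 b
    exact ⟨m, j, h1, h2, fun _ h => h3 h, h4⟩
  | succ a ih =>
    intro b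
    rcases Nat.eq_zero_or_pos b with hb | hb
    · subst hb
      exact ⟨0, 0, by simp, le_rfl, fun h => by omega, fun ζ hζ => by
        rw [J_rec hζ]
        simp⟩
    · obtain ⟨b', rfl⟩ : ∃ b', b = b' + 1 := ⟨b - 1, by omega⟩
      obtain ⟨m, j, h1, h2, -, h4⟩ := ih b'
      refine ⟨((b' + 1 : ℕ) : ℂ) * m, j, ?_, by omega, fun h => by omega, fun ζ hζ => ?_⟩
      · rw [norm_mul, Complex.norm_natCast, Nat.factorial_succ]
        push_cast
        exact mul_le_mul_of_nonneg_left h1 (by positivity)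
      · rw [J_rec hζ]
        have : b' + 1 - 1 = b' := by omega
        rw [this, h4 ζ hζ]
        ring

end IN1_

/-- one dimensional moments -/
theorem in1_proof : Stmt_IN1 := by
  intro ζ a b hζ
  refine ⟨IN1_.int_J hζ a b, ?_⟩
  obtain ⟨m, j, h1, h2, h3, h4⟩ := IN1_.form a b
  exact ⟨m, j, h1, h2, h3, fun ζ' hζ' => h4 ζ' hζ'⟩

end

end Pool.Agent.HBW
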