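import Pool.Agent.HBW.Stmts

set_option autoImplicit false

namespace Pool.Agent.HBW

open MeasureTheory Set Filter Topology
open scoped ENNReal Real

noncomputable section

namespace INC_

variable {D : ℕ} {X : Type} [NormedAddCommGroup X] [NormedSpace ℝ X]

lemma pd_scale {c : ℝ} {f : P D → X} (hf : Smo f) (i : Fin D) (k : ℕ) :
    pd i (fun x => c ^ k • f (c • x)) = fun x => c ^ (k + 1) • pd i f (c • x) := by
  ext x
  have h1 : HasFDerivAt f (fderiv ℝ f (c • x)) (c • x) :=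
    ((hf.differentiable (by simp)) (c • x)).hasFDerivAt
  have h2 : HasFDerivAt (fun x : P D => c • x) (c • ContinuousLinearMap.id ℝ (P D)) x :=
    (hasFDerivAt_id x).const_smul c
  have h3 := (h1.comp x h2).const_smul (c ^ k)
  have h4 : HasFDerivAt (fun x => c ^ k • f (c • x))
      (c ^ k • ((fderiv ℝ f (c • x)).comp (c • ContinuousLinearMap.id ℝ (P D)))) x := h3
  unfold pd
  rw [h4.fderiv]
  simp only [smul_apply, ContinuousLinearMap.comp_apply, ContinuousLinearMap.id_apply, map_smul]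
  rw [smul_smul, pow_succ]

lemma pdw_scale (hSMO : Stmt_SMO) (A : Fin D → (X →L[ℝ] X)) {c : ℝ} {f : P D → X} (hf : Smo f)
    (w : List (Fin D)) :
    pdw w (fun x => f (c • x)) = fun x => c ^ w.length • pdw w f (c • x) := by
  induction w with
  | nil => ext x; simp [pdw]
  | cons i w ih =>
    show pd i (pdw w (fun x => f (c • x))) = _
    rw [ih, pd_scale ((hSMO D X A f f hf hf).2.1 w) i]
    rfl

/-- crude bound for powers of the Dirac operator -/
lemma dd_bound (hSMO : Stmt_SMO) {A : Fin D → (X →L[ℝ] X)} (hA : Cliff A) {F : P D → X}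
    (hF : Smo F) {x : P D} {a δ : ℝ} {m : ℕ} (ha : 0 ≤ a)
    (hb : ∀ w : List (Fin D), w.length ≤ m → ‖pdw w F x‖ ≤ a * δ ^ w.length) (q : ℕ) :
    Smo ((DD A)^[q] F) ∧ ∀ w : List (Fin D), w.length + q ≤ m →
      ‖pdw w ((DD A)^[q] F) x‖ ≤ (D : ℝ) ^ q * (a * δ ^ (w.length + q)) := by
  induction q with
  | zero =>
    refine ⟨hF, fun w hw => ?_⟩
    simpa using hb w (by omega)
  | succ q ih =>
    obtain ⟨hs, hbd⟩ := ih
    have hS := hSMO D X A _ _ hs hs
    rw [Function.iterate_succ_apply']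
    refine ⟨hS.2.2.2.2.2.2.2.2.1, fun w hw => ?_⟩
    rw [hS.2.2.2.2.2.2.2.2.2.2.1 w]
    have h1 : DD A (pdw w ((DD A)^[q] F)) x = ∑ i, A i (pdw (i :: w) ((DD A)^[q] F) x) := rfl
    rw [h1]
    refine (norm_sum_le _ _).trans ?_
    have h2 : ∀ i ∈ (Finset.univ : Finset (Fin D)), ‖A i (pdw (i :: w) ((DD A)^[q] F) x)‖ ≤
        (D : ℝ) ^ q * (a * δ ^ (w.length + (q + 1))) := by
      intro i _
      refine ((A i).le_opNorm _).trans ?_
      have h3 := hbd (i :: w) (by simp; omega)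
      have h4 : (i :: w).length + q = w.length + (q + 1) := by simp; omega
      rw [h4] at h3
      calc ‖A i‖ * ‖pdw (i :: w) ((DD A)^[q] F) x‖ ≤ 1 * ‖pdw (i :: w) ((DD A)^[q] F) x‖ :=
            mul_le_mul_of_nonneg_right (hA.nrm i) (norm_nonneg _)
        _ ≤ _ := by rw [one_mul]; exact h3
    refine (Finset.sum_le_sum h2).trans (le_of_eq ?_)
    rw [Finset.sum_const, Finset.card_univ, Fintype.card_fin, nsmul_eq_mul]
    ring

/-- the constant in the crude bound of `LL` -/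
def C1 (n : ℕ) : ℝ :=
  ∑ q ∈ Finset.range (dm n), |bq (om n) t0 q| * ((dm n : ℝ) ^ q * dl n ^ q)

lemma dl_nonneg (n : ℕ) : 0 ≤ dl n := by unfold dl; positivity

lemma C1_nonneg (n : ℕ) : 0 ≤ C1 n := by
  unfold C1
  have := dl_nonneg n
  positivity

lemma ll_bound (hSMO : Stmt_SMO) {n : ℕ} {A : Fin (dm n) → (X →L[ℝ] X)} (hA : Cliff A)
    {F : P (dm n) → X} (hF : Smo F) {x : P (dm n)} {a : ℝ} (ha : 0 ≤ a)
    (hb : ∀ w : List (Fin (dm n)), w.length ≤ dm n → ‖pdw w F x‖ ≤ a * dl n ^ w.length) :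
    ‖LL n A F x‖ ≤ C1 n * a := by
  unfold LL C1
  refine (norm_sum_le _ _).trans ?_
  rw [Finset.sum_mul]
  apply Finset.sum_le_sum
  intro q hq
  rw [Finset.mem_range] at hq
  rw [norm_smul, Real.norm_eq_abs]
  have h1 := (dd_bound hSMO hA hF (m := dm n) ha hb q).2 [] (by simp; omega)
  have h2 : ‖((DD A)^[q] F) x‖ ≤ (dm n : ℝ) ^ q * (a * dl n ^ q) := by
    simpa [pdw] using h1
  calc |bq (om n) t0 q| * ‖((DD A)^[q] F) x‖ ≤
        |bq (om n) t0 q| * ((dm n : ℝ) ^ q * (a * dl n ^ q)) :=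
        mul_le_mul_of_nonneg_left h2 (abs_nonneg _)
    _ = _ := by ring

lemma Nj_pos {n N0 j : ℕ} (hn : 2 ≤ n) (hN : 1 ≤ N0) : 0 < (Nj n N0 j : ℝ) := by
  have : 0 < Nj n N0 j := by
    unfold Nj rho
    have : 0 < n := by omega
    positivity
  exact_mod_cast this

lemma Nj_succ (n N0 j : ℕ) : (Nj n N0 (j + 1) : ℝ) = Nj n N0 j * ((dm n : ℝ) * 2 ^ n) := by
  unfold Nj rho dm
  push_cast
  ring

lemma mem_cube {n N0 j : ℕ} (hn : 2 ≤ n) (hN : 1 ≤ N0) (k : Z (dm n)) :
    (Nj n N0 (j + 1) : ℝ)⁻¹ • zr k ∈ cube n N0 j (pr n k) := by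
  intro i
  have h0 := Nj_pos (j := j) hn hN
  have hd : 0 < (dm n : ℝ) := by
    have : 0 < dm n := by unfold dm; have : 0 < n := by omega
                          positivity
    exact_mod_cast this
  have h2 : (0 : ℝ) < 2 ^ n := by positivity
  have h3 : ((Nj n N0 (j + 1) : ℝ)⁻¹ • zr k) i = (k i : ℝ) / 2 ^ n / (dm n * Nj n N0 j) := by
    rw [Nj_succ]
    show ((Nj n N0 j : ℝ) * ((dm n : ℝ) * 2 ^ n))⁻¹ * (k i : ℝ) = _
    field_simp
  rw [h3]
  have h4 : ((pr n k i : ℤ) : ℝ) * 2 ^ n ≤ k i := by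
    have : pr n k i * 2 ^ n ≤ k i := by
      unfold pr
      exact Int.ediv_mul_le _ (by positivity)
    exact_mod_cast this
  have h5 : (k i : ℝ) ≤ (((pr n k i : ℤ) : ℝ) + 1) * 2 ^ n := by
    have : k i < (pr n k i + 1) * 2 ^ n := by
      unfold pr
      exact Int.lt_ediv_add_one_mul_self _ (by positivity)
    exact_mod_cast this.le
  constructor
  · apply div_le_div_of_nonneg_right _ (by positivity)
    rw [le_div_iff₀ h2]
    exact h4
  · apply div_le_div_of_nonneg_right _ (by positivity)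
    rw [div_le_iff₀ h2]
    exact h5

lemma mem_ZA {n : ℕ} {A : Finset (Z (dm n))} {k : Z (dm n)} (hk : k ∈ ZA n A) : pr n k ∈ A := by
  unfold ZA at hk
  rw [Finset.mem_biUnion] at hk
  obtain ⟨p, hp, hk⟩ := hk
  rw [Fintype.mem_piFinset] at hk
  have : pr n k = p := by
    funext i
    have h := hk i
    rw [Finset.mem_Ico] at h
    unfold pr
    have h2 : (0 : ℤ) < 2 ^ n := by positivity
    apply le_antisymm
    · have := Int.ediv_lt_of_lt_mul h2 h.2
      omega
    · exact Int.le_ediv_of_mul_le h2 h.1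
  rw [this]
  exact hp

/-- the coefficients of a step are bounded -/
lemma coef (hSMO : Stmt_SMO) {n : ℕ} (hn : 2 ≤ n) {A : Fin (dm n) → (X →L[ℝ] X)} {N0 : ℕ}
    {B0 : ℝ} {f : ℕ → P (dm n) → X} {S : ℕ → Finset (Z (dm n))} {a : ℕ → Z (dm n) → ℝ}
    (hA : Cliff A) (hN : 1 ≤ N0) (hc : Casc n N0 B0 A f S a) (j : ℕ)
    (k : Z (dm n)) (hk : k ∈ ZA n (S j)) :
    ‖LL n A (fun z => f j ((Nj n N0 (j + 1) : ℝ)⁻¹ • z)) (zr k)‖ ≤
      C1 n * (B0 * lam n ^ j) := by
  have hp := mem_ZA hk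
  have h0 := Nj_pos (j := j) hn hN
  have h1 := Nj_pos (j := j + 1) hn hN
  have hd : 0 < (dm n : ℝ) := by
    have : 0 < dm n := by unfold dm; have : 0 < n := by omega
                          positivity
    exact_mod_cast this
  have hb : ∀ w : List (Fin (dm n)), w.length ≤ dm n →
      ‖pdw w (fun z => f j ((Nj n N0 (j + 1) : ℝ)⁻¹ • z)) (zr k)‖ ≤
        a j (pr n k) * dl n ^ w.length := by
    intro w hw
    rw [pdw_scale hSMO A (hc.sm j) w]
    have h2 := hc.jets j _ hp _ (mem_cube (j := j) hn hN k) w hw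
    rw [norm_smul, norm_pow, norm_inv, Real.norm_of_nonneg h1.le]
    have h3 : ((Nj n N0 (j + 1) : ℝ)⁻¹) ^ w.length *
        (a j (pr n k) * (Rn n * Nj n N0 j) ^ w.length) = a j (pr n k) * dl n ^ w.length := by
      rw [mul_left_comm, ← mul_pow]
      congr 2
      rw [Nj_succ]
      have hn0 : (n : ℝ) ≠ 0 := by
        have : n ≠ 0 := by omega
        exact_mod_cast this
      unfold Rn dl dm
      push_cast
      field_simp
    rw [← h3]
    exact mul_le_mul_of_nonneg_left h2 (by positivity)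
  have hF : Smo (fun z => f j ((Nj n N0 (j + 1) : ℝ)⁻¹ • z)) :=
    (hc.sm j).comp (contDiff_const_smul _)
  refine (ll_bound hSMO hA hF (hc.nn j _) hb).trans ?_
  exact mul_le_mul_of_nonneg_left (hc.ale j _ hp) (C1_nonneg n)

theorem inc_aux (hLSK : Stmt_LSK) (hPB5 : Stmt_PB5) (hHAK : Stmt_HAK) (hHAC : Stmt_HAC)
    (hSMO : Stmt_SMO) : Stmt_INC := by
  intro n hn
  obtain ⟨C2, hC2, hL⟩ := hLSK n hn
  refine ⟨C2 * (C1 n + 1), by have := C1_nonneg n; positivity, ?_⟩
  intro X _ _ _ A N0 B0 f S a hA hN hB hc h0 hH0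
  have hC1 := C1_nonneg n
  have hlam : 0 ≤ lam n := by unfold lam; positivity
  -- the lattice sum of a step
  set G : ℕ → P (dm n) → X := fun j z => ∑ k ∈ ZA n (S j),
    kap n A (LL n A (fun z => f j ((Nj n N0 (j + 1) : ℝ)⁻¹ • z)) (zr k)) (z - zr k) with hG
  have hstep : ∀ j z, f (j + 1) z = f j z + G j ((Nj n N0 (j + 1) : ℝ) • z) := by
    intro j z
    have h1 := Nj_pos (j := j + 1) hn hN
    rw [hc.step j]
    show stp n A (S j) (fun z => f j ((Nj n N0 (j + 1) : ℝ)⁻¹ • z)) ((Nj n N0 (j + 1) : ℝ) • z) = _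
    unfold stp
    simp only [hG]
    rw [smul_smul, inv_mul_cancel₀ h1.ne', one_smul]
  have hdiff : ∀ j, (fun z => f (j + 1) z - f j z) =
      fun z => G j ((Nj n N0 (j + 1) : ℝ) • z) := by
    intro j
    funext z
    rw [hstep j z, add_sub_cancel_left]
  have hcf : ∀ j, ∀ k ∈ ZA n (S j),
      ‖LL n A (fun z => f j ((Nj n N0 (j + 1) : ℝ)⁻¹ • z)) (zr k)‖ ≤
      (C1 n + 1) * (B0 * lam n ^ j) := by
    intro j k hk
    refine (coef hSMO hn hA hN hc j k hk).trans ?_
    apply mul_le_mul_of_nonneg_right (by linarith)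
    have : 0 ≤ B0 := by linarith
    positivity
  have hapos : ∀ j, 0 ≤ (C1 n + 1) * (B0 * lam n ^ j) := by
    intro j
    have : 0 ≤ B0 := by linarith
    positivity
  have hGL : ∀ j, _ := fun j => hL X A (ZA n (S j))
    (fun k => LL n A (fun z => f j ((Nj n N0 (j + 1) : ℝ)⁻¹ • z)) (zr k))
    ((C1 n + 1) * (B0 * lam n ^ j)) hA (hcf j) (hapos j)
  have hGS : ∀ j, Smo (G j) := fun j => (hGL j).1
  have hGd : ∀ j, ∀ w : List (Fin (dm n)), w.length ≤ 7 → ∀ z,
      ‖pdw w (G j) z‖ ≤ C2 * ((C1 n + 1) * (B0 * lam n ^ j)) := fun j => (hGL j).2.1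
  have hGP : ∀ j, ∀ z, ∀ y > 0, ‖Poi (G j) z y‖ ≤ C2 * ((C1 n + 1) * (B0 * lam n ^ j)) / y :=
    fun j => (hGL j).2.2
  -- the kernel itself
  have hK : ∀ c : X, ∃ B, BC 1 B (kap n A c) := by
    intro c
    have h := hL X A {0} (fun _ => c) ‖c‖ hA (fun _ _ => le_rfl) (norm_nonneg _)
    have e : (fun z : P (dm n) => ∑ k ∈ ({0} : Finset (Z (dm n))), kap n A c (z - zr k)) =
        kap n A c := by
      funext z
      rw [Finset.sum_singleton]
      have : zr (0 : Z (dm n)) = 0 := by funext i; simp [zr]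
      rw [this, sub_zero]
    rw [e] at h
    exact ⟨C2 * ‖c‖, ⟨h.1.of_le (by exact_mod_cast le_top),
      fun w hw x => h.2.1 w (by omega) x⟩⟩
  have hKt : ∀ (c : X) (k : Z (dm n)), Hardy A (fun z => kap n A c (z - zr k)) := by
    intro c k
    obtain ⟨B, hB⟩ := hK c
    have := (hHAC (dm n) X A).2.1 (kap n A c) B 1 (zr k) hB one_pos (hHAK n hn X A c hA)
    simpa using this
  have hsum : ∀ (T : Finset (Z (dm n))) (c : Z (dm n) → X),
      (∃ B, BC 1 B (fun z => ∑ k ∈ T, kap n A (c k) (z - zr k))) ∧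
      Hardy A (fun z => ∑ k ∈ T, kap n A (c k) (z - zr k)) := by
    intro T c
    have hbc : ∀ T : Finset (Z (dm n)), ∃ B, BC 1 B (fun z => ∑ k ∈ T, kap n A (c k) (z - zr k)) := by
      intro T
      have hM : ∀ k ∈ T, ‖c k‖ ≤ ∑ k ∈ T, ‖c k‖ := fun k hk =>
        Finset.single_le_sum (f := fun k => ‖c k‖) (fun _ _ => norm_nonneg _) hk
      have h := hL X A T c (∑ k ∈ T, ‖c k‖) hA hM (Finset.sum_nonneg fun _ _ => norm_nonneg _)
      exact ⟨C2 * ∑ k ∈ T, ‖c k‖, ⟨h.1.of_le (by exact_mod_cast le_top),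
        fun w hw x => h.2.1 w (by omega) x⟩⟩
    refine ⟨hbc T, ?_⟩
    classical
    induction T using Finset.induction_on with
    | empty =>
      obtain ⟨B, hB⟩ := hK 0
      have h := ((hHAC (dm n) X A).1 (kap n A 0) (kap n A 0) B hB hB (hHAK n hn X A 0 hA)
        (hHAK n hn X A 0 hA)).2 0
      have e : (fun z : P (dm n) => ∑ k ∈ (∅ : Finset (Z (dm n))), kap n A (c k) (z - zr k)) =
          fun x => (0 : ℝ) • kap n A 0 x := by
        funext z; simp
      rw [e]
      exact h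
    | insert k T hk ih =>
      obtain ⟨B1, hB1⟩ := hbc T
      obtain ⟨B2, hB2⟩ := hbc {k}
      have e2 : (fun z : P (dm n) => ∑ l ∈ ({k} : Finset (Z (dm n))), kap n A (c l) (z - zr l)) =
          fun z => kap n A (c k) (z - zr k) := by
        funext z; simp
      rw [e2] at hB2
      have m1 : BC 1 (max B1 B2) (fun z => ∑ k ∈ T, kap n A (c k) (z - zr k)) :=
        ⟨hB1.sm, fun w hw x => (hB1.bd w hw x).trans (le_max_left _ _)⟩
      have m2 : BC 1 (max B1 B2) (fun z => kap n A (c k) (z - zr k)) :=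
        ⟨hB2.sm, fun w hw x => (hB2.bd w hw x).trans (le_max_right _ _)⟩
      have h := ((hHAC (dm n) X A).1 _ _ (max B1 B2) m2 m1 (hKt (c k) k) ih).1
      have e : (fun z : P (dm n) => ∑ l ∈ insert k T, kap n A (c l) (z - zr l)) =
          fun x => kap n A (c k) (x - zr k) + ∑ l ∈ T, kap n A (c l) (x - zr l) := by
        funext z
        rw [Finset.sum_insert hk]
      rw [e]
      exact h
  have hGH : ∀ j, Hardy A (G j) := fun j => (hsum _ _).2
  have hGBC : ∀ j, ∃ B, BC 1 B (G j) := fun j => (hsum _ _).1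
  -- induction for the last two claims
  have hind : ∀ j, Hardy A (f j) ∧ ∃ B, BC 1 B (f j) := by
    intro j
    induction j with
    | zero => exact ⟨hH0, h0⟩
    | succ j ih =>
      obtain ⟨ih1, B1, hB1⟩ := ih
      obtain ⟨B2, hB2⟩ := hGBC j
      have h1 := Nj_pos (j := j + 1) hn hN
      have hs : Hardy A (fun x => G j ((Nj n N0 (j + 1) : ℝ) • x)) := by
        have := (hHAC (dm n) X A).2.1 (G j) B2 (Nj n N0 (j + 1)) 0 hB2 h1 (hGH j)
        simpa using this
      have hsB : BC 1 (B2 * max 1 (Nj n N0 (j + 1) : ℝ)) (fun x => G j ((Nj n N0 (j + 1) : ℝ) • x)) := by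
        have hB20 : 0 ≤ B2 := (norm_nonneg _).trans (hB2.bd [] (by simp) 0)
        refine ⟨hB2.sm.comp (contDiff_const_smul _), fun w hw x => ?_⟩
        rw [pdw_scale hSMO A (hGS j) w, norm_smul, norm_pow, Real.norm_of_nonneg h1.le, mul_comm]
        apply mul_le_mul (hB2.bd w hw _) _ (by positivity) hB20
        rcases Nat.lt_or_ge w.length 1 with h | h
        · have : w.length = 0 := by omega
          rw [this, pow_zero]
          exact le_max_left _ _
        · have : w.length = 1 := by omega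
          rw [this, pow_one]
          exact le_max_right _ _
      have e : f (j + 1) = fun x => f j x + G j ((Nj n N0 (j + 1) : ℝ) • x) := funext (hstep j)
      set M := max B1 (B2 * max 1 (Nj n N0 (j + 1) : ℝ)) with hM
      have m1 : BC 1 M (f j) := ⟨hB1.sm, fun w hw x => (hB1.bd w hw x).trans (le_max_left _ _)⟩
      have m2 : BC 1 M (fun x => G j ((Nj n N0 (j + 1) : ℝ) • x)) :=
        ⟨hsB.sm, fun w hw x => (hsB.bd w hw x).trans (le_max_right _ _)⟩
      constructor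
      · rw [e]
        exact ((hHAC (dm n) X A).1 _ _ M m1 m2 ih1 hs).1
      · refine ⟨M + M, ?_⟩
        rw [e]
        refine ⟨m1.sm.add m2.sm, fun w hw x => ?_⟩
        have hGs : Smo (fun x => G j ((Nj n N0 (j + 1) : ℝ) • x)) :=
          (hGS j).comp (contDiff_const_smul _)
        have hadd := (hSMO (dm n) X A (f j) (fun x => G j ((Nj n N0 (j + 1) : ℝ) • x)) (hc.sm j)
          hGs).2.2.2.2.2.1 w
        rw [hadd]
        exact (norm_add_le _ _).trans (add_le_add (m1.bd w hw x) (m2.bd w hw x))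
  intro j
  have h1 := Nj_pos (j := j + 1) hn hN
  refine ⟨?_, ?_, (hind j).1, (hind j).2⟩
  · intro w hw x
    rw [hdiff j, pdw_scale hSMO A (hGS j) w, norm_smul, norm_pow, Real.norm_of_nonneg h1.le]
    have := mul_le_mul_of_nonneg_left (hGd j w hw ((Nj n N0 (j + 1) : ℝ) • x))
      (pow_nonneg h1.le w.length)
    refine this.trans (le_of_eq ?_)
    ring
  · intro x y hy
    rw [hdiff j]
    have hb : ∀ z, ‖G j z‖ ≤ C2 * ((C1 n + 1) * (B0 * lam n ^ j)) := fun z => by
      have := hGd j [] (by simp) z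
      simpa [pdw] using this
    have h5 := hPB5 (dm n) X (G j) _ (Nj n N0 (j + 1)) 0 x y (hGS j).continuous hb h1 hy
    simp only [sub_zero] at h5
    rw [h5]
    refine (hGP j _ _ (mul_pos h1 hy)).trans (le_of_eq ?_)
    ring

end INC_

theorem inc_proof (hLSK : Stmt_LSK) (hPB5 : Stmt_PB5) (_hPB2 : Stmt_PB2) (hHAK : Stmt_HAK)
    (hHAC : Stmt_HAC) (hSMO : Stmt_SMO) : Stmt_INC :=
  INC_.inc_aux hLSK hPB5 hHAK hHAC hSMO

end

end Pool.Agent.HBW
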