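import Pool.Agent.HBW.Stmts

/-!
# Squad HBW, module K2P: the scalar kernel is a Laplacian of a decaying function
-/

set_option autoImplicit false

namespace Pool.Agent.HBW

open MeasureTheory Set Filter Topology
open scoped ENNReal Real

noncomputable section

namespace K2P_

theorem phc_x (ζ x : ℂ) : HasDerivAt (phc ζ) (-(2 * x) / ζ * phc ζ x) x := by
  have h : HasDerivAt (fun x : ℂ => ((π : ℂ) * ζ) ^ (-(1 / 2) : ℂ) * Complex.exp (-x ^ 2 / ζ))
      (((π : ℂ) * ζ) ^ (-(1 / 2) : ℂ) * (Complex.exp (-x ^ 2 / ζ) * (-(2 * x) / ζ))) x := by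
    apply HasDerivAt.const_mul
    apply HasDerivAt.cexp
    apply HasDerivAt.div_const
    have := ((hasDerivAt_pow 2 x).fun_neg)
    simpa using this
  have e : phc ζ = fun x : ℂ => ((π : ℂ) * ζ) ^ (-(1 / 2) : ℂ) * Complex.exp (-x ^ 2 / ζ) := rfl
  rw [e]
  apply h.congr_deriv
  ring

theorem phc_x2 (ζ x : ℂ) : iteratedDeriv 2 (phc ζ) x = (-2 / ζ + 4 * x ^ 2 / ζ ^ 2) * phc ζ x := by
  have h1 : deriv (phc ζ) = fun x => -(2 * x) / ζ * phc ζ x := by
    funext y
    exact (phc_x ζ y).deriv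
  rw [iteratedDeriv_succ, iteratedDeriv_one, h1]
  have h2 : HasDerivAt (fun x : ℂ => -(2 * x) / ζ) (-2 / ζ) x := by
    apply HasDerivAt.div_const
    have := ((hasDerivAt_id x).const_mul 2).fun_neg
    simpa using this
  rw [(h2.fun_mul (phc_x ζ x)).deriv]
  ring

theorem phc_z (ζ x : ℂ) (hζ : 0 < ζ.re) : HasDerivAt (fun ζ => phc ζ x)
    (1 / 4 * iteratedDeriv 2 (phc ζ) x) ζ := by
  have h0 : ζ ≠ 0 := by
    rintro rfl
    simp at hζ
  have hp : ((π : ℝ) : ℂ) ≠ 0 := by exact_mod_cast Real.pi_ne_zero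
  have h1 : HasDerivAt (fun ζ : ℂ => ((π : ℂ) * ζ)) (π : ℂ) ζ := by
    simpa using (hasDerivAt_id ζ).const_mul (π : ℂ)
  have hs : ((π : ℂ) * ζ) ∈ Complex.slitPlane := by
    left
    rw [Complex.re_ofReal_mul]
    positivity
  have h2 := h1.cpow_const (c := (-(1 / 2) : ℂ)) hs
  have h3 : HasDerivAt (fun ζ : ℂ => Complex.exp (-x ^ 2 / ζ))
      (Complex.exp (-x ^ 2 / ζ) * (x ^ 2 / ζ ^ 2)) ζ := by
    apply HasDerivAt.cexp
    have := (hasDerivAt_inv h0).const_mul (-x ^ 2)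
    apply (this.congr_deriv _).congr_of_eventuallyEq
    · apply Eventually.of_forall
      intro y
      simp [div_eq_mul_inv]
    · field_simp
  have h4 := h2.mul h3
  refine (h4.congr_deriv ?_)
  rw [phc_x2, Complex.cpow_sub _ _ (mul_ne_zero hp h0), Complex.cpow_one]
  unfold phc
  field_simp
  ring

variable {D : ℕ}

theorem gw_nil (ζ : ℂ) (z : P D) : gw [] ζ z = ∏ i, phc ζ (z i : ℂ) := by
  unfold gw
  simp

theorem gw_two (ζ : ℂ) (z : P D) (i : Fin D) : gw [i, i] ζ z =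
    (∏ j ∈ Finset.univ.erase i, phc ζ (z j : ℂ)) * iteratedDeriv 2 (phc ζ) (z i : ℂ) := by
  unfold gw
  rw [← Finset.prod_erase_mul _ _ (Finset.mem_univ i)]
  congr 1
  · apply Finset.prod_congr rfl
    intro j hj
    have hji : i ≠ j := fun h => (Finset.ne_of_mem_erase hj) h.symm
    have : List.count j [i, i] = 0 := by
      rw [List.count_eq_zero]
      simp [hji.symm]
    rw [this]
    simp
  · have : List.count i [i, i] = 2 := by simp
    rw [this]

theorem heat (ζ : ℂ) (z : P D) (hζ : 0 < ζ.re) :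
    HasDerivAt (fun ζ => gw [] ζ z) (1 / 4 * ∑ i, gw [i, i] ζ z) ζ := by
  have h : HasDerivAt (fun ζ => ∏ i, phc ζ (z i : ℂ))
      (∑ i, (∏ j ∈ Finset.univ.erase i, phc ζ (z j : ℂ)) •
        (1 / 4 * iteratedDeriv 2 (phc ζ) (z i : ℂ))) ζ :=
    HasDerivAt.fun_finsetProd fun i _ => phc_z ζ (z i : ℂ) hζ
  have e : (fun ζ => gw [] ζ z) = fun ζ => ∏ i, phc ζ (z i : ℂ) := by
    funext ζ
    exact gw_nil ζ z
  rw [e]
  apply h.congr_deriv
  rw [Finset.mul_sum]
  apply Finset.sum_congr rfl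
  intro i _
  rw [gw_two, smul_eq_mul]
  ring


theorem norm_sq_le (z : P D) : ‖z‖ ^ 2 ≤ ∑ i, z i ^ 2 := by
  have h0 : 0 ≤ ∑ i, z i ^ 2 := Finset.sum_nonneg fun i _ => sq_nonneg _
  have h1 : ‖z‖ ≤ Real.sqrt (∑ i, z i ^ 2) := by
    rw [pi_norm_le_iff_of_nonneg (Real.sqrt_nonneg _)]
    intro i
    rw [Real.norm_eq_abs, ← Real.sqrt_sq_eq_abs]
    apply Real.sqrt_le_sqrt
    exact Finset.single_le_sum (f := fun i => z i ^ 2) (fun i _ => sq_nonneg _)
      (Finset.mem_univ i)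
  calc ‖z‖ ^ 2 ≤ (Real.sqrt (∑ i, z i ^ 2)) ^ 2 := by
        apply pow_le_pow_left₀ (norm_nonneg _) h1
    _ = _ := Real.sq_sqrt h0

/-- bound of `gw` on the region -/
theorem gw_bd (hGWB : Stmt_GWB) (m B : ℝ) (hm : 0 < m) (hB : 0 < B) (w : List (Fin D)) :
    ∃ C : ℝ, 0 ≤ C ∧ ∀ ζ : ℂ, m ≤ ζ.re → ‖ζ‖ ≤ B → ∀ z : P D,
      ‖gw w ζ z‖ ≤ C * (1 + ‖z‖) ^ (-(2 * (D : ℤ))) := by
  obtain ⟨κ, hκ⟩ : ∃ κ, κ = m / B ^ 2 := ⟨_, rfl⟩
  have hκ0 : 0 < κ := by rw [hκ]; positivity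
  refine ⟨w.length.factorial * (1 : ℝ)⁻¹ ^ w.length * (Real.sqrt (π * m))⁻¹ ^ D *
    (Real.exp (D * (2 / (κ * m ^ 2) + 1 / m)) * Real.exp (2 * D ^ 2 / κ)), by positivity, ?_⟩
  intro ζ h1 h2 z
  have hre : 0 < ζ.re := lt_of_lt_of_le hm h1
  have hz0 : ζ ≠ 0 := by
    rintro rfl
    simp at hre
  have h3 : m ≤ ‖ζ‖ := h1.trans ((le_abs_self _).trans (Complex.abs_re_le_norm ζ))
  have h4 : κ ≤ (ζ⁻¹).re := by
    rw [hκ, Complex.inv_re, Complex.normSq_eq_norm_sq]
    have h5 : 0 < ‖ζ‖ ^ 2 := by positivity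
    have h6 : ‖ζ‖ ^ 2 ≤ B ^ 2 := pow_le_pow_left₀ (norm_nonneg _) h2 2
    exact div_le_div₀ hre.le h1 h5 h6
  have h7 := hGWB D ζ κ m 1 w z hm h3 hre h4 one_pos
  refine h7.trans ?_
  have h8 : (∑ i, (-κ * z i ^ 2 + (2 * |z i| * 1 + 1 ^ 2) / m)) ≤
      D * (2 / (κ * m ^ 2) + 1 / m) + (2 * D ^ 2 / κ - 2 * D * ‖z‖) := by
    have h9 : (∑ i, (-κ * z i ^ 2 + (2 * |z i| * 1 + 1 ^ 2) / m)) ≤
        ∑ i : Fin D, ((2 / (κ * m ^ 2) + 1 / m) - κ / 2 * z i ^ 2) := by
      apply Finset.sum_le_sum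
      intro i _
      have h10 : 0 ≤ κ / 2 * (|z i| - 2 / (κ * m)) ^ 2 := by positivity
      have h11 : κ / 2 * (|z i| - 2 / (κ * m)) ^ 2 =
          κ / 2 * z i ^ 2 - 2 * |z i| / m + 2 / (κ * m ^ 2) := by
        rw [← sq_abs (z i)]
        field_simp
        ring
      rw [h11] at h10
      have h12 : (2 * |z i| * 1 + 1 ^ 2) / m = 2 * |z i| / m + 1 / m := by
        field_simp
      rw [h12]
      linarith
    refine h9.trans ?_
    rw [Finset.sum_sub_distrib, ← Finset.mul_sum, Finset.sum_const, Finset.card_univ,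
      Fintype.card_fin, nsmul_eq_mul]
    have h13 := norm_sq_le z
    have h14 : 0 ≤ κ / 2 * (‖z‖ - 2 * D / κ) ^ 2 := by positivity
    have h15 : κ / 2 * (‖z‖ - 2 * D / κ) ^ 2 =
        κ / 2 * ‖z‖ ^ 2 - 2 * D * ‖z‖ + 2 * D ^ 2 / κ := by
      field_simp
      ring
    rw [h15] at h14
    have h16 : κ / 2 * ‖z‖ ^ 2 ≤ κ / 2 * ∑ i, z i ^ 2 :=
      mul_le_mul_of_nonneg_left h13 (by positivity)
    linarith
  have h17 : Real.exp (∑ i, (-κ * z i ^ 2 + (2 * |z i| * 1 + 1 ^ 2) / m)) ≤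
      Real.exp (D * (2 / (κ * m ^ 2) + 1 / m)) * Real.exp (2 * D ^ 2 / κ) *
        (1 + ‖z‖) ^ (-(2 * (D : ℤ))) := by
    have h18 : Real.exp (-(2 * D * ‖z‖)) ≤ (1 + ‖z‖) ^ (-(2 * (D : ℤ))) := by
      have h19 : (1 + ‖z‖) ^ (2 * D) ≤ Real.exp (2 * D * ‖z‖) := by
        have h20 : 1 + ‖z‖ ≤ Real.exp ‖z‖ := by
          rw [add_comm]
          exact Real.add_one_le_exp _
        calc (1 + ‖z‖) ^ (2 * D) ≤ (Real.exp ‖z‖) ^ (2 * D) :=
              pow_le_pow_left₀ (by positivity) h20 _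
          _ = _ := by
              rw [← Real.exp_nat_mul]
              push_cast
              ring_nf
      have h21 : (1 + ‖z‖) ^ (-(2 * (D : ℤ))) = ((1 + ‖z‖) ^ (2 * D))⁻¹ := by
        rw [zpow_neg]
        congr 1
      rw [h21, Real.exp_neg]
      exact inv_anti₀ (by positivity) h19
    calc _ ≤ Real.exp (D * (2 / (κ * m ^ 2) + 1 / m) + (2 * D ^ 2 / κ - 2 * D * ‖z‖)) :=
          Real.exp_le_exp.mpr h8
      _ = Real.exp (D * (2 / (κ * m ^ 2) + 1 / m)) * Real.exp (2 * D ^ 2 / κ) *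
          Real.exp (-(2 * D * ‖z‖)) := by
          rw [← Real.exp_add, ← Real.exp_add]
          congr 1
          ring
      _ ≤ _ := mul_le_mul_of_nonneg_left h18 (by positivity)
  calc _ ≤ w.length.factorial * (1 : ℝ)⁻¹ ^ w.length * (Real.sqrt (π * m))⁻¹ ^ D *
      (Real.exp (D * (2 / (κ * m ^ 2) + 1 / m)) * Real.exp (2 * D ^ 2 / κ) *
        (1 + ‖z‖) ^ (-(2 * (D : ℤ)))) := mul_le_mul_of_nonneg_left h17 (by positivity)
    _ = _ := by ring

/-- the coordinate maps -/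
def Li (Y : Type) [NormedAddCommGroup Y] [NormedSpace ℝ Y] (i : Fin D) : Y →L[ℝ] (P D →L[ℝ] Y) :=
  ContinuousLinearMap.smulRightL ℝ (P D) Y (ContinuousLinearMap.proj i)

theorem Li_apply {Y : Type} [NormedAddCommGroup Y] [NormedSpace ℝ Y] (i : Fin D) (y : Y)
    (v : P D) : Li Y i y v = v i • y := by
  unfold Li
  simp

/-- families closed under derivatives are smooth -/
theorem fam {Y : Type} [NormedAddCommGroup Y] [NormedSpace ℝ Y] (F : List (Fin D) → P D → Y)
    (h : ∀ w x, HasFDerivAt (F w) (∑ i, Li Y i (F (i :: w) x)) x) (w : List (Fin D)) :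
    Smo (F w) ∧ ∀ i, pd i (F w) = F (i :: w) := by
  constructor
  · have hk : ∀ k : ℕ, ∀ w, ContDiff ℝ k (F w) := by
      intro k
      induction k with
      | zero =>
        intro w
        have : Continuous (F w) := by
          rw [continuous_iff_continuousAt]
          intro x
          exact HasFDerivAt.continuousAt (𝕜 := ℝ) (h w x)
        simpa using (contDiff_zero (𝕜 := ℝ)).mpr this
      | succ k ih =>
        intro w
        have : ContDiff ℝ ((k : WithTop ℕ∞) + 1) (F w) := by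
          rw [contDiff_succ_iff_hasFDerivAt]
          refine ⟨fun x => ∑ i, Li Y i (F (i :: w) x), ?_, h w⟩
          apply ContDiff.sum
          intro i _
          exact (Li Y i).contDiff.comp (ih (i :: w))
        exact_mod_cast this
    exact contDiff_infty.mpr fun k => hk k w
  · intro i
    funext x
    unfold pd
    rw [(h w x).fderiv]
    simp [Li_apply, Pi.single_apply]

theorem gw_deriv (hGWD : Stmt_GWD) (w : List (Fin D)) (ζ : ℂ) (x : P D) :
    HasFDerivAt (gw w ζ) (∑ i, Li ℂ i (gw (i :: w) ζ x)) x := by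
  obtain ⟨h1, h2, -⟩ := hGWD D ζ w
  have h3 : DifferentiableAt ℝ (gw w ζ) x := (h1.differentiable (by simp)) x
  have h4 : fderiv ℝ (gw w ζ) x = ∑ i, Li ℂ i (gw (i :: w) ζ x) := by
    ext v
    have h5 := LinearMap.pi_apply_eq_sum_univ (fderiv ℝ (gw w ζ) x : P D →ₗ[ℝ] ℂ) v
    have h6 : ∀ i : Fin D, (fun j => if i = j then (1 : ℝ) else 0) = Pi.single i 1 := by
      intro i
      funext j
      simp [Pi.single_apply, eq_comm]
    simp only [h6, ContinuousLinearMap.coe_coe] at h5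
    rw [h5, _root_.sum_apply]
    apply Finset.sum_congr rfl
    intro i _
    rw [Li_apply, ← h2 i]
    rfl
  rw [← h4]
  exact h3.hasFDerivAt

/-- the integrals -/
def HH (S : Set (ℝ × ℝ)) (c ζ : ℝ × ℝ → ℂ) (w : List (Fin D)) (z : P D) : ℂ :=
  ∫ a in S, c a * gw w (ζ a) z

theorem gw_cont (hGWA : Stmt_GWA) (m : ℝ) (hm : 0 < m) {S : Set (ℝ × ℝ)}
    (ζ : ℝ × ℝ → ℂ) (hζ : ContinuousOn ζ S) (hR : ∀ a ∈ S, m ≤ (ζ a).re)
    (w : List (Fin D)) (x : P D) : ContinuousOn (fun a => gw w (ζ a) x) S := by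
  have h1 := (hGWA D w).2
  have h2 : ContinuousOn (fun a => (ζ a, x)) S := hζ.prodMk continuousOn_const
  have h3 : MapsTo (fun a => (ζ a, x)) S {p : ℂ × P D | 0 < p.1.re} := by
    intro a ha
    have h4 : 0 < (ζ a).re := lt_of_lt_of_le hm (hR a ha)
    exact h4
  have h5 : ContinuousOn ((fun p : ℂ × P D => gw w p.1 p.2) ∘ (fun a => (ζ a, x))) S :=
    h1.comp h2 h3
  exact h5

theorem HH_deriv (hGWD : Stmt_GWD) (hGWB : Stmt_GWB) (hGWA : Stmt_GWA) (m B : ℝ) (hm : 0 < m)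
    (hB : 0 < B) {S : Set (ℝ × ℝ)} (hS : IsCompact S) (c ζ : ℝ × ℝ → ℂ) (hc : ContinuousOn c S)
    (hζ : ContinuousOn ζ S) (hR : ∀ a ∈ S, m ≤ (ζ a).re) (hR2 : ∀ a ∈ S, ‖ζ a‖ ≤ B)
    (w : List (Fin D)) (x : P D) :
    HasFDerivAt (HH S c ζ w) (∑ i, Li ℂ i (HH S c ζ (i :: w) x)) x := by
  have hcont : ∀ (w : List (Fin D)) (y : P D), ContinuousOn (fun a => c a * gw w (ζ a) y) S := fun w y =>
    hc.mul (gw_cont hGWA m hm ζ hζ hR w y)
  have hint : ∀ (w : List (Fin D)) (y : P D), IntegrableOn (fun a => c a * gw w (ζ a) y) S := fun w y =>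
    (hcont w y).integrableOn_compact hS
  obtain ⟨Cc, hCc⟩ := hS.exists_bound_of_continuousOn hc
  have hb : ∀ i : Fin D, ∃ C : ℝ, 0 ≤ C ∧ ∀ ζ : ℂ, m ≤ ζ.re → ‖ζ‖ ≤ B → ∀ z : P D,
      ‖gw (i :: w) ζ z‖ ≤ C := by
    intro i
    obtain ⟨C, hC0, hC⟩ := gw_bd hGWB m B hm hB (i :: w)
    refine ⟨C, hC0, fun ζ h1 h2 z => (hC ζ h1 h2 z).trans ?_⟩
    have : (1 + ‖z‖) ^ (-(2 * (D : ℤ))) ≤ 1 := by
      apply zpow_le_one_of_nonpos₀
      · linarith [norm_nonneg z]
      · omega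
    nlinarith
  choose Cw hCw0 hCw using hb
  have hF'c : ContinuousOn (fun a => c a • ∑ i, Li ℂ i (gw (i :: w) (ζ a) x)) S := by
    apply hc.smul
    apply continuousOn_finsetSum
    intro i _
    exact (Li ℂ i).continuous.comp_continuousOn (gw_cont hGWA m hm ζ hζ hR (i :: w) x)
  have key := hasFDerivAt_integral_of_dominated_of_fderiv_le (μ := volume.restrict S)
    (F := fun y a => c a * gw w (ζ a) y)
    (F' := fun y a => c a • ∑ i, Li ℂ i (gw (i :: w) (ζ a) y))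
    (x₀ := x) (s := univ) (bound := fun _ => |Cc| * ∑ i, ‖Li (D := D) ℂ i‖ * Cw i)
    univ_mem (Eventually.of_forall fun y => (hint w y).aestronglyMeasurable) (hint w x)
    (hF'c.aestronglyMeasurable hS.measurableSet)
    (by
      rw [ae_restrict_iff' hS.measurableSet]
      apply Eventually.of_forall
      intro a ha y _
      rw [norm_smul]
      apply mul_le_mul ((hCc a ha).trans (le_abs_self _)) _ (norm_nonneg _) (abs_nonneg _)
      refine (norm_sum_le _ _).trans ?_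
      apply Finset.sum_le_sum
      intro i _
      refine ((Li (D := D) ℂ i).le_opNorm _).trans ?_
      exact mul_le_mul_of_nonneg_left (hCw i (ζ a) (hR a ha) (hR2 a ha) y) (norm_nonneg _))
    (integrableOn_const hS.measure_lt_top.ne enorm_ne_top)
    (by
      apply Eventually.of_forall
      intro a y _
      have := (gw_deriv hGWD w (ζ a) y).fun_const_smul (c a)
      simpa only [smul_eq_mul] using this)
  have e : (∫ a in S, c a • ∑ i, Li ℂ i (gw (i :: w) (ζ a) x)) =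
      ∑ i, Li ℂ i (HH S c ζ (i :: w) x) := by
    have e1 : ∀ a, c a • ∑ i, Li ℂ i (gw (i :: w) (ζ a) x) =
        ∑ i, Li ℂ i (c a * gw (i :: w) (ζ a) x) := by
      intro a
      rw [Finset.smul_sum]
      apply Finset.sum_congr rfl
      intro i _
      ext v
      simp [Li_apply]
      ring
    simp only [e1]
    rw [integral_finsetSum]
    · apply Finset.sum_congr rfl
      intro i _
      exact (Li ℂ i).integral_comp_comm (hint (i :: w) x)
    · intro i _
      exact (Li ℂ i).integrable_comp (hint (i :: w) x)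
  rw [e] at key
  exact key


theorem HH_bd (hGWB : Stmt_GWB) (m B : ℝ) (hm : 0 < m)
    (hB : 0 < B) {S : Set (ℝ × ℝ)} (hS : IsCompact S) (c ζ : ℝ × ℝ → ℂ) (hc : ContinuousOn c S)
    (hR : ∀ a ∈ S, m ≤ (ζ a).re) (hR2 : ∀ a ∈ S, ‖ζ a‖ ≤ B)
    (w : List (Fin D)) : ∃ C : ℝ, 0 ≤ C ∧ ∀ z : P D,
      ‖HH S c ζ w z‖ ≤ C * (1 + ‖z‖) ^ (-(2 * (D : ℤ))) := by
  obtain ⟨Cc, hCc⟩ := hS.exists_bound_of_continuousOn hc
  obtain ⟨C, hC0, hC⟩ := gw_bd hGWB m B hm hB w
  refine ⟨|Cc| * C * volume.real S, by positivity, fun z => ?_⟩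
  have h1 : ‖HH S c ζ w z‖ ≤ (|Cc| * (C * (1 + ‖z‖) ^ (-(2 * (D : ℤ))))) * volume.real S := by
    apply norm_setIntegral_le_of_norm_le_const hS.measure_lt_top
    intro a ha
    rw [norm_mul]
    exact mul_le_mul ((hCc a ha).trans (le_abs_self _)) (hC _ (hR a ha) (hR2 a ha) z)
      (norm_nonneg _) (abs_nonneg _)
  refine h1.trans (le_of_eq ?_)
  ring

/-! ### the weight -/

theorem term_bd (ω : ℝ) (x : ℂ) (R : ℝ) (hR : 0 < R) (hx : ‖x‖ = R) (r : ℕ) :
    ‖(ω : ℂ) ^ (2 * r) * (-4) ^ r * (r.factorial : ℂ) / ((2 * r).factorial : ℂ) *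
      (x ^ (r + 1))⁻¹‖ ≤ R⁻¹ * ((4 * ω ^ 2 / R) ^ r / r.factorial) := by
  have h1 : ‖(ω : ℂ) ^ (2 * r) * (-4) ^ r * (r.factorial : ℂ) / ((2 * r).factorial : ℂ) *
      (x ^ (r + 1))⁻¹‖ = R⁻¹ * (4 * ω ^ 2 / R) ^ r * ((r.factorial : ℝ) / (2 * r).factorial) := by
    rw [norm_mul, norm_div, norm_mul, norm_mul, norm_inv, norm_pow, norm_pow, norm_pow, hx,
      norm_neg, Complex.norm_real, Complex.norm_natCast, Complex.norm_natCast, Real.norm_eq_abs]
    have h4 : ‖(4 : ℂ)‖ = 4 := by simp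
    rw [h4, pow_mul, sq_abs, div_pow, mul_pow]
    field_simp
    ring
  rw [h1, mul_assoc]
  apply mul_le_mul_of_nonneg_left _ (by positivity)
  rw [div_eq_mul_inv _ (r.factorial : ℝ)]
  apply mul_le_mul_of_nonneg_left _ (by positivity)
  have h2 : r.factorial * r.factorial ≤ (2 * r).factorial := by
    rw [two_mul]
    exact Nat.le_of_dvd (Nat.factorial_pos _) (Nat.factorial_mul_factorial_dvd_factorial_add r r)
  have h3 : (0 : ℝ) < r.factorial := by exact_mod_cast Nat.factorial_pos r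
  have h4 : (0 : ℝ) < (2 * r).factorial := by exact_mod_cast Nat.factorial_pos (2 * r)
  rw [div_le_iff₀ h4, ← div_eq_inv_mul, le_div_iff₀ h3]
  exact_mod_cast h2

theorem Pc_cont (ω R : ℝ) (hR : 0 < R) : Continuous (fun θ : ℝ => Pc ω (circleMap 0 R θ)) := by
  unfold Pc
  apply continuous_tsum (u := fun r : ℕ => R⁻¹ * ((4 * ω ^ 2 / R) ^ r / r.factorial))
  · intro r
    apply continuous_const.mul
    apply Continuous.inv₀
    · exact (continuous_circleMap 0 R).pow _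
    · intro θ
      exact pow_ne_zero _ (circleMap_ne_center hR.ne')
  · exact (Real.summable_pow_div_factorial _).mul_left _
  · intro r θ
    apply term_bd ω _ R hR
    simp [abs_of_pos hR]

/-- the weight of the circle transform -/
def wg (ω τ θ : ℝ) : ℂ := (2 * (π : ℂ) * Complex.I)⁻¹ *
  (deriv (circleMap (τ : ℂ) (τ / 2)) θ * Pc ω (circleMap (τ : ℂ) (τ / 2) θ - τ))

theorem wg_cont (ω τ : ℝ) (hτ : 0 < τ) : Continuous (wg ω τ) := by
  unfold wg
  apply continuous_const.mul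
  have h1 : deriv (circleMap (τ : ℂ) (τ / 2)) =
      fun θ => circleMap 0 (τ / 2) θ * Complex.I := by
    funext θ
    exact deriv_circleMap _ _ _
  have h2 : (fun θ => Pc ω (circleMap (τ : ℂ) (τ / 2) θ - τ)) =
      fun θ => Pc ω (circleMap 0 (τ / 2) θ) := by
    funext θ
    rw [circleMap_sub_center]
  apply Continuous.mul
  · rw [h1]
    exact (continuous_circleMap 0 _).mul continuous_const
  · rw [h2]
    exact Pc_cont ω (τ / 2) (by positivity)

theorem cc_eq (ω τ : ℝ) (g : ℂ → ℂ) : cc ω τ g =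
    ∫ θ in (0 : ℝ)..(2 * π), wg ω τ θ * g (circleMap (τ : ℂ) (τ / 2) θ) := by
  unfold cc circleIntegral wg
  rw [← intervalIntegral.integral_const_mul]
  apply intervalIntegral.integral_congr
  intro θ _
  simp only [smul_eq_mul]
  ring

theorem reg_re (τ t s θ m : ℝ) (hs : s ∈ Icc (0 : ℝ) 1) (hτ : 0 < τ) (h1 : m ≤ t)
    (h2 : m ≤ τ / 2) : m ≤ ((t : ℂ) + s * (circleMap (τ : ℂ) (τ / 2) θ - t)).re := by
  have h3 : (circleMap (τ : ℂ) (τ / 2) θ).re = τ + τ / 2 * Real.cos θ := by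
    simp [circleMap, Complex.exp_ofReal_mul_I_re]
  have h4 : ((t : ℂ) + s * (circleMap (τ : ℂ) (τ / 2) θ - t)).re =
      (1 - s) * t + s * (τ + τ / 2 * Real.cos θ) := by
    rw [Complex.add_re, Complex.ofReal_re, Complex.re_ofReal_mul, Complex.sub_re, h3,
      Complex.ofReal_re]
    ring
  rw [h4]
  have h5 := Real.neg_one_le_cos θ
  have h6 : m ≤ τ + τ / 2 * Real.cos θ := by nlinarith
  have := hs.1
  have := hs.2
  nlinarith

theorem reg_norm (τ t s θ B : ℝ) (hs : s ∈ Icc (0 : ℝ) 1) (hτ : 0 < τ) (ht : 0 < t) (h1 : t ≤ B)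
    (h2 : 3 / 2 * τ ≤ B) : ‖(t : ℂ) + s * (circleMap (τ : ℂ) (τ / 2) θ - t)‖ ≤ B := by
  have h3 : ‖circleMap (τ : ℂ) (τ / 2) θ‖ ≤ 3 / 2 * τ := by
    have h4 : circleMap (τ : ℂ) (τ / 2) θ = τ + circleMap 0 (τ / 2) θ := by
      simp [circleMap]
    rw [h4]
    refine (norm_add_le _ _).trans ?_
    rw [norm_circleMap_zero, Complex.norm_real, Real.norm_of_nonneg hτ.le,
      abs_of_pos (by positivity)]
    linarith
  have h5 : (t : ℂ) + s * (circleMap (τ : ℂ) (τ / 2) θ - t) =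
      ((1 - s : ℝ) : ℂ) * t + s * circleMap (τ : ℂ) (τ / 2) θ := by
    push_cast
    ring
  rw [h5]
  refine (norm_add_le _ _).trans ?_
  have hs1 := hs.1
  have hs2 := hs.2
  rw [norm_mul, norm_mul, Complex.norm_real, Complex.norm_real, Complex.norm_real,
    Real.norm_of_nonneg hs1, Real.norm_of_nonneg (by linarith : (0 : ℝ) ≤ 1 - s),
    Real.norm_of_nonneg ht.le]
  nlinarith

/-- the set of parameters -/
def SS : Set (ℝ × ℝ) := Icc (0 : ℝ) (2 * π) ×ˢ Icc (0 : ℝ) 1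

theorem SS_compact : IsCompact SS := isCompact_Icc.prod isCompact_Icc

def cf (ω τ t : ℝ) (a : ℝ × ℝ) : ℂ := wg ω τ a.1 * (circleMap (τ : ℂ) (τ / 2) a.1 - t)

def zf (τ t : ℝ) (a : ℝ × ℝ) : ℂ := (t : ℂ) + a.2 * (circleMap (τ : ℂ) (τ / 2) a.1 - t)

theorem cf_cont (ω τ t : ℝ) (hτ : 0 < τ) : Continuous (cf ω τ t) := by
  unfold cf
  exact ((wg_cont ω τ hτ).comp continuous_fst).mul
    (((continuous_circleMap _ _).comp continuous_fst).sub continuous_const)

theorem zf_cont (τ t : ℝ) : Continuous (zf τ t) := by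
  unfold zf
  exact continuous_const.add ((Complex.continuous_ofReal.comp continuous_snd).mul
    (((continuous_circleMap _ _).comp continuous_fst).sub continuous_const))

theorem cc_two (ω τ t : ℝ) (hτ : 0 < τ) (ht : 0 < t) (g g' : ℂ → ℂ)
    (hg : ∀ ζ : ℂ, 0 < ζ.re → HasDerivAt g (g' ζ) ζ)
    (hg' : ContinuousOn g' {ζ : ℂ | 0 < ζ.re}) :
    ∫ a in SS, cf ω τ t a * g' (zf τ t a) = cc ω τ g - cc ω τ (fun _ => g t) := by
  have hpos : ∀ (θ s : ℝ), s ∈ Icc (0 : ℝ) 1 → 0 < (zf τ t (θ, s)).re := by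
    intro θ s hs
    have := reg_re τ t s θ (min t (τ / 2)) hs hτ (min_le_left _ _) (min_le_right _ _)
    have h2 : 0 < min t (τ / 2) := lt_min ht (by positivity)
    exact lt_of_lt_of_le h2 this
  have hgc : ContinuousOn g {ζ : ℂ | 0 < ζ.re} := fun ζ hζ =>
    (hg ζ hζ).continuousAt.continuousWithinAt
  have hcont : ContinuousOn (fun a => cf ω τ t a * g' (zf τ t a)) SS := by
    apply (cf_cont ω τ t hτ).continuousOn.mul
    have h1 : ContinuousOn (g' ∘ zf τ t) SS :=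
      hg'.comp (zf_cont τ t).continuousOn fun a ha => hpos a.1 a.2 ha.2
    exact h1
  have hint : IntegrableOn (fun a => cf ω τ t a * g' (zf τ t a)) SS :=
    hcont.integrableOn_compact SS_compact
  unfold SS at hint ⊢
  rw [Measure.volume_eq_prod] at hint ⊢
  rw [setIntegral_prod _ hint]
  have hin : ∀ θ : ℝ, ∫ s in Icc (0 : ℝ) 1, cf ω τ t (θ, s) * g' (zf τ t (θ, s)) =
      wg ω τ θ * g (circleMap (τ : ℂ) (τ / 2) θ) - wg ω τ θ * g t := by
    intro θ
    rw [integral_Icc_eq_integral_Ioc, ← intervalIntegral.integral_of_le zero_le_one]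
    have hd : ∀ s ∈ uIcc (0 : ℝ) 1, HasDerivAt (fun s : ℝ => wg ω τ θ * g (zf τ t (θ, s)))
        (cf ω τ t (θ, s) * g' (zf τ t (θ, s))) s := by
      intro s hs
      rw [uIcc_of_le zero_le_one] at hs
      have h1 : HasDerivAt (fun y : ℂ => (t : ℂ) + y * (circleMap (τ : ℂ) (τ / 2) θ - t))
          (circleMap (τ : ℂ) (τ / 2) θ - t) (s : ℂ) := by
        simpa using ((hasDerivAt_id (s : ℂ)).mul_const
          (circleMap (τ : ℂ) (τ / 2) θ - t)).const_add (t : ℂ)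
      have h2 : HasDerivAt g (g' (zf τ t (θ, s)))
          ((fun y : ℂ => (t : ℂ) + y * (circleMap (τ : ℂ) (τ / 2) θ - t)) (s : ℂ)) :=
        hg _ (hpos θ s hs)
      have h3 := (h2.comp (s : ℂ) h1).const_mul (wg ω τ θ)
      have h4 := h3.comp_ofReal
      refine h4.congr_deriv ?_
      unfold cf
      ring
    rw [intervalIntegral.integral_eq_sub_of_hasDerivAt hd]
    · have h1 : zf τ t (θ, 1) = circleMap (τ : ℂ) (τ / 2) θ := by
        unfold zf
        push_cast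
        ring
      have h2 : zf τ t (θ, 0) = t := by
        unfold zf
        push_cast
        ring
      rw [h1, h2]
    · apply ContinuousOn.intervalIntegrable
      rw [uIcc_of_le zero_le_one]
      apply ContinuousOn.mul
      · exact ((cf_cont ω τ t hτ).comp (continuous_const.prodMk continuous_id)).continuousOn
      · have h1 : ContinuousOn (g' ∘ fun s : ℝ => zf τ t (θ, s)) (Icc (0 : ℝ) 1) :=
          hg'.comp ((zf_cont τ t).comp (continuous_const.prodMk continuous_id)).continuousOn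
            fun s hs => hpos θ s hs
        exact h1
  simp only [hin]
  rw [integral_Icc_eq_integral_Ioc, ← intervalIntegral.integral_of_le (by positivity),
    cc_eq, cc_eq, intervalIntegral.integral_sub]
  · apply Continuous.intervalIntegrable
    apply (wg_cont ω τ hτ).mul
    apply continuousOn_univ.mp
    have h1 : ContinuousOn (g ∘ fun θ : ℝ => circleMap (τ : ℂ) (τ / 2) θ) univ := by
      apply hgc.comp (continuous_circleMap _ _).continuousOn
      intro θ _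
      have h2 := hpos θ 1 (by simp)
      have h3 : zf τ t (θ, 1) = circleMap (τ : ℂ) (τ / 2) θ := by
        unfold zf
        push_cast
        ring
      rw [h3] at h2
      exact h2
    exact h1
  · apply Continuous.intervalIntegrable
    exact (wg_cont ω τ hτ).mul continuous_const

theorem cc_const (hCCS : Stmt_CCS) (ω τ : ℝ) (hτ : 0 < τ) (c : ℂ) :
    cc ω τ (fun _ => c) = c := by
  have h1 := (hCCS ω τ (fun _ => c) hτ (differentiableOn_const c)).1
  have h2 := h1.unique (hasSum_single 0 ?_)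
  · rw [h2]
    simp
  · intro r hr
    have : iteratedDeriv r (fun _ : ℂ => c) (τ : ℂ) = 0 := by
      rw [iteratedDeriv_const]
      simp [hr]
    rw [this, mul_zero]


/-! ### the function -/

theorem tl_pos (n l : ℕ) : 0 < tl n l := by
  unfold tl t0 um
  positivity

theorem t0_le (n l : ℕ) : t0 ≤ tl n l := by
  unfold tl um
  have : (0 : ℝ) ≤ 4 * l * (n : ℝ) ^ 8 := by positivity
  linarith

theorem tl_le (n l : ℕ) (hl : l ≤ Ln n) : tl n l ≤ tl n (Ln n) := by
  unfold tl um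
  have : (l : ℝ) ≤ Ln n := by exact_mod_cast hl
  have h2 : (0 : ℝ) ≤ (n : ℝ) ^ 8 := by positivity
  nlinarith

theorem t0_pos : 0 < t0 := by
  unfold t0
  norm_num

theorem zf_re (n l : ℕ) (a : ℝ × ℝ) (ha : a ∈ SS) : t0 / 2 ≤ (zf (tl n l) t0 a).re := by
  apply reg_re (tl n l) t0 a.2 a.1 (t0 / 2) ha.2 (tl_pos n l)
  · linarith [t0_pos]
  · linarith [t0_le n l]

theorem zf_norm (n l : ℕ) (hl : l ≤ Ln n) (a : ℝ × ℝ) (ha : a ∈ SS) :
    ‖zf (tl n l) t0 a‖ ≤ 2 * tl n (Ln n) := by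
  have h1 := tl_le n l hl
  have h2 := t0_le n l
  have h3 := tl_pos n l
  apply reg_norm (tl n l) t0 a.2 a.1 (2 * tl n (Ln n)) ha.2 h3 t0_pos
  · linarith
  · linarith

def Kf (n : ℕ) (w : List (Fin (dm n))) (z : P (dm n)) : ℝ :=
  1 / 4 * ∑ l ∈ Finset.range (Ln n + 1), bs n l *
    (HH SS (cf (om n) (tl n l) t0) (zf (tl n l) t0) w z).re

theorem Kf_deriv (hGWD : Stmt_GWD) (hGWB : Stmt_GWB) (hGWA : Stmt_GWA) (n : ℕ)
    (w : List (Fin (dm n))) (x : P (dm n)) :
    HasFDerivAt (Kf n w) (∑ i, Li ℝ i (Kf n (i :: w) x)) x := by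
  have h1 : ∀ l ∈ Finset.range (Ln n + 1), HasFDerivAt
      (fun x => bs n l * (HH SS (cf (om n) (tl n l) t0) (zf (tl n l) t0) w x).re)
      (bs n l • Complex.reCLM.comp (∑ i, Li ℂ i
        (HH SS (cf (om n) (tl n l) t0) (zf (tl n l) t0) (i :: w) x))) x := by
    intro l hl
    have hl2 : l ≤ Ln n := by
      have := Finset.mem_range.mp hl
      omega
    have h2 := HH_deriv hGWD hGWB hGWA (t0 / 2) (2 * tl n (Ln n)) (by linarith [t0_pos])
      (by linarith [tl_pos n (Ln n)]) SS_compact (cf (om n) (tl n l) t0) (zf (tl n l) t0)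
      (cf_cont _ _ _ (tl_pos n l)).continuousOn (zf_cont _ _).continuousOn
      (zf_re n l) (zf_norm n l hl2) w x
    have h3 := (Complex.reCLM.hasFDerivAt.comp x h2).fun_const_smul (bs n l)
    exact h3
  have h4 := (HasFDerivAt.fun_sum h1).fun_const_smul (1 / 4 : ℝ)
  refine h4.congr_fderiv ?_
  ext v
  simp only [_root_.smul_apply, _root_.sum_apply, ContinuousLinearMap.comp_apply, Li_apply,
    smul_eq_mul, Complex.reCLM_apply, Complex.re_sum, Complex.real_smul, Complex.re_ofReal_mul]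
  unfold Kf
  simp only [Finset.mul_sum]
  rw [Finset.sum_comm]
  apply Finset.sum_congr rfl
  intro i _
  apply Finset.sum_congr rfl
  intro l _
  ring

theorem Kf_bd (hGWB : Stmt_GWB) (n : ℕ) (w : List (Fin (dm n))) :
    ∃ C : ℝ, 0 ≤ C ∧ ∀ z : P (dm n), |Kf n w z| ≤ C * (1 + ‖z‖) ^ (-(2 * (dm n : ℤ))) := by
  have h1 : ∀ l : ℕ, ∃ C : ℝ, 0 ≤ C ∧ (l ≤ Ln n → ∀ z : P (dm n),
      ‖HH SS (cf (om n) (tl n l) t0) (zf (tl n l) t0) w z‖ ≤
        C * (1 + ‖z‖) ^ (-(2 * (dm n : ℤ)))) := by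
    intro l
    by_cases hl : l ≤ Ln n
    · obtain ⟨C, hC0, hC⟩ := HH_bd hGWB (t0 / 2) (2 * tl n (Ln n)) (by linarith [t0_pos])
        (by linarith [tl_pos n (Ln n)]) SS_compact (cf (om n) (tl n l) t0) (zf (tl n l) t0)
        (cf_cont _ _ _ (tl_pos n l)).continuousOn (zf_re n l) (zf_norm n l hl) w
      exact ⟨C, hC0, fun _ => hC⟩
    · exact ⟨0, le_refl _, fun h => absurd h hl⟩
  choose C hC0 hC using h1
  refine ⟨1 / 4 * ∑ l ∈ Finset.range (Ln n + 1), |bs n l| * C l, ?_, fun z => ?_⟩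
  · apply mul_nonneg (by norm_num)
    exact Finset.sum_nonneg fun l _ => mul_nonneg (abs_nonneg _) (hC0 l)
  · unfold Kf
    rw [abs_mul, abs_of_pos (by norm_num : (0 : ℝ) < 1 / 4), mul_assoc]
    apply mul_le_mul_of_nonneg_left _ (by norm_num)
    rw [Finset.sum_mul]
    refine (Finset.abs_sum_le_sum_abs _ _).trans ?_
    apply Finset.sum_le_sum
    intro l hl
    have hl2 : l ≤ Ln n := by
      have := Finset.mem_range.mp hl
      omega
    rw [abs_mul, mul_assoc]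
    apply mul_le_mul_of_nonneg_left _ (abs_nonneg _)
    exact (Complex.abs_re_le_norm _).trans (hC l hl2 z)

theorem sum_bs (n : ℕ) (hn : 2 ≤ n) : ∑ l ∈ Finset.range (Ln n + 1), bs n l = 0 := by
  have h0 : Ln n ≠ 0 := by
    unfold Ln
    positivity
  have h1 := Int.alternating_sum_range_choose_of_ne h0
  unfold bs
  exact_mod_cast h1

theorem HH_two (hGWA : Stmt_GWA) (hCCS : Stmt_CCS) (n l : ℕ) (z : P (dm n)) :
    ∑ i, HH SS (cf (om n) (tl n l) t0) (zf (tl n l) t0) [i, i] z =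
      4 * (cc (om n) (tl n l) (fun ζ => gw [] ζ z) - gw [] (t0 : ℂ) z) := by
  have h1 := cc_two (om n) (tl n l) t0 (tl_pos n l) t0_pos (fun ζ => gw [] ζ z)
    (fun ζ => 1 / 4 * ∑ i, gw [i, i] ζ z) (fun ζ hζ => heat ζ z hζ) (by
      apply continuousOn_const.mul
      apply continuousOn_finsetSum
      intro i _
      exact ((hGWA (dm n) [i, i]).1 z).continuousOn)
  rw [cc_const hCCS _ _ (tl_pos n l)] at h1
  rw [← h1, ← integral_const_mul]
  unfold HH
  rw [← integral_finsetSum]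
  · apply integral_congr_ae
    apply Eventually.of_forall
    intro a
    simp only
    rw [← Finset.mul_sum]
    ring
  · intro i _
    have h2 : ContinuousOn (fun a => cf (om n) (tl n l) t0 a *
        gw [i, i] (zf (tl n l) t0 a) z) SS :=
      (cf_cont _ _ _ (tl_pos n l)).continuousOn.mul (gw_cont hGWA (t0 / 2)
        (by linarith [t0_pos]) _ (zf_cont _ _).continuousOn (zf_re n l) [i, i] z)
    exact h2.integrableOn_compact SS_compact

end K2P_

open K2P_ in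
theorem k2p_proof (hGWD : Stmt_GWD) (hGWB : Stmt_GWB) (hGWA : Stmt_GWA) (hCCS : Stmt_CCS)
    (_hCCB : Stmt_CCB) (_hKF0 : Stmt_KF0) : Stmt_K2P := by
  intro n hn
  have hfam := fam (Kf n) (Kf_deriv hGWD hGWB hGWA n)
  have hpd1 : ∀ i, pd i (Kf n []) = Kf n [i] := fun i => (hfam []).2 i
  have hpd2 : ∀ i j, pd j (pd i (Kf n [])) = Kf n [j, i] := by
    intro i j
    rw [hpd1]
    exact (hfam [i]).2 j
  refine ⟨Kf n [], (hfam []).1, ?_, ?_⟩
  · intro z
    unfold Lap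
    simp only [hpd2]
    unfold Kf K0
    rw [← Finset.mul_sum, Finset.sum_comm]
    simp only [← Finset.mul_sum]
    have h1 : ∀ l, ∑ i, (HH SS (cf (om n) (tl n l) t0) (zf (tl n l) t0) [i, i] z).re =
        4 * ((cc (om n) (tl n l) (fun ζ => gw [] ζ z)).re - (gw [] (t0 : ℂ) z).re) := by
      intro l
      rw [← Complex.re_sum, HH_two hGWA hCCS n l z]
      simp
    simp only [h1]
    have h2 : ∑ l ∈ Finset.range (Ln n + 1), bs n l *
        (4 * ((cc (om n) (tl n l) (fun ζ => gw [] ζ z)).re - (gw [] (t0 : ℂ) z).re)) =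
        4 * ∑ l ∈ Finset.range (Ln n + 1), bs n l *
          (cc (om n) (tl n l) (fun ζ => gw [] ζ z)).re -
        4 * (gw [] (t0 : ℂ) z).re * ∑ l ∈ Finset.range (Ln n + 1), bs n l := by
      rw [Finset.mul_sum, Finset.mul_sum, ← Finset.sum_sub_distrib]
      apply Finset.sum_congr rfl
      intro l _
      ring
    rw [h2, sum_bs n hn]
    ring
  · choose C hC0 hC using Kf_bd hGWB n
    refine ⟨∑ i, (C [i] + ∑ j, C [j, i]), fun i z => ?_⟩
    have hz : 0 ≤ (1 + ‖z‖) ^ (-(2 * (dm n : ℤ))) := by positivity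
    have h1 : C [i] + ∑ j, C [j, i] ≤ ∑ i, (C [i] + ∑ j, C [j, i]) :=
      Finset.single_le_sum (f := fun i => C [i] + ∑ j, C [j, i])
        (fun i _ => add_nonneg (hC0 _) (Finset.sum_nonneg fun j _ => hC0 _))
        (Finset.mem_univ i)
    constructor
    · rw [hpd1]
      refine (hC [i] z).trans (mul_le_mul_of_nonneg_right ?_ hz)
      have : 0 ≤ ∑ j, C [j, i] := Finset.sum_nonneg fun j _ => hC0 _
      linarith
    · intro j
      rw [hpd2]
      refine (hC [j, i] z).trans (mul_le_mul_of_nonneg_right ?_ hz)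
      have h2 : C [j, i] ≤ ∑ j, C [j, i] :=
        Finset.single_le_sum (f := fun j => C [j, i]) (fun j _ => hC0 _) (Finset.mem_univ j)
      have := hC0 [i]
      linarith

end

end Pool.Agent.HBW
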