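import Pool.Agent.HBW.KF1

/-!
Squad HBW, module KF0: the kernel `K0` is smooth with the expected derivatives (uses the general
lemmas of module KF1).
-/

set_option autoImplicit false

namespace Pool.Agent.HBW

open MeasureTheory Set Filter Topology
open scoped ENNReal Real

namespace KF0_

open KF1_

noncomputable section

variable {D : ℕ}

lemma fac0_le (r : ℕ) : (r.factorial : ℝ) / ((2 * r).factorial : ℝ) ≤ 1 / (r.factorial : ℝ) := by
  have h1 : r.factorial * r.factorial ≤ (2 * r).factorial := by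
    have h2 : r.factorial * r.factorial ≤ (r + r).factorial :=
      Nat.le_of_dvd (Nat.factorial_pos _) (Nat.factorial_mul_factorial_dvd_factorial_add r r)
    exact h2.trans (Nat.factorial_le (by omega))
  have h3 : (0 : ℝ) < r.factorial := by exact_mod_cast Nat.factorial_pos r
  have h4 : (0 : ℝ) < (2 * r).factorial := by exact_mod_cast Nat.factorial_pos _
  rw [div_le_div_iff₀ h4 h3, one_mul]
  exact_mod_cast h1

lemma pc_term (ω R : ℝ) (hω : 0 ≤ ω) (hR : 0 < R) (r : ℕ) (θ : ℝ) :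
    ‖(ω : ℂ) ^ (2 * r) * (-4) ^ r * (r.factorial : ℂ) / ((2 * r).factorial : ℂ) *
      ((circleMap 0 R θ) ^ (r + 1))⁻¹‖ ≤ 1 / R * ((4 * ω ^ 2 / R) ^ r / r.factorial) := by
  have h1 : ‖circleMap 0 R θ‖ = R := by simp [abs_of_pos hR]
  rw [norm_mul, norm_div, norm_mul, norm_mul, norm_pow, norm_pow, norm_inv, norm_pow, h1,
    Complex.norm_natCast, Complex.norm_natCast, Complex.norm_real, norm_neg]
  have h4 : ‖(4 : ℂ)‖ = 4 := by simp
  rw [h4, Real.norm_of_nonneg hω]
  have h5 := fac0_le r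
  have h6 : ω ^ (2 * r) * 4 ^ r * (r.factorial : ℝ) / ((2 * r).factorial : ℝ) * (R ^ (r + 1))⁻¹
      = (1 / R * (4 * ω ^ 2 / R) ^ r) * ((r.factorial : ℝ) / ((2 * r).factorial : ℝ)) := by
    rw [div_pow, mul_pow, ← pow_mul, pow_succ R]
    field_simp
  rw [h6]
  refine (mul_le_mul_of_nonneg_left h5 (by positivity)).trans (le_of_eq ?_)
  ring

lemma pc_cont (ω R : ℝ) (hω : 0 ≤ ω) (hR : 0 < R) :
    Continuous (fun θ : ℝ => Pc ω (circleMap 0 R θ)) ∧
    ∃ B, ∀ θ : ℝ, ‖Pc ω (circleMap 0 R θ)‖ ≤ B := by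
  have hs : Summable fun r : ℕ => 1 / R * ((4 * ω ^ 2 / R) ^ r / r.factorial) :=
    (Real.summable_pow_div_factorial _).mul_left _
  refine ⟨?_, _, fun θ => tsum_of_norm_bounded hs.hasSum fun r => pc_term ω R hω hR r θ⟩
  unfold Pc
  refine continuous_tsum (fun r => ?_) hs fun r θ => pc_term ω R hω hR r θ
  refine continuous_const.mul (Continuous.inv₀ ((continuous_circleMap 0 R).pow _) fun θ => ?_)
  exact pow_ne_zero _ (circleMap_ne_center hR.ne')

lemma cc_good (hGWD : Stmt_GWD) (hGWA : Stmt_GWA) (hGWB : Stmt_GWB) (ω τ : ℝ) (hω : 0 ≤ ω)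
    (hτ : 0 < τ) : Good (fun (w : List (Fin D)) z => cc ω τ (fun ζ => gw w ζ z)) := by
  have hR : 0 < τ / 2 := by positivity
  obtain ⟨hP1, BP, hP2⟩ := pc_cont ω (τ / 2) hω hR
  choose B hB using fun w : List (Fin D) => gw_bound hGWB τ hτ w
  have hG : Good (fun (w : List (Fin D)) z => ∫ θ in Ioc 0 (2 * π),
      deriv (circleMap (τ : ℂ) (τ / 2)) θ • (Pc ω (circleMap (τ : ℂ) (τ / 2) θ - τ) *
        gw w (circleMap (τ : ℂ) (τ / 2) θ) z)) := by
    refine good_int (Y := ℂ) (volume.restrict (Ioc 0 (2 * π))) _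
      (fun w _ => (τ / 2) * (BP * B w)) ?_ ?_ ?_ ?_
    · intro w z
      have c1 : Continuous (fun θ => deriv (circleMap (τ : ℂ) (τ / 2)) θ) := by
        have : (fun θ => deriv (circleMap (τ : ℂ) (τ / 2)) θ) =
            fun θ => circleMap 0 (τ / 2) θ * Complex.I := by
          funext θ; rw [deriv_circleMap]
        rw [this]; exact (continuous_circleMap _ _).mul continuous_const
      have c2 : Continuous (fun θ : ℝ => Pc ω (circleMap (τ : ℂ) (τ / 2) θ - τ)) := by
        simp only [circleMap_sub_center]; exact hP1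
      have c3 : Continuous (fun θ : ℝ => gw w (circleMap (τ : ℂ) (τ / 2) θ) z) := by
        rw [← continuousOn_univ]
        exact gw_cont hGWA w z (s := (univ : Set ℝ)) (fun θ => circleMap (τ : ℂ) (τ / 2) θ)
          (continuous_circleMap _ _).continuousOn fun θ _ => (circ τ hτ θ).1
      exact (c1.smul (c2.mul c3)).aestronglyMeasurable
    · intro w
      refine Eventually.of_forall fun θ z => ?_
      rw [norm_smul, norm_mul, deriv_circleMap, circleMap_sub_center]
      have h1 : ‖circleMap 0 (τ / 2) θ * Complex.I‖ = τ / 2 := by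
        rw [norm_mul, Complex.norm_I, mul_one, norm_circleMap_zero, abs_of_pos hR]
      rw [h1]
      exact mul_le_mul_of_nonneg_left (mul_le_mul (hP2 θ) (hB w θ z) (norm_nonneg _)
        ((norm_nonneg _).trans (hP2 θ))) hR.le
    · intro w
      exact integrable_const _
    · refine Eventually.of_forall fun θ => ?_
      have := (gw_good (D := D) hGWD (circleMap (τ : ℂ) (τ / 2) θ)).clm
        (((deriv (circleMap (τ : ℂ) (τ / 2)) θ * Pc ω (circleMap (τ : ℂ) (τ / 2) θ - τ)) •
          ContinuousLinearMap.id ℝ ℂ : ℂ →L[ℝ] ℂ))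
      simpa [mul_assoc] using this
  have hG2 := hG.clm (((2 * (π : ℂ) * Complex.I)⁻¹ • ContinuousLinearMap.id ℝ ℂ : ℂ →L[ℝ] ℂ))
  have : (fun (w : List (Fin D)) z => cc ω τ (fun ζ => gw w ζ z)) = fun w z =>
      ((2 * (π : ℂ) * Complex.I)⁻¹ • ContinuousLinearMap.id ℝ ℂ : ℂ →L[ℝ] ℂ)
      (∫ θ in Ioc 0 (2 * π),
      deriv (circleMap (τ : ℂ) (τ / 2)) θ • (Pc ω (circleMap (τ : ℂ) (τ / 2) θ - τ) *
        gw w (circleMap (τ : ℂ) (τ / 2) θ) z)) := by
    funext w z
    rw [cc, circleIntegral, intervalIntegral.integral_of_le (by positivity)]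
    simp
  rw [this]; exact hG2

end

end KF0_

open KF0_ KF1_ in
theorem kf0_proof (hGWD : Stmt_GWD) (hGWA : Stmt_GWA) (hGWB : Stmt_GWB) : Stmt_KF0 := by
  intro n hn
  have hom : 0 < om n := by
    unfold om; have : (0 : ℝ) < n := by exact_mod_cast (by omega : 0 < n)
    positivity
  have g : Good (K0 n) := by
    refine Good.sum _ (fun l w z => bs n l * (cc (om n) (tl n l) (fun ζ => gw w ζ z)).re) ?_
    intro l _
    exact (cc_good (D := dm n) hGWD hGWA hGWB (om n) (tl n l) hom.le (KF1_.tl_pos n l)).clm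
      (bs n l • Complex.reCLM)
  intro w
  refine ⟨g.smo w, fun i => g.pd w i, fun w' hw => ?_⟩
  have h1 : ∀ ζ, gw w' ζ = gw w ζ := fun ζ => (hGWD (dm n) ζ w).2.2 w' hw
  funext z
  simp only [K0, h1]

end Pool.Agent.HBW
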