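import Pool.Agent.HBW.Stmts

/-! HBW, module LIC (helper68): limits in `C⁶`. -/

set_option autoImplicit false

namespace Pool.Agent.HBW

open MeasureTheory Set Filter Topology
open scoped ENNReal Real

namespace LIC_

variable {D : ℕ} {X : Type} [NormedAddCommGroup X] [NormedSpace ℝ X]

theorem pi_sum (v : P D) : v = ∑ j, v j • (Pi.single j (1 : ℝ) : P D) := by
  ext i
  simp [Finset.sum_apply, Pi.single_apply]

theorem norm_le_words {k : ℕ} (m : ContinuousMultilinearMap ℝ (fun _ : Fin k => P D) X) (b : ℝ)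
    (hb : ∀ w : Fin k → Fin D, ‖m fun i => Pi.single (w i) (1 : ℝ)‖ ≤ b) :
    ‖m‖ ≤ (Fintype.card (Fin k → Fin D) : ℝ) * b := by
  have hM : 0 ≤ (Fintype.card (Fin k → Fin D) : ℝ) * b := by
    rcases isEmpty_or_nonempty (Fin k → Fin D) with h | ⟨⟨w⟩⟩
    · simp [Fintype.card_eq_zero]
    · exact mul_nonneg (Nat.cast_nonneg _) ((norm_nonneg _).trans (hb w))
  refine ContinuousMultilinearMap.opNorm_le_bound hM ?_
  intro v
  have e1 : m v = ∑ w : Fin k → Fin D, m fun i => v i (w i) • (Pi.single (w i) (1 : ℝ) : P D) := by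
    have := m.toMultilinearMap.map_sum (fun i j => v i j • (Pi.single j (1 : ℝ) : P D))
    simp only [ContinuousMultilinearMap.coe_coe] at this
    rw [← this]
    congr 1
    ext1 i
    exact pi_sum (v i)
  rw [e1]
  refine (norm_sum_le _ _).trans ?_
  have e2 : ∀ w : Fin k → Fin D, ‖m fun i => v i (w i) • (Pi.single (w i) (1 : ℝ) : P D)‖
      ≤ b * ∏ i, ‖v i‖ := by
    intro w
    have := m.toMultilinearMap.map_smul_univ (fun i => v i (w i))
      (fun i => (Pi.single (w i) (1 : ℝ) : P D))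
    simp only [ContinuousMultilinearMap.coe_coe] at this
    rw [this, norm_smul, mul_comm]
    refine mul_le_mul (hb w) ?_ (norm_nonneg _) ((norm_nonneg _).trans (hb w))
    rw [norm_prod]
    exact Finset.prod_le_prod (fun i _ => norm_nonneg _) fun i _ => norm_le_pi_norm (v i) (w i)
  refine (Finset.sum_le_card_nsmul _ _ _ fun w _ => e2 w).trans ?_
  rw [nsmul_eq_mul, Finset.card_univ]
  linarith [mul_assoc (Fintype.card (Fin k → Fin D) : ℝ) b (∏ i, ‖v i‖)]

theorem pdw_eq (f : P D → X) : ∀ (k : ℕ) (w : Fin k → Fin D), ContDiff ℝ k f → ∀ x,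
    pdw (List.ofFn w) f x = iteratedFDeriv ℝ k f x fun i => Pi.single (w i) (1 : ℝ)
  | 0, w, _, x => by simp [pdw]
  | k + 1, w, hf, x => by
    have ih := pdw_eq f k (Fin.tail w) (hf.of_le (by exact_mod_cast Nat.le_succ k))
    have e : pdw (List.ofFn w) f x
        = fderiv ℝ (fun y => iteratedFDeriv ℝ k f y fun i => Pi.single (Fin.tail w i) (1 : ℝ)) x
          (Pi.single (w 0) 1) := by
      rw [List.ofFn_succ]
      simp only [pdw, pd]
      congr 2
      funext y
      exact ih y
    rw [e, iteratedFDeriv_succ_apply_left]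
    have hd : DifferentiableAt ℝ (iteratedFDeriv ℝ k f) x :=
      (hf.differentiable_iteratedFDeriv (by exact_mod_cast Nat.lt_succ_self k)) x
    have := (ContinuousMultilinearMap.apply ℝ (fun _ : Fin k => P D) X
      (fun i => Pi.single (Fin.tail w i) (1 : ℝ))).hasFDerivAt.comp x hd.hasFDerivAt
    have h2 := this.fderiv
    simp only [Function.comp_def, ContinuousMultilinearMap.apply_apply] at h2
    rw [h2]
    rfl

theorem ofFn_get (w : List (Fin D)) : List.ofFn (fun i : Fin w.length => w.get i) = w := by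
  simp

/-- sums of series -/
theorem key [CompleteSpace X] (d : ℕ → P D → X) (v : ℕ → ℕ → ℝ) (hd : ∀ j, ContDiff ℝ 6 (d j))
    (hb : ∀ j, ∀ w : List (Fin D), w.length ≤ 6 → ∀ x, ‖pdw w (d j) x‖ ≤ v w.length j)
    (hs : ∀ k ≤ 6, Summable (v k)) :
    ContDiff ℝ 6 (fun x => ∑' j, d j x) ∧ ∀ w : List (Fin D), w.length ≤ 6 → ∀ x,
      ‖pdw w (fun x => ∑' j, d j x) x‖ ≤ ∑' j, v w.length j := by
  set V : ℕ → ℕ → ℝ := fun k j => (Fintype.card (Fin k → Fin D) : ℝ) * v k j with hV
  have hVs : ∀ k : ℕ, (k : ℕ∞) ≤ ((6 : ℕ) : ℕ∞) → Summable (V k) := fun k hk =>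
    (hs k (by exact_mod_cast hk)).mul_left _
  have hVb : ∀ (k : ℕ) (i : ℕ) (x : P D), (k : ℕ∞) ≤ ((6 : ℕ) : ℕ∞) →
      ‖iteratedFDeriv ℝ k (d i) x‖ ≤ V k i := by
    intro k i x hk
    have hk' : k ≤ 6 := by exact_mod_cast hk
    refine norm_le_words _ _ fun w => ?_
    rw [← pdw_eq (d i) k w ((hd i).of_le (by exact_mod_cast hk')) x]
    have := hb i (List.ofFn w) (by simpa using hk') x
    simpa using this
  have hd' : ∀ i, ContDiff ℝ ((6 : ℕ) : ℕ∞) (d i) := fun i => by exact_mod_cast hd i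
  have hg : ContDiff ℝ 6 (fun x => ∑' j, d j x) := by
    have := contDiff_tsum hd' hVs hVb
    exact_mod_cast this
  refine ⟨hg, ?_⟩
  intro w hw x
  have e1 : pdw w (fun x => ∑' j, d j x) x
      = ∑' j, pdw w (d j) x := by
    have h1 := pdw_eq (fun x => ∑' j, d j x) w.length (fun i => w.get i)
      (hg.of_le (by exact_mod_cast hw)) x
    rw [ofFn_get] at h1
    rw [h1]
    have h2 := iteratedFDeriv_tsum hd' hVs hVb (k := w.length) (by exact_mod_cast hw)
    rw [h2]
    have hsum : Summable fun j => iteratedFDeriv ℝ w.length (d j) x :=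
      Summable.of_norm_bounded (hVs w.length (by exact_mod_cast hw))
        fun j => hVb w.length j x (by exact_mod_cast hw)
    have h3 := (ContinuousMultilinearMap.apply ℝ (fun _ : Fin w.length => P D) X
      (fun i => Pi.single (w.get i) (1 : ℝ))).map_tsum hsum
    simp only [ContinuousMultilinearMap.apply_apply] at h3
    rw [h3]
    refine tsum_congr fun j => ?_
    have h4 := pdw_eq (d j) w.length (fun i => w.get i) ((hd j).of_le (by exact_mod_cast hw)) x
    rw [ofFn_get] at h4
    exact h4.symm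
  rw [e1]
  exact tsum_of_norm_bounded (hs w.length hw).hasSum fun j => hb j w hw x

end LIC_

open LIC_ in
theorem lic_proof (_hSMO : Stmt_SMO) : Stmt_LIC := by
  intro D X _ _ _ f b hf hb hs
  have : CompleteSpace X := FiniteDimensional.complete ℝ X
  set d : ℕ → P D → X := fun j z => f (j + 1) z - f j z with hd
  have hf6 : ∀ j, ContDiff ℝ 6 (f j) := fun j => (contDiff_infty.1 (hf j) 6)
  have hd6 : ∀ j, ContDiff ℝ 6 (d j) := fun j => (hf6 (j + 1)).sub (hf6 j)
  have hb6 : ∀ j, ∀ w : List (Fin D), w.length ≤ 6 → ∀ x, ‖pdw w (d j) x‖ ≤ b w.length j :=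
    fun j w hw x => hb j w (by omega) x
  have hs6 : ∀ k ≤ 6, Summable (b k) := fun k hk => hs k (by omega)
  have hsum : ∀ x, Summable fun j => d j x := fun x =>
    Summable.of_norm_bounded (hs 0 (by omega)) fun j => by
      have := hb j [] (by simp) x
      simpa [pdw] using this
  refine ⟨fun x => f 0 x + ∑' j, d j x, (hf6 0).add (key d b hd6 hb6 hs6).1, ?_⟩
  intro j w hw x
  have e : (fun z => (f 0 z + ∑' i, d i z) - f j z) = fun z => ∑' i, d (i + j) z := by
    funext z
    have h1 := (hsum z).sum_add_tsum_nat_add j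
    have h2 : ∑ i ∈ Finset.range j, d i z = f j z - f 0 z := Finset.sum_range_sub (fun i => f i z) j
    rw [← h1, h2]
    abel
  rw [e]
  refine (key (fun i => d (i + j)) (fun k i => b k (i + j)) (fun i => hd6 _)
    (fun i w hw x => hb6 _ w hw x) fun k hk => ?_).2 w hw x
  exact (summable_nat_add_iff j).2 (hs6 k hk)

end Pool.Agent.HBW
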