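import Pool.Agent.HBW.Stmts

/-!
Squad HBW, module LIM: near part of the Taylor error and the main term.
-/

set_option autoImplicit false

namespace Pool.Agent.HBW

open MeasureTheory Set Filter Topology
open scoped ENNReal Real

noncomputable section

namespace LIM_

/-! ### asymptotics -/

theorem evC (C : ℕ) : ∀ᶠ n : ℕ in atTop, ((n : ℝ) ^ (C * n ^ 4)) ≤ Real.exp ((n : ℝ) ^ 5 / 16) := by
  have h1 : Real.log =o[atTop] (id : ℝ → ℝ) := Real.isLittleO_log_id_atTop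
  have h2 := h1.bound (show (0 : ℝ) < 1 / (16 * (C + 1)) by positivity)
  have h3 := tendsto_natCast_atTop_atTop.eventually h2
  filter_upwards [h3, eventually_ge_atTop 1] with n hn hn1
  have hn0 : (0 : ℝ) < n := by exact_mod_cast hn1
  have h4 : Real.log n ≤ 1 / (16 * (C + 1)) * n := by
    have h5 : Real.log n ≤ ‖Real.log n‖ := le_abs_self _
    have h6 : ‖(id (n : ℝ) : ℝ)‖ = n := by
      rw [id, Real.norm_eq_abs, abs_of_pos hn0]
    rw [h6] at hn
    exact h5.trans hn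
  have h5 : (n : ℝ) ^ (C * n ^ 4) = Real.exp (((C * n ^ 4 : ℕ) : ℝ) * Real.log n) := by
    rw [Real.exp_nat_mul, Real.exp_log hn0]
  rw [h5]
  apply Real.exp_le_exp.2
  push_cast
  have hC : (0 : ℝ) ≤ C := Nat.cast_nonneg _
  have h6 : (C : ℝ) * Real.log n ≤ n / 16 := by
    calc (C : ℝ) * Real.log n ≤ C * (1 / (16 * (C + 1)) * n) :=
          mul_le_mul_of_nonneg_left h4 hC
      _ = (C / (C + 1)) * (n / 16) := by field_simp
      _ ≤ 1 * (n / 16) := by
          refine mul_le_mul_of_nonneg_right ?_ (by positivity)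
          rw [div_le_one (by positivity)]
          linarith
      _ = n / 16 := one_mul _
  calc (C : ℝ) * (n : ℝ) ^ 4 * Real.log n = (n : ℝ) ^ 4 * (C * Real.log n) := by ring
    _ ≤ (n : ℝ) ^ 4 * (n / 16) := mul_le_mul_of_nonneg_left h6 (by positivity)
    _ = (n : ℝ) ^ 5 / 16 := by ring

theorem two_pow (n : ℕ) : ((2 : ℝ) ^ (n ^ 5))⁻¹ ≤ Real.exp (-((n : ℝ) ^ 5 / 8)) := by
  rw [Real.exp_neg]
  refine inv_anti₀ (Real.exp_pos _) ?_
  have h1 : (2 : ℝ) ^ (n ^ 5) = Real.exp (((n ^ 5 : ℕ) : ℝ) * Real.log 2) := by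
    rw [Real.exp_nat_mul, Real.exp_log (by norm_num)]
  rw [h1]
  apply Real.exp_le_exp.2
  push_cast
  have h2 := Real.log_two_gt_d9
  have h3 : (0 : ℝ) ≤ (n : ℝ) ^ 5 := by positivity
  nlinarith

/-- the basic asymptotic fact -/
theorem evE (C : ℕ) : ∀ᶠ n : ℕ in atTop,
    (n : ℝ) ^ (C * n ^ 4) * ((2 : ℝ) ^ (n ^ 5))⁻¹ ≤ ep n := by
  filter_upwards [evC C] with n hn
  calc (n : ℝ) ^ (C * n ^ 4) * ((2 : ℝ) ^ (n ^ 5))⁻¹
      ≤ Real.exp ((n : ℝ) ^ 5 / 16) * Real.exp (-((n : ℝ) ^ 5 / 8)) :=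
        mul_le_mul hn (two_pow n) (by positivity) (by positivity)
    _ = ep n := by
        rw [← Real.exp_add, ep]
        congr 1
        ring

theorem ep_le (n : ℕ) (hn : 3 ≤ n) : ep n ≤ th n / 8 := by
  have hn' : (3 : ℝ) ≤ n := by exact_mod_cast hn
  have h8 : (8 : ℝ) ≤ Real.exp 3 := by
    have h1 : (1 : ℝ) + 1 ≤ Real.exp 1 := by
      have := Real.add_one_le_exp (1 : ℝ)
      linarith
    have h2 : Real.exp 3 = Real.exp 1 ^ 3 := by
      rw [← Real.exp_nat_mul]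
      norm_num
    rw [h2]
    have h3 : ((1 : ℝ) + 1) ^ 3 ≤ Real.exp 1 ^ 3 := pow_le_pow_left₀ (by norm_num) h1 3
    linarith
  have h1 : ep n * Real.exp 3 ≤ th n := by
    rw [ep, th, ← Real.exp_add]
    apply Real.exp_le_exp.2
    have h2 : (9 : ℝ) ≤ (n : ℝ) ^ 2 := by nlinarith
    have h3 : (27 : ℝ) ≤ (n : ℝ) ^ 3 := by nlinarith
    have h4 : (n : ℝ) ^ 5 = (n : ℝ) ^ 2 * (n : ℝ) ^ 3 := by ring
    have h5 : (n : ℝ) ^ 2 * 27 ≤ (n : ℝ) ^ 5 := by
      rw [h4]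
      exact mul_le_mul_of_nonneg_left h3 (by positivity)
    linarith
  have h2 : 0 < ep n := Real.exp_pos _
  have h3 : ep n * 8 ≤ ep n * Real.exp 3 := mul_le_mul_of_nonneg_left h8 h2.le
  linarith

theorem dm_cast (n : ℕ) : ((dm n : ℕ) : ℝ) = (n : ℝ) ^ 4 := by
  simp [dm]

theorem dl_pow (n C : ℕ) : (dl n * (n : ℝ) ^ C) ^ dm n =
    (n : ℝ) ^ ((8 + C) * n ^ 4) * ((2 : ℝ) ^ (n ^ 5))⁻¹ := by
  have h1 : (2 : ℝ) ^ (n ^ 5) = ((2 : ℝ) ^ n) ^ (n ^ 4) := by
    rw [← pow_mul]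
    congr 1
    ring
  rw [h1, dl, dm, pow_mul, pow_add, ← inv_pow, ← mul_pow]
  congr 1
  rw [div_eq_mul_inv]
  ring

/-- polynomial factor -/
def Kp (n : ℕ) : ℝ := 2 + 3 * (dm n : ℝ) ^ 2 * (dm n + 1)

theorem Kp_le (n : ℕ) (hn : 2 ≤ n) : Kp n ≤ (n : ℝ) ^ (15 * n ^ 4) := by
  have hn' : (2 : ℝ) ≤ n := by exact_mod_cast hn
  have hn1 : (1 : ℝ) ≤ n := by linarith
  have h4 : (1 : ℝ) ≤ (n : ℝ) ^ 4 := one_le_pow₀ hn1
  have h1 : Kp n ≤ 8 * ((n : ℝ) ^ 4) ^ 3 := by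
    rw [Kp, dm_cast]
    have h5 : ((n : ℝ) ^ 4) ^ 2 ≤ ((n : ℝ) ^ 4) ^ 3 := pow_le_pow_right₀ h4 (by norm_num)
    have h6 : (1 : ℝ) ≤ ((n : ℝ) ^ 4) ^ 3 := one_le_pow₀ h4
    have h7 : 3 * ((n : ℝ) ^ 4) ^ 2 * ((n : ℝ) ^ 4 + 1) =
        3 * ((n : ℝ) ^ 4) ^ 3 + 3 * ((n : ℝ) ^ 4) ^ 2 := by ring
    rw [h7]
    linarith
  have h2 : 8 * ((n : ℝ) ^ 4) ^ 3 ≤ (n : ℝ) ^ 15 := by
    have h3 : (8 : ℝ) ≤ (n : ℝ) ^ 3 := by
      have := pow_le_pow_left₀ (by norm_num) hn' 3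
      linarith
    calc 8 * ((n : ℝ) ^ 4) ^ 3 ≤ (n : ℝ) ^ 3 * ((n : ℝ) ^ 4) ^ 3 :=
          mul_le_mul_of_nonneg_right h3 (by positivity)
      _ = (n : ℝ) ^ 15 := by ring
  have h3 : (n : ℝ) ^ 15 ≤ (n : ℝ) ^ (15 * n ^ 4) := by
    refine pow_le_pow_right₀ hn1 ?_
    have : 1 ≤ n ^ 4 := Nat.one_le_pow _ _ (by omega)
    omega
  exact h1.trans (h2.trans h3)

theorem rn_bd (n : ℕ) : (2 : ℝ) ^ (n * dm n) ≤ 4 ^ dm n * (((rn n : ℝ) / 2) ^ (2 * dm n)) := by
  have h1 : (2 : ℝ) ^ n ≤ (rn n : ℝ) ^ 2 := by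
    rw [rn]
    push_cast
    rw [← pow_mul]
    exact pow_le_pow_right₀ (by norm_num) (by omega)
  calc (2 : ℝ) ^ (n * dm n) = ((2 : ℝ) ^ n) ^ dm n := by rw [pow_mul]
    _ ≤ ((rn n : ℝ) ^ 2) ^ dm n := pow_le_pow_left₀ (by positivity) h1 _
    _ = 4 ^ dm n * (((rn n : ℝ) / 2) ^ (2 * dm n)) := by
        rw [pow_mul ((rn n : ℝ) / 2), ← mul_pow]
        congr 1
        ring

/-! ### linearity -/

variable {D : ℕ} {X : Type} [NormedAddCommGroup X] [NormedSpace ℝ X]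

theorem dif {f : P D → X} (hf : Smo f) : Differentiable ℝ f := hf.differentiable (by simp)

theorem pd_sub {f g : P D → X} (hf : Differentiable ℝ f) (hg : Differentiable ℝ g)
    (i : Fin D) (x : P D) :
    pd i (fun z => f z - g z) x = pd i f x - pd i g x := by
  have h1 : HasFDerivAt (fun z => f z - g z) (fderiv ℝ f x - fderiv ℝ g x) x :=
    (hf x).hasFDerivAt.sub (hg x).hasFDerivAt
  show fderiv ℝ (fun z => f z - g z) x (Pi.single i 1) = _
  rw [h1.fderiv]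
  rfl

theorem smo_pd {f : P D → X} (hf : Smo f) (i : Fin D) : Smo (pd i f) := by
  have h1 : ContDiff ℝ ((⊤ : ℕ∞) : WithTop ℕ∞) (fderiv ℝ f) := hf.fderiv_right (by simp)
  exact h1.clm_apply contDiff_const

theorem smo_pdw {f : P D → X} (hf : Smo f) : ∀ w : List (Fin D), Smo (pdw w f)
  | [] => hf
  | i :: w => smo_pd (smo_pdw hf w) i

theorem pdw_sub {f g : P D → X} (hf : Smo f) (hg : Smo g) : ∀ w : List (Fin D),
    pdw w (fun z => f z - g z) = fun z => pdw w f z - pdw w g z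
  | [] => rfl
  | i :: w => by
      funext x
      show pd i (pdw w (fun z => f z - g z)) x = pd i (pdw w f) x - pd i (pdw w g) x
      rw [pdw_sub hf hg w]
      exact pd_sub (dif (smo_pdw hf w)) (dif (smo_pdw hg w)) i x

theorem smo_DD (A : Fin D → (X →L[ℝ] X)) {f : P D → X} (hf : Smo f) : Smo (DD A f) :=
  ContDiff.sum fun i _ => (A i).contDiff.comp (smo_pd hf i)

theorem smo_DDq (A : Fin D → (X →L[ℝ] X)) {f : P D → X} (hf : Smo f) :
    ∀ q : ℕ, Smo ((DD A)^[q] f)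
  | 0 => hf
  | q + 1 => by
      rw [Function.iterate_succ_apply']
      exact smo_DD A (smo_DDq A hf q)

theorem DD_sub (A : Fin D → (X →L[ℝ] X)) {f g : P D → X} (hf : Smo f) (hg : Smo g) :
    DD A (fun z => f z - g z) = fun z => DD A f z - DD A g z := by
  funext x
  unfold DD
  rw [← Finset.sum_sub_distrib]
  refine Finset.sum_congr rfl fun i _ => ?_
  rw [pd_sub (dif hf) (dif hg), map_sub]

theorem DDq_sub (A : Fin D → (X →L[ℝ] X)) {f g : P D → X} (hf : Smo f) (hg : Smo g) :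
    ∀ q : ℕ, (DD A)^[q] (fun z => f z - g z) = fun z => (DD A)^[q] f z - (DD A)^[q] g z
  | 0 => rfl
  | q + 1 => by
      rw [Function.iterate_succ_apply', DDq_sub A hf hg q, DD_sub A (smo_DDq A hf q)
        (smo_DDq A hg q), Function.iterate_succ_apply', Function.iterate_succ_apply']

theorem LL_sub {n : ℕ} (A : Fin (dm n) → (X →L[ℝ] X)) {f g : P (dm n) → X} (hf : Smo f)
    (hg : Smo g) (x : P (dm n)) :
    LL n A (fun z => f z - g z) x = LL n A f x - LL n A g x := by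
  unfold LL
  rw [← Finset.sum_sub_distrib]
  refine Finset.sum_congr rfl fun q _ => ?_
  rw [DDq_sub A hf hg q, smul_sub]

/-! ### the kernel applied to a vector -/

/-- the wide kernel at `y` applied to `u` -/
def TT (n : ℕ) (A : Fin (dm n) → (X →L[ℝ] X)) (w : List (Fin (dm n))) (y : P (dm n)) (u : X) : X :=
  W0 n w y • u + ∑ i, W1 n (i :: w) y • A i u

theorem TT_sub (n : ℕ) (A : Fin (dm n) → (X →L[ℝ] X)) (w : List (Fin (dm n))) (y : P (dm n))
    (u v : X) : TT n A w y (u - v) = TT n A w y u - TT n A w y v := by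
  unfold TT
  simp only [map_sub, smul_sub, Finset.sum_sub_distrib]
  abel

theorem TT_bd {n C : ℕ} (hn : 2 ≤ n) (A : Fin (dm n) → (X →L[ℝ] X)) (hA : Cliff A)
    (w : List (Fin (dm n))) (hw : w.length ≤ dm n) (y : P (dm n)) (u : X)
    (hC : ∀ (w : List (Fin (dm n))) (z : P (dm n)),
      |K0 n w z| ≤ crd n C w z ∧ |K1 n w z| ≤ crd n C w z ∧ |T0 n w z| ≤ crd n C w z ∧
      |T1a n w z| ≤ crd n C w z ∧ |T1b n w z| ≤ crd n C w z) :
    ‖TT n A w y u‖ ≤ Rn n ^ w.length * (Kp n * (n : ℝ) ^ (C * n ^ 4)) *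
      (1 + ‖y‖) ^ (-(6 * (dm n : ℤ))) * ‖u‖ := by
  have hD1 : 1 ≤ dm n := Nat.one_le_pow _ _ (by omega)
  have hD1' : (1 : ℝ) ≤ dm n := by exact_mod_cast hD1
  set N : ℝ := (n : ℝ) ^ (C * n ^ 4) with hN
  set E : ℝ := (1 + ‖y‖) ^ (-(6 * (dm n : ℤ))) with hE
  have hN0 : 0 ≤ N := by positivity
  have hE0 : 0 ≤ E := by positivity
  have hR : Rn n ^ w.length = ((dm n : ℝ) ^ w.length) ^ 3 := by
    rw [Rn, dm_cast]
    rw [← pow_mul, ← pow_mul, ← pow_mul]
    congr 1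
    ring
  have hf : (w.length.factorial : ℝ) ≤ (dm n : ℝ) ^ w.length := by
    have h1 : w.length.factorial ≤ w.length ^ w.length := Nat.factorial_le_pow _
    have h2 : w.length ^ w.length ≤ dm n ^ w.length := Nat.pow_le_pow_left hw _
    exact_mod_cast h1.trans h2
  set V : ℝ := (dm n : ℝ) ^ w.length with hV
  have hV1 : 1 ≤ V := one_le_pow₀ hD1'
  have hV3 : V * V ≤ V ^ 3 := by
    have : V ^ 2 ≤ V ^ 3 := pow_le_pow_right₀ hV1 (by norm_num)
    nlinarith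
  have c0 : crd n C w y ≤ V ^ 3 * N * E := by
    unfold crd
    refine mul_le_mul_of_nonneg_right (mul_le_mul_of_nonneg_right ?_ hN0) hE0
    exact (mul_le_mul_of_nonneg_right hf (by positivity)).trans hV3
  have c1 : ∀ i, crd n C (i :: w) y ≤ V ^ 3 * ((dm n + 1) * dm n) * N * E := by
    intro i
    unfold crd
    refine mul_le_mul_of_nonneg_right (mul_le_mul_of_nonneg_right ?_ hN0) hE0
    have e1 : (i :: w).length = w.length + 1 := List.length_cons
    rw [e1, Nat.factorial_succ, pow_succ]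
    push_cast
    have h1 : (w.length : ℝ) + 1 ≤ dm n + 1 := by
      have : (w.length : ℝ) ≤ dm n := by exact_mod_cast hw
      linarith
    have h2 : ((w.length : ℝ) + 1) * (w.length.factorial : ℝ) ≤ (dm n + 1) * V :=
      mul_le_mul h1 hf (by positivity) (by positivity)
    calc ((w.length : ℝ) + 1) * (w.length.factorial : ℝ) * ((dm n : ℝ) ^ w.length * dm n)
        ≤ ((dm n + 1) * V) * (V * dm n) :=
          mul_le_mul_of_nonneg_right h2 (by positivity)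
      _ = (V * V) * ((dm n + 1) * dm n) := by ring
      _ ≤ V ^ 3 * ((dm n + 1) * dm n) := mul_le_mul_of_nonneg_right hV3 (by positivity)
  have w0 : |W0 n w y| ≤ 2 * (V ^ 3 * N * E) := by
    unfold W0
    have h1 := (hC w y).1
    have h2 := (hC w y).2.2.1
    calc |K0 n w y - T0 n w y| ≤ |K0 n w y| + |T0 n w y| := abs_sub _ _
      _ ≤ 2 * (V ^ 3 * N * E) := by linarith
  have w1 : ∀ i, |W1 n (i :: w) y| ≤ 3 * (V ^ 3 * ((dm n + 1) * dm n) * N * E) := by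
    intro i
    unfold W1
    have h1 := (hC (i :: w) y).2.1
    have h2 := (hC (i :: w) y).2.2.2.1
    have h3 := (hC (i :: w) y).2.2.2.2
    have h4 := c1 i
    calc |K1 n (i :: w) y - T1a n (i :: w) y - T1b n (i :: w) y|
        ≤ |K1 n (i :: w) y - T1a n (i :: w) y| + |T1b n (i :: w) y| := abs_sub _ _
      _ ≤ |K1 n (i :: w) y| + |T1a n (i :: w) y| + |T1b n (i :: w) y| := by
          linarith [abs_sub (K1 n (i :: w) y) (T1a n (i :: w) y)]
      _ ≤ _ := by linarith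
  have hAu : ∀ i, ‖A i u‖ ≤ ‖u‖ := by
    intro i
    calc ‖A i u‖ ≤ ‖A i‖ * ‖u‖ := (A i).le_opNorm _
      _ ≤ 1 * ‖u‖ := mul_le_mul_of_nonneg_right (hA.nrm i) (norm_nonneg _)
      _ = ‖u‖ := one_mul _
  unfold TT
  calc ‖W0 n w y • u + ∑ i, W1 n (i :: w) y • A i u‖
      ≤ ‖W0 n w y • u‖ + ∑ i, ‖W1 n (i :: w) y • A i u‖ :=
        (norm_add_le _ _).trans (add_le_add le_rfl (norm_sum_le _ _))
    _ ≤ 2 * (V ^ 3 * N * E) * ‖u‖ +
        ∑ _i : Fin (dm n), 3 * (V ^ 3 * ((dm n + 1) * dm n) * N * E) * ‖u‖ := by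
        refine add_le_add ?_ (Finset.sum_le_sum fun i _ => ?_)
        · rw [norm_smul, Real.norm_eq_abs]
          exact mul_le_mul_of_nonneg_right w0 (norm_nonneg _)
        · rw [norm_smul, Real.norm_eq_abs]
          exact mul_le_mul (w1 i) (hAu i) (norm_nonneg _) (by positivity)
    _ = Rn n ^ w.length * (Kp n * N) * E * ‖u‖ := by
        rw [Finset.sum_const, Finset.card_univ, Fintype.card_fin, nsmul_eq_mul, hR, Kp]
        ring

end LIM_

open LIM_ in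
theorem lim_proof (hWID : Stmt_WID) (hTPX : Stmt_TPX) (hLLR : Stmt_LLR) (hPGR : Stmt_PGR)
    (hCRD : Stmt_CRD) (hLSW : Stmt_LSW) (_hSMO : Stmt_SMO) : Stmt_LIM := by
  obtain ⟨nW, hWID⟩ := hWID
  obtain ⟨C2, nL, hLLR⟩ := hLLR
  obtain ⟨nP, hPGR⟩ := hPGR
  obtain ⟨C1, hCRD⟩ := hCRD
  obtain ⟨C3, hLSW⟩ := hLSW
  have ev1 := evE 8
  have ev2 := evE (15 + C1 + (8 + C2) + C3)
  have ev3 := evE (15 + C1 + 1 + 2 + C3)
  obtain ⟨n0, hn0⟩ := eventually_atTop.1 (ev1.and (ev2.and ev3))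
  refine ⟨max n0 (max nW (max nL (max nP 3))), ?_⟩
  intro n hn X _ _ _ A F q z b bb w hA hF hb hbb hz hw hjet hjet2 Nr hNr
  have hn_0 : n0 ≤ n := (le_max_left _ _).trans hn
  have hn_W : nW ≤ n := ((le_max_left _ _).trans (le_max_right _ _)).trans hn
  have hn_L : nL ≤ n :=
    ((le_max_left _ _).trans ((le_max_right _ _).trans (le_max_right _ _))).trans hn
  have hn_P : nP ≤ n := ((le_max_left _ _).trans ((le_max_right _ _).trans
    ((le_max_right _ _).trans (le_max_right _ _)))).trans hn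
  have hn3 : 3 ≤ n := ((le_max_right _ _).trans ((le_max_right _ _).trans
    ((le_max_right _ _).trans (le_max_right _ _)))).trans hn
  have hn2 : 2 ≤ n := by omega
  obtain ⟨hE1, hE2, hE3⟩ := hn0 n hn_0
  have hcomp : CompleteSpace X := FiniteDimensional.complete ℝ X
  have hnR : (2 : ℝ) ≤ n := by exact_mod_cast hn2
  have hD1 : 1 ≤ dm n := Nat.one_le_pow _ _ (by omega)
  have hD1' : (1 : ℝ) ≤ dm n := by exact_mod_cast hD1
  have hep := ep_le n hn3
  have hdl0 : 0 ≤ dl n := by unfold dl; positivity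
  have hR1 : 1 ≤ Rn n := by
    unfold Rn
    exact one_le_pow₀ (by linarith)
  have hRw : 1 ≤ Rn n ^ w.length := one_le_pow₀ hR1
  have hC := hCRD n hn2
  set N1 : ℝ := (n : ℝ) ^ (C1 * n ^ 4) with hN1
  set N3 : ℝ := (n : ℝ) ^ (C3 * n ^ 4) with hN3
  have hN10 : 0 ≤ N1 := by positivity
  have hN30 : 0 ≤ N3 := by positivity
  have hKp0 : 0 ≤ Kp n := by unfold Kp; positivity
  set KN : ℝ := Kp n * N1 with hKN
  have hKN0 : 0 ≤ KN := by positivity
  -- asymptotic consequences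
  have a1 : dl n ^ dm n ≤ th n / 8 := by
    have h1 := dl_pow n 0
    rw [pow_zero, mul_one, add_zero] at h1
    rw [h1]
    exact hE1.trans hep
  have a2 : KN * (dl n * (n : ℝ) ^ C2) ^ dm n * N3 ≤ ep n := by
    refine le_trans ?_ hE2
    rw [dl_pow]
    have e1 : (n : ℝ) ^ ((15 + C1 + (8 + C2) + C3) * n ^ 4) =
        (n : ℝ) ^ (15 * n ^ 4) * N1 * (n : ℝ) ^ ((8 + C2) * n ^ 4) * N3 := by
      rw [hN1, hN3, ← pow_add, ← pow_add, ← pow_add]
      congr 1
      ring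
    rw [e1, hKN]
    have h2 := Kp_le n hn2
    calc Kp n * N1 * ((n : ℝ) ^ ((8 + C2) * n ^ 4) * ((2 : ℝ) ^ (n ^ 5))⁻¹) * N3
        = Kp n * (N1 * ((n : ℝ) ^ ((8 + C2) * n ^ 4) * ((2 : ℝ) ^ (n ^ 5))⁻¹) * N3) := by ring
      _ ≤ (n : ℝ) ^ (15 * n ^ 4) *
          (N1 * ((n : ℝ) ^ ((8 + C2) * n ^ 4) * ((2 : ℝ) ^ (n ^ 5))⁻¹) * N3) :=
          mul_le_mul_of_nonneg_right h2 (by positivity)
      _ = _ := by ring
  have a3 : KN * (2 * (4 ^ dm n * ((2 : ℝ) ^ (n ^ 5))⁻¹)) * N3 ≤ th n / 8 := by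
    refine le_trans ?_ (hE3.trans hep)
    have e1 : (n : ℝ) ^ ((15 + C1 + 1 + 2 + C3) * n ^ 4) =
        (n : ℝ) ^ (15 * n ^ 4) * N1 * (n : ℝ) ^ (1 * n ^ 4) * (n : ℝ) ^ (2 * n ^ 4) * N3 := by
      rw [hN1, hN3, ← pow_add, ← pow_add, ← pow_add, ← pow_add]
      congr 1
      ring
    rw [e1, hKN]
    have h2 := Kp_le n hn2
    have h3 : (2 : ℝ) ≤ (n : ℝ) ^ (1 * n ^ 4) := by
      calc (2 : ℝ) ≤ (n : ℝ) ^ 1 := by rw [pow_one]; exact hnR
        _ ≤ (n : ℝ) ^ (1 * n ^ 4) := by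
            refine pow_le_pow_right₀ (by linarith) ?_
            have : 1 ≤ n ^ 4 := Nat.one_le_pow _ _ (by omega)
            omega
    have h4 : (4 : ℝ) ^ dm n ≤ (n : ℝ) ^ (2 * n ^ 4) := by
      rw [pow_mul, dm]
      refine pow_le_pow_left₀ (by norm_num) ?_ _
      nlinarith
    calc Kp n * N1 * (2 * (4 ^ dm n * ((2 : ℝ) ^ (n ^ 5))⁻¹)) * N3
        = (Kp n * (2 * 4 ^ dm n)) * (N1 * ((2 : ℝ) ^ (n ^ 5))⁻¹ * N3) := by ring
      _ ≤ ((n : ℝ) ^ (15 * n ^ 4) * ((n : ℝ) ^ (1 * n ^ 4) * (n : ℝ) ^ (2 * n ^ 4))) *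
          (N1 * ((2 : ℝ) ^ (n ^ 5))⁻¹ * N3) := by
          refine mul_le_mul_of_nonneg_right ?_ (by positivity)
          exact mul_le_mul h2 (mul_le_mul h3 h4 (by positivity) (by positivity))
            (by positivity) (by positivity)
      _ = _ := by ring
  -- the Taylor polynomial
  obtain ⟨Q, hQp, hQ1, hQ2⟩ := hTPX (dm n) X (dm n) F z hF
  have hQs : Smo Q := hQp.sm
  have hQjet : ∀ v : List (Fin (dm n)), ‖pdw v Q z‖ ≤ b * dl n ^ v.length := by
    intro v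
    rcases lt_or_ge v.length (dm n) with hv | hv
    · rw [hQ1 v hv]
      exact hjet v hv.le
    · rw [hQp.top v hv z, norm_zero]
      positivity
  obtain ⟨hSum, hMain⟩ := hWID n hn_W X A Q z b w hA hb hQp hQjet hw
  have hsmoR : Smo (fun x => F x - Q x) := hF.sub hQs
  -- distances
  have hzq : ∀ i, |z i - (q i : ℝ) / dm n| ≤ 1 := by
    intro i
    have h1 := hz i
    rw [abs_le]
    constructor
    · linarith [h1.1]
    · have h2 : ((q i : ℝ) + 1) / dm n = (q i : ℝ) / dm n + 1 / dm n := by ring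
      have h3 : (1 : ℝ) / dm n ≤ 1 := by
        rw [div_le_one (by linarith)]
        exact hD1'
      linarith [h1.2]
  have hnear : ∀ k ∈ Nr, ‖zr k - z‖ ≤ rn n := by
    intro k hk
    rw [pi_norm_le_iff_of_nonneg (Nat.cast_nonneg _)]
    intro i
    have h1 := (hNr k).1 hk i
    have h2 := hzq i
    rw [Pi.sub_apply, Real.norm_eq_abs]
    have h3 : zr k i - z i = -((z i - (q i : ℝ) / dm n) + ((q i : ℝ) / dm n - k i)) := by
      simp only [zr]
      ring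
    rw [h3, abs_neg]
    refine (abs_add_le _ _).trans ?_
    linarith
  have hfar : ∀ k, k ∉ Nr → (rn n : ℝ) / 2 ≤ 1 + ‖z - zr k‖ := by
    intro k hk
    have h0 : ¬ nrk n q k := fun h => hk ((hNr k).2 h)
    unfold nrk at h0
    push Not at h0
    obtain ⟨i, hi⟩ := h0
    have h1 := norm_le_pi_norm (z - zr k) i
    rw [Pi.sub_apply, Real.norm_eq_abs] at h1
    have h2 := hzq i
    have h3 : (q i : ℝ) / dm n - k i = (z i - zr k i) - (z i - (q i : ℝ) / dm n) := by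
      simp only [zr]
      ring
    have h4 : |(q i : ℝ) / dm n - k i| ≤ |z i - zr k i| + |z i - (q i : ℝ) / dm n| := by
      rw [h3]
      exact abs_sub _ _
    have h5 : (2 : ℝ) ≤ rn n := by
      rw [rn]
      push_cast
      calc (2 : ℝ) = 2 ^ 1 := (pow_one _).symm
        _ ≤ 2 ^ ((n + 1) / 2) := pow_le_pow_right₀ (by norm_num) (by omega)
    linarith
  -- the Taylor remainder part
  have hrem : ∀ k ∈ Nr, ‖TT n A w (z - zr k) (LL n A F (zr k)) -
      TT n A w (z - zr k) (LL n A Q (zr k))‖ ≤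
      (Rn n ^ w.length * KN * (bb * (dl n * (n : ℝ) ^ C2) ^ dm n)) *
        (1 + ‖z - zr k‖) ^ (-(5 * (dm n : ℤ))) := by
    intro k hk
    rw [← TT_sub, ← LL_sub A hF hQs]
    have hLL : ‖LL n A (fun x => F x - Q x) (zr k)‖ ≤
        bb * (dl n * (n : ℝ) ^ C2) ^ dm n * (1 + ‖zr k - z‖) ^ dm n := by
      refine hLLR n hn_L X A (fun x => F x - Q x) (zr k) bb ‖zr k - z‖ hA hsmoR hbb
        (norm_nonneg _) ?_
      intro v hv
      rw [pdw_sub hF hQs v]
      refine hQ2 (zr k) (bb * dl n ^ dm n) ?_ v hv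
      intro t ht v' hv'
      refine hjet2 _ ?_ v' hv'
      rw [add_sub_cancel_left, norm_smul, Real.norm_eq_abs, abs_of_nonneg ht.1]
      calc t * ‖zr k - z‖ ≤ 1 * ‖zr k - z‖ :=
            mul_le_mul_of_nonneg_right ht.2 (norm_nonneg _)
        _ ≤ rn n := by rw [one_mul]; exact hnear k hk
    have h1 := TT_bd hn2 A hA w hw (z - zr k) (LL n A (fun x => F x - Q x) (zr k)) hC
    refine h1.trans ?_
    rw [← norm_sub_rev z (zr k)] at hLL
    have hs : (0 : ℝ) < 1 + ‖z - zr k‖ := by positivity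
    calc Rn n ^ w.length * (Kp n * (n : ℝ) ^ (C1 * n ^ 4)) *
          (1 + ‖z - zr k‖) ^ (-(6 * (dm n : ℤ))) * ‖LL n A (fun x => F x - Q x) (zr k)‖
        ≤ Rn n ^ w.length * (Kp n * (n : ℝ) ^ (C1 * n ^ 4)) *
          (1 + ‖z - zr k‖) ^ (-(6 * (dm n : ℤ))) *
          (bb * (dl n * (n : ℝ) ^ C2) ^ dm n * (1 + ‖z - zr k‖) ^ dm n) :=
          mul_le_mul_of_nonneg_left hLL (by positivity)
      _ = (Rn n ^ w.length * KN * (bb * (dl n * (n : ℝ) ^ C2) ^ dm n)) *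
          ((1 + ‖z - zr k‖) ^ (-(6 * (dm n : ℤ))) * (1 + ‖z - zr k‖) ^ ((dm n : ℕ) : ℤ)) := by
          rw [hKN, hN1, zpow_natCast]
          ring
      _ = _ := by
          rw [← zpow_add₀ hs.ne']
          congr 2
          ring
  have hL5 := hLSW n hn2 z (5 * (dm n : ℤ)) (by
    have : (0 : ℤ) ≤ (dm n : ℤ) := Int.natCast_nonneg _
    linarith)
  have hL3 := hLSW n hn2 z (3 * (dm n : ℤ)) (by
    have : (0 : ℤ) ≤ (dm n : ℤ) := Int.natCast_nonneg _
    linarith)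
  have hpart1 : ‖∑ k ∈ Nr, (TT n A w (z - zr k) (LL n A F (zr k)) -
      TT n A w (z - zr k) (LL n A Q (zr k)))‖ ≤ Rn n ^ w.length * (ep n * bb) := by
    have h0 : ∀ k : Z (dm n), 0 ≤ (1 + ‖z - zr k‖) ^ (-(5 * (dm n : ℤ))) :=
      fun k => by positivity
    have hc0 : 0 ≤ Rn n ^ w.length * KN * (bb * (dl n * (n : ℝ) ^ C2) ^ dm n) := by
      positivity
    calc _ ≤ ∑ k ∈ Nr, ‖TT n A w (z - zr k) (LL n A F (zr k)) -
          TT n A w (z - zr k) (LL n A Q (zr k))‖ := norm_sum_le _ _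
      _ ≤ ∑ k ∈ Nr, (Rn n ^ w.length * KN * (bb * (dl n * (n : ℝ) ^ C2) ^ dm n)) *
          (1 + ‖z - zr k‖) ^ (-(5 * (dm n : ℤ))) := Finset.sum_le_sum hrem
      _ = (Rn n ^ w.length * KN * (bb * (dl n * (n : ℝ) ^ C2) ^ dm n)) *
          ∑ k ∈ Nr, (1 + ‖z - zr k‖) ^ (-(5 * (dm n : ℤ))) := by rw [Finset.mul_sum]
      _ ≤ (Rn n ^ w.length * KN * (bb * (dl n * (n : ℝ) ^ C2) ^ dm n)) * N3 := by
          refine mul_le_mul_of_nonneg_left ?_ hc0
          exact (hL5.1.sum_le_tsum Nr fun k _ => h0 k).trans hL5.2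
      _ = Rn n ^ w.length * ((KN * (dl n * (n : ℝ) ^ C2) ^ dm n * N3) * bb) := by ring
      _ ≤ Rn n ^ w.length * (ep n * bb) := by
          refine mul_le_mul_of_nonneg_left ?_ (by positivity)
          exact mul_le_mul_of_nonneg_right a2 hbb
  -- the far part
  have hsum' : Summable (fun k : Z (dm n) => TT n A w (z - zr k) (LL n A Q (zr k))) :=
    hSum.of_norm
  have hpart2 : ‖(∑' k : Z (dm n), TT n A w (z - zr k) (LL n A Q (zr k))) -
      ∑ k ∈ Nr, TT n A w (z - zr k) (LL n A Q (zr k))‖ ≤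
      Rn n ^ w.length * (th n / 8 * b) := by
    classical
    have hf1 : HasSum (fun k : Z (dm n) => if k ∈ Nr then
        TT n A w (z - zr k) (LL n A Q (zr k)) else 0)
        (∑ k ∈ Nr, TT n A w (z - zr k) (LL n A Q (zr k))) := by
      have h1 : HasSum (fun k : Z (dm n) => if k ∈ Nr then
          TT n A w (z - zr k) (LL n A Q (zr k)) else 0)
          (∑ k ∈ Nr, (if k ∈ Nr then TT n A w (z - zr k) (LL n A Q (zr k)) else 0)) :=
        hasSum_sum_of_ne_finset_zero (fun k hk => if_neg hk)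
      have h2 : ∑ k ∈ Nr, (if k ∈ Nr then TT n A w (z - zr k) (LL n A Q (zr k)) else 0) =
          ∑ k ∈ Nr, TT n A w (z - zr k) (LL n A Q (zr k)) :=
        Finset.sum_congr rfl fun k hk => if_pos hk
      rw [h2] at h1
      exact h1
    have hf2 := hsum'.hasSum.sub hf1
    have hg : HasSum (fun k : Z (dm n) =>
        (Rn n ^ w.length * KN * (2 * (4 ^ dm n * ((2 : ℝ) ^ (n ^ 5))⁻¹)) * b) *
          (1 + ‖z - zr k‖) ^ (-(3 * (dm n : ℤ))))
        ((Rn n ^ w.length * KN * (2 * (4 ^ dm n * ((2 : ℝ) ^ (n ^ 5))⁻¹)) * b) *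
          ∑' k : Z (dm n), (1 + ‖z - zr k‖) ^ (-(3 * (dm n : ℤ)))) :=
      hL3.1.hasSum.mul_left _
    have hle := hf2.norm_le_of_bounded hg (fun k => by
      by_cases hk : k ∈ Nr
      · simp only [hk, if_true, sub_self, norm_zero]
        positivity
      · simp only [hk, if_false, sub_zero]
        have h1 := TT_bd hn2 A hA w hw (z - zr k) (LL n A Q (zr k)) hC
        have h2 := (hPGR n hn_P X A Q z (zr k) b hA hb hQp hQjet).2
        rw [← norm_sub_rev z (zr k)] at h2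
        have hs : (0 : ℝ) < 1 + ‖z - zr k‖ := by positivity
        have h3 : (1 + ‖z - zr k‖) ^ (-(2 * (dm n : ℤ))) ≤
            4 ^ dm n * ((2 : ℝ) ^ (n ^ 5))⁻¹ := by
          have h4 := rn_bd n
          have e5 : n * dm n = n ^ 5 := by rw [dm]; ring
          rw [e5] at h4
          have h5 : ((rn n : ℝ) / 2) ^ (2 * dm n) ≤ (1 + ‖z - zr k‖) ^ (2 * dm n) :=
            pow_le_pow_left₀ (by positivity) (hfar k hk) _
          have h6 : (2 : ℝ) ^ (n ^ 5) ≤ 4 ^ dm n * (1 + ‖z - zr k‖) ^ (2 * dm n) :=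
            h4.trans (mul_le_mul_of_nonneg_left h5 (by positivity))
          have e6 : (1 + ‖z - zr k‖) ^ (-(2 * (dm n : ℤ))) =
              ((1 + ‖z - zr k‖) ^ (2 * dm n))⁻¹ := by
            have e7 : (2 * (dm n : ℤ)) = ((2 * dm n : ℕ) : ℤ) := by push_cast; ring
            rw [zpow_neg, e7, zpow_natCast]
          rw [e6]
          have hp : 0 < (1 + ‖z - zr k‖) ^ (2 * dm n) := by positivity
          rw [inv_le_iff_one_le_mul₀ hp]
          have h2p : (0 : ℝ) < 2 ^ (n ^ 5) := by positivity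
          calc (1 : ℝ) = 2 ^ (n ^ 5) * ((2 : ℝ) ^ (n ^ 5))⁻¹ := (mul_inv_cancel₀ h2p.ne').symm
            _ ≤ (4 ^ dm n * (1 + ‖z - zr k‖) ^ (2 * dm n)) * ((2 : ℝ) ^ (n ^ 5))⁻¹ :=
                mul_le_mul_of_nonneg_right h6 (by positivity)
            _ = _ := by ring
        refine h1.trans ?_
        calc Rn n ^ w.length * (Kp n * (n : ℝ) ^ (C1 * n ^ 4)) *
              (1 + ‖z - zr k‖) ^ (-(6 * (dm n : ℤ))) * ‖LL n A Q (zr k)‖
            ≤ Rn n ^ w.length * (Kp n * (n : ℝ) ^ (C1 * n ^ 4)) *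
              (1 + ‖z - zr k‖) ^ (-(6 * (dm n : ℤ))) *
              (2 * b * (1 + ‖z - zr k‖) ^ dm n) :=
              mul_le_mul_of_nonneg_left h2 (by positivity)
          _ = (Rn n ^ w.length * KN * 2 * b) *
              ((1 + ‖z - zr k‖) ^ (-(6 * (dm n : ℤ))) *
                (1 + ‖z - zr k‖) ^ ((dm n : ℕ) : ℤ)) := by
              rw [hKN, hN1, zpow_natCast]
              ring
          _ = (Rn n ^ w.length * KN * 2 * b) *
              ((1 + ‖z - zr k‖) ^ (-(2 * (dm n : ℤ))) *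
                (1 + ‖z - zr k‖) ^ (-(3 * (dm n : ℤ)))) := by
              rw [← zpow_add₀ hs.ne', ← zpow_add₀ hs.ne']
              congr 2
              ring
          _ ≤ (Rn n ^ w.length * KN * 2 * b) *
              ((4 ^ dm n * ((2 : ℝ) ^ (n ^ 5))⁻¹) *
                (1 + ‖z - zr k‖) ^ (-(3 * (dm n : ℤ)))) := by
              refine mul_le_mul_of_nonneg_left ?_ (by positivity)
              exact mul_le_mul_of_nonneg_right h3 (by positivity)
          _ = _ := by ring)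
    refine hle.trans ?_
    calc _ ≤ (Rn n ^ w.length * KN * (2 * (4 ^ dm n * ((2 : ℝ) ^ (n ^ 5))⁻¹)) * b) * N3 :=
          mul_le_mul_of_nonneg_left hL3.2 (by positivity)
      _ = Rn n ^ w.length * ((KN * (2 * (4 ^ dm n * ((2 : ℝ) ^ (n ^ 5))⁻¹)) * N3) * b) := by
          ring
      _ ≤ Rn n ^ w.length * (th n / 8 * b) := by
          refine mul_le_mul_of_nonneg_left ?_ (by positivity)
          exact mul_le_mul_of_nonneg_right a3 hb
  -- the jet itself
  have hpart3 : ‖pdw w F z - pdw w Q z‖ ≤ Rn n ^ w.length * (th n / 8 * b) := by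
    rcases lt_or_ge w.length (dm n) with hv | hv
    · rw [hQ1 w hv, sub_self, norm_zero]
      have : 0 < th n := Real.exp_pos _
      positivity
    · rw [hQp.top w hv z, sub_zero]
      have e : w.length = dm n := le_antisymm hw hv
      calc ‖pdw w F z‖ ≤ b * dl n ^ w.length := hjet w hw
        _ = dl n ^ dm n * b := by rw [e]; ring
        _ ≤ th n / 8 * b := mul_le_mul_of_nonneg_right a1 hb
        _ ≤ Rn n ^ w.length * (th n / 8 * b) := by
            have : 0 < th n := Real.exp_pos _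
            exact le_mul_of_one_le_left (by positivity) hRw
  -- conclusion
  have key : pdw w F z + ∑ k ∈ Nr, TT n A w (z - zr k) (LL n A F (zr k)) =
      (pdw w F z - pdw w Q z) +
      (∑ k ∈ Nr, (TT n A w (z - zr k) (LL n A F (zr k)) -
        TT n A w (z - zr k) (LL n A Q (zr k)))) +
      ((∑' k : Z (dm n), TT n A w (z - zr k) (LL n A Q (zr k))) + pdw w Q z) -
      ((∑' k : Z (dm n), TT n A w (z - zr k) (LL n A Q (zr k))) -
        ∑ k ∈ Nr, TT n A w (z - zr k) (LL n A Q (zr k))) := by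
    rw [Finset.sum_sub_distrib]
    abel
  have hgoal : ‖pdw w F z + ∑ k ∈ Nr, TT n A w (z - zr k) (LL n A F (zr k))‖ ≤
      Rn n ^ w.length * (th n / 2 * b + ep n * bb) := by
    rw [key]
    have hMain' : ‖(∑' k : Z (dm n), TT n A w (z - zr k) (LL n A Q (zr k))) + pdw w Q z‖ ≤
      Rn n ^ w.length * (th n / 4) * b := hMain
    refine (norm_sub_le _ _).trans ?_
    refine (add_le_add (norm_add₃_le) le_rfl).trans ?_
    have e : Rn n ^ w.length * (th n / 2 * b + ep n * bb) =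
      Rn n ^ w.length * (th n / 8 * b) + Rn n ^ w.length * (ep n * bb) +
      Rn n ^ w.length * (th n / 4) * b + Rn n ^ w.length * (th n / 8 * b) := by ring
    rw [e]
    linarith
  exact hgoal

end

end Pool.Agent.HBW
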