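import Pool.Agent.HBW.Stmts

/-!
Squad HBW, module LIN: the local inequality.
-/

set_option autoImplicit false

namespace Pool.Agent.HBW

open MeasureTheory Set Filter Topology
open scoped ENNReal Real

namespace LIN_

theorem dm_pos {n : ℕ} (hn : 1 ≤ n) : (0 : ℝ) < dm n := by
  have : 0 < dm n := by unfold dm; positivity
  exact_mod_cast this

theorem rho_eq (n : ℕ) : rho n = dm n * 2 ^ n := rfl

theorem mem_Pb_pc {n : ℕ} (hn : 1 ≤ n) (q : Z (dm n)) (z : P (dm n)) (hz : z ∈ Cb n q) :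
    z ∈ Pb n (pc n q) := by
  intro i
  obtain ⟨h1, h2⟩ := hz i
  have hD := dm_pos hn
  have hr : (0 : ℤ) < (rho n : ℤ) := by
    have : 0 < rho n := by unfold rho; positivity
    exact_mod_cast this
  have e1 : pc n q i * (rho n : ℤ) ≤ q i := Int.ediv_mul_le (q i) hr.ne'
  have e2 : q i + 1 ≤ (pc n q i + 1) * (rho n : ℤ) := Int.lt_ediv_add_one_mul_self (q i) hr
  have e1' : (pc n q i : ℝ) * (dm n * 2 ^ n) ≤ q i := by
    have := rho_eq n
    have h : ((pc n q i * (rho n : ℤ) : ℤ) : ℝ) ≤ ((q i : ℤ) : ℝ) := by exact_mod_cast e1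
    rw [this] at h
    push_cast at h
    exact h
  have e2' : (q i : ℝ) + 1 ≤ ((pc n q i : ℝ) + 1) * (dm n * 2 ^ n) := by
    have := rho_eq n
    have h : ((q i + 1 : ℤ) : ℝ) ≤ (((pc n q i + 1) * (rho n : ℤ) : ℤ) : ℝ) := by
      exact_mod_cast e2
    rw [this] at h
    push_cast at h
    exact h
  constructor
  · refine le_trans ?_ h1
    rw [le_div_iff₀ hD]
    linarith
  · refine le_trans h2 ?_
    rw [div_le_iff₀ hD]
    linarith

theorem pc_mem {n : ℕ} (hn : 1 ≤ n) (S : Finset (Z (dm n))) (q : Z (dm n)) (h : q ∈ chd n S) :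
    pc n q ∈ S := by
  unfold chd at h
  rw [Finset.mem_biUnion] at h
  obtain ⟨p, hp, hq⟩ := h
  rw [Fintype.mem_piFinset] at hq
  have hr : (0 : ℤ) < (rho n : ℤ) := by
    have : 0 < rho n := by unfold rho; positivity
    exact_mod_cast this
  have : pc n q = p := by
    funext i
    have hi := hq i
    rw [Finset.mem_Ico] at hi
    show q i / (rho n : ℤ) = p i
    have h1 : p i ≤ q i / (rho n : ℤ) := (Int.le_ediv_iff_mul_le hr).2 hi.1
    have h2 : q i / (rho n : ℤ) < p i + 1 := (Int.ediv_lt_iff_lt_mul hr).2 hi.2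
    omega
  rw [this]; exact hp

theorem pr_mem {n : ℕ} (S : Finset (Z (dm n))) (k : Z (dm n)) (h : k ∈ ZA n S) :
    pr n k ∈ S := by
  unfold ZA at h
  rw [Finset.mem_biUnion] at h
  obtain ⟨p, hp, hq⟩ := h
  rw [Fintype.mem_piFinset] at hq
  have : pr n k = p := by
    funext i
    have hi := hq i
    rw [Finset.mem_Ico] at hi
    show k i / 2 ^ n = p i
    have hr : (0 : ℤ) < 2 ^ n := by positivity
    have h1 : p i ≤ k i / 2 ^ n := (Int.le_ediv_iff_mul_le hr).2 hi.1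
    have h2 : k i / 2 ^ n < p i + 1 := (Int.ediv_lt_iff_lt_mul hr).2 hi.2
    omega
  rw [this]; exact hp

theorem mem_ZA {n : ℕ} (S : Finset (Z (dm n))) (k : Z (dm n)) (h : pr n k ∈ S) :
    k ∈ ZA n S := by
  unfold ZA
  rw [Finset.mem_biUnion]
  refine ⟨pr n k, h, ?_⟩
  rw [Fintype.mem_piFinset]
  intro i
  rw [Finset.mem_Ico]
  have hr : (0 : ℤ) < 2 ^ n := by positivity
  exact ⟨Int.ediv_mul_le (k i) hr.ne', Int.lt_ediv_add_one_mul_self (k i) hr⟩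

theorem zr_mem_Pb (n : ℕ) (k : Z (dm n)) : zr k ∈ Pb n (pr n k) := by
  intro i
  have hr : (0 : ℤ) < 2 ^ n := by positivity
  have e1 : pr n k i * 2 ^ n ≤ k i := Int.ediv_mul_le (k i) hr.ne'
  have e2 : k i < (pr n k i + 1) * 2 ^ n := Int.lt_ediv_add_one_mul_self (k i) hr
  constructor
  · have h : ((pr n k i * 2 ^ n : ℤ) : ℝ) ≤ ((k i : ℤ) : ℝ) := by exact_mod_cast e1
    push_cast at h
    exact h
  · have h : ((k i : ℤ) : ℝ) ≤ (((pr n k i + 1) * 2 ^ n : ℤ) : ℝ) := by exact_mod_cast e2.le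
    push_cast at h
    exact h

/-- the cube containing a point -/
theorem exists_Pb (n : ℕ) (y : P (dm n)) : ∃ p : Z (dm n), y ∈ Pb n p := by
  refine ⟨fun i => ⌊y i / 2 ^ n⌋, fun i => ?_⟩
  have hr : (0 : ℝ) < 2 ^ n := by positivity
  constructor
  · rw [← le_div_iff₀ hr]
    exact Int.floor_le _
  · rw [← div_le_iff₀ hr]
    exact (Int.lt_floor_add_one _).le

theorem corner_mem (n : ℕ) (hn : 1 ≤ n) (q : Z (dm n)) :
    (fun i => (q i : ℝ) / dm n : P (dm n)) ∈ Cb n q := by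
  intro i
  have hD := dm_pos hn
  refine ⟨le_refl _, ?_⟩
  show (q i : ℝ) / dm n ≤ ((q i : ℝ) + 1) / dm n
  gcongr
  linarith

theorem sub_mem_Cb {n : ℕ} (hn : 1 ≤ n) (q k : Z (dm n)) (z : P (dm n)) (hz : z ∈ Cb n q) :
    z - zr k ∈ Cb n (q - (dm n : ℤ) • k) := by
  intro i
  have hD := dm_pos hn
  obtain ⟨h1, h2⟩ := hz i
  have e : (((q - (dm n : ℤ) • k) i : ℤ) : ℝ) = (q i : ℝ) - dm n * k i := by
    simp
  rw [e]
  rw [div_le_iff₀ hD] at h1 ⊢
  rw [le_div_iff₀ hD] at h2 ⊢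
  have e2 : (z - zr k) i = z i - k i := rfl
  rw [e2]
  constructor <;> nlinarith

theorem vec_bound {D : ℕ} {X : Type} [NormedAddCommGroup X] [NormedSpace ℝ X]
    (A : Fin D → (X →L[ℝ] X)) (hA : Cliff A) (α : ℝ) (β : Fin D → ℝ) (v : X) :
    ‖α • v + ∑ i, β i • A i v‖ ≤ (|α| + ∑ i, |β i|) * ‖v‖ := by
  refine (norm_add_le _ _).trans ?_
  rw [add_mul]
  refine add_le_add ?_ ?_
  · rw [norm_smul, Real.norm_eq_abs]
  · rw [Finset.sum_mul]
    refine (norm_sum_le _ _).trans (Finset.sum_le_sum fun i _ => ?_)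
    rw [norm_smul, Real.norm_eq_abs]
    refine mul_le_mul_of_nonneg_left ?_ (abs_nonneg _)
    calc ‖A i v‖ ≤ ‖A i‖ * ‖v‖ := (A i).le_opNorm v
      _ ≤ 1 * ‖v‖ := mul_le_mul_of_nonneg_right (hA.nrm i) (norm_nonneg _)
      _ = ‖v‖ := one_mul _

/-- the factor of a word -/
theorem word_factor {D m : ℕ} (hD : 1 ≤ D) (hm : m ≤ D) :
    ((m.factorial : ℝ) * (D : ℝ) ^ m) ≤ ((D : ℝ) ^ 3) ^ m ∧
    (((m + 1).factorial : ℝ) * (D : ℝ) ^ (m + 1)) ≤ 2 * (D : ℝ) ^ 2 * ((D : ℝ) ^ 3) ^ m := by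
  have hD1 : (1 : ℝ) ≤ D := by exact_mod_cast hD
  have h1 : (m.factorial : ℝ) ≤ (D : ℝ) ^ m := by
    have : m.factorial ≤ m ^ m := Nat.factorial_le_pow m
    have h2 : m ^ m ≤ D ^ m := Nat.pow_le_pow_left hm m
    exact_mod_cast this.trans h2
  have h3 : ((m.factorial : ℝ) * (D : ℝ) ^ m) ≤ ((D : ℝ) ^ 3) ^ m := by
    calc ((m.factorial : ℝ) * (D : ℝ) ^ m) ≤ (D : ℝ) ^ m * (D : ℝ) ^ m := by gcongr
      _ = ((D : ℝ) ^ 2) ^ m := by rw [← mul_pow]; ring_nf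
      _ ≤ ((D : ℝ) ^ 3) ^ m := by
        gcongr
        norm_num
  refine ⟨h3, ?_⟩
  have h4 : ((m + 1).factorial : ℝ) = (m + 1) * m.factorial := by
    rw [Nat.factorial_succ]; push_cast; ring
  have h5 : ((m : ℝ) + 1) ≤ 2 * D := by
    have : (m : ℝ) ≤ D := by exact_mod_cast hm
    linarith
  calc (((m + 1).factorial : ℝ) * (D : ℝ) ^ (m + 1))
      = ((m : ℝ) + 1) * D * ((m.factorial : ℝ) * (D : ℝ) ^ m) := by rw [h4, pow_succ]; ring
    _ ≤ (2 * D) * D * (((D : ℝ) ^ 3) ^ m) := by gcongr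
    _ = _ := by ring

theorem expbd : Real.exp (1 / 16) ≤ 4 / 3 := by
  have h : Real.exp (-(1 / 16)) ≥ 1 - 1 / 16 := by
    have := Real.add_one_le_exp (-(1 / 16 : ℝ))
    linarith
  have h2 : Real.exp (1 / 16) * Real.exp (-(1 / 16)) = 1 := by
    rw [← Real.exp_add]; norm_num
  have h3 : 0 < Real.exp (1 / 16 : ℝ) := Real.exp_pos _
  nlinarith

/-- the asymptotic inequality -/
theorem asym (C : ℕ) : ∃ n0 : ℕ, ∀ n ≥ n0, 2 ≤ n →
    (2 * (1 + 2 * (dm n : ℝ) ^ 3)) * (n : ℝ) ^ (C * n ^ 4) * 2 ^ (6 * dm n) *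
      ((2 : ℝ) ^ (n ^ 5))⁻¹ ≤ ep n := by
  have h := tendsto_pow_const_div_const_pow_of_one_lt (C + 21) (r := (3 / 2 : ℝ)) (by norm_num)
  have h1 : ∀ᶠ n : ℕ in atTop, (n : ℝ) ^ (C + 21) / (3 / 2 : ℝ) ^ n < 1 :=
    h.eventually_lt_const (by norm_num)
  obtain ⟨n0, hn0⟩ := eventually_atTop.1 h1
  refine ⟨n0, fun n hn hn2 => ?_⟩
  have h2 := hn0 n hn
  rw [div_lt_one (by positivity)] at h2
  have hn1 : (2 : ℝ) ≤ n := by exact_mod_cast hn2
  have hn1' : (1 : ℝ) ≤ n := by linarith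
  have e1 : (2 * (1 + 2 * (dm n : ℝ) ^ 3)) ≤ (n : ℝ) ^ 15 := by
    have : (dm n : ℝ) = (n : ℝ) ^ 4 := by unfold dm; push_cast; ring
    rw [this]
    have h3 : (1 : ℝ) ≤ (n : ℝ) ^ 12 := one_le_pow₀ hn1'
    have h4 : (8 : ℝ) ≤ (n : ℝ) ^ 3 := by
      calc (8 : ℝ) = 2 ^ 3 := by norm_num
        _ ≤ _ := by gcongr
    calc 2 * (1 + 2 * ((n : ℝ) ^ 4) ^ 3) = 2 + 4 * (n : ℝ) ^ 12 := by ring
      _ ≤ 8 * (n : ℝ) ^ 12 := by nlinarith
      _ ≤ (n : ℝ) ^ 3 * (n : ℝ) ^ 12 := by gcongr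
      _ = _ := by ring
  have e2 : (n : ℝ) ^ 15 ≤ (n : ℝ) ^ (15 * n ^ 4) := by
    apply pow_le_pow_right₀ hn1'
    have : 1 ≤ n ^ 4 := Nat.one_le_pow _ _ (by omega)
    omega
  have e3 : (2 : ℝ) ^ (6 * dm n) ≤ (n : ℝ) ^ (6 * n ^ 4) := by
    unfold dm
    gcongr
  have e4 : (2 * (1 + 2 * (dm n : ℝ) ^ 3)) * (n : ℝ) ^ (C * n ^ 4) * 2 ^ (6 * dm n) ≤
      ((3 / 2 : ℝ) ^ n) ^ (n ^ 4) := by
    calc (2 * (1 + 2 * (dm n : ℝ) ^ 3)) * (n : ℝ) ^ (C * n ^ 4) * 2 ^ (6 * dm n)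
        ≤ (n : ℝ) ^ (15 * n ^ 4) * (n : ℝ) ^ (C * n ^ 4) * (n : ℝ) ^ (6 * n ^ 4) := by
          gcongr
          exact e1.trans e2
      _ = ((n : ℝ) ^ (C + 21)) ^ (n ^ 4) := by
          rw [← pow_add, ← pow_add, ← pow_mul]
          congr 1
          ring
      _ ≤ _ := by gcongr
  have e5 : ((3 / 2 : ℝ) ^ n) ^ (n ^ 4) = (3 / 2 : ℝ) ^ (n ^ 5) := by
    rw [← pow_mul]
    congr 1
    ring
  have e6 : ep n = (Real.exp (1 / 16) ^ (n ^ 5))⁻¹ := by
    unfold ep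
    rw [← Real.exp_nat_mul, ← Real.exp_neg]
    congr 1
    push_cast
    ring
  rw [e6]
  rw [e5] at e4
  have hp : (0 : ℝ) < Real.exp (1 / 16) ^ (n ^ 5) := by positivity
  rw [le_inv_comm₀ (by positivity) hp]
  have h7 : (0 : ℝ) < (2 * (1 + 2 * (dm n : ℝ) ^ 3)) * (n : ℝ) ^ (C * n ^ 4) *
    2 ^ (6 * dm n) := by positivity
  have e8 : Real.exp (1 / 16) ^ (n ^ 5) ≤ (4 / 3 : ℝ) ^ (n ^ 5) := by
    gcongr
    exact expbd
  rw [mul_inv, inv_inv]
  rw [← div_eq_inv_mul, le_div_iff₀ h7]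
  calc Real.exp (1 / 16) ^ (n ^ 5) * ((2 * (1 + 2 * (dm n : ℝ) ^ 3)) * (n : ℝ) ^ (C * n ^ 4) *
        2 ^ (6 * dm n)) ≤ (4 / 3 : ℝ) ^ (n ^ 5) * (3 / 2 : ℝ) ^ (n ^ 5) := by gcongr
    _ = (2 : ℝ) ^ (n ^ 5) := by rw [← mul_pow]; norm_num

theorem rn_pow (n : ℕ) : (2 : ℝ) ^ (n ^ 5) ≤ (rn n : ℝ) ^ (2 * dm n) := by
  unfold rn dm
  push_cast
  rw [← pow_mul]
  apply pow_le_pow_right₀ (by norm_num)
  have h : n ≤ (n + 1) / 2 * 2 := by omega
  calc n ^ 5 = n * n ^ 4 := by ring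
    _ ≤ ((n + 1) / 2 * 2) * n ^ 4 := Nat.mul_le_mul_right _ h
    _ = _ := by ring

/-- decay for far lattice points -/
theorem decay {n : ℕ} (hn : 2 ≤ n) (q k : Z (dm n)) (z : P (dm n)) (hz : z ∈ Cb n q)
    (hf : ¬ nrk n q k) :
    (1 + ‖z - zr k‖) ^ (-(6 * (dm n : ℤ))) ≤
      2 ^ (6 * dm n) * ((2 : ℝ) ^ (n ^ 5))⁻¹ * wt n q k := by
  have hD := dm_pos (n := n) (by omega)
  have hD2 : (2 : ℝ) ≤ dm n := by
    have : 2 ≤ dm n := by
      unfold dm
      calc 2 ≤ n := hn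
        _ = n ^ 1 := (pow_one n).symm
        _ ≤ n ^ 4 := Nat.pow_le_pow_right (by omega) (by norm_num)
    exact_mod_cast this
  set c : P (dm n) := fun i => (q i : ℝ) / dm n - k i with hc
  have hwt : wt n q k = (1 + ‖c‖) ^ (-(4 * (dm n : ℤ))) := rfl
  have h1 : ‖c - (z - zr k)‖ ≤ 1 / 2 := by
    rw [pi_norm_le_iff_of_nonneg (by norm_num)]
    intro i
    obtain ⟨a1, a2⟩ := hz i
    have e : (c - (z - zr k)) i = (q i : ℝ) / dm n - z i := by
      show (q i : ℝ) / dm n - k i - (z i - k i) = _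
      ring
    rw [e, Real.norm_eq_abs, abs_le]
    have a3 : ((q i : ℝ) + 1) / dm n = (q i : ℝ) / dm n + 1 / dm n := by ring
    have a4 : 1 / (dm n : ℝ) ≤ 1 / 2 := one_div_le_one_div_of_le (by norm_num) hD2
    rw [a3] at a2
    constructor <;> linarith
  have h2 : ‖c‖ ≤ 1 / 2 + ‖z - zr k‖ := by
    calc ‖c‖ = ‖(c - (z - zr k)) + (z - zr k)‖ := by rw [sub_add_cancel]
      _ ≤ _ := (norm_add_le _ _).trans (by linarith)
  have h3 : (rn n : ℝ) ≤ 1 + ‖c‖ := by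
    unfold nrk at hf
    push Not at hf
    obtain ⟨i, hi⟩ := hf
    have : |(q i : ℝ) / dm n - k i| ≤ ‖c‖ := by
      have := norm_le_pi_norm c i
      rwa [Real.norm_eq_abs] at this
    linarith
  have hc0 : (0 : ℝ) ≤ ‖c‖ := norm_nonneg _
  have hz0 : (0 : ℝ) ≤ ‖z - zr k‖ := norm_nonneg _
  have h4 : (1 + ‖c‖) / 2 ≤ 1 + ‖z - zr k‖ := by linarith
  have e1 : (1 + ‖z - zr k‖) ^ (-(6 * (dm n : ℤ))) = ((1 + ‖z - zr k‖) ^ (6 * dm n))⁻¹ := by
    rw [zpow_neg]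
    congr 1
  have e2 : wt n q k = ((1 + ‖c‖) ^ (4 * dm n))⁻¹ := by
    rw [hwt, zpow_neg]
    congr 1
  rw [e1, e2]
  have h5 : ((1 + ‖z - zr k‖) ^ (6 * dm n))⁻¹ ≤ (((1 + ‖c‖) / 2) ^ (6 * dm n))⁻¹ := by
    apply inv_anti₀ (by positivity)
    gcongr
  refine h5.trans ?_
  rw [div_pow, inv_div]
  have h6 : (1 + ‖c‖) ^ (6 * dm n) = (1 + ‖c‖) ^ (2 * dm n) * (1 + ‖c‖) ^ (4 * dm n) := by
    rw [← pow_add]; congr 1; ring
  rw [h6, div_eq_mul_inv, mul_inv, mul_assoc]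
  have h7 : ((1 + ‖c‖) ^ (2 * dm n))⁻¹ ≤ ((2 : ℝ) ^ (n ^ 5))⁻¹ := by
    apply inv_anti₀ (by positivity)
    refine (rn_pow n).trans ?_
    gcongr
  gcongr

end LIN_

open LIN_ in
theorem lin_proof (hLIM : Stmt_LIM) (hLLB : Stmt_LLB) (hCRD : Stmt_CRD) (hDST : Stmt_DST) :
    Stmt_LIN := by
  obtain ⟨n1, hLIM⟩ := hLIM
  obtain ⟨n2, hLLB⟩ := hLLB
  obtain ⟨C, hCRD⟩ := hCRD
  obtain ⟨n3, has⟩ := asym C
  refine ⟨n1 + n2 + n3 + 2, fun n hn => ?_⟩
  intro X _ _ _ A S F a g hA hF ha hFb hg hgb q hq hGC z hz w hw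
  have hn2 : 2 ≤ n := by omega
  have hn1 : 1 ≤ n := by omega
  have hD := dm_pos hn1
  have hDn : 1 ≤ dm n := by exact_mod_cast hD
  classical
  have hasy := has n (by omega) hn2
  -- the near lattice points
  set Nr : Finset (Z (dm n)) := (ZA n S).filter (nrk n q) with hNr
  have hNr2 : ∀ k, k ∈ Nr ↔ nrk n q k := by
    intro k
    rw [hNr, Finset.mem_filter]
    refine ⟨fun h => h.2, fun h => ⟨?_, h⟩⟩
    apply mem_ZA
    apply hGC
    refine ⟨fun i => (q i : ℝ) / dm n, corner_mem n hn1 q, zr k, zr_mem_Pb n k, ?_⟩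
    rw [pi_norm_le_iff_of_nonneg (by positivity)]
    intro i
    have := h i
    show ‖(q i : ℝ) / dm n - k i‖ ≤ _
    rw [Real.norm_eq_abs]
    linarith
  -- bound for LL
  have hLL : ∀ k ∈ ZA n S, ‖LL n A F (zr k)‖ ≤ 2 * a (pr n k) := by
    intro k hk
    exact hLLB n (by omega) X A F (zr k) (a (pr n k)) hA hF (ha _)
      (fun v hv => hFb (pr n k) (pr_mem S k hk) (zr k) (zr_mem_Pb n k) v hv.le)
  -- the main term
  have hmain := hLIM n (by omega) X A F q z (a (pc n q)) (∑ p ∈ S.filter (nrp n q), a p) w hA hF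
    (ha _) (Finset.sum_nonneg fun p _ => ha p) hz hw
    (fun v hv => hFb (pc n q) (pc_mem hn1 S q hq) z (mem_Pb_pc hn1 q z hz) v hv)
    (by
      intro y hy v hv
      obtain ⟨p, hp⟩ := exists_Pb n y
      have hnr : nrp n q p := ⟨z, hz, y, hp, by rw [norm_sub_rev]; exact hy⟩
      have hpS : p ∈ S := hGC p hnr
      have h1 := hFb p hpS y hp v hv.le
      rw [hv] at h1
      refine h1.trans ?_
      have hdl : 0 ≤ dl n := by unfold dl; positivity
      gcongr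
      exact Finset.single_le_sum (f := a) (fun p _ => ha p) (Finset.mem_filter.2 ⟨hpS, hnr⟩))
    Nr hNr2
  rw [(hDST n hn2 X A S F hF).2 w z]
  -- split
  rw [← Finset.sum_filter_add_sum_filter_not (ZA n S) (nrk n q)]
  rw [← hNr]
  have hsplit : ∑ k ∈ Nr, (K0 n w (z - zr k) • LL n A F (zr k) +
      ∑ i, K1 n (i :: w) (z - zr k) • A i (LL n A F (zr k))) =
      ∑ k ∈ Nr, (W0 n w (z - zr k) • LL n A F (zr k) +
      ∑ i, W1 n (i :: w) (z - zr k) • A i (LL n A F (zr k))) +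
      ∑ k ∈ Nr, (T0 n w (z - zr k) • LL n A F (zr k) +
      ∑ i, (T1a n (i :: w) (z - zr k) + T1b n (i :: w) (z - zr k)) •
        A i (LL n A F (zr k))) := by
    rw [← Finset.sum_add_distrib]
    refine Finset.sum_congr rfl fun k _ => ?_
    rw [add_add_add_comm, ← add_smul, ← Finset.sum_add_distrib]
    congr 1
    · congr 1
      unfold W0
      ring
    · refine Finset.sum_congr rfl fun i _ => ?_
      rw [← add_smul]
      congr 1
      unfold W1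
      ring
  rw [hsplit]
  have hre : ∀ a b c d : X, a + (b + c + d) = (a + b) + c + d := by intro a b c d; abel
  rw [hre]
  have hR : (0 : ℝ) ≤ Rn n ^ w.length := by unfold Rn; positivity
  have hRn : Rn n = (dm n : ℝ) ^ 3 := by unfold Rn dm; push_cast; ring
  -- typical terms
  have htyp : ‖∑ k ∈ Nr, (T0 n w (z - zr k) • LL n A F (zr k) +
      ∑ i, (T1a n (i :: w) (z - zr k) + T1b n (i :: w) (z - zr k)) •
        A i (LL n A F (zr k)))‖ ≤
      Rn n ^ w.length * (2 * ∑ k ∈ Nr, g (q - (dm n : ℤ) • k) * a (pr n k)) := by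
    refine (norm_sum_le _ _).trans ?_
    rw [Finset.mul_sum, Finset.mul_sum]
    refine Finset.sum_le_sum fun k hk => ?_
    have hkZ : k ∈ ZA n S := (Finset.mem_filter.1 hk).1
    refine (vec_bound A hA _ _ _).trans ?_
    have h1 := hgb (q - (dm n : ℤ) • k) (z - zr k) (sub_mem_Cb hn1 q k z hz) w hw
    have h2 : |T0 n w (z - zr k)| + ∑ i, |T1a n (i :: w) (z - zr k) +
        T1b n (i :: w) (z - zr k)| ≤ Rn n ^ w.length * g (q - (dm n : ℤ) • k) := by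
      refine le_trans ?_ h1
      rw [add_assoc, ← Finset.sum_add_distrib]
      gcongr
      exact abs_add_le _ _
    calc _ ≤ (Rn n ^ w.length * g (q - (dm n : ℤ) • k)) * (2 * a (pr n k)) := by
          refine mul_le_mul h2 (hLL k hkZ) (norm_nonneg _) ?_
          exact mul_nonneg hR (hg _)
      _ = _ := by ring
  -- far terms
  have hfar : ‖∑ k ∈ (ZA n S).filter (fun k => ¬ nrk n q k),
      (K0 n w (z - zr k) • LL n A F (zr k) +
      ∑ i, K1 n (i :: w) (z - zr k) • A i (LL n A F (zr k)))‖ ≤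
      Rn n ^ w.length * (ep n * ∑ k ∈ ZA n S, wt n q k * a (pr n k)) := by
    have hwtnn : ∀ k, 0 ≤ wt n q k := fun k => by unfold wt; positivity
    have hep : 0 ≤ ep n := by unfold ep; positivity
    refine (norm_sum_le _ _).trans ?_
    have hstep : ∀ k ∈ (ZA n S).filter (fun k => ¬ nrk n q k),
        ‖K0 n w (z - zr k) • LL n A F (zr k) +
          ∑ i, K1 n (i :: w) (z - zr k) • A i (LL n A F (zr k))‖ ≤
        Rn n ^ w.length * (ep n * (wt n q k * a (pr n k))) := by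
      intro k hk
      obtain ⟨hkZ, hkf⟩ := Finset.mem_filter.1 hk
      refine (vec_bound A hA _ _ _).trans ?_
      have hdec := decay hn2 q k z hz hkf
      obtain ⟨hf1, hf2⟩ := word_factor (D := dm n) (m := w.length) hDn hw
      set dc : ℝ := (1 + ‖z - zr k‖) ^ (-(6 * (dm n : ℤ))) with hdc
      have hdc0 : 0 ≤ dc := by rw [hdc]; positivity
      have hb0 : |K0 n w (z - zr k)| ≤ Rn n ^ w.length * ((n : ℝ) ^ (C * n ^ 4) * dc) := by
        refine (hCRD n hn2 w (z - zr k)).1.trans ?_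
        unfold crd
        rw [← hdc, hRn]
        calc _ = ((w.length.factorial : ℝ) * (dm n : ℝ) ^ w.length) *
              ((n : ℝ) ^ (C * n ^ 4) * dc) := by ring
          _ ≤ _ := by gcongr
      have hb1 : ∀ i, |K1 n (i :: w) (z - zr k)| ≤
          (2 * (dm n : ℝ) ^ 2 * Rn n ^ w.length) * ((n : ℝ) ^ (C * n ^ 4) * dc) := by
        intro i
        refine (hCRD n hn2 (i :: w) (z - zr k)).2.1.trans ?_
        unfold crd
        rw [← hdc, hRn]
        have hl : (i :: w).length = w.length + 1 := rfl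
        rw [hl]
        calc _ = (((w.length + 1).factorial : ℝ) * (dm n : ℝ) ^ (w.length + 1)) *
              ((n : ℝ) ^ (C * n ^ 4) * dc) := by ring
          _ ≤ _ := by gcongr
      have hb2 : |K0 n w (z - zr k)| + ∑ i, |K1 n (i :: w) (z - zr k)| ≤
          Rn n ^ w.length * (1 + 2 * (dm n : ℝ) ^ 3) * ((n : ℝ) ^ (C * n ^ 4) * dc) := by
        have hs : ∑ i, |K1 n (i :: w) (z - zr k)| ≤
            (dm n : ℝ) * ((2 * (dm n : ℝ) ^ 2 * Rn n ^ w.length) *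
              ((n : ℝ) ^ (C * n ^ 4) * dc)) := by
          refine (Finset.sum_le_sum fun i _ => hb1 i).trans ?_
          rw [Finset.sum_const, Finset.card_univ, Fintype.card_fin, nsmul_eq_mul]
        refine (add_le_add hb0 hs).trans (le_of_eq ?_)
        ring
      have hR1 : (0 : ℝ) ≤ a (pr n k) := ha _
      calc _ ≤ (Rn n ^ w.length * (1 + 2 * (dm n : ℝ) ^ 3) * ((n : ℝ) ^ (C * n ^ 4) * dc)) *
            (2 * a (pr n k)) := by
            refine mul_le_mul hb2 (hLL k hkZ) (norm_nonneg _) (by positivity)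
        _ ≤ (Rn n ^ w.length * (1 + 2 * (dm n : ℝ) ^ 3) * ((n : ℝ) ^ (C * n ^ 4) *
            (2 ^ (6 * dm n) * ((2 : ℝ) ^ (n ^ 5))⁻¹ * wt n q k))) * (2 * a (pr n k)) := by
            gcongr
        _ = Rn n ^ w.length * (((2 * (1 + 2 * (dm n : ℝ) ^ 3)) * (n : ℝ) ^ (C * n ^ 4) *
            2 ^ (6 * dm n) * ((2 : ℝ) ^ (n ^ 5))⁻¹) * (wt n q k * a (pr n k))) := by ring
        _ ≤ _ := by
            have := hwtnn k
            gcongr
    refine (Finset.sum_le_sum hstep).trans ?_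
    rw [← Finset.mul_sum, ← Finset.mul_sum]
    have hsub : ∑ k ∈ (ZA n S).filter (fun k => ¬ nrk n q k), wt n q k * a (pr n k) ≤
        ∑ k ∈ ZA n S, wt n q k * a (pr n k) := by
      apply Finset.sum_le_sum_of_subset_of_nonneg
      · exact Finset.filter_subset (fun k => ¬ nrk n q k) (ZA n S)
      · intro k _ _
        exact mul_nonneg (hwtnn k) (ha _)
    gcongr
  refine (norm_add_le _ _).trans ?_
  refine (add_le_add (norm_add_le _ _) le_rfl).trans ?_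
  have hth : 0 ≤ th n := by unfold th; positivity
  have h3 : th n / 2 * a (pc n q) ≤ th n * a (pc n q) := by
    have := ha (pc n q)
    nlinarith [mul_nonneg hth this]
  calc _ ≤ Rn n ^ w.length * (th n / 2 * a (pc n q) + ep n * ∑ p ∈ S.filter (nrp n q), a p) +
        Rn n ^ w.length * (2 * ∑ k ∈ Nr, g (q - (dm n : ℤ) • k) * a (pr n k)) +
        Rn n ^ w.length * (ep n * ∑ k ∈ ZA n S, wt n q k * a (pr n k)) :=
        add_le_add (add_le_add hmain htyp) hfar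
    _ ≤ Rn n ^ w.length * (th n * a (pc n q) + ep n * ∑ p ∈ S.filter (nrp n q), a p) +
        Rn n ^ w.length * (2 * ∑ k ∈ Nr, g (q - (dm n : ℤ) • k) * a (pr n k)) +
        Rn n ^ w.length * (ep n * ∑ k ∈ ZA n S, wt n q k * a (pr n k)) := by gcongr
    _ = _ := by
        rw [hNr]
        ring

end Pool.Agent.HBW
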