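import Pool.Agent.HBW.Stmts

/-!
# Squad HBW, module LLR: the operator `LL` applied to a Taylor remainder
-/

set_option autoImplicit false

namespace Pool.Agent.HBW

open MeasureTheory Set Filter Topology
open scoped ENNReal Real

namespace LLR_

theorem norm_le_one_apply {X : Type} [NormedAddCommGroup X] [NormedSpace ℝ X] {T : X →L[ℝ] X}
    (h : ‖T‖ ≤ 1) (x : X) : ‖T x‖ ≤ ‖x‖ := by
  refine (T.le_opNorm x).trans ?_
  have := norm_nonneg x
  nlinarith

/-- iterated Dirac operators -/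
theorem iter (hSMO : Stmt_SMO) (D : ℕ) (X : Type) [NormedAddCommGroup X] [NormedSpace ℝ X]
    (A : Fin D → (X →L[ℝ] X)) (hA : Cliff A) (x : P D) (q : ℕ) :
    ∀ (M : ℕ) (F : P D → X) (b : ℕ → ℝ), Smo F → q < M →
    (∀ w : List (Fin D), w.length < M → ‖pdw w F x‖ ≤ b w.length) →
    ‖((DD A)^[q] F) x‖ ≤ (D : ℝ) ^ q * b q := by
  induction q with
  | zero =>
    intro M F b _ hM h
    have h1 := h [] (by simpa using hM)
    simpa [pdw] using h1
  | succ q ih =>
    intro M F b hF hM h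
    rw [Function.iterate_succ_apply]
    obtain ⟨-, -, -, -, -, -, -, -, s9, -, s11, -, -⟩ := hSMO D X A F F hF hF
    have h1 := ih (M - 1) (DD A F) (fun k => D * b (k + 1)) s9 (by omega) ?_
    · refine h1.trans (le_of_eq ?_)
      ring
    · intro w hw
      rw [s11 w]
      show ‖∑ i, A i (pd i (pdw w F) x)‖ ≤ _
      refine (norm_sum_le _ _).trans ?_
      have h2 : ∀ i ∈ (Finset.univ : Finset (Fin D)), ‖A i (pd i (pdw w F) x)‖ ≤
          b (w.length + 1) := by
        intro i _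
        refine (norm_le_one_apply (hA.nrm i) _).trans ?_
        exact h (i :: w) (by rw [List.length_cons]; omega)
      refine (Finset.sum_le_sum h2).trans (le_of_eq ?_)
      rw [Finset.sum_const, Finset.card_univ, Fintype.card_fin, nsmul_eq_mul]

theorem inner (f : ℕ → ℝ) (c : ℕ) (D : ℕ) :
    ∑ q ∈ Finset.range D, (if c ≤ q then f (q - c) else 0) = ∑ i ∈ Finset.range (D - c), f i := by
  induction D with
  | zero => simp
  | succ D ih =>
    rw [Finset.sum_range_succ, ih]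
    by_cases h : c ≤ D
    · rw [if_pos h, Nat.succ_sub h, Finset.sum_range_succ]
    · rw [if_neg h, add_zero]
      have h1 : D - c = 0 := by omega
      have h2 : D + 1 - c = 0 := by omega
      rw [h1, h2]

theorem coef (ω τ s : ℝ) (hω : 0 ≤ ω) (hτ : 0 ≤ τ) (hs : 0 ≤ s) (D : ℕ) :
    ∑ q ∈ Finset.range D, |bq ω τ q| * s ^ q ≤ Real.exp (ω * s) * Real.exp (τ / 4 * s ^ 2) := by
  have h1 : ∀ q ∈ Finset.range D, |bq ω τ q| * s ^ q ≤ ∑ l ∈ Finset.range D,
      (if 2 * l ≤ q then (ω * s) ^ (q - 2 * l) / ((q - 2 * l).factorial : ℝ) else 0) *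
        ((τ / 4 * s ^ 2) ^ l / (l.factorial : ℝ)) := by
    intro q hq
    rw [Finset.mem_range] at hq
    have h2 : |bq ω τ q| ≤ ∑ l ∈ Finset.range (q / 2 + 1), ω ^ (q - 2 * l) * (τ / 4) ^ l /
        ((q - 2 * l).factorial * l.factorial) := by
      rw [bq]
      refine (Finset.abs_sum_le_sum_abs _ _).trans (Finset.sum_le_sum fun l _ => ?_)
      rw [abs_div, abs_mul, abs_pow, abs_pow, abs_neg, abs_of_nonneg hω,
        abs_of_nonneg (div_nonneg hτ (by norm_num : (0 : ℝ) ≤ 4)), abs_of_nonneg (by positivity)]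
    have h3 : (∑ l ∈ Finset.range (q / 2 + 1), ω ^ (q - 2 * l) * (τ / 4) ^ l /
        ((q - 2 * l).factorial * l.factorial)) * s ^ q = ∑ l ∈ Finset.range (q / 2 + 1),
        (if 2 * l ≤ q then (ω * s) ^ (q - 2 * l) / ((q - 2 * l).factorial : ℝ) else 0) *
        ((τ / 4 * s ^ 2) ^ l / (l.factorial : ℝ)) := by
      rw [Finset.sum_mul]
      refine Finset.sum_congr rfl fun l hl => ?_
      rw [Finset.mem_range] at hl
      have h4 : 2 * l ≤ q := by omega
      rw [if_pos h4]
      have h5 : s ^ q = s ^ (q - 2 * l) * (s ^ 2) ^ l := by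
        rw [← pow_mul, ← pow_add]
        congr 1
        omega
      rw [h5, mul_pow, mul_pow (τ / 4)]
      have e1 : ((q - 2 * l).factorial : ℝ) ≠ 0 := by positivity
      have e2 : (l.factorial : ℝ) ≠ 0 := by positivity
      field_simp
    calc |bq ω τ q| * s ^ q ≤ _ * s ^ q := mul_le_mul_of_nonneg_right h2 (by positivity)
      _ = _ := h3
      _ ≤ _ := by
        apply Finset.sum_le_sum_of_subset_of_nonneg
        · apply Finset.range_subset_range.2
          omega
        · intro l _ _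
          apply mul_nonneg
          · split_ifs
            · positivity
            · exact le_rfl
          · positivity
  refine (Finset.sum_le_sum h1).trans ?_
  rw [Finset.sum_comm]
  have h2 : ∀ l ∈ Finset.range D, ∑ q ∈ Finset.range D,
      (if 2 * l ≤ q then (ω * s) ^ (q - 2 * l) / ((q - 2 * l).factorial : ℝ) else 0) *
        ((τ / 4 * s ^ 2) ^ l / (l.factorial : ℝ)) ≤
      Real.exp (ω * s) * ((τ / 4 * s ^ 2) ^ l / (l.factorial : ℝ)) := by
    intro l _
    rw [← Finset.sum_mul]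
    apply mul_le_mul_of_nonneg_right _ (by positivity)
    rw [inner (fun i => (ω * s) ^ i / (i.factorial : ℝ)) (2 * l) D]
    exact Real.sum_le_exp_of_nonneg (by positivity) _
  refine (Finset.sum_le_sum h2).trans ?_
  rw [← Finset.mul_sum]
  exact mul_le_mul_of_nonneg_left (Real.sum_le_exp_of_nonneg (by positivity) _)
    (Real.exp_pos _).le

end LLR_

open LLR_ in
theorem llr_proof (hSMO : Stmt_SMO) : Stmt_LLR := by
  refine ⟨6, 2, fun n hn X _ _ A F x a s hA hF ha hs hb => ?_⟩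
  have hn2 : (2 : ℝ) ≤ n := by exact_mod_cast hn
  have hMR : (dm n : ℝ) = (n : ℝ) ^ 4 := by rw [dm]; push_cast; rfl
  have hdl : 0 ≤ dl n := by rw [dl]; positivity
  have hom : 0 ≤ om n := by rw [om]; positivity
  have ht0 : (0 : ℝ) ≤ t0 := by rw [t0]; norm_num
  have hsum : ∑ q ∈ Finset.range (dm n), |bq (om n) t0 q| ≤ ((n : ℝ) ^ 2) ^ dm n := by
    have h1 := coef (om n) t0 1 hom ht0 zero_le_one (dm n)
    simp only [one_pow, mul_one] at h1
    refine h1.trans ?_
    rw [← Real.exp_add]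
    have h2 : om n + t0 / 4 ≤ (dm n : ℝ) * 1 := by
      rw [om, t0, hMR]
      have h3 : (4 : ℝ) ≤ (n : ℝ) ^ 2 := by nlinarith
      have h4 : (n : ℝ) ^ 4 = (n : ℝ) ^ 2 * (n : ℝ) ^ 2 := by ring
      rw [h4]
      nlinarith
    calc Real.exp (om n + t0 / 4) ≤ Real.exp ((dm n : ℝ) * 1) := Real.exp_le_exp.2 h2
      _ = Real.exp 1 ^ dm n := by rw [← Real.exp_nat_mul]
      _ ≤ ((n : ℝ) ^ 2) ^ dm n := by
        apply pow_le_pow_left₀ (Real.exp_pos _).le
        have := Real.exp_one_lt_d9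
        nlinarith
  have h6 : ‖LL n A F x‖ ≤ ∑ q ∈ Finset.range (dm n),
      (a * dl n ^ dm n * (dm n : ℝ) ^ dm n * (1 + s) ^ dm n) * |bq (om n) t0 q| := by
    rw [LL]
    refine (norm_sum_le _ _).trans (Finset.sum_le_sum fun q hq => ?_)
    rw [Finset.mem_range] at hq
    rw [norm_smul, Real.norm_eq_abs]
    have h7 := iter hSMO (dm n) X A hA x q (dm n) F
      (fun k => a * dl n ^ dm n * ((dm n : ℝ) * s) ^ (dm n - k)) hF hq hb
    have h8 : (dm n : ℝ) ^ q * (a * dl n ^ dm n * ((dm n : ℝ) * s) ^ (dm n - q)) ≤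
        a * dl n ^ dm n * (dm n : ℝ) ^ dm n * (1 + s) ^ dm n := by
      have h9 : (dm n : ℝ) ^ q * (a * dl n ^ dm n * ((dm n : ℝ) * s) ^ (dm n - q)) =
          a * dl n ^ dm n * (dm n : ℝ) ^ dm n * s ^ (dm n - q) := by
        rw [mul_pow]
        have h10 : (dm n : ℝ) ^ dm n = (dm n : ℝ) ^ q * (dm n : ℝ) ^ (dm n - q) := by
          rw [← pow_add]
          congr 1
          omega
        rw [h10]
        ring
      rw [h9]
      apply mul_le_mul_of_nonneg_left _ (by positivity)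
      calc s ^ (dm n - q) ≤ (1 + s) ^ (dm n - q) := pow_le_pow_left₀ hs (by linarith) _
        _ ≤ (1 + s) ^ dm n := pow_le_pow_right₀ (by linarith) (Nat.sub_le _ _)
    calc |bq (om n) t0 q| * ‖((DD A)^[q] F) x‖ ≤ |bq (om n) t0 q| *
          (a * dl n ^ dm n * (dm n : ℝ) ^ dm n * (1 + s) ^ dm n) :=
          mul_le_mul_of_nonneg_left (h7.trans h8) (abs_nonneg _)
      _ = _ := by ring
  refine h6.trans ?_
  rw [← Finset.mul_sum]
  calc (a * dl n ^ dm n * (dm n : ℝ) ^ dm n * (1 + s) ^ dm n) * ∑ q ∈ Finset.range (dm n), |bq (om n) t0 q|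
      ≤ (a * dl n ^ dm n * (dm n : ℝ) ^ dm n * (1 + s) ^ dm n) * ((n : ℝ) ^ 2) ^ dm n :=
        mul_le_mul_of_nonneg_left hsum (by positivity)
    _ = a * (dl n * (n : ℝ) ^ 6) ^ dm n * (1 + s) ^ dm n := by
        rw [hMR]
        have h11 : (n : ℝ) ^ 6 = (n : ℝ) ^ 4 * (n : ℝ) ^ 2 := by ring
        rw [h11, mul_pow, mul_pow]
        ring

end Pool.Agent.HBW
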