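import Pool.Agent.HBW.Stmts

/-!
Squad HBW, module LSK: lattice sums of kernels.
-/

set_option autoImplicit false

namespace Pool.Agent.HBW

open MeasureTheory Set Filter Topology
open scoped ENNReal Real

noncomputable section

namespace LSK_

variable {D : ℕ} {X : Type} [NormedAddCommGroup X] [NormedSpace ℝ X]

/-- sum of translates -/
def ts (S : Finset (Z D)) (κ : P D → ℝ) (c : Z D → X) (z : P D) : X :=
  ∑ k ∈ S, κ (z - zr k) • c k

theorem smo_pd {Y : Type} [NormedAddCommGroup Y] [NormedSpace ℝ Y] {f : P D → Y} (hf : Smo f)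
    (i : Fin D) : Smo (pd i f) := by
  have h1 : ContDiff ℝ ((⊤ : ℕ∞) : WithTop ℕ∞) (fderiv ℝ f) := hf.fderiv_right (by simp)
  exact h1.clm_apply contDiff_const

theorem dif {Y : Type} [NormedAddCommGroup Y] [NormedSpace ℝ Y] {f : P D → Y} (hf : Smo f) :
    Differentiable ℝ f := hf.differentiable (by simp)

theorem smo_ts (S : Finset (Z D)) {κ : P D → ℝ} (hκ : Smo κ) (c : Z D → X) :
    Smo (ts S κ c) := by
  refine ContDiff.sum fun k _ => ?_
  exact (hκ.comp (contDiff_id.sub contDiff_const)).smul contDiff_const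

theorem hasF_ts (S : Finset (Z D)) {κ : P D → ℝ} (hκ : Differentiable ℝ κ) (c : Z D → X)
    (x : P D) : HasFDerivAt (ts S κ c)
      (∑ k ∈ S, (fderiv ℝ κ (x - zr k)).smulRight (c k)) x := by
  have h : HasFDerivAt (fun z => ∑ k ∈ S, κ (z - zr k) • c k)
      (∑ k ∈ S, (fderiv ℝ κ (x - zr k)).smulRight (c k)) x := by
    refine HasFDerivAt.fun_sum fun k _ => ?_
    have h1 : HasFDerivAt (fun z : P D => z - zr k) (ContinuousLinearMap.id ℝ (P D)) x :=
      (hasFDerivAt_id x).sub_const (zr k)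
    have h2 : HasFDerivAt (fun z : P D => κ (z - zr k)) (fderiv ℝ κ (x - zr k)) x := by
      have h3 := (hκ (x - zr k)).hasFDerivAt.comp x h1
      rw [ContinuousLinearMap.comp_id] at h3
      exact h3
    exact h2.smul_const (c k)
  exact h

theorem pd_ts (S : Finset (Z D)) {κ : P D → ℝ} (hκ : Differentiable ℝ κ) (c : Z D → X)
    (j : Fin D) : pd j (ts S κ c) = ts S (pd j κ) c := by
  funext x
  show fderiv ℝ (ts S κ c) x (Pi.single j 1) = _
  rw [(hasF_ts S hκ c x).fderiv]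
  simp [ts, pd]

theorem pd_add {f g : P D → X} (hf : Differentiable ℝ f) (hg : Differentiable ℝ g)
    (i : Fin D) (x : P D) :
    pd i (fun z => f z + g z) x = pd i f x + pd i g x := by
  have h1 : HasFDerivAt (fun z => f z + g z) (fderiv ℝ f x + fderiv ℝ g x) x :=
    (hf x).hasFDerivAt.add (hg x).hasFDerivAt
  show fderiv ℝ (fun z => f z + g z) x (Pi.single i 1) = _
  rw [h1.fderiv]
  rfl

theorem pd_sum {ι : Type} (s : Finset ι) {f : ι → P D → X} (hf : ∀ i, Differentiable ℝ (f i))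
    (j : Fin D) (x : P D) :
    pd j (fun z => ∑ i ∈ s, f i z) x = ∑ i ∈ s, pd j (f i) x := by
  have h1 : HasFDerivAt (fun z => ∑ i ∈ s, f i z) (∑ i ∈ s, fderiv ℝ (f i) x) x :=
    HasFDerivAt.fun_sum fun i _ => (hf i x).hasFDerivAt
  show fderiv ℝ (fun z => ∑ i ∈ s, f i z) x (Pi.single j 1) = _
  rw [h1.fderiv]
  simp [pd]

/-- bound for sums of translates -/
theorem bd_ts {e : ℤ} {W : ℝ} (hW : ∀ x : P D, Summable (fun k : Z D => (1 + ‖x - zr k‖) ^ (-e)) ∧
      ∑' k : Z D, (1 + ‖x - zr k‖) ^ (-e) ≤ W) (S : Finset (Z D)) {κ : P D → ℝ} {c : Z D → X}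
    {M a : ℝ} (hM : 0 ≤ M) (ha : 0 ≤ a) (hκ : ∀ z, |κ z| ≤ M * (1 + ‖z‖) ^ (-e))
    (hc : ∀ k ∈ S, ‖c k‖ ≤ a) (z : P D) : ‖ts S κ c z‖ ≤ M * W * a := by
  have h0 : ∀ k : Z D, 0 ≤ (1 + ‖z - zr k‖) ^ (-e) := fun k => by positivity
  calc ‖ts S κ c z‖ ≤ ∑ k ∈ S, ‖κ (z - zr k) • c k‖ := norm_sum_le _ _
    _ ≤ ∑ k ∈ S, M * (1 + ‖z - zr k‖) ^ (-e) * a := by
        refine Finset.sum_le_sum fun k hk => ?_
        rw [norm_smul, Real.norm_eq_abs]
        exact mul_le_mul (hκ _) (hc k hk) (norm_nonneg _) (mul_nonneg hM (h0 k))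
    _ = M * (∑ k ∈ S, (1 + ‖z - zr k‖) ^ (-e)) * a := by
        rw [Finset.mul_sum, Finset.sum_mul]
    _ ≤ M * W * a := by
        refine mul_le_mul_of_nonneg_right (mul_le_mul_of_nonneg_left ?_ hM) ha
        exact ((hW z).1.sum_le_tsum S fun k _ => h0 k).trans (hW z).2

/-- the sum of kernels along a word -/
def Gk (n : ℕ) (A : Fin (dm n) → (X →L[ℝ] X)) (S : Finset (Z (dm n))) (c : Z (dm n) → X)
    (w : List (Fin (dm n))) (z : P (dm n)) : X :=
  ts S (K0 n w) c z + ∑ i, ts S (K1 n (w ++ [i])) (fun k => A i (c k)) z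

theorem Gk_nil (n : ℕ) (A : Fin (dm n) → (X →L[ℝ] X)) (S : Finset (Z (dm n)))
    (c : Z (dm n) → X) : (fun z => ∑ k ∈ S, kap n A (c k) (z - zr k)) = Gk n A S c [] := by
  funext z
  unfold Gk ts kap
  rw [Finset.sum_add_distrib, Finset.sum_comm]
  rfl

end LSK_

open LSK_ in
theorem lsk_proof (hCRD : Stmt_CRD) (hLSW : Stmt_LSW) (hKF0 : Stmt_KF0) (hKF1 : Stmt_KF1)
    (hK2P : Stmt_K2P) (_hPB1 : Stmt_PB1) (hPB2 : Stmt_PB2) (hPB6 : Stmt_PB6) : Stmt_LSK := by
  obtain ⟨C1, hC1⟩ := hCRD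
  obtain ⟨C2, hC2⟩ := hLSW
  intro n hn
  obtain ⟨K, hKs, hKL, C3, hC3⟩ := hK2P n hn
  obtain ⟨C6, hC6⟩ := hPB6 (dm n)
  -- constants
  set W : ℝ := (n : ℝ) ^ (C2 * n ^ 4) with hW
  have hW0 : 0 ≤ W := by positivity
  set N1 : ℝ := (n : ℝ) ^ (C1 * n ^ 4) with hN1
  have hN10 : 0 ≤ N1 := by positivity
  have hD1 : (1 : ℝ) ≤ dm n := by
    have : 1 ≤ dm n := Nat.one_le_pow _ _ (by omega)
    exact_mod_cast this
  set M : ℝ := (Nat.factorial 8 : ℝ) * (dm n : ℝ) ^ 8 * N1 with hMdef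
  have hM0 : 0 ≤ M := by positivity
  have hcrd : ∀ (w : List (Fin (dm n))) (z : P (dm n)), w.length ≤ 8 →
      crd n C1 w z ≤ M * (1 + ‖z‖) ^ (-(6 * (dm n : ℤ))) := by
    intro w z hw
    unfold crd
    refine mul_le_mul_of_nonneg_right ?_ (by positivity)
    refine mul_le_mul_of_nonneg_right ?_ hN10
    refine mul_le_mul ?_ (pow_le_pow_right₀ hD1 hw) (by positivity) (by positivity)
    exact_mod_cast Nat.factorial_le hw
  have hW6 : ∀ x : P (dm n),
      Summable (fun k : Z (dm n) => (1 + ‖x - zr k‖) ^ (-(6 * (dm n : ℤ)))) ∧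
      ∑' k : Z (dm n), (1 + ‖x - zr k‖) ^ (-(6 * (dm n : ℤ))) ≤ W :=
    fun x => hC2 n hn x (6 * (dm n : ℤ)) (by
      have : (0 : ℤ) ≤ (dm n : ℤ) := Int.natCast_nonneg _
      linarith)
  have hW2 : ∀ x : P (dm n),
      Summable (fun k : Z (dm n) => (1 + ‖x - zr k‖) ^ (-(2 * (dm n : ℤ)))) ∧
      ∑' k : Z (dm n), (1 + ‖x - zr k‖) ^ (-(2 * (dm n : ℤ))) ≤ W :=
    fun x => hC2 n hn x (2 * (dm n : ℤ)) le_rfl
  have hb0 : ∀ (w : List (Fin (dm n))), w.length ≤ 8 → ∀ z : P (dm n),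
      |K0 n w z| ≤ M * (1 + ‖z‖) ^ (-(6 * (dm n : ℤ))) :=
    fun w hw z => ((hC1 n hn w z).1).trans (hcrd w z hw)
  have hb1 : ∀ (w : List (Fin (dm n))), w.length ≤ 8 → ∀ z : P (dm n),
      |K1 n w z| ≤ M * (1 + ‖z‖) ^ (-(6 * (dm n : ℤ))) :=
    fun w hw z => ((hC1 n hn w z).2.1).trans (hcrd w z hw)
  set M3 : ℝ := |C3| with hM3
  have hM30 : 0 ≤ M3 := abs_nonneg _
  have hk1 : ∀ i (z : P (dm n)), |pd i K z| ≤ M3 * (1 + ‖z‖) ^ (-(2 * (dm n : ℤ))) :=
    fun i z => ((hC3 i z).1).trans (mul_le_mul_of_nonneg_right (le_abs_self _) (by positivity))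
  have hk2 : ∀ i j (z : P (dm n)), |pd j (pd i K) z| ≤ M3 * (1 + ‖z‖) ^ (-(2 * (dm n : ℤ))) :=
    fun i j z => ((hC3 i z).2 j).trans
      (mul_le_mul_of_nonneg_right (le_abs_self _) (by positivity))
  -- the main constant
  set Q : ℝ := M * W with hQ
  have hQ0 : 0 ≤ Q := mul_nonneg hM0 hW0
  set Q3 : ℝ := M3 * W with hQ3
  have hQ30 : 0 ≤ Q3 := mul_nonneg hM30 hW0
  refine ⟨(1 + dm n) * Q + dm n * (|C6| * (Q + Q3)) + 1, by positivity, ?_⟩
  intro X _ _ _ A S c a hA hc ha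
  have hAc : ∀ i, ∀ k ∈ S, ‖A i (c k)‖ ≤ a := by
    intro i k hk
    calc ‖A i (c k)‖ ≤ ‖A i‖ * ‖c k‖ := (A i).le_opNorm _
      _ ≤ 1 * a := mul_le_mul (hA.nrm i) (hc k hk) (norm_nonneg _) zero_le_one
      _ = a := one_mul a
  have hsG : ∀ w, Smo (Gk n A S c w) := by
    intro w
    exact (smo_ts S (hKF0 n hn w).1 c).add
      (ContDiff.sum fun i _ => smo_ts S (hKF1 n hn (w ++ [i])).1 (fun k => A i (c k)))
  have hpdG : ∀ w j, pd j (Gk n A S c w) = Gk n A S c (j :: w) := by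
    intro w j
    funext x
    have e1 : pd j (Gk n A S c w) x = pd j (ts S (K0 n w) c) x +
        pd j (fun z => ∑ i, ts S (K1 n (w ++ [i])) (fun k => A i (c k)) z) x :=
      pd_add (dif (smo_ts S (hKF0 n hn w).1 c)) (dif (ContDiff.sum fun i _ =>
        smo_ts S (hKF1 n hn (w ++ [i])).1 (fun k => A i (c k)))) j x
    have e2 : pd j (fun z => ∑ i, ts S (K1 n (w ++ [i])) (fun k => A i (c k)) z) x =
        ∑ i, pd j (ts S (K1 n (w ++ [i])) (fun k => A i (c k))) x :=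
      pd_sum Finset.univ (fun i => dif (smo_ts S (hKF1 n hn (w ++ [i])).1 _)) j x
    rw [e1, e2, pd_ts S (dif (hKF0 n hn w).1) c j, (hKF0 n hn w).2.1 j]
    unfold Gk
    congr 1
    refine Finset.sum_congr rfl fun i _ => ?_
    rw [pd_ts S (dif (hKF1 n hn (w ++ [i])).1) _ j, (hKF1 n hn (w ++ [i])).2.1 j]
    rfl
  have hpdw : ∀ w, pdw w (Gk n A S c []) = Gk n A S c w := by
    intro w
    induction w with
    | nil => rfl
    | cons j w ih =>
      show pd j (pdw w (Gk n A S c [])) = _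
      rw [ih, hpdG]
  have hbG : ∀ w, w.length ≤ 7 → ∀ z, ‖Gk n A S c w z‖ ≤ (1 + dm n) * Q * a := by
    intro w hw z
    have h1 : ‖ts S (K0 n w) c z‖ ≤ Q * a :=
      bd_ts hW6 S hM0 ha (hb0 w (by omega)) hc z
    have h2 : ∀ i, ‖ts S (K1 n (w ++ [i])) (fun k => A i (c k)) z‖ ≤ Q * a := fun i =>
      bd_ts hW6 S hM0 ha (hb1 (w ++ [i]) (by simp; omega)) (hAc i) z
    calc ‖Gk n A S c w z‖ ≤ ‖ts S (K0 n w) c z‖ +
          ‖∑ i, ts S (K1 n (w ++ [i])) (fun k => A i (c k)) z‖ := norm_add_le _ _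
      _ ≤ Q * a + ∑ _i : Fin (dm n), Q * a := by
          refine add_le_add h1 ((norm_sum_le _ _).trans (Finset.sum_le_sum fun i _ => h2 i))
      _ = (1 + dm n) * Q * a := by
          rw [Finset.sum_const, Finset.card_univ, Fintype.card_fin, nsmul_eq_mul]
          ring
  have hrest : 0 ≤ (dm n : ℝ) * (|C6| * (Q + Q3)) + 1 := by positivity
  rw [Gk_nil]
  refine ⟨hsG [], ?_, ?_⟩
  · intro w hw z
    rw [hpdw w]
    refine (hbG w hw z).trans ?_
    refine mul_le_mul_of_nonneg_right ?_ ha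
    linarith
  · intro z y hy
    -- potentials
    set g : Fin (dm n) → P (dm n) → X := fun i x =>
      ts S (pd i K) c x + ts S (K1 n []) (fun k => A i (c k)) x with hg
    have hsg : ∀ i, Smo (g i) := fun i =>
      (smo_ts S (smo_pd hKs i) c).add (smo_ts S (hKF1 n hn []).1 _)
    have hpdg : ∀ i j x, pd j (g i) x = ts S (pd j (pd i K)) c x +
        ts S (K1 n [j]) (fun k => A i (c k)) x := by
      intro i j x
      have e1 : pd j (g i) x = pd j (ts S (pd i K) c) x +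
          pd j (ts S (K1 n []) (fun k => A i (c k))) x :=
        pd_add (dif (smo_ts S (smo_pd hKs i) c)) (dif (smo_ts S (hKF1 n hn []).1 _)) j x
      rw [e1, pd_ts S (dif (smo_pd hKs i)) c j, pd_ts S (dif (hKF1 n hn []).1) _ j,
        (hKF1 n hn []).2.1 j]
    have hgb : ∀ i x, ‖g i x‖ ≤ (Q3 + Q) * a := by
      intro i x
      have h1 : ‖ts S (pd i K) c x‖ ≤ Q3 * a := bd_ts hW2 S hM30 ha (hk1 i) hc x
      have h2 : ‖ts S (K1 n []) (fun k => A i (c k)) x‖ ≤ Q * a :=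
        bd_ts hW6 S hM0 ha (hb1 [] (by simp)) (hAc i) x
      calc ‖g i x‖ ≤ _ := norm_add_le _ _
        _ ≤ Q3 * a + Q * a := add_le_add h1 h2
        _ = (Q3 + Q) * a := by ring
    have hgb1 : ∀ i j x, ‖pd j (g i) x‖ ≤ (Q3 + Q) * a := by
      intro i j x
      rw [hpdg i j x]
      have h1 : ‖ts S (pd j (pd i K)) c x‖ ≤ Q3 * a := bd_ts hW2 S hM30 ha (hk2 i j) hc x
      have h2 : ‖ts S (K1 n [j]) (fun k => A i (c k)) x‖ ≤ Q * a :=
        bd_ts hW6 S hM0 ha (hb1 [j] (by simp)) (hAc i) x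
      calc _ ≤ ‖ts S (pd j (pd i K)) c x‖ + ‖ts S (K1 n [j]) (fun k => A i (c k)) x‖ :=
          norm_add_le _ _
        _ ≤ Q3 * a + Q * a := add_le_add h1 h2
        _ = (Q3 + Q) * a := by ring
    have hBC : ∀ i, BC 1 ((Q3 + Q) * a) (g i) := by
      intro i
      refine ⟨(hsg i).of_le (by exact_mod_cast le_top), ?_⟩
      intro w hw x
      match w, hw with
      | [], _ => exact hgb i x
      | [j], _ => exact hgb1 i j x
      | _ :: _ :: w, hw => simp at hw
    have hsum : Gk n A S c [] = fun x => ∑ i, pd i (g i) x := by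
      funext x
      have e1 : ∑ i, pd i (g i) x = ∑ i, ts S (pd i (pd i K)) c x +
          ∑ i, ts S (K1 n [i]) (fun k => A i (c k)) x := by
        rw [← Finset.sum_add_distrib]
        exact Finset.sum_congr rfl fun i _ => hpdg i i x
      rw [e1]
      unfold Gk
      congr 1
      unfold ts
      rw [Finset.sum_comm]
      refine Finset.sum_congr rfl fun k _ => ?_
      rw [hKL, ← Finset.sum_smul]
      rfl
    have hPsum : ∀ s : Finset (Fin (dm n)),
        Poi (fun x => ∑ i ∈ s, pd i (g i) x) z y = ∑ i ∈ s, Poi (pd i (g i)) z y := by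
      intro s
      induction s using Finset.induction_on with
      | empty =>
        simp only [Finset.sum_empty]
        exact (hPB2 (dm n) X (fun _ => 0) (fun _ => 0) 0 continuous_const continuous_const
          (fun x => by simp) (fun x => by simp) y hy z).2.2.2 0
      | insert i s hi ih =>
        simp only [Finset.sum_insert hi]
        have hcs : Continuous (fun x => ∑ i ∈ s, pd i (g i) x) :=
          continuous_finsetSum _ fun i _ => (smo_pd (hsg i) i).continuous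
        have hcb : ∀ x, ‖∑ i ∈ s, pd i (g i) x‖ ≤ (s.card + 1) * ((Q3 + Q) * a) := by
          intro x
          calc ‖∑ i ∈ s, pd i (g i) x‖ ≤ ∑ i ∈ s, (Q3 + Q) * a :=
              (norm_sum_le _ _).trans (Finset.sum_le_sum fun i _ => hgb1 i i x)
            _ = s.card * ((Q3 + Q) * a) := by rw [Finset.sum_const, nsmul_eq_mul]
            _ ≤ (s.card + 1) * ((Q3 + Q) * a) := by
                have : 0 ≤ (Q3 + Q) * a := by positivity
                linarith
        have hcb' : ∀ x, ‖pd i (g i) x‖ ≤ (s.card + 1) * ((Q3 + Q) * a) := by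
          intro x
          refine (hgb1 i i x).trans ?_
          have h1 : 0 ≤ (Q3 + Q) * a := by positivity
          have h2 : (0 : ℝ) ≤ s.card := Nat.cast_nonneg _
          nlinarith
        rw [(hPB2 (dm n) X (pd i (g i)) (fun x => ∑ i ∈ s, pd i (g i) x) _
          (smo_pd (hsg i) i).continuous hcs hcb' hcb y hy z).1, ih]
    rw [hsum, hPsum]
    have h6 : ∀ i, ‖Poi (pd i (g i)) z y‖ ≤ C6 * ((Q3 + Q) * a) / y := fun i =>
      hC6 X (g i) ((Q3 + Q) * a) ((Q3 + Q) * a) (hBC i) (hgb i) i z y hy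
    calc ‖∑ i, Poi (pd i (g i)) z y‖ ≤ ∑ _i : Fin (dm n), C6 * ((Q3 + Q) * a) / y :=
          (norm_sum_le _ _).trans (Finset.sum_le_sum fun i _ => h6 i)
      _ = dm n * (C6 * ((Q3 + Q) * a) / y) := by
          rw [Finset.sum_const, Finset.card_univ, Fintype.card_fin, nsmul_eq_mul]
      _ ≤ dm n * (|C6| * ((Q3 + Q) * a) / y) := by
          refine mul_le_mul_of_nonneg_left ?_ (by positivity)
          refine div_le_div_of_nonneg_right ?_ hy.le
          exact mul_le_mul_of_nonneg_right (le_abs_self _) (by positivity)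
      _ = dm n * (|C6| * (Q + Q3)) * a / y := by ring
      _ ≤ ((1 + dm n) * Q + dm n * (|C6| * (Q + Q3)) + 1) * a / y := by
          refine div_le_div_of_nonneg_right ?_ hy.le
          refine mul_le_mul_of_nonneg_right ?_ ha
          have : 0 ≤ (1 + (dm n : ℝ)) * Q := by positivity
          linarith

end

end Pool.Agent.HBW
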