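import Pool.Agent.HBW.Stmts

/-!
# Squad HBW, module LSW: lattice sums of the decay weights
-/

set_option autoImplicit false

namespace Pool.Agent.HBW

open MeasureTheory Set Filter Topology
open scoped ENNReal Real

namespace LSW_

theorem zeta : HasSum (fun n : ℕ => (((1 : ℝ) + n) ^ 2)⁻¹) (π ^ 2 / 6) := by
  have h := hasSum_zeta_two
  rw [← add_zero (π ^ 2 / 6)] at h
  have h2 := (hasSum_nat_add_iff (f := fun n : ℕ => 1 / (n : ℝ) ^ 2) (g := π ^ 2 / 6) 1).2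
    (by simpa using h)
  refine h2.congr_fun ?_ |> fun h => h
  intro n
  push_cast
  rw [one_div, add_comm]

theorem zeta_le : π ^ 2 / 6 ≤ 2 := by
  have h1 := Real.pi_lt_d2
  have h2 := Real.pi_pos
  nlinarith

theorem sumZ : ∃ a : ℝ, HasSum (fun k : ℤ => (((1 : ℝ) + |(k : ℝ)|) ^ 2)⁻¹) a ∧ a ≤ 4 := by
  have h1 : HasSum (fun n : ℕ => (((1 : ℝ) + |(((n : ℕ) : ℤ) : ℝ)|) ^ 2)⁻¹) (π ^ 2 / 6) := by
    refine zeta.congr_fun ?_ |> fun h => h
    intro n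
    simp
  have h2 : Summable (fun n : ℕ => (((1 : ℝ) + |((-((n : ℤ) + 1) : ℤ) : ℝ)|) ^ 2)⁻¹) := by
    refine Summable.of_nonneg_of_le (fun n => by positivity) (fun n => ?_) zeta.summable
    apply inv_anti₀ (by positivity)
    have : |((-((n : ℤ) + 1) : ℤ) : ℝ)| = (n : ℝ) + 1 := by
      push_cast
      rw [abs_neg, abs_of_nonneg (by positivity)]
    rw [this]
    gcongr
    linarith
  have h3 : ∑' n : ℕ, (((1 : ℝ) + |((-((n : ℤ) + 1) : ℤ) : ℝ)|) ^ 2)⁻¹ ≤ π ^ 2 / 6 := by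
    rw [← zeta.tsum_eq]
    refine h2.tsum_le_tsum (fun n => ?_) zeta.summable
    apply inv_anti₀ (by positivity)
    have : |((-((n : ℤ) + 1) : ℤ) : ℝ)| = (n : ℝ) + 1 := by
      push_cast
      rw [abs_neg, abs_of_nonneg (by positivity)]
    rw [this]
    gcongr
    linarith
  refine ⟨_, HasSum.of_nat_of_neg_add_one h1 h2.hasSum, ?_⟩
  have := zeta_le
  linarith

theorem one_d (x : ℝ) (t : Finset ℤ) : ∑ k ∈ t, ((1 + |x - k|) ^ 2)⁻¹ ≤ 16 := by
  obtain ⟨a, ha, ha4⟩ := sumZ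
  have h1 : ∀ k ∈ t, ((1 + |x - k|) ^ 2)⁻¹ ≤ 4 * ((1 + |((k - ⌊x⌋ : ℤ) : ℝ)|) ^ 2)⁻¹ := by
    intro k _
    have h2 : |((k - ⌊x⌋ : ℤ) : ℝ)| ≤ |x - k| + 1 := by
      push_cast
      have h3 : (k : ℝ) - ⌊x⌋ = -(x - k) + (x - ⌊x⌋) := by ring
      rw [h3]
      refine (abs_add_le _ _).trans ?_
      rw [abs_neg]
      have h4 := Int.floor_le x
      have h5 := Int.lt_floor_add_one x
      have h6 : |x - ⌊x⌋| ≤ 1 := by
        rw [abs_le]
        constructor <;> linarith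
      linarith
    have h7 : 0 ≤ |((k - ⌊x⌋ : ℤ) : ℝ)| := abs_nonneg _
    have h8 : 0 ≤ |x - k| := abs_nonneg _
    have h9 : (1 + |((k - ⌊x⌋ : ℤ) : ℝ)|) ^ 2 ≤ 4 * (1 + |x - k|) ^ 2 := by
      nlinarith
    have h10 : 4 * ((1 + |((k - ⌊x⌋ : ℤ) : ℝ)|) ^ 2)⁻¹ =
        ((1 + |((k - ⌊x⌋ : ℤ) : ℝ)|) ^ 2 / 4)⁻¹ := by
      rw [inv_div]
      ring
    rw [h10]
    apply inv_anti₀ (by positivity)
    linarith
  refine (Finset.sum_le_sum h1).trans ?_
  rw [← Finset.mul_sum]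
  have h2 : ∑ k ∈ t, ((1 + |((k - ⌊x⌋ : ℤ) : ℝ)|) ^ 2)⁻¹ =
      ∑ j ∈ t.image (fun k => k - ⌊x⌋), ((1 + |(j : ℝ)|) ^ 2)⁻¹ := by
    rw [Finset.sum_image]
    intro a _ b _ hab
    simpa using hab
  have h3 : ∑ j ∈ t.image (fun k => k - ⌊x⌋), ((1 + |(j : ℝ)|) ^ 2)⁻¹ ≤ a :=
    sum_le_hasSum _ (fun i _ => by positivity) ha
  rw [h2]
  linarith

theorem fin_sum (D : ℕ) (x : P D) (e : ℤ) (he : 2 * (D : ℤ) ≤ e) (s : Finset (Z D)) :
    ∑ k ∈ s, (1 + ‖x - zr k‖) ^ (-e) ≤ 16 ^ D := by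
  classical
  have h1 : ∀ k ∈ s, (1 + ‖x - zr k‖) ^ (-e) ≤ ∏ i, ((1 + |x i - k i|) ^ 2)⁻¹ := by
    intro k _
    have h2 : (1 : ℝ) ≤ 1 + ‖x - zr k‖ := by
      have := norm_nonneg (x - zr k)
      linarith
    calc (1 + ‖x - zr k‖) ^ (-e) ≤ (1 + ‖x - zr k‖) ^ (-(2 * (D : ℤ))) :=
          zpow_le_zpow_right₀ h2 (by linarith)
      _ = ∏ _i : Fin D, ((1 + ‖x - zr k‖) ^ 2)⁻¹ := by
          rw [Finset.prod_const, Finset.card_univ, Fintype.card_fin, zpow_neg, inv_pow,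
            ← pow_mul]
          norm_cast
      _ ≤ ∏ i, ((1 + |x i - k i|) ^ 2)⁻¹ := by
          apply Finset.prod_le_prod
          · intro i _
            positivity
          · intro i _
            apply inv_anti₀ (by positivity)
            have h3 := norm_le_pi_norm (x - zr k) i
            have h4 : ‖(x - zr k) i‖ = |x i - k i| := by
              rw [Pi.sub_apply, Real.norm_eq_abs]
              rfl
            rw [h4] at h3
            gcongr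
  refine (Finset.sum_le_sum h1).trans ?_
  set t : Fin D → Finset ℤ := fun i => s.image (fun k => k i) with ht
  have h2 : s ⊆ Fintype.piFinset t := by
    intro k hk
    rw [Fintype.mem_piFinset]
    intro i
    exact Finset.mem_image_of_mem (fun k : Z D => k i) hk
  refine (Finset.sum_le_sum_of_subset_of_nonneg h2 (fun k _ _ =>
    Finset.prod_nonneg fun i _ => by positivity)).trans ?_
  rw [← Finset.prod_univ_sum t (fun i j => ((1 + |x i - (j : ℝ)|) ^ 2)⁻¹)]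
  calc ∏ i, ∑ j ∈ t i, ((1 + |x i - (j : ℝ)|) ^ 2)⁻¹ ≤ ∏ _i : Fin D, (16 : ℝ) := by
        apply Finset.prod_le_prod
        · intro i _
          exact Finset.sum_nonneg fun j _ => by positivity
        · intro i _
          exact one_d (x i) (t i)
    _ = 16 ^ D := by simp

end LSW_

open LSW_ in
theorem lsw_proof : Stmt_LSW := by
  refine ⟨4, fun n hn x e he => ?_⟩
  have h0 : ∀ k : Z (dm n), 0 ≤ (1 + ‖x - zr k‖) ^ (-e) := by
    intro k
    have := norm_nonneg (x - zr k)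
    positivity
  have h1 : Summable (fun k : Z (dm n) => (1 + ‖x - zr k‖) ^ (-e)) :=
    summable_of_sum_le h0 (fin_sum (dm n) x e he)
  refine ⟨h1, ?_⟩
  refine (h1.tsum_le_of_sum_le (fin_sum (dm n) x e he)).trans ?_
  have h2 : (16 : ℝ) = 2 ^ 4 := by norm_num
  rw [h2, ← pow_mul]
  have h3 : dm n = n ^ 4 := rfl
  rw [h3]
  have h4 : (2 : ℝ) ≤ n := by exact_mod_cast hn
  exact pow_le_pow_left₀ (by norm_num) h4 _

end Pool.Agent.HBW
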