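import Pool.Agent.HBW.Stmts

/-!
Squad HBW, module MEA: the dead points fill only a small part of the unit cube.
-/

set_option autoImplicit false

namespace Pool.Agent.HBW

open MeasureTheory Set Filter Topology
open scoped ENNReal Real

namespace MEA_

lemma rho_eq (n : ℕ) : (rho n : ℝ) = (dm n : ℝ) * 2 ^ n := by
  simp [rho, dm]

lemma dm_pos (n : ℕ) (hn : 1 ≤ n) : 0 < (dm n : ℝ) := by
  have h : 0 < dm n := by unfold dm; positivity
  exact_mod_cast h

lemma exp_half_le : Real.exp (1 / 2) ≤ 2 := by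
  have h1 : Real.exp (1 / 2) ^ 2 = Real.exp 1 := by
    rw [← Real.exp_nat_mul]; norm_num
  have h2 := Real.exp_one_lt_d9
  have h3 : 0 < Real.exp (1 / 2) := Real.exp_pos _
  nlinarith

lemma exp_three_ge : (16 : ℝ) ≤ Real.exp 3 := by
  have h1 : Real.exp 3 = Real.exp 1 ^ 3 := by
    rw [← Real.exp_nat_mul]; norm_num
  have h2 := Real.exp_one_gt_d9
  rw [h1]
  calc (16 : ℝ) ≤ 2.7182818283 ^ 3 := by norm_num
    _ ≤ Real.exp 1 ^ 3 := pow_le_pow_left₀ (by norm_num) h2.le 3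

lemma A2 (n : ℕ) (hn : 200000 ≤ n) : thh n * (rho n : ℝ) ^ 4 ≤ 1 / 2 := by
  have hnR : (200000 : ℝ) ≤ n := by exact_mod_cast hn
  have h1 : (rho n : ℝ) ^ 4 = (n : ℝ) ^ 16 * 16 ^ n := by
    have : (rho n : ℝ) = (n : ℝ) ^ 4 * 2 ^ n := by simp [rho]
    rw [this, mul_pow, ← pow_mul, ← pow_mul, mul_comm n 4, pow_mul (2 : ℝ) 4 n]
    norm_num
  have h2 : (n : ℝ) ^ 16 ≤ 20922789888000 * Real.exp n := by
    have := Real.pow_div_factorial_le_exp (n : ℝ) (by positivity) 16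
    rw [div_le_iff₀ (by positivity)] at this
    have h16 : ((Nat.factorial 16 : ℕ) : ℝ) = 20922789888000 := by
      norm_num [Nat.factorial]
    rw [h16] at this
    linarith
  have h3 : (16 : ℝ) ^ n ≤ Real.exp (3 * n) := by
    calc (16 : ℝ) ^ n ≤ Real.exp 3 ^ n := pow_le_pow_left₀ (by norm_num) exp_three_ge n
      _ = Real.exp (3 * n) := by rw [← Real.exp_nat_mul]; ring_nf
  have h4 : (4e13 : ℝ) * 1.1 ≤ Real.exp n := by
    have := Real.pow_div_factorial_le_exp (n : ℝ) (by positivity) 3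
    have h6 : ((Nat.factorial 3 : ℕ) : ℝ) = 6 := by norm_num [Nat.factorial]
    rw [h6] at this
    have h5 : (200000 : ℝ) ^ 3 ≤ (n : ℝ) ^ 3 := pow_le_pow_left₀ (by norm_num) hnR 3
    have h7 : (200000 : ℝ) ^ 3 / 6 ≤ (n : ℝ) ^ 3 / 6 := by linarith
    calc (4e13 : ℝ) * 1.1 ≤ (200000 : ℝ) ^ 3 / 6 := by norm_num
      _ ≤ _ := h7.trans this
  have h5 : thh n = Real.exp (-(n : ℝ) ^ 2 / 40000) := rfl
  have h6 : thh n * (rho n : ℝ) ^ 4 ≤ 20922789888000 * Real.exp (-(n : ℝ)) := by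
    rw [h1, h5]
    calc Real.exp (-(n : ℝ) ^ 2 / 40000) * ((n : ℝ) ^ 16 * 16 ^ n)
        ≤ Real.exp (-(n : ℝ) ^ 2 / 40000) *
          ((20922789888000 * Real.exp n) * Real.exp (3 * n)) := by
          apply mul_le_mul_of_nonneg_left _ (Real.exp_pos _).le
          exact mul_le_mul h2 h3 (by positivity) (by positivity)
      _ = 20922789888000 * Real.exp (-(n : ℝ) ^ 2 / 40000 + n + 3 * n) := by
          rw [Real.exp_add, Real.exp_add]; ring
      _ ≤ 20922789888000 * Real.exp (-(n : ℝ)) := by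
          apply mul_le_mul_of_nonneg_left _ (by norm_num)
          apply Real.exp_le_exp.2
          nlinarith
  refine h6.trans ?_
  rw [Real.exp_neg, ← div_eq_mul_inv, div_le_iff₀ (Real.exp_pos _)]
  norm_num at h4
  linarith

lemma rn_big (n : ℕ) (hn : 200000 ≤ n) : 32 * (dm n : ℝ) ≤ (rn n : ℝ) := by
  set k := (n + 1) / 2 with hk
  have hk1 : 100000 ≤ k := by omega
  have hk2 : n ≤ 2 * k := by omega
  have hkR : (100000 : ℝ) ≤ k := by exact_mod_cast hk1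
  have h1 : (dm n : ℝ) ≤ 16 * (k : ℝ) ^ 4 := by
    have : (dm n : ℝ) = (n : ℝ) ^ 4 := by simp [dm]
    rw [this]
    have h2 : (n : ℝ) ≤ 2 * k := by exact_mod_cast hk2
    calc (n : ℝ) ^ 4 ≤ (2 * (k : ℝ)) ^ 4 := pow_le_pow_left₀ (by positivity) h2 4
      _ = 16 * (k : ℝ) ^ 4 := by ring
  have h2 : (rn n : ℝ) = 2 ^ k := by simp [rn, hk]
  have h3 : Real.exp ((k : ℝ) / 2) ≤ 2 ^ k := by
    calc Real.exp ((k : ℝ) / 2) = Real.exp (1 / 2) ^ k := by
          rw [← Real.exp_nat_mul]; ring_nf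
      _ ≤ 2 ^ k := pow_le_pow_left₀ (Real.exp_pos _).le exp_half_le k
  have h4 := Real.pow_div_factorial_le_exp ((k : ℝ) / 2) (by positivity) 6
  have h6 : ((Nat.factorial 6 : ℕ) : ℝ) = 720 := by norm_num [Nat.factorial]
  rw [h6] at h4
  rw [h2]
  have h5 : 512 * (k : ℝ) ^ 4 ≤ ((k : ℝ) / 2) ^ 6 / 720 := by
    have h7 : ((k : ℝ) / 2) ^ 6 / 720 = (k : ℝ) ^ 4 * ((k : ℝ) ^ 2 / 46080) := by ring
    rw [h7, mul_comm]
    apply mul_le_mul_of_nonneg_left _ (by positivity)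
    rw [le_div_iff₀ (by norm_num)]
    nlinarith
  linarith

lemma A1 (n : ℕ) (hn : 200000 ≤ n) :
    (1 + 4 * ((rn n : ℝ) + 2) / 2 ^ n) ^ dm n ≤ 2 := by
  set x : ℝ := 4 * ((rn n : ℝ) + 2) / 2 ^ n with hx
  have hx0 : 0 ≤ x := by positivity
  have hr := rn_big n hn
  have hd : 1 ≤ (dm n : ℝ) := by
    have h : 1 ≤ dm n := by
      unfold dm
      exact Nat.one_le_pow _ _ (by omega)
    exact_mod_cast h
  have hr0 : 0 < (rn n : ℝ) := by linarith
  have h1 : (rn n : ℝ) * rn n ≤ 2 * 2 ^ n := by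
    have h2 : rn n * rn n ≤ 2 * 2 ^ n := by
      unfold rn
      rw [← pow_add, ← pow_succ']
      exact Nat.pow_le_pow_right (by norm_num) (by omega)
    exact_mod_cast h2
  have h2 : x ≤ 16 / (rn n : ℝ) := by
    rw [hx, div_le_div_iff₀ (by positivity) hr0]
    nlinarith
  have h3 : (dm n : ℝ) * x ≤ 1 / 2 := by
    calc (dm n : ℝ) * x ≤ dm n * (16 / (rn n : ℝ)) :=
          mul_le_mul_of_nonneg_left h2 (by linarith)
      _ ≤ 1 / 2 := by
          rw [mul_div_assoc', div_le_iff₀ hr0]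
          linarith
  calc (1 + x) ^ dm n ≤ Real.exp x ^ dm n := by
        apply pow_le_pow_left₀ (by linarith)
        have := Real.add_one_le_exp x
        linarith
    _ = Real.exp (dm n * x) := by rw [← Real.exp_nat_mul]
    _ ≤ Real.exp (1 / 2) := Real.exp_le_exp.2 h3
    _ ≤ 2 := exp_half_le

section casc

variable {n N0 : ℕ} {B0 : ℝ} {X : Type} [NormedAddCommGroup X] [NormedSpace ℝ X]
  {A : Fin (dm n) → (X →L[ℝ] X)} {f : ℕ → P (dm n) → X} {S : ℕ → Finset (Z (dm n))}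
  {a : ℕ → Z (dm n) → ℝ}

lemma card0 (hC : Casc n N0 B0 A f S a) : ((S 0).card : ℝ) = ((dm n : ℝ) * N0) ^ dm n := by
  have h : S 0 = Fintype.piFinset (fun _ : Fin (dm n) => Finset.Ico (0 : ℤ) (dm n * N0)) := by
    ext p
    rw [hC.s0, Fintype.mem_piFinset]
    simp only [Finset.mem_Ico]
  rw [h, Fintype.card_piFinset]
  simp only [Int.card_Ico, sub_zero, Finset.prod_const, Finset.card_univ, Fintype.card_fin]
  have h2 : ((dm n : ℤ) * (N0 : ℤ)).toNat = dm n * N0 := by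
    rw [← Nat.cast_mul]; exact Int.toNat_natCast _
  rw [h2]
  push_cast
  rfl

open Classical in
lemma count (hC : Casc n N0 B0 A f S a) (i : ℕ) :
    ∑ q ∈ (chd n (S i)).filter (GC n (S i)), Real.sqrt (a (i + 1) q) ≤
      (thh n * (rho n : ℝ) ^ dm n) ^ (i + 1) * (((dm n : ℝ) * N0) ^ dm n * Real.sqrt 2) := by
  have hθ : 0 ≤ thh n * (rho n : ℝ) ^ dm n :=
    mul_nonneg (Real.exp_pos _).le (by positivity)
  induction i with
  | zero =>
    refine (hC.sum 0).trans ?_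
    rw [zero_add, pow_one]
    apply mul_le_mul_of_nonneg_left _ hθ
    rw [← card0 hC, ← nsmul_eq_mul]
    apply Finset.sum_le_card_nsmul
    intro p hp
    exact Real.sqrt_le_sqrt (hC.a0 p hp)
  | succ i ih =>
    refine (hC.sum (i + 1)).trans ?_
    rw [pow_succ' _ (i + 1), mul_assoc (thh n * (rho n : ℝ) ^ dm n) _ _]
    refine mul_le_mul_of_nonneg_left ?_ hθ
    refine le_trans ?_ ih
    apply Finset.sum_le_sum_of_subset_of_nonneg
    · intro q hq
      rw [hC.alive] at hq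
      rw [Finset.mem_filter]
      exact ⟨hq.1, hq.2.1⟩
    · intro q _ _
      exact Real.sqrt_nonneg _

/-- bad cubes of stage `i + 1` -/
noncomputable def Bad (n : ℕ) (B0 : ℝ) (S : ℕ → Finset (Z (dm n))) (a : ℕ → Z (dm n) → ℝ)
    (i : ℕ) : Finset (Z (dm n)) :=
  open scoped Classical in
  ((chd n (S i)).filter (GC n (S i))).filter (fun q => B0 * lam n ^ (i + 1) < a (i + 1) q)

lemma bad_card (hC : Casc n N0 B0 A f S a) (hn : 1 ≤ n) (hB : 2 ≤ B0) (i : ℕ) :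
    ((Bad n B0 S a i).card : ℝ) * (Real.sqrt B0 * (((rho n : ℝ) ^ 4) ^ (i + 1))⁻¹) ≤
      (thh n * (rho n : ℝ) ^ dm n) ^ (i + 1) * (((dm n : ℝ) * N0) ^ dm n * Real.sqrt 2) := by
  classical
  have hlam : Real.sqrt B0 * (((rho n : ℝ) ^ 4) ^ (i + 1))⁻¹ =
      Real.sqrt (B0 * lam n ^ (i + 1)) := by
    rw [Real.sqrt_mul (by linarith)]
    congr 1
    have h1 : lam n ^ (i + 1) = ((((rho n : ℝ) ^ 4) ^ (i + 1))⁻¹) ^ 2 := by
      unfold lam
      rw [inv_pow, inv_pow]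
      congr 1
      ring
    rw [h1, Real.sqrt_sq (by positivity)]
  rw [hlam]
  refine le_trans ?_ (count hC i)
  rw [← nsmul_eq_mul]
  refine le_trans (Finset.card_nsmul_le_sum (Bad n B0 S a i)
    (fun q => Real.sqrt (a (i + 1) q)) _ ?_) ?_
  · intro q hq
    unfold Bad at hq
    rw [Finset.mem_filter] at hq
    exact Real.sqrt_le_sqrt hq.2.le
  · unfold Bad
    apply Finset.sum_le_sum_of_subset_of_nonneg
    · intro q hq
      exact (Finset.mem_filter.1 hq).1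
    · intro q _ _
      exact Real.sqrt_nonneg _

end casc

/-- volume of the neighbourhood of a cube -/
lemma vol_cube (n N0 j : ℕ) (q : Z (dm n)) (t : ℝ) (ht : 0 ≤ t) :
    volume {x : P (dm n) | ∃ y ∈ cube n N0 j q, ‖x - y‖ ≤ t} ≤
      ENNReal.ofReal ((1 / ((dm n : ℝ) * Nj n N0 j) + 2 * t) ^ dm n) := by
  have hsub : {x : P (dm n) | ∃ y ∈ cube n N0 j q, ‖x - y‖ ≤ t} ⊆
      Icc (fun i => (q i : ℝ) / (dm n * Nj n N0 j) - t)
        (fun i => ((q i : ℝ) + 1) / (dm n * Nj n N0 j) + t) := by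
    rintro x ⟨y, hy, hxy⟩
    constructor
    · intro i
      have h1 := (hy i).1
      have h2 : |x i - y i| ≤ t := (norm_le_pi_norm (x - y) i).trans hxy
      have h3 := abs_le.1 h2
      show (q i : ℝ) / (dm n * Nj n N0 j) - t ≤ x i
      linarith [h3.1]
    · intro i
      have h1 := (hy i).2
      have h2 : |x i - y i| ≤ t := (norm_le_pi_norm (x - y) i).trans hxy
      have h3 := abs_le.1 h2
      show x i ≤ ((q i : ℝ) + 1) / (dm n * Nj n N0 j) + t
      linarith [h3.2]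
  refine (measure_mono hsub).trans ?_
  rw [Real.volume_Icc_pi]
  have h : ∀ i : Fin (dm n), ((q i : ℝ) + 1) / (dm n * Nj n N0 j) + t -
      ((q i : ℝ) / (dm n * Nj n N0 j) - t) = 1 / ((dm n : ℝ) * Nj n N0 j) + 2 * t := by
    intro i; ring
  simp only [h, Finset.prod_const, Finset.card_univ, Fintype.card_fin]
  rw [ENNReal.ofReal_pow (by positivity)]

/-- volume of a slab -/
lemma vol_slab (D : ℕ) (i : Fin D) (u v : ℝ) (huv : u ≤ v) :
    volume {x : P D | x ∈ Wd D ∧ u ≤ x i ∧ x i ≤ v} ≤ ENNReal.ofReal (v - u) := by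
  have hsub : {x : P D | x ∈ Wd D ∧ u ≤ x i ∧ x i ≤ v} ⊆
      Icc (Function.update (fun _ => (0 : ℝ)) i u) (Function.update (fun _ => (1 : ℝ)) i v) := by
    rintro x ⟨hx, h1, h2⟩
    constructor
    · intro k
      by_cases hk : k = i
      · subst hk; simpa using h1
      · rw [Function.update_of_ne hk]; exact (hx k).1.le
    · intro k
      by_cases hk : k = i
      · subst hk; simpa using h2
      · rw [Function.update_of_ne hk]; exact (hx k).2.le
  refine (measure_mono hsub).trans ?_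
  rw [Real.volume_Icc_pi, ← Finset.mul_prod_erase Finset.univ _ (Finset.mem_univ i)]
  have h1 : ∏ x ∈ Finset.univ.erase i,
      ENNReal.ofReal (Function.update (fun _ : Fin D => (1 : ℝ)) i v x -
        Function.update (fun _ : Fin D => (0 : ℝ)) i u x) = 1 := by
    apply Finset.prod_eq_one
    intro k hk
    rw [Function.update_of_ne (Finset.ne_of_mem_erase hk),
      Function.update_of_ne (Finset.ne_of_mem_erase hk)]
    simp
  rw [h1, mul_one]
  simp

/-- the layer near the boundary of the window -/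
lemma vol_layer (D : ℕ) (t : ℝ) (ht : 0 ≤ t) :
    volume {x : P D | x ∈ Wd D ∧ ∃ i, x i ≤ t ∨ 1 - t ≤ x i} ≤
      ENNReal.ofReal (D * (2 * t)) := by
  have hsub : {x : P D | x ∈ Wd D ∧ ∃ i, x i ≤ t ∨ 1 - t ≤ x i} ⊆
      ⋃ i ∈ (Finset.univ : Finset (Fin D)), ({x : P D | x ∈ Wd D ∧ 0 ≤ x i ∧ x i ≤ t} ∪
        {x : P D | x ∈ Wd D ∧ 1 - t ≤ x i ∧ x i ≤ 1}) := by
    rintro x ⟨hx, i, h | h⟩
    · refine mem_iUnion₂.2 ⟨i, Finset.mem_univ i, Or.inl ⟨hx, (hx i).1.le, h⟩⟩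
    · refine mem_iUnion₂.2 ⟨i, Finset.mem_univ i, Or.inr ⟨hx, h, (hx i).2.le⟩⟩
  refine (measure_mono hsub).trans ((measure_biUnion_finset_le _ _).trans ?_)
  have h1 : ∀ i : Fin D, volume ({x : P D | x ∈ Wd D ∧ 0 ≤ x i ∧ x i ≤ t} ∪
        {x : P D | x ∈ Wd D ∧ 1 - t ≤ x i ∧ x i ≤ 1}) ≤ ENNReal.ofReal (2 * t) := by
    intro i
    refine (measure_union_le _ _).trans ?_
    refine (add_le_add (vol_slab D i 0 t ht) (vol_slab D i (1 - t) 1 (by linarith))).trans ?_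
    rw [← ENNReal.ofReal_add (by linarith) (by linarith)]
    apply ENNReal.ofReal_le_ofReal
    linarith
  refine (Finset.sum_le_sum fun i _ => h1 i).trans ?_
  rw [Finset.sum_const, Finset.card_univ, Fintype.card_fin, nsmul_eq_mul,
    ← ENNReal.ofReal_natCast D, ← ENNReal.ofReal_mul (Nat.cast_nonneg D)]

/-- the arithmetic of one stage -/
lemma arith (c θ r M s B x : ℝ) (D i : ℕ) (hc : 0 ≤ c) (hθ : 0 ≤ θ) (hr : 0 < r) (hM : 0 < M)
    (hB : 0 < B) (hx : 0 ≤ x) (hx2 : (1 + x) ^ D ≤ 2) (hθr : θ * r ^ 4 ≤ 1 / 2)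
    (hs : s = 1 / (M * r ^ i))
    (h : c * (B * ((r ^ 4) ^ i)⁻¹) ≤ (θ * r ^ D) ^ i * (M ^ D * Real.sqrt 2)) :
    c * (s * (1 + x)) ^ D ≤ 4 / B * (1 / 2) ^ i := by
  have h2 : Real.sqrt 2 ≤ 2 := by
    rw [Real.sqrt_le_left (by norm_num)]; norm_num
  have hri : 0 < (r ^ 4) ^ i := by positivity
  have h3 : c ≤ (θ * r ^ D) ^ i * (M ^ D * 2) * (r ^ 4) ^ i / B := by
    rw [le_div_iff₀ hB]
    have h4 : c * (B * ((r ^ 4) ^ i)⁻¹) ≤ (θ * r ^ D) ^ i * (M ^ D * 2) := by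
      refine h.trans ?_
      have h5 : 0 ≤ (θ * r ^ D) ^ i := by positivity
      have h6 : 0 ≤ M ^ D := by positivity
      exact mul_le_mul_of_nonneg_left (mul_le_mul_of_nonneg_left h2 h6) h5
    have h7 : c * B = c * (B * ((r ^ 4) ^ i)⁻¹) * (r ^ 4) ^ i := by
      field_simp
    rw [h7]
    exact mul_le_mul_of_nonneg_right h4 hri.le
  have hs0 : 0 ≤ s := by rw [hs]; positivity
  have h8 : (s * (1 + x)) ^ D ≤ s ^ D * 2 := by
    rw [mul_pow]
    exact mul_le_mul_of_nonneg_left hx2 (by positivity)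
  have h9 : s ^ D = 1 / (M ^ D * (r ^ D) ^ i) := by
    rw [hs, div_pow, one_pow, mul_pow, ← pow_mul, ← pow_mul, mul_comm i D]
  calc c * (s * (1 + x)) ^ D ≤ ((θ * r ^ D) ^ i * (M ^ D * 2) * (r ^ 4) ^ i / B) *
        (s ^ D * 2) := mul_le_mul h3 h8 (by positivity) (by positivity)
    _ = 4 / B * (θ * r ^ 4) ^ i := by
        rw [h9, mul_pow, mul_pow]
        field_simp
        ring
    _ ≤ 4 / B * (1 / 2) ^ i := by
        apply mul_le_mul_of_nonneg_left _ (by positivity)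
        exact pow_le_pow_left₀ (by positivity) hθr i

end MEA_

theorem mea_proof (hDED : Stmt_DED) : Stmt_MEA := by
  classical
  refine ⟨200000, ?_⟩
  intro n hn X _ _ A N0 B0 f S a hN0 hB0 hC
  have hn1 : 1 ≤ n := by omega
  have hd := MEA_.dm_pos n hn1
  have hN0R : (1 : ℝ) ≤ N0 := by exact_mod_cast hN0
  have hN0p : (0 : ℝ) < N0 := by linarith
  have hrho : 0 < (rho n : ℝ) := by
    rw [MEA_.rho_eq]; positivity
  have hB : 0 < Real.sqrt B0 := Real.sqrt_pos.2 (by linarith)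
  set t0' : ℝ := 2 * ((rn n : ℝ) + 2) / (rho n * N0) with ht0
  have ht0n : 0 ≤ t0' := by positivity
  set t : ℕ → ℝ := fun i => 2 * ((rn n : ℝ) + 2) / (rho n * Nj n N0 (i + 1)) with ht
  have hNj : ∀ i, 0 < (Nj n N0 i : ℝ) := by
    intro i
    unfold Nj
    push_cast
    positivity
  have htn : ∀ i, 0 ≤ t i := by
    intro i
    have := hNj (i + 1)
    simp only [ht]
    positivity
  have hsub : {x | x ∈ Wd (dm n) ∧ ∃ j, ∀ p ∈ S j, x ∉ cube n N0 j p} ⊆
      {x : P (dm n) | x ∈ Wd (dm n) ∧ ∃ i, x i ≤ t0' ∨ 1 - t0' ≤ x i} ∪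
      ⋃ i : ℕ, ⋃ q ∈ MEA_.Bad n B0 S a i,
        {x : P (dm n) | ∃ y ∈ cube n N0 (i + 1) q, ‖x - y‖ ≤ t i} := by
    rintro x ⟨hx, j, hj⟩
    rcases hDED n N0 B0 X A f S a (by omega) hN0 hC j x hx hj with h | h
    · left
      exact ⟨hx, h⟩
    · right
      obtain ⟨i, hi, q, hq, hgc, hb, y, hy, hxy⟩ := h
      obtain ⟨i, rfl⟩ : ∃ i', i = i' + 1 := ⟨i - 1, by omega⟩
      rw [Nat.add_sub_cancel] at hq hgc
      refine mem_iUnion.2 ⟨i, mem_iUnion₂.2 ⟨q, ?_, ⟨y, hy, hxy⟩⟩⟩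
      unfold MEA_.Bad
      rw [Finset.mem_filter, Finset.mem_filter]
      exact ⟨⟨hq, hgc⟩, hb⟩
  have hstage : ∀ i : ℕ, volume (⋃ q ∈ MEA_.Bad n B0 S a i,
      {x : P (dm n) | ∃ y ∈ cube n N0 (i + 1) q, ‖x - y‖ ≤ t i}) ≤
      ENNReal.ofReal (4 / Real.sqrt B0 * (1 / 2) ^ (i + 1)) := by
    intro i
    refine (measure_biUnion_finset_le _ _).trans ?_
    refine (Finset.sum_le_sum fun q _ =>
      MEA_.vol_cube n N0 (i + 1) q (t i) (htn i)).trans ?_
    rw [Finset.sum_const, nsmul_eq_mul, ← ENNReal.ofReal_natCast,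
      ← ENNReal.ofReal_mul (by positivity)]
    apply ENNReal.ofReal_le_ofReal
    have hs : 1 / ((dm n : ℝ) * Nj n N0 (i + 1)) + 2 * t i =
        (1 / ((dm n : ℝ) * N0 * (rho n : ℝ) ^ (i + 1))) *
          (1 + 4 * ((rn n : ℝ) + 2) / 2 ^ n) := by
      have h1 : (Nj n N0 (i + 1) : ℝ) = N0 * (rho n : ℝ) ^ (i + 1) := by
        unfold Nj; push_cast; ring
      simp only [ht]
      rw [h1, MEA_.rho_eq]
      have hd' : (dm n : ℝ) ≠ 0 := hd.ne'
      have hN' : (N0 : ℝ) ≠ 0 := hN0p.ne'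
      have h2' : (2 : ℝ) ^ n ≠ 0 := by positivity
      field_simp
      ring
    rw [hs]
    exact MEA_.arith _ (thh n) (rho n) ((dm n : ℝ) * N0) _ (Real.sqrt B0) _ (dm n) (i + 1)
      (Nat.cast_nonneg _) (Real.exp_pos _).le hrho (by positivity) hB (by positivity)
      (MEA_.A1 n hn) (MEA_.A2 n hn) rfl (MEA_.bad_card hC hn1 hB0 i)
  refine (measure_mono hsub).trans ((measure_union_le _ _).trans ?_)
  rw [ENNReal.ofReal_add (by positivity) (by positivity)]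
  refine add_le_add ?_ ?_
  · refine (MEA_.vol_layer (dm n) t0' ht0n).trans (ENNReal.ofReal_le_ofReal ?_)
    rw [ht0]
    apply le_of_eq
    ring
  · refine (measure_iUnion_le _).trans ((ENNReal.tsum_le_tsum hstage).trans ?_)
    have hsum : Summable (fun i : ℕ => 4 / Real.sqrt B0 * (1 / 2 : ℝ) ^ (i + 1)) := by
      apply Summable.mul_left
      exact (summable_nat_add_iff 1).2 (summable_geometric_of_lt_one (by norm_num) (by norm_num))
    rw [← ENNReal.ofReal_tsum_of_nonneg (fun i => by positivity) hsum]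
    apply ENNReal.ofReal_le_ofReal
    rw [tsum_mul_left]
    have h1 : ∑' i : ℕ, (1 / 2 : ℝ) ^ (i + 1) = 1 := by
      simp only [pow_succ]
      rw [tsum_mul_right, tsum_geometric_of_lt_one (by norm_num) (by norm_num)]
      norm_num
    rw [h1, mul_one]

end Pool.Agent.HBW
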