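import Pool.Agent.HBW.Stmts

set_option autoImplicit false

namespace Pool.Agent.HBW

open MeasureTheory Set Filter Topology
open scoped ENNReal Real

namespace MIN_

theorem gauss (D : ℕ) (b : ℝ) (hb : 0 < b) :
    Integrable (fun ξ : P D => Real.exp (-b * ∑ i, ξ i ^ 2)) := by
  have h1 : (fun ξ : P D => Real.exp (-b * ∑ i, ξ i ^ 2)) = fun ξ : P D => ∏ i, Real.exp (-b * ξ i ^ 2) := by
    funext ξ
    rw [Finset.mul_sum, Real.exp_sum]
  rw [h1]
  exact Integrable.fintype_prod (f := fun _ x => Real.exp (-b * x ^ 2)) fun _ => integrable_exp_neg_mul_sq hb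

theorem bd (ω b : ℝ) (k : ℕ) (hb : 0 < b) (s : ℝ) (hs : 0 ≤ s) :
    Real.exp (ω * s) * (1 + s) ^ k * Real.exp (-b * s ^ 2) ≤
      k.factorial * Real.exp (1 + (ω + 1) ^ 2 / (4 * b)) := by
  have h1 : (1 + s) ^ k ≤ k.factorial * Real.exp (1 + s) := by
    have h2 := Real.pow_div_factorial_le_exp (1 + s) (by linarith) k
    have h3 : (0 : ℝ) < k.factorial := by exact_mod_cast Nat.factorial_pos k
    rw [div_le_iff₀ h3] at h2
    linarith
  have h4 : ω * s + (1 + s) + -b * s ^ 2 ≤ 1 + (ω + 1) ^ 2 / (4 * b) := by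
    have h5 : 0 ≤ (2 * b * s - (ω + 1)) ^ 2 / (4 * b) := by positivity
    have h6 : (2 * b * s - (ω + 1)) ^ 2 / (4 * b) = b * s ^ 2 - (ω + 1) * s + (ω + 1) ^ 2 / (4 * b) := by
      field_simp
      ring
    linarith
  calc Real.exp (ω * s) * (1 + s) ^ k * Real.exp (-b * s ^ 2)
      ≤ Real.exp (ω * s) * (k.factorial * Real.exp (1 + s)) * Real.exp (-b * s ^ 2) := by gcongr
    _ = k.factorial * Real.exp (ω * s + (1 + s) + -b * s ^ 2) := by
        have e : ∀ x y z : ℝ, Real.exp (x + y + z) = Real.exp x * Real.exp y * Real.exp z := by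
          intro x y z
          rw [Real.exp_add, Real.exp_add]
        rw [e]
        ring
    _ ≤ k.factorial * Real.exp (1 + (ω + 1) ^ 2 / (4 * b)) := by gcongr

end MIN_

open MIN_ in
theorem min_proof : Stmt_MIN := by
  intro n _ k
  have ht : (0 : ℝ) < t0 / 8 := by rw [t0]; norm_num
  have hg := (gauss (dm n) (t0 / 8) ht).const_mul
    (k.factorial * Real.exp (1 + (om n + 1) ^ 2 / (4 * (t0 / 8))))
  refine hg.mono' ?_ (Filter.Eventually.of_forall fun ξ => ?_)
  · apply Continuous.aestronglyMeasurable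
    unfold m0
    fun_prop
  · set s : ℝ := Real.sqrt (∑ i, ξ i ^ 2) with hs
    have hsum : 0 ≤ ∑ i, ξ i ^ 2 := Finset.sum_nonneg fun i _ => sq_nonneg _
    have hs0 : 0 ≤ s := Real.sqrt_nonneg _
    have hs2 : ∑ i, ξ i ^ 2 = s ^ 2 := (Real.sq_sqrt hsum).symm
    have hom : 0 ≤ om n := by rw [om]; positivity
    have hum : 0 ≤ um n := by rw [um]; positivity
    rw [Real.norm_eq_abs, m0, hs2]
    have e1 : 0 ≤ 1 - Real.exp (-um n * s ^ 2) := by
      have : Real.exp (-um n * s ^ 2) ≤ 1 := Real.exp_le_one_iff.mpr (by nlinarith [sq_nonneg s])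
      linarith
    have e2 : 1 - Real.exp (-um n * s ^ 2) ≤ 1 := by linarith [Real.exp_pos (-um n * s ^ 2)]
    have e3 : (1 - Real.exp (-um n * s ^ 2)) ^ Ln n ≤ 1 := pow_le_one₀ e1 e2
    have e4 : 0 ≤ (1 - Real.exp (-um n * s ^ 2)) ^ Ln n := pow_nonneg e1 _
    have e5 : Real.cosh (om n * s) ≤ Real.exp (om n * s) := by
      rw [Real.cosh_eq]
      have : Real.exp (-(om n * s)) ≤ Real.exp (om n * s) :=
        Real.exp_le_exp.mpr (by nlinarith [mul_nonneg hom hs0])
      linarith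
    have e6 : 0 ≤ Real.cosh (om n * s) := (Real.cosh_pos _).le
    have hsqrt : Real.sqrt (s ^ 2) = s := Real.sqrt_sq hs0
    rw [hsqrt]
    rw [abs_of_nonneg (by positivity)]
    have e7 : Real.exp (-t0 / 4 * s ^ 2) = Real.exp (-(t0 / 8) * s ^ 2) * Real.exp (-(t0 / 8) * s ^ 2) := by
      rw [← Real.exp_add]
      congr 1
      ring
    calc Real.cosh (om n * s) * (1 - Real.exp (-um n * s ^ 2)) ^ Ln n * Real.exp (-t0 / 4 * s ^ 2) * (1 + s) ^ k
        ≤ Real.exp (om n * s) * 1 * Real.exp (-t0 / 4 * s ^ 2) * (1 + s) ^ k := by gcongr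
      _ = (Real.exp (om n * s) * (1 + s) ^ k * Real.exp (-(t0 / 8) * s ^ 2)) * Real.exp (-(t0 / 8) * s ^ 2) := by
          rw [e7]
          ring
      _ ≤ (k.factorial * Real.exp (1 + (om n + 1) ^ 2 / (4 * (t0 / 8)))) * Real.exp (-(t0 / 8) * s ^ 2) :=
          mul_le_mul_of_nonneg_right (bd (om n) (t0 / 8) k ht s hs0) (Real.exp_pos _).le

end Pool.Agent.HBW
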