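import Pool.Agent.HBW.Stmts

/-!
Squad HBW, module ONE: the one step theorem.
-/

set_option autoImplicit false

namespace Pool.Agent.HBW

open MeasureTheory Set Filter Topology
open scoped ENNReal Real

namespace ONE_

theorem sqrt_add_le {x y : ℝ} (hx : 0 ≤ x) (hy : 0 ≤ y) :
    Real.sqrt (x + y) ≤ Real.sqrt x + Real.sqrt y := by
  rw [Real.sqrt_le_iff]
  refine ⟨by positivity, ?_⟩
  have h1 := Real.sq_sqrt hx
  have h2 := Real.sq_sqrt hy
  have h3 := Real.sqrt_nonneg x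
  have h4 := Real.sqrt_nonneg y
  nlinarith [mul_nonneg h3 h4]

theorem sqrt_five {s1 s2 s3 s4 s5 t e : ℝ} (h1 : 0 ≤ s1) (h2 : 0 ≤ s2) (h3 : 0 ≤ s3)
    (h4 : 0 ≤ s4) (h5 : 0 ≤ s5) (ht : 0 ≤ t) (he : 0 ≤ e) :
    Real.sqrt (2 * (s1 + s2) + t * s3 + e * s4 + e * s5) ≤
      2 * Real.sqrt s1 + 2 * Real.sqrt s2 + Real.sqrt t * Real.sqrt s3 +
        Real.sqrt e * Real.sqrt s4 + Real.sqrt e * Real.sqrt s5 := by
  have a1 : Real.sqrt (2 * (s1 + s2) + t * s3 + e * s4 + e * s5) ≤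
      Real.sqrt (2 * (s1 + s2) + t * s3 + e * s4) + Real.sqrt (e * s5) :=
    sqrt_add_le (by positivity) (by positivity)
  have a2 : Real.sqrt (2 * (s1 + s2) + t * s3 + e * s4) ≤
      Real.sqrt (2 * (s1 + s2) + t * s3) + Real.sqrt (e * s4) :=
    sqrt_add_le (by positivity) (by positivity)
  have a3 : Real.sqrt (2 * (s1 + s2) + t * s3) ≤
      Real.sqrt (2 * (s1 + s2)) + Real.sqrt (t * s3) :=
    sqrt_add_le (by positivity) (by positivity)
  have a4 : Real.sqrt (2 * (s1 + s2)) ≤ Real.sqrt (2 * s1) + Real.sqrt (2 * s2) := by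
    rw [mul_add]
    exact sqrt_add_le (by positivity) (by positivity)
  have a5 : ∀ s : ℝ, 0 ≤ s → Real.sqrt (2 * s) ≤ 2 * Real.sqrt s := by
    intro s hs
    rw [Real.sqrt_mul (by norm_num)]
    have : Real.sqrt 2 ≤ 2 := by
      rw [Real.sqrt_le_iff]; norm_num
    gcongr
  rw [Real.sqrt_mul he] at a1 a2
  rw [Real.sqrt_mul ht] at a3
  have := a5 s1 h1
  have := a5 s2 h2
  linarith

theorem asym (C : ℕ) : ∃ n0 : ℕ, ∀ n ≥ n0,
    2 * Real.exp (-(n : ℝ) ^ 4 / 50) + 4 * Real.exp (-(n : ℝ) ^ 2 / 33000) +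
      Real.sqrt (th n) + 2 * (Real.sqrt (ep n) * (n : ℝ) ^ (C * n ^ 4)) ≤ thh n := by
  have hr : (1 : ℝ) < Real.exp (1 / 64) := by
    rw [← Real.exp_zero]
    exact Real.exp_lt_exp.2 (by norm_num)
  have h := tendsto_pow_const_div_const_pow_of_one_lt C hr
  have h1 : ∀ᶠ n : ℕ in atTop, (n : ℝ) ^ C / (Real.exp (1 / 64)) ^ n < 1 :=
    h.eventually_lt_const (by norm_num)
  obtain ⟨n0, hn0⟩ := eventually_atTop.1 h1
  refine ⟨n0 + 2000, fun n hn => ?_⟩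
  have h2 := hn0 n (by omega)
  rw [div_lt_one (by positivity)] at h2
  have hn1 : (2000 : ℝ) ≤ n := by
    have : 2000 ≤ n := by omega
    exact_mod_cast this
  have hnn : (2000 : ℝ) ^ 2 ≤ (n : ℝ) ^ 2 := by gcongr
  set E : ℝ := Real.exp (-(n : ℝ) ^ 2 / 34000) with hE
  have e1 : Real.exp (-(n : ℝ) ^ 4 / 50) ≤ E := by
    apply Real.exp_le_exp.2
    have : (n : ℝ) ^ 4 = (n : ℝ) ^ 2 * (n : ℝ) ^ 2 := by ring
    rw [this]
    nlinarith
  have e2 : Real.exp (-(n : ℝ) ^ 2 / 33000) ≤ E := by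
    apply Real.exp_le_exp.2
    linarith
  have e3 : Real.sqrt (th n) = E := by
    have : th n = E ^ 2 := by
      rw [hE, ← Real.exp_nat_mul]
      unfold th
      congr 1
      push_cast
      ring
    rw [this, Real.sqrt_sq (Real.exp_pos _).le]
  have e4 : Real.sqrt (ep n) = Real.exp (-(n : ℝ) ^ 5 / 32) := by
    have : ep n = Real.exp (-(n : ℝ) ^ 5 / 32) ^ 2 := by
      rw [← Real.exp_nat_mul]
      unfold ep
      congr 1
      push_cast
      ring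
    rw [this, Real.sqrt_sq (Real.exp_pos _).le]
  have e5 : (n : ℝ) ^ (C * n ^ 4) ≤ Real.exp ((n : ℝ) ^ 5 / 64) := by
    calc (n : ℝ) ^ (C * n ^ 4) = ((n : ℝ) ^ C) ^ (n ^ 4) := by rw [pow_mul]
      _ ≤ (Real.exp (1 / 64) ^ n) ^ (n ^ 4) := by gcongr
      _ = Real.exp ((n : ℝ) ^ 5 / 64) := by
        rw [← pow_mul, ← Real.exp_nat_mul]
        congr 1
        push_cast
        ring
  have e6 : Real.sqrt (ep n) * (n : ℝ) ^ (C * n ^ 4) ≤ E := by
    rw [e4]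
    calc Real.exp (-(n : ℝ) ^ 5 / 32) * (n : ℝ) ^ (C * n ^ 4)
        ≤ Real.exp (-(n : ℝ) ^ 5 / 32) * Real.exp ((n : ℝ) ^ 5 / 64) := by gcongr
      _ = Real.exp (-(n : ℝ) ^ 5 / 64) := by
        rw [← Real.exp_add]
        congr 1
        ring
      _ ≤ E := by
        apply Real.exp_le_exp.2
        have h5 : (n : ℝ) ^ 5 = (n : ℝ) ^ 2 * (n : ℝ) ^ 3 := by ring
        have h3 : (1 : ℝ) ≤ (n : ℝ) ^ 3 := one_le_pow₀ (by linarith)
        rw [h5]
        nlinarith [mul_le_mul_of_nonneg_left h3 (sq_nonneg (n : ℝ))]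
  rw [e3]
  have e7 : 9 * E ≤ thh n := by
    have h8 : thh n = Real.exp ((n : ℝ) ^ 2 * (3 / 680000)) * E := by
      rw [hE, ← Real.exp_add]
      unfold thh
      congr 1
      ring
    rw [h8]
    have h9 : (9 : ℝ) ≤ Real.exp ((n : ℝ) ^ 2 * (3 / 680000)) := by
      have := Real.add_one_le_exp ((n : ℝ) ^ 2 * (3 / 680000))
      nlinarith
    have := (Real.exp_pos (-(n : ℝ) ^ 2 / 34000)).le
    rw [← hE] at this
    gcongr
  have hE0 : 0 ≤ E := (Real.exp_pos _).le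
  linarith

end ONE_

open ONE_ in
theorem one_proof (hLIN : Stmt_LIN) (hTYH : Stmt_TYH) (hTYE : Stmt_TYE) (hSU1 : Stmt_SU1)
    (hSU2 : Stmt_SU2) (hSU3 : Stmt_SU3) : Stmt_ONE := by
  obtain ⟨n1, hLIN⟩ := hLIN
  obtain ⟨n2, hTYH⟩ := hTYH
  obtain ⟨n3, hTYE⟩ := hTYE
  obtain ⟨n4, hSU2⟩ := hSU2
  obtain ⟨C, hSU3⟩ := hSU3
  obtain ⟨n5, has⟩ := asym C
  refine ⟨n1 + n2 + n3 + n4 + n5 + 2, fun n hn => ?_⟩
  intro X _ _ _ A S F a hA hF ha hFb
  obtain ⟨gh, hgh0, hghb, hghs, hght⟩ := hTYH n (by omega)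
  obtain ⟨g1, hg10, hg1b, hg1s, hg1t⟩ := hTYE n (by omega)
  classical
  have hlin := hLIN n (by omega) X A S F a (fun j => gh j + g1 j) hA hF ha hFb
    (fun j => add_nonneg (hgh0 j) (hg10 j)) (by
      intro j z hz w hw
      have h1 := hghb j z hz w hw
      have h2 := hg1b j z hz w hw
      rw [mul_add]
      linarith)
  have hn2 : 2 ≤ n := by omega
  set s1 : Z (dm n) → ℝ := fun q =>
    ∑ k ∈ (ZA n S).filter (nrk n q), gh (q - (dm n : ℤ) • k) * a (pr n k) with hs1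
  set s2 : Z (dm n) → ℝ := fun q =>
    ∑ k ∈ (ZA n S).filter (nrk n q), g1 (q - (dm n : ℤ) • k) * a (pr n k) with hs2
  set s3 : Z (dm n) → ℝ := fun q => a (pc n q) with hs3
  set s4 : Z (dm n) → ℝ := fun q => ∑ p ∈ S.filter (nrp n q), a p with hs4
  set s5 : Z (dm n) → ℝ := fun q => ∑ k ∈ ZA n S, wt n q k * a (pr n k) with hs5
  have p1 : ∀ q, 0 ≤ s1 q := fun q => Finset.sum_nonneg fun k _ => mul_nonneg (hgh0 _) (ha _)
  have p2 : ∀ q, 0 ≤ s2 q := fun q => Finset.sum_nonneg fun k _ => mul_nonneg (hg10 _) (ha _)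
  have p3 : ∀ q, 0 ≤ s3 q := fun q => ha _
  have p4 : ∀ q, 0 ≤ s4 q := fun q => Finset.sum_nonneg fun k _ => ha _
  have p5 : ∀ q, 0 ≤ s5 q := fun q => Finset.sum_nonneg fun k _ =>
    mul_nonneg (by unfold wt; positivity) (ha _)
  have hth : 0 ≤ th n := by unfold th; positivity
  have hep : 0 ≤ ep n := by unfold ep; positivity
  refine ⟨fun q => 2 * (s1 q + s2 q) + th n * s3 q + ep n * s4 q + ep n * s5 q, ?_, ?_, ?_⟩
  · intro q
    have := p1 q
    have := p2 q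
    have := p3 q
    have := p4 q
    have := p5 q
    positivity
  · intro q hq hG z hz w hw
    have h := hlin q hq hG z hz w hw
    rw [mul_comm]
    refine h.trans (le_of_eq ?_)
    congr 1
    have : ∑ k ∈ (ZA n S).filter (nrk n q), (gh (q - (dm n : ℤ) • k) +
        g1 (q - (dm n : ℤ) • k)) * a (pr n k) = s1 q + s2 q := by
      rw [hs1, hs2]
      show _ = ∑ k ∈ (ZA n S).filter (nrk n q), _ + ∑ k ∈ (ZA n S).filter (nrk n q), _
      rw [← Finset.sum_add_distrib]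
      refine Finset.sum_congr rfl fun k _ => ?_
      ring
    rw [this]
  · set G := (chd n S).filter (GC n S) with hG
    set R : ℝ := (rho n : ℝ) ^ dm n with hR
    set Sa : ℝ := ∑ p ∈ S, Real.sqrt (a p) with hSa
    have hR0 : 0 ≤ R := by positivity
    have hSa0 : 0 ≤ Sa := Finset.sum_nonneg fun p _ => Real.sqrt_nonneg _
    have hRe : R = (dm n : ℝ) ^ dm n * ((2 : ℝ) ^ n) ^ dm n := by
      rw [hR, ← mul_pow]
      congr 1
      unfold rho dm
      push_cast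
      ring
    have hDD : (0 : ℝ) < (dm n : ℝ) ^ dm n := by
      have : 0 < dm n := by unfold dm; positivity
      positivity
    have b1 : ∑ q ∈ G, Real.sqrt (s1 q) ≤ Real.exp (-(n : ℝ) ^ 4 / 50) * (R * Sa) := by
      refine (hSU1 n hn2 S a gh ha hgh0 hghs).trans ?_
      rw [hRe]
      calc _ ≤ (Real.exp (-(n : ℝ) ^ 4 / 50) * (dm n : ℝ) ^ dm n) * ((2 : ℝ) ^ n) ^ dm n * Sa := by
            gcongr
        _ = _ := by ring
    have b2 : ∑ q ∈ G, Real.sqrt (s2 q) ≤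
        (2 * Real.exp (-(n : ℝ) ^ 2 / 33000)) * (R * Sa) := by
      refine (hSU2 n (by omega) S a g1 ha hg10 hg1s).trans ?_
      have h1 : (∑' j, g1 j) * ((dm n : ℝ) ^ dm n)⁻¹ ≤ Real.exp (-(n : ℝ) ^ 2 / 33000) ^ 2 := by
        rw [← Real.exp_nat_mul, ← div_eq_mul_inv, div_le_iff₀ hDD]
        refine hg1t.trans (le_of_eq ?_)
        congr 2
        push_cast
        ring
      have h2 : Real.sqrt ((∑' j, g1 j) * ((dm n : ℝ) ^ dm n)⁻¹) ≤
          Real.exp (-(n : ℝ) ^ 2 / 33000) := by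
        rw [Real.sqrt_le_iff]
        exact ⟨(Real.exp_pos _).le, h1⟩
      calc _ ≤ 2 * Real.exp (-(n : ℝ) ^ 2 / 33000) * R * Sa := by gcongr
        _ = _ := by ring
    obtain ⟨c3, c4, c5⟩ := hSU3 n hn2 S a ha
    have b3 : ∑ q ∈ G, Real.sqrt (s3 q) ≤ R * Sa := c3
    have b4 : ∑ q ∈ G, Real.sqrt (s4 q) ≤ (n : ℝ) ^ (C * n ^ 4) * (R * Sa) := by
      refine c4.trans (le_of_eq ?_)
      ring
    have b5 : ∑ q ∈ G, Real.sqrt (s5 q) ≤ (n : ℝ) ^ (C * n ^ 4) * (R * Sa) := by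
      refine c5.trans (le_of_eq ?_)
      ring
    calc ∑ q ∈ G, Real.sqrt (2 * (s1 q + s2 q) + th n * s3 q + ep n * s4 q + ep n * s5 q)
        ≤ ∑ q ∈ G, (2 * Real.sqrt (s1 q) + 2 * Real.sqrt (s2 q) +
          Real.sqrt (th n) * Real.sqrt (s3 q) + Real.sqrt (ep n) * Real.sqrt (s4 q) +
          Real.sqrt (ep n) * Real.sqrt (s5 q)) :=
          Finset.sum_le_sum fun q _ => sqrt_five (p1 q) (p2 q) (p3 q) (p4 q) (p5 q) hth hep
      _ = 2 * ∑ q ∈ G, Real.sqrt (s1 q) + 2 * ∑ q ∈ G, Real.sqrt (s2 q) +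
          Real.sqrt (th n) * ∑ q ∈ G, Real.sqrt (s3 q) +
          Real.sqrt (ep n) * ∑ q ∈ G, Real.sqrt (s4 q) +
          Real.sqrt (ep n) * ∑ q ∈ G, Real.sqrt (s5 q) := by
          simp only [Finset.sum_add_distrib, Finset.mul_sum]
      _ ≤ 2 * (Real.exp (-(n : ℝ) ^ 4 / 50) * (R * Sa)) +
          2 * ((2 * Real.exp (-(n : ℝ) ^ 2 / 33000)) * (R * Sa)) +
          Real.sqrt (th n) * (R * Sa) +
          Real.sqrt (ep n) * ((n : ℝ) ^ (C * n ^ 4) * (R * Sa)) +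
          Real.sqrt (ep n) * ((n : ℝ) ^ (C * n ^ 4) * (R * Sa)) := by
          have := Real.sqrt_nonneg (th n)
          have := Real.sqrt_nonneg (ep n)
          gcongr
      _ = (2 * Real.exp (-(n : ℝ) ^ 4 / 50) + 4 * Real.exp (-(n : ℝ) ^ 2 / 33000) +
          Real.sqrt (th n) + 2 * (Real.sqrt (ep n) * (n : ℝ) ^ (C * n ^ 4))) * (R * Sa) := by
          ring
      _ ≤ thh n * (R * Sa) := by
          have := has n (by omega)
          gcongr
      _ = _ := by ring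

end Pool.Agent.HBW
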