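import Pool.Agent.HBW.PB0
import Pool.Agent.HBZ.PCO

/-!
Squad HBW, module PB1 (helper32): bounded continuous functions, integrability and sup bound.
-/

set_option autoImplicit false

namespace Pool.Agent.HBW

open MeasureTheory Set Filter Topology
open scoped ENNReal Real

namespace PB1_

variable {D : ℕ} {X : Type} [NormedAddCommGroup X] [NormedSpace ℝ X]

lemma int_y (hGSR : Stmt_GSR) (f : P D → X) (B : ℝ) (hf : Continuous f) (hB : ∀ x, ‖f x‖ ≤ B)
    (u : ℝ) (hu : 0 < u) (x : P D) : Integrable (fun y => gs (4 * u) (x - y) • f y) := by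
  have h4 : (0 : ℝ) < 4 * u := by positivity
  have h1 : Integrable (fun y : P D => gs (4 * u) (x - y)) :=
    (PB0_.gs_int hGSR D (4 * u) h4).comp_sub_left x
  have hc : Continuous (fun y : P D => gs (4 * u) (x - y)) :=
    (PB0_.gs_cont D (4 * u)).comp (continuous_const.sub continuous_id)
  refine Integrable.mono' (h1.norm.mul_const B) ((hc.smul hf).aestronglyMeasurable) ?_
  refine Eventually.of_forall fun y => ?_
  rw [norm_smul]
  exact mul_le_mul_of_nonneg_left (hB y) (norm_nonneg _)

lemma ht_bd (hGSR : Stmt_GSR) (f : P D → X) (B : ℝ) (hB : ∀ x, ‖f x‖ ≤ B)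
    (u : ℝ) (hu : 0 < u) (x : P D) : ‖ht u f x‖ ≤ B := by
  have h4 : (0 : ℝ) < 4 * u := by positivity
  have h1 : Integrable (fun y : P D => gs (4 * u) (x - y)) :=
    (PB0_.gs_int hGSR D (4 * u) h4).comp_sub_left x
  have h2 : ∫ y : P D, gs (4 * u) (x - y) = 1 := by
    rw [integral_sub_left_eq_self (fun w : P D => gs (4 * u) w) volume x]
    exact (hGSR D (4 * u) h4).2.2.1
  have h3 : ‖ht u f x‖ ≤ ∫ y : P D, gs (4 * u) (x - y) * B := by
    unfold ht
    refine norm_integral_le_of_norm_le (h1.mul_const B) ?_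
    refine Eventually.of_forall fun y => ?_
    rw [norm_smul, Real.norm_eq_abs, abs_of_pos ((hGSR D (4 * u) h4).2.2.2 _)]
    exact mul_le_mul_of_nonneg_left (hB y) ((hGSR D (4 * u) h4).2.2.2 _).le
  rw [integral_mul_const, h2, one_mul] at h3
  exact h3

lemma ht_meas (f : P D → X) (hf : Continuous f) (x : P D) :
    StronglyMeasurable (fun u : ℝ => ht u f x) := by
  have h1 : StronglyMeasurable (fun p : ℝ × P D => gs (4 * p.1) (x - p.2) • f p.2) := by
    have h2 : Measurable (fun p : ℝ × P D => gs (4 * p.1) (x - p.2)) := by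
      have h3 : Measurable (fun p : ℝ × P D => (p.1, x - p.2)) := by fun_prop
      exact Pool.Agent.HBZ.REP_.meas_gs.comp h3
    exact h2.stronglyMeasurable.smul (hf.comp continuous_snd).stronglyMeasurable
  exact h1.integral_prod_right'

end PB1_

theorem pb1_proof (hSUB : Stmt_SUB) (hGSR : Stmt_GSR) : Stmt_PB1 := by
  intro D X _ _ _ f B hf hB
  have : CompleteSpace X := FiniteDimensional.complete ℝ X
  have hREP := pb0_rep hSUB hGSR
  refine ⟨fun u hu x => ⟨PB1_.int_y hGSR f B hf hB u hu x, PB1_.ht_bd hGSR f B hB u hu x⟩,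
    fun y hy x => ?_, ?_⟩
  · have h1 : IntegrableOn (lev y) (Ioi 0) := (hSUB.2.2.2.1 y hy).1
    have h2 : IntegrableOn (fun u => lev y u • ht u f x) (Ioi 0) := by
      refine Integrable.mono' (h1.norm.mul_const B)
        (h1.aestronglyMeasurable.smul (PB1_.ht_meas f hf x).aestronglyMeasurable) ?_
      filter_upwards [ae_restrict_mem (measurableSet_Ioi (a := (0 : ℝ)))] with u hu
      rw [norm_smul]
      exact mul_le_mul_of_nonneg_left (PB1_.ht_bd hGSR f B hB u hu x) (norm_nonneg _)
    refine ⟨h2, ?_⟩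
    have h3 : ‖Poi f x y‖ ≤ ∫ u in Ioi (0 : ℝ), lev y u * B := by
      unfold Poi
      refine norm_integral_le_of_norm_le (h1.mul_const B) ?_
      filter_upwards [ae_restrict_mem (measurableSet_Ioi (a := (0 : ℝ)))] with u hu
      rw [norm_smul, Real.norm_eq_abs, abs_of_nonneg (hSUB.2.1 y hy u hu)]
      exact mul_le_mul_of_nonneg_left (PB1_.ht_bd hGSR f B hB u hu x) (hSUB.2.1 y hy u hu)
    rw [integral_mul_const, (hSUB.2.2.2.1 y hy).2, one_mul] at h3
    exact h3
  · have h1 := (Pool.Agent.HBZ.pco_proof hREP D X f B hf hB).1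
    refine h1.continuousOn.congr ?_
    intro p hp
    have hp' : 0 < p.2 := hp
    simp only [Pool.Agent.HBZ.vv, if_pos hp']

end Pool.Agent.HBW
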