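import Pool.Agent.HBW.PB0

/-!
Squad HBW, module PB2 (helper32): linearity of the Poisson extension.
-/

set_option autoImplicit false

namespace Pool.Agent.HBW

open MeasureTheory Set Filter Topology
open scoped ENNReal Real

theorem pb2_proof (_hPB1 : Stmt_PB1) (hSUB : Stmt_SUB) (hGSR : Stmt_GSR) : Stmt_PB2 := by
  intro D X _ _ _ f g B hf hg hfB hgB y hy x
  have : CompleteSpace X := FiniteDimensional.complete ℝ X
  obtain ⟨κ, hκ, hrep⟩ := pb0_rep hSUB hGSR D
  have hshift : Continuous (fun ζ : P D => x - y • ζ) := by fun_prop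
  have hfi : Integrable (fun ζ : P D => f (x - y • ζ)) κ :=
    (integrable_const B).mono' (hf.comp hshift).aestronglyMeasurable
      (Eventually.of_forall fun ζ => hfB _)
  have hgi : Integrable (fun ζ : P D => g (x - y • ζ)) κ :=
    (integrable_const B).mono' (hg.comp hshift).aestronglyMeasurable
      (Eventually.of_forall fun ζ => hgB _)
  refine ⟨?_, fun c => ?_, fun Y _ _ _ T => ?_, fun c => ?_⟩
  · rw [hrep X (fun z => f z + g z) (B + B) (hf.add hg)
      (fun z => (norm_add_le _ _).trans (add_le_add (hfB z) (hgB z))) x y hy,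
      hrep X f B hf hfB x y hy, hrep X g B hg hgB x y hy, integral_add hfi hgi]
  · rw [hrep X (fun z => c • f z) (‖c‖ * B) (hf.const_smul c)
      (fun z => by rw [norm_smul]; exact mul_le_mul_of_nonneg_left (hfB z) (norm_nonneg _))
      x y hy, hrep X f B hf hfB x y hy, integral_smul]
  · have : CompleteSpace Y := FiniteDimensional.complete ℝ Y
    rw [hrep Y (fun z => T (f z)) (‖T‖ * B) (T.continuous.comp hf)
      (fun z => (T.le_opNorm _).trans (mul_le_mul_of_nonneg_left (hfB z) (norm_nonneg _)))
      x y hy, hrep X f B hf hfB x y hy]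
    exact T.integral_comp_comm hfi
  · rw [hrep X (fun _ => c) ‖c‖ continuous_const (fun z => le_refl _) x y hy]
    simp

end Pool.Agent.HBW
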