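import Pool.Agent.HBW.PB1
import Pool.Agent.HBZ.PDR
import Pool.Agent.HBZ.BCR

/-!
Squad HBW, module PB4 (helper32): boundary values of Poisson extensions.
-/

set_option autoImplicit false

namespace Pool.Agent.HBW

open MeasureTheory Set Filter Topology
open scoped ENNReal Real

namespace PB4_

variable {D : ℕ} {X : Type} [NormedAddCommGroup X] [NormedSpace ℝ X]

lemma exp_bd (t : ℝ) : t ≤ 2 * Real.exp (t ^ 2 / 8) := by
  have h1 : t ^ 2 / 8 + 1 ≤ Real.exp (t ^ 2 / 8) := Real.add_one_le_exp _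
  nlinarith [sq_nonneg (t - 2)]

lemma sq_le_sum (z : P D) : ‖z‖ ^ 2 ≤ ∑ i, z i ^ 2 := by
  have h0 : 0 ≤ ∑ i, z i ^ 2 := Finset.sum_nonneg fun i _ => sq_nonneg _
  have h1 : ‖z‖ ≤ Real.sqrt (∑ i, z i ^ 2) := by
    rw [pi_norm_le_iff_of_nonneg (Real.sqrt_nonneg _)]
    intro i
    refine Real.le_sqrt_of_sq_le ?_
    rw [Real.norm_eq_abs, sq_abs]
    exact Finset.single_le_sum (f := fun i => z i ^ 2) (fun i _ => sq_nonneg _)
      (Finset.mem_univ i)
  calc ‖z‖ ^ 2 ≤ Real.sqrt (∑ i, z i ^ 2) ^ 2 := by gcongr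
    _ = _ := Real.sq_sqrt h0

lemma gs_mul (u : ℝ) (hu : 0 < u) (z : P D) :
    gs (4 * u) z * ‖z‖ ≤ (2 * Real.sqrt 2 ^ D * Real.sqrt u) * gs (8 * u) z := by
  have hsu : 0 < Real.sqrt u := Real.sqrt_pos.2 hu
  have h1 : ‖z‖ ≤ Real.sqrt u * (2 * Real.exp ((∑ i, z i ^ 2) / (8 * u))) := by
    have h2 := exp_bd (‖z‖ / Real.sqrt u)
    have h3 : (‖z‖ / Real.sqrt u) ^ 2 / 8 ≤ (∑ i, z i ^ 2) / (8 * u) := by
      rw [div_pow, Real.sq_sqrt hu.le, div_div, mul_comm u 8]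
      exact div_le_div_of_nonneg_right (sq_le_sum z) (by positivity)
    have h4 : ‖z‖ / Real.sqrt u ≤ 2 * Real.exp ((∑ i, z i ^ 2) / (8 * u)) :=
      h2.trans (by gcongr)
    rw [div_le_iff₀ hsu] at h4
    linarith
  have hA : (Real.sqrt (π * (4 * u)))⁻¹ ^ D = Real.sqrt 2 ^ D * (Real.sqrt (π * (8 * u)))⁻¹ ^ D := by
    rw [← mul_pow]
    congr 1
    have h5 : Real.sqrt (π * (8 * u)) = Real.sqrt 2 * Real.sqrt (π * (4 * u)) := by
      rw [← Real.sqrt_mul (by norm_num)]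
      congr 1
      ring
    have h6 : Real.sqrt 2 ≠ 0 := by positivity
    rw [h5, mul_inv (Real.sqrt 2), mul_inv_cancel_left₀ h6]
  have hE : Real.exp (-(∑ i, z i ^ 2) / (4 * u)) * Real.exp ((∑ i, z i ^ 2) / (8 * u)) =
      Real.exp (-(∑ i, z i ^ 2) / (8 * u)) := by
    rw [← Real.exp_add]
    congr 1
    field_simp
    ring
  unfold gs
  rw [hA]
  have hp : 0 ≤ Real.sqrt 2 ^ D * (Real.sqrt (π * (8 * u)))⁻¹ ^ D := by positivity
  calc Real.sqrt 2 ^ D * (Real.sqrt (π * (8 * u)))⁻¹ ^ D * Real.exp (-(∑ i, z i ^ 2) / (4 * u)) * ‖z‖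
      ≤ Real.sqrt 2 ^ D * (Real.sqrt (π * (8 * u)))⁻¹ ^ D * Real.exp (-(∑ i, z i ^ 2) / (4 * u)) *
        (Real.sqrt u * (2 * Real.exp ((∑ i, z i ^ 2) / (8 * u)))) := by gcongr
    _ = (2 * Real.sqrt 2 ^ D * Real.sqrt u) * ((Real.sqrt (π * (8 * u)))⁻¹ ^ D *
        (Real.exp (-(∑ i, z i ^ 2) / (4 * u)) * Real.exp ((∑ i, z i ^ 2) / (8 * u)))) := by ring
    _ = _ := by rw [hE]

lemma ht_sub (hGSR : Stmt_GSR) (f : P D → X) (B : ℝ) (hc : Continuous f) (hf : ∀ x, ‖f x‖ ≤ B)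
    (hd : ∀ x y, ‖f y - f x‖ ≤ (D * B) * ‖y - x‖) (hB : 0 ≤ B) [CompleteSpace X]
    (u : ℝ) (hu : 0 < u) (x : P D) :
    ‖ht u f x - f x‖ ≤ (2 + 2 * D * Real.sqrt 2 ^ D) * B * min 1 (Real.sqrt u) := by
  have h4 : (0 : ℝ) < 4 * u := by positivity
  have h8 : (0 : ℝ) < 8 * u := by positivity
  have hs2 : 0 ≤ Real.sqrt 2 ^ D := by positivity
  have h1 : Integrable (fun y : P D => gs (4 * u) (x - y)) :=
    (PB0_.gs_int hGSR D (4 * u) h4).comp_sub_left x
  have h1' : Integrable (fun y : P D => gs (8 * u) (x - y)) :=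
    (PB0_.gs_int hGSR D (8 * u) h8).comp_sub_left x
  have h2 : ∫ y : P D, gs (4 * u) (x - y) = 1 := by
    rw [integral_sub_left_eq_self (fun w : P D => gs (4 * u) w) volume x]
    exact (hGSR D (4 * u) h4).2.2.1
  have h2' : ∫ y : P D, gs (8 * u) (x - y) = 1 := by
    rw [integral_sub_left_eq_self (fun w : P D => gs (8 * u) w) volume x]
    exact (hGSR D (8 * u) h8).2.2.1
  have h3 : ht u f x - f x = ∫ y, gs (4 * u) (x - y) • (f y - f x) := by
    have h5 : (∫ y, gs (4 * u) (x - y) • f x) = f x := by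
      rw [integral_smul_const, h2, one_smul]
    have h6 : (∫ y, gs (4 * u) (x - y) • (f y - f x)) =
        (∫ y, gs (4 * u) (x - y) • f y) - ∫ y, gs (4 * u) (x - y) • f x := by
      rw [← integral_sub (PB1_.int_y hGSR f B hc hf u hu x) (h1.smul_const _)]
      refine integral_congr_ae (Eventually.of_forall fun y => ?_)
      simp only [smul_sub]
    rw [h6, h5]
    rfl
  have hpos : ∀ y, 0 ≤ gs (4 * u) (x - y) := fun y => ((hGSR D (4 * u) h4).2.2.2 _).le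
  rcases le_total (Real.sqrt u) 1 with hu1 | hu1
  · rw [min_eq_right hu1, h3]
    have h6 : ‖∫ y, gs (4 * u) (x - y) • (f y - f x)‖ ≤
        ∫ y : P D, ((D * B) * (2 * Real.sqrt 2 ^ D * Real.sqrt u)) * gs (8 * u) (x - y) := by
      refine norm_integral_le_of_norm_le (h1'.const_mul _) (Eventually.of_forall fun y => ?_)
      rw [norm_smul, Real.norm_eq_abs, abs_of_nonneg (hpos y)]
      have h7 := gs_mul u hu (x - y)
      have hDB : 0 ≤ (D : ℝ) * B := by positivity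
      calc gs (4 * u) (x - y) * ‖f y - f x‖ ≤ gs (4 * u) (x - y) * ((D * B) * ‖y - x‖) :=
            mul_le_mul_of_nonneg_left (hd x y) (hpos y)
        _ = (D * B) * (gs (4 * u) (x - y) * ‖x - y‖) := by rw [norm_sub_rev]; ring
        _ ≤ (D * B) * ((2 * Real.sqrt 2 ^ D * Real.sqrt u) * gs (8 * u) (x - y)) :=
            mul_le_mul_of_nonneg_left h7 hDB
        _ = _ := by ring
    rw [integral_const_mul, h2', mul_one] at h6
    refine h6.trans ?_
    have h8 : 0 ≤ B * Real.sqrt u := by positivity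
    nlinarith
  · rw [min_eq_left hu1, h3]
    have h6 : ‖∫ y, gs (4 * u) (x - y) • (f y - f x)‖ ≤
        ∫ y : P D, gs (4 * u) (x - y) * (2 * B) := by
      refine norm_integral_le_of_norm_le (h1.mul_const _) (Eventually.of_forall fun y => ?_)
      rw [norm_smul, Real.norm_eq_abs, abs_of_nonneg (hpos y)]
      refine mul_le_mul_of_nonneg_left ?_ (hpos y)
      calc ‖f y - f x‖ ≤ ‖f y‖ + ‖f x‖ := norm_sub_le _ _
        _ ≤ B + B := add_le_add (hf y) (hf x)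
        _ = 2 * B := by ring
    rw [integral_mul_const, h2, one_mul] at h6
    refine h6.trans ?_
    have h9 : 0 ≤ 2 * (D : ℝ) * Real.sqrt 2 ^ D * B := by positivity
    nlinarith

end PB4_

theorem pb4_proof (hPB1 : Stmt_PB1) (hSUB : Stmt_SUB) (hGSR : Stmt_GSR) : Stmt_PB4 := by
  intro D
  obtain ⟨C, hC⟩ := hSUB.2.2.2.2.2
  refine ⟨(2 + 2 * D * Real.sqrt 2 ^ D) * C, ?_⟩
  intro X _ _ _ f B hf x y hy hy1
  have : CompleteSpace X := FiniteDimensional.complete ℝ X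
  have h0 : ∀ x, ‖f x‖ ≤ B := fun x => hf.bd [] (by simp) x
  have hB0 : 0 ≤ B := (norm_nonneg _).trans (h0 0)
  have hsm : ContDiff ℝ 1 f := hf.sm
  have h1 : ∀ x, ‖fderiv ℝ f x‖ ≤ D * B :=
    (Pool.Agent.HBZ.bcr_proof Pool.Agent.HBZ.pdr_proof D X X 0 B B f f
      (ContinuousLinearMap.id ℝ X) (fun _ => ContinuousLinearMap.id ℝ X)).2.2.2.2.2.2 hf
  have hd : ∀ x y, ‖f y - f x‖ ≤ (D * B) * ‖y - x‖ := fun x y =>
    Convex.norm_image_sub_le_of_norm_fderiv_le (s := univ)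
      (fun z _ => (hsm.differentiable (by norm_num)) z) (fun z _ => h1 z) convex_univ
      (mem_univ x) (mem_univ y)
  have hlev := hSUB.2.2.2.1 y hy
  have hI := (hPB1 D X f B hsm.continuous h0).2.1 y hy x
  have h2 : Poi f x y - f x = ∫ u in Ioi (0 : ℝ), lev y u • (ht u f x - f x) := by
    have h3 : (∫ u in Ioi (0 : ℝ), lev y u • f x) = f x := by
      rw [integral_smul_const, hlev.2, one_smul]
    have h5 : (∫ u in Ioi (0 : ℝ), lev y u • (ht u f x - f x)) =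
        (∫ u in Ioi (0 : ℝ), lev y u • ht u f x) - ∫ u in Ioi (0 : ℝ), lev y u • f x := by
      rw [← integral_sub hI.1 (Integrable.smul_const hlev.1 _)]
      refine integral_congr_ae (Eventually.of_forall fun u => ?_)
      simp only [smul_sub]
    rw [h5, h3]
    rfl
  rw [h2]
  have hK : 0 ≤ (2 + 2 * (D : ℝ) * Real.sqrt 2 ^ D) * B := by positivity
  have h4 : ‖∫ u in Ioi (0 : ℝ), lev y u • (ht u f x - f x)‖ ≤
      ∫ u in Ioi (0 : ℝ), ((2 + 2 * (D : ℝ) * Real.sqrt 2 ^ D) * B) *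
        (lev y u * min 1 (Real.sqrt u)) := by
    refine norm_integral_le_of_norm_le ((hC y hy hy1).1.const_mul _) ?_
    filter_upwards [ae_restrict_mem (measurableSet_Ioi (a := (0 : ℝ)))] with u hu
    have hu' : 0 < u := hu
    rw [norm_smul, Real.norm_eq_abs, abs_of_nonneg (hSUB.2.1 y hy u hu')]
    calc lev y u * ‖ht u f x - f x‖ ≤
        lev y u * ((2 + 2 * D * Real.sqrt 2 ^ D) * B * min 1 (Real.sqrt u)) :=
          mul_le_mul_of_nonneg_left (PB4_.ht_sub hGSR f B hsm.continuous h0 hd hB0 u hu' x)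
            (hSUB.2.1 y hy u hu')
      _ = _ := by ring
  rw [integral_const_mul] at h4
  refine h4.trans ?_
  calc (2 + 2 * (D : ℝ) * Real.sqrt 2 ^ D) * B *
        ∫ u in Ioi (0 : ℝ), lev y u * min 1 (Real.sqrt u) ≤
      (2 + 2 * (D : ℝ) * Real.sqrt 2 ^ D) * B * (C * Real.sqrt y) :=
        mul_le_mul_of_nonneg_left (hC y hy hy1).2 hK
    _ = _ := by ring

end Pool.Agent.HBW
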