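import Pool.Agent.HBW.PB0

/-!
Squad HBW, module PB5 (helper32): scaling and translation.
-/

set_option autoImplicit false

namespace Pool.Agent.HBW

open MeasureTheory Set Filter Topology
open scoped ENNReal Real

theorem pb5_proof (_hPB1 : Stmt_PB1) (hSUB : Stmt_SUB) (hGSR : Stmt_GSR) : Stmt_PB5 := by
  intro D X _ _ _ f B N x0 x y hf hB hN hy
  have : CompleteSpace X := FiniteDimensional.complete ℝ X
  obtain ⟨κ, hκ, hrep⟩ := pb0_rep hSUB hGSR D
  have hc : Continuous (fun z : P D => f (N • z - x0)) := hf.comp (by fun_prop)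
  rw [hrep X (fun z => f (N • z - x0)) B hc (fun z => hB _) x y hy,
    hrep X f B hf hB (N • x - x0) (N * y) (mul_pos hN hy)]
  refine integral_congr_ae (Eventually.of_forall fun ζ => ?_)
  show f (N • (x - y • ζ) - x0) = f (N • x - x0 - (N * y) • ζ)
  congr 1
  rw [smul_sub, smul_smul]
  abel

end Pool.Agent.HBW
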