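import Pool.Agent.HBW.Stmts

set_option autoImplicit false

namespace Pool.Agent.HBW

open MeasureTheory Set Filter Topology
open scoped ENNReal Real

namespace PB6_

variable {D : ℕ}

theorem gs_hasFDeriv (τ : ℝ) (x : P D) : HasFDerivAt (gs τ)
    (gs τ x • (-(τ⁻¹ • ∑ i, (2 * x i) • (ContinuousLinearMap.proj i : P D →L[ℝ] ℝ)))) x := by
  have h1 : ∀ i : Fin D, HasFDerivAt (fun x : P D => x i ^ 2)
      ((2 * x i) • (ContinuousLinearMap.proj i : P D →L[ℝ] ℝ)) x := by
    intro i
    have h := (hasFDerivAt_apply (𝕜 := ℝ) i x).pow 2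
    refine h.congr_fderiv ?_
    ext v
    simp
  have h2 : HasFDerivAt (fun x : P D => ∑ i, x i ^ 2)
      (∑ i, (2 * x i) • (ContinuousLinearMap.proj i : P D →L[ℝ] ℝ)) x :=
    HasFDerivAt.fun_sum fun i _ => h1 i
  have h3 : HasFDerivAt (fun x : P D => -(∑ i, x i ^ 2) / τ)
      (-(τ⁻¹ • ∑ i, (2 * x i) • (ContinuousLinearMap.proj i : P D →L[ℝ] ℝ))) x := by
    have h := (h2.const_smul τ⁻¹).neg
    refine h.congr_of_eventuallyEq (Eventually.of_forall fun y => ?_)
    simp only [Pi.neg_apply, Pi.smul_apply, smul_eq_mul]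
    ring
  have h4 := (h3.exp).const_mul ((Real.sqrt (π * τ))⁻¹ ^ D)
  refine h4.congr_fderiv ?_
  unfold gs
  rw [smul_smul]

theorem gs_diff (τ : ℝ) : Differentiable ℝ (gs τ : P D → ℝ) :=
  fun x => (gs_hasFDeriv τ x).differentiableAt

theorem gs_fderiv (τ : ℝ) (x : P D) (i : Fin D) :
    fderiv ℝ (gs τ) x (Pi.single i 1) = -(gs τ x * (2 * x i / τ)) := by
  rw [(gs_hasFDeriv τ x).fderiv]
  simp only [smul_apply, neg_apply, sum_apply, ContinuousLinearMap.proj_apply, smul_eq_mul]
  rw [Finset.sum_eq_single i]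
  · rw [Pi.single_eq_same]
    ring
  · intro j _ hj
    rw [Pi.single_eq_of_ne hj, mul_zero]
  · intro h
    exact absurd (Finset.mem_univ i) h

theorem gs_cont (τ : ℝ) : Continuous (gs τ : P D → ℝ) := (gs_diff τ).continuous

/-- the derivative of a Gaussian is bounded by a wider Gaussian -/
theorem gs_bound {τ : ℝ} (hτ : 0 < τ) (x : P D) (i : Fin D) :
    |gs τ x * (2 * x i / τ)| ≤ 2 / Real.sqrt τ * (Real.sqrt 2 ^ D * gs (2 * τ) x) := by
  have hs : 0 < Real.sqrt τ := Real.sqrt_pos.2 hτ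
  have hpi : 0 < Real.sqrt (π * τ) := Real.sqrt_pos.2 (mul_pos Real.pi_pos hτ)
  have h2 : 0 < Real.sqrt 2 := Real.sqrt_pos.2 two_pos
  have e1 : Real.sqrt (π * (2 * τ)) = Real.sqrt 2 * Real.sqrt (π * τ) := by
    rw [← Real.sqrt_mul (by norm_num)]
    congr 1
    ring
  have e2 : Real.sqrt 2 ^ D * gs (2 * τ) x =
      (Real.sqrt (π * τ))⁻¹ ^ D * Real.exp (-(∑ i, x i ^ 2) / (2 * τ)) := by
    unfold gs
    rw [e1, mul_inv, mul_pow, ← mul_assoc, ← mul_assoc, ← mul_pow, mul_inv_cancel₀ h2.ne',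
      one_pow, one_mul]
  rw [e2]
  unfold gs
  obtain ⟨c, hc⟩ : ∃ c : ℝ, c = (Real.sqrt (π * τ))⁻¹ ^ D := ⟨_, rfl⟩
  have hc0 : 0 < c := by
    rw [hc]
    positivity
  rw [← hc]
  obtain ⟨q, hq⟩ : ∃ q : ℝ, q = ∑ i, x i ^ 2 := ⟨_, rfl⟩
  have hxq : x i ^ 2 ≤ q := by
    rw [hq]
    exact Finset.single_le_sum (f := fun i => x i ^ 2) (fun j _ => sq_nonneg _)
      (Finset.mem_univ i)
  rw [← hq]
  -- `|x i| / sqrt τ ≤ exp (q / (2 τ))`
  have hs2 : Real.sqrt τ ^ 2 = τ := Real.sq_sqrt hτ.le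
  have e3 : |x i| ≤ Real.sqrt τ * Real.exp (q / (2 * τ)) := by
    have h1 : |x i| / Real.sqrt τ ≤ Real.exp (q / (2 * τ)) := by
      obtain ⟨s, hs'⟩ : ∃ s : ℝ, s = |x i| / Real.sqrt τ := ⟨_, rfl⟩
      rw [← hs']
      have h3 : s ^ 2 / 2 ≤ q / (2 * τ) := by
        rw [hs', div_pow, sq_abs, hs2]
        rw [div_div, div_le_div_iff₀ (by positivity) (by positivity)]
        nlinarith
      have h4 : s ≤ s ^ 2 / 2 + 1 := by nlinarith [sq_nonneg (s - 1)]
      linarith [Real.add_one_le_exp (s ^ 2 / 2), Real.exp_le_exp.2 h3]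
    rwa [div_le_iff₀ hs, mul_comm] at h1
  rw [abs_mul, abs_mul, abs_div, abs_mul, abs_of_pos hτ, abs_two, abs_of_pos hc0,
    abs_of_pos (Real.exp_pos _)]
  have e4 : Real.exp (-q / τ) * Real.exp (q / (2 * τ)) = Real.exp (-q / (2 * τ)) := by
    rw [← Real.exp_add]
    congr 1
    field_simp
    ring
  calc c * Real.exp (-q / τ) * (2 * |x i| / τ)
      ≤ c * Real.exp (-q / τ) * (2 * (Real.sqrt τ * Real.exp (q / (2 * τ))) / τ) := by
        gcongr
    _ = 2 * (Real.sqrt τ / τ) * (c * (Real.exp (-q / τ) * Real.exp (q / (2 * τ)))) := by ring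
    _ = 2 / Real.sqrt τ * (c * Real.exp (-q / (2 * τ))) := by
        rw [e4]
        have : Real.sqrt τ / τ = 1 / Real.sqrt τ := by
          rw [div_eq_div_iff hτ.ne' hs.ne', one_mul, ← sq, hs2]
        rw [this]
        ring

end PB6_

open PB6_ in
theorem pb6_proof (_hPB1 : Stmt_PB1) (_hPB3 : Stmt_PB3) (hSUB : Stmt_SUB) (hGSR : Stmt_GSR) :
    Stmt_PB6 := by
  intro D
  obtain ⟨_, hlev, _, _, ⟨C, hC⟩, _⟩ := hSUB
  refine ⟨Real.sqrt 2 ^ D * C, ?_⟩
  intro X _ _ _ f B B' hf hB i x y hy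
  have hB0 : 0 ≤ B := (norm_nonneg _).trans (hB 0)
  have hfd : Differentiable ℝ f := hf.sm.differentiable (by norm_num)
  have hfc : Continuous f := hfd.continuous
  have hfc' : Continuous (pd i f) := by
    have h1 : Continuous (fderiv ℝ f) := hf.sm.continuous_fderiv (by norm_num)
    exact h1.clm_apply continuous_const
  have hB' : ∀ z, ‖pd i f z‖ ≤ B' := by
    intro z
    have := hf.bd [i] (by simp) z
    simpa [pdw] using this
  have hgi : ∀ τ > 0, Integrable (gs τ : P D → ℝ) := by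
    intro τ hτ
    apply Integrable.of_integral_ne_zero
    rw [(hGSR D τ hτ).2.2.1]
    exact one_ne_zero
  -- the heat extension of the derivative
  have hht : ∀ u > 0, ‖ht u (pd i f) x‖ ≤ Real.sqrt 2 ^ D * B * (1 / Real.sqrt u) := by
    intro u hu
    have hτ : 0 < 4 * u := by positivity
    have hτ2 : 0 < 2 * (4 * u) := by positivity
    have hFd : ∀ z : P D, HasFDerivAt (fun z => gs (4 * u) (x - z))
        (-(fderiv ℝ (gs (4 * u)) (x - z))) z := by
      intro z
      have h1 : HasFDerivAt (fun z : P D => x - z) (-(ContinuousLinearMap.id ℝ (P D))) z :=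
        (hasFDerivAt_id z).const_sub x
      have h2 := ((gs_diff (4 * u) (x - z)).hasFDerivAt).comp z h1
      refine h2.congr_fderiv ?_
      ext v
      simp
    have hFv : ∀ z : P D, fderiv ℝ (fun z => gs (4 * u) (x - z)) z (Pi.single i 1) =
        gs (4 * u) (x - z) * (2 * (x - z) i / (4 * u)) := by
      intro z
      rw [(hFd z).fderiv]
      simp only [neg_apply]
      rw [gs_fderiv, neg_neg]
    have hgx : Integrable (fun z : P D => gs (4 * u) (x - z)) := (hgi _ hτ).comp_sub_left x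
    have hgx2 : Integrable (fun z : P D => gs (2 * (4 * u)) (x - z)) :=
      (hgi _ hτ2).comp_sub_left x
    have hcg : Continuous (fun z : P D => gs (4 * u) (x - z)) :=
      (gs_cont _).comp (continuous_const.sub continuous_id)
    have hcd : Continuous (fun z : P D => gs (4 * u) (x - z) * (2 * (x - z) i / (4 * u))) := by
      apply hcg.mul
      have : Continuous (fun z : P D => (x - z) i) :=
        (continuous_apply i).comp (continuous_const.sub continuous_id)
      exact (continuous_const.mul this).div_const _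
    have hbd : ∀ z : P D, ‖(gs (4 * u) (x - z) * (2 * (x - z) i / (4 * u))) • f z‖ ≤
        2 / Real.sqrt (4 * u) * (Real.sqrt 2 ^ D * gs (2 * (4 * u)) (x - z)) * B := by
      intro z
      rw [norm_smul, Real.norm_eq_abs]
      have h0 : 0 ≤ gs (2 * (4 * u)) (x - z) := ((hGSR D _ hτ2).2.2.2 _).le
      exact mul_le_mul (gs_bound hτ (x - z) i) (hB z) (norm_nonneg _) (by positivity)
    have hbdi : Integrable (fun z : P D =>
        2 / Real.sqrt (4 * u) * (Real.sqrt 2 ^ D * gs (2 * (4 * u)) (x - z)) * B) :=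
      ((hgx2.const_mul _).const_mul _).mul_const B
    have i1 : Integrable (fun z : P D =>
        (gs (4 * u) (x - z) * (2 * (x - z) i / (4 * u))) • f z) :=
      hbdi.mono' (hcd.smul hfc).aestronglyMeasurable (Eventually.of_forall hbd)
    have i2 : Integrable (fun z : P D => gs (4 * u) (x - z) • fderiv ℝ f z (Pi.single i 1)) := by
      refine (hgx.norm.mul_const B').mono' (hcg.smul hfc').aestronglyMeasurable
        (Eventually.of_forall fun z => ?_)
      rw [norm_smul]
      exact mul_le_mul_of_nonneg_left (hB' z) (norm_nonneg _)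
    have i3 : Integrable (fun z : P D => gs (4 * u) (x - z) • f z) := by
      refine (hgx.norm.mul_const B).mono' (hcg.smul hfc).aestronglyMeasurable
        (Eventually.of_forall fun z => ?_)
      rw [norm_smul]
      exact mul_le_mul_of_nonneg_left (hB z) (norm_nonneg _)
    have key : ∫ z : P D, gs (4 * u) (x - z) • fderiv ℝ f z (Pi.single i 1) =
        -∫ z : P D, fderiv ℝ (fun z => gs (4 * u) (x - z)) z (Pi.single i 1) • f z := by
      refine integral_smul_fderiv_eq_neg_fderiv_smul_of_integrable ?_ i2 i3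
        (fun z _ => (hFd z).differentiableAt) (fun z _ => hfd z)
      simp only [hFv]
      exact i1
    have e1 : ht u (pd i f) x = ∫ z : P D, gs (4 * u) (x - z) • fderiv ℝ f z (Pi.single i 1) :=
      rfl
    rw [e1, key, norm_neg]
    simp only [hFv]
    refine (norm_integral_le_of_norm_le hbdi (Eventually.of_forall hbd)).trans ?_
    rw [integral_mul_const, integral_const_mul, integral_const_mul,
      integral_sub_left_eq_self (fun z => gs (2 * (4 * u)) z) volume x,
      (hGSR D _ hτ2).2.2.1, mul_one]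
    have e2 : Real.sqrt (4 * u) = 2 * Real.sqrt u := by
      rw [show (4 : ℝ) * u = 2 ^ 2 * u by norm_num, Real.sqrt_mul (by norm_num),
        Real.sqrt_sq (by norm_num)]
    rw [e2]
    have hu' : 0 < Real.sqrt u := Real.sqrt_pos.2 hu
    apply le_of_eq
    field_simp
  -- integration against the Levy density
  have hCi := hC y hy
  have hP : ‖Poi (pd i f) x y‖ ≤
      ∫ u in Ioi (0 : ℝ), Real.sqrt 2 ^ D * B * (lev y u / Real.sqrt u) := by
    unfold Poi
    refine norm_integral_le_of_norm_le (hCi.1.const_mul _) ?_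
    refine (ae_restrict_iff' measurableSet_Ioi).2 (Eventually.of_forall fun u hu => ?_)
    rw [norm_smul, Real.norm_eq_abs, abs_of_nonneg (hlev y hy u hu)]
    calc lev y u * ‖ht u (pd i f) x‖
        ≤ lev y u * (Real.sqrt 2 ^ D * B * (1 / Real.sqrt u)) :=
          mul_le_mul_of_nonneg_left (hht u hu) (hlev y hy u hu)
      _ = _ := by ring
  refine hP.trans ?_
  rw [integral_const_mul]
  calc Real.sqrt 2 ^ D * B * ∫ u in Ioi (0 : ℝ), lev y u / Real.sqrt u
      ≤ Real.sqrt 2 ^ D * B * (C / y) := mul_le_mul_of_nonneg_left hCi.2 (by positivity)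
    _ = _ := by ring

end Pool.Agent.HBW
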