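import Pool.Agent.HBW.Stmts

set_option autoImplicit false

namespace Pool.Agent.HBW

open MeasureTheory Set Filter Topology
open scoped ENNReal Real

namespace PFT_

theorem gs_cast {D : ℕ} (u : ℝ) (w : P D) (ξ : P D) :
    ((gs (4 * u) w : ℝ) : ℂ) * Complex.exp (Complex.I * ((∑ i, w i * ξ i : ℝ) : ℂ)) =
    (((Real.sqrt (π * (4 * u)))⁻¹ ^ D : ℝ) : ℂ) *
      Complex.exp (-(1 / (4 * u) : ℂ) * ∑ i, (w i : ℂ) ^ 2 + ∑ i, (Complex.I * ξ i) * w i) := by
  unfold gs
  push_cast
  rw [Complex.exp_add, mul_assoc]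
  congr 2
  · congr 1
    ring
  · congr 1
    rw [Finset.mul_sum]
    refine Finset.sum_congr rfl fun i _ => ?_
    ring

theorem gs_int {D : ℕ} (u : ℝ) (hu : 0 < u) (ξ : P D) :
    Integrable (fun w : P D => ((gs (4 * u) w : ℝ) : ℂ) *
      Complex.exp (Complex.I * ((∑ i, w i * ξ i : ℝ) : ℂ))) := by
  have hb : 0 < (1 / (4 * u) : ℂ).re := by
    have : (1 / (4 * u) : ℂ) = ((1 / (4 * u) : ℝ) : ℂ) := by push_cast; rfl
    rw [this, Complex.ofReal_re]
    positivity
  have h := (GaussianFourier.integrable_cexp_neg_mul_sum_add (ι := Fin D) hb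
    (fun i => Complex.I * ξ i)).const_mul (((Real.sqrt (π * (4 * u)))⁻¹ ^ D : ℝ) : ℂ)
  refine h.congr (Eventually.of_forall fun w => ?_)
  exact (gs_cast u w ξ).symm

theorem gs_ft {D : ℕ} (u : ℝ) (hu : 0 < u) (ξ : P D) :
    ∫ w : P D, ((gs (4 * u) w : ℝ) : ℂ) *
      Complex.exp (Complex.I * ((∑ i, w i * ξ i : ℝ) : ℂ)) =
      ((Real.exp (-u * ∑ i, ξ i ^ 2) : ℝ) : ℂ) := by
  have hb : 0 < (1 / (4 * u) : ℂ).re := by
    have : (1 / (4 * u) : ℂ) = ((1 / (4 * u) : ℝ) : ℂ) := by push_cast; rfl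
    rw [this, Complex.ofReal_re]
    positivity
  simp_rw [gs_cast u _ ξ]
  rw [integral_const_mul, GaussianFourier.integral_cexp_neg_mul_sum_add hb, Fintype.card_fin]
  have h1 : ((π : ℂ) / (1 / (4 * u) : ℂ)) ^ ((D : ℂ) / 2) =
      ((Real.sqrt (π * (4 * u)) ^ D : ℝ) : ℂ) := by
    have e1 : ((π : ℂ) / (1 / (4 * u) : ℂ)) = ((π * (4 * u) : ℝ) : ℂ) := by
      push_cast
      rw [div_div_eq_mul_div, div_one]
    have e2 : ((D : ℂ) / 2) = (((D : ℝ) / 2 : ℝ) : ℂ) := by push_cast; rfl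
    rw [e1, e2, ← Complex.ofReal_cpow (by positivity)]
    congr 1
    rw [Real.sqrt_eq_rpow, ← Real.rpow_natCast, ← Real.rpow_mul (by positivity)]
    congr 1
    ring
  rw [h1, ← mul_assoc, ← Complex.ofReal_mul]
  have h2 : (Real.sqrt (π * (4 * u)))⁻¹ ^ D * Real.sqrt (π * (4 * u)) ^ D = 1 := by
    rw [← mul_pow, inv_mul_cancel₀, one_pow]
    have : 0 < Real.sqrt (π * (4 * u)) := Real.sqrt_pos.2 (by positivity)
    exact this.ne'
  rw [h2, Complex.ofReal_one, one_mul, Complex.ofReal_exp]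
  congr 1
  push_cast
  have hu' : (u : ℂ) ≠ 0 := by exact_mod_cast hu.ne'
  have h3 : ∑ i, (Complex.I * (ξ i : ℂ)) ^ 2 = -∑ i, (ξ i : ℂ) ^ 2 := by
    rw [← Finset.sum_neg_distrib]
    refine Finset.sum_congr rfl fun i _ => ?_
    rw [mul_pow, Complex.I_sq]
    ring
  rw [h3]
  field_simp

theorem gs_conv {D : ℕ} (u : ℝ) (hu : 0 < u) (x ξ : P D) :
    Integrable (fun z : P D => ((gs (4 * u) (x - z) : ℝ) : ℂ) *
      Complex.exp (Complex.I * ((∑ i, z i * ξ i : ℝ) : ℂ))) ∧
    ∫ z : P D, ((gs (4 * u) (x - z) : ℝ) : ℂ) *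
      Complex.exp (Complex.I * ((∑ i, z i * ξ i : ℝ) : ℂ)) =
      ((Real.exp (-u * ∑ i, ξ i ^ 2) : ℝ) : ℂ) *
        Complex.exp (Complex.I * ((∑ i, x i * ξ i : ℝ) : ℂ)) := by
  have key : ∀ w : P D, ((gs (4 * u) w : ℝ) : ℂ) *
      Complex.exp (Complex.I * ((∑ i, (x - w) i * ξ i : ℝ) : ℂ)) =
      (((gs (4 * u) w : ℝ) : ℂ) * Complex.exp (Complex.I * ((∑ i, w i * (-ξ) i : ℝ) : ℂ))) *
        Complex.exp (Complex.I * ((∑ i, x i * ξ i : ℝ) : ℂ)) := by
    intro w
    rw [mul_assoc, ← Complex.exp_add, ← mul_add, ← Complex.ofReal_add, ← Finset.sum_add_distrib]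
    congr 5
    funext i
    simp only [Pi.sub_apply, Pi.neg_apply]
    ring
  constructor
  · have h := (gs_int u hu (-ξ)).mul_const
      (Complex.exp (Complex.I * ((∑ i, x i * ξ i : ℝ) : ℂ)))
    have h' : Integrable (fun w : P D => ((gs (4 * u) w : ℝ) : ℂ) *
      Complex.exp (Complex.I * ((∑ i, (x - w) i * ξ i : ℝ) : ℂ))) := by
      refine h.congr (Eventually.of_forall fun w => ?_)
      exact (key w).symm
    have h2 := h'.comp_sub_left x
    refine h2.congr (Eventually.of_forall fun z => ?_)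
    simp only [sub_sub_cancel]
  · have h := integral_sub_left_eq_self (fun w : P D => ((gs (4 * u) w : ℝ) : ℂ) *
      Complex.exp (Complex.I * ((∑ i, (x - w) i * ξ i : ℝ) : ℂ))) volume x
    simp only [sub_sub_cancel] at h
    rw [h]
    simp_rw [key]
    rw [integral_mul_const, gs_ft u hu (-ξ)]
    congr 5
    simp

theorem gs_cos {D : ℕ} (u : ℝ) (hu : 0 < u) (x ξ : P D) :
    ∫ z : P D, gs (4 * u) (x - z) * Real.cos (∑ i, z i * ξ i) =
      Real.exp (-u * ∑ i, ξ i ^ 2) * Real.cos (∑ i, x i * ξ i) := by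
  obtain ⟨h1, h2⟩ := gs_conv u hu x ξ
  have h3 := congrArg Complex.re h2
  rw [← RCLike.re_eq_complex_re, ← integral_re h1] at h3
  rw [RCLike.re_eq_complex_re, Complex.re_ofReal_mul, mul_comm Complex.I,
    Complex.exp_ofReal_mul_I_re] at h3
  rw [← h3]
  refine integral_congr_ae (Eventually.of_forall fun z => ?_)
  simp only
  rw [Complex.re_ofReal_mul, mul_comm Complex.I, Complex.exp_ofReal_mul_I_re]

theorem gs_sin {D : ℕ} (u : ℝ) (hu : 0 < u) (x ξ : P D) :
    ∫ z : P D, gs (4 * u) (x - z) * Real.sin (∑ i, z i * ξ i) =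
      Real.exp (-u * ∑ i, ξ i ^ 2) * Real.sin (∑ i, x i * ξ i) := by
  obtain ⟨h1, h2⟩ := gs_conv u hu x ξ
  have h3 := congrArg Complex.im h2
  rw [← RCLike.im_eq_complex_im, ← integral_im h1] at h3
  rw [RCLike.im_eq_complex_im, Complex.im_ofReal_mul, mul_comm Complex.I,
    Complex.exp_ofReal_mul_I_im] at h3
  rw [← h3]
  refine integral_congr_ae (Eventually.of_forall fun z => ?_)
  simp only
  rw [Complex.im_ofReal_mul, mul_comm Complex.I, Complex.exp_ofReal_mul_I_im]

theorem gs_integrable {D : ℕ} (u : ℝ) (hu : 0 < u) (x : P D) :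
    Integrable (fun z : P D => gs (4 * u) (x - z)) := by
  have h := (gs_conv u hu x 0).1
  have h2 := h.re
  refine h2.congr (Eventually.of_forall fun z => ?_)
  simp

theorem gen {D : ℕ} (hSUB : Stmt_SUB) (t : ℝ → ℝ) (htc : Continuous t) (htb : ∀ s, |t s| ≤ 1)
    (htg : ∀ u > 0, ∀ x ξ : P D, ∫ z : P D, gs (4 * u) (x - z) * t (∑ i, z i * ξ i) =
      Real.exp (-u * ∑ i, ξ i ^ 2) * t (∑ i, x i * ξ i))
    (m : P D → ℝ) (hm : Integrable m) (x : P D) (y : ℝ) (hy : 0 < y) :
    Poi (fun z : P D => ∫ ξ : P D, m ξ * t (∑ i, z i * ξ i)) x y =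
      ∫ ξ : P D, m ξ * Real.exp (-y * Real.sqrt (∑ i, ξ i ^ 2)) * t (∑ i, x i * ξ i) := by
  have hdot : Continuous (fun p : P D × P D => ∑ i, p.1 i * p.2 i) := by fun_prop
  -- first step: the heat extension
  have hht : ∀ u > 0, ht u (fun z : P D => ∫ ξ : P D, m ξ * t (∑ i, z i * ξ i)) x =
      ∫ ξ : P D, m ξ * (Real.exp (-u * ∑ i, ξ i ^ 2) * t (∑ i, x i * ξ i)) := by
    intro u hu
    unfold ht
    have hI : Integrable (Function.uncurry fun (z ξ : P D) =>
        gs (4 * u) (x - z) * (m ξ * t (∑ i, z i * ξ i))) (volume.prod volume) := by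
      have h0 := (gs_integrable u hu x).mul_prod hm
      refine h0.mono ?_ (Eventually.of_forall fun p => ?_)
      · have h1 : AEStronglyMeasurable (fun p : P D × P D => t (∑ i, p.1 i * p.2 i))
            ((volume : Measure (P D)).prod volume) :=
          (htc.comp hdot).aestronglyMeasurable
        have h2 := h0.aestronglyMeasurable.mul h1
        refine h2.congr (Eventually.of_forall fun p => ?_)
        simp only [Function.uncurry, Pi.mul_apply]
        ring
      · simp only [Function.uncurry]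
        rw [← mul_assoc, norm_mul]
        calc _ ≤ ‖gs (4 * u) (x - p.1) * m p.2‖ * 1 := by
              gcongr
              exact htb _
          _ = _ := mul_one _
    calc ∫ z : P D, gs (4 * u) (x - z) • ∫ ξ : P D, m ξ * t (∑ i, z i * ξ i)
        = ∫ z : P D, ∫ ξ : P D, gs (4 * u) (x - z) * (m ξ * t (∑ i, z i * ξ i)) := by
          refine integral_congr_ae (Eventually.of_forall fun z => ?_)
          simp only [smul_eq_mul]
          rw [integral_const_mul]
      _ = ∫ ξ : P D, ∫ z : P D, gs (4 * u) (x - z) * (m ξ * t (∑ i, z i * ξ i)) :=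
          integral_integral_swap hI
      _ = _ := by
          refine integral_congr_ae (Eventually.of_forall fun ξ => ?_)
          simp only
          rw [← htg u hu x ξ, ← integral_const_mul]
          refine integral_congr_ae (Eventually.of_forall fun z => ?_)
          simp only
          ring
  -- second step
  unfold Poi
  have hlev := (hSUB.2.2.2.1 y hy).1
  have hI2 : Integrable (Function.uncurry fun (u : ℝ) (ξ : P D) =>
      lev y u * (m ξ * (Real.exp (-u * ∑ i, ξ i ^ 2) * t (∑ i, x i * ξ i))))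
      ((volume.restrict (Ioi (0 : ℝ))).prod volume) := by
    have h0 := hlev.mul_prod hm
    have hc1 : Continuous (fun p : ℝ × P D => Real.exp (-p.1 * ∑ i, p.2 i ^ 2) *
        t (∑ i, x i * p.2 i)) := by
      refine Continuous.mul (by fun_prop) (htc.comp (by fun_prop))
    have hmeas : AEStronglyMeasurable (Function.uncurry fun (u : ℝ) (ξ : P D) =>
      lev y u * (m ξ * (Real.exp (-u * ∑ i, ξ i ^ 2) * t (∑ i, x i * ξ i))))
      ((volume.restrict (Ioi (0 : ℝ))).prod volume) := by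
      have h2 := h0.aestronglyMeasurable.mul hc1.aestronglyMeasurable
      refine h2.congr (Eventually.of_forall fun p => ?_)
      simp only [Function.uncurry, Pi.mul_apply]
      ring
    have hpos : ∀ᵐ p : ℝ × P D ∂((volume.restrict (Ioi (0 : ℝ))).prod volume), 0 < p.1 := by
      have h1 : ∀ᵐ u : ℝ ∂(volume.restrict (Ioi (0 : ℝ))), 0 < u :=
        ae_restrict_mem measurableSet_Ioi
      exact Measure.quasiMeasurePreserving_fst.ae h1
    refine h0.mono hmeas ?_
    filter_upwards [hpos] with p hp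
    simp only [Function.uncurry]
    rw [← mul_assoc, norm_mul]
    have h3 : ‖Real.exp (-p.1 * ∑ i, p.2 i ^ 2) * t (∑ i, x i * p.2 i)‖ ≤ 1 := by
      rw [norm_mul]
      have h4 : ‖Real.exp (-p.1 * ∑ i, p.2 i ^ 2)‖ ≤ 1 := by
        rw [Real.norm_eq_abs, Real.abs_exp, Real.exp_le_one_iff]
        have : 0 ≤ ∑ i, p.2 i ^ 2 := Finset.sum_nonneg fun i _ => sq_nonneg _
        nlinarith
      exact mul_le_one₀ h4 (norm_nonneg _) (htb _)
    calc _ ≤ ‖lev y p.1 * m p.2‖ * 1 := by gcongr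
      _ = _ := mul_one _
  calc ∫ u in Ioi (0 : ℝ), lev y u • ht u (fun z : P D => ∫ ξ : P D, m ξ * t (∑ i, z i * ξ i)) x
      = ∫ u in Ioi (0 : ℝ), ∫ ξ : P D,
          lev y u * (m ξ * (Real.exp (-u * ∑ i, ξ i ^ 2) * t (∑ i, x i * ξ i))) := by
        refine setIntegral_congr_fun measurableSet_Ioi fun u hu => ?_
        simp only [smul_eq_mul]
        rw [hht u hu, integral_const_mul]
    _ = ∫ ξ : P D, ∫ u in Ioi (0 : ℝ),
          lev y u * (m ξ * (Real.exp (-u * ∑ i, ξ i ^ 2) * t (∑ i, x i * ξ i))) :=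
        integral_integral_swap hI2
    _ = _ := by
        refine integral_congr_ae (Eventually.of_forall fun ξ => ?_)
        simp only
        have hs : Real.sqrt (∑ i, ξ i ^ 2) ^ 2 = ∑ i, ξ i ^ 2 :=
          Real.sq_sqrt (Finset.sum_nonneg fun i _ => sq_nonneg _)
        have h5 := (hSUB.1 y hy (Real.sqrt (∑ i, ξ i ^ 2)) (Real.sqrt_nonneg _)).2
        rw [hs] at h5
        rw [← h5, ← integral_const_mul, ← integral_mul_const]
        refine integral_congr_ae (Eventually.of_forall fun u => ?_)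
        simp only
        ring

end PFT_

theorem pft_proof (hSUB : Stmt_SUB) (_hPB1 : Stmt_PB1) (_hGFT : Stmt_GFT) (_hGSR : Stmt_GSR) :
    Stmt_PFT := by
  intro D m hm x y hy
  exact ⟨PFT_.gen hSUB Real.cos Real.continuous_cos Real.abs_cos_le_one
      (fun u hu x ξ => PFT_.gs_cos u hu x ξ) m hm x y hy,
    PFT_.gen hSUB Real.sin Real.continuous_sin Real.abs_sin_le_one
      (fun u hu x ξ => PFT_.gs_sin u hu x ξ) m hm x y hy⟩

end Pool.Agent.HBW
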