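import Pool.Agent.HBW.Stmts

/-!
# PGR: growth of polynomials
-/

set_option autoImplicit false

namespace Pool.Agent.HBW

open MeasureTheory Set Filter Topology
open scoped ENNReal Real

namespace PGR_

variable {D : ℕ} {X : Type} [NormedAddCommGroup X] [NormedSpace ℝ X]

theorem smo_iter (hSMO : Stmt_SMO) (A : Fin D → (X →L[ℝ] X)) (f : P D → X) (hf : Smo f) (q : ℕ) :
    Smo ((DD A)^[q] f) := by
  induction q with
  | zero => exact hf
  | succ q ih =>
    rw [Function.iterate_succ_apply']
    exact (hSMO D X A _ _ ih ih).2.2.2.2.2.2.2.2.1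

theorem pdw_iter (hSMO : Stmt_SMO) (A : Fin D → (X →L[ℝ] X)) (f : P D → X) (hf : Smo f) (q : ℕ)
    (v : List (Fin D)) : pdw v ((DD A)^[q] f) = (DD A)^[q] (pdw v f) := by
  induction q with
  | zero => rfl
  | succ q ih =>
    rw [Function.iterate_succ_apply', Function.iterate_succ_apply']
    have h := smo_iter hSMO A f hf q
    rw [(hSMO D X A _ _ h h).2.2.2.2.2.2.2.2.2.2.1 v, ih]

theorem pdw_zero (v : List (Fin D)) : pdw v (fun _ : P D => (0 : X)) = fun _ => 0 := by
  induction v with
  | nil => rfl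
  | cons i v ih =>
    show pd i (pdw v fun _ => 0) = _
    rw [ih]
    funext x
    unfold pd
    simp

theorem pdw_sum (hSMO : Stmt_SMO) (A : Fin D → (X →L[ℝ] X)) (s : Finset ℕ) (c : ℕ → ℝ)
    (f : ℕ → P D → X) (hf : ∀ q, Smo (f q)) (v : List (Fin D)) :
    Smo (fun x => ∑ q ∈ s, c q • f q x) ∧
    pdw v (fun x => ∑ q ∈ s, c q • f q x) = fun x => ∑ q ∈ s, c q • pdw v (f q) x := by
  classical
  induction s using Finset.induction_on with
  | empty =>
    refine ⟨by simpa using contDiff_const, ?_⟩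
    simp only [Finset.sum_empty]
    exact pdw_zero v
  | insert q s hq ih =>
    obtain ⟨h1, h2⟩ := ih
    have h3 : Smo (fun x => c q • f q x) := (hf q).const_smul (c q)
    simp only [Finset.sum_insert hq]
    refine ⟨h3.add h1, ?_⟩
    rw [(hSMO D X A _ _ h3 h1).2.2.2.2.2.1 v, h2, (hSMO D X A _ _ (hf q) (hf q)).2.2.2.2.2.2.1 v]

theorem mon_le (v : List (Fin D)) (x : P D) : |mon v x| ≤ ‖x‖ ^ v.length := by
  unfold mon
  induction v with
  | nil => simp
  | cons i v ih =>
    rw [List.map_cons, List.prod_cons, abs_mul, List.length_cons, pow_succ']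
    refine mul_le_mul ?_ ih (abs_nonneg _) (norm_nonneg _)
    rw [← Real.norm_eq_abs]
    exact norm_le_pi_norm x i

theorem geo (M : ℕ) (s : ℝ) (hs : 0 ≤ s) : ∑ m ∈ Finset.range M, s ^ m ≤ (1 + s) ^ M := by
  have h1 := add_pow s 1 M
  rw [add_comm 1 s, h1]
  calc ∑ m ∈ Finset.range M, s ^ m ≤ ∑ m ∈ Finset.range (M + 1), s ^ m :=
        Finset.sum_le_sum_of_subset_of_nonneg (Finset.range_mono (Nat.le_succ M))
          (fun _ _ _ => pow_nonneg hs _)
    _ ≤ _ := by
        refine Finset.sum_le_sum fun m hm => ?_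
        rw [one_pow, mul_one]
        have h2 : (1 : ℝ) ≤ (M.choose m : ℝ) := by
          have : 0 < M.choose m := Nat.choose_pos (by
            have := Finset.mem_range.1 hm
            omega)
          exact_mod_cast this
        exact le_mul_of_one_le_right (pow_nonneg hs m) h2

end PGR_

open PGR_

theorem pgr_proof (hLLB : Stmt_LLB) (hTEX : Stmt_TEX) (hPO1 : Stmt_PO1) (hSMO : Stmt_SMO) :
    Stmt_PGR := by
  obtain ⟨n1, h1⟩ := hLLB
  have hlim := tendsto_pow_const_div_const_pow_of_one_lt 12 (by norm_num : (1 : ℝ) < 2)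
  obtain ⟨n2, h2⟩ := eventually_atTop.1 (hlim.eventually (ge_mem_nhds one_pos))
  refine ⟨max n1 n2, fun n hn X _ _ A Q z x b hA hb hQ hj => ?_⟩
  have hdl : (dm n : ℝ) * dl n ≤ 1 := by
    have h3 := h2 n ((le_max_right _ _).trans hn)
    have e : (dm n : ℝ) * dl n = (n : ℝ) ^ 12 / 2 ^ n := by
      unfold dm dl
      push_cast
      ring
    rw [e]
    exact h3
  have hdl0 : 0 ≤ dl n := by
    unfold dl
    positivity
  have hLL : LL n A Q = fun x => ∑ q ∈ Finset.range (dm n), bq (om n) t0 q • ((DD A)^[q] Q) x := rfl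
  have hcomm : ∀ v, pdw v (LL n A Q) = LL n A (pdw v Q) := by
    intro v
    rw [hLL, (pdw_sum hSMO A _ _ _ (fun q => smo_iter hSMO A Q hQ.sm q) v).2]
    funext y
    unfold LL
    refine Finset.sum_congr rfl fun q _ => ?_
    rw [pdw_iter hSMO A Q hQ.sm q v]
  have part1 : ∀ v : List (Fin (dm n)), ‖pdw v (LL n A Q) z‖ ≤ 2 * b * dl n ^ v.length := by
    intro v
    rw [hcomm v]
    have h3 := h1 n ((le_max_left _ _).trans hn) X A (pdw v Q) z (b * dl n ^ v.length) hA
      ((hSMO _ X A Q Q hQ.sm hQ.sm).2.1 v) (by positivity) (by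
        intro w _
        rw [← (hSMO _ X A Q Q hQ.sm hQ.sm).2.2.2.2.1 w v]
        refine (hj (w ++ v)).trans (le_of_eq ?_)
        rw [List.length_append, pow_add]
        ring)
    refine h3.trans (le_of_eq ?_)
    ring
  refine ⟨part1, ?_⟩
  have hpol : IsPol (dm n) (LL n A Q) := (hPO1 _ X A (dm n) Q hQ).2.2.2.2.2.1 _ _
  rw [hTEX _ X (dm n) (LL n A Q) z x hpol]
  set s : ℝ := ‖x - z‖ with hs
  have hs0 : 0 ≤ s := norm_nonneg _
  calc ‖∑ m ∈ Finset.range (dm n), (1 / m.factorial : ℝ) • ∑ v : Fin m → Fin (dm n),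
        mon (List.ofFn v) (x - z) • pdw (List.ofFn v) (LL n A Q) z‖
      ≤ ∑ m ∈ Finset.range (dm n), ‖(1 / m.factorial : ℝ) • ∑ v : Fin m → Fin (dm n),
        mon (List.ofFn v) (x - z) • pdw (List.ofFn v) (LL n A Q) z‖ := norm_sum_le _ _
    _ ≤ ∑ m ∈ Finset.range (dm n), 2 * b * s ^ m := by
        refine Finset.sum_le_sum fun m _ => ?_
        rw [norm_smul]
        have hf : ‖(1 / m.factorial : ℝ)‖ ≤ 1 := by
          rw [Real.norm_eq_abs, abs_of_nonneg (by positivity), div_le_one (by positivity)]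
          exact_mod_cast Nat.one_le_iff_ne_zero.2 (Nat.factorial_ne_zero m)
        have hv : ‖∑ v : Fin m → Fin (dm n),
            mon (List.ofFn v) (x - z) • pdw (List.ofFn v) (LL n A Q) z‖ ≤ 2 * b * s ^ m := by
          calc ‖∑ v : Fin m → Fin (dm n),
                mon (List.ofFn v) (x - z) • pdw (List.ofFn v) (LL n A Q) z‖
              ≤ ∑ v : Fin m → Fin (dm n),
                ‖mon (List.ofFn v) (x - z) • pdw (List.ofFn v) (LL n A Q) z‖ := norm_sum_le _ _
            _ ≤ ∑ _v : Fin m → Fin (dm n), s ^ m * (2 * b * dl n ^ m) := by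
                refine Finset.sum_le_sum fun v _ => ?_
                rw [norm_smul, Real.norm_eq_abs]
                have e1 := mon_le (List.ofFn v) (x - z)
                have e2 := part1 (List.ofFn v)
                rw [List.length_ofFn] at e1 e2
                exact mul_le_mul e1 e2 (norm_nonneg _) (by positivity)
            _ = ((dm n : ℝ) * dl n) ^ m * (2 * b * s ^ m) := by
                rw [Finset.sum_const, Finset.card_univ, Fintype.card_fun, Fintype.card_fin,
                  Fintype.card_fin, nsmul_eq_mul, mul_pow]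
                push_cast
                ring
            _ ≤ 1 * (2 * b * s ^ m) := by
                refine mul_le_mul_of_nonneg_right ?_ (by positivity)
                exact pow_le_one₀ (mul_nonneg (Nat.cast_nonneg _) hdl0) hdl
            _ = _ := one_mul _
        calc ‖(1 / m.factorial : ℝ)‖ * ‖∑ v : Fin m → Fin (dm n),
              mon (List.ofFn v) (x - z) • pdw (List.ofFn v) (LL n A Q) z‖
            ≤ 1 * (2 * b * s ^ m) := mul_le_mul hf hv (norm_nonneg _) zero_le_one
          _ = _ := one_mul _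
    _ = 2 * b * ∑ m ∈ Finset.range (dm n), s ^ m := by rw [Finset.mul_sum]
    _ ≤ 2 * b * (1 + s) ^ dm n := mul_le_mul_of_nonneg_left (geo _ _ hs0) (by positivity)

end Pool.Agent.HBW
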