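import Pool.Agent.HBW.Stmts

set_option autoImplicit false

namespace Pool.Agent.HBW

open MeasureTheory Set Filter Topology
open scoped ENNReal Real

namespace PHB_

theorem pre (ζ : ℂ) (m : ℝ) (hm : 0 < m) (hζ : m ≤ ‖ζ‖) :
    ‖((π : ℂ) * ζ) ^ (-(1 / 2) : ℂ)‖ ≤ (Real.sqrt (π * m))⁻¹ := by
  have hπ : (0 : ℝ) < π := Real.pi_pos
  have h0 : 0 < ‖ζ‖ := lt_of_lt_of_le hm hζ
  have hne : (π : ℂ) * ζ ≠ 0 := by
    apply mul_ne_zero
    · exact_mod_cast hπ.ne'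
    · exact norm_pos_iff.1 h0
  rw [Complex.norm_cpow_of_ne_zero hne]
  have h1 : (-(1 / 2) : ℂ).re = -(1 / 2) := by norm_num
  have h2 : (-(1 / 2) : ℂ).im = 0 := by norm_num
  rw [h1, h2, mul_zero, Real.exp_zero, div_one, Real.rpow_neg (norm_nonneg _),
    ← Real.sqrt_eq_rpow, norm_mul, Complex.norm_real, Real.norm_of_nonneg hπ.le]
  apply inv_anti₀ (Real.sqrt_pos.2 (mul_pos hπ hm))
  exact Real.sqrt_le_sqrt (mul_le_mul_of_nonneg_left hζ hπ.le)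

theorem ex (ζ s : ℂ) (κ m h x : ℝ) (hm : 0 < m) (hζ : m ≤ ‖ζ‖) (hκ : κ ≤ (ζ⁻¹).re)
    (hs : ‖s‖ = h) :
    ‖Complex.exp (-((x : ℂ) + s) ^ 2 / ζ)‖ ≤
      Real.exp (-κ * x ^ 2 + (2 * |x| * h + h ^ 2) / m) := by
  rw [Complex.norm_exp]
  apply Real.exp_le_exp.2
  have h0 : 0 < ‖ζ‖ := lt_of_lt_of_le hm hζ
  have e1 : -((x : ℂ) + s) ^ 2 / ζ = ((-(x ^ 2) : ℝ) : ℂ) * ζ⁻¹ + -((2 * x * s + s ^ 2) / ζ) := by
    push_cast
    rw [div_eq_mul_inv, div_eq_mul_inv]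
    ring
  rw [e1, Complex.add_re, Complex.re_ofReal_mul]
  have h1 : -(x ^ 2) * (ζ⁻¹).re ≤ -κ * x ^ 2 := by nlinarith [sq_nonneg x]
  have h2 : (-((2 * x * s + s ^ 2) / ζ)).re ≤ (2 * |x| * h + h ^ 2) / m := by
    refine (Complex.re_le_norm _).trans ?_
    rw [norm_neg, norm_div]
    have h3 : ‖2 * (x : ℂ) * s + s ^ 2‖ ≤ 2 * |x| * h + h ^ 2 := by
      refine (norm_add_le _ _).trans ?_
      rw [norm_mul, norm_mul, norm_pow, hs, Complex.norm_real, Real.norm_eq_abs]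
      simp
    have h4 : 0 ≤ 2 * |x| * h + h ^ 2 := (norm_nonneg _).trans h3
    exact div_le_div₀ h4 h3 hm hζ
  linarith

end PHB_

theorem phb_proof : Stmt_PHB := by
  intro ζ κ m h x a hm hζ _ hκ hh
  have hd : Differentiable ℂ (phc ζ) := by
    unfold phc
    fun_prop
  have hC : ∀ z ∈ Metric.sphere (x : ℂ) h, ‖phc ζ z‖ ≤ (Real.sqrt (π * m))⁻¹ *
      Real.exp (-κ * x ^ 2 + (2 * |x| * h + h ^ 2) / m) := by
    intro z hz
    have hs : ‖z - x‖ = h := by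
      rw [← dist_eq_norm]
      exact hz
    unfold phc
    rw [norm_mul]
    have h1 := PHB_.ex ζ (z - x) κ m h x hm hζ hκ hs
    have e : (x : ℂ) + (z - x) = z := by ring
    rw [e] at h1
    exact mul_le_mul (PHB_.pre ζ m hm hζ) h1 (norm_nonneg _) (by positivity)
  have := Complex.norm_iteratedDeriv_le_of_forall_mem_sphere_norm_le a hh hd.diffContOnCl hC
  refine this.trans (le_of_eq ?_)
  rw [inv_pow]
  ring

end Pool.Agent.HBW
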