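import Pool.Agent.HBW.SMO

set_option autoImplicit false

namespace Pool.Agent.HBW

open MeasureTheory Set Filter Topology
open scoped ENNReal Real

namespace PO1_

open SMO_

variable {D : ℕ} {X : Type} [NormedAddCommGroup X] [NormedSpace ℝ X]

theorem smo_sum {ι : Type} (s : Finset ι) (c : ι → ℝ) {F : ι → P D → X} (hF : ∀ a, Smo (F a)) :
    Smo (fun x => ∑ a ∈ s, c a • F a x) :=
  ContDiff.sum (fun a _ => contDiff_const.smul (hF a))

theorem pdw_lin {ι : Type} (s : Finset ι) (c : ι → ℝ) {F : ι → P D → X} (hF : ∀ a, Smo (F a))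
    (w : List (Fin D)) :
    pdw w (fun x => ∑ a ∈ s, c a • F a x) = fun x => ∑ a ∈ s, c a • pdw w (F a) x := by
  have h1 := pdw_sum s (F := fun a x => c a • F a x) (fun a => contDiff_const.smul (hF a)) w
  rw [h1]
  funext x
  refine Finset.sum_congr rfl (fun a _ => ?_)
  have h2 := pdw_smul (hF a) w (c a)
  exact congrFun h2 x

theorem pd_lin {ι : Type} (s : Finset ι) (c : ι → ℝ) {F : ι → P D → X} (hF : ∀ a, Smo (F a))
    (i : Fin D) :
    pd i (fun x => ∑ a ∈ s, c a • F a x) = fun x => ∑ a ∈ s, c a • pd i (F a) x :=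
  pdw_lin s c hF [i]

theorem DD_lin (A : Fin D → (X →L[ℝ] X)) {ι : Type} (s : Finset ι) (c : ι → ℝ)
    {F : ι → P D → X} (hF : ∀ a, Smo (F a)) :
    DD A (fun x => ∑ a ∈ s, c a • F a x) = fun x => ∑ a ∈ s, c a • DD A (F a) x := by
  funext x
  unfold DD
  have h1 : ∀ i, A i (pd i (fun x => ∑ a ∈ s, c a • F a x) x) =
      ∑ a ∈ s, c a • A i (pd i (F a) x) := by
    intro i
    rw [pd_lin s c hF i]
    rw [map_sum]
    exact Finset.sum_congr rfl (fun a _ => map_smul _ _ _)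
  rw [Finset.sum_congr rfl (fun i _ => h1 i), Finset.sum_comm]
  exact Finset.sum_congr rfl (fun a _ => (Finset.smul_sum).symm)

theorem Lap_lin {ι : Type} (s : Finset ι) (c : ι → ℝ)
    {F : ι → P D → X} (hF : ∀ a, Smo (F a)) :
    Lap (fun x => ∑ a ∈ s, c a • F a x) = fun x => ∑ a ∈ s, c a • Lap (F a) x := by
  funext x
  unfold Lap
  have h1 : ∀ i, pd i (pd i (fun x => ∑ a ∈ s, c a • F a x)) x =
      ∑ a ∈ s, c a • pd i (pd i (F a)) x := by
    intro i
    rw [pd_lin s c hF i, pd_lin s c (fun a => smo_pd (hF a) i) i]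
  rw [Finset.sum_congr rfl (fun i _ => h1 i), Finset.sum_comm]
  exact Finset.sum_congr rfl (fun a _ => (Finset.smul_sum).symm)

theorem smo_Lap_it {f : P D → X} (hf : Smo f) (r : ℕ) : Smo (Lap^[r] f) := by
  induction r with
  | zero => exact hf
  | succ r ih =>
    rw [Function.iterate_succ_apply']
    exact smo_Lap ih

theorem smo_DD_it (A : Fin D → (X →L[ℝ] X)) {f : P D → X} (hf : Smo f) (r : ℕ) :
    Smo ((DD A)^[r] f) := by
  induction r with
  | zero => exact hf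
  | succ r ih =>
    rw [Function.iterate_succ_apply']
    exact smo_DD ih A

theorem Lap_it_lin (r : ℕ) {ι : Type} (s : Finset ι) (c : ι → ℝ)
    {F : ι → P D → X} (hF : ∀ a, Smo (F a)) :
    Lap^[r] (fun x => ∑ a ∈ s, c a • F a x) = fun x => ∑ a ∈ s, c a • (Lap^[r] (F a)) x := by
  induction r with
  | zero => rfl
  | succ r ih =>
    rw [Function.iterate_succ_apply', ih, Lap_lin s c (fun a => smo_Lap_it (hF a) r)]
    funext x
    refine Finset.sum_congr rfl (fun a _ => ?_)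
    rw [Function.iterate_succ_apply']

theorem DD_it_lin (A : Fin D → (X →L[ℝ] X)) (r : ℕ) {ι : Type} (s : Finset ι) (c : ι → ℝ)
    {F : ι → P D → X} (hF : ∀ a, Smo (F a)) :
    (DD A)^[r] (fun x => ∑ a ∈ s, c a • F a x) =
      fun x => ∑ a ∈ s, c a • ((DD A)^[r] (F a)) x := by
  induction r with
  | zero => rfl
  | succ r ih =>
    rw [Function.iterate_succ_apply', ih, DD_lin A s c (fun a => smo_DD_it A (hF a) r)]
    funext x
    refine Finset.sum_congr rfl (fun a _ => ?_)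
    rw [Function.iterate_succ_apply']

theorem pol_mono {M N : ℕ} (h : M ≤ N) {Q : P D → X} (hQ : IsPol M Q) : IsPol N Q :=
  ⟨hQ.sm, fun w hw x => hQ.top w (h.trans hw) x⟩

theorem pol_pdw {M : ℕ} {Q : P D → X} (hQ : IsPol M Q) (w : List (Fin D)) :
    IsPol (M - w.length) (pdw w Q) := by
  refine ⟨smo_pdw hQ.sm w, fun w' hw' x => ?_⟩
  rw [← pdw_append]
  refine hQ.top _ ?_ x
  rw [List.length_append]
  omega

theorem pol_pd {M : ℕ} {Q : P D → X} (hQ : IsPol M Q) (i : Fin D) : IsPol M (pd i Q) :=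
  pol_mono (Nat.sub_le _ _) (pol_pdw hQ [i])

theorem pol_lin {M : ℕ} {ι : Type} (s : Finset ι) (c : ι → ℝ)
    {F : ι → P D → X} (hF : ∀ a, IsPol M (F a)) : IsPol M (fun x => ∑ a ∈ s, c a • F a x) := by
  refine ⟨smo_sum s c (fun a => (hF a).sm), fun w hw x => ?_⟩
  rw [pdw_lin s c (fun a => (hF a).sm) w]
  refine Finset.sum_eq_zero (fun a _ => ?_)
  rw [(hF a).top w hw x, smul_zero]

theorem pol_clm {M : ℕ} {Q : P D → X} (hQ : IsPol M Q) (B : X →L[ℝ] X) :
    IsPol M (fun x => B (Q x)) := by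
  refine ⟨smo_clm hQ.sm B, fun w hw x => ?_⟩
  rw [pdw_clm hQ.sm w B]
  show B (pdw w Q x) = 0
  rw [hQ.top w hw x, map_zero]

theorem pol_DD {M : ℕ} (A : Fin D → (X →L[ℝ] X)) {Q : P D → X} (hQ : IsPol M Q) :
    IsPol M (DD A Q) := by
  have h1 := pol_lin (M := M) Finset.univ (fun _ => (1 : ℝ))
    (F := fun i x => A i (pd i Q x)) (fun i => pol_clm (pol_pd hQ i) (A i))
  have h2 : DD A Q = fun x => ∑ i, (1 : ℝ) • A i (pd i Q x) := by
    funext x
    simp [DD]
  rw [h2]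
  exact h1

theorem pol_Lap {M : ℕ} {Q : P D → X} (hQ : IsPol M Q) : IsPol M (Lap Q) := by
  have h1 := pol_lin (M := M) Finset.univ (fun _ => (1 : ℝ))
    (F := fun i x => pd i (pd i Q) x) (fun i => pol_pd (pol_pd hQ i) i)
  have h2 : Lap Q = fun x => ∑ i, (1 : ℝ) • pd i (pd i Q) x := by
    funext x
    simp [Lap]
  rw [h2]
  exact h1

theorem pol_Lap_it {M : ℕ} {Q : P D → X} (hQ : IsPol M Q) (r : ℕ) : IsPol M (Lap^[r] Q) := by
  induction r with
  | zero => exact hQ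
  | succ r ih =>
    rw [Function.iterate_succ_apply']
    exact pol_Lap ih

theorem pol_DD_it {M : ℕ} (A : Fin D → (X →L[ℝ] X)) {Q : P D → X} (hQ : IsPol M Q) (r : ℕ) :
    IsPol M ((DD A)^[r] Q) := by
  induction r with
  | zero => exact hQ
  | succ r ih =>
    rw [Function.iterate_succ_apply']
    exact pol_DD A ih

theorem pol_Tp {M : ℕ} {Q : P D → X} (hQ : IsPol M Q) (τ : ℝ) : IsPol M (Tp M τ Q) :=
  pol_lin (Finset.range M) (fun l => ((τ / 4) ^ l / l.factorial : ℝ))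
    (F := fun l => Lap^[l] Q) (fun l => pol_Lap_it hQ l)

theorem pol_Ch {M : ℕ} {Q : P D → X} (hQ : IsPol M Q) (ω τ : ℝ) : IsPol M (Ch M ω τ Q) :=
  pol_lin (Finset.range M) (fun r => ((-1) ^ r * ω ^ (2 * r) / (2 * r).factorial : ℝ))
    (F := fun r => Lap^[r] (Tp M τ Q)) (fun r => pol_Lap_it (pol_Tp hQ τ) r)

theorem pol_Sh {M : ℕ} {Q : P D → X} (hQ : IsPol M Q) (ω τ : ℝ) : IsPol M (Sh M ω τ Q) :=
  pol_lin (Finset.range M) (fun r => ((-1) ^ r * ω ^ (2 * r + 1) / (2 * r + 1).factorial : ℝ))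
    (F := fun r => Lap^[r] (Tp M τ Q)) (fun r => pol_Lap_it (pol_Tp hQ τ) r)

end PO1_

open PO1_

/-- closure properties -/
theorem po1_proof (_hSMO : Stmt_SMO) : Stmt_PO1 := by
  intro D X _ _ A M Q hQ
  exact ⟨fun w => pol_pdw hQ w, pol_DD A hQ, pol_Lap hQ, fun τ => pol_Tp hQ τ,
    fun ω τ => ⟨pol_Ch hQ ω τ, pol_Sh hQ ω τ⟩,
    fun b K => pol_lin (Finset.range K) b (F := fun q => (DD A)^[q] Q)
      (fun q => pol_DD_it A hQ q), fun B => pol_clm hQ B⟩

end Pool.Agent.HBW
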