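import Pool.Agent.HBW.Stmts

/-!
Squad HBW, module PO3: integrals of polynomials against derivatives of real Gaussians.
-/

set_option autoImplicit false

namespace Pool.Agent.HBW

open MeasureTheory Set Filter Topology
open scoped ENNReal Real

namespace PO3_

/-! ### calculus -/

section calc_

variable {D : ℕ} {X : Type} [NormedAddCommGroup X] [NormedSpace ℝ X]

theorem dif {f : P D → X} (hf : Smo f) : Differentiable ℝ f := hf.differentiable (by simp)

theorem smo_pd (hS : Stmt_SMO) {f : P D → X} (hf : Smo f) (i : Fin D) : Smo (pd i f) :=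
  (hS D X (fun _ => 0) f f hf hf).1 i

theorem smo_pdw (hS : Stmt_SMO) {f : P D → X} (hf : Smo f) (w : List (Fin D)) : Smo (pdw w f) :=
  (hS D X (fun _ => 0) f f hf hf).2.1 w

theorem pd_comm (hS : Stmt_SMO) {f : P D → X} (hf : Smo f) (i j : Fin D) :
    pd i (pd j f) = pd j (pd i f) :=
  (hS D X (fun _ => 0) f f hf hf).2.2.1 i j

theorem pdw_perm (hS : Stmt_SMO) {f : P D → X} (hf : Smo f) {w w' : List (Fin D)}
    (h : w.Perm w') : pdw w f = pdw w' f :=
  (hS D X (fun _ => 0) f f hf hf).2.2.2.1 w w' h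

theorem pdw_app (hS : Stmt_SMO) {f : P D → X} (hf : Smo f) (w w' : List (Fin D)) :
    pdw (w ++ w') f = pdw w (pdw w' f) :=
  (hS D X (fun _ => 0) f f hf hf).2.2.2.2.1 w w'

theorem smo_lap (hS : Stmt_SMO) {f : P D → X} (hf : Smo f) : Smo (Lap f) := by
  obtain ⟨-, -, -, -, -, -, -, -, -, h, -⟩ := hS D X (fun _ => 0) f f hf hf
  exact h

theorem smo_lapit (hS : Stmt_SMO) {f : P D → X} (hf : Smo f) (l : ℕ) : Smo (Lap^[l] f) := by
  induction l with
  | zero => exact hf
  | succ l ih =>
    rw [Function.iterate_succ_apply']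
    exact smo_lap hS ih

theorem pd_sum {ι : Type} (s : Finset ι) (i : Fin D) (f : ι → P D → X)
    (hf : ∀ k ∈ s, Differentiable ℝ (f k)) :
    pd i (fun x => ∑ k ∈ s, f k x) = fun x => ∑ k ∈ s, pd i (f k) x := by
  funext x
  unfold pd
  rw [fderiv_fun_sum fun k hk => hf k hk x]
  simp

theorem pd_smulc (i : Fin D) {f : P D → ℝ} (hf : Differentiable ℝ f) (c : X) :
    pd i (fun x => f x • c) = fun x => pd i f x • c := by
  funext x
  unfold pd
  rw [fderiv_smul_const (hf x)]
  simp

theorem pd_csmul (i : Fin D) {f : P D → X} (hf : Differentiable ℝ f) (r : ℝ) :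
    pd i (fun x => r • f x) = fun x => r • pd i f x := by
  funext x
  unfold pd
  rw [fderiv_fun_const_smul (hf x)]
  simp

theorem pd_cmul (i : Fin D) {f : P D → ℝ} (hf : Differentiable ℝ f) (r : ℝ) :
    pd i (fun x => r * f x) = fun x => r * pd i f x := pd_csmul i hf r

theorem pd_add (i : Fin D) {f g : P D → X} (hf : Differentiable ℝ f) (hg : Differentiable ℝ g) :
    pd i (fun x => f x + g x) = fun x => pd i f x + pd i g x := by
  funext x
  unfold pd
  rw [fderiv_fun_add (hf x) (hg x)]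
  simp

theorem lap_sum_smul (hS : Stmt_SMO) {ι : Type} (s : Finset ι) (f : ι → P D → ℝ)
    (hf : ∀ k ∈ s, Smo (f k)) (c : ι → X) :
    Lap (fun x => ∑ k ∈ s, f k x • c k) = fun x => ∑ k ∈ s, Lap (f k) x • c k := by
  funext x
  unfold Lap
  have h1 : ∀ i, pd i (fun x => ∑ k ∈ s, f k x • c k) = fun x => ∑ k ∈ s, pd i (f k) x • c k := by
    intro i
    rw [pd_sum s i (fun k x => f k x • c k) fun k hk => (dif (hf k hk)).smul_const (c k)]
    funext y
    refine Finset.sum_congr rfl fun k hk => ?_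
    rw [pd_smulc i (dif (hf k hk))]
  have h2 : ∀ i, pd i (fun x => ∑ k ∈ s, pd i (f k) x • c k) =
      fun x => ∑ k ∈ s, pd i (pd i (f k)) x • c k := by
    intro i
    rw [pd_sum s i (fun k x => pd i (f k) x • c k)
      fun k hk => (dif (smo_pd hS (hf k hk) i)).smul_const (c k)]
    funext y
    refine Finset.sum_congr rfl fun k hk => ?_
    rw [pd_smulc i (dif (smo_pd hS (hf k hk) i))]
  simp only [h1, h2]
  rw [Finset.sum_comm]
  refine Finset.sum_congr rfl fun k _ => ?_
  rw [Finset.sum_smul]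

theorem lapit_sum_smul (hS : Stmt_SMO) {ι : Type} (s : Finset ι) (f : ι → P D → ℝ)
    (hf : ∀ k ∈ s, Smo (f k)) (c : ι → X) (l : ℕ) :
    Lap^[l] (fun x => ∑ k ∈ s, f k x • c k) = fun x => ∑ k ∈ s, (Lap^[l] (f k)) x • c k := by
  induction l with
  | zero => rfl
  | succ l ih =>
    rw [Function.iterate_succ_apply', ih, lap_sum_smul hS s _ (fun k hk => smo_lapit hS (hf k hk) l)]
    simp only [Function.iterate_succ_apply']

theorem pd_lap (hS : Stmt_SMO) {f : P D → X} (hf : Smo f) (i : Fin D) :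
    pd i (Lap f) = Lap (pd i f) := by
  obtain ⟨-, -, -, -, -, -, -, -, -, -, -, h, -⟩ := hS D X (fun _ => 0) f f hf hf
  exact h [i]

theorem pd_lapit (hS : Stmt_SMO) {f : P D → X} (hf : Smo f) (i : Fin D) (l : ℕ) :
    pd i (Lap^[l] f) = Lap^[l] (pd i f) := by
  induction l with
  | zero => rfl
  | succ l ih =>
    rw [Function.iterate_succ_apply', Function.iterate_succ_apply', ← ih,
      pd_lap hS (smo_lapit hS hf l)]

/-! ### multiplication by a coordinate -/

theorem smo_x (i : Fin D) (z : P D) {f : P D → ℝ} (hf : Smo f) :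
    Smo (fun x : P D => (x i - z i) * f x) := by
  have h1 : Smo (fun x : P D => x i - z i) := (contDiff_apply ℝ ℝ i).sub contDiff_const
  exact h1.mul hf

theorem pd_x (i j : Fin D) (z : P D) {f : P D → ℝ} (hf : Differentiable ℝ f) :
    pd j (fun x : P D => (x i - z i) * f x) =
      fun x => (if j = i then 1 else 0) * f x + (x i - z i) * pd j f x := by
  funext x
  unfold pd
  have h1 : HasFDerivAt (fun x : P D => x i - z i)
      (ContinuousLinearMap.proj (R := ℝ) (φ := fun _ : Fin D => ℝ) i) x :=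
    (ContinuousLinearMap.proj (R := ℝ) (φ := fun _ : Fin D => ℝ) i).hasFDerivAt.sub_const (z i)
  rw [(h1.fun_mul (hf x).hasFDerivAt).fderiv]
  by_cases h : j = i
  · subst h
    simp
    ring
  · simp [h, Ne.symm h]

theorem lap_x (hS : Stmt_SMO) (i : Fin D) (z : P D) {f : P D → ℝ} (hf : Smo f) :
    Lap (fun x : P D => (x i - z i) * f x) =
      fun x => (x i - z i) * Lap f x + 2 * pd i f x := by
  funext x
  unfold Lap
  have h1 : ∀ j, pd j (pd j (fun x : P D => (x i - z i) * f x)) =
      fun x => (if j = i then 1 else 0) * (2 * pd j f x) + (x i - z i) * pd j (pd j f) x := by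
    intro j
    rw [pd_x i j z (dif hf)]
    rw [pd_add j ((dif hf).const_mul _) (dif (smo_x i z (smo_pd hS hf j))),
      pd_cmul j (dif hf), pd_x i j z (dif (smo_pd hS hf j))]
    funext y
    ring
  simp only [h1]
  rw [Finset.sum_add_distrib, Finset.mul_sum, add_comm]
  congr 1
  simp

theorem lapit_x (hS : Stmt_SMO) (i : Fin D) (z : P D) {f : P D → ℝ} (hf : Smo f) (l : ℕ) :
    Lap^[l + 1] (fun x : P D => (x i - z i) * f x) =
      fun x => (x i - z i) * (Lap^[l + 1] f) x + 2 * (l + 1) * (Lap^[l] (pd i f)) x := by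
  induction l with
  | zero =>
    simp only [zero_add, Function.iterate_one, Function.iterate_zero, id]
    rw [lap_x hS i z hf]
    funext x
    norm_num
  | succ l ih =>
    rw [Function.iterate_succ_apply', ih]
    have s1 : Smo (Lap^[l + 1] f) := smo_lapit hS hf (l + 1)
    have s2 : Smo (Lap^[l] (pd i f)) := smo_lapit hS (smo_pd hS hf i) l
    have h2 := lap_sum_smul hS (Finset.univ : Finset Bool)
      (fun b => if b then (fun x : P D => (x i - z i) * (Lap^[l + 1] f) x) else Lap^[l] (pd i f))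
      (fun b _ => by
        cases b
        · simpa using s2
        · simpa using smo_x i z s1) (fun b => if b then (1 : ℝ) else 2 * (l + 1))
    simp only [Fintype.sum_bool, if_true, Bool.false_eq_true, if_false, smul_eq_mul, mul_one] at h2
    have e1 : (fun x : P D => (x i - z i) * (Lap^[l + 1] f) x + 2 * (l + 1) *
        (Lap^[l] (pd i f)) x) = fun x => (x i - z i) * (Lap^[l + 1] f) x +
        (Lap^[l] (pd i f)) x * (2 * (l + 1)) := by
      funext x
      ring
    rw [e1, h2, lap_x hS i z s1]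
    funext x
    rw [pd_lapit hS hf i (l + 1), ← Function.iterate_succ_apply' Lap l (pd i f),
      ← Function.iterate_succ_apply' Lap (l + 1) f]
    push_cast
    ring

end calc_

/-! ### monomials -/

section mono_

variable {D : ℕ}

theorem mon_nil (x : P D) : mon [] x = 1 := by simp [mon]

theorem mon_cons (i : Fin D) (v : List (Fin D)) (x : P D) : mon (i :: v) x = x i * mon v x := by
  simp [mon]

theorem mon_perm {v v' : List (Fin D)} (h : v.Perm v') (x : P D) : mon v x = mon v' x :=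
  (h.map x).prod_eq

theorem mon_smo (v : List (Fin D)) (z : P D) : Smo (fun x : P D => mon v (x - z)) := by
  induction v with
  | nil =>
    have h : (fun x : P D => mon [] (x - z)) = fun _ => 1 := by
      funext x
      exact mon_nil _
    rw [h]
    exact contDiff_const
  | cons i v ih =>
    have h : (fun x : P D => mon (i :: v) (x - z)) = fun x => (x i - z i) * mon v (x - z) := by
      funext x
      rw [mon_cons]
      rfl
    rw [h]
    exact smo_x i z ih

theorem pd_mon (i : Fin D) (v : List (Fin D)) (z : P D) :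
    pd i (fun x : P D => mon v (x - z)) = fun x => (v.count i : ℝ) * mon (v.erase i) (x - z) := by
  induction v with
  | nil =>
    funext x
    have h : (fun x : P D => mon [] (x - z)) = fun _ => 1 := by
      funext x
      exact mon_nil _
    rw [h]
    simp [pd]
  | cons j v ih =>
    have h : (fun x : P D => mon (j :: v) (x - z)) = fun x => (x j - z j) * mon v (x - z) := by
      funext x
      rw [mon_cons]
      rfl
    rw [h, pd_x j i z (dif (mon_smo v z)), ih]
    funext x
    by_cases hij : i = j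
    · subst hij
      rw [if_pos rfl, List.erase_cons_head, List.count_cons_self]
      by_cases hv : i ∈ v
      · rw [mon_perm (List.perm_cons_erase hv) (x - z), mon_cons]
        push_cast
        simp only [Pi.sub_apply]
        ring
      · rw [List.count_eq_zero_of_not_mem hv]
        simp
    · rw [if_neg hij, List.erase_cons_tail (by simpa using Ne.symm hij),
        List.count_cons_of_ne (Ne.symm hij), mon_cons]
      simp only [Pi.sub_apply]
      ring

theorem mon_le (v : List (Fin D)) (x : P D) : |mon v x| ≤ ‖x‖ ^ v.length := by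
  induction v with
  | nil => simp [mon_nil]
  | cons i v ih =>
    rw [mon_cons, abs_mul, List.length_cons, pow_succ']
    refine mul_le_mul ?_ ih (abs_nonneg _) (norm_nonneg _)
    rw [← Real.norm_eq_abs]
    exact norm_le_pi_norm x i

theorem lapit_const (l : ℕ) (c : ℝ) : Lap^[l + 1] (fun _ : P D => c) = fun _ => 0 := by
  have h0 : ∀ c : ℝ, Lap (fun _ : P D => c) = fun _ => 0 := by
    intro c
    have hp : ∀ (i : Fin D) (c : ℝ), pd i (fun _ : P D => c) = fun _ => 0 := by
      intro i c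
      funext x
      simp [pd]
    funext x
    unfold Lap
    simp only [hp, Finset.sum_const_zero]
  induction l with
  | zero => exact h0 c
  | succ l ih => rw [Function.iterate_succ_apply', ih, h0]

/-- recursion for `Tp` on monomials -/
theorem Tp_x (hS : Stmt_SMO) (M : ℕ) (τ : ℝ) (i : Fin D) (v : List (Fin D)) (z : P D) :
    Tp (M + 1) τ (fun x => mon (i :: v) (x - z)) z =
      τ / 2 * (v.count i * Tp M τ (fun x => mon (v.erase i) (x - z)) z) := by
  have h : (fun x : P D => mon (i :: v) (x - z)) = fun x => (x i - z i) * mon v (x - z) := by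
    funext x
    rw [mon_cons]
    rfl
  rw [h]
  unfold Tp
  rw [Finset.sum_range_succ']
  have h0 : ((τ / 4) ^ 0 / ((Nat.factorial 0 : ℕ) : ℝ)) •
      (Lap^[0] (fun x : P D => (x i - z i) * mon v (x - z))) z = 0 := by
    simp
  rw [h0, add_zero, Finset.mul_sum, Finset.mul_sum]
  refine Finset.sum_congr rfl fun l _ => ?_
  rw [lapit_x hS i z (mon_smo v z) l, pd_mon]
  have h1 := lapit_sum_smul hS (Finset.univ : Finset Unit)
    (fun _ x => mon (v.erase i) (x - z)) (fun _ _ => mon_smo _ z) (fun _ => (v.count i : ℝ)) l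
  simp only [Finset.univ_unique, Finset.sum_singleton, smul_eq_mul] at h1
  have h2 : (fun x : P D => (v.count i : ℝ) * mon (v.erase i) (x - z)) =
      fun x => mon (v.erase i) (x - z) * (v.count i : ℝ) := by
    funext x
    ring
  rw [h2, h1]
  simp only [sub_self, zero_mul, zero_add, smul_eq_mul]
  rw [Nat.factorial_succ, pow_succ]
  push_cast
  field_simp
  ring

theorem Tp_nil (M : ℕ) (τ : ℝ) (z : P D) : Tp (M + 1) τ (fun x => mon [] (x - z)) z = 1 := by
  have h : (fun x : P D => mon [] (x - z)) = fun _ => 1 := by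
    funext x
    exact mon_nil _
  rw [h]
  unfold Tp
  rw [Finset.sum_range_succ']
  simp [lapit_const]

end mono_

/-! ### Gaussians -/

section gau_

variable {D : ℕ}

theorem gr_dec (hGWB : Stmt_GWB) {τ : ℝ} (hτ : 0 < τ) (w : List (Fin D)) :
    ∃ C : ℝ, 0 ≤ C ∧ ∀ y : P D, |gr w τ y| ≤ C * Real.exp (-(∑ i, y i ^ 2) / (2 * τ)) := by
  refine ⟨w.length.factorial * (1 : ℝ)⁻¹ ^ w.length * (Real.sqrt (π * τ))⁻¹ ^ D *
    Real.exp (3 * D / τ), by positivity, fun y => ?_⟩
  have h1 := hGWB D (τ : ℂ) (1 / τ) τ 1 w y hτ (by simp [abs_of_pos hτ]) (by simpa using hτ)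
    (by rw [← Complex.ofReal_inv, Complex.ofReal_re, one_div]) one_pos
  have h2 : |gr w τ y| ≤ ‖gw w (τ : ℂ) y‖ := Complex.abs_re_le_norm _
  refine (h2.trans h1).trans ?_
  rw [mul_assoc, mul_assoc, mul_assoc, mul_assoc, mul_assoc]
  refine mul_le_mul_of_nonneg_left ?_ (by positivity)
  refine mul_le_mul_of_nonneg_left ?_ (by positivity)
  refine mul_le_mul_of_nonneg_left ?_ (by positivity)
  rw [← Real.exp_add]
  refine Real.exp_le_exp.2 ?_
  have h3 : ∀ i, -(1 / τ) * y i ^ 2 + (2 * |y i| * 1 + 1 ^ 2) / τ ≤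
      3 / τ + -(y i ^ 2) / (2 * τ) := by
    intro i
    have e1 : -(1 / τ) * y i ^ 2 + (2 * |y i| * 1 + 1 ^ 2) / τ =
        (-y i ^ 2 + 2 * |y i| + 1) / τ := by
      field_simp
      ring
    have e2 : 3 / τ + -(y i ^ 2) / (2 * τ) = (3 - y i ^ 2 / 2) / τ := by
      field_simp
      ring
    rw [e1, e2]
    refine div_le_div_of_nonneg_right ?_ hτ.le
    nlinarith [sq_nonneg (|y i| - 2), sq_abs (y i)]
  refine (Finset.sum_le_sum fun i _ => h3 i).trans (le_of_eq ?_)
  rw [Finset.sum_add_distrib, Finset.sum_const, Finset.card_univ, Fintype.card_fin,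
    nsmul_eq_mul, ← Finset.sum_div, Finset.sum_neg_distrib]
  ring

theorem gau_int {c : ℝ} (hc : 0 < c) : Integrable (fun y : P D => Real.exp (-(∑ i, y i ^ 2) / c)) := by
  have h1 : Integrable (fun t : ℝ => Real.exp (-t ^ 2 / c)) := by
    have h2 := integrable_exp_neg_mul_sq (b := 1 / c) (by positivity)
    refine h2.congr (Eventually.of_forall fun t => ?_)
    show Real.exp (-(1 / c) * t ^ 2) = Real.exp (-t ^ 2 / c)
    congr 1
    ring
  have h3 : (fun y : P D => Real.exp (-(∑ i, y i ^ 2) / c)) =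
      fun y => ∏ i, Real.exp (-(y i) ^ 2 / c) := by
    funext y
    rw [← Real.exp_sum]
    congr 1
    rw [← Finset.sum_div, Finset.sum_neg_distrib]
  rw [h3]
  exact Integrable.fintype_prod (fun _ => h1)

theorem nrm_sq (z : P D) : ‖z‖ ^ 2 ≤ ∑ i, z i ^ 2 := by
  have h0 : 0 ≤ ∑ i, z i ^ 2 := Finset.sum_nonneg fun i _ => sq_nonneg _
  have h1 : ‖z‖ ≤ Real.sqrt (∑ i, z i ^ 2) := by
    rw [pi_norm_le_iff_of_nonneg (Real.sqrt_nonneg _)]
    intro i
    rw [Real.norm_eq_abs]
    refine Real.le_sqrt_of_sq_le ?_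
    rw [sq_abs]
    exact Finset.single_le_sum (f := fun i => z i ^ 2) (fun i _ => sq_nonneg _) (Finset.mem_univ i)
  calc ‖z‖ ^ 2 ≤ Real.sqrt (∑ i, z i ^ 2) ^ 2 := by gcongr
    _ = _ := Real.sq_sqrt h0

theorem nrm_pow {c : ℝ} (hc : 0 < c) (k : ℕ) : ∃ C : ℝ, 0 ≤ C ∧ ∀ y : P D,
    ‖y‖ ^ k ≤ C * Real.exp ((∑ i, y i ^ 2) / c) := by
  refine ⟨1 + k.factorial * c ^ k, by positivity, fun y => ?_⟩
  have hS : 0 ≤ ∑ i, y i ^ 2 := Finset.sum_nonneg fun i _ => sq_nonneg _
  have h1 : ‖y‖ ^ k ≤ 1 + (‖y‖ ^ 2) ^ k := by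
    rw [← pow_mul, mul_comm, pow_mul]
    nlinarith [sq_nonneg (‖y‖ ^ k - 1)]
  have h2 : (‖y‖ ^ 2) ^ k ≤ (∑ i, y i ^ 2) ^ k := pow_le_pow_left₀ (by positivity) (nrm_sq y) k
  have h3 := Real.pow_div_factorial_le_exp ((∑ i, y i ^ 2) / c) (by positivity) k
  have h4 : 1 ≤ Real.exp ((∑ i, y i ^ 2) / c) := Real.one_le_exp (by positivity)
  rw [div_le_iff₀ (by positivity), div_pow, div_le_iff₀ (by positivity)] at h3
  calc ‖y‖ ^ k ≤ 1 + (∑ i, y i ^ 2) ^ k := by linarith
    _ ≤ Real.exp ((∑ i, y i ^ 2) / c) + Real.exp ((∑ i, y i ^ 2) / c) * k.factorial * c ^ k :=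
        add_le_add h4 h3
    _ = _ := by ring

theorem gr_smo (hS : Stmt_SMO) (hG : Stmt_GSR) {τ : ℝ} (hτ : 0 < τ) (w : List (Fin D)) :
    Smo (gr w τ) := by
  rw [← (hG D τ hτ).2.1 w]
  refine smo_pdw hS ?_ w
  unfold gs
  have h1 : Smo (fun x : P D => -(∑ i, x i ^ 2) / τ) := by
    refine ContDiff.div_const ?_ τ
    refine ContDiff.neg (ContDiff.sum fun i _ => ?_)
    exact (contDiff_apply ℝ ℝ i).pow 2
  exact contDiff_const.mul h1.exp

/-- integrability against monomials -/
theorem gr_int (hS : Stmt_SMO) (hG : Stmt_GSR) (hGWB : Stmt_GWB) {τ : ℝ} (hτ : 0 < τ)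
    (w v : List (Fin D)) : Integrable (fun y : P D => gr w τ (-y) * mon v y) := by
  obtain ⟨C, hC0, hC⟩ := gr_dec hGWB hτ w
  obtain ⟨K, hK0, hK⟩ := nrm_pow (D := D) (c := 4 * τ) (by positivity) v.length
  have h1 : Integrable (fun y : P D => C * K * Real.exp (-(∑ i, y i ^ 2) / (4 * τ))) :=
    (gau_int (by positivity)).const_mul _
  refine h1.mono' ?_ (Eventually.of_forall fun y => ?_)
  · have c1 : Continuous (fun y : P D => gr w τ (-y)) :=
      (gr_smo hS hG hτ w).continuous.comp continuous_neg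
    have c2 : Continuous (fun y : P D => mon v y) := by
      have := (mon_smo v (0 : P D)).continuous
      simpa using this
    exact (c1.mul c2).aestronglyMeasurable
  · rw [Real.norm_eq_abs, abs_mul]
    have h2 := hC (-y)
    have h3 : ∑ i, (-y) i ^ 2 = ∑ i, y i ^ 2 := by simp
    rw [h3] at h2
    have h4 : |mon v y| ≤ K * Real.exp ((∑ i, y i ^ 2) / (4 * τ)) := (mon_le v y).trans (hK y)
    calc |gr w τ (-y)| * |mon v y| ≤ (C * Real.exp (-(∑ i, y i ^ 2) / (2 * τ))) *
          (K * Real.exp ((∑ i, y i ^ 2) / (4 * τ))) :=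
          mul_le_mul h2 h4 (abs_nonneg _) (by positivity)
      _ = C * K * (Real.exp (-(∑ i, y i ^ 2) / (2 * τ)) * Real.exp ((∑ i, y i ^ 2) / (4 * τ))) := by
          ring
      _ = C * K * Real.exp (-(∑ i, y i ^ 2) / (4 * τ)) := by
          rw [← Real.exp_add]
          congr 2
          field_simp
          ring

theorem gr_int' (hS : Stmt_SMO) (hG : Stmt_GSR) (hGWB : Stmt_GWB) {τ : ℝ} (hτ : 0 < τ)
    (w v : List (Fin D)) (z : P D) :
    Integrable (fun x : P D => gr w τ (z - x) * mon v (x - z)) := by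
  have h := (gr_int hS hG hGWB hτ w v).comp_sub_right z
  simpa only [neg_sub] using h

/-- integration by parts -/
theorem ibp {X : Type} [NormedAddCommGroup X] [NormedSpace ℝ X]
    (hS : Stmt_SMO) (hG : Stmt_GSR) {τ : ℝ} (hτ : 0 < τ) (w : List (Fin D))
    (i : Fin D) (z : P D) {Q : P D → X} (hQ : Differentiable ℝ Q)
    (h1 : Integrable (fun x => gr w τ (z - x) • Q x))
    (h2 : Integrable (fun x => gr (i :: w) τ (z - x) • Q x))
    (h3 : Integrable (fun x => gr w τ (z - x) • pd i Q x)) :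
    ∫ x, gr (i :: w) τ (z - x) • Q x = ∫ x, gr w τ (z - x) • pd i Q x := by
  have hd : Differentiable ℝ (gr w τ) := dif (gr_smo hS hG hτ w)
  have hf : ∀ x, HasFDerivAt (fun x => gr w τ (z - x)) (-(fderiv ℝ (gr w τ) (z - x))) x := by
    intro x
    have e1 : HasFDerivAt (fun x : P D => z - x) (-(ContinuousLinearMap.id ℝ (P D))) x :=
      (hasFDerivAt_id x).const_sub z
    have e2 := (hd (z - x)).hasFDerivAt.comp x e1
    have e3 : (fderiv ℝ (gr w τ) (z - x)).comp (-(ContinuousLinearMap.id ℝ (P D))) =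
        -(fderiv ℝ (gr w τ) (z - x)) := by
      ext y
      simp
    rw [e3] at e2
    exact e2
  have hpd : ∀ x, fderiv ℝ (fun x => gr w τ (z - x)) x (Pi.single i 1) =
      -(gr (i :: w) τ (z - x)) := by
    intro x
    rw [(hf x).fderiv]
    show -(pd i (gr w τ) (z - x)) = _
    rw [← (hG D τ hτ).2.1 w, ← (hG D τ hτ).2.1 (i :: w)]
    rfl
  have h4 := integral_smul_fderiv_eq_neg_fderiv_smul_of_integrable (μ := (volume : Measure (P D)))
    (f := fun x => gr w τ (z - x)) (g := Q) (v := Pi.single i 1)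
    (by simp only [hpd, neg_smul]; exact h2.neg) h3 h1 (fun x _ => (hf x).differentiableAt)
    (fun x _ => hQ x)
  simp only [hpd, neg_smul, integral_neg, neg_neg] at h4
  exact h4.symm

/-- moments of the Gaussian -/
theorem mom (hS : Stmt_SMO) (hG : Stmt_GSR) (hGWB : Stmt_GWB) {τ : ℝ} (hτ : 0 < τ) (z : P D) :
    ∀ (N : ℕ) (v : List (Fin D)) (M : ℕ), v.length ≤ N → v.length < M →
      ∫ x, gr [] τ (z - x) * mon v (x - z) = Tp M τ (fun x => mon v (x - z)) z := by
  intro N
  induction N with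
  | zero =>
    intro v M hv hM
    have hv0 : v = [] := List.length_eq_zero_iff.1 (Nat.le_zero.1 hv)
    subst hv0
    obtain ⟨M', rfl⟩ : ∃ M', M = M' + 1 := ⟨M - 1, by simp at hM; omega⟩
    rw [Tp_nil]
    simp only [mon_nil, mul_one]
    rw [integral_sub_left_eq_self (gr [] τ) volume z, ← (hG D τ hτ).2.1 []]
    exact (hG D τ hτ).2.2.1
  | succ N ih =>
    intro v M hv hM
    cases v with
    | nil =>
      exact ih [] M (by simp) hM
    | cons i v =>
      obtain ⟨M', rfl⟩ : ∃ M', M = M' + 1 := ⟨M - 1, by simp at hM; omega⟩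
      rw [Tp_x hS]
      rw [List.length_cons] at hv hM
      have hle : (v.erase i).length ≤ v.length := List.length_erase_le
      rw [← ih (v.erase i) M' (by omega) (by omega)]
      -- integration by parts
      have hst := ibp (X := ℝ) hS hG hτ ([] : List (Fin D)) i z (dif (mon_smo v z))
        (by simpa only [smul_eq_mul] using gr_int' hS hG hGWB hτ [] v z)
        (by simpa only [smul_eq_mul] using gr_int' hS hG hGWB hτ [i] v z)
        (by
          rw [pd_mon]
          have := (gr_int' hS hG hGWB hτ [] (v.erase i) z).const_mul (v.count i : ℝ)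
          refine this.congr (Eventually.of_forall fun x => ?_)
          simp only [smul_eq_mul]
          ring)
      rw [pd_mon] at hst
      simp only [smul_eq_mul] at hst
      have hg1 : ∀ y : P D, gr [i] τ y = -(2 * y i / τ) * gr [] τ y := by
        intro y
        rw [← (hG D τ hτ).2.1 [i], ← (hG D τ hτ).2.1 []]
        show pd i (gs τ) y = -(2 * y i / τ) * gs τ y
        unfold pd gs
        have d1 : HasFDerivAt (fun x : P D => -(∑ j, x j ^ 2) / τ)
            (τ⁻¹ • (-(∑ j, (2 * y j) • (ContinuousLinearMap.proj (R := ℝ)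
              (φ := fun _ : Fin D => ℝ) j)))) y := by
          have d2 : ∀ j ∈ (Finset.univ : Finset (Fin D)), HasFDerivAt (fun x : P D => x j ^ 2)
              ((2 * y j) • (ContinuousLinearMap.proj (R := ℝ) (φ := fun _ : Fin D => ℝ) j)) y := by
            intro j _
            have d3 := ((ContinuousLinearMap.proj (R := ℝ)
              (φ := fun _ : Fin D => ℝ) j).hasFDerivAt (x := y)).pow 2
            simpa using d3
          have d4 := (HasFDerivAt.fun_sum d2).fun_neg.mul_const τ⁻¹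
          simpa only [div_eq_mul_inv] using d4
        have d5 := (d1.exp).const_mul ((Real.sqrt (π * τ))⁻¹ ^ D)
        rw [d5.fderiv]
        simp [Pi.single_apply]
        ring
      have hL : ∫ x, gr [] τ (z - x) * mon (i :: v) (x - z) =
          τ / 2 * ∫ x, gr [i] τ (z - x) * mon v (x - z) := by
        rw [← integral_const_mul]
        refine integral_congr_ae (Eventually.of_forall fun x => ?_)
        show gr [] τ (z - x) * mon (i :: v) (x - z) = τ / 2 * (gr [i] τ (z - x) * mon v (x - z))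
        rw [hg1, mon_cons]
        simp only [Pi.sub_apply]
        field_simp
        ring
      rw [hL, hst]
      congr 1
      rw [← integral_const_mul]
      refine integral_congr_ae (Eventually.of_forall fun x => ?_)
      show gr [] τ (z - x) * (v.count i * mon (v.erase i) (x - z)) =
        v.count i * (gr [] τ (z - x) * mon (v.erase i) (x - z))
      ring

end gau_

/-! ### general polynomials -/

section pol_

variable {D : ℕ} {X : Type} [NormedAddCommGroup X] [NormedSpace ℝ X]

theorem rep (hT : Stmt_TEX) {M : ℕ} {Q : P D → X} (hQ : IsPol M Q) (z : P D) :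
    ∃ (s : Finset (Σ m : ℕ, (Fin m → Fin D))) (c : (Σ m : ℕ, (Fin m → Fin D)) → X),
      (∀ k ∈ s, k.1 < M) ∧ Q = fun x => ∑ k ∈ s, mon (List.ofFn k.2) (x - z) • c k := by
  refine ⟨(Finset.range M).sigma (fun m => Finset.univ),
    fun k => (1 / (k.1.factorial : ℝ)) • pdw (List.ofFn k.2) Q z, ?_, ?_⟩
  · intro k hk
    rw [Finset.mem_sigma, Finset.mem_range] at hk
    exact hk.1
  · funext x
    rw [hT D X M Q z x hQ, Finset.sum_sigma]
    refine Finset.sum_congr rfl fun m _ => ?_
    rw [Finset.smul_sum]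
    refine Finset.sum_congr rfl fun v _ => ?_
    rw [smul_comm]

theorem pol_int (hS : Stmt_SMO) (hG : Stmt_GSR) (hGWB : Stmt_GWB) (hT : Stmt_TEX) {τ : ℝ}
    (hτ : 0 < τ) (w : List (Fin D)) {M : ℕ} {Q : P D → X} (hQ : IsPol M Q) (z : P D) :
    Integrable (fun x => gr w τ (z - x) • Q x) := by
  obtain ⟨s, c, -, hs⟩ := rep hT hQ z
  have h1 : (fun x => gr w τ (z - x) • Q x) =
      fun x => ∑ k ∈ s, (gr w τ (z - x) * mon (List.ofFn k.2) (x - z)) • c k := by
    funext x
    rw [hs, Finset.smul_sum]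
    refine Finset.sum_congr rfl fun k _ => ?_
    rw [smul_smul]
  rw [h1]
  exact integrable_finsetSum _ fun k _ => (gr_int' hS hG hGWB hτ w _ z).smul_const (c k)

theorem pol_nil [CompleteSpace X] (hS : Stmt_SMO) (hG : Stmt_GSR) (hGWB : Stmt_GWB)
    (hT : Stmt_TEX) {τ : ℝ} (hτ : 0 < τ) {M : ℕ} {Q : P D → X} (hQ : IsPol M Q) (z : P D) :
    ∫ x, gr [] τ (z - x) • Q x = Tp M τ Q z := by
  obtain ⟨s, c, hM, hs⟩ := rep hT hQ z
  have h1 : (fun x => gr [] τ (z - x) • Q x) =
      fun x => ∑ k ∈ s, (gr [] τ (z - x) * mon (List.ofFn k.2) (x - z)) • c k := by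
    funext x
    rw [hs, Finset.smul_sum]
    refine Finset.sum_congr rfl fun k _ => ?_
    rw [smul_smul]
  rw [h1, integral_finsetSum _ fun k _ => (gr_int' hS hG hGWB hτ [] _ z).smul_const (c k)]
  have h2 : Tp M τ Q z = ∑ k ∈ s, Tp M τ (fun x => mon (List.ofFn k.2) (x - z)) z • c k := by
    unfold Tp
    rw [hs]
    simp only [lapit_sum_smul hS s (fun k x => mon (List.ofFn k.2) (x - z))
      (fun k _ => mon_smo _ z) c]
    simp only [Finset.smul_sum, Finset.sum_smul]
    rw [Finset.sum_comm]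
    refine Finset.sum_congr rfl fun k _ => Finset.sum_congr rfl fun l _ => ?_
    rw [smul_smul, smul_eq_mul]
  rw [h2]
  refine Finset.sum_congr rfl fun k hk => ?_
  rw [integral_smul_const, mom hS hG hGWB hτ z _ (List.ofFn k.2) M le_rfl
    (by rw [List.length_ofFn]; exact hM k hk)]

theorem pol_pd (hS : Stmt_SMO) {M : ℕ} {Q : P D → X} (hQ : IsPol M Q) (i : Fin D) :
    IsPol M (pd i Q) := by
  refine ⟨smo_pd hS hQ.sm i, fun w hw x => ?_⟩
  have h : pdw w (pd i Q) = pdw (w ++ [i]) Q := (pdw_app hS hQ.sm w [i]).symm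
  rw [h]
  refine hQ.top _ ?_ x
  rw [List.length_append]
  omega

theorem Tp_smo (hS : Stmt_SMO) (M : ℕ) (τ : ℝ) {Q : P D → X} (hQ : Smo Q) : Smo (Tp M τ Q) := by
  unfold Tp
  exact ContDiff.sum fun l _ => (smo_lapit hS hQ l).const_smul _

theorem Tp_pd (hS : Stmt_SMO) (M : ℕ) (τ : ℝ) {Q : P D → X} (hQ : Smo Q) (i : Fin D) :
    Tp M τ (pd i Q) = pd i (Tp M τ Q) := by
  unfold Tp
  rw [pd_sum _ i (fun l x => ((τ / 4) ^ l / (l.factorial : ℝ)) • (Lap^[l] Q) x)
    fun l _ => dif ((smo_lapit hS hQ l).const_smul _)]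
  funext x
  refine Finset.sum_congr rfl fun l _ => ?_
  rw [pd_csmul i (dif (smo_lapit hS hQ l)), pd_lapit hS hQ]

end pol_

end PO3_

open PO3_

theorem po3_proof (hS : Stmt_SMO) (hT : Stmt_TEX) (hG : Stmt_GSR) (hGWB : Stmt_GWB) :
    Stmt_PO3 := by
  intro D X _ _ _ M Q τ w z hQ hτ
  refine ⟨pol_int hS hG hGWB hT hτ w hQ z, ?_⟩
  have : CompleteSpace X := FiniteDimensional.complete ℝ X
  induction w generalizing Q with
  | nil => exact pol_nil hS hG hGWB hT hτ hQ z
  | cons i w ih =>
    rw [ibp hS hG hτ w i z (dif hQ.sm) (pol_int hS hG hGWB hT hτ w hQ z)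
      (pol_int hS hG hGWB hT hτ (i :: w) hQ z) (pol_int hS hG hGWB hT hτ w (pol_pd hS hQ i) z),
      ih (pd i Q) (pol_pd hS hQ i), Tp_pd hS M τ hQ.sm i]
    have h : pdw w (pd i (Tp M τ Q)) = pdw (w ++ [i]) (Tp M τ Q) :=
      (pdw_app hS (Tp_smo hS M τ hQ.sm) w [i]).symm
    rw [h, pdw_perm hS (Tp_smo hS M τ hQ.sm) (List.perm_append_singleton i w)]

end Pool.Agent.HBW
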