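import Pool.Agent.HBW.PO1

set_option autoImplicit false

namespace Pool.Agent.HBW

open MeasureTheory Set Filter Topology
open scoped ENNReal Real

namespace PO4_

open SMO_ PO1_

variable {D : ℕ} {X : Type} [NormedAddCommGroup X] [NormedSpace ℝ X]

theorem alt_pow (L j : ℕ) (h : j < L) (a u : ℝ) :
    ∑ l ∈ Finset.range (L + 1), ((-1) ^ l * (L.choose l : ℝ)) * (a + l * u) ^ j = 0 := by
  let p : Polynomial ℝ := (Polynomial.C a + Polynomial.C u * Polynomial.X) ^ j
  have hd : p.natDegree < L := by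
    have h1 : (Polynomial.C a + Polynomial.C u * Polynomial.X).natDegree ≤ 1 := by
      refine (Polynomial.natDegree_add_le _ _).trans ?_
      rw [Polynomial.natDegree_C]
      exact max_le (by norm_num) ((Polynomial.natDegree_C_mul_le u _).trans
        Polynomial.natDegree_X_le)
    have h2 : p.natDegree ≤ j * 1 := (Polynomial.natDegree_pow_le).trans
      (Nat.mul_le_mul_left j h1)
    omega
  have h3 := congrFun (Polynomial.fwdDiff_iter_eq_zero_of_degree_lt hd) 0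
  rw [fwdDiff_iter_eq_sum_shift] at h3
  have h4 : ∀ l ∈ Finset.range (L + 1), ((-1) ^ l * (L.choose l : ℝ)) * (a + l * u) ^ j =
      (-1) ^ L * (((-1 : ℤ) ^ (L - l) * (L.choose l : ℤ)) • p.eval ((0 : ℝ) + l • (1 : ℝ))) := by
    intro l hl
    have hl' : l ≤ L := Nat.lt_succ_iff.mp (Finset.mem_range.mp hl)
    have h5 : p.eval ((0 : ℝ) + l • (1 : ℝ)) = (a + l * u) ^ j := by
      simp only [p, Polynomial.eval_pow, Polynomial.eval_add, Polynomial.eval_C,
        Polynomial.eval_mul, Polynomial.eval_X, zero_add, nsmul_eq_mul, mul_one]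
      rw [mul_comm u]
    rw [h5, zsmul_eq_mul]
    push_cast
    have h6 : ((-1 : ℝ)) ^ L * (-1) ^ (L - l) = (-1) ^ l := by
      obtain ⟨k, rfl⟩ := Nat.exists_eq_add_of_le hl'
      rw [Nat.add_sub_cancel_left, pow_add, mul_assoc, ← pow_add, ← two_mul, pow_mul]
      norm_num
    rw [← h6]
    ring
  rw [Finset.sum_congr rfl h4, ← Finset.mul_sum, h3]
  simp

theorem tp_zero (M L : ℕ) (Q : P D → X) (τ u : ℝ) (x : P D) (hL : M ≤ L) :
    ∑ l ∈ Finset.range (L + 1), ((-1) ^ l * (L.choose l : ℝ)) • Tp M (τ + 4 * l * u) Q x = 0 := by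
  unfold Tp
  have h1 : ∀ l : ℕ, ((-1 : ℝ) ^ l * (L.choose l : ℝ)) •
      ∑ j ∈ Finset.range M, (((τ + 4 * l * u) / 4) ^ j / j.factorial : ℝ) • (Lap^[j] Q) x =
      ∑ j ∈ Finset.range M, (((-1 : ℝ) ^ l * (L.choose l : ℝ)) * (τ / 4 + l * u) ^ j) •
        ((1 / j.factorial : ℝ) • (Lap^[j] Q) x) := by
    intro l
    rw [Finset.smul_sum]
    refine Finset.sum_congr rfl (fun j _ => ?_)
    rw [smul_smul, smul_smul]
    congr 1
    have h2 : (τ + 4 * l * u) / 4 = τ / 4 + l * u := by ring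
    rw [h2]
    ring
  rw [Finset.sum_congr rfl (fun l _ => h1 l), Finset.sum_comm]
  refine Finset.sum_eq_zero (fun j hj => ?_)
  rw [← Finset.sum_smul, alt_pow L j (lt_of_lt_of_le (Finset.mem_range.mp hj) hL), zero_smul]

theorem lap_tp (M r : ℕ) {Q : P D → X} (hQ : Smo Q) (τ : ℝ) :
    Lap^[r] (Tp M τ Q) = Tp M τ (Lap^[r] Q) := by
  have h1 : Lap^[r] (Tp M τ Q) = fun x => ∑ l ∈ Finset.range M,
      ((τ / 4) ^ l / l.factorial : ℝ) • (Lap^[r] (Lap^[l] Q)) x :=
    Lap_it_lin r (Finset.range M) (fun l => ((τ / 4) ^ l / l.factorial : ℝ))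
      (F := fun l => Lap^[l] Q) (fun l => smo_Lap_it hQ l)
  rw [h1]
  funext x
  unfold Tp
  refine Finset.sum_congr rfl (fun l _ => ?_)
  rw [← Function.iterate_add_apply, ← Function.iterate_add_apply, add_comm]

end PO4_

open PO4_ PO1_

/-- finite differences in the heat time kill polynomials -/
theorem po4_proof (_hSMO : Stmt_SMO) (_hPO1 : Stmt_PO1) : Stmt_PO4 := by
  intro D X _ _ M L Q τ u ω x hQ hL
  have key : ∀ c : ℕ → ℝ, ∑ l ∈ Finset.range (L + 1), ((-1) ^ l * (L.choose l : ℝ)) •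
      ∑ r ∈ Finset.range M, c r • (Lap^[r] (Tp M (τ + 4 * l * u) Q)) x = 0 := by
    intro c
    have h1 : ∀ l : ℕ, ((-1 : ℝ) ^ l * (L.choose l : ℝ)) •
        ∑ r ∈ Finset.range M, c r • (Lap^[r] (Tp M (τ + 4 * l * u) Q)) x =
        ∑ r ∈ Finset.range M, c r • (((-1 : ℝ) ^ l * (L.choose l : ℝ)) •
          Tp M (τ + 4 * l * u) (Lap^[r] Q) x) := by
      intro l
      rw [Finset.smul_sum]
      refine Finset.sum_congr rfl (fun r _ => ?_)
      rw [lap_tp M r hQ.sm, smul_comm]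
    rw [Finset.sum_congr rfl (fun l _ => h1 l), Finset.sum_comm]
    refine Finset.sum_eq_zero (fun r _ => ?_)
    rw [← Finset.smul_sum, tp_zero M L _ τ u x hL, smul_zero]
  exact ⟨tp_zero M L Q τ u x hL, key _, key _⟩

end Pool.Agent.HBW
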