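import Pool.Agent.HBW.Stmts

/-!
Squad HBW, module PO5: the operator `𝓛` inverts `e^{ω𝒟} e^{τΔ/4}` on polynomials.
-/

set_option autoImplicit false

namespace Pool.Agent.HBW

open MeasureTheory Set Filter Topology
open scoped ENNReal Real

namespace PO5_

theorem sum_even_odd {A : Type*} [AddCommGroup A] (M : ℕ) (f : ℕ → A) :
    ∑ j ∈ Finset.range (2 * M), f j =
      ∑ r ∈ Finset.range M, f (2 * r) + ∑ r ∈ Finset.range M, f (2 * r + 1) := by
  induction M with
  | zero => simp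
  | succ M ih =>
    have : 2 * (M + 1) = 2 * M + 1 + 1 := by ring
    rw [this, Finset.sum_range_succ, Finset.sum_range_succ, ih, Finset.sum_range_succ,
      Finset.sum_range_succ]
    abel

section

variable {A : Type*} [Ring A] [Algebra ℝ A]

/-- rational structure -/
@[reducible] noncomputable def modQ (A : Type*) [Ring A] [Algebra ℝ A] : Module ℚ A :=
  Module.compHom A (algebraMap ℚ ℝ)

theorem exp_sum (a : A) (k : ℕ) (h : a ^ k = 0) :
    letI := modQ A
    IsNilpotent.exp a = ∑ i ∈ Finset.range k, ((i.factorial : ℝ)⁻¹) • a ^ i := by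
  letI := modQ A
  rw [IsNilpotent.exp_eq_sum h]
  refine Finset.sum_congr rfl fun i _ => ?_
  show (algebraMap ℚ ℝ ((i.factorial : ℚ)⁻¹)) • a ^ i = _
  congr 1
  simp

theorem neg_sq_pow (N : A) (r : ℕ) : (-(N * N)) ^ r = ((-1 : ℝ) ^ r) • N ^ (2 * r) := by
  have : -(N * N) = (-1 : ℝ) • (N * N) := by rw [neg_one_smul]
  rw [this, smul_pow, pow_mul, pow_two]

theorem one1 (r : ℕ) : ((-1 : ℝ) ^ r) * (-1) ^ r = 1 := by
  rw [← mul_pow]; norm_num

theorem expo (N : A) (M : ℕ) (hN : N ^ M = 0) (ω : ℝ) :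
    letI := modQ A
    IsNilpotent.exp (ω • N) =
      (∑ r ∈ Finset.range M, ((-1) ^ r * ω ^ (2 * r) / (2 * r).factorial : ℝ) •
        (-(N * N)) ^ r) +
      N * (∑ r ∈ Finset.range M, ((-1) ^ r * ω ^ (2 * r + 1) / (2 * r + 1).factorial : ℝ) •
        (-(N * N)) ^ r) := by
  letI := modQ A
  have h2 : (ω • N) ^ (2 * M) = 0 := by
    rw [smul_pow, two_mul M, pow_add N M M, hN, zero_mul, smul_zero]
  rw [exp_sum _ _ h2, sum_even_odd, Finset.mul_sum]
  congr 1
  · refine Finset.sum_congr rfl fun r _ => ?_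
    rw [neg_sq_pow, smul_pow, smul_smul, smul_smul]
    congr 1
    rw [show (-1 : ℝ) ^ r * ω ^ (2 * r) / (2 * r).factorial * (-1) ^ r =
      ((-1 : ℝ) ^ r * (-1) ^ r) * (ω ^ (2 * r) / (2 * r).factorial) by ring, one1, one_mul]
    ring
  · refine Finset.sum_congr rfl fun r _ => ?_
    rw [neg_sq_pow, smul_pow, smul_smul, smul_smul, mul_smul_comm, ← pow_succ']
    congr 1
    rw [show (-1 : ℝ) ^ r * ω ^ (2 * r + 1) / (2 * r + 1).factorial * (-1) ^ r =
      ((-1 : ℝ) ^ r * (-1) ^ r) * (ω ^ (2 * r + 1) / (2 * r + 1).factorial) by ring, one1,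
      one_mul]
    ring

theorem expT (N : A) (M : ℕ) (hN : N ^ M = 0) (τ : ℝ) :
    letI := modQ A
    IsNilpotent.exp ((τ / 4) • (-(N * N))) =
      ∑ l ∈ Finset.range M, ((τ / 4) ^ l / l.factorial : ℝ) • (-(N * N)) ^ l := by
  letI := modQ A
  have h2 : ((τ / 4) • (-(N * N))) ^ M = 0 := by
    rw [smul_pow, neg_sq_pow, two_mul, pow_add, hN, zero_mul, smul_zero, smul_zero]
  rw [exp_sum _ _ h2]
  refine Finset.sum_congr rfl fun r _ => ?_
  rw [smul_pow, smul_smul]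
  congr 1
  ring

theorem expB (N : A) (M : ℕ) (hN : N ^ M = 0) (ω τ : ℝ) :
    letI := modQ A
    IsNilpotent.exp ((-ω) • N) * IsNilpotent.exp ((τ / 4) • (N * N)) =
      ∑ q ∈ Finset.range M, bq ω τ q • N ^ q := by
  letI := modQ A
  have h1 : ((-ω) • N) ^ M = 0 := by rw [smul_pow, hN, smul_zero]
  have h2 : ((τ / 4) • (N * N)) ^ M = 0 := by
    rw [smul_pow, ← pow_two, ← pow_mul, mul_comm, pow_mul, hN, pow_two, zero_mul, smul_zero]
  rw [exp_sum _ _ h1, exp_sum _ _ h2, Finset.sum_mul_sum, ← Finset.sum_product']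
  have hterm : ∀ p : ℕ × ℕ, ((p.1.factorial : ℝ)⁻¹ • ((-ω) • N) ^ p.1) *
      ((p.2.factorial : ℝ)⁻¹ • ((τ / 4) • (N * N)) ^ p.2) =
      ((-ω) ^ p.1 * (τ / 4) ^ p.2 / (p.1.factorial * p.2.factorial) : ℝ) •
        N ^ (p.1 + 2 * p.2) := by
    intro p
    rw [smul_pow, smul_pow, smul_smul, smul_smul, smul_mul_smul_comm, ← pow_two, ← pow_mul,
      ← pow_add]
    congr 1
    field_simp
  rw [Finset.sum_congr rfl fun p _ => hterm p]
  rw [← Finset.sum_filter_add_sum_filter_not _ (fun p : ℕ × ℕ => p.1 + 2 * p.2 < M)]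
  have hz : ∑ p ∈ (Finset.range M ×ˢ Finset.range M).filter
      (fun p : ℕ × ℕ => ¬ p.1 + 2 * p.2 < M),
      ((-ω) ^ p.1 * (τ / 4) ^ p.2 / (p.1.factorial * p.2.factorial) : ℝ) •
        N ^ (p.1 + 2 * p.2) = 0 := by
    refine Finset.sum_eq_zero fun p hp => ?_
    have hp2 := (Finset.mem_filter.1 hp).2
    rw [pow_eq_zero_of_le (not_lt.1 hp2) hN, smul_zero]
  rw [hz, add_zero]
  have hb : ∀ q, bq ω τ q • N ^ q = ∑ l ∈ Finset.range (q / 2 + 1),
      ((-ω) ^ (q - 2 * l) * (τ / 4) ^ l / ((q - 2 * l).factorial * l.factorial) : ℝ) • N ^ q := by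
    intro q
    unfold bq
    rw [Finset.sum_smul]
  rw [Finset.sum_congr rfl fun q _ => hb q, Finset.sum_sigma']
  symm
  refine Finset.sum_bij' (fun s _ => (s.1 - 2 * s.2, s.2)) (fun p _ => ⟨p.1 + 2 * p.2, p.2⟩)
    ?_ ?_ ?_ ?_ ?_
  · rintro ⟨q, l⟩ h
    simp only [Finset.mem_sigma, Finset.mem_range, Finset.mem_filter, Finset.mem_product] at h ⊢
    omega
  · rintro ⟨i, l⟩ h
    simp only [Finset.mem_sigma, Finset.mem_range, Finset.mem_filter, Finset.mem_product] at h ⊢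
    omega
  · rintro ⟨q, l⟩ h
    simp only [Finset.mem_sigma, Finset.mem_range] at h ⊢
    have : q - 2 * l + 2 * l = q := by omega
    rw [this]
  · rintro ⟨i, l⟩ h
    simp
  · rintro ⟨q, l⟩ h
    simp only [Finset.mem_sigma, Finset.mem_range] at h ⊢
    have : q - 2 * l + 2 * l = q := by omega
    rw [this]

theorem alg (N : A) (M : ℕ) (hN : N ^ M = 0) (ω τ : ℝ) :
    ((∑ r ∈ Finset.range M, ((-1) ^ r * ω ^ (2 * r) / (2 * r).factorial : ℝ) •
        (-(N * N)) ^ r) +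
      N * (∑ r ∈ Finset.range M, ((-1) ^ r * ω ^ (2 * r + 1) / (2 * r + 1).factorial : ℝ) •
        (-(N * N)) ^ r)) *
      (∑ l ∈ Finset.range M, ((τ / 4) ^ l / l.factorial : ℝ) • (-(N * N)) ^ l) *
      (∑ q ∈ Finset.range M, bq ω τ q • N ^ q) = 1 := by
  letI := modQ A
  rw [← expo N M hN, ← expT N M hN, ← expB N M hN]
  have hc : Commute N (N * N) := (Commute.refl N).mul_right (Commute.refl N)
  have n1 : IsNilpotent (ω • N) := ⟨M, by rw [smul_pow, hN, smul_zero]⟩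
  have n2 : IsNilpotent ((-ω) • N) := ⟨M, by rw [smul_pow, hN, smul_zero]⟩
  have n3 : IsNilpotent ((τ / 4) • (N * N)) := ⟨M, by
    rw [smul_pow, ← pow_two, ← pow_mul, mul_comm, pow_mul, hN, pow_two, zero_mul, smul_zero]⟩
  have n4 : IsNilpotent ((τ / 4) • (-(N * N))) := by
    rw [smul_neg]
    exact n3.neg
  have c1 : Commute (ω • N) ((τ / 4) • (-(N * N))) := by
    rw [smul_neg]
    exact ((hc.smul_left ω).smul_right (τ / 4)).neg_right
  have c2 : Commute ((-ω) • N) ((τ / 4) • (N * N)) := (hc.smul_left (-ω)).smul_right (τ / 4)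
  rw [← IsNilpotent.exp_add_of_commute c1 n1 n4, ← IsNilpotent.exp_add_of_commute c2 n2 n3]
  have e : (-ω) • N + (τ / 4) • (N * N) = -(ω • N + (τ / 4) • (-(N * N))) := by
    rw [smul_neg, neg_smul]
    abel
  rw [e]
  exact IsNilpotent.exp_mul_exp_neg_self (c1.isNilpotent_add n1 n4)

end

section

variable {D : ℕ} {X : Type} [NormedAddCommGroup X] [NormedSpace ℝ X]

theorem DD_add (hS : Stmt_SMO) (A : Fin D → (X →L[ℝ] X)) (f g : P D → X) (hf : Smo f)
    (hg : Smo g) : DD A (f + g) = DD A f + DD A g := by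
  funext x
  show ∑ i, A i (pd i (fun x => f x + g x) x) = ∑ i, A i (pd i f x) + ∑ i, A i (pd i g x)
  rw [← Finset.sum_add_distrib]
  refine Finset.sum_congr rfl fun i _ => ?_
  have h := (hS D X A f g hf hg).2.2.2.2.2.1 [i]
  have h2 : pd i (fun x => f x + g x) = fun x => pd i f x + pd i g x := h
  rw [h2, map_add]

theorem DD_smul (hS : Stmt_SMO) (A : Fin D → (X →L[ℝ] X)) (f : P D → X) (hf : Smo f) (c : ℝ) :
    DD A (c • f) = c • DD A f := by
  funext x
  show ∑ i, A i (pd i (fun x => c • f x) x) = c • ∑ i, A i (pd i f x)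
  rw [Finset.smul_sum]
  refine Finset.sum_congr rfl fun i _ => ?_
  have h := (hS D X A f f hf hf).2.2.2.2.2.2.1 [i] c
  have h2 : pd i (fun x => c • f x) = fun x => c • pd i f x := h
  rw [h2, map_smul]

/-- polynomials of degree `< M` -/
noncomputable def VV (hS : Stmt_SMO) (M : ℕ) : Submodule ℝ (P D → X) where
  carrier := {Q | IsPol M Q}
  add_mem' := by
    intro f g hf hg
    refine ⟨hf.sm.add hg.sm, fun w hw x => ?_⟩
    have h := (hS D X (fun _ => 0) f g hf.sm hg.sm).2.2.2.2.2.1 w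
    show pdw w (fun x => f x + g x) x = 0
    rw [h]
    show pdw w f x + pdw w g x = 0
    rw [hf.top w hw x, hg.top w hw x, add_zero]
  zero_mem' := by
    refine ⟨contDiff_const, fun w hw x => ?_⟩
    have h0 : Smo (fun _ : P D => (0 : X)) := contDiff_const
    have h := (hS D X (fun _ => 0) (fun _ => 0) (fun _ => 0) h0 h0).2.2.2.2.2.2.1 w 0
    have h2 := congrFun h x
    simp only [zero_smul] at h2
    exact h2
  smul_mem' := by
    intro c f hf
    refine ⟨contDiff_const.smul hf.sm, fun w hw x => ?_⟩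
    have h := (hS D X (fun _ => 0) f f hf.sm hf.sm).2.2.2.2.2.2.1 w c
    show pdw w (fun x => c • f x) x = 0
    rw [h]
    show c • pdw w f x = 0
    rw [hf.top w hw x, smul_zero]

theorem mem_VV (hS : Stmt_SMO) (M : ℕ) (v : VV (D := D) (X := X) hS M) : IsPol M v.1 := v.2

/-- the Dirac operator on polynomials -/
noncomputable def NN (hS : Stmt_SMO) (hP : Stmt_PO1) (A : Fin D → (X →L[ℝ] X)) (M : ℕ) :
    VV (D := D) (X := X) hS M →ₗ[ℝ] VV (D := D) (X := X) hS M where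
  toFun v := ⟨DD A v.1, (hP D X A M v.1 v.2).2.1⟩
  map_add' v w := Subtype.ext (DD_add hS A v.1 w.1 (mem_VV hS M v).sm (mem_VV hS M w).sm)
  map_smul' c v := Subtype.ext (DD_smul hS A v.1 (mem_VV hS M v).sm c)

theorem pol_DD (hS : Stmt_SMO) (A : Fin D → (X →L[ℝ] X)) (M : ℕ) (Q : P D → X)
    (hQ : IsPol M Q) : IsPol (M - 1) (DD A Q) := by
  refine ⟨(hS D X A Q Q hQ.sm hQ.sm).2.2.2.2.2.2.2.2.1, fun w hw x => ?_⟩
  have h := (hS D X A Q Q hQ.sm hQ.sm).2.2.2.2.2.2.2.2.2.2.1 w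
  rw [h]
  refine Finset.sum_eq_zero fun i _ => ?_
  have h2 : pd i (pdw w Q) x = 0 := hQ.top (i :: w) (by simp only [List.length_cons]; omega) x
  rw [h2, map_zero]

theorem NN_pow_coe (hS : Stmt_SMO) (hP : Stmt_PO1) (A : Fin D → (X →L[ℝ] X)) (M j : ℕ)
    (v : VV (D := D) (X := X) hS M) :
    (((NN hS hP A M) ^ j) v).1 = (DD A)^[j] v.1 := by
  induction j with
  | zero => rfl
  | succ j ih =>
    rw [pow_succ', Module.End.mul_apply, Function.iterate_succ_apply', ← ih]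
    rfl

theorem NN_pow_pol (hS : Stmt_SMO) (hP : Stmt_PO1) (A : Fin D → (X →L[ℝ] X)) (M j : ℕ)
    (v : VV (D := D) (X := X) hS M) : IsPol (M - j) (((NN hS hP A M) ^ j) v).1 := by
  induction j with
  | zero => exact v.2
  | succ j ih =>
    rw [pow_succ', Module.End.mul_apply]
    have := pol_DD hS A (M - j) _ ih
    rw [Nat.sub_sub] at this
    exact this

theorem NN_nil (hS : Stmt_SMO) (hP : Stmt_PO1) (A : Fin D → (X →L[ℝ] X)) (M : ℕ) :
    (NN hS hP A M) ^ M = 0 := by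
  refine LinearMap.ext fun v => Subtype.ext ?_
  funext x
  have h := NN_pow_pol hS hP A M M v
  rw [Nat.sub_self] at h
  exact h.top [] (Nat.zero_le _) x

theorem Lap_coe (hS : Stmt_SMO) (hP : Stmt_PO1) (A : Fin D → (X →L[ℝ] X)) (hA : Cliff A)
    (M l : ℕ) (v : VV (D := D) (X := X) hS M) :
    (((-(NN hS hP A M * NN hS hP A M)) ^ l) v).1 = Lap^[l] v.1 := by
  induction l with
  | zero => rfl
  | succ l ih =>
    rw [pow_succ', Module.End.mul_apply, Function.iterate_succ_apply', ← ih]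
    set u := ((-(NN hS hP A M * NN hS hP A M)) ^ l) v with hu
    funext x
    have hsm : Smo u.1 := (mem_VV hS M u).sm
    have h := (hS D X A u.1 u.1 hsm hsm).2.2.2.2.2.2.2.2.2.2.2.2 hA x
    show -(DD A (DD A u.1) x) = Lap u.1 x
    rw [h, neg_neg]

end

end PO5_

open PO5_ in
theorem po5_proof (hSMO : Stmt_SMO) (hPO1 : Stmt_PO1) : Stmt_PO5 := by
  intro D X _ _ A M Q τ ω x hA hQ
  have hn := NN_nil hSMO hPO1 A M
  have key := alg (NN hSMO hPO1 A M) M hn ω τ
  set N := NN hSMO hPO1 A M with hN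
  let v : VV (D := D) (X := X) hSMO M := ⟨Q, hQ⟩
  set B := ∑ q ∈ Finset.range M, bq ω τ q • N ^ q with hB
  set T := ∑ l ∈ Finset.range M, ((τ / 4) ^ l / l.factorial : ℝ) • (-(N * N)) ^ l with hT
  set Cc := ∑ r ∈ Finset.range M, ((-1) ^ r * ω ^ (2 * r) / (2 * r).factorial : ℝ) •
    (-(N * N)) ^ r with hC
  set Ss := ∑ r ∈ Finset.range M, ((-1) ^ r * ω ^ (2 * r + 1) / (2 * r + 1).factorial : ℝ) •
    (-(N * N)) ^ r with hSs
  have cB : (B v).1 = fun y => ∑ q ∈ Finset.range M, bq ω τ q • ((DD A)^[q] Q) y := by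
    funext y
    rw [hB, LinearMap.sum_apply, Submodule.coe_sum, Finset.sum_apply]
    refine Finset.sum_congr rfl fun q _ => ?_
    show bq ω τ q • ((N ^ q) v).1 y = _
    rw [hN, NN_pow_coe]
  have cT : ∀ u : VV (D := D) (X := X) hSMO M, (T u).1 = Tp M τ u.1 := by
    intro u
    funext y
    rw [hT, LinearMap.sum_apply, Submodule.coe_sum, Finset.sum_apply]
    unfold Tp
    refine Finset.sum_congr rfl fun l _ => ?_
    show ((τ / 4) ^ l / l.factorial : ℝ) • (((-(N * N)) ^ l) u).1 y = _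
    rw [hN, Lap_coe hSMO hPO1 A hA]
  have cC : ∀ u : VV (D := D) (X := X) hSMO M, (Cc (T u)).1 = Ch M ω τ u.1 := by
    intro u
    funext y
    rw [hC, LinearMap.sum_apply, Submodule.coe_sum, Finset.sum_apply]
    unfold Ch
    refine Finset.sum_congr rfl fun r _ => ?_
    show ((-1) ^ r * ω ^ (2 * r) / (2 * r).factorial : ℝ) • (((-(N * N)) ^ r) (T u)).1 y = _
    rw [hN, Lap_coe hSMO hPO1 A hA, cT]
  have cS : ∀ u : VV (D := D) (X := X) hSMO M, (Ss (T u)).1 = Sh M ω τ u.1 := by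
    intro u
    funext y
    rw [hSs, LinearMap.sum_apply, Submodule.coe_sum, Finset.sum_apply]
    unfold Sh
    refine Finset.sum_congr rfl fun r _ => ?_
    show ((-1) ^ r * ω ^ (2 * r + 1) / (2 * r + 1).factorial : ℝ) •
      (((-(N * N)) ^ r) (T u)).1 y = _
    rw [hN, Lap_coe hSMO hPO1 A hA, cT]
  have h1 : ((Cc + N * Ss) * T * B) v = v := by rw [key]; rfl
  have h2 : (Cc (T (B v))) + N (Ss (T (B v))) = v := h1
  have h3 := congrFun (congrArg Subtype.val h2) x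
  have h4 : (Cc (T (B v))).1 x + DD A (Ss (T (B v))).1 x = Q x := h3
  rw [cC, cS, cB] at h4
  exact h4

end Pool.Agent.HBW
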