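import Pool.Agent.HBW.Stmts

/-!
Squad HBW, module RS1: one dimensional upper Riemann sums of Gaussians.
-/

set_option autoImplicit false

namespace Pool.Agent.HBW

open MeasureTheory Set Filter Topology
open scoped ENNReal Real

namespace RS1_

/-- sum of a Gaussian over the positive integers -/
lemma gsum (lam : ℝ) (hl : 0 < lam) (n : ℕ) :
    ∑ i ∈ Finset.range n, Real.exp (-lam * ((i : ℝ) + 1) ^ 2) ≤ Real.sqrt (π / lam) / 2 := by
  have hanti : AntitoneOn (fun x : ℝ => Real.exp (-lam * x ^ 2)) (Icc (0 : ℝ) (0 + n)) := by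
    intro x hx y hy hxy
    apply Real.exp_le_exp.2
    have h1 : x ^ 2 ≤ y ^ 2 := pow_le_pow_left₀ hx.1 hxy 2
    nlinarith
  have h1 := hanti.sum_le_integral
  have h2 : ∑ i ∈ Finset.range n, Real.exp (-lam * ((i : ℝ) + 1) ^ 2) =
      ∑ i ∈ Finset.range n, (fun x : ℝ => Real.exp (-lam * x ^ 2)) (0 + ((i + 1 : ℕ) : ℝ)) := by
    apply Finset.sum_congr rfl
    intro i _
    simp
  rw [h2]
  refine h1.trans ?_
  rw [← integral_gaussian_Ioi lam, intervalIntegral.integral_of_le (by simp)]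
  apply setIntegral_mono_set (integrable_exp_neg_mul_sq hl).integrableOn
  · filter_upwards with x
    exact (Real.exp_pos _).le
  · exact Filter.Eventually.of_forall fun x hx => hx.1

/-- the step bound on the half line -/
noncomputable def b (T : ℕ) (κ : ℝ) (m0 m : ℕ) : ℝ :=
  if m ≤ m0 then 1 else Real.exp (-κ * (((m - m0 - 1 : ℕ) : ℝ) / T) ^ 2)

lemma b_nonneg (T : ℕ) (κ : ℝ) (m0 m : ℕ) : 0 ≤ b T κ m0 m := by
  unfold b
  split_ifs
  · exact zero_le_one
  · exact (Real.exp_pos _).le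

lemma b_point (T : ℕ) (κ c : ℝ) (hT : 1 ≤ T) (hκ : 0 < κ) (hc : 0 ≤ c) (m : ℕ) (y : ℝ)
    (hy : (m : ℝ) / T ≤ y) :
    Real.exp (-κ * y ^ 2 + c * y) ≤
      Real.exp (c ^ 2 / (4 * κ)) * b T κ ⌊T * (c / (2 * κ))⌋₊ m := by
  have hTp : (0 : ℝ) < T := by exact_mod_cast hT
  have hx0 : 0 ≤ T * (c / (2 * κ)) := by positivity
  have hsq : -κ * y ^ 2 + c * y = c ^ 2 / (4 * κ) + -κ * (y - c / (2 * κ)) ^ 2 := by
    field_simp
    ring
  rw [hsq, Real.exp_add]
  apply mul_le_mul_of_nonneg_left _ (Real.exp_pos _).le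
  unfold b
  split_ifs with h
  · rw [Real.exp_le_one_iff]
    nlinarith [sq_nonneg (y - c / (2 * κ))]
  · have h := not_le.1 h
    apply Real.exp_le_exp.2
    have h1 : T * (c / (2 * κ)) < (⌊T * (c / (2 * κ))⌋₊ : ℝ) + 1 := Nat.lt_floor_add_one _
    have h2 : (((m - ⌊T * (c / (2 * κ))⌋₊ - 1 : ℕ) : ℝ)) =
        (m : ℝ) - ⌊T * (c / (2 * κ))⌋₊ - 1 := by
      rw [Nat.cast_sub (by omega), Nat.cast_sub (by omega)]
      simp
    have h3 : ((m - ⌊T * (c / (2 * κ))⌋₊ - 1 : ℕ) : ℝ) / T ≤ y - c / (2 * κ) := by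
      rw [h2, div_le_iff₀ hTp]
      have h4 := (div_le_iff₀ hTp).1 hy
      have h5 : (y - c / (2 * κ)) * T = y * T - T * (c / (2 * κ)) := by ring
      rw [h5]
      linarith
    have h6 : (0 : ℝ) ≤ ((m - ⌊T * (c / (2 * κ))⌋₊ - 1 : ℕ) : ℝ) / T := by positivity
    have h7 := pow_le_pow_left₀ h6 h3 2
    nlinarith

lemma b_sum (T : ℕ) (κ : ℝ) (hT : 1 ≤ T) (hκ : 0 < κ) (m0 : ℕ) :
    Summable (b T κ m0) ∧ ∑' m, b T κ m0 m ≤ m0 + 2 + T * Real.sqrt (π / κ) / 2 := by
  have hTp : (0 : ℝ) < T := by exact_mod_cast hT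
  have hl : 0 < κ / (T : ℝ) ^ 2 := by positivity
  have hsq : Real.sqrt (π / (κ / (T : ℝ) ^ 2)) = T * Real.sqrt (π / κ) := by
    have : π / (κ / (T : ℝ) ^ 2) = (T : ℝ) ^ 2 * (π / κ) := by field_simp
    rw [this, Real.sqrt_mul (by positivity), Real.sqrt_sq hTp.le]
  have hb : ∀ n, ∑ i ∈ Finset.range n, b T κ m0 i ≤
      m0 + 2 + T * Real.sqrt (π / κ) / 2 := by
    intro n
    have h1 : ∑ i ∈ Finset.range n, b T κ m0 i ≤ ∑ i ∈ Finset.range (m0 + 1 + (n + 1)),
        b T κ m0 i := by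
      apply Finset.sum_le_sum_of_subset_of_nonneg
      · apply Finset.range_subset_range.2
        omega
      · intro i _ _
        exact b_nonneg _ _ _ _
    refine h1.trans ?_
    rw [Finset.sum_range_add]
    have h2 : ∑ x ∈ Finset.range (m0 + 1), b T κ m0 x = (m0 : ℝ) + 1 := by
      have : ∀ x ∈ Finset.range (m0 + 1), b T κ m0 x = 1 := by
        intro x hx
        have hx' : x ≤ m0 := by
          have := Finset.mem_range.1 hx
          omega
        unfold b
        rw [if_pos hx']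
      rw [Finset.sum_congr rfl this]
      simp
    have h3 : ∀ x : ℕ, b T κ m0 (m0 + 1 + x) = Real.exp (-(κ / (T : ℝ) ^ 2) * (x : ℝ) ^ 2) := by
      intro x
      unfold b
      rw [if_neg (by omega)]
      have : m0 + 1 + x - m0 - 1 = x := by omega
      rw [this]
      congr 1
      field_simp
    have h4 : ∑ x ∈ Finset.range (n + 1), b T κ m0 (m0 + 1 + x) ≤
        1 + T * Real.sqrt (π / κ) / 2 := by
      rw [Finset.sum_range_succ']
      have h5 : b T κ m0 (m0 + 1 + 0) = 1 := by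
        rw [h3]
        simp
      rw [h5]
      have h6 := gsum (κ / (T : ℝ) ^ 2) hl n
      rw [hsq] at h6
      have h7 : ∑ k ∈ Finset.range n, b T κ m0 (m0 + 1 + (k + 1)) =
          ∑ i ∈ Finset.range n, Real.exp (-(κ / (T : ℝ) ^ 2) * ((i : ℝ) + 1) ^ 2) := by
        apply Finset.sum_congr rfl
        intro i _
        rw [h3]
        push_cast
        rfl
      rw [h7]
      linarith
    rw [h2]
    linarith
  exact ⟨summable_of_sum_range_le (b_nonneg T κ m0) hb,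
    Real.tsum_le_of_sum_range_le (b_nonneg T κ m0) hb⟩

/-- index of the cell on the half line -/
def ix : ℤ → ℕ
  | Int.ofNat n => n
  | Int.negSucc n => n

lemma ix_nat (n : ℕ) : ix (n : ℤ) = n := rfl

lemma ix_neg (n : ℕ) : ix (-((n : ℤ) + 1)) = n := by
  have : (-((n : ℤ) + 1)) = Int.negSucc n := (Int.negSucc_eq n).symm
  rw [this]
  rfl

end RS1_

open RS1_ in
theorem rs1_proof : Stmt_RS1 := by
  intro T κ c hT hκ hc
  have hTp : (0 : ℝ) < T := by exact_mod_cast hT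
  obtain ⟨hsum, hle⟩ := b_sum T κ hT hκ ⌊T * (c / (2 * κ))⌋₊
  have hbp := fun (m : ℕ) (y : ℝ) (hy : (m : ℝ) / T ≤ y) => b_point T κ c hT hκ hc m y hy
  have hfl : (⌊T * (c / (2 * κ))⌋₊ : ℝ) ≤ T * (c / (2 * κ)) := Nat.floor_le (by positivity)
  generalize ⌊T * (c / (2 * κ))⌋₊ = m0 at hsum hle hbp hfl
  refine ⟨fun j => Real.exp (c ^ 2 / (4 * κ)) * b T κ m0 (ix j), ?_, ?_, ?_⟩
  · intro j
    exact mul_nonneg (Real.exp_pos _).le (b_nonneg _ _ _ _)
  · intro j x h1 h2
    have h3 : -κ * x ^ 2 + c * |x| = -κ * |x| ^ 2 + c * |x| := by rw [sq_abs]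
    rw [h3]
    apply hbp
    rcases j with n | n
    · show ((n : ℕ) : ℝ) / T ≤ |x|
      have h4 : ((Int.ofNat n : ℤ) : ℝ) = (n : ℝ) := by simp
      rw [h4] at h1
      exact h1.trans (le_abs_self x)
    · show ((n : ℕ) : ℝ) / T ≤ |x|
      have h4 : ((Int.negSucc n : ℤ) : ℝ) = -((n : ℝ) + 1) := by
        rw [Int.cast_negSucc]
        push_cast
        ring
      rw [h4] at h2
      have h5 : x ≤ -((n : ℝ) / T) := by
        refine h2.trans (le_of_eq ?_)
        field_simp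
        ring
      have h6 : (n : ℝ) / T ≤ -x := by linarith
      exact h6.trans (neg_le_abs x)
  · set E := Real.exp (c ^ 2 / (4 * κ)) with hE
    have hEp : 0 < E := Real.exp_pos _
    have hs := hsum.hasSum.mul_left E
    have hpos : HasSum (fun n : ℕ => (fun j : ℤ => E * b T κ m0 (ix j)) (n : ℤ))
        (E * ∑' m, b T κ m0 m) := by
      simp only [ix_nat]
      exact hs
    have hneg : HasSum (fun n : ℕ => (fun j : ℤ => E * b T κ m0 (ix j)) (-((n : ℤ) + 1)))
        (E * ∑' m, b T κ m0 m) := by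
      simp only [ix_neg]
      exact hs
    have htot : HasSum (fun j : ℤ => E * b T κ m0 (ix j))
        (E * ∑' m, b T κ m0 m + E * ∑' m, b T κ m0 m) :=
      HasSum.of_nat_of_neg_add_one (f := fun j : ℤ => E * b T κ m0 (ix j)) hpos hneg
    refine ⟨htot.summable, ?_⟩
    rw [htot.tsum_eq]
    have h2 : E * ∑' m, b T κ m0 m ≤ E * (m0 + 2 + T * Real.sqrt (π / κ) / 2) :=
      mul_le_mul_of_nonneg_left hle hEp.le
    have h3 : E * (m0 + 2 + T * Real.sqrt (π / κ) / 2) ≤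
        E * (T * (c / (2 * κ)) + 2 + T * Real.sqrt (π / κ) / 2) :=
      mul_le_mul_of_nonneg_left (by linarith) hEp.le
    have h4 : T * (E * (Real.sqrt (π / κ) + c / κ + 4 / T)) =
        2 * (E * (T * (c / (2 * κ)) + 2 + T * Real.sqrt (π / κ) / 2)) := by
      field_simp
      ring
    rw [h4]
    linarith

end Pool.Agent.HBW
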