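import Pool.Agent.HBW.Stmts

/-! HBW, module SEQ (helper68): existence of a run of the construction. -/

set_option autoImplicit false

namespace Pool.Agent.HBW

open MeasureTheory Set Filter Topology
open scoped ENNReal Real

namespace SEQ_

variable {D : ℕ} {X : Type} [NormedAddCommGroup X] [NormedSpace ℝ X]

theorem pdw_scale (h : ∀ w : List (Fin D), ∀ f : P D → X, Smo f → Smo (pdw w f)) (f : P D → X)
    (hf : Smo f) (c : ℝ) : ∀ w : List (Fin D),
    pdw w (fun x => f (c • x)) = fun x => c ^ w.length • pdw w f (c • x)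
  | [] => by simp [pdw]
  | i :: w => by
    have ih := pdw_scale h f hf c w
    funext x
    simp only [pdw]
    rw [ih]
    unfold pd
    have hd : DifferentiableAt ℝ (pdw w f) (c • x) :=
      ((h w f hf).differentiable (by simp)) (c • x)
    have h1 : HasFDerivAt (fun x : P D => c • x) (c • ContinuousLinearMap.id ℝ (P D)) x :=
      (hasFDerivAt_id x).const_smul c
    have h2 : HasFDerivAt (fun x : P D => c ^ w.length • pdw w f (c • x))
        (c ^ w.length • (fderiv ℝ (pdw w f) (c • x)).comp (c • ContinuousLinearMap.id ℝ (P D))) x :=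
      (hd.hasFDerivAt.comp x h1).const_smul (c ^ w.length)
    rw [h2.fderiv]
    simp only [ContinuousLinearMap.smul_apply, ContinuousLinearMap.comp_apply,
      ContinuousLinearMap.id_apply, map_smul, List.length_cons]
    rw [smul_smul, ← pow_succ]

theorem smo_kap (n : ℕ) (hn : 2 ≤ n) (h0 : Stmt_KF0) (h1 : Stmt_KF1)
    (A : Fin (dm n) → (X →L[ℝ] X)) (c : X) : Smo (kap n A c) := by
  unfold kap
  refine ContDiff.add ?_ ?_
  · exact (h0 n hn []).1.smul contDiff_const
  · exact ContDiff.sum fun i _ => (h1 n hn [i]).1.smul contDiff_const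

theorem smo_stp (n : ℕ) (hn : 2 ≤ n) (h0 : Stmt_KF0) (h1 : Stmt_KF1)
    (A : Fin (dm n) → (X →L[ℝ] X)) (S : Finset (Z (dm n))) (F : P (dm n) → X) (hF : Smo F) :
    Smo (stp n A S F) := by
  unfold stp
  refine hF.add (ContDiff.sum fun k _ => ?_)
  exact (smo_kap n hn h0 h1 A _).comp (contDiff_id.sub contDiff_const)

/-- the invariant of the recursion -/
def Inv (n N0 : ℕ) (B0 : ℝ) (j : ℕ)
    (s : (P (dm n) → X) × Finset (Z (dm n)) × (Z (dm n) → ℝ)) : Prop :=
  Smo s.1 ∧ (∀ p, 0 ≤ s.2.2 p) ∧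
  (∀ p ∈ s.2.1, ∀ x ∈ cube n N0 j p, ∀ w : List (Fin (dm n)), w.length ≤ dm n →
    ‖pdw w s.1 x‖ ≤ s.2.2 p * (Rn n * Nj n N0 j) ^ w.length) ∧
  (∀ p ∈ s.2.1, s.2.2 p ≤ B0 * lam n ^ j)

/-- the relation between consecutive states -/
def Rel (n N0 : ℕ) (B0 : ℝ) (A : Fin (dm n) → (X →L[ℝ] X)) (j : ℕ)
    (s s' : (P (dm n) → X) × Finset (Z (dm n)) × (Z (dm n) → ℝ)) : Prop :=
  s'.1 = stepN n A s.2.1 s.1 (Nj n N0 (j + 1)) ∧
  (∀ q, q ∈ s'.2.1 ↔ q ∈ chd n s.2.1 ∧ GC n s.2.1 q ∧ s'.2.2 q ≤ B0 * lam n ^ (j + 1)) ∧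
  open scoped Classical in
    ∑ q ∈ (chd n s.2.1).filter (GC n s.2.1), Real.sqrt (s'.2.2 q) ≤
      thh n * (rho n : ℝ) ^ dm n * ∑ p ∈ s.2.1, Real.sqrt (s.2.2 p)

theorem rho_pos (n : ℕ) (hn : 2 ≤ n) : 0 < rho n := by
  unfold rho
  positivity

theorem Nj_pos (n N0 j : ℕ) (hn : 2 ≤ n) (hN : 1 ≤ N0) : 0 < Nj n N0 j := by
  unfold Nj
  have := rho_pos n hn
  positivity

theorem Nj_succ (n N0 j : ℕ) : ((Nj n N0 (j + 1) : ℕ) : ℝ) = Nj n N0 j * ((n : ℝ) ^ 4 * 2 ^ n) := by
  unfold Nj rho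
  push_cast
  ring

end SEQ_

open SEQ_ in
open scoped Classical in
theorem seq_proof (hONE : Stmt_ONE) (hSMO : Stmt_SMO) (hKF0 : Stmt_KF0) (hKF1 : Stmt_KF1) :
    Stmt_SEQ := by
  obtain ⟨n1, h1⟩ := hONE
  refine ⟨max n1 2, fun n hn X _ _ _ A N0 B0 f0 hA hN0 hB0 hf0 hjet => ?_⟩
  have hn1 : n1 ≤ n := le_trans (le_max_left _ _) hn
  have hn2 : 2 ≤ n := le_trans (le_max_right _ _) hn
  have hn0 : (0 : ℝ) < n := by exact_mod_cast (by omega : 0 < n)
  have hsm : ∀ w : List (Fin (dm n)), ∀ f : P (dm n) → X, Smo f → Smo (pdw w f) :=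
    fun w f hf => (hSMO (dm n) X A f f hf hf).2.1 w
  have hdm : ((dm n : ℕ) : ℝ) = (n : ℝ) ^ 4 := by unfold dm; push_cast; ring
  have hdm0 : (0 : ℝ) < (n : ℝ) ^ 4 := by positivity
  have h2n : (0 : ℝ) < (2 : ℝ) ^ n := by positivity
  have hNp : ∀ j, (0 : ℝ) < (Nj n N0 j : ℕ) := fun j => by exact_mod_cast Nj_pos n N0 j hn2 hN0
  -- the step
  have hstep : ∀ (j : ℕ) (s : {s : (P (dm n) → X) × Finset (Z (dm n)) × (Z (dm n) → ℝ) //
      Inv n N0 B0 j s}), ∃ s' : {s : (P (dm n) → X) × Finset (Z (dm n)) × (Z (dm n) → ℝ) //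
      Inv n N0 B0 (j + 1) s}, Rel n N0 B0 A j s.1 s'.1 := by
    rintro j ⟨⟨f, S, a⟩, hf, ha, hj, hle⟩
    simp only at hf ha hj hle
    set N : ℝ := ((Nj n N0 (j + 1) : ℕ) : ℝ) with hN
    have hNpos : 0 < N := hNp (j + 1)
    have hNs : N = Nj n N0 j * ((n : ℝ) ^ 4 * 2 ^ n) := Nj_succ n N0 j
    set F : P (dm n) → X := fun z => f (N⁻¹ • z) with hF
    have hFs : Smo F := hf.comp (contDiff_const_smul (N⁻¹ : ℝ))
    have hFj : ∀ p ∈ S, ∀ z ∈ Pb n p, ∀ w : List (Fin (dm n)), w.length ≤ dm n →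
        ‖pdw w F z‖ ≤ a p * dl n ^ w.length := by
      intro p hp z hz w hw
      rw [hF, pdw_scale hsm f hf]
      simp only
      rw [norm_smul, norm_pow, norm_inv, Real.norm_of_nonneg hNpos.le]
      have hzc : N⁻¹ • z ∈ cube n N0 j p := by
        intro i
        have h := hz i
        rw [hdm]
        simp only [Pi.smul_apply, smul_eq_mul]
        have hq := hNp j
        constructor
        · rw [div_le_iff₀ (by positivity), inv_mul_eq_div, div_mul_eq_mul_div, le_div_iff₀ hNpos,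
            hNs]
          have := h.1
          nlinarith [mul_le_mul_of_nonneg_left this (by positivity : (0:ℝ) ≤ (n:ℝ)^4 * (Nj n N0 j : ℕ))]
        · rw [inv_mul_eq_div, div_le_div_iff₀ hNpos (by positivity), hNs]
          have := h.2
          nlinarith [mul_le_mul_of_nonneg_left this (by positivity : (0:ℝ) ≤ (n:ℝ)^4 * (Nj n N0 j : ℕ))]
      have h2 := hj p hp _ hzc w hw
      refine (mul_le_mul_of_nonneg_left h2 (by positivity)).trans (le_of_eq ?_)
      have hdl : dl n = N⁻¹ * (Rn n * (Nj n N0 j : ℕ)) := by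
        rw [hNs]
        unfold dl Rn
        have hq := (hNp j).ne'
        field_simp
      rw [hdl, mul_pow N⁻¹]
      ring
    obtain ⟨a', ha', hj', hs'⟩ := h1 n hn1 X A S F a hA hFs ha hFj
    have hst : Smo (stp n A S F) := smo_stp n hn2 hKF0 hKF1 A S F hFs
    refine ⟨⟨⟨stepN n A S f N, (chd n S).filter (fun q => GC n S q ∧ a' q ≤ B0 * lam n ^ (j + 1)),
      a'⟩, ?_, ?_, ?_, ?_⟩, rfl, ?_, ?_⟩
    · exact hst.comp (contDiff_const_smul (N : ℝ))
    · exact ha'
    · intro q hq x hx w hw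
      simp only [Finset.mem_filter] at hq
      have e : pdw w (stepN n A S f N) x = N ^ w.length • pdw w (stp n A S F) (N • x) := by
        have := congrFun (pdw_scale hsm (stp n A S F) hst N w) x
        exact this
      rw [e, norm_smul, norm_pow, Real.norm_of_nonneg hNpos.le]
      have hxc : N • x ∈ Cb n q := by
        intro i
        have h := hx i
        rw [hdm] at h ⊢
        simp only [Pi.smul_apply, smul_eq_mul]
        constructor
        · have := h.1
          rw [div_le_iff₀ (by positivity)] at this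
          rw [div_le_iff₀ (by positivity)]
          nlinarith
        · have := h.2
          rw [le_div_iff₀ (by positivity)] at this
          rw [le_div_iff₀ (by positivity)]
          nlinarith
      have h2 := hj' q hq.1 hq.2.1 _ hxc w hw
      refine (mul_le_mul_of_nonneg_left h2 (by positivity)).trans (le_of_eq ?_)
      simp only
      rw [mul_pow]
      ring
    · intro p hp
      simp only [Finset.mem_filter] at hp
      exact hp.2.2
    · intro q
      simp only [Finset.mem_filter]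
    · exact hs'
  choose nxt hnxt using hstep
  -- the initial state
  have hinit : Inv n N0 B0 0 (⟨f0, Fintype.piFinset fun _ => Finset.Ico (0 : ℤ) (dm n * N0),
      fun _ => 2⟩ : (P (dm n) → X) × Finset (Z (dm n)) × (Z (dm n) → ℝ)) := by
    refine ⟨hf0, fun _ => by norm_num, ?_, fun p _ => by simpa using hB0⟩
    intro p _ x _ w hw
    refine (hjet w hw x).trans ?_
    simp only
    have hNj : ((Nj n N0 0 : ℕ) : ℝ) = N0 := by unfold Nj; simp
    rw [hNj]
    have hR : 1 ≤ Rn n := by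
      unfold Rn
      exact one_le_pow₀ (by exact_mod_cast (by omega : 1 ≤ n))
    have hle : (N0 : ℝ) ≤ Rn n * N0 := by
      have : (0 : ℝ) ≤ N0 := Nat.cast_nonneg _
      nlinarith
    have := pow_le_pow_left₀ (Nat.cast_nonneg N0 : (0 : ℝ) ≤ N0) hle w.length
    linarith
  let st : ∀ j, {s : (P (dm n) → X) × Finset (Z (dm n)) × (Z (dm n) → ℝ) // Inv n N0 B0 j s} :=
    fun j => Nat.rec ⟨_, hinit⟩ (fun j s => nxt j s) j
  refine ⟨fun j => (st j).1.1, fun j => (st j).1.2.1, fun j => (st j).1.2.2, ?_, rfl⟩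
  have hrel : ∀ j, Rel n N0 B0 A j (st j).1 (st (j + 1)).1 := fun j => hnxt j (st j)
  refine ⟨fun j => (st j).2.1, fun j => (st j).2.2.1, ?_, ?_, fun j => (hrel j).1,
    fun j => (st j).2.2.2.1, fun j => (st j).2.2.2.2, fun j => (hrel j).2.1, fun j => (hrel j).2.2⟩
  · intro p
    change p ∈ (Fintype.piFinset fun _ => Finset.Ico (0 : ℤ) (dm n * N0)) ↔ _
    simp [Fintype.mem_piFinset]
  · intro p _
    exact le_refl (2 : ℝ)

end Pool.Agent.HBW
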