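import Pool.Agent.HBW.Stmts

set_option autoImplicit false

namespace Pool.Agent.HBW

open MeasureTheory Set Filter Topology
open scoped ENNReal Real

namespace SMO_

variable {D : ℕ} {X : Type} [NormedAddCommGroup X] [NormedSpace ℝ X]

theorem smo_pd {f : P D → X} (hf : Smo f) (i : Fin D) : Smo (pd i f) := by
  unfold pd
  have h1 : ContDiff ℝ ((⊤ : ℕ∞) : WithTop ℕ∞) (fderiv ℝ f) :=
    hf.fderiv_right (m := ((⊤ : ℕ∞) : WithTop ℕ∞)) (by simp)
  exact h1.clm_apply contDiff_const

theorem smo_pdw {f : P D → X} (hf : Smo f) (w : List (Fin D)) : Smo (pdw w f) := by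
  induction w with
  | nil => exact hf
  | cons i w ih => exact smo_pd ih i

theorem smo_diff {f : P D → X} (hf : Smo f) : Differentiable ℝ f :=
  hf.differentiable (by simp)

theorem pd_comm {f : P D → X} (hf : Smo f) (i j : Fin D) : pd i (pd j f) = pd j (pd i f) := by
  funext x
  have h1 : ContDiff ℝ ((⊤ : ℕ∞) : WithTop ℕ∞) (fderiv ℝ f) :=
    hf.fderiv_right (m := ((⊤ : ℕ∞) : WithTop ℕ∞)) (by simp)
  have hd : DifferentiableAt ℝ (fderiv ℝ f) x := (h1.differentiable (by simp)) x
  have key : ∀ a b : P D, fderiv ℝ (fun y => fderiv ℝ f y a) x b =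
      fderiv ℝ (fderiv ℝ f) x b a := by
    intro a b
    have h2 : HasFDerivAt (fun y => fderiv ℝ f y a)
        ((fderiv ℝ (fderiv ℝ f) x).flip a) x := by
      simpa using hd.hasFDerivAt.clm_apply (hasFDerivAt_const a x)
    rw [h2.fderiv]
    rfl
  have hs : IsSymmSndFDerivAt ℝ f x := by
    have h3 : ContDiffAt ℝ 2 f x := (contDiff_infty.mp hf 2).contDiffAt
    exact ContDiffAt.isSymmSndFDerivAt (n := 2) h3 (by simp)
  show fderiv ℝ (fun y => fderiv ℝ f y (Pi.single j 1)) x (Pi.single i 1) =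
    fderiv ℝ (fun y => fderiv ℝ f y (Pi.single i 1)) x (Pi.single j 1)
  rw [key, key]
  exact hs _ _

theorem pdw_append (f : P D → X) (w w' : List (Fin D)) :
    pdw (w ++ w') f = pdw w (pdw w' f) := by
  induction w with
  | nil => rfl
  | cons i w ih =>
    show pd i (pdw (w ++ w') f) = pd i (pdw w (pdw w' f))
    rw [ih]

theorem pdw_perm {f : P D → X} (hf : Smo f) {w w' : List (Fin D)} (h : w.Perm w') :
    pdw w f = pdw w' f := by
  induction h with
  | nil => rfl
  | cons a h ih =>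
    show pd a (pdw _ f) = pd a (pdw _ f)
    rw [ih]
  | swap a b l => exact pd_comm (smo_pdw hf l) b a
  | trans h1 h2 ih1 ih2 => exact ih1.trans ih2

theorem pd_add {f g : P D → X} (hf : Differentiable ℝ f) (hg : Differentiable ℝ g) (i : Fin D) :
    pd i (fun x => f x + g x) = fun x => pd i f x + pd i g x := by
  funext x
  have h := (hf x).hasFDerivAt.add (hg x).hasFDerivAt
  show fderiv ℝ (fun x => f x + g x) x _ = _
  have h2 : fderiv ℝ (fun x => f x + g x) x = fderiv ℝ f x + fderiv ℝ g x := h.fderiv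
  rw [h2]
  rfl

theorem pd_smul {f : P D → X} (hf : Differentiable ℝ f) (c : ℝ) (i : Fin D) :
    pd i (fun x => c • f x) = fun x => c • pd i f x := by
  funext x
  have h := (hf x).hasFDerivAt.const_smul c
  show fderiv ℝ (fun x => c • f x) x _ = _
  have h2 : fderiv ℝ (fun x => c • f x) x = c • fderiv ℝ f x := h.fderiv
  rw [h2]
  rfl

theorem pd_clm {Y : Type} [NormedAddCommGroup Y] [NormedSpace ℝ Y]
    {f : P D → X} (hf : Differentiable ℝ f) (B : X →L[ℝ] Y) (i : Fin D) :
    pd i (fun x => B (f x)) = fun x => B (pd i f x) := by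
  funext x
  have h := B.hasFDerivAt.comp x (hf x).hasFDerivAt
  show fderiv ℝ (fun x => B (f x)) x _ = _
  have h2 : fderiv ℝ (fun x => B (f x)) x = B.comp (fderiv ℝ f x) := h.fderiv
  rw [h2]
  rfl

theorem pd_sum {ι : Type} (s : Finset ι) {F : ι → P D → X} (hF : ∀ a, Differentiable ℝ (F a))
    (i : Fin D) : pd i (fun x => ∑ a ∈ s, F a x) = fun x => ∑ a ∈ s, pd i (F a) x := by
  funext x
  show fderiv ℝ (fun x => ∑ a ∈ s, F a x) x _ = _
  have h2 : fderiv ℝ (fun x => ∑ a ∈ s, F a x) x = ∑ a ∈ s, fderiv ℝ (F a) x :=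
    fderiv_fun_sum (fun a _ => hF a x)
  rw [h2, _root_.sum_apply]
  rfl

theorem pdw_add {f g : P D → X} (hf : Smo f) (hg : Smo g) (w : List (Fin D)) :
    pdw w (fun x => f x + g x) = fun x => pdw w f x + pdw w g x := by
  induction w with
  | nil => rfl
  | cons i w ih =>
    show pd i (pdw w (fun x => f x + g x)) = _
    rw [ih]
    exact pd_add (smo_diff (smo_pdw hf w)) (smo_diff (smo_pdw hg w)) i

theorem pdw_smul {f : P D → X} (hf : Smo f) (w : List (Fin D)) (c : ℝ) :
    pdw w (fun x => c • f x) = fun x => c • pdw w f x := by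
  induction w with
  | nil => rfl
  | cons i w ih =>
    show pd i (pdw w (fun x => c • f x)) = _
    rw [ih]
    exact pd_smul (smo_diff (smo_pdw hf w)) c i

theorem pdw_clm {Y : Type} [NormedAddCommGroup Y] [NormedSpace ℝ Y]
    {f : P D → X} (hf : Smo f) (w : List (Fin D)) (B : X →L[ℝ] Y) :
    pdw w (fun x => B (f x)) = fun x => B (pdw w f x) := by
  induction w with
  | nil => rfl
  | cons i w ih =>
    show pd i (pdw w (fun x => B (f x))) = _
    rw [ih]
    exact pd_clm (smo_diff (smo_pdw hf w)) B i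

theorem pdw_sum {ι : Type} (s : Finset ι) {F : ι → P D → X} (hF : ∀ a, Smo (F a))
    (w : List (Fin D)) :
    pdw w (fun x => ∑ a ∈ s, F a x) = fun x => ∑ a ∈ s, pdw w (F a) x := by
  induction w with
  | nil => rfl
  | cons i w ih =>
    show pd i (pdw w (fun x => ∑ a ∈ s, F a x)) = _
    rw [ih]
    exact pd_sum s (fun a => smo_diff (smo_pdw (hF a) w)) i

theorem smo_clm {Y : Type} [NormedAddCommGroup Y] [NormedSpace ℝ Y]
    {f : P D → X} (hf : Smo f) (B : X →L[ℝ] Y) : Smo (fun x => B (f x)) :=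
  B.contDiff.comp hf

theorem smo_DD {f : P D → X} (hf : Smo f) (A : Fin D → (X →L[ℝ] X)) : Smo (DD A f) := by
  unfold DD
  exact ContDiff.sum (fun i _ => smo_clm (smo_pd hf i) (A i))

theorem smo_Lap {f : P D → X} (hf : Smo f) : Smo (Lap f) := by
  unfold Lap
  exact ContDiff.sum (fun i _ => smo_pd (smo_pd hf i) i)

theorem pdw_pd {f : P D → X} (hf : Smo f) (w : List (Fin D)) (i : Fin D) :
    pdw w (pd i f) = pd i (pdw w f) := by
  have h1 : pdw w (pd i f) = pdw (w ++ [i]) f := (pdw_append f w [i]).symm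
  have h2 : pd i (pdw w f) = pdw (i :: w) f := rfl
  rw [h1, h2]
  exact pdw_perm hf (List.perm_append_singleton i w)

theorem pdw_DD {f : P D → X} (hf : Smo f) (A : Fin D → (X →L[ℝ] X)) (w : List (Fin D)) :
    pdw w (DD A f) = DD A (pdw w f) := by
  have h1 : pdw w (DD A f) = fun x => ∑ i, pdw w (fun y => A i (pd i f y)) x :=
    pdw_sum Finset.univ (F := fun i y => A i (pd i f y))
      (fun i => smo_clm (smo_pd hf i) (A i)) w
  rw [h1]
  funext x
  unfold DD
  refine Finset.sum_congr rfl (fun i _ => ?_)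
  rw [pdw_clm (smo_pd hf i) w (A i), pdw_pd hf w i]

theorem pdw_Lap {f : P D → X} (hf : Smo f) (w : List (Fin D)) :
    pdw w (Lap f) = Lap (pdw w f) := by
  have h1 : pdw w (Lap f) = fun x => ∑ i, pdw w (fun y => pd i (pd i f) y) x :=
    pdw_sum Finset.univ (F := fun i y => pd i (pd i f) y)
      (fun i => smo_pd (smo_pd hf i) i) w
  rw [h1]
  funext x
  unfold Lap
  refine Finset.sum_congr rfl (fun i _ => ?_)
  show pdw w (pd i (pd i f)) x = pd i (pd i (pdw w f)) x
  rw [pdw_pd (smo_pd hf i) w i, pdw_pd hf w i]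

theorem DD_DD {f : P D → X} (hf : Smo f) (A : Fin D → (X →L[ℝ] X)) (hA : Cliff A) (x : P D) :
    DD A (DD A f) x = -Lap f x := by
  have h1 : ∀ i, pd i (DD A f) x = ∑ j, A j (pd i (pd j f) x) := by
    intro i
    have h2 : pd i (DD A f) = fun x => ∑ j, pd i (fun y => A j (pd j f y)) x :=
      pd_sum Finset.univ (F := fun j y => A j (pd j f y))
        (fun j => smo_diff (smo_clm (smo_pd hf j) (A j))) i
    rw [h2]
    refine Finset.sum_congr rfl (fun j _ => ?_)
    rw [pd_clm (smo_diff (smo_pd hf j)) (A j) i]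
  have h3 : DD A (DD A f) x = ∑ i, ∑ j, A i (A j (pd i (pd j f) x)) := by
    show ∑ i, A i (pd i (DD A f) x) = _
    refine Finset.sum_congr rfl (fun i _ => ?_)
    rw [h1 i, map_sum]
  -- symmetrize
  have h4 : ∑ i, ∑ j, A i (A j (pd i (pd j f) x)) =
      ∑ i, ∑ j, A j (A i (pd i (pd j f) x)) := by
    rw [Finset.sum_comm]
    refine Finset.sum_congr rfl (fun i _ => Finset.sum_congr rfl (fun j _ => ?_))
    rw [pd_comm hf j i]
  have h5 : (2 : ℝ) • DD A (DD A f) x = (2 : ℝ) • (-Lap f x) := by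
    rw [two_smul]
    nth_rewrite 2 [h3]
    rw [h4, h3, ← Finset.sum_add_distrib]
    have h6 : ∀ i, (∑ j, A i (A j (pd i (pd j f) x)) + ∑ j, A j (A i (pd i (pd j f) x))) =
        -((2 : ℝ) • pd i (pd i f) x) := by
      intro i
      rw [← Finset.sum_add_distrib, Finset.sum_eq_single i]
      · rw [hA.sq]
        rw [two_smul]
        abel
      · intro j _ hj
        rw [hA.anti i j (Ne.symm hj)]
        abel
      · intro h
        exact absurd (Finset.mem_univ i) h
    rw [Finset.sum_congr rfl (fun i _ => h6 i), Finset.sum_neg_distrib, ← Finset.smul_sum,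
      smul_neg]
    rfl
  exact smul_right_injective X (two_ne_zero' ℝ) h5

end SMO_

open SMO_

/-- calculus of smooth functions -/
theorem smo_proof : Stmt_SMO := by
  intro D X _ _ A f g hf hg
  exact ⟨fun i => smo_pd hf i, fun w => smo_pdw hf w, fun i j => pd_comm hf i j,
    fun w w' h => pdw_perm hf h, fun w w' => pdw_append f w w', fun w => pdw_add hf hg w,
    fun w c => pdw_smul hf w c, fun w B => pdw_clm hf w B, smo_DD hf A, smo_Lap hf,
    fun w => pdw_DD hf A w, fun w => pdw_Lap hf w, fun hA x => DD_DD hf A hA x⟩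

end Pool.Agent.HBW
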