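import Pool.Agent.HBW.Stmts

/-!
# SU1: sums over children of kernel weights, local part
-/

set_option autoImplicit false

namespace Pool.Agent.HBW

open MeasureTheory Set Filter Topology
open scoped ENNReal Real

namespace SU1_

theorem sqrt_sum_le {ι : Type*} (s : Finset ι) (f : ι → ℝ) (hf : ∀ i, 0 ≤ f i) :
    Real.sqrt (∑ i ∈ s, f i) ≤ ∑ i ∈ s, Real.sqrt (f i) := by
  classical
  induction s using Finset.induction_on with
  | empty => simp
  | insert i s hi ih =>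
    rw [Finset.sum_insert hi, Finset.sum_insert hi]
    have h1 : 0 ≤ ∑ i ∈ s, f i := Finset.sum_nonneg fun i _ => hf i
    have h2 : Real.sqrt (f i + ∑ i ∈ s, f i) ≤ Real.sqrt (f i) + Real.sqrt (∑ i ∈ s, f i) := by
      rw [Real.sqrt_le_iff]
      refine ⟨by positivity, ?_⟩
      rw [add_sq, Real.sq_sqrt (hf i), Real.sq_sqrt h1]
      have := mul_nonneg (Real.sqrt_nonneg (f i)) (Real.sqrt_nonneg (∑ i ∈ s, f i))
      linarith
    linarith

/-- the cube of lattice points of a parent -/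
noncomputable def cb (n : ℕ) (p : Z (dm n)) : Finset (Z (dm n)) :=
  Fintype.piFinset fun i => Finset.Ico (p i * 2 ^ n) ((p i + 1) * 2 ^ n)

theorem pr_of_mem {n : ℕ} {p k : Z (dm n)} (h : k ∈ cb n p) : pr n k = p := by
  funext i
  have h1 := Finset.mem_Ico.1 (Fintype.mem_piFinset.1 h i)
  have h2 : (0 : ℤ) < 2 ^ n := by positivity
  show k i / 2 ^ n = p i
  refine le_antisymm ?_ ?_
  · have := (Int.ediv_lt_iff_lt_mul h2).2 h1.2
    omega
  · exact (Int.le_ediv_iff_mul_le h2).2 h1.1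

theorem mem_cb {n : ℕ} {p k : Z (dm n)} (h : pr n k = p) : k ∈ cb n p := by
  refine Fintype.mem_piFinset.2 fun i => Finset.mem_Ico.2 ?_
  have h2 : (0 : ℤ) < 2 ^ n := by positivity
  have h3 : k i / 2 ^ n = p i := congrFun h i
  constructor
  · exact (Int.le_ediv_iff_mul_le h2).1 h3.ge
  · exact (Int.ediv_lt_iff_lt_mul h2).1 (by omega)

theorem card_cb (n : ℕ) (p : Z (dm n)) : (cb n p).card = (2 ^ n) ^ dm n := by
  unfold cb
  rw [Fintype.card_piFinset]
  have h1 : ∀ i : Fin (dm n), (Finset.Ico (p i * 2 ^ n) ((p i + 1) * 2 ^ n)).card = 2 ^ n := by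
    intro i
    rw [Int.card_Ico]
    have h2 : (p i + 1) * 2 ^ n - p i * 2 ^ n = ((2 ^ n : ℕ) : ℤ) := by
      push_cast
      ring
    rw [h2, Int.toNat_natCast]
  simp only [h1]
  rw [Finset.prod_const, Finset.card_univ, Fintype.card_fin]

theorem maps {n : ℕ} {S : Finset (Z (dm n))} {k : Z (dm n)} (h : k ∈ ZA n S) : pr n k ∈ S := by
  classical
  unfold ZA at h
  obtain ⟨p, hp, hk⟩ := Finset.mem_biUnion.1 h
  rw [pr_of_mem (p := p) hk]
  exact hp

theorem sum_ZA (n : ℕ) (S : Finset (Z (dm n))) (f : Z (dm n) → ℝ) (hf : ∀ p, 0 ≤ f p) :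
    ∑ k ∈ ZA n S, f (pr n k) ≤ ((2 : ℝ) ^ n) ^ dm n * ∑ p ∈ S, f p := by
  classical
  rw [← Finset.sum_fiberwise_of_maps_to (g := pr n) (t := S) (fun k hk => maps hk), Finset.mul_sum]
  refine Finset.sum_le_sum fun p _ => ?_
  have h1 : ∑ k ∈ ZA n S with pr n k = p, f (pr n k) = ∑ k ∈ ZA n S with pr n k = p, f p :=
    Finset.sum_congr rfl fun k hk => by rw [(Finset.mem_filter.1 hk).2]
  rw [h1, Finset.sum_const, nsmul_eq_mul]
  refine mul_le_mul_of_nonneg_right ?_ (hf p)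
  have h2 : ({k ∈ ZA n S | pr n k = p}).card ≤ (2 ^ n) ^ dm n := by
    rw [← card_cb n p]
    exact Finset.card_le_card fun k hk => mem_cb (Finset.mem_filter.1 hk).2
  exact_mod_cast h2

end SU1_

open SU1_

theorem su1_proof : Stmt_SU1 := by
  classical
  intro n hn S a g ha hg hsum
  have hinj : ∀ k : Z (dm n), Function.Injective (fun q : Z (dm n) => q - (dm n : ℤ) • k) := by
    intro k q q' h
    exact sub_left_injective h
  have hq : ∀ (Q : Finset (Z (dm n))) (k : Z (dm n)),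
      ∑ q ∈ Q, Real.sqrt (g (q - (dm n : ℤ) • k)) ≤ ∑' j, Real.sqrt (g j) := by
    intro Q k
    have h1 : ∑ q ∈ Q, Real.sqrt (g (q - (dm n : ℤ) • k)) =
        ∑ j ∈ Q.map ⟨_, hinj k⟩, Real.sqrt (g j) := by
      rw [Finset.sum_map]
      rfl
    rw [h1]
    exact hsum.sum_le_tsum _ (fun _ _ => Real.sqrt_nonneg _)
  have htn : 0 ≤ ∑' j, Real.sqrt (g j) := tsum_nonneg fun _ => Real.sqrt_nonneg _
  have key : ∀ Q : Finset (Z (dm n)),
      ∑ q ∈ Q, Real.sqrt (∑ k ∈ (ZA n S).filter (nrk n q),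
        g (q - (dm n : ℤ) • k) * a (pr n k)) ≤
      (∑' j, Real.sqrt (g j)) * ((2 : ℝ) ^ n) ^ dm n * ∑ p ∈ S, Real.sqrt (a p) := by
    intro Q
    calc ∑ q ∈ Q, Real.sqrt (∑ k ∈ (ZA n S).filter (nrk n q),
          g (q - (dm n : ℤ) • k) * a (pr n k))
        ≤ ∑ q ∈ Q, ∑ k ∈ ZA n S, Real.sqrt (g (q - (dm n : ℤ) • k)) * Real.sqrt (a (pr n k)) := by
          refine Finset.sum_le_sum fun q _ => ?_
          refine (sqrt_sum_le _ _ fun k => mul_nonneg (hg _) (ha _)).trans ?_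
          refine (Finset.sum_le_sum_of_subset_of_nonneg (Finset.filter_subset _ _)
            (fun _ _ _ => Real.sqrt_nonneg _)).trans (le_of_eq ?_)
          refine Finset.sum_congr rfl fun k _ => ?_
          rw [Real.sqrt_mul (hg _)]
      _ = ∑ k ∈ ZA n S, (∑ q ∈ Q, Real.sqrt (g (q - (dm n : ℤ) • k))) * Real.sqrt (a (pr n k)) := by
          rw [Finset.sum_comm]
          refine Finset.sum_congr rfl fun k _ => ?_
          rw [Finset.sum_mul]
      _ ≤ ∑ k ∈ ZA n S, (∑' j, Real.sqrt (g j)) * Real.sqrt (a (pr n k)) :=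
          Finset.sum_le_sum fun k _ => mul_le_mul_of_nonneg_right (hq Q k) (Real.sqrt_nonneg _)
      _ = (∑' j, Real.sqrt (g j)) * ∑ k ∈ ZA n S, Real.sqrt (a (pr n k)) := by
          rw [Finset.mul_sum]
      _ ≤ (∑' j, Real.sqrt (g j)) * (((2 : ℝ) ^ n) ^ dm n * ∑ p ∈ S, Real.sqrt (a p)) :=
          mul_le_mul_of_nonneg_left
            (sum_ZA n S (fun p => Real.sqrt (a p)) fun _ => Real.sqrt_nonneg _) htn
      _ = _ := by ring
  have h := key ((chd n S).filter (GC n S))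
  refine le_trans (le_of_eq ?_) h
  refine Finset.sum_congr rfl fun q _ => ?_
  congr 1

end Pool.Agent.HBW
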