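import Pool.Agent.HBW.Stmts

/-!
Module SU2: sums over children of kernel weights, `L¹` part.
-/

set_option autoImplicit false

namespace Pool.Agent.HBW

open MeasureTheory Set Filter Topology
open scoped ENNReal Real

namespace SU2_

theorem sqrt_add_le (x y : ℝ) : Real.sqrt (x + y) ≤ Real.sqrt x + Real.sqrt y := by
  by_cases hx : 0 ≤ x
  · by_cases hy : 0 ≤ y
    · rw [Real.sqrt_le_left (by positivity)]
      have h1 := Real.sq_sqrt hx
      have h2 := Real.sq_sqrt hy
      have h3 := mul_nonneg (Real.sqrt_nonneg x) (Real.sqrt_nonneg y)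
      nlinarith
    · rw [Real.sqrt_eq_zero_of_nonpos (not_le.1 hy).le, add_zero]
      exact Real.sqrt_le_sqrt (by linarith)
  · rw [Real.sqrt_eq_zero_of_nonpos (not_le.1 hx).le, zero_add]
    exact Real.sqrt_le_sqrt (by linarith)

theorem sqrt_sum_le {ι : Type} (s : Finset ι) (f : ι → ℝ) :
    Real.sqrt (∑ i ∈ s, f i) ≤ ∑ i ∈ s, Real.sqrt (f i) := by
  classical
  induction s using Finset.induction_on with
  | empty => simp
  | insert i s hi ih =>
    rw [Finset.sum_insert hi, Finset.sum_insert hi]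
    exact (sqrt_add_le _ _).trans (by linarith)

/-- the numerical inequality -/
theorem num : ∃ n0 : ℕ, ∀ n ≥ n0,
    ((2 : ℝ) ^ n + 2 * rn n) ^ dm n ≤ 2 * ((2 : ℝ) ^ n) ^ dm n := by
  have h2 : (1 : ℝ) < Real.sqrt 2 := by
    rw [Real.lt_sqrt (by norm_num)]
    norm_num
  have h1 := tendsto_pow_const_div_const_pow_of_one_lt 4 h2
  have h3 : Tendsto (fun n : ℕ => 2 * Real.sqrt 2 * ((n : ℝ) ^ 4 / Real.sqrt 2 ^ n)) atTop
      (𝓝 (2 * Real.sqrt 2 * 0)) := h1.const_mul _
  rw [mul_zero] at h3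
  have h4 := h3.eventually (gt_mem_nhds (show (0 : ℝ) < 1 / 2 by norm_num))
  obtain ⟨n0, hn0⟩ := eventually_atTop.1 h4
  refine ⟨n0, fun n hn => ?_⟩
  have h5 := hn0 n hn
  have hp : (0 : ℝ) < 2 ^ n := by positivity
  have hs : (0 : ℝ) < Real.sqrt 2 ^ n := by positivity
  have hss : Real.sqrt 2 ^ n * Real.sqrt 2 ^ n = 2 ^ n := by
    rw [← mul_pow, Real.mul_self_sqrt (by norm_num)]
  have hrn : (rn n : ℝ) ≤ Real.sqrt 2 * Real.sqrt 2 ^ n := by
    have h6 : (rn n : ℝ) = Real.sqrt 2 ^ (2 * ((n + 1) / 2)) := by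
      rw [pow_mul, Real.sq_sqrt (by norm_num)]
      unfold rn
      push_cast
      rfl
    rw [h6, ← pow_succ']
    exact pow_le_pow_right₀ h2.le (by omega)
  set s : ℝ := 2 * rn n / 2 ^ n with hs'
  have hsD : s * dm n ≤ 1 / 2 := by
    refine le_trans ?_ h5.le
    have h7 : s ≤ 2 * Real.sqrt 2 / Real.sqrt 2 ^ n := by
      rw [hs', ← hss, div_le_div_iff₀ (by positivity) hs]
      nlinarith [mul_le_mul_of_nonneg_right hrn hs.le]
    have h8 : (dm n : ℝ) = (n : ℝ) ^ 4 := by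
      unfold dm
      push_cast
      rfl
    rw [h8]
    calc s * (n : ℝ) ^ 4 ≤ 2 * Real.sqrt 2 / Real.sqrt 2 ^ n * (n : ℝ) ^ 4 :=
          mul_le_mul_of_nonneg_right h7 (by positivity)
      _ = 2 * Real.sqrt 2 * ((n : ℝ) ^ 4 / Real.sqrt 2 ^ n) := by ring
  have h9 : (2 : ℝ) ^ n + 2 * rn n = 2 ^ n * (1 + s) := by
    rw [hs']
    field_simp
  rw [h9, mul_pow, mul_comm]
  have h10 : (1 + s) ^ dm n ≤ 2 := by
    calc (1 + s) ^ dm n ≤ Real.exp s ^ dm n := by
          refine pow_le_pow_left₀ (by positivity) ?_ _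
          rw [add_comm]
          exact Real.add_one_le_exp s
      _ = Real.exp (s * dm n) := by
          rw [← Real.exp_nat_mul, mul_comm]
      _ ≤ Real.exp (1 / 2) := Real.exp_le_exp.2 hsD
      _ ≤ 2 := by
          have h11 : Real.exp (1 / 2) ^ 2 ≤ 2 ^ 2 := by
            rw [← Real.exp_nat_mul]
            norm_num
            have := Real.exp_one_lt_d9
            linarith
          exact le_of_sq_le_sq h11 (by norm_num)
  exact mul_le_mul_of_nonneg_right h10 (by positivity)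

variable {n : ℕ}

/-- the cells near the parent `p` -/
noncomputable def Cp (n : ℕ) (p : Z (dm n)) : Finset (Z (dm n)) :=
  Fintype.piFinset fun i => Finset.Ico (p i * 2 ^ n - rn n) ((p i + 1) * 2 ^ n + rn n)

theorem card_Cp (p : Z (dm n)) : ((Cp n p).card : ℝ) = ((2 : ℝ) ^ n + 2 * rn n) ^ dm n := by
  unfold Cp
  rw [Fintype.card_piFinset]
  have h : ∀ i, (Finset.Ico (p i * 2 ^ n - (rn n : ℤ)) ((p i + 1) * 2 ^ n + rn n)).card =
      2 ^ n + 2 * rn n := by
    intro i
    rw [Int.card_Ico]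
    have h2 : (p i + 1) * 2 ^ n + (rn n : ℤ) - (p i * 2 ^ n - rn n) =
        ((2 ^ n + 2 * rn n : ℕ) : ℤ) := by
      push_cast
      ring
    rw [h2, Int.toNat_natCast]
  rw [Finset.prod_congr rfl fun i _ => h i]
  simp

/-- the cell of a child -/
def cl (n : ℕ) (q : Z (dm n)) : Z (dm n) := fun i => q i / (dm n : ℤ)

theorem near_cell (hD : 0 < dm n) (q k : Z (dm n)) (h : nrk n q k) : cl n q ∈ Cp n (pr n k) := by
  unfold Cp
  rw [Fintype.mem_piFinset]
  intro i
  have hD' : (0 : ℤ) < dm n := by exact_mod_cast hD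
  have hDr : (0 : ℝ) < dm n := by exact_mod_cast hD
  have h1 := abs_le.1 (h i)
  have h2 : (pr n k i) * 2 ^ n ≤ k i := Int.ediv_mul_le _ (by positivity)
  have h3 : k i < (pr n k i + 1) * 2 ^ n := Int.lt_ediv_add_one_mul_self _ (by positivity)
  have h4 : q i / (dm n : ℤ) * dm n ≤ q i := Int.ediv_mul_le _ (ne_of_gt hD')
  have h5 : q i < (q i / (dm n : ℤ) + 1) * dm n := Int.lt_ediv_add_one_mul_self _ hD'
  have h4' : ((q i / (dm n : ℤ) : ℤ) : ℝ) ≤ q i / dm n := by
    rw [le_div_iff₀ hDr]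
    exact_mod_cast h4
  have h5' : (q i : ℝ) / dm n < ((q i / (dm n : ℤ) : ℤ) : ℝ) + 1 := by
    rw [div_lt_iff₀ hDr]
    exact_mod_cast h5
  have h6 : (k i : ℝ) - rn n < ((q i / (dm n : ℤ) : ℤ) : ℝ) := by linarith [h1.1]
  have h7 : ((q i / (dm n : ℤ) : ℤ) : ℝ) ≤ (k i : ℝ) + rn n - 1 := by linarith [h1.2]
  have h6' : k i - rn n < q i / (dm n : ℤ) := by exact_mod_cast h6
  have h7' : q i / (dm n : ℤ) ≤ k i + rn n - 1 := by exact_mod_cast h7
  rw [Finset.mem_Ico]
  unfold cl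
  constructor
  · linarith
  · linarith

theorem inj_sub (hD : 0 < dm n) (q : Z (dm n)) :
    Function.Injective fun k : Z (dm n) => q - (dm n : ℤ) • k := by
  intro k k' h
  have hD' : (dm n : ℤ) ≠ 0 := by exact_mod_cast hD.ne'
  funext i
  have h1 := congrFun h i
  simp only [Pi.sub_apply, Pi.smul_apply, smul_eq_mul] at h1
  have h2 : (dm n : ℤ) * k i = dm n * k' i := by linarith
  exact mul_left_cancel₀ hD' h2

/-- the sum over one cell -/
theorem cell_sum (hD : 0 < dm n) (g : Z (dm n) → ℝ) (hg : ∀ j, 0 ≤ g j) (hs : Summable g)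
    (c : Z (dm n)) (F : Finset (Z (dm n))) (hF : ∀ q ∈ F, cl n q = c) :
    ∑ q ∈ F, Real.sqrt (∑' k : Z (dm n), g (q - (dm n : ℤ) • k)) ≤
      Real.sqrt ((dm n : ℝ) ^ dm n * ∑' j, g j) := by
  classical
  have hD' : (0 : ℤ) < dm n := by exact_mod_cast hD
  have hcard : (F.card : ℝ) ≤ (dm n : ℝ) ^ dm n := by
    have h1 : F ⊆ Fintype.piFinset fun i => Finset.Ico (c i * dm n) (c i * dm n + dm n) := by
      intro q hq
      rw [Fintype.mem_piFinset]
      intro i
      have h2 := congrFun (hF q hq) i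
      unfold cl at h2
      have h4 : q i / (dm n : ℤ) * dm n ≤ q i := Int.ediv_mul_le _ (ne_of_gt hD')
      have h5 : q i < (q i / (dm n : ℤ) + 1) * dm n := Int.lt_ediv_add_one_mul_self _ hD'
      rw [h2] at h4 h5
      rw [Finset.mem_Ico]
      constructor <;> linarith
    have h3 := Finset.card_le_card h1
    rw [Fintype.card_piFinset] at h3
    have h4 : ∀ i : Fin (dm n), (Finset.Ico (c i * (dm n : ℤ)) (c i * dm n + dm n)).card = dm n := by
      intro i
      rw [Int.card_Ico, add_sub_cancel_left, Int.toNat_natCast]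
    rw [Finset.prod_congr rfl fun i _ => h4 i, Finset.prod_const, Finset.card_univ,
      Fintype.card_fin] at h3
    exact_mod_cast h3
  have hτ : ∀ q : Z (dm n), 0 ≤ ∑' k : Z (dm n), g (q - (dm n : ℤ) • k) :=
    fun q => tsum_nonneg fun k => hg _
  have hinj : Function.Injective fun x : {q // q ∈ F} × Z (dm n) =>
      (x.1 : Z (dm n)) - (dm n : ℤ) • x.2 := by
    rintro ⟨⟨q, hq⟩, k⟩ ⟨⟨q', hq'⟩, k'⟩ h
    have hqq : q = q' := by
      funext i
      have h1 := congrFun h i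
      simp only [Pi.sub_apply, Pi.smul_apply, smul_eq_mul] at h1
      have h2 : q i / (dm n : ℤ) = q' i / (dm n : ℤ) := by
        have h3 := congrFun (hF q hq) i
        have h4 := congrFun (hF q' hq') i
        unfold cl at h3 h4
        rw [h3, h4]
      have h5 : q i % (dm n : ℤ) = q' i % (dm n : ℤ) := by
        have h6 : q i = q' i + dm n * (k i - k' i) := by linarith
        rw [h6, Int.add_mul_emod_self_left]
      rw [← Int.mul_ediv_add_emod (q i) (dm n), ← Int.mul_ediv_add_emod (q' i) (dm n), h2, h5]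
    subst hqq
    have hkk : k = k' := inj_sub hD q h
    subst hkk
    rfl
  have hsum : ∑ q ∈ F, ∑' k : Z (dm n), g (q - (dm n : ℤ) • k) ≤ ∑' j, g j := by
    have hsP : Summable fun x : {q // q ∈ F} × Z (dm n) =>
        g ((x.1 : Z (dm n)) - (dm n : ℤ) • x.2) := hs.comp_injective hinj
    have h1 : ∑ q ∈ F, ∑' k : Z (dm n), g (q - (dm n : ℤ) • k) =
        ∑' x : {q // q ∈ F} × Z (dm n), g ((x.1 : Z (dm n)) - (dm n : ℤ) • x.2) := by
      rw [hsP.tsum_prod, tsum_fintype]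
      exact (Finset.sum_coe_sort F fun q => ∑' k : Z (dm n), g (q - (dm n : ℤ) • k)).symm
    rw [h1]
    exact tsum_comp_le_tsum_of_inj hs hg hinj
  have h2 : (∑ q ∈ F, Real.sqrt (∑' k : Z (dm n), g (q - (dm n : ℤ) • k))) ^ 2 ≤
      F.card * ∑ q ∈ F, ∑' k : Z (dm n), g (q - (dm n : ℤ) • k) := by
    refine (sq_sum_le_card_mul_sum_sq).trans (le_of_eq ?_)
    rw [Finset.sum_congr rfl fun q _ => Real.sq_sqrt (hτ q)]
  refine Real.le_sqrt_of_sq_le (h2.trans ?_)
  exact mul_le_mul hcard hsum (Finset.sum_nonneg fun q _ => hτ q) (by positivity)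

end SU2_

open SU2_ in
theorem su2_proof : Stmt_SU2 := by
  classical
  obtain ⟨n1, hn1⟩ := num
  refine ⟨max n1 1, fun n hn S a g ha hg hs => ?_⟩
  have hnum := hn1 n ((le_max_left _ _).trans hn)
  have hn1' : 1 ≤ n := (le_max_right _ _).trans hn
  have hD : 0 < dm n := pow_pos (by omega) 4
  have hDr : (0 : ℝ) < dm n := by exact_mod_cast hD
  set G : ℝ := ∑' j, g j with hG
  have hG0 : 0 ≤ G := tsum_nonneg hg
  set τ : Z (dm n) → ℝ := fun q => ∑' k : Z (dm n), g (q - (dm n : ℤ) • k) with hτ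
  have hτ0 : ∀ q, 0 ≤ τ q := fun q => tsum_nonneg fun k => hg _
  have hpr : ∀ k ∈ ZA n S, pr n k ∈ S := by
    intro k hk
    unfold ZA at hk
    rw [Finset.mem_biUnion] at hk
    obtain ⟨p, hp, hk⟩ := hk
    rw [Fintype.mem_piFinset] at hk
    have : pr n k = p := by
      funext i
      have h1 := Finset.mem_Ico.1 (hk i)
      have h2 : (0 : ℤ) < 2 ^ n := by positivity
      unfold pr
      exact (Int.ediv_eq_iff_of_pos h2).2 ⟨by linarith [h1.1], by linarith [h1.2]⟩
    rwa [this]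
  -- first step
  have step1 : ∀ q : Z (dm n), Real.sqrt (∑ k ∈ (ZA n S).filter (nrk n q),
      g (q - (dm n : ℤ) • k) * a (pr n k)) ≤
      ∑ p ∈ S, if cl n q ∈ Cp n p then Real.sqrt (a p) * Real.sqrt (τ q) else 0 := by
    intro q
    have h1 : ∑ k ∈ (ZA n S).filter (nrk n q), g (q - (dm n : ℤ) • k) * a (pr n k) =
        ∑ p ∈ S, ∑ k ∈ ((ZA n S).filter (nrk n q)).filter (fun k => pr n k = p),
          g (q - (dm n : ℤ) • k) * a (pr n k) :=
      (Finset.sum_fiberwise_of_maps_to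
        (fun k hk => hpr k (Finset.mem_filter.1 hk).1) _).symm
    rw [h1]
    refine (sqrt_sum_le _ _).trans (Finset.sum_le_sum fun p _ => ?_)
    split_ifs with hc
    · rw [← Real.sqrt_mul (ha p)]
      refine Real.sqrt_le_sqrt ?_
      have h2 : ∑ k ∈ ((ZA n S).filter (nrk n q)).filter (fun k => pr n k = p),
          g (q - (dm n : ℤ) • k) * a (pr n k) = a p *
          ∑ k ∈ ((ZA n S).filter (nrk n q)).filter (fun k => pr n k = p),
            g (q - (dm n : ℤ) • k) := by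
        rw [Finset.mul_sum]
        refine Finset.sum_congr rfl fun k hk => ?_
        rw [(Finset.mem_filter.1 hk).2, mul_comm]
      rw [h2]
      refine mul_le_mul_of_nonneg_left ?_ (ha p)
      exact (hs.comp_injective (inj_sub hD q)).sum_le_tsum _ fun k _ => hg _
    · refine le_of_eq ?_
      have h3 : ((ZA n S).filter (nrk n q)).filter (fun k => pr n k = p) = ∅ := by
        rw [Finset.filter_eq_empty_iff]
        intro k hk hkp
        refine hc ?_
        rw [← hkp]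
        exact near_cell hD q k (Finset.mem_filter.1 hk).2
      rw [h3, Finset.sum_empty, Real.sqrt_zero]
  -- second step
  have step2 : ∀ p : Z (dm n), ∀ Q : Finset (Z (dm n)),
      ∑ q ∈ Q, (if cl n q ∈ Cp n p then Real.sqrt (a p) * Real.sqrt (τ q) else 0) ≤
      Real.sqrt (a p) * (2 * ((2 : ℝ) ^ n) ^ dm n * Real.sqrt ((dm n : ℝ) ^ dm n * G)) := by
    intro p Q
    rw [← Finset.sum_filter, ← Finset.mul_sum]
    refine mul_le_mul_of_nonneg_left ?_ (Real.sqrt_nonneg _)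
    rw [← Finset.sum_fiberwise_of_maps_to (t := Cp n p) (g := cl n)
      (fun q hq => (Finset.mem_filter.1 hq).2)]
    calc ∑ c ∈ Cp n p, ∑ q ∈ (Q.filter fun q => cl n q ∈ Cp n p).filter (fun q => cl n q = c),
          Real.sqrt (τ q) ≤ ∑ c ∈ Cp n p, Real.sqrt ((dm n : ℝ) ^ dm n * G) :=
          Finset.sum_le_sum fun c _ => cell_sum hD g hg hs c _ fun q hq =>
            (Finset.mem_filter.1 hq).2
      _ = ((2 : ℝ) ^ n + 2 * rn n) ^ dm n * Real.sqrt ((dm n : ℝ) ^ dm n * G) := by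
          rw [Finset.sum_const, nsmul_eq_mul, card_Cp]
      _ ≤ _ := mul_le_mul_of_nonneg_right hnum (Real.sqrt_nonneg _)
  have hfin : 2 * Real.sqrt (G * ((dm n : ℝ) ^ dm n)⁻¹) * (rho n : ℝ) ^ dm n =
      2 * ((2 : ℝ) ^ n) ^ dm n * Real.sqrt ((dm n : ℝ) ^ dm n * G) := by
    have h1 : (rho n : ℝ) = dm n * 2 ^ n := by
      unfold rho dm
      push_cast
      ring
    have h2 : (0 : ℝ) < (dm n : ℝ) ^ dm n := by positivity
    have h3 : Real.sqrt ((dm n : ℝ) ^ dm n * G) =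
        (dm n : ℝ) ^ dm n * Real.sqrt (G * ((dm n : ℝ) ^ dm n)⁻¹) := by
      rw [← Real.sqrt_sq h2.le, ← Real.sqrt_mul (by positivity), Real.sqrt_sq h2.le]
      congr 1
      field_simp
    rw [h1, mul_pow, h3]
    ring
  calc ∑ q ∈ (chd n S).filter (GC n S),
      Real.sqrt (∑ k ∈ (ZA n S).filter (nrk n q), g (q - (dm n : ℤ) • k) * a (pr n k))
      ≤ ∑ q ∈ (chd n S).filter (GC n S),
        ∑ p ∈ S, (if cl n q ∈ Cp n p then Real.sqrt (a p) * Real.sqrt (τ q) else 0) :=
        Finset.sum_le_sum fun q _ => step1 q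
    _ = ∑ p ∈ S, ∑ q ∈ (chd n S).filter (GC n S),
        (if cl n q ∈ Cp n p then Real.sqrt (a p) * Real.sqrt (τ q) else 0) := Finset.sum_comm
    _ ≤ ∑ p ∈ S, Real.sqrt (a p) *
        (2 * ((2 : ℝ) ^ n) ^ dm n * Real.sqrt ((dm n : ℝ) ^ dm n * G)) :=
        Finset.sum_le_sum fun p _ => step2 p _
    _ = _ := by
        rw [← Finset.sum_mul, hfin]
        ring

end Pool.Agent.HBW
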