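import Pool.Agent.HBW.Stmts

/-!
# SU3: the remaining sums over children
-/

set_option autoImplicit false

namespace Pool.Agent.HBW

open MeasureTheory Set Filter Topology
open scoped ENNReal Real

namespace SU3_

theorem sqrt_sum_le {ι : Type*} (s : Finset ι) (f : ι → ℝ) (hf : ∀ i, 0 ≤ f i) :
    Real.sqrt (∑ i ∈ s, f i) ≤ ∑ i ∈ s, Real.sqrt (f i) := by
  classical
  induction s using Finset.induction_on with
  | empty => simp
  | insert i s hi ih =>
    rw [Finset.sum_insert hi, Finset.sum_insert hi]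
    have h1 : 0 ≤ ∑ i ∈ s, f i := Finset.sum_nonneg fun i _ => hf i
    have h2 : Real.sqrt (f i + ∑ i ∈ s, f i) ≤ Real.sqrt (f i) + Real.sqrt (∑ i ∈ s, f i) := by
      rw [Real.sqrt_le_iff]
      refine ⟨by positivity, ?_⟩
      rw [add_sq, Real.sq_sqrt (hf i), Real.sq_sqrt h1]
      have := mul_nonneg (Real.sqrt_nonneg (f i)) (Real.sqrt_nonneg (∑ i ∈ s, f i))
      linarith
    linarith

/-- boxes of side `m` -/
noncomputable def bx (D : ℕ) (m : ℕ) (p : Z D) : Finset (Z D) :=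
  Fintype.piFinset fun i => Finset.Ico (p i * (m : ℤ)) ((p i + 1) * (m : ℤ))

theorem div_of_mem {D m : ℕ} (hm : 0 < m) {p k : Z D} (h : k ∈ bx D m p) :
    (fun i => k i / (m : ℤ)) = p := by
  funext i
  have h1 := Finset.mem_Ico.1 (Fintype.mem_piFinset.1 h i)
  have h2 : (0 : ℤ) < m := by exact_mod_cast hm
  refine le_antisymm ?_ ?_
  · have := (Int.ediv_lt_iff_lt_mul h2).2 h1.2
    omega
  · exact (Int.le_ediv_iff_mul_le h2).2 h1.1

theorem mem_of_div {D m : ℕ} (hm : 0 < m) {p k : Z D} (h : (fun i => k i / (m : ℤ)) = p) :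
    k ∈ bx D m p := by
  refine Fintype.mem_piFinset.2 fun i => Finset.mem_Ico.2 ?_
  have h2 : (0 : ℤ) < m := by exact_mod_cast hm
  have h3 : k i / (m : ℤ) = p i := congrFun h i
  constructor
  · exact (Int.le_ediv_iff_mul_le h2).1 h3.ge
  · exact (Int.ediv_lt_iff_lt_mul h2).1 (by omega)

theorem card_bx (D m : ℕ) (p : Z D) : (bx D m p).card = m ^ D := by
  unfold bx
  rw [Fintype.card_piFinset]
  have h1 : ∀ i : Fin D, (Finset.Ico (p i * (m : ℤ)) ((p i + 1) * (m : ℤ))).card = m := by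
    intro i
    rw [Int.card_Ico]
    have h2 : (p i + 1) * (m : ℤ) - p i * (m : ℤ) = (m : ℤ) := by ring
    rw [h2, Int.toNat_natCast]
  simp only [h1]
  rw [Finset.prod_const, Finset.card_univ, Fintype.card_fin]

theorem sum_bx {D m : ℕ} (hm : 0 < m) (S K : Finset (Z D))
    (hK : ∀ k ∈ K, ∃ p ∈ S, k ∈ bx D m p) (f : Z D → ℝ) (hf : ∀ p, 0 ≤ f p) :
    ∑ k ∈ K, f (fun i => k i / (m : ℤ)) ≤ (m : ℝ) ^ D * ∑ p ∈ S, f p := by
  classical
  have hmaps : ∀ k ∈ K, (fun i => k i / (m : ℤ)) ∈ S := by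
    intro k hk
    obtain ⟨p, hp, h⟩ := hK k hk
    rw [div_of_mem hm h]
    exact hp
  rw [← Finset.sum_fiberwise_of_maps_to (g := fun (k : Z D) (i : Fin D) => k i / (m : ℤ)) (t := S)
    hmaps, Finset.mul_sum]
  refine Finset.sum_le_sum fun p _ => ?_
  have h1 : ∑ k ∈ K with (fun (k : Z D) (i : Fin D) => k i / (m : ℤ)) k = p,
      f (fun i => k i / (m : ℤ)) =
      ∑ k ∈ K with (fun (k : Z D) (i : Fin D) => k i / (m : ℤ)) k = p, f p :=
    Finset.sum_congr rfl fun k hk => congrArg f (Finset.mem_filter.1 hk).2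
  rw [h1, Finset.sum_const, nsmul_eq_mul]
  refine mul_le_mul_of_nonneg_right ?_ (hf p)
  have h2 : ({k ∈ K | (fun (k : Z D) (i : Fin D) => k i / (m : ℤ)) k = p}).card ≤ m ^ D := by
    rw [← card_bx D m p]
    exact Finset.card_le_card fun k hk => mem_of_div hm (Finset.mem_filter.1 hk).2
  exact_mod_cast h2

theorem rho_pos {n : ℕ} (hn : 2 ≤ n) : 0 < rho n := by
  unfold rho
  have : 0 < n := by omega
  positivity

theorem part1 {n : ℕ} (hn : 2 ≤ n) (S Q : Finset (Z (dm n))) (hQ : Q ⊆ chd n S)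
    (a : Z (dm n) → ℝ) :
    ∑ q ∈ Q, Real.sqrt (a (pc n q)) ≤ (rho n : ℝ) ^ dm n * ∑ p ∈ S, Real.sqrt (a p) := by
  classical
  refine sum_bx (D := dm n) (m := rho n) (rho_pos hn) S Q ?_ (fun p => Real.sqrt (a p))
    (fun p => Real.sqrt_nonneg _)
  intro k hk
  have h := hQ hk
  unfold chd at h
  obtain ⟨p, hp, h'⟩ := Finset.mem_biUnion.1 h
  exact ⟨p, hp, h'⟩

theorem sum_ZA {n : ℕ} (S : Finset (Z (dm n))) (a : Z (dm n) → ℝ) :
    ∑ k ∈ ZA n S, Real.sqrt (a (pr n k)) ≤ ((2 : ℝ) ^ n) ^ dm n * ∑ p ∈ S, Real.sqrt (a p) := by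
  classical
  have h := sum_bx (D := dm n) (m := 2 ^ n) (by positivity) S (ZA n S) (by
    intro k hk
    unfold ZA at hk
    obtain ⟨p, hp, h'⟩ := Finset.mem_biUnion.1 hk
    refine ⟨p, hp, ?_⟩
    unfold bx
    push_cast
    exact h') (fun p => Real.sqrt (a p)) (fun p => Real.sqrt_nonneg _)
  push_cast at h
  exact h

/-- the children near the parent `p` -/
noncomputable def Np (n : ℕ) (p : Z (dm n)) : Finset (Z (dm n)) :=
  Fintype.piFinset fun i => Finset.Ico ((dm n : ℤ) * (p i * 2 ^ n - rn n) - 1)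
    ((dm n : ℤ) * ((p i + 1) * 2 ^ n + rn n) + 1)

theorem mem_Np {n : ℕ} (hD : 0 < dm n) {q p : Z (dm n)} (h : nrp n q p) : q ∈ Np n p := by
  obtain ⟨z, hz, y, hy, hzy⟩ := h
  unfold Np
  rw [Fintype.mem_piFinset]
  intro i
  have hDr : (0 : ℝ) < dm n := by exact_mod_cast hD
  have h1 := hz i
  have h2 := hy i
  have h3 : |z i - y i| ≤ rn n := by
    have := norm_le_pi_norm (z - y) i
    rw [Real.norm_eq_abs] at this
    exact this.trans hzy
  have h4 := abs_le.1 h3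
  have h5 : (q i : ℝ) ≤ dm n * ((p i + 1) * 2 ^ n + rn n) := by
    have h6 : (q i : ℝ) / dm n ≤ (p i + 1) * 2 ^ n + rn n := by linarith [h1.1, h2.2, h4.2]
    rw [div_le_iff₀ hDr] at h6
    linarith
  have h7 : dm n * (p i * 2 ^ n - rn n) - 1 ≤ (q i : ℝ) := by
    have h6 : (p i : ℝ) * 2 ^ n - rn n ≤ ((q i : ℝ) + 1) / dm n := by linarith [h1.2, h2.1, h4.1]
    rw [le_div_iff₀ hDr] at h6
    linarith
  rw [Finset.mem_Ico]
  constructor
  · exact_mod_cast h7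
  · have h8 : q i ≤ (dm n : ℤ) * ((p i + 1) * 2 ^ n + rn n) := by exact_mod_cast h5
    omega

theorem card_Np {n : ℕ} (hn : 2 ≤ n) (p : Z (dm n)) : (Np n p).card ≤ (4 * rho n) ^ dm n := by
  unfold Np
  rw [Fintype.card_piFinset]
  have hD : 1 ≤ dm n := Nat.one_le_iff_ne_zero.2 (by unfold dm; positivity)
  have h1 : ∀ i ∈ (Finset.univ : Finset (Fin (dm n))),
      (Finset.Ico ((dm n : ℤ) * (p i * 2 ^ n - rn n) - 1)
        ((dm n : ℤ) * ((p i + 1) * 2 ^ n + rn n) + 1)).card ≤ 4 * rho n := by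
    intro i _
    rw [Int.card_Ico]
    have h2 : (dm n : ℤ) * ((p i + 1) * 2 ^ n + rn n) + 1 -
        ((dm n : ℤ) * (p i * 2 ^ n - rn n) - 1) =
        ((dm n * (2 ^ n + 2 * rn n) + 2 : ℕ) : ℤ) := by
      push_cast
      ring
    rw [h2, Int.toNat_natCast]
    have h3 : rn n ≤ 2 ^ n := Nat.pow_le_pow_right (by norm_num) (by omega)
    have h4 : rho n = dm n * 2 ^ n := rfl
    have h5 : 4 ≤ 2 ^ n := by
      calc 4 = 2 ^ 2 := by norm_num
        _ ≤ 2 ^ n := Nat.pow_le_pow_right (by norm_num) hn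
    rw [h4]
    have h6 : dm n * (2 ^ n + 2 * rn n) ≤ dm n * (3 * 2 ^ n) := Nat.mul_le_mul_left _ (by omega)
    have h7 : 1 * 4 ≤ dm n * 2 ^ n := Nat.mul_le_mul hD h5
    have h8 : dm n * (3 * 2 ^ n) = 3 * (dm n * 2 ^ n) := by ring
    omega
  refine (Finset.prod_le_pow_card _ _ _ h1).trans (le_of_eq ?_)
  rw [Finset.card_univ, Fintype.card_fin]

theorem part2 {n : ℕ} (hn : 2 ≤ n) (S Q : Finset (Z (dm n))) (a : Z (dm n) → ℝ)
    (ha : ∀ p, 0 ≤ a p) (N : Z (dm n) → Z (dm n) → Prop) [∀ q, DecidablePred (N q)]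
    (hN : ∀ q p, N q p → nrp n q p) :
    ∑ q ∈ Q, Real.sqrt (∑ p ∈ S.filter (N q), a p) ≤
      (n : ℝ) ^ (2 * n ^ 4) * (rho n : ℝ) ^ dm n * ∑ p ∈ S, Real.sqrt (a p) := by
  classical
  have hD : 0 < dm n := by unfold dm; positivity
  calc ∑ q ∈ Q, Real.sqrt (∑ p ∈ S.filter (N q), a p)
      ≤ ∑ q ∈ Q, ∑ p ∈ S, if q ∈ Np n p then Real.sqrt (a p) else 0 := by
        refine Finset.sum_le_sum fun q _ => ?_
        refine (sqrt_sum_le _ _ ha).trans ?_
        rw [Finset.sum_filter]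
        refine Finset.sum_le_sum fun p _ => ?_
        split_ifs with h1 h2 h2
        · exact le_rfl
        · exact absurd (mem_Np hD (hN _ _ h1)) h2
        · exact Real.sqrt_nonneg _
        · exact le_rfl
    _ = ∑ p ∈ S, ∑ q ∈ Q, (if q ∈ Np n p then Real.sqrt (a p) else 0) := Finset.sum_comm
    _ ≤ ∑ p ∈ S, ((4 * rho n : ℝ) ^ dm n) * Real.sqrt (a p) := by
        refine Finset.sum_le_sum fun p _ => ?_
        rw [← Finset.sum_filter, Finset.sum_const, nsmul_eq_mul]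
        refine mul_le_mul_of_nonneg_right ?_ (Real.sqrt_nonneg _)
        have h1 : (Q.filter fun q => q ∈ Np n p).card ≤ (4 * rho n) ^ dm n :=
          (Finset.card_le_card fun q hq => (Finset.mem_filter.1 hq).2).trans (card_Np hn p)
        exact_mod_cast h1
    _ = (4 : ℝ) ^ dm n * (rho n : ℝ) ^ dm n * ∑ p ∈ S, Real.sqrt (a p) := by
        rw [← Finset.mul_sum, mul_pow]
    _ ≤ (n : ℝ) ^ (2 * n ^ 4) * (rho n : ℝ) ^ dm n * ∑ p ∈ S, Real.sqrt (a p) := by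
        have h4 : (4 : ℝ) ^ dm n ≤ (n : ℝ) ^ (2 * n ^ 4) := by
          rw [pow_mul]
          refine pow_le_pow_left₀ (by norm_num) ?_ _
          have : (2 : ℝ) ≤ n := by exact_mod_cast hn
          nlinarith
        refine mul_le_mul_of_nonneg_right (mul_le_mul_of_nonneg_right h4 (by positivity)) ?_
        exact Finset.sum_nonneg fun _ _ => Real.sqrt_nonneg _

theorem sqrt_wt {n : ℕ} (q k : Z (dm n)) : Real.sqrt (wt n q k) =
    (1 + ‖(fun i => (q i : ℝ) / dm n - k i : P (dm n))‖) ^ (-(2 * (dm n : ℤ))) := by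
  unfold wt
  set b : ℝ := 1 + ‖(fun i => (q i : ℝ) / dm n - k i : P (dm n))‖ with hb
  have hb0 : 0 < b := by positivity
  have h1 : b ^ (-(4 * (dm n : ℤ))) = (b ^ (-(2 * (dm n : ℤ)))) ^ 2 := by
    rw [← zpow_natCast, ← zpow_mul]
    congr 1
    push_cast
    ring
  rw [h1, Real.sqrt_sq (by positivity)]

theorem wt_le {n : ℕ} (hn : 2 ≤ n) (q k : Z (dm n)) : Real.sqrt (wt n q k) ≤
    (n : ℝ) ^ (8 * n ^ 4) *
      (1 + ‖(fun i => (dm n : ℝ) * k i : P (dm n)) - zr q‖) ^ (-(2 * (dm n : ℤ))) := by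
  rw [sqrt_wt]
  have hD : (1 : ℝ) ≤ dm n := by
    have : 1 ≤ dm n := Nat.one_le_iff_ne_zero.2 (by unfold dm; positivity)
    exact_mod_cast this
  have hD0 : (0 : ℝ) < dm n := by linarith
  set u : P (dm n) := fun i => (q i : ℝ) / dm n - k i with hu
  have h1 : (fun i => (dm n : ℝ) * k i : P (dm n)) - zr q = (-(dm n : ℝ)) • u := by
    funext i
    simp only [Pi.sub_apply, Pi.smul_apply, smul_eq_mul, hu, zr]
    field_simp
    ring
  have h2 : ‖(fun i => (dm n : ℝ) * k i : P (dm n)) - zr q‖ = dm n * ‖u‖ := by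
    rw [h1, norm_smul, norm_neg, Real.norm_of_nonneg hD0.le]
  rw [h2]
  have h3 : (1 + dm n * ‖u‖) / dm n ≤ 1 + ‖u‖ := by
    rw [div_le_iff₀ hD0]
    nlinarith [norm_nonneg u]
  have h4 : 0 < (1 + dm n * ‖u‖) / dm n := by positivity
  have h5 : (1 + ‖u‖) ^ (-(2 * (dm n : ℤ))) ≤
      ((1 + dm n * ‖u‖) / dm n) ^ (-(2 * (dm n : ℤ))) := by
    rw [zpow_neg, zpow_neg]
    refine inv_anti₀ (by positivity) ?_
    exact zpow_le_zpow_left₀ (by positivity) h4.le h3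
  refine h5.trans (le_of_eq ?_)
  rw [div_zpow, zpow_neg, zpow_neg]
  have h6 : (dm n : ℝ) ^ (2 * (dm n : ℤ)) = (n : ℝ) ^ (8 * n ^ 4) := by
    have h7 : (2 * (dm n : ℤ)) = ((2 * dm n : ℕ) : ℤ) := by push_cast; ring
    rw [h7, zpow_natCast]
    have h8 : (dm n : ℝ) = (n : ℝ) ^ 4 := by
      unfold dm
      push_cast
      rfl
    rw [h8, ← pow_mul]
    congr 1
    unfold dm
    ring
  rw [h6, div_eq_mul_inv, inv_inv, mul_comm]

theorem part3 {n : ℕ} (hn : 2 ≤ n) {C : ℕ} (hC : ∀ (x : P (dm n)) (e : ℤ), 2 * (dm n : ℤ) ≤ e →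
    Summable (fun k : Z (dm n) => (1 + ‖x - zr k‖) ^ (-e)) ∧
    ∑' k : Z (dm n), (1 + ‖x - zr k‖) ^ (-e) ≤ (n : ℝ) ^ (C * n ^ 4))
    (S Q : Finset (Z (dm n))) (a : Z (dm n) → ℝ) (ha : ∀ p, 0 ≤ a p) :
    ∑ q ∈ Q, Real.sqrt (∑ k ∈ ZA n S, wt n q k * a (pr n k)) ≤
      (n : ℝ) ^ ((C + 8) * n ^ 4) * (rho n : ℝ) ^ dm n * ∑ p ∈ S, Real.sqrt (a p) := by
  classical
  have hw : ∀ q k, 0 ≤ wt n q k := fun q k => by unfold wt; positivity
  have hS : 0 ≤ ∑ p ∈ S, Real.sqrt (a p) := Finset.sum_nonneg fun _ _ => Real.sqrt_nonneg _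
  have hq : ∀ k : Z (dm n), ∑ q ∈ Q, Real.sqrt (wt n q k) ≤ (n : ℝ) ^ ((C + 8) * n ^ 4) := by
    intro k
    obtain ⟨h1, h2⟩ := hC (fun i => (dm n : ℝ) * k i : P (dm n)) (2 * (dm n : ℤ)) le_rfl
    calc ∑ q ∈ Q, Real.sqrt (wt n q k)
        ≤ ∑ q ∈ Q, (n : ℝ) ^ (8 * n ^ 4) *
          (1 + ‖(fun i => (dm n : ℝ) * k i : P (dm n)) - zr q‖) ^ (-(2 * (dm n : ℤ))) :=
          Finset.sum_le_sum fun q _ => wt_le hn q k
      _ = (n : ℝ) ^ (8 * n ^ 4) * ∑ q ∈ Q,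
          (1 + ‖(fun i => (dm n : ℝ) * k i : P (dm n)) - zr q‖) ^ (-(2 * (dm n : ℤ))) := by
          rw [Finset.mul_sum]
      _ ≤ (n : ℝ) ^ (8 * n ^ 4) * (n : ℝ) ^ (C * n ^ 4) := by
          refine mul_le_mul_of_nonneg_left ?_ (by positivity)
          exact (h1.sum_le_tsum _ fun _ _ => by positivity).trans h2
      _ = (n : ℝ) ^ ((C + 8) * n ^ 4) := by
          rw [← pow_add]
          congr 1
          ring
  calc ∑ q ∈ Q, Real.sqrt (∑ k ∈ ZA n S, wt n q k * a (pr n k))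
      ≤ ∑ q ∈ Q, ∑ k ∈ ZA n S, Real.sqrt (wt n q k) * Real.sqrt (a (pr n k)) := by
        refine Finset.sum_le_sum fun q _ => ?_
        refine (sqrt_sum_le _ _ fun k => mul_nonneg (hw q k) (ha _)).trans (le_of_eq ?_)
        refine Finset.sum_congr rfl fun k _ => ?_
        rw [Real.sqrt_mul (hw q k)]
    _ = ∑ k ∈ ZA n S, (∑ q ∈ Q, Real.sqrt (wt n q k)) * Real.sqrt (a (pr n k)) := by
        rw [Finset.sum_comm]
        refine Finset.sum_congr rfl fun k _ => ?_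
        rw [Finset.sum_mul]
    _ ≤ ∑ k ∈ ZA n S, (n : ℝ) ^ ((C + 8) * n ^ 4) * Real.sqrt (a (pr n k)) :=
        Finset.sum_le_sum fun k _ => mul_le_mul_of_nonneg_right (hq k) (Real.sqrt_nonneg _)
    _ = (n : ℝ) ^ ((C + 8) * n ^ 4) * ∑ k ∈ ZA n S, Real.sqrt (a (pr n k)) := by
        rw [Finset.mul_sum]
    _ ≤ (n : ℝ) ^ ((C + 8) * n ^ 4) * (((2 : ℝ) ^ n) ^ dm n * ∑ p ∈ S, Real.sqrt (a p)) :=
        mul_le_mul_of_nonneg_left (sum_ZA S a) (by positivity)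
    _ ≤ (n : ℝ) ^ ((C + 8) * n ^ 4) * ((rho n : ℝ) ^ dm n * ∑ p ∈ S, Real.sqrt (a p)) := by
        refine mul_le_mul_of_nonneg_left (mul_le_mul_of_nonneg_right ?_ hS) (by positivity)
        refine pow_le_pow_left₀ (by positivity) ?_ _
        have h1 : 2 ^ n ≤ rho n := by
          unfold rho
          have : 1 ≤ n ^ 4 := Nat.one_le_pow _ _ (by omega)
          nlinarith [Nat.zero_le (2 ^ n)]
        exact_mod_cast h1
    _ = _ := by ring

end SU3_

open SU3_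

theorem su3_proof (hLSW : Stmt_LSW) : Stmt_SU3 := by
  classical
  obtain ⟨C, hC⟩ := hLSW
  refine ⟨C + 8, fun n hn S a ha => ?_⟩
  have hn1 : (1 : ℝ) ≤ n := by
    have : 1 ≤ n := by omega
    exact_mod_cast this
  have hS : 0 ≤ ∑ p ∈ S, Real.sqrt (a p) := Finset.sum_nonneg fun _ _ => Real.sqrt_nonneg _
  refine ⟨?_, ?_, ?_⟩
  · have h := part1 hn S ((chd n S).filter (GC n S)) (Finset.filter_subset _ _) a
    convert h
  · have h := part2 hn S ((chd n S).filter (GC n S)) a ha (fun q => nrp n q) (fun _ _ h => h)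
    refine le_trans ?_ (h.trans ?_)
    · refine le_of_eq ?_
      refine Finset.sum_congr ?_ fun q _ => ?_
      · congr
      · congr
    · refine mul_le_mul_of_nonneg_right (mul_le_mul_of_nonneg_right ?_ (by positivity)) hS
      exact pow_le_pow_right₀ hn1 (Nat.mul_le_mul_right _ (by omega))
  · have h := part3 hn (hC n hn) S ((chd n S).filter (GC n S)) a ha
    convert h

end Pool.Agent.HBW
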