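import Pool.Agent.HBW.Stmts
import Pool.Agent.KS.HexC1

set_option autoImplicit false

namespace Pool.Agent.HBW

open MeasureTheory Set Filter Topology
open scoped ENNReal Real

namespace SUB_

/-- general inverse Gaussian moment -/
theorem gi (q c : ℝ) (hq : 1 < q) (hc : 0 < c) :
    IntegrableOn (fun u : ℝ => u ^ (-q) * Real.exp (-(c / u))) (Ioi 0) ∧
    ∫ u in Ioi (0 : ℝ), u ^ (-q) * Real.exp (-(c / u)) = (1 / c) ^ (q - 1) * Real.Gamma (q - 1) := by
  have hp : (-1 : ℝ) ≠ 0 := by norm_num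
  have hcongr : ∀ u ∈ Ioi (0 : ℝ), (|(-1 : ℝ)| * u ^ ((-1 : ℝ) - 1)) •
      ((u ^ (-1 : ℝ)) ^ (q - 1 - 1) * Real.exp (-(c * u ^ (-1 : ℝ)))) =
      u ^ (-q) * Real.exp (-(c / u)) := by
    intro u hu
    have hu0 : (0 : ℝ) < u := hu
    rw [smul_eq_mul, abs_neg, abs_one, one_mul, ← mul_assoc, ← Real.rpow_mul hu0.le,
      ← Real.rpow_add hu0, Real.rpow_neg_one, ← div_eq_mul_inv]
    congr 2
    ring
  have h1 := integral_comp_rpow_Ioi (fun v : ℝ => v ^ (q - 1 - 1) * Real.exp (-(c * v))) hp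
  have h2 := integrableOn_Ioi_comp_rpow_iff
    (fun v : ℝ => v ^ (q - 1 - 1) * Real.exp (-(c * v))) hp
  have h3 : IntegrableOn (fun v : ℝ => v ^ (q - 1 - 1) * Real.exp (-(c * v))) (Ioi 0) := by
    have := integrableOn_rpow_mul_exp_neg_mul_rpow (p := 1) (s := q - 1 - 1) (b := c)
      (by linarith) one_pos hc
    refine this.congr_fun ?_ measurableSet_Ioi
    intro v hv
    simp only [Real.rpow_one, neg_mul]
  refine ⟨(h2.2 h3).congr_fun hcongr measurableSet_Ioi, ?_⟩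
  rw [← setIntegral_congr_fun measurableSet_Ioi hcongr]
  rw [Real.integral_rpow_mul_exp_neg_mul_Ioi (by linarith) hc] at h1
  exact h1

theorem expc (y u : ℝ) : -y ^ 2 / (4 * u) = -(y ^ 2 / 4 / u) := by
  rw [neg_div, div_div]

theorem lev0 (y : ℝ) (hy : 0 < y) : IntegrableOn (lev y) (Ioi 0) ∧
    ∫ u in Ioi (0 : ℝ), lev y u = 1 := by
  have h := gi (3 / 2) (y ^ 2 / 4) (by norm_num) (by positivity)
  have hc : ∀ u ∈ Ioi (0 : ℝ), y / (2 * Real.sqrt π) *
      (u ^ (-(3 / 2) : ℝ) * Real.exp (-(y ^ 2 / 4 / u))) = lev y u := by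
    intro u _
    unfold lev
    rw [expc]
    ring
  refine ⟨IntegrableOn.congr_fun (Integrable.const_mul h.1 (y / (2 * Real.sqrt π))) hc
    measurableSet_Ioi, ?_⟩
  rw [← setIntegral_congr_fun measurableSet_Ioi hc, integral_const_mul, h.2]
  have e1 : (3 / 2 - 1 : ℝ) = 1 / 2 := by norm_num
  rw [e1, Real.Gamma_one_half_eq, ← Real.sqrt_eq_rpow]
  have e2 : (1 / (y ^ 2 / 4) : ℝ) = (2 / y) ^ 2 := by field_simp; ring
  rw [e2, Real.sqrt_sq (by positivity)]
  have : Real.sqrt π ≠ 0 := (Real.sqrt_pos.2 Real.pi_pos).ne'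
  field_simp

theorem part1 (y s : ℝ) (hy : 0 < y) (hs : 0 ≤ s) :
    IntegrableOn (fun u => lev y u * Real.exp (-u * s ^ 2)) (Ioi 0) ∧
    ∫ u in Ioi (0 : ℝ), lev y u * Real.exp (-u * s ^ 2) = Real.exp (-y * s) := by
  rcases hs.eq_or_lt with h0 | h0
  · subst h0
    have h := lev0 y hy
    constructor
    · refine h.1.congr_fun ?_ measurableSet_Ioi
      intro u _
      simp
    · simpa using h.2
  · have hf := Pool.KS.HexC.int_full s y h0 hy
    have hp := Pool.KS.HexC.int_parts s y h0 hy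
    have hw := Pool.KS.HexC.int_swap s y h0 hy
    have h3 : ∫ t in Ioi (0 : ℝ), y / (4 * (t * Real.sqrt t)) *
        Real.exp (-(Pool.KS.HexC.cs s y t) ^ 2) = Real.sqrt π / 2 := by
      have h4 := hf.2
      have h5 : ∀ t, Pool.KS.HexC.cs' s y t * Real.exp (-(Pool.KS.HexC.cs s y t) ^ 2)
          = s / (2 * Real.sqrt t) * Real.exp (-(Pool.KS.HexC.cs s y t) ^ 2)
            + y / (4 * (t * Real.sqrt t)) * Real.exp (-(Pool.KS.HexC.cs s y t) ^ 2) := by
        intro t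
        unfold Pool.KS.HexC.cs'
        ring
      simp_rw [h5] at h4
      rw [integral_add hp.1 hp.2, hw] at h4
      linarith
    have hπ : 0 < Real.sqrt π := Real.sqrt_pos.2 Real.pi_pos
    have hc : ∀ t ∈ Ioi (0 : ℝ), (2 / Real.sqrt π * Real.exp (-y * s)) *
        (y / (4 * (t * Real.sqrt t)) * Real.exp (-(Pool.KS.HexC.cs s y t) ^ 2)) =
        lev y t * Real.exp (-t * s ^ 2) := by
      intro t ht
      have ht0 : (0 : ℝ) < t := ht
      have hst : 0 < Real.sqrt t := Real.sqrt_pos.2 ht0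
      rw [Pool.KS.HexC.sq_cs s y t ht0]
      unfold lev
      have e1 : t ^ (-(3 / 2) : ℝ) = (t * Real.sqrt t)⁻¹ := by
        rw [Real.rpow_neg ht0.le, show (3 / 2 : ℝ) = 1 + 1 / 2 by norm_num, Real.rpow_add ht0,
          Real.rpow_one, ← Real.sqrt_eq_rpow]
      rw [e1]
      have e2 : Real.exp (-y * s) * Real.exp (-(t * s ^ 2 - s * y + y ^ 2 / (4 * t))) =
          Real.exp (-y ^ 2 / (4 * t)) * Real.exp (-t * s ^ 2) := by
        rw [← Real.exp_add, ← Real.exp_add]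
        congr 1
        ring
      calc (2 / Real.sqrt π * Real.exp (-y * s)) *
          (y / (4 * (t * Real.sqrt t)) * Real.exp (-(t * s ^ 2 - s * y + y ^ 2 / (4 * t))))
          = (2 / Real.sqrt π * (y / (4 * (t * Real.sqrt t)))) *
            (Real.exp (-y * s) * Real.exp (-(t * s ^ 2 - s * y + y ^ 2 / (4 * t)))) := by ring
        _ = _ := by
            rw [e2]
            field_simp
            ring
    refine ⟨IntegrableOn.congr_fun (Integrable.const_mul hp.2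
      (2 / Real.sqrt π * Real.exp (-y * s))) hc measurableSet_Ioi, ?_⟩
    rw [← setIntegral_congr_fun measurableSet_Ioi hc, integral_const_mul, h3]
    field_simp

theorem part3 (ω s : ℝ) (hω : 0 ≤ ω) (hs : 0 < s) :
    IntegrableOn (fun u => Wf ω u * Real.exp (-u * s ^ 2)) (Ioi 0) ∧
    ∫ u in Ioi (0 : ℝ), Wf ω u * Real.exp (-u * s ^ 2) = Real.exp (-ω * s) / s := by
  have hπ : 0 < Real.sqrt π := Real.sqrt_pos.2 Real.pi_pos
  have key : IntegrableOn (fun t => (Real.sqrt t)⁻¹ *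
      Real.exp (-(t * s ^ 2) - ω ^ 2 / (4 * t))) (Ioi 0) ∧
    ∫ t in Ioi (0 : ℝ), (Real.sqrt t)⁻¹ * Real.exp (-(t * s ^ 2) - ω ^ 2 / (4 * t))
      = Real.sqrt π * (Real.exp (-(ω * s)) / s) := by
    rcases hω.eq_or_lt with h0 | h0
    · subst h0
      have h3 := integrableOn_rpow_mul_exp_neg_mul_rpow (p := 1) (s := 1 / 2 - 1) (b := s ^ 2)
        (by norm_num) one_pos (by positivity)
      have h4 := Real.integral_rpow_mul_exp_neg_mul_Ioi (a := 1 / 2) (r := s ^ 2) (by norm_num)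
        (by positivity)
      have hc : ∀ t ∈ Ioi (0 : ℝ), t ^ (1 / 2 - 1 : ℝ) * Real.exp (-(s ^ 2 * t)) =
          (Real.sqrt t)⁻¹ * Real.exp (-(t * s ^ 2) - 0 ^ 2 / (4 * t)) := by
        intro t ht
        have ht0 : (0 : ℝ) < t := ht
        rw [show (1 / 2 - 1 : ℝ) = -(1 / 2) by norm_num, Real.rpow_neg ht0.le,
          ← Real.sqrt_eq_rpow]
        congr 2
        simp [mul_comm]
      constructor
      · refine h3.congr_fun ?_ measurableSet_Ioi
        intro t ht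
        refine Eq.trans ?_ (hc t ht)
        simp only [Real.rpow_one, neg_mul]
      · rw [← setIntegral_congr_fun measurableSet_Ioi hc, h4, Real.Gamma_one_half_eq,
          ← Real.sqrt_eq_rpow, show (1 / s ^ 2 : ℝ) = (1 / s) ^ 2 by field_simp,
          Real.sqrt_sq (by positivity)]
        simp
        ring
    · exact Pool.KS.HexC.subord s ω hs h0
  have hc : ∀ t ∈ Ioi (0 : ℝ), (Real.sqrt π)⁻¹ * ((Real.sqrt t)⁻¹ *
      Real.exp (-(t * s ^ 2) - ω ^ 2 / (4 * t))) = Wf ω t * Real.exp (-t * s ^ 2) := by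
    intro t ht
    unfold Wf
    rw [Real.sqrt_mul Real.pi_pos.le, mul_inv]
    have e2 : Real.exp (-(t * s ^ 2) - ω ^ 2 / (4 * t)) =
        Real.exp (-ω ^ 2 / (4 * t)) * Real.exp (-t * s ^ 2) := by
      rw [← Real.exp_add]
      congr 1
      ring
    rw [e2]
    ring
  refine ⟨IntegrableOn.congr_fun (Integrable.const_mul key.1 (Real.sqrt π)⁻¹) hc
    measurableSet_Ioi, ?_⟩
  rw [← setIntegral_congr_fun measurableSet_Ioi hc, integral_const_mul, key.2,
    ← mul_assoc, inv_mul_cancel₀ hπ.ne', one_mul, neg_mul]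

theorem levnn (y : ℝ) (hy : 0 < y) (u : ℝ) (hu : 0 < u) : 0 ≤ lev y u := by
  unfold lev
  have := Real.rpow_nonneg hu.le (-(3 / 2))
  positivity

end SUB_

theorem sub_proof : Stmt_SUB := by
  refine ⟨fun y hy s hs => SUB_.part1 y s hy hs, fun y hy u hu => SUB_.levnn y hy u hu,
    fun ω hω s hs => SUB_.part3 ω s hω hs, fun y hy => SUB_.lev0 y hy, ?_, ?_⟩
  · refine ⟨2 / Real.sqrt π, fun y hy => ?_⟩
    have hπ : 0 < Real.sqrt π := Real.sqrt_pos.2 Real.pi_pos
    have h := SUB_.gi 2 (y ^ 2 / 4) (by norm_num) (by positivity)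
    have hc : ∀ u ∈ Ioi (0 : ℝ), y / (2 * Real.sqrt π) *
        (u ^ (-2 : ℝ) * Real.exp (-(y ^ 2 / 4 / u))) = lev y u / Real.sqrt u := by
      intro u hu
      have hu0 : (0 : ℝ) < u := hu
      unfold lev
      rw [SUB_.expc, show (-2 : ℝ) = -(3 / 2) - 1 / 2 by norm_num,
        Real.rpow_sub hu0, ← Real.sqrt_eq_rpow]
      ring
    refine ⟨IntegrableOn.congr_fun (Integrable.const_mul h.1 (y / (2 * Real.sqrt π))) hc
      measurableSet_Ioi, le_of_eq ?_⟩
    rw [← setIntegral_congr_fun measurableSet_Ioi hc, integral_const_mul, h.2,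
      show (2 - 1 : ℝ) = 1 by norm_num, Real.rpow_one, Real.Gamma_one]
    field_simp
    ring
  · refine ⟨1 / (2 * Real.sqrt π) * ((4 : ℝ) ^ (1 / 4 : ℝ) * Real.Gamma (1 / 4)),
      fun y hy _ => ?_⟩
    have hπ : 0 < Real.sqrt π := Real.sqrt_pos.2 Real.pi_pos
    have h := SUB_.gi (5 / 4) (y ^ 2 / 4) (by norm_num) (by positivity)
    have hmono : ∀ u ∈ Ioi (0 : ℝ), lev y u * min 1 (Real.sqrt u) ≤ y / (2 * Real.sqrt π) *
        (u ^ (-(5 / 4) : ℝ) * Real.exp (-(y ^ 2 / 4 / u))) := by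
      intro u hu
      have hu0 : (0 : ℝ) < u := hu
      have hm : min 1 (Real.sqrt u) ≤ u ^ (1 / 4 : ℝ) := by
        rcases le_total u 1 with h1 | h1
        · refine (min_le_right _ _).trans ?_
          rw [Real.sqrt_eq_rpow]
          exact Real.rpow_le_rpow_of_exponent_ge hu0 h1 (by norm_num)
        · exact (min_le_left _ _).trans (Real.one_le_rpow h1 (by norm_num))
      have e1 : y / (2 * Real.sqrt π) * (u ^ (-(5 / 4) : ℝ) * Real.exp (-(y ^ 2 / 4 / u))) =
          lev y u * u ^ (1 / 4 : ℝ) := by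
        unfold lev
        rw [SUB_.expc, show (-(5 / 4) : ℝ) = -(3 / 2) + 1 / 4 by norm_num, Real.rpow_add hu0]
        ring
      rw [e1]
      exact mul_le_mul_of_nonneg_left hm (SUB_.levnn y hy u hu0)
    have hint : IntegrableOn (fun u => lev y u * min 1 (Real.sqrt u)) (Ioi 0) := by
      refine Integrable.mono' (h.1.const_mul (y / (2 * Real.sqrt π))) ?_ ?_
      · exact (SUB_.lev0 y hy).1.aestronglyMeasurable.mul
          (Measurable.aestronglyMeasurable (by fun_prop))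
      · rw [ae_restrict_iff' measurableSet_Ioi]
        refine Filter.Eventually.of_forall fun u hu => ?_
        have hu0 : (0 : ℝ) < u := hu
        rw [Real.norm_of_nonneg (mul_nonneg (SUB_.levnn y hy u hu0)
          (le_min zero_le_one (Real.sqrt_nonneg u)))]
        exact hmono u hu
    refine ⟨hint, ?_⟩
    refine (setIntegral_mono_on hint (h.1.const_mul (y / (2 * Real.sqrt π)))
      measurableSet_Ioi hmono).trans (le_of_eq ?_)
    rw [integral_const_mul, h.2, show (5 / 4 - 1 : ℝ) = 1 / 4 by norm_num]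
    have e2 : (1 / (y ^ 2 / 4) : ℝ) ^ (1 / 4 : ℝ) = (4 : ℝ) ^ (1 / 4 : ℝ) * (Real.sqrt y)⁻¹ := by
      rw [show (1 / (y ^ 2 / 4) : ℝ) = 4 * (y ^ 2)⁻¹ by field_simp,
        Real.mul_rpow (by norm_num) (by positivity), Real.inv_rpow (by positivity)]
      congr 2
      rw [← Real.rpow_natCast, ← Real.rpow_mul hy.le, Real.sqrt_eq_rpow]
      norm_num
    rw [e2]
    have e3 : y * (Real.sqrt y)⁻¹ = Real.sqrt y := by
      have hsy : 0 < Real.sqrt y := Real.sqrt_pos.2 hy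
      rw [← div_eq_mul_inv, div_eq_iff hsy.ne', Real.mul_self_sqrt hy.le]
    calc y / (2 * Real.sqrt π) * ((4 : ℝ) ^ (1 / 4 : ℝ) * (Real.sqrt y)⁻¹ * Real.Gamma (1 / 4))
        = 1 / (2 * Real.sqrt π) * ((4 : ℝ) ^ (1 / 4 : ℝ) * Real.Gamma (1 / 4)) *
          (y * (Real.sqrt y)⁻¹) := by ring
      _ = _ := by rw [e3]

end Pool.Agent.HBW
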