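import Pool.Agent.HBW.TPX

set_option autoImplicit false

namespace Pool.Agent.HBW

open MeasureTheory Set Filter Topology
open scoped ENNReal Real

namespace TEX_

open SMO_ TPX_

variable {D : ℕ} {X : Type} [NormedAddCommGroup X] [NormedSpace ℝ X]

theorem mon_cons (i : Fin D) (v : List (Fin D)) (x : P D) : mon (i :: v) x = x i * mon v x := by
  simp [mon]

/-- explicit form of the homogeneous part -/
theorem hm_eq (z x : P D) (m : ℕ) : ∀ {f : P D → X}, Smo f →
    hm z m f x = (1 / m.factorial : ℝ) • ∑ v : Fin m → Fin D,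
      mon (List.ofFn v) (x - z) • pdw (List.ofFn v) f z := by
  induction m with
  | zero =>
    intro f _
    simp [hm, mon, pdw]
  | succ m ih =>
    intro f hf
    show (1 / ((m : ℝ) + 1)) • ∑ i, (x i - z i) • hm z m (pd i f) x = _
    have h1 : ∀ i, hm z m (pd i f) x = (1 / m.factorial : ℝ) • ∑ v : Fin m → Fin D,
        mon (List.ofFn v) (x - z) • pdw (i :: List.ofFn v) f z := by
      intro i
      rw [ih (smo_pd hf i)]
      congr 1
      refine Finset.sum_congr rfl (fun v _ => ?_)
      rw [pdw_pd hf (List.ofFn v) i]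
      rfl
    rw [Finset.sum_congr rfl (fun i _ => by rw [h1 i])]
    have h2 : ∑ v : Fin (m + 1) → Fin D, mon (List.ofFn v) (x - z) • pdw (List.ofFn v) f z =
        ∑ i : Fin D, ∑ v : Fin m → Fin D,
          ((x - z) i * mon (List.ofFn v) (x - z)) • pdw (i :: List.ofFn v) f z := by
      rw [← (Fin.consEquiv (fun _ : Fin (m + 1) => Fin D)).sum_comp, Fintype.sum_prod_type]
      refine Finset.sum_congr rfl (fun i _ => Finset.sum_congr rfl (fun v _ => ?_))
      have h3 : List.ofFn ((Fin.consEquiv (fun _ : Fin (m + 1) => Fin D)) (i, v)) =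
          i :: List.ofFn v := by
        simp [Fin.consEquiv, List.ofFn_succ]
      rw [h3, mon_cons]
    rw [h2, Finset.smul_sum, Finset.smul_sum]
    refine Finset.sum_congr rfl (fun i _ => ?_)
    rw [smul_smul, smul_smul, Finset.smul_sum, Finset.smul_sum]
    refine Finset.sum_congr rfl (fun v _ => ?_)
    rw [smul_smul, smul_smul]
    congr 1
    rw [Nat.factorial_succ]
    push_cast
    have h4 : (m.factorial : ℝ) ≠ 0 := by exact_mod_cast Nat.factorial_ne_zero m
    have h5 : ((m : ℝ) + 1) ≠ 0 := by positivity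
    rw [Pi.sub_apply]
    field_simp

end TEX_

/-- polynomials are equal to their Taylor expansion -/
theorem tex_proof (_hSMO : Stmt_SMO) (_hTPX : Stmt_TPX) : Stmt_TEX := by
  intro D X _ _ M Q z x hQ
  have h1 : Q x = TPX_.tay z M Q x := by
    rcases Nat.eq_zero_or_pos M with hM | hM
    · subst hM
      have h2 := hQ.top [] (le_refl _) x
      have h3 : Q x = 0 := h2
      rw [h3]
      simp [TPX_.tay]
    · have h2 := (TPX_.main M z hQ.sm).2 x 0 (fun t _ w hw => by
        rw [hQ.top w hw.ge]
        simp) [] hM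
      have h3 : ‖Q x - TPX_.tay z M Q x‖ ≤ 0 := by
        simpa [pdw] using h2
      exact sub_eq_zero.mp (norm_le_zero_iff.mp h3)
  rw [h1]
  show ∑ m ∈ Finset.range M, TPX_.hm z m Q x = _
  exact Finset.sum_congr rfl (fun m _ => TEX_.hm_eq z x m hQ.sm)

end Pool.Agent.HBW
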