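import Pool.Agent.HBW.Stmts

/-!
Squad HBW, module TH1: one dimensional lattice sums of wide complex Gaussians (Poisson summation,
Cauchy estimates for the Fourier transform).
-/

set_option autoImplicit false

namespace Pool.Agent.HBW

open MeasureTheory Set Filter Topology
open scoped ENNReal Real FourierTransform

noncomputable section

namespace TH1_

/-- the polynomial factors of the derivatives of the Gaussian -/
def PP (ζ : ℂ) : ℕ → Polynomial ℂ
  | 0 => Polynomial.C (((π : ℂ) * ζ) ^ (-(1 / 2) : ℂ))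
  | a + 1 => Polynomial.derivative (PP ζ a) - Polynomial.C (2 / ζ) * Polynomial.X * PP ζ a

lemma hasDeriv_gauss (ζ x : ℂ) : HasDerivAt (fun x : ℂ => Complex.exp (-x ^ 2 / ζ))
    (Complex.exp (-x ^ 2 / ζ) * (-(2 * x) / ζ)) x := by
  have h1 : HasDerivAt (fun x : ℂ => -x ^ 2 / ζ) (-(2 * x) / ζ) x := by
    have h2 := ((hasDerivAt_pow 2 x).neg).div_const ζ
    simpa using h2
  exact h1.cexp

lemma hasDeriv_rep (ζ : ℂ) (a : ℕ) (x : ℂ) :
    HasDerivAt (fun x : ℂ => (PP ζ a).eval x * Complex.exp (-x ^ 2 / ζ))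
      ((PP ζ (a + 1)).eval x * Complex.exp (-x ^ 2 / ζ)) x := by
  have h1 := ((PP ζ a).hasDerivAt x).mul (hasDeriv_gauss ζ x)
  refine h1.congr_deriv ?_
  simp only [PP, Polynomial.eval_sub, Polynomial.eval_mul, Polynomial.eval_C, Polynomial.eval_X]
  ring

lemma rep (ζ : ℂ) (a : ℕ) : iteratedDeriv a (phc ζ) =
    fun x : ℂ => (PP ζ a).eval x * Complex.exp (-x ^ 2 / ζ) := by
  induction a with
  | zero =>
    rw [iteratedDeriv_zero]
    funext x
    simp only [PP, Polynomial.eval_C, phc]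
  | succ a ih =>
    rw [iteratedDeriv_succ, ih]
    funext x
    exact (hasDeriv_rep ζ a x).deriv

/-- the derivatives on the real axis, reflected -/
def G (ζ : ℂ) (a : ℕ) (t : ℝ) : ℂ := iteratedDeriv a (phc ζ) ((-t : ℝ) : ℂ)

lemma hasDeriv_G (ζ : ℂ) (a : ℕ) (t : ℝ) : HasDerivAt (G ζ a) (-(G ζ (a + 1) t)) t := by
  have h1 : HasDerivAt (iteratedDeriv a (phc ζ)) (iteratedDeriv (a + 1) (phc ζ) (-(t : ℂ)))
      (-(t : ℂ)) := by
    rw [rep, rep]
    exact hasDeriv_rep ζ a _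
  have h2 : HasDerivAt (fun s : ℂ => -s) (-1) (t : ℂ) := (hasDerivAt_id (t : ℂ)).neg
  have h3 : HasDerivAt (fun s : ℂ => iteratedDeriv a (phc ζ) (-s))
      (iteratedDeriv (a + 1) (phc ζ) (-(t : ℂ)) * (-1)) (t : ℂ) := HasDerivAt.comp _ h1 h2
  have h5 := h3.comp_ofReal
  have h6 : (fun y : ℝ => iteratedDeriv a (phc ζ) (-(y : ℂ))) = G ζ a := by
    funext y
    unfold G
    push_cast
    rfl
  rw [h6] at h5
  refine h5.congr_deriv ?_
  unfold G
  push_cast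
  ring

lemma fou_mul (c : ℂ) (f : ℝ → ℂ) (ν : ℝ) : 𝓕 (fun t => c * f t) ν = c * 𝓕 f ν := by
  rw [Real.fourier_real_eq_integral_exp_smul, Real.fourier_real_eq_integral_exp_smul,
    ← integral_const_mul]
  refine integral_congr_ae (Eventually.of_forall fun t => ?_)
  simp only [smul_eq_mul]
  ring

lemma inv_re {ζ : ℂ} (hζ : 0 < ζ.re) : 0 < (ζ⁻¹).re := by
  rw [Complex.inv_re]
  have h0 : ζ ≠ 0 := by
    intro h
    rw [h] at hζ
    simp at hζ
  exact div_pos hζ (Complex.normSq_pos.2 h0)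

/-- Fourier transform of the Gaussian -/
lemma fou0 {ζ : ℂ} (hζ : 0 < ζ.re) (ν : ℝ) :
    𝓕 (G ζ 0) ν = Complex.exp (-(π : ℂ) ^ 2 * ζ * (ν : ℂ) ^ 2) := by
  have h0 : ζ ≠ 0 := by
    intro h
    rw [h] at hζ
    simp at hζ
  have hπ : (π : ℂ) ≠ 0 := by exact_mod_cast Real.pi_ne_zero
  have hp : (π : ℂ) * ζ ≠ 0 := mul_ne_zero hπ h0
  have hpr : 0 < ((π : ℂ) * ζ).re := by
    rw [Complex.re_ofReal_mul]
    exact mul_pos Real.pi_pos hζ
  have h1 : G ζ 0 = fun t : ℝ => ((π : ℂ) * ζ) ^ (-(1 / 2) : ℂ) *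
      Complex.exp (-(π : ℂ) * ((π : ℂ) * ζ)⁻¹ * (t : ℂ) ^ 2) := by
    funext t
    unfold G
    rw [iteratedDeriv_zero]
    unfold phc
    congr 2
    push_cast
    field_simp
  rw [h1, fou_mul, fourier_gaussian_pi (inv_re hpr)]
  simp only
  rw [Complex.inv_cpow, div_inv_eq_mul, one_mul, ← mul_assoc, ← Complex.cpow_add _ _ hp]
  · have e1 : (-(1 / 2) : ℂ) + 1 / 2 = 0 := by ring
    rw [e1, Complex.cpow_zero, one_mul]
    congr 1
    field_simp
  · intro harg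
    rw [Complex.arg_eq_pi_iff] at harg
    linarith [harg.1]

/-- the entire function whose restriction is the Fourier transform of `G ζ a` -/
def HH (ζ : ℂ) (a : ℕ) (w : ℂ) : ℂ :=
  (-(2 * (π : ℂ) * Complex.I * w)) ^ a * Complex.exp (-(π : ℂ) ^ 2 * ζ * w ^ 2)

lemma fouG {ζ : ℂ} (hζ : 0 < ζ.re) (hI : ∀ a, Integrable (G ζ a)) (a : ℕ) (ν : ℝ) :
    𝓕 (G ζ a) ν = HH ζ a ν := by
  induction a with
  | zero =>
    rw [fou0 hζ]
    unfold HH
    rw [pow_zero, one_mul]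
  | succ a ih =>
    have hd : deriv (G ζ a) = fun t => (-1 : ℂ) * G ζ (a + 1) t := by
      funext t
      rw [(hasDeriv_G ζ a t).deriv]
      ring
    have h1 := Real.fourier_deriv (hI a) (fun t => (hasDeriv_G ζ a t).differentiableAt)
      (by rw [hd]; exact (hI (a + 1)).const_mul _)
    rw [hd] at h1
    have h2 := congrFun h1 ν
    rw [fou_mul, ih] at h2
    simp only [smul_eq_mul] at h2
    have h3 : 𝓕 (G ζ (a + 1)) ν = -(2 * π * Complex.I * ν * HH ζ a ν) := by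
      linear_combination -h2
    rw [h3]
    unfold HH
    rw [pow_succ]
    ring

lemma HH_diff (ζ : ℂ) (a : ℕ) : Differentiable ℂ (HH ζ a) := by
  unfold HH
  fun_prop

/-- real and complex iterated derivatives of an entire function -/
lemma iter_real (H : ℂ → ℂ) (hH : Differentiable ℂ H) (b : ℕ) :
    iteratedDeriv b (fun ν : ℝ => H (ν : ℂ)) = fun ν : ℝ => iteratedDeriv b H (ν : ℂ) := by
  induction b with
  | zero =>
    funext ν
    simp
  | succ b ih =>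
    rw [iteratedDeriv_succ, ih]
    funext ν
    have hc : ContDiff ℂ ((b + 1 : ℕ) : WithTop ℕ∞) H := hH.contDiff
    have h1 : Differentiable ℂ (iteratedDeriv b H) :=
      hc.differentiable_iteratedDeriv b (by exact_mod_cast Nat.lt_succ_self b)
    have h2 := (h1 (ν : ℂ)).hasDerivAt.comp_ofReal
    rw [h2.deriv, iteratedDeriv_succ]

lemma fouGb {ζ : ℂ} (hζ : 0 < ζ.re)
    (hI : ∀ a b : ℕ, Integrable (fun t : ℝ => G ζ a t * (t : ℂ) ^ b)) (a b : ℕ) (ν : ℝ) :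
    (-2 * (π : ℂ) * Complex.I) ^ b * 𝓕 (fun t : ℝ => G ζ a t * (t : ℂ) ^ b) ν =
      iteratedDeriv b (HH ζ a) (ν : ℂ) := by
  have hIG : ∀ a, Integrable (G ζ a) := fun a => by
    simpa using hI a 0
  have h1 := Real.iteratedDeriv_fourier (f := G ζ a) (N := (b : ℕ∞)) (n := b) (fun n _ => by
    refine (hI a n).congr (Eventually.of_forall fun t => ?_)
    simp only [Complex.real_smul]
    push_cast
    ring) le_rfl
  have h2 : (fun x : ℝ => (-2 * (π : ℂ) * Complex.I * x) ^ b • G ζ a x) =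
      fun x : ℝ => (-2 * (π : ℂ) * Complex.I) ^ b * (G ζ a x * (x : ℂ) ^ b) := by
    funext x
    rw [smul_eq_mul, mul_pow]
    ring
  rw [h2] at h1
  have h3 := congrFun h1 ν
  rw [fou_mul] at h3
  rw [← h3]
  have h4 : 𝓕 (G ζ a) = fun ν : ℝ => HH ζ a (ν : ℂ) := by
    funext ν
    exact fouG hζ hIG a ν
  rw [h4, iter_real _ (HH_diff ζ a)]

lemma zbd {τ : ℝ} {ζ : ℂ} (h : ‖ζ - τ‖ ≤ τ / 2) : τ / 2 ≤ ζ.re ∧ ‖ζ‖ ≤ 3 * τ / 2 := by
  have h1 : |(ζ - τ).re| ≤ τ / 2 := (Complex.abs_re_le_norm _).trans h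
  have h2 : (ζ - τ).re = ζ.re - τ := by simp
  rw [h2, abs_le] at h1
  have hτ : 0 ≤ τ := by
    have := (norm_nonneg (ζ - τ)).trans h
    linarith
  refine ⟨by linarith, ?_⟩
  calc ‖ζ‖ = ‖(ζ - τ) + τ‖ := by rw [sub_add_cancel]
    _ ≤ ‖ζ - τ‖ + ‖(τ : ℂ)‖ := norm_add_le _ _
    _ ≤ 3 * τ / 2 := by
        rw [Complex.norm_real, Real.norm_of_nonneg hτ]
        linarith

lemma HHbd {τ : ℝ} (hτ : 64 ≤ τ) {ζ : ℂ} (hζ : ‖ζ - τ‖ ≤ τ / 2) (a : ℕ) (n : ℤ) (hn : n ≠ 0) (w : ℂ)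
    (hw : ‖w - (n : ℂ)‖ = (16 * π)⁻¹) : ‖HH ζ a w‖ ≤ a.factorial * Real.exp (-3 * τ * |(n : ℝ)|) := by
  obtain ⟨hre, hnm⟩ := zbd hζ
  set N : ℝ := |(n : ℝ)| with hN
  have hN1 : 1 ≤ N := by
    rw [hN]
    exact_mod_cast Int.one_le_abs hn
  have hπ3 := Real.pi_gt_three
  have hπ4 := Real.pi_lt_d2
  have hh : (16 * π)⁻¹ ≤ 1 / 48 := by
    rw [inv_le_comm₀ (by positivity) (by norm_num)]
    norm_num
    linarith
  have hh0 : 0 ≤ (16 * π)⁻¹ := by positivity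
  have hnN : ‖(n : ℂ)‖ = N := by
    rw [Complex.norm_intCast]
  have hwn : ‖w‖ ≤ N + 1 / 48 := by
    calc ‖w‖ = ‖(w - n) + n‖ := by rw [sub_add_cancel]
      _ ≤ ‖w - (n : ℂ)‖ + ‖(n : ℂ)‖ := norm_add_le _ _
      _ ≤ N + 1 / 48 := by
          rw [hw, hnN]
          linarith
  unfold HH
  rw [norm_mul, norm_pow, Complex.norm_exp]
  have e1 : ‖-(2 * (π : ℂ) * Complex.I * w)‖ = 2 * π * ‖w‖ := by
    rw [norm_neg, norm_mul, norm_mul, norm_mul, Complex.norm_I, Complex.norm_real,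
      Real.norm_of_nonneg Real.pi_pos.le]
    simp
  rw [e1]
  have h1 : (2 * π * ‖w‖) ^ a ≤ a.factorial * Real.exp (2 * π * ‖w‖) := by
    have := Real.pow_div_factorial_le_exp (2 * π * ‖w‖) (by positivity) a
    rw [div_le_iff₀ (by positivity)] at this
    linarith
  have h2 : 2 * π * ‖w‖ ≤ 7 * N := by
    have a1 : 2 * π * ‖w‖ ≤ 2 * 3.15 * (N + 1 / 48) := by
      have : 2 * π ≤ 2 * 3.15 := by linarith
      exact mul_le_mul this hwn (norm_nonneg _) (by norm_num)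
    linarith
  have h3 : (-(π : ℂ) ^ 2 * ζ * w ^ 2).re ≤ -(387 / 100) * τ * N ^ 2 := by
    have a1 : (-(π : ℂ) ^ 2 * ζ * w ^ 2) = ((-π ^ 2 : ℝ) : ℂ) * (ζ * w ^ 2) := by
      push_cast
      ring
    rw [a1, Complex.re_ofReal_mul]
    have a2 : ζ * w ^ 2 = (((n : ℝ) ^ 2 : ℝ) : ℂ) * ζ + ζ * (2 * n * (w - n) + (w - n) ^ 2) := by
      push_cast
      ring
    have a3 : ‖ζ * (2 * n * (w - n) + (w - n) ^ 2)‖ ≤ (3 * τ / 2) * (N ^ 2 * (97 / 2304)) := by
      rw [norm_mul]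
      refine mul_le_mul hnm ?_ (norm_nonneg _) (by linarith)
      refine (norm_add_le _ _).trans ?_
      rw [norm_mul, norm_mul, norm_pow, hw, hnN]
      have : ‖(2 : ℂ)‖ = 2 := by simp
      rw [this]
      have b1 : 2 * N * (16 * π)⁻¹ ≤ 2 * N * (1 / 48) :=
        mul_le_mul_of_nonneg_left hh (by linarith)
      have b2 : (16 * π)⁻¹ ^ 2 ≤ (1 / 48) ^ 2 := pow_le_pow_left₀ hh0 hh 2
      nlinarith
    have a4 : -((3 * τ / 2) * (N ^ 2 * (97 / 2304))) ≤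
        (ζ * (2 * n * (w - n) + (w - n) ^ 2)).re := by
      have := Complex.abs_re_le_norm (ζ * (2 * n * (w - n) + (w - n) ^ 2))
      have := (abs_le.1 (this.trans a3)).1
      exact this
    have a5 : N ^ 2 * (τ / 2) ≤ ((((n : ℝ) ^ 2 : ℝ) : ℂ) * ζ).re := by
      rw [Complex.re_ofReal_mul, hN, sq_abs]
      exact mul_le_mul_of_nonneg_left hre (sq_nonneg _)
    have a6 : (43 / 100) * τ * N ^ 2 ≤ (ζ * w ^ 2).re := by
      rw [a2, Complex.add_re]
      nlinarith [mul_nonneg (show (0:ℝ) ≤ τ by linarith) (sq_nonneg N)]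
    have a7 : 9 ≤ π ^ 2 := by nlinarith
    have a8 : 0 ≤ (43 / 100) * τ * N ^ 2 := by positivity
    nlinarith [mul_le_mul a7 a6 a8 (by positivity)]
  have h4 : Real.exp (2 * π * ‖w‖) * Real.exp ((-(π : ℂ) ^ 2 * ζ * w ^ 2).re) ≤
      Real.exp (-3 * τ * N) := by
    rw [← Real.exp_add]
    refine Real.exp_le_exp.2 ?_
    have b1 : τ * N ≤ τ * N ^ 2 := by
      have : N ≤ N ^ 2 := by nlinarith
      exact mul_le_mul_of_nonneg_left this (by linarith)
    have b2 : 64 * N ≤ τ * N := mul_le_mul_of_nonneg_right hτ (by linarith)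
    nlinarith
  calc (2 * π * ‖w‖) ^ a * Real.exp ((-(π : ℂ) ^ 2 * ζ * w ^ 2).re)
      ≤ (a.factorial * Real.exp (2 * π * ‖w‖)) * Real.exp ((-(π : ℂ) ^ 2 * ζ * w ^ 2).re) :=
        mul_le_mul_of_nonneg_right h1 (Real.exp_pos _).le
    _ = a.factorial * (Real.exp (2 * π * ‖w‖) * Real.exp ((-(π : ℂ) ^ 2 * ζ * w ^ 2).re)) := by
        ring
    _ ≤ a.factorial * Real.exp (-3 * τ * N) := mul_le_mul_of_nonneg_left h4 (by positivity)

lemma coef {τ : ℝ} (hτ : 64 ≤ τ) {ζ : ℂ} (hζ : ‖ζ - τ‖ ≤ τ / 2)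
    (hI : ∀ a b : ℕ, Integrable (fun t : ℝ => G ζ a t * (t : ℂ) ^ b)) (a b : ℕ) (n : ℤ)
    (hn : n ≠ 0) : ‖𝓕 (fun t : ℝ => G ζ a t * (t : ℂ) ^ b) (n : ℝ)‖ ≤
      a.factorial * b.factorial * 8 ^ b * Real.exp (-3 * τ * |(n : ℝ)|) := by
  have hre : 0 < ζ.re := by
    have := (zbd hζ).1
    linarith
  have hπ := Real.pi_pos
  have h1 := fouGb hre hI a b (n : ℝ)
  have hh : 0 < (16 * π)⁻¹ := by positivity
  have h2 := Complex.norm_iteratedDeriv_le_of_forall_mem_sphere_norm_le b hh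
    (HH_diff ζ a).diffContOnCl (C := a.factorial * Real.exp (-3 * τ * |(n : ℝ)|)) (c := (n : ℂ))
    (fun z hz => HHbd hτ hζ a n hn z (by
      rw [← dist_eq_norm]
      exact hz))
  have e0 : (((n : ℝ) : ℂ)) = (n : ℂ) := by push_cast; rfl
  rw [e0] at h1
  rw [← h1, norm_mul, norm_pow] at h2
  have e1 : ‖(-2 * (π : ℂ) * Complex.I)‖ = 2 * π := by
    rw [norm_mul, norm_mul, Complex.norm_I, Complex.norm_real, Real.norm_of_nonneg hπ.le]
    simp
  rw [e1, inv_pow, div_inv_eq_mul] at h2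
  have e2 : (16 * π) ^ b = (2 * π) ^ b * 8 ^ b := by
    rw [← mul_pow]
    congr 1
    ring
  rw [e2] at h2
  have h3 : (2 * π) ^ b * ‖𝓕 (fun t : ℝ => G ζ a t * (t : ℂ) ^ b) (n : ℝ)‖ ≤
      (2 * π) ^ b * (a.factorial * b.factorial * 8 ^ b * Real.exp (-3 * τ * |(n : ℝ)|)) := by
    refine h2.trans (le_of_eq ?_)
    ring
  exact le_of_mul_le_mul_left h3 (by positivity)

/-- geometric bound of the sum over the nonzero integers -/
lemma geo {r : ℝ} (hr0 : 0 ≤ r) (hr : r ≤ 1 / 3) :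
    Summable (fun n : ℤ => if n = 0 then (0 : ℝ) else r ^ n.natAbs) ∧
      ∑' n : ℤ, (if n = 0 then (0 : ℝ) else r ^ n.natAbs) ≤ 3 * r := by
  have hr1 : r < 1 := by linarith
  have hg : HasSum (fun n : ℕ => r ^ (n + 1)) (r * (1 - r)⁻¹) := by
    have h := (hasSum_geometric_of_lt_one hr0 hr1).mul_left r
    have e : (fun n : ℕ => r ^ (n + 1)) = fun n : ℕ => r * r ^ n := by
      funext n
      rw [pow_succ]
      ring
    rw [e]
    exact h
  set f : ℤ → ℝ := fun n => if n = 0 then (0 : ℝ) else r ^ n.natAbs with hf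
  have f0 : f 0 = 0 := by simp [hf]
  have fp : ∀ n : ℕ, f ((n + 1 : ℕ) : ℤ) = r ^ (n + 1) := by
    intro n
    have h0 : ((n + 1 : ℕ) : ℤ) ≠ 0 := by positivity
    simp only [hf, if_neg h0, Int.natAbs_natCast]
  have fn : ∀ n : ℕ, f (-((n : ℤ) + 1)) = r ^ (n + 1) := by
    intro n
    have h0 : (-((n : ℤ) + 1)) ≠ 0 := by omega
    have h3 : (-((n : ℤ) + 1)).natAbs = n + 1 := by omega
    simp only [hf, if_neg h0, h3]
  have h1 : HasSum (fun n : ℕ => f (n : ℤ)) (r * (1 - r)⁻¹) := by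
    have h := (hasSum_nat_add_iff (f := fun n : ℕ => f (n : ℤ)) (g := r * (1 - r)⁻¹) 1).1 (by
        simp only [fp]
        exact hg)
    simpa [f0] using h
  have h2 : HasSum (fun n : ℕ => f (-((n : ℤ) + 1))) (r * (1 - r)⁻¹) := by
    simp only [fn]
    exact hg
  have h := HasSum.of_nat_of_neg_add_one h1 h2
  refine ⟨h.summable, ?_⟩
  rw [h.tsum_eq]
  have h4 : (1 - r)⁻¹ ≤ 3 / 2 := by
    rw [inv_le_comm₀ (by linarith) (by norm_num)]
    norm_num
    linarith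
  nlinarith

theorem sum1 (κ A a c : ℝ) (hκ : 0 < κ) :
    Summable fun n : ℤ => Real.exp (-κ * (a - n) ^ 2 + A * |a - n| + c) := by
  have h0 : Summable fun n : ℤ => Real.exp (-|(n : ℝ)|) := by
    rw [summable_int_iff_summable_nat_and_neg]
    constructor
    · refine Real.summable_exp_neg_nat.congr fun n => ?_
      simp
    · refine Real.summable_exp_neg_nat.congr fun n => ?_
      simp
  refine Summable.of_nonneg_of_le (fun n => (Real.exp_pos _).le) (fun n => ?_)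
    (h0.mul_left (Real.exp ((A + 1) ^ 2 / (4 * κ) + |a| + c)))
  rw [← Real.exp_add]
  apply Real.exp_le_exp.2
  set x : ℝ := |a - n| with hx
  have h1 : (a - n) ^ 2 = x ^ 2 := by rw [hx, sq_abs]
  have h2 : |(n : ℝ)| ≤ x + |a| := by
    have : (n : ℝ) = -(a - n) + a := by ring
    calc |(n : ℝ)| = |-(a - n) + a| := by rw [← this]
      _ ≤ |-(a - n)| + |a| := abs_add_le _ _
      _ = x + |a| := by rw [abs_neg]
  have h3 : 0 ≤ κ * (x - (A + 1) / (2 * κ)) ^ 2 := by positivity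
  have h4 : κ * (x - (A + 1) / (2 * κ)) ^ 2 = κ * x ^ 2 - (A + 1) * x + (A + 1) ^ 2 / (4 * κ) := by
    field_simp
    ring
  rw [h4] at h3
  rw [h1]
  linarith

lemma quad (κ A x : ℝ) (hκ : 0 < κ) : -κ * x ^ 2 + A * |x| ≤ A ^ 2 / (4 * κ) := by
  have h3 : 0 ≤ κ * (|x| - A / (2 * κ)) ^ 2 := by positivity
  have h4 : κ * (|x| - A / (2 * κ)) ^ 2 = κ * x ^ 2 - A * |x| + A ^ 2 / (4 * κ) := by
    rw [← sq_abs x]
    field_simp
    ring
  linarith

/-- Gaussian decay -/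
lemma decay (hPHB : Stmt_PHB) {ζ : ℂ} (hζ : 0 < ζ.re) (a b : ℕ) : ∃ K κ A : ℝ, 0 ≤ K ∧ 0 < κ ∧
    ∀ t : ℝ, ‖G ζ a t * (t : ℂ) ^ b‖ ≤ K * Real.exp (-κ * t ^ 2 + A * |t|) := by
  have h0 : ζ ≠ 0 := by
    intro h
    rw [h] at hζ
    simp at hζ
  have hm : 0 < ‖ζ‖ := norm_pos_iff.2 h0
  refine ⟨a.factorial * (Real.sqrt (π * ‖ζ‖))⁻¹ * b.factorial * Real.exp (1 / ‖ζ‖), (ζ⁻¹).re,
    2 / ‖ζ‖ + 1, by positivity, inv_re hζ, fun t => ?_⟩
  have h1 := hPHB ζ (ζ⁻¹).re ‖ζ‖ 1 (-t) a hm le_rfl hζ le_rfl one_pos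
  have h2 : ‖(t : ℂ) ^ b‖ ≤ b.factorial * Real.exp |t| := by
    rw [norm_pow, Complex.norm_real, Real.norm_eq_abs]
    have := Real.pow_div_factorial_le_exp |t| (abs_nonneg t) b
    rw [div_le_iff₀ (by positivity)] at this
    linarith
  rw [norm_mul]
  unfold G
  refine (mul_le_mul h1 h2 (norm_nonneg _) (by positivity)).trans (le_of_eq ?_)
  rw [inv_one, one_pow, abs_neg, neg_sq]
  have e1 : Real.exp (-(ζ⁻¹).re * t ^ 2 + (2 / ‖ζ‖ + 1) * |t|) * Real.exp (1 / ‖ζ‖) =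
      Real.exp (-(ζ⁻¹).re * t ^ 2 + (2 * |t| * 1 + 1 ^ 2) / ‖ζ‖) * Real.exp |t| := by
    rw [← Real.exp_add, ← Real.exp_add]
    congr 1
    ring
  calc a.factorial * 1 * (Real.sqrt (π * ‖ζ‖))⁻¹ *
        Real.exp (-(ζ⁻¹).re * t ^ 2 + (2 * |t| * 1 + 1 ^ 2) / ‖ζ‖) * (b.factorial * Real.exp |t|)
      = a.factorial * (Real.sqrt (π * ‖ζ‖))⁻¹ * b.factorial *
        (Real.exp (-(ζ⁻¹).re * t ^ 2 + (2 * |t| * 1 + 1 ^ 2) / ‖ζ‖) * Real.exp |t|) := by ring
    _ = a.factorial * (Real.sqrt (π * ‖ζ‖))⁻¹ * b.factorial *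
        (Real.exp (-(ζ⁻¹).re * t ^ 2 + (2 / ‖ζ‖ + 1) * |t|) * Real.exp (1 / ‖ζ‖)) := by rw [e1]
    _ = _ := by ring

lemma bigO {f : ℝ → ℂ} {K κ A : ℝ} (hK : 0 ≤ K) (hκ : 0 < κ)
    (hf : ∀ t : ℝ, ‖f t‖ ≤ K * Real.exp (-κ * t ^ 2 + A * |t|)) :
    f =O[cocompact ℝ] (fun x : ℝ => |x| ^ (-2 : ℝ)) := by
  refine Asymptotics.IsBigO.of_bound (2 * K * Real.exp ((A + 1) ^ 2 / (4 * κ))) ?_
  filter_upwards [(isCompact_singleton (x := (0 : ℝ))).compl_mem_cocompact] with x hx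
  have hx0 : x ≠ 0 := hx
  have hxa : 0 < |x| := abs_pos.2 hx0
  have e1 : |x| ^ (-2 : ℝ) = (|x| ^ 2)⁻¹ := by
    rw [Real.rpow_neg hxa.le]
    congr 1
    exact_mod_cast Real.rpow_natCast |x| 2
  rw [e1, Real.norm_of_nonneg (by positivity), ← div_eq_mul_inv, le_div_iff₀ (by positivity)]
  have h1 : |x| ^ 2 ≤ 2 * Real.exp |x| := by
    have := Real.pow_div_factorial_le_exp |x| (abs_nonneg x) 2
    rw [div_le_iff₀ (by positivity)] at this
    norm_num at this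
    simp only [sq_abs]
    linarith
  calc ‖f x‖ * |x| ^ 2 ≤ (K * Real.exp (-κ * x ^ 2 + A * |x|)) * (2 * Real.exp |x|) :=
        mul_le_mul (hf x) h1 (by positivity) (by positivity)
    _ = 2 * K * Real.exp (-κ * x ^ 2 + (A + 1) * |x|) := by
        have : Real.exp (-κ * x ^ 2 + (A + 1) * |x|) =
            Real.exp (-κ * x ^ 2 + A * |x|) * Real.exp |x| := by
          rw [← Real.exp_add]
          congr 1
          ring
        rw [this]
        ring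
    _ ≤ 2 * K * Real.exp ((A + 1) ^ 2 / (4 * κ)) := by
        refine mul_le_mul_of_nonneg_left (Real.exp_le_exp.2 (quad κ (A + 1) x hκ)) (by positivity)

end TH1_

open TH1_ in
theorem th1_proof (hIN1 : Stmt_IN1) (hPHB : Stmt_PHB) : Stmt_TH1 := by
  intro τ ζ a b x hτ hζ
  have hre : 0 < ζ.re := by
    have := (zbd hζ).1
    linarith
  have hI : ∀ a b : ℕ, Integrable (fun t : ℝ => G ζ a t * (t : ℂ) ^ b) := fun a b =>
    (hIN1 ζ a b hre).1
  obtain ⟨K, κ, A, hK, hκ, hd⟩ := decay hPHB hre a b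
  set f : ℝ → ℂ := fun t => G ζ a t * (t : ℂ) ^ b with hf
  have hterm : ∀ k : ℤ, iteratedDeriv a (phc ζ) ((x - k : ℝ) : ℂ) * (((k : ℝ) - x : ℝ) : ℂ) ^ b =
      f (-x + k) := by
    intro k
    simp only [hf, G]
    have e1 : (x - (k : ℝ)) = -(-x + (k : ℝ)) := by ring
    have e2 : ((k : ℝ) - x) = -x + (k : ℝ) := by ring
    rw [e1, e2]
  have hfc : Continuous f := by
    have h1 : Continuous (G ζ a) := continuous_iff_continuousAt.2 fun t =>
      (hasDeriv_G ζ a t).continuousAt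
    exact h1.mul (Complex.continuous_ofReal.pow b)
  constructor
  · refine Summable.of_nonneg_of_le (fun k => norm_nonneg _) (fun k => ?_)
      ((sum1 κ A x 0 hκ).mul_left K)
    rw [hterm]
    refine (hd _).trans (le_of_eq ?_)
    have e1 : (-x + (k : ℝ)) ^ 2 = (x - k) ^ 2 := by ring
    have e2 : |(-x + (k : ℝ))| = |x - k| := by
      rw [← abs_neg]
      congr 1
      ring
    rw [e1, e2, add_zero]
  · simp only [hterm]
    set r : ℝ := Real.exp (-3 * τ) with hr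
    have hr0 : 0 ≤ r := (Real.exp_pos _).le
    have hr3 : r ≤ 1 / 3 := by
      have h1 : Real.exp (-3 * τ) ≤ Real.exp (-2) := Real.exp_le_exp.2 (by linarith)
      have h2 : (3 : ℝ) ≤ Real.exp 2 := by
        have := Real.add_one_le_exp (2 : ℝ)
        linarith
      have h3 : Real.exp (-2) ≤ 1 / 3 := by
        rw [Real.exp_neg, inv_le_comm₀ (Real.exp_pos 2) (by norm_num)]
        norm_num
        exact h2
      exact h1.trans h3
    obtain ⟨hgs, hgt⟩ := geo hr0 hr3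
    set c : ℝ := a.factorial * b.factorial * 8 ^ b with hc
    have hc0 : 0 ≤ c := by positivity
    have hexp : ∀ n : ℤ, Real.exp (-3 * τ * |(n : ℝ)|) = r ^ n.natAbs := by
      intro n
      rw [hr, ← Real.exp_nat_mul]
      congr 1
      rw [Nat.cast_natAbs]
      push_cast
      ring
    have hcoef : ∀ n : ℤ, n ≠ 0 → ‖𝓕 f (n : ℝ)‖ ≤ c * r ^ n.natAbs := by
      intro n hn
      rw [← hexp]
      exact coef hτ hζ hI a b n hn
    have hbd : ∀ n : ℤ, ‖𝓕 f (n : ℝ)‖ ≤ (if n = 0 then ‖𝓕 f 0‖ else 0) +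
        c * (if n = 0 then 0 else r ^ n.natAbs) := by
      intro n
      by_cases hn : n = 0
      · rw [if_pos hn, if_pos hn, hn]
        simp
      · rw [if_neg hn, if_neg hn, zero_add]
        exact hcoef n hn
    have hgB : Summable (fun n : ℤ => (if n = 0 then ‖𝓕 f 0‖ else 0) +
        c * (if n = 0 then 0 else r ^ n.natAbs)) :=
      (hasSum_ite_eq (0 : ℤ) ‖𝓕 f 0‖).summable.add (hgs.mul_left c)
    have hFs : Summable fun n : ℤ => 𝓕 f (n : ℝ) := Summable.of_norm_bounded hgB hbd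
    have hP := Real.tsum_eq_tsum_fourier_of_rpow_decay_of_summable hfc one_lt_two
      (bigO hK hκ hd) hFs (-x)
    rw [hP]
    have hone : ∀ n : ℤ, ‖fourier n ((-x : ℝ) : UnitAddCircle)‖ = 1 := fun n => by
      rw [fourier_apply]
      exact Circle.norm_coe _
    have hEs : Summable fun n : ℤ => 𝓕 f (n : ℝ) * fourier n ((-x : ℝ) : UnitAddCircle) := by
      refine Summable.of_norm_bounded hgB fun n => ?_
      rw [norm_mul, hone, mul_one]
      exact hbd n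
    rw [hEs.tsum_eq_add_tsum_ite 0]
    have hF0 : 𝓕 f ((0 : ℤ) : ℝ) = ∫ t, f t := by
      rw [Real.fourier_real_eq_integral_exp_smul]
      simp
    have hint : (∫ t : ℝ, iteratedDeriv a (phc ζ) ((-t : ℝ) : ℂ) * (t : ℂ) ^ b) = ∫ t, f t := rfl
    rw [hint, hF0, fourier_zero, mul_one, add_sub_cancel_left]
    have hlast : ‖∑' n : ℤ, (if n = 0 then 0 else
        𝓕 f (n : ℝ) * fourier n ((-x : ℝ) : UnitAddCircle))‖ ≤ c * (3 * r) := by
      have h1 := tsum_of_norm_bounded (f := fun n : ℤ => (if n = 0 then 0 else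
        𝓕 f (n : ℝ) * fourier n ((-x : ℝ) : UnitAddCircle))) (hgs.hasSum.mul_left c) (fun n => by
          by_cases hn : n = 0
          · rw [if_pos hn, if_pos hn]
            simp
          · rw [if_neg hn, if_neg hn, norm_mul, hone, mul_one]
            exact hcoef n hn)
      exact h1.trans (mul_le_mul_of_nonneg_left hgt hc0)
    refine hlast.trans (le_of_eq ?_)
    rw [hc, hr]
    ring

end

end Pool.Agent.HBW
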