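import Pool.Agent.HBW.SMO

set_option autoImplicit false

namespace Pool.Agent.HBW

open MeasureTheory Set Filter Topology
open scoped ENNReal Real

namespace TPX_

open SMO_

variable {D : ℕ} {X : Type} [NormedAddCommGroup X] [NormedSpace ℝ X]

/-- homogeneous part of degree `m` of the Taylor expansion at `z` -/
noncomputable def hm (z : P D) : ℕ → (P D → X) → P D → X
  | 0, f => fun _ => f z
  | (m + 1), f => fun x => (1 / ((m : ℝ) + 1)) • ∑ i, (x i - z i) • hm z m (pd i f) x

/-- Taylor polynomial -/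
noncomputable def tay (z : P D) (M : ℕ) (f : P D → X) : P D → X :=
  fun x => ∑ m ∈ Finset.range M, hm z m f x

theorem smo_coord (z : P D) (i : Fin D) : Smo (fun x : P D => x i - z i) :=
  (contDiff_apply ℝ ℝ i).sub contDiff_const

theorem smo_hm (z : P D) (m : ℕ) : ∀ (f : P D → X), Smo (hm z m f) := by
  induction m with
  | zero => intro f; exact contDiff_const
  | succ m ih =>
    intro f
    show Smo (fun x => (1 / ((m : ℝ) + 1)) • ∑ i, (x i - z i) • hm z m (pd i f) x)
    exact contDiff_const.smul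
      (ContDiff.sum (fun i _ => (smo_coord z i).smul (ih (pd i f))))

theorem smo_tay (z : P D) (M : ℕ) (f : P D → X) : Smo (tay z M f) :=
  ContDiff.sum (fun m _ => smo_hm z m f)

theorem pd_prod (z : P D) (i j : Fin D) {g : P D → X} (hg : Differentiable ℝ g) (x : P D) :
    pd j (fun y => (y i - z i) • g y) x =
      (if i = j then g x else 0) + (x i - z i) • pd j g x := by
  have h1 : HasFDerivAt (fun y : P D => y i - z i)
      (ContinuousLinearMap.proj (R := ℝ) (φ := fun _ : Fin D => ℝ) i) x :=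
    (hasFDerivAt_apply i x).sub_const (z i)
  have h2 := h1.smul (hg x).hasFDerivAt
  show fderiv ℝ (fun y => (y i - z i) • g y) x (Pi.single j 1) = _
  have h3 : fderiv ℝ (fun y => (y i - z i) • g y) x = _ := h2.fderiv
  rw [h3]
  by_cases hij : i = j
  · subst hij
    simp [pd, add_comm]
  · simp [pd, hij]

theorem pd_hm_zero (z : P D) (f : P D → X) (j : Fin D) : pd j (hm z 0 f) = fun _ => 0 := by
  funext x
  show fderiv ℝ (fun _ : P D => f z) x _ = 0
  simp

theorem pd_hm_succ (z : P D) (m : ℕ) : ∀ (f : P D → X), Smo f → ∀ j : Fin D,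
    pd j (hm z (m + 1) f) = hm z m (pd j f) := by
  induction m with
  | zero =>
    intro f hf j
    funext x
    have h1 : hm z 1 f = fun x => ∑ i, (x i - z i) • hm z 0 (pd i f) x := by
      funext x
      show (1 / (((0 : ℕ) : ℝ) + 1)) • _ = _
      norm_num
    rw [h1, pd_sum Finset.univ (F := fun i x => (x i - z i) • hm z 0 (pd i f) x)
      (fun i => smo_diff ((smo_coord z i).smul (smo_hm z 0 (pd i f)))) j]
    show ∑ i, pd j (fun y => (y i - z i) • hm z 0 (pd i f) y) x = _
    rw [Finset.sum_congr rfl (fun i _ => pd_prod z i j (smo_diff (smo_hm z 0 (pd i f))) x)]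
    rw [Finset.sum_add_distrib]
    have h2 : ∑ i, (x i - z i) • pd j (hm z 0 (pd i f)) x = 0 := by
      refine Finset.sum_eq_zero (fun i _ => ?_)
      rw [pd_hm_zero]
      simp
    rw [h2, add_zero]
    simp [hm]
  | succ m ih =>
    intro f hf j
    funext x
    have h1 : hm z (m + 2) f =
        fun x => (1 / (((m + 1 : ℕ) : ℝ) + 1)) • (∑ i, (x i - z i) • hm z (m + 1) (pd i f) x) := by
      rfl
    have hd : ∀ i, Differentiable ℝ (fun x : P D => (x i - z i) • hm z (m + 1) (pd i f) x) :=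
      fun i => smo_diff ((smo_coord z i).smul (smo_hm z (m + 1) (pd i f)))
    have hd2 : Differentiable ℝ (fun x : P D => ∑ i, (x i - z i) • hm z (m + 1) (pd i f) x) :=
      smo_diff (ContDiff.sum (fun i _ => (smo_coord z i).smul (smo_hm z (m + 1) (pd i f))))
    rw [h1, pd_smul hd2]
    show (1 / (((m + 1 : ℕ) : ℝ) + 1)) •
      pd j (fun x : P D => ∑ i, (x i - z i) • hm z (m + 1) (pd i f) x) x = _
    rw [pd_sum Finset.univ (F := fun i x => (x i - z i) • hm z (m + 1) (pd i f) x) hd j]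
    show (1 / (((m + 1 : ℕ) : ℝ) + 1)) •
      ∑ i, pd j (fun y => (y i - z i) • hm z (m + 1) (pd i f) y) x = _
    rw [Finset.sum_congr rfl (fun i _ => pd_prod z i j (smo_diff (smo_hm z (m + 1) (pd i f))) x)]
    rw [Finset.sum_add_distrib]
    have h2 : ∑ i, (x i - z i) • pd j (hm z (m + 1) (pd i f)) x =
        ((m : ℝ) + 1) • hm z (m + 1) (pd j f) x := by
      have h3 : hm z (m + 1) (pd j f) x =
          (1 / ((m : ℝ) + 1)) • ∑ i, (x i - z i) • hm z m (pd i (pd j f)) x := rfl
      rw [h3, smul_smul]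
      have h4 : ((m : ℝ) + 1) * (1 / ((m : ℝ) + 1)) = 1 := by
        have : ((m : ℝ) + 1) ≠ 0 := by positivity
        field_simp
      rw [h4, one_smul]
      refine Finset.sum_congr rfl (fun i _ => ?_)
      rw [ih (pd i f) (smo_pd hf i) j, pd_comm hf j i]
    rw [h2]
    simp only [Finset.sum_ite_eq', Finset.mem_univ, if_true]
    push_cast
    have h6 : ∀ v : X, v + ((m : ℝ) + 1) • v = (1 + ((m : ℝ) + 1)) • v := by
      intro v
      rw [add_smul (1 : ℝ), one_smul]
    rw [h6, smul_smul]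
    have h5 : 1 / ((m : ℝ) + 1 + 1) * (1 + ((m : ℝ) + 1)) = 1 := by
      have : ((m : ℝ) + 1 + 1) ≠ 0 := by positivity
      field_simp
      ring
    rw [h5, one_smul]

theorem pd_tay_succ (z : P D) (M : ℕ) {f : P D → X} (hf : Smo f) (j : Fin D) :
    pd j (tay z (M + 1) f) = tay z M (pd j f) := by
  have h1 : pd j (tay z (M + 1) f) = fun x => ∑ m ∈ Finset.range (M + 1), pd j (hm z m f) x :=
    pd_sum (Finset.range (M + 1)) (F := fun m x => hm z m f x)
      (fun m => smo_diff (smo_hm z m f)) j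
  rw [h1]
  funext x
  rw [Finset.sum_range_succ']
  rw [pd_hm_zero]
  simp only [add_zero]
  show _ = ∑ m ∈ Finset.range M, hm z m (pd j f) x
  refine Finset.sum_congr rfl (fun m _ => ?_)
  rw [pd_hm_succ z m f hf j]

theorem pd_tay (z : P D) (M : ℕ) {f : P D → X} (hf : Smo f) (j : Fin D) :
    pd j (tay z M f) = tay z (M - 1) (pd j f) := by
  cases M with
  | zero =>
    funext x
    show fderiv ℝ (fun x => ∑ m ∈ Finset.range 0, hm z m f x) x _ = _
    simp [tay]
  | succ M => exact pd_tay_succ z M hf j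

theorem pdw_tay (z : P D) (M : ℕ) {f : P D → X} (hf : Smo f) (w : List (Fin D)) :
    pdw w (tay z M f) = tay z (M - w.length) (pdw w f) := by
  induction w with
  | nil => rfl
  | cons i w ih =>
    show pd i (pdw w (tay z M f)) = _
    rw [ih, pd_tay z _ (smo_pdw hf w) i]
    simp only [List.length_cons]
    rw [Nat.sub_sub]
    rfl

theorem hm_at (z : P D) (m : ℕ) (f : P D → X) : hm z (m + 1) f z = 0 := by
  show (1 / ((m : ℝ) + 1)) • ∑ i, (z i - z i) • hm z m (pd i f) z = 0
  simp

theorem tay_at (z : P D) (M : ℕ) (f : P D → X) : tay z (M + 1) f z = f z := by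
  unfold tay
  rw [Finset.sum_range_succ']
  rw [Finset.sum_eq_zero (fun m _ => hm_at z m f), zero_add]
  rfl

theorem isPol_tay (z : P D) (M : ℕ) {f : P D → X} (hf : Smo f) : IsPol M (tay z M f) := by
  refine ⟨smo_tay z M f, ?_⟩
  intro w hw x
  rw [pdw_tay z M hf w, Nat.sub_eq_zero_of_le hw]
  simp [tay]

theorem fderiv_eq_sum {g : P D → X} (x h : P D) :
    fderiv ℝ g x h = ∑ i, h i • pd i g x := by
  conv_lhs => rw [pi_eq_sum_univ' h]
  rw [map_sum]
  refine Finset.sum_congr rfl (fun i _ => ?_)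
  rw [map_smul]
  rfl

/-- remainder -/
theorem rem_bound {M : ℕ} {R : P D → X} (hR : Smo R) (z y : P D) (b : ℝ)
    (h0 : ∀ w : List (Fin D), w.length < M → pdw w R z = 0)
    (hb : ∀ t ∈ Icc (0 : ℝ) 1, ∀ w : List (Fin D), w.length = M →
      ‖pdw w R (z + t • (y - z))‖ ≤ b) :
    ∀ k, k ≤ M → ∀ w : List (Fin D), w.length + k = M → ∀ t ∈ Icc (0 : ℝ) 1,
      ‖pdw w R (z + t • (y - z))‖ ≤ b * (D * ‖y - z‖) ^ k := by
  intro k
  induction k with
  | zero =>
    intro _ w hw t ht
    simpa using hb t ht w (by simpa using hw)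
  | succ k ih =>
    intro hk w hw t ht
    have hk' : k ≤ M := by omega
    have hder : ∀ s : ℝ, HasDerivAt (fun s : ℝ => pdw w R (z + s • (y - z)))
        (∑ i, (y - z) i • pdw (i :: w) R (z + s • (y - z))) s := by
      intro s
      have h1 : HasDerivAt (fun s : ℝ => z + s • (y - z)) (y - z) s := by
        have h2 := ((hasDerivAt_id s).smul_const (y - z)).const_add z
        simpa using h2
      have h3 := ((smo_diff (smo_pdw hR w)) (z + s • (y - z))).hasFDerivAt.comp_hasDerivAt s h1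
      rw [fderiv_eq_sum] at h3
      exact h3
    have hbd : ∀ s ∈ Icc (0 : ℝ) 1,
        ‖∑ i, (y - z) i • pdw (i :: w) R (z + s • (y - z))‖ ≤
          b * (D * ‖y - z‖) ^ (k + 1) := by
      intro s hs
      have h4 : ∀ i : Fin D, ‖(y - z) i • pdw (i :: w) R (z + s • (y - z))‖ ≤
          ‖y - z‖ * (b * (D * ‖y - z‖) ^ k) := by
        intro i
        rw [norm_smul]
        refine mul_le_mul (norm_le_pi_norm (y - z) i) ?_ (norm_nonneg _) (norm_nonneg _)
        exact ih hk' (i :: w) (by simp only [List.length_cons]; omega) s hs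
      calc ‖∑ i, (y - z) i • pdw (i :: w) R (z + s • (y - z))‖
          ≤ ∑ i : Fin D, ‖(y - z) i • pdw (i :: w) R (z + s • (y - z))‖ := norm_sum_le _ _
        _ ≤ ∑ _i : Fin D, ‖y - z‖ * (b * (D * ‖y - z‖) ^ k) :=
            Finset.sum_le_sum (fun i _ => h4 i)
        _ = b * (D * ‖y - z‖) ^ (k + 1) := by
            rw [Finset.sum_const, Finset.card_univ, Fintype.card_fin, nsmul_eq_mul]
            ring
    have hmv := norm_image_sub_le_of_norm_deriv_le_segment'
      (f := fun s : ℝ => pdw w R (z + s • (y - z)))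
      (f' := fun s => ∑ i, (y - z) i • pdw (i :: w) R (z + s • (y - z)))
      (a := 0) (b := 1) (C := b * (D * ‖y - z‖) ^ (k + 1))
      (fun s _ => (hder s).hasDerivWithinAt)
      (fun s hs => hbd s ⟨hs.1, hs.2.le⟩) t ht
    have hz : pdw w R (z + (0 : ℝ) • (y - z)) = 0 := by
      rw [zero_smul, add_zero]
      exact h0 w (by omega)
    have hC : 0 ≤ b * (D * ‖y - z‖) ^ (k + 1) :=
      le_trans (norm_nonneg _) (hbd 0 ⟨le_rfl, zero_le_one⟩)
    calc ‖pdw w R (z + t • (y - z))‖
        = ‖pdw w R (z + t • (y - z)) - pdw w R (z + (0 : ℝ) • (y - z))‖ := by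
          rw [hz, sub_zero]
      _ ≤ b * (D * ‖y - z‖) ^ (k + 1) * (t - 0) := hmv
      _ ≤ b * (D * ‖y - z‖) ^ (k + 1) * 1 := by
          refine mul_le_mul_of_nonneg_left ?_ hC
          linarith [ht.2]
      _ = b * (D * ‖y - z‖) ^ (k + 1) := mul_one _

theorem pdw_sub {f g : P D → X} (hf : Smo f) (hg : Smo g) (w : List (Fin D)) :
    pdw w (fun x => f x - g x) = fun x => pdw w f x - pdw w g x := by
  have h1 : (fun x => f x - g x) = fun x => f x + (-1 : ℝ) • g x := by
    funext x
    rw [neg_one_smul, sub_eq_add_neg]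
  have hg' : Smo (fun x => (-1 : ℝ) • g x) := contDiff_const.smul hg
  rw [h1, pdw_add hf hg' w, pdw_smul hg w (-1)]
  funext x
  show pdw w f x + (-1 : ℝ) • pdw w g x = _
  rw [neg_one_smul, ← sub_eq_add_neg]

theorem main (M : ℕ) {f : P D → X} (z : P D) (hf : Smo f) :
    (∀ w : List (Fin D), w.length < M → pdw w (tay z M f) z = pdw w f z) ∧
    (∀ (y : P D) (b : ℝ), (∀ t ∈ Icc (0 : ℝ) 1, ∀ w : List (Fin D), w.length = M →
      ‖pdw w f (z + t • (y - z))‖ ≤ b) →
    ∀ w : List (Fin D), w.length < M →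
      ‖pdw w f y - pdw w (tay z M f) y‖ ≤ b * (D * ‖y - z‖) ^ (M - w.length)) := by
  have h1 : ∀ w : List (Fin D), w.length < M → pdw w (tay z M f) z = pdw w f z := by
    intro w hw
    rw [pdw_tay z M hf w]
    obtain ⟨k, hk⟩ : ∃ k, M - w.length = k + 1 := ⟨M - w.length - 1, by omega⟩
    rw [hk, tay_at]
  refine ⟨h1, ?_⟩
  intro y b hb w hw
  have hR : Smo (fun x => f x - tay z M f x) := hf.sub (smo_tay z M f)
  have hRw : ∀ w : List (Fin D), pdw w (fun x => f x - tay z M f x) =
      fun x => pdw w f x - pdw w (tay z M f) x := fun w => pdw_sub hf (smo_tay z M f) w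
  have h2 := rem_bound (M := M) hR z y b
    (fun w hw => by
      rw [hRw w]
      show pdw w f z - pdw w (tay z M f) z = 0
      rw [h1 w hw]; exact sub_self _)
    (fun t ht w hw => by
      rw [hRw w]
      show ‖pdw w f (z + t • (y - z)) - pdw w (tay z M f) (z + t • (y - z))‖ ≤ b
      rw [(isPol_tay z M hf).top w hw.ge, sub_zero]
      exact hb t ht w hw)
    (M - w.length) (Nat.sub_le _ _) w (by omega) 1 ⟨zero_le_one, le_rfl⟩
  rw [hRw w] at h2
  simpa using h2

end TPX_

/-- Taylor polynomial with remainder -/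
theorem tpx_proof (_hSMO : Stmt_SMO) : Stmt_TPX := by
  intro D X _ _ M f z hf
  exact ⟨TPX_.tay z M f, TPX_.isPol_tay z M hf, (TPX_.main M z hf).1, (TPX_.main M z hf).2⟩

end Pool.Agent.HBW
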