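import Pool.Agent.HBW.Stmts

/-!
Squad HBW, module TYE: the narrow part of the subordination integral is small in `L¹`.
-/

set_option autoImplicit false

namespace Pool.Agent.HBW

open MeasureTheory Set Filter Topology
open scoped ENNReal Real

namespace TYE_

/-- majorant of the derivatives of the real Gaussian -/
noncomputable def Bq (D : ℕ) (τ : ℝ) (z : P D) : ℝ :=
  (Real.sqrt (π * τ))⁻¹ ^ D *
    Real.exp (∑ i, (-τ⁻¹ * z i ^ 2 + (2 * |z i| * (D : ℝ)⁻¹ + (D : ℝ)⁻¹ ^ 2) / τ))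

theorem Bq_nonneg (D : ℕ) (τ : ℝ) (z : P D) : 0 ≤ Bq D τ z := by
  unfold Bq
  positivity

theorem gr_bound (hGWB : Stmt_GWB) (n : ℕ) (hn : 1 ≤ n) (w : List (Fin (dm n)))
    (hw : w.length ≤ dm n) (i : Fin (dm n)) (τ : ℝ) (hτ : 0 < τ) (z : P (dm n)) :
    |gr (i :: w) τ z| ≤
      Rn n ^ w.length * (((dm n : ℝ) + 1) * dm n) * Bq (dm n) τ z := by
  have hn' : (1 : ℝ) ≤ n := by exact_mod_cast hn
  have hDn : (dm n : ℝ) = (n : ℝ) ^ 4 := by simp [dm]
  have hD1 : (1 : ℝ) ≤ dm n := by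
    rw [hDn]
    exact one_le_pow₀ hn'
  have hD0 : (0 : ℝ) < dm n := by linarith
  have h1 : |gr (i :: w) τ z| ≤ ‖gw (i :: w) (τ : ℂ) z‖ := by
    unfold gr
    exact Complex.abs_re_le_norm _
  have h2 := hGWB (dm n) (τ : ℂ) τ⁻¹ τ (dm n : ℝ)⁻¹ (i :: w) z hτ
    (by rw [Complex.norm_real, Real.norm_eq_abs, abs_of_pos hτ])
    (by simpa using hτ)
    (by rw [← Complex.ofReal_inv, Complex.ofReal_re]) (inv_pos.2 hD0)
  refine h1.trans (h2.trans ?_)
  have h3 : ((i :: w).length.factorial : ℝ) * ((dm n : ℝ)⁻¹)⁻¹ ^ (i :: w).length ≤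
      Rn n ^ w.length * (((dm n : ℝ) + 1) * dm n) := by
    rw [inv_inv, List.length_cons, Nat.factorial_succ, pow_succ]
    have e1 : ((w.length.factorial : ℕ) : ℝ) ≤ (dm n : ℝ) ^ w.length := by
      calc ((w.length.factorial : ℕ) : ℝ) ≤ ((w.length ^ w.length : ℕ) : ℝ) := by
            exact_mod_cast Nat.factorial_le_pow _
        _ = (w.length : ℝ) ^ w.length := by push_cast; rfl
        _ ≤ (dm n : ℝ) ^ w.length := by
            gcongr
    have e2 : ((w.length : ℝ) + 1) ≤ dm n + 1 := by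
      have : (w.length : ℝ) ≤ dm n := by exact_mod_cast hw
      linarith
    have e3 : (dm n : ℝ) ^ w.length * (dm n : ℝ) ^ w.length ≤ Rn n ^ w.length := by
      rw [← mul_pow]
      apply pow_le_pow_left₀ (by positivity)
      unfold Rn
      rw [hDn]
      calc (n : ℝ) ^ 4 * (n : ℝ) ^ 4 = (n : ℝ) ^ 8 := by ring
        _ ≤ (n : ℝ) ^ 12 := pow_le_pow_right₀ hn' (by norm_num)
    have e4 : (0 : ℝ) ≤ ((w.length.factorial : ℕ) : ℝ) := by positivity
    have e5 : (0 : ℝ) ≤ (dm n : ℝ) ^ w.length := by positivity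
    push_cast
    calc ((w.length : ℝ) + 1) * (w.length.factorial : ℝ) *
          ((dm n : ℝ) ^ w.length * dm n)
        ≤ (dm n + 1) * (dm n : ℝ) ^ w.length * ((dm n : ℝ) ^ w.length * dm n) := by
          gcongr
      _ = ((dm n : ℝ) ^ w.length * (dm n : ℝ) ^ w.length) * (((dm n : ℝ) + 1) * dm n) := by
          ring
      _ ≤ _ := by gcongr
  have h4 : (0 : ℝ) ≤ Bq (dm n) τ z := Bq_nonneg _ _ _
  calc ((i :: w).length.factorial : ℝ) * ((dm n : ℝ)⁻¹)⁻¹ ^ (i :: w).length *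
        (Real.sqrt (π * τ))⁻¹ ^ dm n *
        Real.exp (∑ i, (-τ⁻¹ * z i ^ 2 + (2 * |z i| * (dm n : ℝ)⁻¹ + (dm n : ℝ)⁻¹ ^ 2) / τ))
      = (((i :: w).length.factorial : ℝ) * ((dm n : ℝ)⁻¹)⁻¹ ^ (i :: w).length) *
          Bq (dm n) τ z := by
        unfold Bq
        ring
    _ ≤ _ := mul_le_mul_of_nonneg_right h3 h4

theorem sumF' (hRS1 : Stmt_RS1) (D : ℕ) (hD1' : 1 ≤ D) (τ : ℝ) (hτ : 1 / 100 ≤ τ)
    (F : Finset (Z D)) (z : Z D → P D)
    (hz : ∀ j i, (j i : ℝ) / D ≤ z j i ∧ z j i ≤ ((j i : ℝ) + 1) / D) :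
    ∑ j ∈ F, Bq D τ (z j) ≤ Real.exp 236 * (D : ℝ) ^ D := by
  classical
  have hD1 : (1 : ℝ) ≤ D := by exact_mod_cast hD1'
  have hD0 : (0 : ℝ) < D := by linarith
  have hτ0 : 0 < τ := by linarith
  obtain ⟨β, hβ0, hβ, hβs, hβt⟩ := hRS1 D τ⁻¹ (2 / (D * τ)) hD1' (inv_pos.2 hτ0) (by positivity)
  set e0 : ℝ := Real.exp ((D : ℝ)⁻¹ ^ 2 / τ) with he0
  have he0p : 0 < e0 := Real.exp_pos _
  set s : ℝ := (Real.sqrt (π * τ))⁻¹ with hs
  have hs0 : 0 ≤ s := by positivity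
  -- each term
  have hterm : ∀ j, Bq D τ (z j) ≤ ∏ i, (s * e0 * β (j i)) := by
    intro j
    have e1 : Real.exp (∑ i, (-τ⁻¹ * z j i ^ 2 +
        (2 * |z j i| * (D : ℝ)⁻¹ + (D : ℝ)⁻¹ ^ 2) / τ)) =
        ∏ i, (e0 * Real.exp (-τ⁻¹ * z j i ^ 2 + 2 / (D * τ) * |z j i|)) := by
      rw [Real.exp_sum]
      refine Finset.prod_congr rfl fun i _ => ?_
      rw [he0, ← Real.exp_add]
      congr 1
      field_simp
      ring
    unfold Bq
    rw [e1]
    have e2 : (Real.sqrt (π * τ))⁻¹ ^ D = ∏ _i : Fin D, s := by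
      rw [Finset.prod_const, Finset.card_univ, Fintype.card_fin]
    rw [e2, ← Finset.prod_mul_distrib]
    refine Finset.prod_le_prod (fun i _ => by positivity) fun i _ => ?_
    have e3 := hβ (j i) (z j i) (hz j i).1 (hz j i).2
    calc s * (e0 * Real.exp (-τ⁻¹ * z j i ^ 2 + 2 / (D * τ) * |z j i|))
        ≤ s * (e0 * β (j i)) := by gcongr
      _ = s * e0 * β (j i) := by ring
  -- the sum of the products
  have hsum : ∑ j ∈ F, ∏ i, (s * e0 * β (j i)) ≤ (s * e0 * ∑' k, β k) ^ D := by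
    set t : Fin D → Finset ℤ := fun i => F.image fun j => j i with ht
    have hsub : F ⊆ Fintype.piFinset t := by
      intro j hj
      rw [Fintype.mem_piFinset]
      intro i
      exact Finset.mem_image_of_mem _ hj
    calc ∑ j ∈ F, ∏ i, (s * e0 * β (j i))
        ≤ ∑ j ∈ Fintype.piFinset t, ∏ i, (s * e0 * β (j i)) := by
          refine Finset.sum_le_sum_of_subset_of_nonneg hsub fun j _ _ => ?_
          exact Finset.prod_nonneg fun i _ => mul_nonneg (by positivity) (hβ0 _)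
      _ = ∏ i, ∑ k ∈ t i, (s * e0 * β k) :=
          (Finset.prod_univ_sum t fun _ k => s * e0 * β k).symm
      _ ≤ ∏ _i : Fin D, (s * e0 * ∑' k, β k) := by
          refine Finset.prod_le_prod (fun i _ => Finset.sum_nonneg fun k _ =>
            mul_nonneg (by positivity) (hβ0 _)) fun i _ => ?_
          rw [← Finset.mul_sum]
          exact mul_le_mul_of_nonneg_left (hβs.sum_le_tsum _ fun k _ => hβ0 k) (by positivity)
      _ = (s * e0 * ∑' k, β k) ^ D := by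
          rw [Finset.prod_const, Finset.card_univ, Fintype.card_fin]
  have hβt0 : 0 ≤ ∑' k, β k := tsum_nonneg hβ0
  -- the bound for the base
  have hbase : s * e0 * ∑' k, β k ≤ D * Real.exp (236 / D) := by
    have a1 : Real.exp ((2 / (D * τ)) ^ 2 / (4 * τ⁻¹)) = e0 := by
      rw [he0]
      congr 1
      field_simp
      ring
    have a2 : Real.sqrt (π / τ⁻¹) = Real.sqrt (π * τ) := by
      congr 1
      field_simp
    have a3 : 2 / (D * τ) / τ⁻¹ + 4 / D = 6 / (D : ℝ) := by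
      field_simp
      ring
    rw [a1, a2] at hβt
    have a4 : 1 / 6 ≤ Real.sqrt (π * τ) := by
      apply Real.le_sqrt_of_sq_le
      have := Real.pi_gt_three
      nlinarith
    have hsq : 0 < Real.sqrt (π * τ) := by linarith
    have a5 : s * (Real.sqrt (π * τ) + 2 / (D * τ) / τ⁻¹ + 4 / D) ≤ 1 + 36 / D := by
      rw [add_assoc, a3, mul_add, hs, inv_mul_cancel₀ hsq.ne']
      have : (Real.sqrt (π * τ))⁻¹ ≤ 6 := by
        rw [inv_le_comm₀ hsq (by norm_num)]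
        linarith
      have h6 : (Real.sqrt (π * τ))⁻¹ * (6 / D) ≤ 6 * (6 / D) := by gcongr
      have h7 : (6 : ℝ) * (6 / D) = 36 / D := by ring
      linarith
    have a6 : e0 ≤ Real.exp (100 / D) := by
      rw [he0]
      apply Real.exp_le_exp.2
      rw [div_le_div_iff₀ hτ0 hD0]
      have : (D : ℝ)⁻¹ ^ 2 * D = (D : ℝ)⁻¹ := by
        field_simp
      rw [this]
      have h8 : (D : ℝ)⁻¹ ≤ 1 := inv_le_one_of_one_le₀ hD1
      linarith
    have a7 : 1 + 36 / (D : ℝ) ≤ Real.exp (36 / D) := by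
      have := Real.add_one_le_exp (36 / (D : ℝ))
      linarith
    calc s * e0 * ∑' k, β k ≤ s * e0 * (D * (e0 *
          (Real.sqrt (π * τ) + 2 / (D * τ) / τ⁻¹ + 4 / D))) := by gcongr
      _ = D * (e0 * e0 * (s * (Real.sqrt (π * τ) + 2 / (D * τ) / τ⁻¹ + 4 / D))) := by ring
      _ ≤ D * (e0 * e0 * (1 + 36 / D)) := by gcongr
      _ ≤ D * (Real.exp (100 / D) * Real.exp (100 / D) * Real.exp (36 / D)) := by gcongr
      _ = D * Real.exp (236 / D) := by
          rw [← Real.exp_add, ← Real.exp_add]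
          congr 2
          ring
  calc ∑ j ∈ F, Bq D τ (z j) ≤ ∑ j ∈ F, ∏ i, (s * e0 * β (j i)) :=
        Finset.sum_le_sum fun j _ => hterm j
    _ ≤ (s * e0 * ∑' k, β k) ^ D := hsum
    _ ≤ (D * Real.exp (236 / D)) ^ D := pow_le_pow_left₀ (by positivity) hbase D
    _ = Real.exp 236 * (D : ℝ) ^ D := by
        rw [mul_pow, ← Real.exp_nat_mul, mul_comm]
        congr 2
        field_simp

theorem sumF (hRS1 : Stmt_RS1) (n : ℕ) (hn : 1 ≤ n) (τ : ℝ) (hτ : 1 / 100 ≤ τ)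
    (F : Finset (Z (dm n))) (z : Z (dm n) → P (dm n)) (hz : ∀ j, z j ∈ Cb n j) :
    ∑ j ∈ F, Bq (dm n) τ (z j) ≤ Real.exp 236 * (dm n : ℝ) ^ dm n := by
  have hD1' : 1 ≤ dm n := by
    unfold dm
    exact Nat.one_le_pow _ _ hn
  exact sumF' hRS1 (dm n) hD1' τ hτ F z fun j i => hz j i

theorem Wf_bd {ω b u : ℝ} (_hb : 0 < b) (hu : 0 < u) (hub : u ≤ b) :
    0 ≤ Wf ω u ∧ Wf ω u ≤ Real.exp (-ω ^ 2 / (4 * b)) * u ^ (-(1 / 2) : ℝ) := by
  unfold Wf
  refine ⟨by positivity, ?_⟩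
  have h1 : (Real.sqrt (π * u))⁻¹ ≤ u ^ (-(1 / 2) : ℝ) := by
    rw [Real.rpow_neg hu.le, ← Real.sqrt_eq_rpow]
    apply inv_anti₀ (Real.sqrt_pos.2 hu)
    apply Real.sqrt_le_sqrt
    have := Real.pi_gt_three
    nlinarith
  have h2 : Real.exp (-ω ^ 2 / (4 * u)) ≤ Real.exp (-ω ^ 2 / (4 * b)) := by
    apply Real.exp_le_exp.2
    rw [neg_div, neg_div, neg_le_neg_iff]
    gcongr
  rw [mul_comm]
  gcongr

theorem Wf_int {ω b : ℝ} (hb : 0 < b) : IntegrableOn (Wf ω) (Ioc 0 b) ∧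
    ∫ u in Ioc 0 b, Wf ω u ≤ Real.exp (-ω ^ 2 / (4 * b)) * (2 * Real.sqrt b) := by
  have hr : IntervalIntegrable (fun u : ℝ => u ^ (-(1 / 2) : ℝ)) volume 0 b :=
    intervalIntegral.intervalIntegrable_rpow' (by norm_num)
  have hr' : IntegrableOn (fun u : ℝ => Real.exp (-ω ^ 2 / (4 * b)) * u ^ (-(1 / 2) : ℝ))
      (Ioc 0 b) := ((intervalIntegrable_iff_integrableOn_Ioc_of_le hb.le).1 hr).const_mul _
  have hm : Measurable (Wf ω) := by
    unfold Wf
    fun_prop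
  have hi : IntegrableOn (Wf ω) (Ioc 0 b) := by
    refine Integrable.mono' hr' hm.aestronglyMeasurable ?_
    rw [ae_restrict_iff' measurableSet_Ioc]
    refine Filter.Eventually.of_forall fun u hu => ?_
    obtain ⟨h1, h2⟩ := Wf_bd (ω := ω) hb hu.1 hu.2
    rw [Real.norm_eq_abs, abs_of_nonneg h1]
    exact h2
  refine ⟨hi, ?_⟩
  calc ∫ u in Ioc 0 b, Wf ω u
      ≤ ∫ u in Ioc 0 b, Real.exp (-ω ^ 2 / (4 * b)) * u ^ (-(1 / 2) : ℝ) := by
        refine setIntegral_mono_on hi hr' measurableSet_Ioc fun u hu => ?_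
        exact (Wf_bd (ω := ω) hb hu.1 hu.2).2
    _ = Real.exp (-ω ^ 2 / (4 * b)) * (2 * Real.sqrt b) := by
        rw [integral_const_mul, ← intervalIntegral.integral_of_le hb.le,
          integral_rpow (Or.inl (by norm_num))]
        congr 1
        rw [Real.zero_rpow (by norm_num), Real.sqrt_eq_rpow]
        norm_num
        ring

theorem sup_choice {α : Type} (S : Set α) (hS : S.Nonempty) (I : α → ℝ) (M : ℝ)
    (h0 : ∀ z ∈ S, 0 ≤ I z) (hM : ∀ z ∈ S, I z ≤ M) :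
    ∃ z0 ∈ S, ∀ z ∈ S, I z ≤ 2 * I z0 := by
  have hbdd : BddAbove (I '' S) := ⟨M, by rintro _ ⟨z, hz, rfl⟩; exact hM z hz⟩
  by_cases hs : 0 < sSup (I '' S)
  · obtain ⟨_, ⟨z0, hz0, rfl⟩, hlt⟩ := exists_lt_of_lt_csSup (hS.image I)
      (show sSup (I '' S) / 2 < sSup (I '' S) by linarith)
    refine ⟨z0, hz0, fun z hz => ?_⟩
    have := le_csSup hbdd (mem_image_of_mem I hz)
    linarith
  · obtain ⟨z0, hz0⟩ := hS
    refine ⟨z0, hz0, fun z hz => ?_⟩
    have := le_csSup hbdd (mem_image_of_mem I hz)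
    have := h0 z0 hz0
    linarith [not_lt.1 hs]

theorem eventually_small : ∃ n0 : ℕ, ∀ n ≥ n0,
    (n : ℝ) ^ 4 * (((n : ℝ) ^ 4 + 1) * (n : ℝ) ^ 4) * 2 * (Real.exp 236 *
      (Real.exp (-(n : ℝ) ^ 2 / 16384) * (2 * n))) ≤ Real.exp (-(n : ℝ) ^ 2 / 16500) := by
  -- exponent gap
  set δ : ℝ := 1 / 16384 - 1 / 16500 with hδ
  have hδ0 : 0 < δ := by rw [hδ]; norm_num
  have h1 := Real.tendsto_pow_mul_exp_neg_atTop_nhds_zero 7
  have h2 : Tendsto (fun n : ℕ => δ * (n : ℝ) ^ 2) atTop atTop := by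
    apply Tendsto.const_mul_atTop hδ0
    exact (tendsto_pow_atTop (by norm_num)).comp tendsto_natCast_atTop_atTop
  have h3 := h1.comp h2
  have hc : 0 < δ ^ 7 / (8 * Real.exp 236) := by positivity
  have h4 := h3.eventually (gt_mem_nhds hc)
  rw [eventually_atTop] at h4
  obtain ⟨n0, hn0⟩ := h4
  refine ⟨max n0 1, fun n hn => ?_⟩
  have hn1 : (1 : ℝ) ≤ n := by exact_mod_cast (le_max_right n0 1).trans hn
  have h5 := hn0 n ((le_max_left n0 1).trans hn)
  simp only [Function.comp] at h5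
  have h6 : (n : ℝ) ^ 14 * Real.exp (-(δ * (n : ℝ) ^ 2)) < 1 / (8 * Real.exp 236) := by
    have h7 : (δ * (n : ℝ) ^ 2) ^ 7 = δ ^ 7 * (n : ℝ) ^ 14 := by ring
    rw [h7] at h5
    have h8 : 0 < δ ^ 7 := by positivity
    rw [div_eq_mul_one_div, mul_assoc] at h5
    exact lt_of_mul_lt_mul_left h5 h8.le
  have h9 : Real.exp (-(n : ℝ) ^ 2 / 16384) =
      Real.exp (-(δ * (n : ℝ) ^ 2)) * Real.exp (-(n : ℝ) ^ 2 / 16500) := by
    rw [← Real.exp_add]
    congr 1
    rw [hδ]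
    ring
  rw [h9]
  have h10 : (n : ℝ) ^ 4 * (((n : ℝ) ^ 4 + 1) * (n : ℝ) ^ 4) * 2 * (2 * n) ≤
      8 * (n : ℝ) ^ 14 := by
    have e1 : (1 : ℝ) ≤ (n : ℝ) ^ 4 := one_le_pow₀ hn1
    have e2 : (n : ℝ) ^ 13 ≤ (n : ℝ) ^ 14 := pow_le_pow_right₀ hn1 (by norm_num)
    calc (n : ℝ) ^ 4 * (((n : ℝ) ^ 4 + 1) * (n : ℝ) ^ 4) * 2 * (2 * n)
        ≤ (n : ℝ) ^ 4 * (((n : ℝ) ^ 4 + (n : ℝ) ^ 4) * (n : ℝ) ^ 4) * 2 * (2 * n) := by gcongr
      _ = 8 * (n : ℝ) ^ 13 := by ring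
      _ ≤ _ := by linarith
  have hE : 0 < Real.exp 236 := Real.exp_pos _
  calc (n : ℝ) ^ 4 * (((n : ℝ) ^ 4 + 1) * (n : ℝ) ^ 4) * 2 * (Real.exp 236 *
        (Real.exp (-(δ * (n : ℝ) ^ 2)) * Real.exp (-(n : ℝ) ^ 2 / 16500) * (2 * n)))
      = ((n : ℝ) ^ 4 * (((n : ℝ) ^ 4 + 1) * (n : ℝ) ^ 4) * 2 * (2 * n)) * Real.exp 236 *
        Real.exp (-(δ * (n : ℝ) ^ 2)) * Real.exp (-(n : ℝ) ^ 2 / 16500) := by ring
    _ ≤ (8 * (n : ℝ) ^ 14) * Real.exp 236 *
        Real.exp (-(δ * (n : ℝ) ^ 2)) * Real.exp (-(n : ℝ) ^ 2 / 16500) := by gcongr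
    _ = (8 * Real.exp 236) * ((n : ℝ) ^ 14 * Real.exp (-(δ * (n : ℝ) ^ 2))) *
        Real.exp (-(n : ℝ) ^ 2 / 16500) := by ring
    _ ≤ (8 * Real.exp 236) * (1 / (8 * Real.exp 236)) * Real.exp (-(n : ℝ) ^ 2 / 16500) := by
        gcongr
    _ = Real.exp (-(n : ℝ) ^ 2 / 16500) := by
        field_simp

end TYE_

open TYE_ in
theorem tye_proof (hGWB : Stmt_GWB) (hRS1 : Stmt_RS1) (_hCR2 : Stmt_CR2) : Stmt_TYE := by
  classical
  obtain ⟨n0, hn0⟩ := eventually_small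
  refine ⟨max n0 1, fun n hn => ?_⟩
  have hn1 : 1 ≤ n := (le_max_right n0 1).trans hn
  have hn' : (1 : ℝ) ≤ n := by exact_mod_cast hn1
  have hfin := hn0 n ((le_max_left n0 1).trans hn)
  have hDn : (dm n : ℝ) = (n : ℝ) ^ 4 := by simp [dm]
  have hD1 : (1 : ℝ) ≤ dm n := by
    rw [hDn]
    exact one_le_pow₀ hn'
  have hD0 : (0 : ℝ) < dm n := by linarith
  have hub : (0 : ℝ) < ub n := by
    unfold ub
    positivity
  -- the integrals
  set I : P (dm n) → ℝ := fun z =>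
    ∫ u in Ioc (0 : ℝ) (ub n), Wf (om n) u * Bq (dm n) (t0 + 4 * u) z with hI
  obtain ⟨hWi, hWt⟩ := Wf_int (ω := om n) hub
  have hτu : ∀ u ∈ Ioc (0 : ℝ) (ub n), 1 / 100 ≤ t0 + 4 * u := by
    intro u hu
    have := hu.1
    unfold t0
    linarith
  have hmeas : ∀ z : P (dm n), Measurable fun u : ℝ => Bq (dm n) (t0 + 4 * u) z := by
    intro z
    unfold Bq
    fun_prop
  have hWm : Measurable (Wf (om n)) := by
    unfold Wf
    fun_prop
  set M0 : ℝ := Real.exp 236 * (dm n : ℝ) ^ dm n with hM0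
  have hM00 : 0 ≤ M0 := by positivity
  have hone : ∀ j, ∀ z ∈ Cb n j, ∀ u ∈ Ioc (0 : ℝ) (ub n),
      Bq (dm n) (t0 + 4 * u) z ≤ M0 := by
    intro j z hz u hu
    have hne : ∀ j', (Cb n j').Nonempty := by
      intro j'
      refine ⟨fun i => (j' i : ℝ) / dm n, fun i => ⟨le_rfl, ?_⟩⟩
      exact div_le_div_of_nonneg_right (by linarith) hD0.le
    choose z0 hz0 using hne
    have := sumF hRS1 n hn1 (t0 + 4 * u) (hτu u hu) {j} (fun j' => if j' = j then z else z0 j')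
      (by
        intro j'
        by_cases hj : j' = j
        · subst hj
          simpa using hz
        · simpa [hj] using hz0 j')
    simpa using this
  have hint : ∀ j, ∀ z ∈ Cb n j, IntegrableOn
      (fun u => Wf (om n) u * Bq (dm n) (t0 + 4 * u) z) (Ioc 0 (ub n)) := by
    intro j z hz
    refine Integrable.mono' (hWi.mul_const M0)
      (hWm.mul (hmeas z)).aestronglyMeasurable ?_
    rw [ae_restrict_iff' measurableSet_Ioc]
    refine Filter.Eventually.of_forall fun u hu => ?_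
    have h1 := (Wf_bd (ω := om n) hub hu.1 hu.2).1
    have h2 := Bq_nonneg (dm n) (t0 + 4 * u) z
    rw [Real.norm_eq_abs, abs_of_nonneg (mul_nonneg h1 h2)]
    exact mul_le_mul_of_nonneg_left (hone j z hz u hu) h1
  have hI0 : ∀ z, 0 ≤ I z := by
    intro z
    refine setIntegral_nonneg measurableSet_Ioc fun u hu => ?_
    exact mul_nonneg (Wf_bd (ω := om n) hub hu.1 hu.2).1 (Bq_nonneg _ _ _)
  -- sums of the integrals
  have hsumI : ∀ (F : Finset (Z (dm n))) (z : Z (dm n) → P (dm n)), (∀ j, z j ∈ Cb n j) →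
      ∑ j ∈ F, I (z j) ≤ M0 * (Real.exp (-om n ^ 2 / (4 * ub n)) * (2 * Real.sqrt (ub n))) := by
    intro F z hz
    calc ∑ j ∈ F, I (z j)
        = ∫ u in Ioc (0 : ℝ) (ub n), ∑ j ∈ F, Wf (om n) u * Bq (dm n) (t0 + 4 * u) (z j) := by
          rw [integral_finsetSum]
          exact fun j _ => hint j (z j) (hz j)
      _ ≤ ∫ u in Ioc (0 : ℝ) (ub n), M0 * Wf (om n) u := by
          refine setIntegral_mono_on ?_ (hWi.const_mul M0) measurableSet_Ioc fun u hu => ?_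
          · exact integrable_finsetSum _ fun j _ => hint j (z j) (hz j)
          · rw [← Finset.mul_sum, mul_comm M0]
            exact mul_le_mul_of_nonneg_left (sumF hRS1 n hn1 _ (hτu u hu) F z hz)
              (Wf_bd (ω := om n) hub hu.1 hu.2).1
      _ = M0 * ∫ u in Ioc (0 : ℝ) (ub n), Wf (om n) u := by rw [integral_const_mul]
      _ ≤ _ := mul_le_mul_of_nonneg_left hWt hM00
  have hne : ∀ j', (Cb n j').Nonempty := by
    intro j'
    refine ⟨fun i => (j' i : ℝ) / dm n, fun i => ⟨le_rfl, ?_⟩⟩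
    exact div_le_div_of_nonneg_right (by linarith) hD0.le
  -- choice of almost maximal points
  have hch : ∀ j, ∃ z0 ∈ Cb n j, ∀ z ∈ Cb n j, I z ≤ 2 * I z0 := by
    intro j
    refine sup_choice (Cb n j) (hne j) I
      (M0 * (Real.exp (-om n ^ 2 / (4 * ub n)) * (2 * Real.sqrt (ub n))))
      (fun z _ => hI0 z) fun z hz => ?_
    choose z0 hz0 using hne
    have := hsumI {j} (fun j' => if j' = j then z else z0 j')
      (by
        intro j'
        by_cases hj : j' = j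
        · subst hj
          simpa using hz
        · simpa [hj] using hz0 j')
    simpa using this
  choose z hz hzI using hch
  set pq : ℝ := (dm n : ℝ) * (((dm n : ℝ) + 1) * dm n) with hpq
  have hpq0 : 0 ≤ pq := by positivity
  set g : Z (dm n) → ℝ := fun j => pq * (2 * I (z j)) with hg
  have hg0 : ∀ j, 0 ≤ g j := fun j => mul_nonneg hpq0 (mul_nonneg zero_le_two (hI0 _))
  have hgs : ∀ F : Finset (Z (dm n)), ∑ j ∈ F, g j ≤
      Real.exp (-(n : ℝ) ^ 2 / 16500) * (dm n : ℝ) ^ dm n := by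
    intro F
    have h1 : ∑ j ∈ F, g j = pq * 2 * ∑ j ∈ F, I (z j) := by
      rw [Finset.mul_sum]
      exact Finset.sum_congr rfl fun j _ => by rw [hg]; ring
    rw [h1]
    have h2 : Real.exp (-om n ^ 2 / (4 * ub n)) = Real.exp (-(n : ℝ) ^ 2 / 16384) := by
      congr 1
      unfold om ub
      have : (n : ℝ) ≠ 0 := by positivity
      field_simp
      ring
    have h3 : Real.sqrt (ub n) = n := by
      unfold ub
      rw [Real.sqrt_sq (by positivity)]
    calc pq * 2 * ∑ j ∈ F, I (z j)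
        ≤ pq * 2 * (M0 * (Real.exp (-om n ^ 2 / (4 * ub n)) * (2 * Real.sqrt (ub n)))) := by
          gcongr
          exact hsumI F z hz
      _ = ((n : ℝ) ^ 4 * (((n : ℝ) ^ 4 + 1) * (n : ℝ) ^ 4) * 2 * (Real.exp 236 *
            (Real.exp (-(n : ℝ) ^ 2 / 16384) * (2 * n)))) * (dm n : ℝ) ^ dm n := by
          rw [h2, h3, hpq, hM0, hDn]
          ring
      _ ≤ _ := mul_le_mul_of_nonneg_right hfin (by positivity)
  refine ⟨g, hg0, ?_, summable_of_sum_le hg0 hgs,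
    (summable_of_sum_le hg0 hgs).tsum_le_of_sum_le hgs⟩
  intro j x hx w hw
  have hR0 : (0 : ℝ) ≤ Rn n := by
    unfold Rn
    positivity
  have hT : ∀ i, |T1b n (i :: w) x| ≤
      Rn n ^ w.length * (((dm n : ℝ) + 1) * dm n) * I x := by
    intro i
    unfold T1b
    have h1 : Integrable (fun u => Rn n ^ w.length * (((dm n : ℝ) + 1) * dm n) *
        (Wf (om n) u * Bq (dm n) (t0 + 4 * u) x)) (volume.restrict (Ioc 0 (ub n))) :=
      (hint j x hx).const_mul _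
    have h2 := norm_integral_le_of_norm_le (f := fun u => Wf (om n) u *
      gr (i :: w) (t0 + 4 * u) x) h1 (by
        rw [ae_restrict_iff' measurableSet_Ioc]
        refine Filter.Eventually.of_forall fun u hu => ?_
        have hW := (Wf_bd (ω := om n) hub hu.1 hu.2).1
        rw [norm_mul, Real.norm_eq_abs, Real.norm_eq_abs, abs_of_nonneg hW]
        have hτ0 : 0 < t0 + 4 * u := by
          have := hτu u hu
          linarith
        calc Wf (om n) u * |gr (i :: w) (t0 + 4 * u) x|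
            ≤ Wf (om n) u * (Rn n ^ w.length * (((dm n : ℝ) + 1) * dm n) *
              Bq (dm n) (t0 + 4 * u) x) :=
              mul_le_mul_of_nonneg_left (gr_bound hGWB n hn1 w hw i _ hτ0 x) hW
          _ = _ := by ring)
    rw [Real.norm_eq_abs, integral_const_mul] at h2
    exact h2
  calc ∑ i, |T1b n (i :: w) x|
      ≤ ∑ _i : Fin (dm n), Rn n ^ w.length * (((dm n : ℝ) + 1) * dm n) * I x :=
        Finset.sum_le_sum fun i _ => hT i
    _ = Rn n ^ w.length * (pq * I x) := by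
        rw [Finset.sum_const, Finset.card_univ, Fintype.card_fin, nsmul_eq_mul, hpq]
        ring
    _ ≤ Rn n ^ w.length * (pq * (2 * I (z j))) := by
        gcongr
        exact hzI j x hx
    _ = Rn n ^ w.length * g j := rfl

end Pool.Agent.HBW
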