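import Pool.Agent.HBW.Stmts

/-!
Squad HBW, module TYH: the typical (local) part is small in the `p = 1/2` sense.
-/

set_option autoImplicit false

namespace Pool.Agent.HBW

open MeasureTheory Set Filter Topology
open scoped ENNReal Real

namespace TYH_

/-- geometry of the circle `|ζ - τ| = τ / 2` -/
theorem circ {τ : ℝ} (hτ : 0 < τ) {ζ : ℂ} (hζ : ‖ζ - τ‖ = τ / 2) :
    τ / 2 ≤ ‖ζ‖ ∧ 0 < ζ.re ∧ 2 / (3 * τ) ≤ (ζ⁻¹).re := by
  have h1 : (ζ.re - τ) ^ 2 + ζ.im ^ 2 = τ ^ 2 / 4 := by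
    have h := Complex.sq_norm (ζ - τ)
    rw [hζ, Complex.normSq_apply] at h
    simp only [Complex.sub_re, Complex.sub_im, Complex.ofReal_re, Complex.ofReal_im] at h
    nlinarith
  have h2 : |ζ.re - τ| ≤ τ / 2 := by
    apply abs_le_of_sq_le_sq _ (by linarith)
    nlinarith [sq_nonneg ζ.im]
  have h3 := abs_le.1 h2
  have h4 : τ / 2 ≤ ζ.re := by linarith [h3.1]
  have h5 : ζ.re ≤ 3 * τ / 2 := by linarith [h3.2]
  have h6 : 0 < ζ.re := by linarith
  refine ⟨h4.trans ((le_abs_self _).trans (Complex.abs_re_le_norm ζ)), h6, ?_⟩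
  rw [Complex.inv_re, Complex.normSq_apply]
  have h7 : ζ.re * ζ.re + ζ.im * ζ.im = 2 * τ * ζ.re - 3 * τ ^ 2 / 4 := by nlinarith
  rw [h7]
  have h8 : 0 < 2 * τ * ζ.re - 3 * τ ^ 2 / 4 := by nlinarith
  rw [div_le_div_iff₀ (by positivity) h8]
  nlinarith

/-- the Gaussian majorant -/
noncomputable def Bt (D : ℕ) (z : P D) : ℝ :=
  (Real.sqrt (π / 200))⁻¹ ^ D *
    Real.exp (∑ i, (-(200 / 3) * z i ^ 2 + (2 * |z i| * (D : ℝ)⁻¹ + (D : ℝ)⁻¹ ^ 2) * 200))

theorem Bt_nonneg (D : ℕ) (z : P D) : 0 ≤ Bt D z := by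
  unfold Bt
  positivity

theorem gw_bound (hGWB : Stmt_GWB) (D : ℕ) (hD : 1 ≤ D) (w : List (Fin D)) (z : P D) (ζ : ℂ)
    (hζ : ‖ζ - (t0 : ℝ)‖ = t0 / 2) :
    ‖gw w ζ z‖ ≤ w.length.factorial * (D : ℝ) ^ w.length * Bt D z := by
  have hD0 : (0 : ℝ) < D := by exact_mod_cast hD
  have ht : (0 : ℝ) < t0 := by unfold t0; norm_num
  obtain ⟨h1, h2, h3⟩ := circ ht hζ
  have h := hGWB D ζ (2 / (3 * t0)) (t0 / 2) (D : ℝ)⁻¹ w z (by positivity) h1 h2 h3
    (inv_pos.2 hD0)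
  refine h.trans (le_of_eq ?_)
  unfold Bt
  have e1 : π * (t0 / 2) = π / 200 := by unfold t0; ring
  have e2 : ∀ i, (-(2 / (3 * t0)) * z i ^ 2 +
      (2 * |z i| * (D : ℝ)⁻¹ + (D : ℝ)⁻¹ ^ 2) / (t0 / 2)) =
      (-(200 / 3) * z i ^ 2 + (2 * |z i| * (D : ℝ)⁻¹ + (D : ℝ)⁻¹ ^ 2) * 200) := by
    intro i
    unfold t0
    ring
  rw [e1, inv_inv, Finset.sum_congr rfl fun i _ => e2 i]
  ring

theorem fac_le (n : ℕ) (w : List (Fin (dm n))) (hw : w.length ≤ dm n) (hn : 1 ≤ n) :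
    ((w.length.factorial : ℕ) : ℝ) * (dm n : ℝ) ^ w.length ≤ Rn n ^ w.length ∧
    (((w.length + 1).factorial : ℕ) : ℝ) * (dm n : ℝ) ^ (w.length + 1) ≤
      Rn n ^ w.length * (((dm n : ℝ) + 1) * dm n) := by
  have hn' : (1 : ℝ) ≤ n := by exact_mod_cast hn
  have hDn : (dm n : ℝ) = (n : ℝ) ^ 4 := by simp [dm]
  have hD1 : (1 : ℝ) ≤ dm n := by
    rw [hDn]
    exact one_le_pow₀ hn'
  have hD0 : (0 : ℝ) < dm n := by linarith
  have e1 : ((w.length.factorial : ℕ) : ℝ) ≤ (dm n : ℝ) ^ w.length := by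
    calc ((w.length.factorial : ℕ) : ℝ) ≤ ((w.length ^ w.length : ℕ) : ℝ) := by
          exact_mod_cast Nat.factorial_le_pow _
      _ = (w.length : ℝ) ^ w.length := by push_cast; rfl
      _ ≤ (dm n : ℝ) ^ w.length := by gcongr
  have e2 : ((w.length : ℝ) + 1) ≤ dm n + 1 := by
    have : (w.length : ℝ) ≤ dm n := by exact_mod_cast hw
    linarith
  have e3 : (dm n : ℝ) ^ w.length * (dm n : ℝ) ^ w.length ≤ Rn n ^ w.length := by
    rw [← mul_pow]
    apply pow_le_pow_left₀ (by positivity)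
    unfold Rn
    rw [hDn]
    calc (n : ℝ) ^ 4 * (n : ℝ) ^ 4 = (n : ℝ) ^ 8 := by ring
      _ ≤ (n : ℝ) ^ 12 := pow_le_pow_right₀ hn' (by norm_num)
  have e5 : (0 : ℝ) ≤ (dm n : ℝ) ^ w.length := by positivity
  refine ⟨(mul_le_mul_of_nonneg_right e1 e5).trans e3, ?_⟩
  rw [Nat.factorial_succ, pow_succ]
  push_cast
  calc ((w.length : ℝ) + 1) * (w.length.factorial : ℝ) *
        ((dm n : ℝ) ^ w.length * dm n)
      ≤ (dm n + 1) * (dm n : ℝ) ^ w.length * ((dm n : ℝ) ^ w.length * dm n) := by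
        gcongr
    _ = ((dm n : ℝ) ^ w.length * (dm n : ℝ) ^ w.length) * (((dm n : ℝ) + 1) * dm n) := by
        ring
    _ ≤ _ := by gcongr

/-- the bound of the typical part by the majorant -/
theorem typ_bound (hGWB : Stmt_GWB) (hCCB : Stmt_CCB) (n : ℕ) (hn : 1 ≤ n)
    (w : List (Fin (dm n))) (hw : w.length ≤ dm n) (z : P (dm n)) :
    |T0 n w z| + ∑ i, |T1a n (i :: w) z| ≤
      Rn n ^ w.length * ((2 * (dm n : ℝ) ^ 2 * Real.exp (200 * om n ^ 2)) ^ 2 * Bt (dm n) z) := by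
  have hn' : (1 : ℝ) ≤ n := by exact_mod_cast hn
  have hDn : (dm n : ℝ) = (n : ℝ) ^ 4 := by simp [dm]
  have hD1' : 1 ≤ dm n := by
    unfold dm
    exact Nat.one_le_pow _ _ hn
  have hD1 : (1 : ℝ) ≤ dm n := by exact_mod_cast hD1'
  have hD0 : (0 : ℝ) < dm n := by linarith
  have ht : (0 : ℝ) < t0 := by unfold t0; norm_num
  have hom0 : 0 ≤ om n := by unfold om; positivity
  have hom1 : om n ≤ dm n := by
    rw [hDn]
    unfold om
    have h1 : (n : ℝ) ^ 2 ≤ (n : ℝ) ^ 4 := pow_le_pow_right₀ hn' (by norm_num)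
    have h2 : (0 : ℝ) ≤ (n : ℝ) ^ 2 := by positivity
    linarith
  have hom2 : om n * 64 ≤ dm n := by
    rw [hDn]
    unfold om
    have h1 : (n : ℝ) ^ 2 ≤ (n : ℝ) ^ 4 := pow_le_pow_right₀ hn' (by norm_num)
    linarith
  have hR0 : (0 : ℝ) ≤ Rn n := by
    unfold Rn
    positivity
  have hB := Bt_nonneg (dm n) z
  obtain ⟨f1, f2⟩ := fac_le n w hw hn
  have hE : Real.exp (4 * om n ^ 2 / t0) = Real.exp (200 * om n ^ 2) ^ 2 := by
    rw [← Real.exp_nat_mul]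
    congr 1
    unfold t0
    push_cast
    ring
  set E : ℝ := Real.exp (200 * om n ^ 2) with hEd
  have hE0 : 0 ≤ E := (Real.exp_pos _).le
  have a1 : |T0 n w z| ≤ E ^ 2 * (Rn n ^ w.length * Bt (dm n) z) := by
    unfold T0
    refine (Complex.abs_re_le_norm _).trans ?_
    have := (hCCB (om n) t0 (Rn n ^ w.length * Bt (dm n) z) (fun ζ => gw w ζ z) ht hom0
      (fun ζ hζ => (gw_bound hGWB (dm n) hD1' w z ζ hζ).trans
        (mul_le_mul_of_nonneg_right f1 hB))).1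
    rw [hE] at this
    exact this
  have a2 : ∀ i, |T1a n (i :: w) z| ≤
      om n * E ^ 2 * (Rn n ^ w.length * (((dm n : ℝ) + 1) * dm n) * Bt (dm n) z) := by
    intro i
    unfold T1a
    refine (Complex.abs_re_le_norm _).trans ?_
    have := (hCCB (om n) t0 (Rn n ^ w.length * (((dm n : ℝ) + 1) * dm n) * Bt (dm n) z)
      (fun ζ => gw (i :: w) ζ z) ht hom0
      (fun ζ hζ => (gw_bound hGWB (dm n) hD1' (i :: w) z ζ hζ).trans (by
        rw [List.length_cons]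
        exact mul_le_mul_of_nonneg_right f2 hB))).2
    rw [hE] at this
    exact this
  have a3 : ∑ i, |T1a n (i :: w) z| ≤ (dm n : ℝ) *
      (om n * E ^ 2 * (Rn n ^ w.length * (((dm n : ℝ) + 1) * dm n) * Bt (dm n) z)) := by
    calc ∑ i, |T1a n (i :: w) z|
        ≤ ∑ _i : Fin (dm n), om n * E ^ 2 *
            (Rn n ^ w.length * (((dm n : ℝ) + 1) * dm n) * Bt (dm n) z) :=
          Finset.sum_le_sum fun i _ => a2 i
      _ = _ := by rw [Finset.sum_const, Finset.card_univ, Fintype.card_fin, nsmul_eq_mul]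
  have a4 : 1 + (dm n : ℝ) * om n * (((dm n : ℝ) + 1) * dm n) ≤ 4 * (dm n : ℝ) ^ 4 := by
    have b1 : (dm n : ℝ) * om n * (((dm n : ℝ) + 1) * dm n) ≤
        (dm n : ℝ) * (dm n : ℝ) * (((dm n : ℝ) + dm n) * dm n) := by gcongr
    have b2 : (1 : ℝ) ≤ (dm n : ℝ) ^ 4 := one_le_pow₀ hD1
    nlinarith
  calc |T0 n w z| + ∑ i, |T1a n (i :: w) z|
      ≤ E ^ 2 * (Rn n ^ w.length * Bt (dm n) z) + (dm n : ℝ) *
        (om n * E ^ 2 * (Rn n ^ w.length * (((dm n : ℝ) + 1) * dm n) * Bt (dm n) z)) :=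
        add_le_add a1 a3
    _ = (1 + (dm n : ℝ) * om n * (((dm n : ℝ) + 1) * dm n)) *
        (E ^ 2 * Rn n ^ w.length * Bt (dm n) z) := by ring
    _ ≤ (4 * (dm n : ℝ) ^ 4) * (E ^ 2 * Rn n ^ w.length * Bt (dm n) z) := by gcongr
    _ = _ := by ring

/-- the numerical inequality -/
theorem num : Real.exp (200 / 4096) * Real.sqrt ((Real.sqrt (π / 200))⁻¹) *
    Real.sqrt (3 * π / 100) ≤ Real.exp (-1 / 25) := by
  have hp := Real.pi_pos
  rw [← pow_le_pow_iff_left₀ (by positivity) (by positivity) (n := 4) (by norm_num)]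
  have e1 : Real.sqrt ((Real.sqrt (π / 200))⁻¹) ^ 4 = 200 / π := by
    rw [show (4 : ℕ) = 2 * 2 by norm_num, pow_mul, Real.sq_sqrt (by positivity), inv_pow,
      Real.sq_sqrt (by positivity)]
    field_simp
  have e2 : Real.sqrt (3 * π / 100) ^ 4 = (3 * π / 100) ^ 2 := by
    rw [show (4 : ℕ) = 2 * 2 by norm_num, pow_mul, Real.sq_sqrt (by positivity)]
  have e3 : Real.exp (200 / 4096) ^ 4 = Real.exp (800 / 4096) := by
    rw [← Real.exp_nat_mul]
    congr 1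
    norm_num
  have e4 : Real.exp (-1 / 25) ^ 4 = Real.exp (800 / 4096) * Real.exp (-4 / 25 - 800 / 4096) := by
    rw [← Real.exp_nat_mul, ← Real.exp_add]
    congr 1
    norm_num
  rw [mul_pow, mul_pow, e1, e2, e3, e4, mul_assoc]
  apply mul_le_mul_of_nonneg_left _ (Real.exp_pos _).le
  have e5 : 200 / π * (3 * π / 100) ^ 2 = 0.18 * π := by
    field_simp
    norm_num
  rw [e5]
  have e6 := Real.add_one_le_exp (-4 / 25 - 800 / 4096 : ℝ)
  have e7 := Real.pi_lt_d2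
  refine le_trans ?_ e6
  norm_num at e7 ⊢
  linarith

theorem sumF (hRS1 : Stmt_RS1) (D : ℕ) (hD1' : 1 ≤ D) :
    ∃ β : ℤ → ℝ, (∀ j, 0 ≤ β j) ∧
    (∀ (j : Z D) (z : P D), (∀ i, (j i : ℝ) / D ≤ z i ∧ z i ≤ ((j i : ℝ) + 1) / D) →
      Bt D z ≤ (∏ i, β (j i)) ^ 2) ∧
    ∀ F : Finset (Z D), Real.exp (200 / 4096) ^ D * ∑ j ∈ F, ∏ i, β (j i) ≤
      Real.exp 434 * Real.exp (-(D : ℝ) / 25) * (D : ℝ) ^ D := by
  classical
  have hD1 : (1 : ℝ) ≤ D := by exact_mod_cast hD1'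
  have hD0 : (0 : ℝ) < D := by linarith
  have hp := Real.pi_pos
  obtain ⟨β, hβ0, hβ, hβs, hβt⟩ := hRS1 D (100 / 3) (200 / D) hD1' (by norm_num) (by positivity)
  set s : ℝ := (Real.sqrt (π / 200))⁻¹ with hs
  have hs0 : 0 ≤ s := by positivity
  set r : ℝ := Real.sqrt s * Real.exp (100 / D ^ 2) with hr
  have hr0 : 0 ≤ r := by positivity
  have hr2 : r ^ 2 = s * Real.exp (200 / D ^ 2) := by
    rw [hr, mul_pow, Real.sq_sqrt hs0, ← Real.exp_nat_mul]
    congr 2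
    push_cast
    ring
  refine ⟨fun k => r * β k, fun j => mul_nonneg hr0 (hβ0 j), ?_, ?_⟩
  · intro j z hz
    have e1 : Real.exp (∑ i, (-(200 / 3) * z i ^ 2 +
        (2 * |z i| * (D : ℝ)⁻¹ + (D : ℝ)⁻¹ ^ 2) * 200)) =
        ∏ i, (Real.exp (200 / D ^ 2) *
          Real.exp (-(100 / 3) * z i ^ 2 + 200 / D * |z i|) ^ 2) := by
      rw [Real.exp_sum]
      refine Finset.prod_congr rfl fun i _ => ?_
      rw [← Real.exp_nat_mul, ← Real.exp_add]
      congr 1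
      push_cast
      field_simp
      ring
    unfold Bt
    rw [e1]
    have e2 : (Real.sqrt (π / 200))⁻¹ ^ D = ∏ _i : Fin D, s := by
      rw [Finset.prod_const, Finset.card_univ, Fintype.card_fin]
    rw [e2, ← Finset.prod_mul_distrib, ← Finset.prod_pow]
    refine Finset.prod_le_prod (fun i _ => by positivity) fun i _ => ?_
    have e3 := hβ (j i) (z i) (hz i).1 (hz i).2
    calc s * (Real.exp (200 / D ^ 2) * Real.exp (-(100 / 3) * z i ^ 2 + 200 / D * |z i|) ^ 2)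
        ≤ s * (Real.exp (200 / D ^ 2) * β (j i) ^ 2) := by gcongr
      _ = (r * β (j i)) ^ 2 := by rw [mul_pow, hr2]; ring
  · intro F
    have hsum : ∑ j ∈ F, ∏ i, (r * β (j i)) ≤ (r * ∑' k, β k) ^ D := by
      set t : Fin D → Finset ℤ := fun i => F.image fun j => j i with ht
      have hsub : F ⊆ Fintype.piFinset t := by
        intro j hj
        rw [Fintype.mem_piFinset]
        intro i
        exact Finset.mem_image_of_mem _ hj
      calc ∑ j ∈ F, ∏ i, (r * β (j i))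
          ≤ ∑ j ∈ Fintype.piFinset t, ∏ i, (r * β (j i)) := by
            refine Finset.sum_le_sum_of_subset_of_nonneg hsub fun j _ _ => ?_
            exact Finset.prod_nonneg fun i _ => mul_nonneg hr0 (hβ0 _)
        _ = ∏ i, ∑ k ∈ t i, (r * β k) :=
            (Finset.prod_univ_sum t fun _ k => r * β k).symm
        _ ≤ ∏ _i : Fin D, (r * ∑' k, β k) := by
            refine Finset.prod_le_prod (fun i _ => Finset.sum_nonneg fun k _ =>
              mul_nonneg hr0 (hβ0 _)) fun i _ => ?_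
            rw [← Finset.mul_sum]
            exact mul_le_mul_of_nonneg_left (hβs.sum_le_tsum _ fun k _ => hβ0 k) hr0
        _ = (r * ∑' k, β k) ^ D := by
            rw [Finset.prod_const, Finset.card_univ, Fintype.card_fin]
    have hβt0 : 0 ≤ ∑' k, β k := tsum_nonneg hβ0
    have hbase : Real.exp (200 / 4096) * (r * ∑' k, β k) ≤
        Real.exp (-1 / 25) * Real.exp (434 / D) * D := by
      have a1 : (200 / (D : ℝ)) ^ 2 / (4 * (100 / 3)) = 300 / D ^ 2 := by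
        field_simp
        norm_num
      have a2 : π / (100 / 3) = 3 * π / 100 := by ring
      have a3 : 200 / (D : ℝ) / (100 / 3) = 6 / D := by
        field_simp
        norm_num
      rw [a1, a2, a3] at hβt
      set a : ℝ := Real.sqrt (3 * π / 100) with ha
      have a4 : 3 / 10 ≤ a := by
        apply Real.le_sqrt_of_sq_le
        have := Real.pi_gt_three
        nlinarith
      have a0 : 0 < a := by linarith
      have a5 : a + 6 / D + 4 / D ≤ a * Real.exp (34 / D) := by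
        have h1 := Real.add_one_le_exp (34 / (D : ℝ))
        have h2 : a * (34 / D + 1) ≤ a * Real.exp (34 / D) := by gcongr
        refine le_trans ?_ h2
        have h3 : 6 / (D : ℝ) + 4 / D ≤ a * (34 / D) := by
          have h4 : 6 / (D : ℝ) + 4 / D = 10 * (1 / D) := by ring
          have h5 : a * (34 / D) = (a * 34) * (1 / D) := by ring
          rw [h4, h5]
          gcongr
          linarith
        linarith
      have a6 : Real.exp (100 / D ^ 2) * Real.exp (300 / (D : ℝ) ^ 2) * Real.exp (34 / D) ≤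
          Real.exp (434 / D) := by
        rw [← Real.exp_add, ← Real.exp_add]
        apply Real.exp_le_exp.2
        have h1 : 100 / (D : ℝ) ^ 2 + 300 / (D : ℝ) ^ 2 = 400 * (1 / (D : ℝ) ^ 2) := by ring
        have h2 : 1 / (D : ℝ) ^ 2 ≤ 1 / D := by
          apply one_div_le_one_div_of_le hD0
          nlinarith
        have h3 : 434 / (D : ℝ) = 400 * (1 / D) + 34 / D := by ring
        rw [h1, h3]
        gcongr
      calc Real.exp (200 / 4096) * (r * ∑' k, β k)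
          ≤ Real.exp (200 / 4096) * (r * (D * (Real.exp (300 / D ^ 2) *
            (a + 6 / D + 4 / D)))) := by gcongr
        _ ≤ Real.exp (200 / 4096) * (r * (D * (Real.exp (300 / D ^ 2) *
            (a * Real.exp (34 / D))))) := by gcongr
        _ = (Real.exp (200 / 4096) * Real.sqrt s * a) *
            (Real.exp (100 / D ^ 2) * Real.exp (300 / (D : ℝ) ^ 2) * Real.exp (34 / D)) * D := by
            rw [hr]
            ring
        _ ≤ Real.exp (-1 / 25) * Real.exp (434 / D) * D := by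
            gcongr
            exact num
    calc Real.exp (200 / 4096) ^ D * ∑ j ∈ F, ∏ i, (r * β (j i))
        ≤ Real.exp (200 / 4096) ^ D * (r * ∑' k, β k) ^ D := by gcongr
      _ = (Real.exp (200 / 4096) * (r * ∑' k, β k)) ^ D := (mul_pow _ _ D).symm
      _ ≤ (Real.exp (-1 / 25) * Real.exp (434 / D) * D) ^ D :=
          pow_le_pow_left₀ (by positivity) hbase D
      _ = Real.exp 434 * Real.exp (-(D : ℝ) / 25) * (D : ℝ) ^ D := by
          rw [mul_pow, mul_pow, ← Real.exp_nat_mul, ← Real.exp_nat_mul]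
          have h1 : (D : ℝ) * (434 / D) = 434 := by field_simp
          have h2 : (D : ℝ) * (-1 / 25) = -(D : ℝ) / 25 := by ring
          rw [h1, h2]
          ring

theorem eventually_small : ∃ n0 : ℕ, ∀ n ≥ n0,
    2 * ((n : ℝ) ^ 4) ^ 2 * (Real.exp 434 * Real.exp (-(n : ℝ) ^ 4 / 25)) ≤
      Real.exp (-(n : ℝ) ^ 4 / 50) := by
  have h1 := Real.tendsto_pow_mul_exp_neg_atTop_nhds_zero 2
  have h2 : Tendsto (fun n : ℕ => (1 / 50 : ℝ) * (n : ℝ) ^ 4) atTop atTop := by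
    apply Tendsto.const_mul_atTop (by norm_num)
    exact (tendsto_pow_atTop (by norm_num)).comp tendsto_natCast_atTop_atTop
  have h3 := h1.comp h2
  have hc : 0 < 1 / (5000 * Real.exp 434) := by positivity
  have h4 := h3.eventually (gt_mem_nhds hc)
  rw [eventually_atTop] at h4
  obtain ⟨n0, hn0⟩ := h4
  refine ⟨n0, fun n hn => ?_⟩
  have h5 := hn0 n hn
  simp only [Function.comp] at h5
  have h9 : Real.exp (-(n : ℝ) ^ 4 / 25) =
      Real.exp (-(1 / 50 * (n : ℝ) ^ 4)) * Real.exp (-(n : ℝ) ^ 4 / 50) := by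
    rw [← Real.exp_add]
    congr 1
    ring
  rw [h9]
  have hE : 0 < Real.exp 434 := Real.exp_pos _
  calc 2 * ((n : ℝ) ^ 4) ^ 2 * (Real.exp 434 *
        (Real.exp (-(1 / 50 * (n : ℝ) ^ 4)) * Real.exp (-(n : ℝ) ^ 4 / 50)))
      = 5000 * Real.exp 434 * ((1 / 50 * (n : ℝ) ^ 4) ^ 2 *
          Real.exp (-(1 / 50 * (n : ℝ) ^ 4))) * Real.exp (-(n : ℝ) ^ 4 / 50) := by ring
    _ ≤ 5000 * Real.exp 434 * (1 / (5000 * Real.exp 434)) * Real.exp (-(n : ℝ) ^ 4 / 50) := by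
        gcongr
    _ = Real.exp (-(n : ℝ) ^ 4 / 50) := by
        field_simp

end TYH_

open TYH_ in
theorem tyh_proof (hGWB : Stmt_GWB) (hCCB : Stmt_CCB) (hRS1 : Stmt_RS1) : Stmt_TYH := by
  classical
  obtain ⟨n0, hn0⟩ := eventually_small
  refine ⟨max n0 1, fun n hn => ?_⟩
  have hn1 : 1 ≤ n := (le_max_right n0 1).trans hn
  have hn' : (1 : ℝ) ≤ n := by exact_mod_cast hn1
  have hfin := hn0 n ((le_max_left n0 1).trans hn)
  have hDn : (dm n : ℝ) = (n : ℝ) ^ 4 := by simp [dm]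
  have hD1' : 1 ≤ dm n := by
    unfold dm
    exact Nat.one_le_pow _ _ hn1
  have hD1 : (1 : ℝ) ≤ dm n := by exact_mod_cast hD1'
  obtain ⟨β, hβ0, hβ1, hβ2⟩ := sumF hRS1 (dm n) hD1'
  set q0 : ℝ := 2 * (dm n : ℝ) ^ 2 * Real.exp (200 * om n ^ 2) with hq0
  have hq00 : 0 ≤ q0 := by positivity
  have hR0 : (0 : ℝ) ≤ Rn n := by
    unfold Rn
    positivity
  have hprod : ∀ j : Z (dm n), 0 ≤ ∏ i, β (j i) := fun j =>
    Finset.prod_nonneg fun i _ => hβ0 _
  have hsq : ∀ j : Z (dm n), Real.sqrt ((q0 * ∏ i, β (j i)) ^ 2) = q0 * ∏ i, β (j i) :=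
    fun j => Real.sqrt_sq (mul_nonneg hq00 (hprod j))
  have hs : ∀ F : Finset (Z (dm n)), ∑ j ∈ F, Real.sqrt ((q0 * ∏ i, β (j i)) ^ 2) ≤
      Real.exp (-(n : ℝ) ^ 4 / 50) * (dm n : ℝ) ^ dm n := by
    intro F
    have e1 : ∑ j ∈ F, Real.sqrt ((q0 * ∏ i, β (j i)) ^ 2) = q0 * ∑ j ∈ F, ∏ i, β (j i) := by
      rw [Finset.mul_sum]
      exact Finset.sum_congr rfl fun j _ => hsq j
    have e2 : Real.exp (200 * om n ^ 2) = Real.exp (200 / 4096) ^ dm n := by
      rw [← Real.exp_nat_mul]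
      congr 1
      rw [hDn]
      unfold om
      ring
    have e3 := hβ2 F
    have e4 : (-(dm n : ℝ) / 25) = -(n : ℝ) ^ 4 / 25 := by rw [hDn]
    rw [e4] at e3
    calc ∑ j ∈ F, Real.sqrt ((q0 * ∏ i, β (j i)) ^ 2)
        = 2 * (dm n : ℝ) ^ 2 * (Real.exp (200 / 4096) ^ dm n * ∑ j ∈ F, ∏ i, β (j i)) := by
          rw [e1, hq0, e2]
          ring
      _ ≤ 2 * (dm n : ℝ) ^ 2 * (Real.exp 434 * Real.exp (-(n : ℝ) ^ 4 / 25) *
          (dm n : ℝ) ^ dm n) := by gcongr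
      _ = (2 * ((n : ℝ) ^ 4) ^ 2 * (Real.exp 434 * Real.exp (-(n : ℝ) ^ 4 / 25))) *
          (dm n : ℝ) ^ dm n := by
          have : 2 * (dm n : ℝ) ^ 2 = 2 * ((n : ℝ) ^ 4) ^ 2 := by rw [hDn]
          rw [this]
          ring
      _ ≤ _ := mul_le_mul_of_nonneg_right hfin (by positivity)
  refine ⟨fun j => (q0 * ∏ i, β (j i)) ^ 2, fun j => sq_nonneg _, ?_,
    summable_of_sum_le (fun j => Real.sqrt_nonneg _) hs,
    (summable_of_sum_le (fun j => Real.sqrt_nonneg _) hs).tsum_le_of_sum_le hs⟩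
  intro j z hz w hw
  refine (typ_bound hGWB hCCB n hn1 w hw z).trans ?_
  have h1 : Bt (dm n) z ≤ (∏ i, β (j i)) ^ 2 := hβ1 j z fun i => hz i
  show Rn n ^ w.length * (q0 ^ 2 * Bt (dm n) z) ≤
    Rn n ^ w.length * (q0 * ∏ i, β (j i)) ^ 2
  rw [mul_pow q0]
  gcongr

end Pool.Agent.HBW
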