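import Pool.Agent.HBW.Stmts

/-!
Squad HBW, module WIA: lattice sums of the circle transforms (wide) against polynomials.
-/

set_option autoImplicit false

namespace Pool.Agent.HBW

open MeasureTheory Set Filter Topology
open scoped ENNReal Real

noncomputable section

namespace WIA_

/-- the common properties of `cc ω τ`, `cs ω τ` and the evaluation at `τ` -/
structure Op (τ K : ℝ) (T : (ℂ → ℂ) → ℂ) : Prop where
  hom : ∀ (g : ℂ → ℂ) (c : ℂ), T (fun ζ => g ζ * c) = T g * c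
  sum : ∀ (ι : Type) (g : ι → ℂ → ℂ) (b : ι → ℝ), Countable ι →
    (∀ k, ContinuousOn (g k) (Metric.closedBall (τ : ℂ) (τ / 2))) → Summable b →
    (∀ (k : ι) (ζ : ℂ), ‖ζ - (τ : ℂ)‖ ≤ τ / 2 → ‖g k ζ‖ ≤ b k) →
    HasSum (fun k => T (g k)) (T (fun ζ => ∑' k, g k ζ))
  bd : ∀ (g : ℂ → ℂ) (C : ℝ), (∀ ζ : ℂ, ‖ζ - (τ : ℂ)‖ ≤ τ / 2 → ‖g ζ‖ ≤ C) → ‖T g‖ ≤ K * C

lemma op_add {τ K : ℝ} {T : (ℂ → ℂ) → ℂ} (h : Op τ K T) (g f : ℂ → ℂ)
    (hg : ContinuousOn g (Metric.closedBall (τ : ℂ) (τ / 2)))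
    (hf : ContinuousOn f (Metric.closedBall (τ : ℂ) (τ / 2))) :
    T (fun ζ => g ζ + f ζ) = T g + T f := by
  have hc : IsCompact (Metric.closedBall (τ : ℂ) (τ / 2)) := isCompact_closedBall _ _
  obtain ⟨C1, h1⟩ := hc.exists_bound_of_continuousOn hg
  obtain ⟨C2, h2⟩ := hc.exists_bound_of_continuousOn hf
  have hs := h.sum Bool (fun k => if k then g else f) (fun k => if k then C1 else C2)
    inferInstance (by
      intro k
      cases k
      · simpa using hf
      · simpa using hg) (Summable.of_finite) (by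
      intro k ζ hζ
      have hζ' : ζ ∈ Metric.closedBall (τ : ℂ) (τ / 2) := by
        rw [Metric.mem_closedBall, dist_eq_norm]
        exact hζ
      cases k
      · simpa using h2 ζ hζ'
      · simpa using h1 ζ hζ')
  have h3 := hs.unique (hasSum_fintype _)
  have h4 : (fun ζ => ∑' k : Bool, (if k then g else f : ℂ → ℂ) ζ) = fun ζ => g ζ + f ζ := by
    funext ζ
    rw [tsum_fintype]
    simp
  rw [h4] at h3
  rw [h3]
  simp

lemma op_sub {τ K : ℝ} {T : (ℂ → ℂ) → ℂ} (h : Op τ K T) (g f : ℂ → ℂ)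
    (hg : ContinuousOn g (Metric.closedBall (τ : ℂ) (τ / 2)))
    (hf : ContinuousOn f (Metric.closedBall (τ : ℂ) (τ / 2))) :
    T (fun ζ => g ζ - f ζ) = T g - T f := by
  have h1 := op_add h (fun ζ => g ζ - f ζ) f (hg.sub hf) hf
  have h2 : (fun ζ => g ζ - f ζ + f ζ) = g := by
    funext ζ
    ring
  rw [h2] at h1
  rw [h1]
  ring

section mon

variable {D : ℕ}

lemma mon_prod (v : List (Fin D)) (x : P D) : mon v x = ∏ i, x i ^ v.count i := by
  unfold mon
  induction v with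
  | nil => simp
  | cons a v ih =>
    rw [List.map_cons, List.prod_cons, ih]
    have : ∀ i, x i ^ (a :: v).count i = (if a = i then x i else 1) * x i ^ v.count i := by
      intro i
      by_cases h : a = i
      · subst h
        rw [List.count_cons_self, pow_succ]
        simp only [if_true]
        ring
      · rw [List.count_cons_of_ne h]
        simp only [if_neg h, one_mul]
    simp only [this]
    rw [Finset.prod_mul_distrib, Finset.prod_ite_eq Finset.univ a x]
    simp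

lemma inc_cont (hIN1 : Stmt_IN1) (w v : List (Fin D)) (τ : ℝ) (hτ : 0 < τ) :
    ContinuousOn (fun ζ => INc ζ w v) (Metric.closedBall (τ : ℂ) (τ / 2)) := by
  have h1 := fun i : Fin D => (hIN1 1 (w.count i) (v.count i) (by simp)).2
  choose m j _ _ _ hm using h1
  have hre : ∀ ζ ∈ Metric.closedBall (τ : ℂ) (τ / 2), 0 < ζ.re := by
    intro ζ hζ
    rw [Metric.mem_closedBall, dist_eq_norm] at hζ
    have h2 := (Complex.abs_re_le_norm (ζ - τ)).trans hζ
    rw [Complex.sub_re, Complex.ofReal_re, abs_le] at h2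
    linarith [h2.1]
  have heq : ∀ ζ ∈ Metric.closedBall (τ : ℂ) (τ / 2), INc ζ w v = ∏ i, (m i * ζ ^ j i) := by
    intro ζ hζ
    have h3 : ∀ x : P D, gw w ζ (-x) * (mon v x : ℂ) =
        ∏ i, (iteratedDeriv (w.count i) (phc ζ) ((-(x i) : ℝ) : ℂ) * (x i : ℂ) ^ v.count i) := by
      intro x
      rw [mon_prod, Finset.prod_mul_distrib]
      unfold gw
      push_cast
      simp
    unfold INc
    simp only [h3]
    rw [integral_fintype_prod_volume_eq_prod
      (fun (i : Fin D) (t : ℝ) =>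
        iteratedDeriv (w.count i) (phc ζ) ((-t : ℝ) : ℂ) * (t : ℂ) ^ v.count i)]
    exact Finset.prod_congr rfl fun i _ => hm i ζ (hre ζ hζ)
  have hcont : ContinuousOn (fun ζ : ℂ => ∏ i, (m i * ζ ^ j i))
      (Metric.closedBall (τ : ℂ) (τ / 2)) := by
    apply Continuous.continuousOn
    fun_prop
  exact hcont.congr heq

end mon

section main

variable {D : ℕ} {X : Type} [NormedAddCommGroup X] [NormedSpace ℝ X]

lemma main (hALD : Stmt_ALD) (hALB : Stmt_ALB) (hTEX : Stmt_TEX) (hGWA : Stmt_GWA)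
    (hIN1 : Stmt_IN1) {K τ : ℝ} {T : (ℂ → ℂ) → ℂ} (hT : Op τ K T) (hK : 0 ≤ K)
    (M : ℕ) (Q : P D → X) (b δ : ℝ) (w : List (Fin D)) (z : P D)
    (hQ : IsPol M Q) (hD : 1 ≤ D) (hM : M ≤ 2 * D) (hτ : 64 ≤ τ) (hDτ : (D : ℝ) ≤ Real.exp τ)
    (hb : 0 ≤ b) (hδ : 0 ≤ δ) (hδ2 : 64 * (D : ℝ) ^ 3 * δ ≤ 1) (hw : w.length ≤ 2 * D)
    (hv : ∀ v : List (Fin D), ‖pdw v Q z‖ ≤ b * δ ^ v.length) :
    Summable (fun k : Z D => ‖(T (fun ζ => gw w ζ (z - zr k))).re • Q (zr k)‖) ∧
    ‖(∑' k : Z D, (T (fun ζ => gw w ζ (z - zr k))).re • Q (zr k)) -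
      ∑ m ∈ Finset.range M, (1 / m.factorial : ℝ) • ∑ v : Fin m → Fin D,
        (T (fun ζ => INc ζ w (List.ofFn v))).re • pdw (List.ofFn v) Q z‖ ≤
      (2 * (D : ℝ)) ^ w.length * (12 * D) * b * K * Real.exp (-2 * τ) := by
  have hτ0 : 0 < τ := by linarith
  have hDr : (1 : ℝ) ≤ D := by exact_mod_cast hD
  -- continuity of the terms
  have hre : ∀ ζ ∈ Metric.closedBall (τ : ℂ) (τ / 2), 0 < ζ.re := by
    intro ζ hζ
    rw [Metric.mem_closedBall, dist_eq_norm] at hζ
    have h2 := (Complex.abs_re_le_norm (ζ - τ)).trans hζ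
    rw [Complex.sub_re, Complex.ofReal_re, abs_le] at h2
    linarith [h2.1]
  have hgc : ∀ (v : List (Fin D)) (k : Z D),
      ContinuousOn (fun ζ => gw w ζ (z - zr k) * (mon v (zr k - z) : ℂ))
        (Metric.closedBall (τ : ℂ) (τ / 2)) := by
    intro v k
    refine ContinuousOn.mul ?_ continuousOn_const
    exact (((hGWA D w).1 (z - zr k)).continuousOn).mono hre
  -- the sums for a fixed word
  have hS : ∀ v : List (Fin D), ∃ c : Z D → ℝ, Summable c ∧
      (∀ k, ‖T (fun ζ => gw w ζ (z - zr k)) * (mon v (zr k - z) : ℂ)‖ ≤ c k) ∧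
      HasSum (fun k : Z D => T (fun ζ => gw w ζ (z - zr k)) * (mon v (zr k - z) : ℂ))
        (T (fun ζ => ∑' k : Z D, gw w ζ (z - zr k) * (mon v (zr k - z) : ℂ))) ∧
      ContinuousOn (fun ζ => ∑' k : Z D, gw w ζ (z - zr k) * (mon v (zr k - z) : ℂ))
        (Metric.closedBall (τ : ℂ) (τ / 2)) := by
    intro v
    obtain ⟨c, hc, hc2⟩ := hALB D τ w v z hτ0
    have h1 := hT.sum (Z D) (fun k ζ => gw w ζ (z - zr k) * (mon v (zr k - z) : ℂ)) c
      inferInstance (hgc v) hc (fun k ζ hζ => hc2 ζ hζ k)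
    simp only [hT.hom] at h1
    refine ⟨fun k => K * c k, hc.mul_left K, fun k => ?_, h1, ?_⟩
    · rw [← hT.hom]
      exact hT.bd _ _ (fun ζ hζ => hc2 ζ hζ k)
    · refine continuousOn_tsum (hgc v) hc (fun k ζ hζ => ?_)
      rw [Metric.mem_closedBall, dist_eq_norm] at hζ
      exact hc2 ζ hζ k
  choose c hc hc1 hc2 hc3 using hS
  -- the error for a fixed word
  have herr : ∀ v : List (Fin D), v.length ≤ 2 * D →
      ‖T (fun ζ => ∑' k : Z D, gw w ζ (z - zr k) * (mon v (zr k - z) : ℂ)) -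
        T (fun ζ => INc ζ w v)‖ ≤
      K * ((2 * (D : ℝ)) ^ w.length * (32 * (D : ℝ) ^ 2) ^ v.length * (6 * D) *
        Real.exp (-2 * τ)) := by
    intro v hvl
    rw [← op_sub hT _ _ (hc3 v) (inc_cont hIN1 w v τ hτ0)]
    refine hT.bd _ _ (fun ζ hζ => ?_)
    exact (hALD D τ ζ w v z hD hτ hDτ hζ hw hvl).2
  -- the sum
  have hTk : ∀ k : Z D, (T (fun ζ => gw w ζ (z - zr k))).re • Q (zr k) =
      ∑ m ∈ Finset.range M, (1 / m.factorial : ℝ) • ∑ v : Fin m → Fin D,
        (T (fun ζ => gw w ζ (z - zr k)) * (mon (List.ofFn v) (zr k - z) : ℂ)).re •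
          pdw (List.ofFn v) Q z := by
    intro k
    have h1 := hTEX D X M Q z (zr k) hQ
    rw [h1, Finset.smul_sum]
    refine Finset.sum_congr rfl fun m _ => ?_
    rw [smul_comm, Finset.smul_sum]
    congr 1
    refine Finset.sum_congr rfl fun v _ => ?_
    rw [smul_smul, Complex.re_mul_ofReal]
  have hsum : HasSum (fun k : Z D => (T (fun ζ => gw w ζ (z - zr k))).re • Q (zr k))
      (∑ m ∈ Finset.range M, (1 / m.factorial : ℝ) • ∑ v : Fin m → Fin D,
        (T (fun ζ => ∑' k : Z D, gw w ζ (z - zr k) *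
          (mon (List.ofFn v) (zr k - z) : ℂ))).re • pdw (List.ofFn v) Q z) := by
    have h1 : (fun k : Z D => (T (fun ζ => gw w ζ (z - zr k))).re • Q (zr k)) =
        fun k : Z D => ∑ m ∈ Finset.range M, (1 / m.factorial : ℝ) • ∑ v : Fin m → Fin D,
        (T (fun ζ => gw w ζ (z - zr k)) * (mon (List.ofFn v) (zr k - z) : ℂ)).re •
          pdw (List.ofFn v) Q z := funext hTk
    rw [h1]
    refine hasSum_sum fun m _ => ?_
    refine HasSum.const_smul _ ?_
    refine hasSum_sum fun v _ => ?_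
    refine HasSum.smul_const ?_ _
    exact Complex.hasSum_re (hc2 (List.ofFn v))
  refine ⟨?_, ?_⟩
  · -- summability of norms
    have h1 : Summable (fun k : Z D => ∑ m ∈ Finset.range M, (1 / m.factorial : ℝ) *
        ∑ v : Fin m → Fin D, c (List.ofFn v) k * ‖pdw (List.ofFn v) Q z‖) := by
      refine summable_sum fun m _ => ?_
      refine Summable.mul_left _ ?_
      refine summable_sum fun v _ => ?_
      exact (hc (List.ofFn v)).mul_right _
    refine Summable.of_nonneg_of_le (fun k => norm_nonneg _) (fun k => ?_) h1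
    rw [hTk k]
    refine (norm_sum_le _ _).trans (Finset.sum_le_sum fun m _ => ?_)
    rw [norm_smul, Real.norm_of_nonneg (by positivity)]
    refine mul_le_mul_of_nonneg_left ?_ (by positivity)
    refine (norm_sum_le _ _).trans (Finset.sum_le_sum fun v _ => ?_)
    rw [norm_smul]
    refine mul_le_mul_of_nonneg_right ?_ (norm_nonneg _)
    rw [Real.norm_eq_abs]
    exact (Complex.abs_re_le_norm _).trans (hc1 (List.ofFn v) k)
  · rw [hsum.tsum_eq, ← Finset.sum_sub_distrib]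
    set A : ℝ := (2 * (D : ℝ)) ^ w.length * (6 * D) * b * K * Real.exp (-2 * τ) with hA
    have hA0 : 0 ≤ A := by positivity
    have hstep : ∀ m ∈ Finset.range M,
        ‖(1 / m.factorial : ℝ) • (∑ v : Fin m → Fin D,
          (T (fun ζ => ∑' k : Z D, gw w ζ (z - zr k) *
            (mon (List.ofFn v) (zr k - z) : ℂ))).re • pdw (List.ofFn v) Q z) -
          (1 / m.factorial : ℝ) • ∑ v : Fin m → Fin D,
          (T (fun ζ => INc ζ w (List.ofFn v))).re • pdw (List.ofFn v) Q z‖ ≤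
        A * ((1 / 2) ^ m / m.factorial) := by
      intro m hm
      have hm2 : m < M := Finset.mem_range.1 hm
      rw [← smul_sub, ← Finset.sum_sub_distrib, norm_smul, Real.norm_of_nonneg (by positivity)]
      have h1 : ‖∑ v : Fin m → Fin D, ((T (fun ζ => ∑' k : Z D, gw w ζ (z - zr k) *
            (mon (List.ofFn v) (zr k - z) : ℂ))).re • pdw (List.ofFn v) Q z -
          (T (fun ζ => INc ζ w (List.ofFn v))).re • pdw (List.ofFn v) Q z)‖ ≤
          ∑ _v : Fin m → Fin D, A * (32 * (D : ℝ) ^ 2) ^ m * δ ^ m := by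
        refine (norm_sum_le _ _).trans (Finset.sum_le_sum fun v _ => ?_)
        rw [← sub_smul, norm_smul, ← Complex.sub_re]
        have e1 := herr (List.ofFn v) (by rw [List.length_ofFn]; omega)
        have e2 := hv (List.ofFn v)
        rw [List.length_ofFn] at e1 e2
        have e3 := (Complex.abs_re_le_norm (T (fun ζ => ∑' k : Z D, gw w ζ (z - zr k) *
          (mon (List.ofFn v) (zr k - z) : ℂ)) - T (fun ζ => INc ζ w (List.ofFn v)))).trans e1
        rw [← Real.norm_eq_abs] at e3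
        refine (mul_le_mul e3 e2 (norm_nonneg _) (by positivity)).trans (le_of_eq ?_)
        rw [hA]
        ring
      have h2 : ∑ _v : Fin m → Fin D, A * (32 * (D : ℝ) ^ 2) ^ m * δ ^ m =
          A * (32 * (D : ℝ) ^ 3 * δ) ^ m := by
        rw [Finset.sum_const, Finset.card_univ, Fintype.card_fun, Fintype.card_fin,
          Fintype.card_fin, nsmul_eq_mul]
        push_cast
        rw [mul_pow, mul_pow, mul_pow, ← pow_mul, ← pow_mul]
        have : (D : ℝ) ^ (3 * m) = (D : ℝ) ^ m * (D : ℝ) ^ (2 * m) := by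
          rw [← pow_add]
          congr 1
          ring
        rw [this]
        ring
      rw [h2] at h1
      have h3 : (32 * (D : ℝ) ^ 3 * δ) ^ m ≤ (1 / 2) ^ m :=
        pow_le_pow_left₀ (by positivity) (by linarith) m
      calc (1 / (m.factorial : ℝ)) * _ ≤ (1 / (m.factorial : ℝ)) *
            (A * (32 * (D : ℝ) ^ 3 * δ) ^ m) := mul_le_mul_of_nonneg_left h1 (by positivity)
        _ ≤ (1 / (m.factorial : ℝ)) * (A * (1 / 2) ^ m) :=
            mul_le_mul_of_nonneg_left (mul_le_mul_of_nonneg_left h3 hA0) (by positivity)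
        _ = A * ((1 / 2) ^ m / m.factorial) := by ring
    refine (norm_sum_le _ _).trans ((Finset.sum_le_sum hstep).trans ?_)
    rw [← Finset.mul_sum]
    have h4 : ∑ m ∈ Finset.range M, ((1 / 2 : ℝ) ^ m / m.factorial) ≤ 2 := by
      have h5 := Real.sum_le_exp_of_nonneg (x := 1 / 2) (by norm_num) M
      have h6 : Real.exp (1 / 2) ≤ 2 := by
        have h7 : Real.exp (1 / 2) ^ 2 = Real.exp 1 := by
          rw [← Real.exp_nat_mul]
          norm_num
        have h8 := Real.exp_one_lt_d9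
        nlinarith [Real.exp_pos (1 / 2)]
      exact h5.trans h6
    refine (mul_le_mul_of_nonneg_left h4 hA0).trans (le_of_eq ?_)
    rw [hA]
    ring

end main

lemma op_cc (hCCI : Stmt_CCI) (hCCB : Stmt_CCB) (ω τ : ℝ) (hτ : 0 < τ) (hω : 0 ≤ ω) :
    Op τ (Real.exp (4 * ω ^ 2 / τ)) (cc ω τ) := by
  refine ⟨?_, ?_, ?_⟩
  · intro g c
    unfold cc
    have h1 : (fun ζ : ℂ => Pc ω (ζ - τ) * (g ζ * c)) = fun ζ => c * (Pc ω (ζ - τ) * g ζ) := by
      funext ζ
      ring
    rw [h1, circleIntegral.integral_const_mul]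
    ring
  · intro ι g b hι hg hb hgb
    exact (hCCI ι ω τ g b hτ hι (fun k => (hg k).mono Metric.sphere_subset_closedBall) hb
      (fun k ζ hζ => hgb k ζ hζ.le)).1
  · intro g C hC
    exact (hCCB ω τ C g hτ hω (fun ζ hζ => hC ζ hζ.le)).1

lemma op_cs (hCCI : Stmt_CCI) (hCCB : Stmt_CCB) (ω τ : ℝ) (hτ : 0 < τ) (hω : 0 ≤ ω) :
    Op τ (ω * Real.exp (4 * ω ^ 2 / τ)) (cs ω τ) := by
  refine ⟨?_, ?_, ?_⟩
  · intro g c
    unfold cs
    have h1 : (fun ζ : ℂ => Ps ω (ζ - τ) * (g ζ * c)) = fun ζ => c * (Ps ω (ζ - τ) * g ζ) := by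
      funext ζ
      ring
    rw [h1, circleIntegral.integral_const_mul]
    ring
  · intro ι g b hι hg hb hgb
    exact (hCCI ι ω τ g b hτ hι (fun k => (hg k).mono Metric.sphere_subset_closedBall) hb
      (fun k ζ hζ => hgb k ζ hζ.le)).2
  · intro g C hC
    exact (hCCB ω τ C g hτ hω (fun ζ hζ => hC ζ hζ.le)).2

lemma op_ev (τ : ℝ) (hτ : 0 < τ) : Op τ 1 (fun g => g (τ : ℂ)) := by
  have h0 : ‖(τ : ℂ) - τ‖ ≤ τ / 2 := by
    rw [sub_self, norm_zero]
    linarith
  refine ⟨fun g c => rfl, ?_, ?_⟩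
  · intro ι g b _ _ hb hgb
    exact (Summable.of_norm_bounded hb (fun k => hgb k τ h0)).hasSum
  · intro g C hC
    rw [one_mul]
    exact hC τ h0

end WIA_

open WIA_ in
/-- lattice sums of the circle transforms (wide) -/
theorem wia_proof (hALD : Stmt_ALD) (hALB : Stmt_ALB) (hCCI : Stmt_CCI) (hCCB : Stmt_CCB)
    (hCMX : Stmt_CMX) (hTEX : Stmt_TEX) (hGSR : Stmt_GSR) (hGWA : Stmt_GWA)
    (hIN1 : Stmt_IN1) : Stmt_WIA := by
  intro D X _ _ _ M Q τ ω b δ w z hQ hD hM hτ hDτ hω hb hδ hδ2 hw hv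
  have hτ0 : 0 < τ := by linarith
  obtain ⟨c1, c2, c3⟩ := hCMX D X M Q τ ω w z hQ hτ0
  refine ⟨?_, ?_, ?_⟩
  · have h := WIA_.main hALD hALB hTEX hGWA hIN1 (op_cc hCCI hCCB ω τ hτ0 hω) (by positivity)
      M Q b δ w z hQ hD hM hτ hDτ hb hδ hδ2 hw hv
    rw [c1] at h
    exact h
  · have h := WIA_.main hALD hALB hTEX hGWA hIN1 (op_cs hCCI hCCB ω τ hτ0 hω) (by positivity)
      M Q b δ w z hQ hD hM hτ hDτ hb hδ hδ2 hw hv
    rw [c2] at h
    exact h
  · have h := WIA_.main hALD hALB hTEX hGWA hIN1 (op_ev τ hτ0) zero_le_one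
      M Q b δ w z hQ hD hM hτ hDτ hb hδ hδ2 hw hv
    simp only [(hGSR D τ hτ0).1, Complex.ofReal_re] at h
    rw [c3, mul_one] at h
    exact h

end

end Pool.Agent.HBW
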