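import Pool.Agent.HBW.Stmts

set_option autoImplicit false

namespace Pool.Agent.HBW

open MeasureTheory Set Filter Topology
open scoped ENNReal Real

namespace WIC_

variable {D : ℕ} {X : Type} [NormedAddCommGroup X] [NormedSpace ℝ X]

lemma smo_pd {f : P D → X} (hf : Smo f) (i : Fin D) : Smo (pd i f) := by
  unfold pd
  exact (ContDiff.fderiv_right (m := ((⊤ : ℕ∞) : WithTop ℕ∞)) hf (by rfl)).clm_apply
    contDiff_const

lemma smo_sum {ι : Type} (s : Finset ι) (c : ι → ℝ) (f : ι → P D → X)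
    (hf : ∀ l ∈ s, Smo (f l)) : Smo (fun x => ∑ l ∈ s, c l • f l x) := by
  refine ContDiff.sum fun l hl => ?_
  exact (contDiff_const (c := c l)).smul (hf l hl)

lemma smo_lap {f : P D → X} (hf : Smo f) : Smo (Lap f) := by
  unfold Lap
  exact ContDiff.sum fun i _ => smo_pd (smo_pd hf i) i

lemma smo_lap_iter {f : P D → X} (hf : Smo f) (l : ℕ) : Smo (Lap^[l] f) := by
  induction l with
  | zero => simpa using hf
  | succ l ih =>
    rw [Function.iterate_succ_apply']
    exact smo_lap ih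

lemma smo_tp {f : P D → X} (hf : Smo f) (M : ℕ) (τ : ℝ) : Smo (Tp M τ f) := by
  unfold Tp
  exact smo_sum _ (fun l => (τ / 4) ^ l / (l.factorial : ℝ)) (fun l => Lap^[l] f)
    fun l _ => smo_lap_iter hf l

lemma pd_sum {ι : Type} (s : Finset ι) (c : ι → ℝ) (f : ι → P D → X)
    (hf : ∀ l ∈ s, Smo (f l)) (i : Fin D) :
    pd i (fun x => ∑ l ∈ s, c l • f l x) = fun x => ∑ l ∈ s, c l • pd i (f l) x := by
  funext x
  have hd : ∀ l ∈ s, DifferentiableAt ℝ (f l) x := fun l hl =>
    ((hf l hl).differentiable (by simp)).differentiableAt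
  have h1 : HasFDerivAt (fun x => ∑ l ∈ s, c l • f l x) (∑ l ∈ s, c l • fderiv ℝ (f l) x) x :=
    HasFDerivAt.fun_sum fun l hl => ((hd l hl).hasFDerivAt).const_smul (c l)
  unfold pd
  rw [h1.fderiv]
  simp

lemma smo_pdw {f : P D → X} (hf : Smo f) (w : List (Fin D)) : Smo (pdw w f) := by
  induction w with
  | nil => exact hf
  | cons i w ih => exact smo_pd ih i

lemma pdw_sum {ι : Type} (s : Finset ι) (c : ι → ℝ) (f : ι → P D → X)
    (hf : ∀ l ∈ s, Smo (f l)) (w : List (Fin D)) :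
    pdw w (fun x => ∑ l ∈ s, c l • f l x) = fun x => ∑ l ∈ s, c l • pdw w (f l) x := by
  induction w with
  | nil => rfl
  | cons i w ih =>
    show pd i (pdw w _) = _
    rw [ih, pd_sum s c (fun l => pdw w (f l)) (fun l hl => smo_pdw (hf l hl) w) i]
    rfl

lemma pdw_zero (w : List (Fin D)) : pdw w (fun _ => (0 : X)) = fun _ => 0 := by
  have := pdw_sum (X := X) (∅ : Finset ℕ) (fun _ => (0 : ℝ)) (fun _ _ => (0 : X)) (by simp) w
  simpa using this

lemma mon_le (x : P D) (v : List (Fin D)) : |mon v x| ≤ ‖x‖ ^ v.length := by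
  unfold mon
  induction v with
  | nil => simp
  | cons i v ih =>
    simp only [List.map_cons, List.prod_cons, List.length_cons, abs_mul, pow_succ]
    rw [mul_comm]
    exact mul_le_mul ih (norm_le_pi_norm x i) (abs_nonneg _) (by positivity)

/-- growth of polynomials with small jets -/
lemma growth (hTEX : Stmt_TEX) {M : ℕ} {Q : P D → X} (hQ : IsPol M Q) (z x : P D) (b δ : ℝ)
    (hb : 0 ≤ b) (hδ : 0 ≤ δ) (hD : (D : ℝ) * δ ≤ 1)
    (hj : ∀ v : List (Fin D), ‖pdw v Q z‖ ≤ b * δ ^ v.length) :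
    ‖Q x‖ ≤ b * (1 + ‖x - z‖) ^ M := by
  rw [hTEX D X M Q z x hQ]
  have hterm : ∀ m ∈ Finset.range M, ‖(1 / m.factorial : ℝ) • ∑ v : Fin m → Fin D,
      mon (List.ofFn v) (x - z) • pdw (List.ofFn v) Q z‖ ≤ b * (‖x - z‖ ^ m * (M.choose m : ℝ)) := by
    intro m hm
    have hm' : m ≤ M := (Finset.mem_range.mp hm).le
    rw [norm_smul]
    have h1 : ‖(1 / m.factorial : ℝ)‖ ≤ 1 := by
      rw [Real.norm_of_nonneg (by positivity)]
      rw [div_le_one (by positivity)]
      exact_mod_cast Nat.succ_le_of_lt m.factorial_pos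
    have h2 : ‖∑ v : Fin m → Fin D, mon (List.ofFn v) (x - z) • pdw (List.ofFn v) Q z‖ ≤
        b * ‖x - z‖ ^ m := by
      calc _ ≤ ∑ v : Fin m → Fin D, ‖mon (List.ofFn v) (x - z) • pdw (List.ofFn v) Q z‖ :=
            norm_sum_le _ _
        _ ≤ ∑ v : Fin m → Fin D, ‖x - z‖ ^ m * (b * δ ^ m) := by
            refine Finset.sum_le_sum fun v _ => ?_
            rw [norm_smul]
            have h3 := mon_le (x - z) (List.ofFn v)
            have h4 := hj (List.ofFn v)
            rw [List.length_ofFn] at h3 h4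
            exact mul_le_mul h3 h4 (norm_nonneg _) (by positivity)
        _ = (b * ‖x - z‖ ^ m) * ((D : ℝ) * δ) ^ m := by
            rw [Finset.sum_const, Finset.card_univ, Fintype.card_fun, Fintype.card_fin,
              Fintype.card_fin, nsmul_eq_mul, mul_pow]
            push_cast
            ring
        _ ≤ (b * ‖x - z‖ ^ m) * 1 := by
            refine mul_le_mul_of_nonneg_left ?_ (by positivity)
            exact pow_le_one₀ (by positivity) hD
        _ = _ := mul_one _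
    have h5 : (1 : ℝ) ≤ (M.choose m : ℝ) := by
      exact_mod_cast Nat.succ_le_of_lt (Nat.choose_pos hm')
    calc _ ≤ 1 * (b * ‖x - z‖ ^ m) := mul_le_mul h1 h2 (norm_nonneg _) zero_le_one
      _ = b * (‖x - z‖ ^ m * 1) := by ring
      _ ≤ b * (‖x - z‖ ^ m * (M.choose m : ℝ)) := by
          refine mul_le_mul_of_nonneg_left ?_ hb
          exact mul_le_mul_of_nonneg_left h5 (by positivity)
  calc _ ≤ ∑ m ∈ Finset.range M, b * (‖x - z‖ ^ m * (M.choose m : ℝ)) :=
        norm_sum_le_of_le _ hterm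
    _ ≤ ∑ m ∈ Finset.range (M + 1), b * (‖x - z‖ ^ m * (M.choose m : ℝ)) := by
        refine Finset.sum_le_sum_of_subset_of_nonneg ?_ fun _ _ _ => by positivity
        exact Finset.range_subset_range.mpr (Nat.le_succ M)
    _ = b * (1 + ‖x - z‖) ^ M := by
        rw [← Finset.mul_sum, add_comm (1 : ℝ), add_pow]
        simp

/-- the sum over the lattice for fixed heat time -/
lemma core (hWIA : Stmt_WIA) (hPO4 : Stmt_PO4) [FiniteDimensional ℝ X] (n : ℕ)
    (hn1 : 2 ≤ n) (hn2 : 64 * (dm n : ℝ) ^ 3 * dl n ≤ 1)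
    (hn3 : 4 * (dm n : ℝ) * Real.exp (-8 * um n) ≤ 1 / 2)
    (Q : P (dm n) → X) (z : P (dm n)) (b : ℝ) (w : List (Fin (dm n))) (hb : 0 ≤ b)
    (hQ : IsPol (dm n) Q) (hj : ∀ v : List (Fin (dm n)), ‖pdw v Q z‖ ≤ b * dl n ^ v.length)
    (hw : w.length ≤ 2 * dm n) (u : ℝ) (hu : 16 ≤ u) (hDu : (dm n : ℝ) ≤ Real.exp (4 * u)) :
    Summable (fun k : Z (dm n) => ‖(∑ l ∈ Finset.range (Ln n + 1),
      bs n l * gr w (tl n l + 4 * u) (z - zr k)) • Q (zr k)‖) ∧
    ‖∑' k : Z (dm n), (∑ l ∈ Finset.range (Ln n + 1),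
      bs n l * gr w (tl n l + 4 * u) (z - zr k)) • Q (zr k)‖ ≤
      (2 * (dm n : ℝ)) ^ w.length * (24 * dm n) * b * Real.exp (-8 * u) := by
  have hdm : 1 ≤ dm n := Nat.one_le_pow _ _ (by omega)
  have hum : 0 ≤ um n := by unfold um; positivity
  have htl0 : ∀ l, 0 ≤ tl n l := fun l => by
    unfold tl t0; positivity
  have hτ : ∀ l, 4 * u ≤ tl n l + 4 * u := fun l => by linarith [htl0 l]
  have hdl : 0 ≤ dl n := by unfold dl; positivity
  have hW : ∀ l, _ := fun l => (hWIA (dm n) X (dm n) Q (tl n l + 4 * u) 0 b (dl n) w z hQ hdm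
    (by omega) (by linarith [hτ l]) (hDu.trans (Real.exp_le_exp.mpr (hτ l))) le_rfl hb hdl hn2 hw
    hj).2.2
  have hsum : ∀ l, Summable (fun k : Z (dm n) => gr w (tl n l + 4 * u) (z - zr k) • Q (zr k)) :=
    fun l => (hW l).1.of_norm
  have heq : ∀ k : Z (dm n), (∑ l ∈ Finset.range (Ln n + 1),
      bs n l * gr w (tl n l + 4 * u) (z - zr k)) • Q (zr k) =
      ∑ l ∈ Finset.range (Ln n + 1), bs n l • (gr w (tl n l + 4 * u) (z - zr k) • Q (zr k)) := by
    intro k
    rw [Finset.sum_smul]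
    refine Finset.sum_congr rfl fun l _ => ?_
    rw [mul_smul]
  constructor
  · have h1 : Summable (fun k : Z (dm n) => ∑ l ∈ Finset.range (Ln n + 1),
        ‖bs n l • (gr w (tl n l + 4 * u) (z - zr k) • Q (zr k))‖) := by
      refine summable_sum fun l _ => ?_
      simp_rw [norm_smul (bs n l)]
      exact (hW l).1.mul_left _
    refine Summable.of_nonneg_of_le (fun k => norm_nonneg _) (fun k => ?_) h1
    rw [heq k]
    exact norm_sum_le _ _
  · have h2 : ∑' k : Z (dm n), (∑ l ∈ Finset.range (Ln n + 1),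
        bs n l * gr w (tl n l + 4 * u) (z - zr k)) • Q (zr k) =
        ∑ l ∈ Finset.range (Ln n + 1), bs n l •
          ∑' k : Z (dm n), gr w (tl n l + 4 * u) (z - zr k) • Q (zr k) := by
      simp_rw [heq]
      rw [Summable.tsum_finsetSum fun l _ => (hsum l).const_smul (bs n l)]
      refine Finset.sum_congr rfl fun l _ => ?_
      exact (hsum l).tsum_const_smul (bs n l)
    have h3 : ∑ l ∈ Finset.range (Ln n + 1), bs n l •
        pdw w (Tp (dm n) (tl n l + 4 * u) Q) z = 0 := by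
      have h4 := pdw_sum (Finset.range (Ln n + 1)) (bs n)
        (fun l => Tp (dm n) (tl n l + 4 * u) Q) (fun l _ => smo_tp hQ.sm _ _) w
      have h5 : (fun x => ∑ l ∈ Finset.range (Ln n + 1), bs n l •
          Tp (dm n) (tl n l + 4 * u) Q x) = fun _ => (0 : X) := by
        funext x
        have h6 := (hPO4 (dm n) X (dm n) (Ln n) Q (t0 + 4 * u) (um n) 0 x hQ
          (by unfold Ln dm; omega)).1
        rw [← h6]
        refine Finset.sum_congr rfl fun l _ => ?_
        have : tl n l + 4 * u = t0 + 4 * u + 4 * l * um n := by unfold tl; ring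
        rw [this]
        rfl
      rw [h5, pdw_zero] at h4
      exact (congrFun h4 z).symm
    have h7 : ∑' k : Z (dm n), (∑ l ∈ Finset.range (Ln n + 1),
        bs n l * gr w (tl n l + 4 * u) (z - zr k)) • Q (zr k) =
        ∑ l ∈ Finset.range (Ln n + 1), bs n l •
          ((∑' k : Z (dm n), gr w (tl n l + 4 * u) (z - zr k) • Q (zr k)) -
            pdw w (Tp (dm n) (tl n l + 4 * u) Q) z) := by
      simp_rw [smul_sub]
      rw [Finset.sum_sub_distrib, h3, sub_zero, h2]
    rw [h7]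
    set K : ℝ := (2 * (dm n : ℝ)) ^ w.length * (12 * dm n) * b with hK
    have hK0 : 0 ≤ K := by rw [hK]; positivity
    have h8 : ∀ l ∈ Finset.range (Ln n + 1), ‖bs n l •
          ((∑' k : Z (dm n), gr w (tl n l + 4 * u) (z - zr k) • Q (zr k)) -
            pdw w (Tp (dm n) (tl n l + 4 * u) Q) z)‖ ≤
          K * Real.exp (-8 * u) * (Real.exp (-8 * um n) ^ l * ((Ln n).choose l : ℝ)) := by
      intro l _
      rw [norm_smul]
      have h9 : ‖bs n l‖ = ((Ln n).choose l : ℝ) := by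
        unfold bs
        rw [norm_mul, norm_pow, norm_neg, norm_one, one_pow, one_mul]
        exact Real.norm_of_nonneg (by positivity)
      rw [h9]
      have h10 := (hW l).2
      have h11 : Real.exp (-2 * (tl n l + 4 * u)) ≤
          Real.exp (-8 * u) * Real.exp (-8 * um n) ^ l := by
        rw [← Real.exp_nat_mul, ← Real.exp_add]
        refine Real.exp_le_exp.mpr ?_
        unfold tl t0
        nlinarith
      calc _ ≤ ((Ln n).choose l : ℝ) * (K * (Real.exp (-8 * u) * Real.exp (-8 * um n) ^ l)) := by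
            refine mul_le_mul_of_nonneg_left (h10.trans ?_) (by positivity)
            exact mul_le_mul_of_nonneg_left h11 hK0
        _ = _ := by ring
    calc _ ≤ ∑ l ∈ Finset.range (Ln n + 1), K * Real.exp (-8 * u) *
          (Real.exp (-8 * um n) ^ l * ((Ln n).choose l : ℝ)) := norm_sum_le_of_le _ h8
      _ = K * Real.exp (-8 * u) * (Real.exp (-8 * um n) + 1) ^ (Ln n) := by
          rw [← Finset.mul_sum, add_pow]
          simp
      _ ≤ K * Real.exp (-8 * u) * 2 := by
          refine mul_le_mul_of_nonneg_left ?_ (by positivity)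
          have h12 : Real.exp (-8 * um n) + 1 ≤ Real.exp (Real.exp (-8 * um n)) := by
            exact Real.add_one_le_exp _
          calc (Real.exp (-8 * um n) + 1) ^ (Ln n) ≤
                Real.exp (Real.exp (-8 * um n)) ^ (Ln n) :=
                pow_le_pow_left₀ (by positivity) h12 _
            _ = Real.exp ((Ln n : ℝ) * Real.exp (-8 * um n)) := by rw [← Real.exp_nat_mul]
            _ ≤ Real.exp (1 / 2) := by
                refine Real.exp_le_exp.mpr ?_
                have : (Ln n : ℝ) = 4 * (dm n : ℝ) := by unfold Ln dm; push_cast; ring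
                rw [this]; exact hn3
            _ ≤ 2 := by
                have h13 : Real.exp (1 / 2) ^ 2 ≤ 2 ^ 2 := by
                  rw [← Real.exp_nat_mul]
                  have := Real.exp_one_lt_d9
                  norm_num
                  linarith
                exact le_of_sq_le_sq h13 (by norm_num)
      _ = _ := by rw [hK]; ring

lemma asym : ∃ n0 : ℕ, ∀ n ≥ n0, 4 ≤ n ∧ 64 * (dm n : ℝ) ^ 3 * dl n ≤ 1 ∧
    4 * (dm n : ℝ) * Real.exp (-8 * um n) ≤ 1 / 2 ∧ (dm n : ℝ) ≤ Real.exp (4 * ub n) ∧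
    3 * (dm n : ℝ) * Real.exp (-8 * ub n) ≤ Real.exp (-2 * (n : ℝ) ^ 2) := by
  have h1 := tendsto_pow_const_div_const_pow_of_one_lt 20 (r := (2 : ℝ)) (by norm_num)
  have h2 : ∀ᶠ n : ℕ in atTop, (n : ℝ) ^ 20 / 2 ^ n < 1 / 64 :=
    h1.eventually_lt_const (by norm_num)
  obtain ⟨m, hm⟩ := Filter.eventually_atTop.mp h2
  refine ⟨max m 4, fun n hn => ?_⟩
  have hn4 : 4 ≤ n := (le_max_right _ _).trans hn
  have hnm := hm n ((le_max_left _ _).trans hn)
  have hn4' : (4 : ℝ) ≤ n := by exact_mod_cast hn4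
  have hexp : (n : ℝ) ^ 4 ≤ Real.exp (4 * n) := by
    have h3 : (n : ℝ) ≤ Real.exp n := by linarith [Real.add_one_le_exp (n : ℝ)]
    calc (n : ℝ) ^ 4 ≤ Real.exp n ^ 4 := pow_le_pow_left₀ (by positivity) h3 4
      _ = Real.exp (4 * n) := by rw [← Real.exp_nat_mul]; norm_num
  have hdm : (dm n : ℝ) = (n : ℝ) ^ 4 := by unfold dm; push_cast; ring
  have hsq : (n : ℝ) ≤ (n : ℝ) ^ 2 := by nlinarith
  refine ⟨hn4, ?_, ?_, ?_, ?_⟩
  · rw [hdm]
    unfold dl
    have : 64 * ((n : ℝ) ^ 4) ^ 3 * ((n : ℝ) ^ 8 / 2 ^ n) = 64 * ((n : ℝ) ^ 20 / 2 ^ n) := by ring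
    rw [this]
    linarith
  · rw [hdm]
    unfold um
    have h3 : 8 * (n : ℝ) ^ 4 ≤ Real.exp (8 * (n : ℝ) ^ 8) := by
      have h8 : (8 : ℝ) ≤ Real.exp 3 := by
        have := Real.exp_one_gt_d9
        have h9 : Real.exp 3 = Real.exp 1 ^ 3 := by rw [← Real.exp_nat_mul]; norm_num
        rw [h9]
        calc (8 : ℝ) = 2 ^ 3 := by norm_num
          _ ≤ Real.exp 1 ^ 3 := pow_le_pow_left₀ (by norm_num) (by linarith) 3
      have hn8 : (n : ℝ) ≤ (n : ℝ) ^ 8 := by
        calc (n : ℝ) = (n : ℝ) ^ 1 := (pow_one _).symm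
          _ ≤ (n : ℝ) ^ 8 := pow_le_pow_right₀ (by linarith) (by norm_num)
      calc 8 * (n : ℝ) ^ 4 ≤ Real.exp 3 * Real.exp (4 * n) :=
            mul_le_mul h8 hexp (by positivity) (by positivity)
        _ = Real.exp (3 + 4 * n) := by rw [← Real.exp_add]
        _ ≤ _ := Real.exp_le_exp.mpr (by linarith)
    have h4 : Real.exp (-8 * (n : ℝ) ^ 8) = (Real.exp (8 * (n : ℝ) ^ 8))⁻¹ := by
      rw [← Real.exp_neg]; ring_nf
    rw [h4]
    have h5 : 0 < Real.exp (8 * (n : ℝ) ^ 8) := Real.exp_pos _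
    rw [← div_eq_mul_inv, div_le_iff₀ h5]
    linarith
  · rw [hdm]
    unfold ub
    exact hexp.trans (Real.exp_le_exp.mpr (by linarith))
  · rw [hdm]
    unfold ub
    have h3 : (3 : ℝ) ≤ Real.exp 2 := by linarith [Real.add_one_le_exp (2 : ℝ)]
    calc 3 * (n : ℝ) ^ 4 * Real.exp (-8 * (n : ℝ) ^ 2) ≤
          Real.exp 2 * Real.exp (4 * n) * Real.exp (-8 * (n : ℝ) ^ 2) := by
          refine mul_le_mul_of_nonneg_right ?_ (Real.exp_pos _).le
          exact mul_le_mul h3 hexp (by positivity) (by positivity)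
      _ = Real.exp (2 + 4 * n + -8 * (n : ℝ) ^ 2) := by rw [← Real.exp_add, ← Real.exp_add]
      _ ≤ _ := Real.exp_le_exp.mpr (by nlinarith)

lemma wf_nonneg (ω u : ℝ) : 0 ≤ Wf ω u := by unfold Wf; positivity

lemma wf_le (ω u : ℝ) (hu : 1 ≤ u) : Wf ω u ≤ 1 := by
  unfold Wf
  have h1 : (Real.sqrt (π * u))⁻¹ ≤ 1 := by
    refine inv_le_one_of_one_le₀ ?_
    rw [Real.one_le_sqrt]
    nlinarith [Real.pi_gt_three]
  have h2 : Real.exp (-ω ^ 2 / (4 * u)) ≤ 1 := by
    rw [Real.exp_le_one_iff]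
    have : -ω ^ 2 / (4 * u) = -(ω ^ 2 / (4 * u)) := by ring
    rw [this]
    have : 0 ≤ ω ^ 2 / (4 * u) := by positivity
    linarith
  exact mul_le_one₀ h1 (by positivity) h2

lemma wf_cont (ω : ℝ) : ContinuousOn (Wf ω) (Ioi 0) := by
  unfold Wf
  refine ContinuousOn.mul ?_ ?_
  · refine ContinuousOn.inv₀ (by fun_prop) ?_
    intro u hu
    have : 0 < Real.sqrt (π * u) := Real.sqrt_pos.mpr (mul_pos Real.pi_pos hu)
    exact this.ne'
  · refine Real.continuous_exp.comp_continuousOn ?_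
    refine ContinuousOn.div (by fun_prop) (by fun_prop) ?_
    intro u hu
    have : (0 : ℝ) < u := hu
    positivity

lemma gr_cont (hGWA : Stmt_GWA) {D : ℕ} (w : List (Fin D)) (z : P D) (c : ℝ) (hc : 0 ≤ c) :
    ContinuousOn (fun u : ℝ => gr w (c + 4 * u) z) (Ioi 0) := by
  have h := (hGWA D w).2
  set g : ℝ → ℂ × P D := fun u => (((c + 4 * u : ℝ) : ℂ), z) with hg
  have h1 : Continuous g := by
    rw [hg]
    exact (Complex.continuous_ofReal.comp (by fun_prop)).prodMk continuous_const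
  have h2 : MapsTo g (Ioi (0 : ℝ)) {p : ℂ × P D | 0 < p.1.re} := by
    intro u hu
    have hu' : (0 : ℝ) < u := hu
    show 0 < ((c + 4 * u : ℝ) : ℂ).re
    rw [Complex.ofReal_re]
    positivity
  have h3 := ContinuousOn.comp h h1.continuousOn h2
  have h4 := Complex.continuous_re.comp_continuousOn h3
  exact h4

end WIC_

open WIC_ in
theorem wic_proof (hWIA : Stmt_WIA) (hPO4 : Stmt_PO4) (hCR1 : Stmt_CR1) (hTEX : Stmt_TEX)
    (hLSW : Stmt_LSW) (_hPGR : Stmt_PGR) (hGWA : Stmt_GWA) : Stmt_WIC := by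
  obtain ⟨n0, hn0⟩ := asym
  obtain ⟨C, hC⟩ := hCR1
  obtain ⟨C', hC'⟩ := hLSW
  refine ⟨n0, fun n hn X _ _ _ Q z b w hb hQ hj hw => ?_⟩
  obtain ⟨hn4, ha1, ha2, ha3, ha4⟩ := hn0 n hn
  have hn2 : 2 ≤ n := by omega
  have hub : (16 : ℝ) ≤ ub n := by
    unfold ub
    have : (4 : ℝ) ≤ n := by exact_mod_cast hn4
    nlinarith
  have hub0 : (0 : ℝ) < ub n := by linarith
  have hdm1 : (1 : ℝ) ≤ (dm n : ℝ) := by
    exact_mod_cast Nat.one_le_pow _ _ (by omega)
  have hdl0 : 0 ≤ dl n := by unfold dl; positivity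
  have hDdl : (dm n : ℝ) * dl n ≤ 1 := by
    refine le_trans ?_ ha1
    refine mul_le_mul_of_nonneg_right ?_ hdl0
    have h1 : (dm n : ℝ) ≤ (dm n : ℝ) ^ 3 := by
      calc (dm n : ℝ) = (dm n : ℝ) ^ 1 := (pow_one _).symm
        _ ≤ _ := pow_le_pow_right₀ hdm1 (by norm_num)
    have h2 : 0 ≤ (dm n : ℝ) ^ 3 := by positivity
    linarith
  -- the kernel
  set G : Z (dm n) → ℝ → ℝ := fun k u => ∑ l ∈ Finset.range (Ln n + 1),
    bs n l * gr w (tl n l + 4 * u) (z - zr k) with hG
  set F : Z (dm n) → ℝ → X := fun k u => (Wf (om n) u * G k u) • Q (zr k) with hF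
  set E : ℝ := w.length.factorial * (dm n : ℝ) ^ w.length * (n : ℝ) ^ (C * n ^ 4) with hE
  have hE0 : 0 ≤ E := by rw [hE]; positivity
  set wk : Z (dm n) → ℝ := fun k => (1 + ‖z - zr k‖) ^ (-(5 * (dm n : ℤ))) with hwk
  have hwk0 : ∀ k, 0 ≤ wk k := fun k => by rw [hwk]; positivity
  have hwks : Summable wk := by
    have := (hC' n hn2 z (5 * (dm n : ℤ)) (by omega)).1
    exact this
  have hGk : ∀ k, ∀ u ∈ Ioi (ub n), ‖F k u‖ ≤ E * b * wk k * u ^ (-2 : ℝ) := by
    intro k u hu
    have hu' : ub n < u := hu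
    have hu0 : 0 < u := by linarith
    rw [hF]
    simp only
    rw [norm_smul, norm_mul, Real.norm_of_nonneg (wf_nonneg _ _)]
    have h1 := hC n hn2 w (z - zr k) u hu0.le
    have h2 := growth hTEX hQ z (zr k) b (dl n) hb hdl0 hDdl hj
    have h3 := wf_le (om n) u (by linarith)
    have h4 : ‖zr k - z‖ = ‖z - zr k‖ := norm_sub_rev _ _
    rw [h4] at h2
    set s := ‖z - zr k‖ with hs
    have hs0 : 0 < 1 + s := by positivity
    have h5 : (1 + u) ^ (-2 : ℤ) ≤ u ^ (-2 : ℝ) := by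
      rw [zpow_neg, Real.rpow_neg hu0.le]
      refine inv_anti₀ (by positivity) ?_
      have e1 : u ^ (2 : ℝ) = u ^ 2 := by exact_mod_cast Real.rpow_natCast u 2
      have e2 : (1 + u) ^ (2 : ℤ) = (1 + u) ^ 2 := by norm_cast
      rw [e1, e2]
      exact pow_le_pow_left₀ hu0.le (by linarith) 2
    have h6 : ‖G k u‖ ≤ E * (1 + s) ^ (-(6 * (dm n : ℤ))) * u ^ (-2 : ℝ) := by
      refine h1.trans ?_
      have : crd n C w (z - zr k) = E * (1 + s) ^ (-(6 * (dm n : ℤ))) := by
        rw [hE]; unfold crd; rfl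
      rw [this]
      exact mul_le_mul_of_nonneg_left h5 (by positivity)
    calc Wf (om n) u * ‖G k u‖ * ‖Q (zr k)‖ ≤
          1 * (E * (1 + s) ^ (-(6 * (dm n : ℤ))) * u ^ (-2 : ℝ)) * (b * (1 + s) ^ dm n) := by
          refine mul_le_mul (mul_le_mul h3 h6 (norm_nonneg _) zero_le_one) h2 (norm_nonneg _)
            (by positivity)
      _ = E * b * ((1 + s) ^ (-(6 * (dm n : ℤ))) * (1 + s) ^ dm n) * u ^ (-2 : ℝ) := by ring
      _ = E * b * wk k * u ^ (-2 : ℝ) := by
          congr 2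
          rw [hwk]
          simp only
          rw [← hs, ← zpow_natCast, ← zpow_add₀ hs0.ne']
          congr 1
          ring
  have hu2 : IntegrableOn (fun u : ℝ => u ^ (-2 : ℝ)) (Ioi (ub n)) :=
    integrableOn_Ioi_rpow_of_lt (by norm_num) hub0
  have hFm : ∀ k, AEStronglyMeasurable (F k) (volume.restrict (Ioi (ub n))) := by
    intro k
    have hsub : Ioi (ub n) ⊆ Ioi (0 : ℝ) := Ioi_subset_Ioi hub0.le
    have h1 : ContinuousOn (G k) (Ioi 0) := by
      rw [hG]
      refine continuousOn_finsetSum _ fun l _ => ?_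
      refine ContinuousOn.mul continuousOn_const ?_
      exact gr_cont hGWA w (z - zr k) (tl n l) (by unfold tl t0 um; positivity)
    have h2 : ContinuousOn (F k) (Ioi (ub n)) := by
      rw [hF]
      exact (((wf_cont (om n)).mul h1).mono hsub).smul continuousOn_const
    exact h2.aestronglyMeasurable measurableSet_Ioi
  have hFi : ∀ k, Integrable (F k) (volume.restrict (Ioi (ub n))) := by
    intro k
    refine Integrable.mono' (hu2.const_mul (E * b * wk k)) (hFm k) ?_
    exact (ae_restrict_mem measurableSet_Ioi).mono fun u hu => hGk k u hu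
  set I : ℝ := ∫ u in Ioi (ub n), u ^ (-2 : ℝ) with hI
  have hFn : ∀ k, ∫ u in Ioi (ub n), ‖F k u‖ ≤ E * b * wk k * I := by
    intro k
    rw [hI, ← integral_const_mul]
    exact setIntegral_mono_on (hFi k).norm (hu2.const_mul (E * b * wk k)) measurableSet_Ioi
      fun u hu => hGk k u hu
  have hFs : Summable fun k => ∫ u in Ioi (ub n), ‖F k u‖ := by
    refine Summable.of_nonneg_of_le (fun k => integral_nonneg fun u => norm_nonneg _) hFn ?_
    exact (hwks.mul_left (E * b)).mul_right I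
  have hker : ∀ k : Z (dm n), (∫ u in Ioi (ub n), Wf (om n) u *
      ∑ l ∈ Finset.range (Ln n + 1), bs n l * gr w (tl n l + 4 * u) (z - zr k)) • Q (zr k) =
      ∫ u in Ioi (ub n), F k u := by
    intro k
    rw [hF]
    simp only
    rw [integral_smul_const]
  have hHS := hasSum_integral_of_summable_integral_norm hFi hFs
  constructor
  · simp_rw [hker]
    refine Summable.of_nonneg_of_le (fun k => norm_nonneg _) (fun k => ?_) hFs
    exact norm_integral_le_integral_norm _
  · simp_rw [hker]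
    rw [hHS.tsum_eq]
    set K : ℝ := (2 * (dm n : ℝ)) ^ w.length * (24 * dm n) * b with hK
    have hK0 : 0 ≤ K := by rw [hK]; positivity
    have hbd : ∀ u ∈ Ioi (ub n), ‖∑' k, F k u‖ ≤ K * Real.exp (-8 * u) := by
      intro u hu
      have hu' : ub n < u := hu
      have h1 := (core hWIA hPO4 n hn2 ha1 ha2 Q z b w hb hQ hj hw u (by linarith)
        (ha3.trans (Real.exp_le_exp.mpr (by linarith)))).2
      have h2 : ∑' k, F k u = Wf (om n) u • ∑' k, G k u • Q (zr k) := by
        rw [← tsum_const_smul'']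
        refine tsum_congr fun k => ?_
        rw [hF]
        simp only
        rw [mul_smul]
      rw [h2, norm_smul, Real.norm_of_nonneg (wf_nonneg _ _)]
      calc Wf (om n) u * ‖∑' k, G k u • Q (zr k)‖ ≤ 1 * (K * Real.exp (-8 * u)) :=
            mul_le_mul (wf_le _ _ (by linarith)) h1 (norm_nonneg _) zero_le_one
        _ = _ := one_mul _
    have hexpi : IntegrableOn (fun u : ℝ => K * Real.exp (-8 * u)) (Ioi (ub n)) :=
      (integrableOn_exp_mul_Ioi (by norm_num) _).const_mul K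
    have h3 := norm_integral_le_of_norm_le hexpi
      ((ae_restrict_mem measurableSet_Ioi).mono fun u hu => hbd u hu)
    refine h3.trans ?_
    rw [integral_const_mul, integral_exp_mul_Ioi (by norm_num)]
    have h4 : K * (-Real.exp (-8 * ub n) / -8) =
        (2 * (dm n : ℝ)) ^ w.length * (3 * dm n * Real.exp (-8 * ub n)) * b := by
      rw [hK]; ring
    rw [h4]
    refine mul_le_mul_of_nonneg_right ?_ hb
    refine mul_le_mul ?_ ha4 (by positivity) (by unfold Rn; positivity)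
    refine pow_le_pow_left₀ (by positivity) ?_ _
    unfold Rn
    have hdm : (dm n : ℝ) = (n : ℝ) ^ 4 := by unfold dm; push_cast; ring
    rw [hdm]
    have hn4' : (4 : ℝ) ≤ n := by exact_mod_cast hn4
    calc 2 * (n : ℝ) ^ 4 ≤ (n : ℝ) * (n : ℝ) ^ 4 :=
          mul_le_mul_of_nonneg_right (by linarith) (by positivity)
      _ = (n : ℝ) ^ 5 := by ring
      _ ≤ (n : ℝ) ^ 12 := pow_le_pow_right₀ (by linarith) (by norm_num)

end Pool.Agent.HBW
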