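import Pool.Agent.HBW.Stmts

/-!
Squad HBW, module WID: lattice sums of the wide kernel against `𝓛 Q`.
-/

set_option autoImplicit false

open MeasureTheory Set Filter Topology
open scoped ENNReal Real

namespace Pool.Agent.HBW

namespace WID_

lemma bs_zero (n : ℕ) : bs n 0 = 1 := by simp [bs]

lemma tl_zero (n : ℕ) : tl n 0 = t0 := by simp [tl]

/-- decomposition of `W0` -/
lemma W0_eq (n : ℕ) (w : List (Fin (dm n))) (z : P (dm n)) :
    W0 n w z = ∑ l ∈ Finset.Ico 1 (Ln n + 1),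
      bs n l * (cc (om n) (tl n l) (fun ζ => gw w ζ z)).re := by
  unfold W0 K0 T0
  rw [Finset.range_eq_Ico, Finset.sum_eq_sum_Ico_succ_bot (by omega), bs_zero, tl_zero]
  ring

lemma om_pos {n : ℕ} (hn : 2 ≤ n) : 0 < om n := by
  unfold om
  have : (0 : ℝ) < n := by exact_mod_cast (by omega : 0 < n)
  positivity

lemma tl_pos (n l : ℕ) : 0 < tl n l := by
  unfold tl t0 um
  positivity

lemma ub_nonneg (n : ℕ) : 0 ≤ ub n := by unfold ub; positivity

lemma meas_Wf (ω : ℝ) : Measurable (Wf ω) := by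
  unfold Wf
  fun_prop

lemma Wf_nonneg (ω u : ℝ) : 0 ≤ Wf ω u := by unfold Wf; positivity

lemma Wf_le {ω u : ℝ} (hω : 0 < ω) (hu : 0 < u) : Wf ω u ≤ 4 / ω ^ 2 * Real.sqrt u := by
  unfold Wf
  have h1 : Real.exp (-ω ^ 2 / (4 * u)) ≤ 4 * u / ω ^ 2 := by
    have h2 : ω ^ 2 / (4 * u) ≤ Real.exp (ω ^ 2 / (4 * u)) := by
      have := Real.add_one_le_exp (ω ^ 2 / (4 * u))
      linarith
    have h3 : 0 < ω ^ 2 / (4 * u) := by positivity
    have h4 : -ω ^ 2 / (4 * u) = -(ω ^ 2 / (4 * u)) := by ring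
    rw [h4, Real.exp_neg]
    calc (Real.exp (ω ^ 2 / (4 * u)))⁻¹ ≤ (ω ^ 2 / (4 * u))⁻¹ := by gcongr
      _ = 4 * u / ω ^ 2 := by rw [inv_div]
  have h5 : (Real.sqrt (π * u))⁻¹ ≤ (Real.sqrt u)⁻¹ := by
    have : Real.sqrt u ≤ Real.sqrt (π * u) := by
      apply Real.sqrt_le_sqrt
      nlinarith [Real.pi_gt_three]
    have h6 : 0 < Real.sqrt u := Real.sqrt_pos.2 hu
    gcongr
  have h7 : 0 < Real.sqrt u := Real.sqrt_pos.2 hu
  calc (Real.sqrt (π * u))⁻¹ * Real.exp (-ω ^ 2 / (4 * u))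
      ≤ (Real.sqrt u)⁻¹ * (4 * u / ω ^ 2) := by gcongr
    _ = 4 / ω ^ 2 * Real.sqrt u := by
        have h8 : u = Real.sqrt u * Real.sqrt u := (Real.mul_self_sqrt hu.le).symm
        field_simp
        nlinarith [h8]

lemma cont_gr (hGWA : Stmt_GWA) {D : ℕ} (w : List (Fin D)) (z : P D) {τ : ℝ} (hτ : 0 < τ) :
    ContinuousOn (fun u : ℝ => gr w (τ + 4 * u) z) (Ici 0) := by
  have h := (hGWA D w).2
  set F : ℂ × P D → ℂ := fun p => gw w p.1 p.2 with hF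
  set G : ℝ → ℂ × P D := fun u => (((τ + 4 * u : ℝ) : ℂ), z) with hG
  have h2 : ContinuousOn G (Ici 0) := by
    apply Continuous.continuousOn
    rw [hG]
    fun_prop
  have hm : MapsTo G (Ici 0) {p | 0 < p.1.re} := by
    intro u hu
    simp only [hG, mem_ofPred_eq, Complex.ofReal_re]
    have : (0 : ℝ) ≤ u := hu
    linarith
  have h3 : ContinuousOn (F ∘ G) (Ici 0) := h.comp h2 hm
  exact Complex.continuous_re.comp_continuousOn h3

/-- integrability on `(0, ∞)` -/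
lemma int_all (hGWA : Stmt_GWA) (hCR1 : Stmt_CR1) {n : ℕ} (hn : 2 ≤ n) (w : List (Fin (dm n)))
    (z : P (dm n)) : IntegrableOn (fun u => Wf (om n) u *
      ∑ l ∈ Finset.range (Ln n + 1), bs n l * gr w (tl n l + 4 * u) z) (Ioi 0) := by
  obtain ⟨C, hC⟩ := hCR1
  have hω := om_pos hn
  set K : ℝ := 4 / om n ^ 2 * crd n C w z with hK
  have hcrd : 0 ≤ crd n C w z := by unfold crd; positivity
  have hi : Integrable (fun u : ℝ => K * (1 + ‖u‖) ^ (-(3 / 2) : ℝ)) := by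
    apply Integrable.const_mul
    apply integrable_one_add_norm
    simp
    norm_num
  refine Integrable.mono' (hi.integrableOn (s := Ioi 0)) ?_ ?_
  · refine AEStronglyMeasurable.mul ?_ ?_
    · exact (meas_Wf _).aestronglyMeasurable
    · refine ContinuousOn.aestronglyMeasurable ?_ measurableSet_Ioi
      refine continuousOn_finsetSum _ fun l _ => ?_
      refine continuousOn_const.mul ?_
      exact (cont_gr hGWA w z (tl_pos n l)).mono Ioi_subset_Ici_self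
  · refine (ae_restrict_iff' measurableSet_Ioi).2 (Eventually.of_forall fun u hu => ?_)
    have hu0 : (0 : ℝ) < u := hu
    have h1 := hC n hn w z u hu0.le
    have h2 := Wf_le hω hu0
    rw [Real.norm_eq_abs, abs_mul, abs_of_nonneg (Wf_nonneg _ _)]
    have hs : Real.sqrt u ≤ (1 + u) ^ (1 / 2 : ℝ) := by
      rw [← Real.sqrt_eq_rpow]
      apply Real.sqrt_le_sqrt
      linarith
    have h3 : (1 + u) ^ (1 / 2 : ℝ) * (1 + u) ^ (-2 : ℤ) = (1 + u) ^ (-(3 / 2) : ℝ) := by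
      have h4 : (1 + u) ^ (-2 : ℤ) = (1 + u) ^ (-2 : ℝ) := by
        rw [← Real.rpow_intCast]
        norm_num
      rw [h4, ← Real.rpow_add (by linarith)]
      norm_num
    have hz : 0 ≤ (1 + u) ^ (-2 : ℤ) := by positivity
    calc Wf (om n) u * |∑ l ∈ Finset.range (Ln n + 1), bs n l * gr w (tl n l + 4 * u) z|
        ≤ (4 / om n ^ 2 * Real.sqrt u) * (crd n C w z * (1 + u) ^ (-2 : ℤ)) := by
          gcongr
      _ = K * (Real.sqrt u * (1 + u) ^ (-2 : ℤ)) := by rw [hK]; ring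
      _ ≤ K * ((1 + u) ^ (1 / 2 : ℝ) * (1 + u) ^ (-2 : ℤ)) := by
          have : 0 ≤ K := by rw [hK]; positivity
          gcongr
      _ = K * (1 + ‖u‖) ^ (-(3 / 2) : ℝ) := by
          rw [h3, Real.norm_eq_abs, abs_of_pos hu0]

/-- integrability of each Gaussian on bounded sets of heat times -/
lemma int_bdd (hGWA : Stmt_GWA) {n : ℕ} (hn : 2 ≤ n) (w : List (Fin (dm n)))
    (z : P (dm n)) (l : ℕ) : IntegrableOn (fun u => Wf (om n) u * gr w (tl n l + 4 * u) z)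
      (Ioc 0 (ub n)) := by
  have hω := om_pos hn
  have hc := (cont_gr hGWA w z (tl_pos n l)).mono
    (Icc_subset_Ici_self : Icc (0 : ℝ) (ub n) ⊆ Ici 0)
  obtain ⟨B, hB⟩ := isCompact_Icc.exists_bound_of_continuousOn hc
  have hi : IntegrableOn (fun _ : ℝ => 4 / om n ^ 2 * Real.sqrt (ub n) * B) (Ioc 0 (ub n)) := by
    refine integrableOn_const ?_
    simp
  refine Integrable.mono' hi ?_ ?_
  · refine AEStronglyMeasurable.mul ?_ ?_
    · exact (meas_Wf _).aestronglyMeasurable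
    · refine ContinuousOn.aestronglyMeasurable ?_ measurableSet_Ioc
      exact hc.mono Ioc_subset_Icc_self
  · refine (ae_restrict_iff' measurableSet_Ioc).2 (Eventually.of_forall fun u hu => ?_)
    have h2 := Wf_le hω hu.1
    have h3 := hB u (Ioc_subset_Icc_self hu)
    rw [norm_mul, Real.norm_of_nonneg (Wf_nonneg _ _)]
    have h4 : Real.sqrt u ≤ Real.sqrt (ub n) := Real.sqrt_le_sqrt hu.2
    calc Wf (om n) u * ‖gr w (tl n l + 4 * u) z‖
        ≤ (4 / om n ^ 2 * Real.sqrt u) * B := by gcongr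
      _ ≤ 4 / om n ^ 2 * Real.sqrt (ub n) * B := by
          have : 0 ≤ B := (norm_nonneg _).trans h3
          gcongr

/-- decomposition of `W1` -/
lemma W1_eq (hGWA : Stmt_GWA) (hCR1 : Stmt_CR1) {n : ℕ} (hn : 2 ≤ n) (w : List (Fin (dm n)))
    (z : P (dm n)) : W1 n w z =
      (∑ l ∈ Finset.Ico 1 (Ln n + 1), bs n l * (cs (om n) (tl n l) (fun ζ => gw w ζ z)).re) +
      (∫ u in Ioi (ub n), Wf (om n) u *
        ∑ l ∈ Finset.range (Ln n + 1), bs n l * gr w (tl n l + 4 * u) z) +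
      ∫ u in Ioc (0 : ℝ) (ub n), Wf (om n) u *
        ∑ l ∈ Finset.Ico 1 (Ln n + 1), bs n l * gr w (tl n l + 4 * u) z := by
  have h1 := int_all hGWA hCR1 hn w z
  have hsplit : ∫ u in Ioi (0 : ℝ), Wf (om n) u *
        ∑ l ∈ Finset.range (Ln n + 1), bs n l * gr w (tl n l + 4 * u) z =
      (∫ u in Ioc (0 : ℝ) (ub n), Wf (om n) u *
        ∑ l ∈ Finset.range (Ln n + 1), bs n l * gr w (tl n l + 4 * u) z) +
      ∫ u in Ioi (ub n), Wf (om n) u *
        ∑ l ∈ Finset.range (Ln n + 1), bs n l * gr w (tl n l + 4 * u) z := by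
    rw [← Ioc_union_Ioi_eq_Ioi (ub_nonneg n)]
    refine setIntegral_union (Ioc_disjoint_Ioi le_rfl) measurableSet_Ioi ?_ ?_
    · exact h1.mono_set Ioc_subset_Ioi_self
    · exact h1.mono_set (Ioi_subset_Ioi (ub_nonneg n))
  have h2 : ∫ u in Ioc (0 : ℝ) (ub n), Wf (om n) u *
        ∑ l ∈ Finset.range (Ln n + 1), bs n l * gr w (tl n l + 4 * u) z =
      (∫ u in Ioc (0 : ℝ) (ub n), Wf (om n) u * gr w (t0 + 4 * u) z) +
      ∫ u in Ioc (0 : ℝ) (ub n), Wf (om n) u *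
        ∑ l ∈ Finset.Ico 1 (Ln n + 1), bs n l * gr w (tl n l + 4 * u) z := by
    rw [← integral_add]
    · congr 1
      ext u
      rw [Finset.range_eq_Ico, Finset.sum_eq_sum_Ico_succ_bot (by omega), bs_zero, tl_zero]
      ring
    · have := int_bdd hGWA hn w z 0
      rwa [tl_zero] at this
    · have h3 : (fun u => Wf (om n) u *
          ∑ l ∈ Finset.Ico 1 (Ln n + 1), bs n l * gr w (tl n l + 4 * u) z) =
          fun u => ∑ l ∈ Finset.Ico 1 (Ln n + 1),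
            bs n l * (Wf (om n) u * gr w (tl n l + 4 * u) z) := by
        ext u
        rw [Finset.mul_sum]
        exact Finset.sum_congr rfl fun l _ => by ring
      rw [h3]
      exact integrable_finsetSum _ fun l _ => (int_bdd hGWA hn w z l).const_mul _
  unfold W1 K1 T1a T1b
  rw [hsplit, h2]
  rw [Finset.range_eq_Ico, Finset.sum_eq_sum_Ico_succ_bot (by omega), bs_zero, tl_zero]
  ring

/-! ### polynomial identities -/

section pol

variable {D : ℕ} {X : Type} [NormedAddCommGroup X] [NormedSpace ℝ X]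

lemma pdw_sum (hSMO : Stmt_SMO) {ι : Type} (s : Finset ι) (c : ι → ℝ) (f : ι → P D → X)
    (hf : ∀ l ∈ s, Smo (f l)) (w : List (Fin D)) :
    Smo (fun x => ∑ l ∈ s, c l • f l x) ∧
    pdw w (fun x => ∑ l ∈ s, c l • f l x) = fun x => ∑ l ∈ s, c l • pdw w (f l) x := by
  classical
  induction s using Finset.induction_on with
  | empty =>
    have hz : Smo (fun _ : P D => (0 : X)) := contDiff_const
    refine ⟨by simpa using hz, ?_⟩
    obtain ⟨-, -, -, -, -, -, h7, -⟩ := hSMO D X (fun _ => 0) (fun _ => 0) (fun _ => 0) hz hz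
    have := h7 w 0
    simpa using this
  | insert a s ha ih =>
    obtain ⟨ih1, ih2⟩ := ih fun l hl => hf l (Finset.mem_insert_of_mem hl)
    have hfa : Smo (f a) := hf a (Finset.mem_insert_self _ _)
    have hca : Smo (fun x => c a • f a x) := contDiff_const.smul hfa
    obtain ⟨-, -, -, -, -, h6, -, -⟩ := hSMO D X (fun _ => 0) _ _ hca ih1
    obtain ⟨-, -, -, -, -, -, h7, -⟩ := hSMO D X (fun _ => 0) _ _ hfa hfa
    have he : (fun x => ∑ l ∈ insert a s, c l • f l x) =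
        fun x => c a • f a x + ∑ l ∈ s, c l • f l x := by
      ext x
      rw [Finset.sum_insert ha]
    refine ⟨?_, ?_⟩
    · rw [he]
      exact hca.add ih1
    · rw [he, h6 w]
      ext x
      rw [Finset.sum_insert ha, ih2, h7 w (c a)]

/-- finite differences -/
lemma fd_ident (hSMO : Stmt_SMO) (n : ℕ) (g : ℕ → P D → X) (hg : ∀ l, Smo (g l))
    (h0 : ∀ x, ∑ l ∈ Finset.range (Ln n + 1), bs n l • g l x = 0) (w : List (Fin D)) (z : P D) :
    ∑ l ∈ Finset.Ico 1 (Ln n + 1), bs n l • pdw w (g l) z = -pdw w (g 0) z := by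
  have h1 := (pdw_sum hSMO (Finset.range (Ln n + 1)) (bs n) g (fun l _ => hg l) w).2
  have h2 : (fun x => ∑ l ∈ Finset.range (Ln n + 1), bs n l • g l x) = fun _ => 0 := by
    ext x
    exact h0 x
  have hz : Smo (fun _ : P D => (0 : X)) := contDiff_const
  obtain ⟨-, -, -, -, -, -, h7, -⟩ := hSMO D X (fun _ => 0) (fun _ => 0) (fun _ => 0) hz hz
  have h3 : pdw w (fun _ : P D => (0 : X)) = fun _ => 0 := by
    have := h7 w 0
    simpa using this
  rw [h2, h3] at h1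
  have h4 := congrFun h1 z
  rw [Finset.range_eq_Ico, Finset.sum_eq_sum_Ico_succ_bot (by omega), bs_zero, one_smul] at h4
  rw [eq_neg_iff_add_eq_zero, add_comm]
  exact h4.symm

lemma smo_lap (hSMO : Stmt_SMO) {f : P D → X} (hf : Smo f) (r : ℕ) : Smo (Lap^[r] f) := by
  induction r with
  | zero => simpa using hf
  | succ r ih =>
    rw [Function.iterate_succ_apply']
    obtain ⟨-, -, -, -, -, -, -, -, -, h, -⟩ := hSMO D X (fun _ => 0) _ _ ih ih
    exact h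

lemma lap_comp (hSMO : Stmt_SMO) {f : P D → X} (hf : Smo f) (B : X →L[ℝ] X) (r : ℕ) :
    Lap^[r] (fun x => B (f x)) = fun x => B (Lap^[r] f x) := by
  induction r with
  | zero => rfl
  | succ r ih =>
    rw [Function.iterate_succ_apply', ih, Function.iterate_succ_apply']
    have hs := smo_lap hSMO hf r
    obtain ⟨-, -, -, -, -, -, -, h8, -⟩ := hSMO D X (fun _ => 0) _ _ hs hs
    ext x
    unfold Lap
    rw [map_sum]
    refine Finset.sum_congr rfl fun i _ => ?_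
    exact congrFun (h8 [i, i] B) x

lemma tp_comp (hSMO : Stmt_SMO) {f : P D → X} (hf : Smo f) (B : X →L[ℝ] X) (M : ℕ) (τ : ℝ) :
    Tp M τ (fun x => B (f x)) = fun x => B (Tp M τ f x) := by
  ext x
  unfold Tp
  rw [map_sum]
  refine Finset.sum_congr rfl fun l _ => ?_
  rw [lap_comp hSMO hf B l, map_smul]

lemma smo_tp (hSMO : Stmt_SMO) {f : P D → X} (hf : Smo f) (M : ℕ) (τ : ℝ) : Smo (Tp M τ f) := by
  unfold Tp
  exact (pdw_sum hSMO (Finset.range M) (fun l => (τ / 4) ^ l / l.factorial)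
    (fun l => Lap^[l] f) (fun l _ => smo_lap hSMO hf l) []).1

lemma sh_comp (hSMO : Stmt_SMO) {f : P D → X} (hf : Smo f) (B : X →L[ℝ] X) (M : ℕ) (ω τ : ℝ) :
    Sh M ω τ (fun x => B (f x)) = fun x => B (Sh M ω τ f x) := by
  ext x
  unfold Sh
  rw [map_sum]
  refine Finset.sum_congr rfl fun l _ => ?_
  rw [tp_comp hSMO hf B M τ, lap_comp hSMO (smo_tp hSMO hf M τ) B l, map_smul]

/-- the main identity: jets of `e^{ω𝒟} e^{τΔ/4}` applied to `G = 𝓛 Q` -/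
lemma main_ident (hSMO : Stmt_SMO) (hPO1 : Stmt_PO1) (hPO5 : Stmt_PO5)
    (A : Fin D → (X →L[ℝ] X)) (hA : Cliff A) (M : ℕ) (Q : P D → X) (hQ : IsPol M Q) (τ ω : ℝ)
    (w : List (Fin D)) (z : P D) (G : P D → X)
    (hG : G = fun y => ∑ q ∈ Finset.range M, bq ω τ q • ((DD A)^[q] Q) y) :
    pdw w (Ch M ω τ G) z + ∑ i, pdw (i :: w) (Sh M ω τ (fun x => A i (G x))) z = pdw w Q z := by
  have hGp : IsPol M G := by
    rw [hG]
    exact (hPO1 D X A M Q hQ).2.2.2.2.2.1 (fun q => bq ω τ q) M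
  have hp := hPO1 D X A M G hGp
  have hCh : Smo (Ch M ω τ G) := (hp.2.2.2.2.1 ω τ).1.sm
  have hSh : Smo (Sh M ω τ G) := (hp.2.2.2.2.1 ω τ).2.sm
  obtain ⟨-, -, -, -, -, -, -, h8, h9, -, h11, -⟩ := hSMO D X A _ _ hSh hSh
  obtain ⟨-, -, -, -, -, h6, -⟩ := hSMO D X A _ _ hCh h9
  have h1 : ∀ i, pdw (i :: w) (Sh M ω τ (fun x => A i (G x))) z =
      A i (pd i (pdw w (Sh M ω τ G)) z) := by
    intro i
    rw [sh_comp hSMO hGp.sm (A i) M ω τ, h8 (i :: w) (A i)]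
    rfl
  have h2 : ∑ i, pdw (i :: w) (Sh M ω τ (fun x => A i (G x))) z =
      pdw w (DD A (Sh M ω τ G)) z := by
    rw [h11 w]
    unfold DD
    exact Finset.sum_congr rfl fun i _ => h1 i
  rw [h2]
  have h3 : (fun x => Ch M ω τ G x + DD A (Sh M ω τ G) x) = Q := by
    ext x
    rw [hG]
    exact hPO5 D X A M Q τ ω x hA hQ
  have h4 := congrFun (h6 w) z
  rw [h3] at h4
  exact h4.symm

end pol

/-! ### asymptotics -/

lemma evt1 : ∃ n1 : ℕ, ∀ n : ℕ, n1 ≤ n → 64 * (dm n : ℝ) ^ 3 * dl n ≤ 1 := by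
  have h := tendsto_pow_const_div_const_pow_of_one_lt 20 (by norm_num : (1 : ℝ) < 2)
  have h2 := h.eventually (ge_mem_nhds (by norm_num : (0 : ℝ) < 1 / 64))
  obtain ⟨n1, hn1⟩ := eventually_atTop.1 h2
  refine ⟨n1, fun n hn => ?_⟩
  have h3 := hn1 n hn
  have h4 : 64 * (dm n : ℝ) ^ 3 * dl n = 64 * ((n : ℝ) ^ 20 / 2 ^ n) := by
    unfold dm dl
    push_cast
    ring
  rw [h4]
  linarith

lemma evt2 : ∃ n1 : ℕ, ∀ n : ℕ, n1 ≤ n →
    400 * (n : ℝ) ^ 16 * Real.exp (-(n : ℝ) ^ 2 / 16500) ≤ Real.exp (-(n : ℝ) ^ 2 / 17000) := by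
  set c : ℝ := 1 / 16500 - 1 / 17000 with hc
  have hc0 : 0 < c := by rw [hc]; norm_num
  have h := Real.tendsto_pow_mul_exp_neg_atTop_nhds_zero 16
  have h1 : Tendsto (fun n : ℕ => c * (n : ℝ)) atTop atTop :=
    Tendsto.const_mul_atTop hc0 tendsto_natCast_atTop_atTop
  have h2 := (h.comp h1).eventually (ge_mem_nhds (by positivity : (0 : ℝ) < c ^ 16 / 400))
  obtain ⟨n1, hn1⟩ := eventually_atTop.1 h2
  refine ⟨n1 + 1, fun n hn => ?_⟩
  have h3 := hn1 n (by omega)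
  simp only [Function.comp_apply] at h3
  have hn0 : (1 : ℝ) ≤ n := by exact_mod_cast (by omega : 1 ≤ n)
  have h4 : Real.exp (-(n : ℝ) ^ 2 / 16500) ≤
      Real.exp (-(c * n)) * Real.exp (-(n : ℝ) ^ 2 / 17000) := by
    rw [← Real.exp_add]
    apply Real.exp_le_exp.2
    have : c * n ≤ c * (n : ℝ) ^ 2 := by
      apply mul_le_mul_of_nonneg_left _ hc0.le
      nlinarith
    rw [hc] at this ⊢
    nlinarith
  have h5 : 400 * (n : ℝ) ^ 16 * Real.exp (-(c * n)) ≤ 1 := by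
    have h6 : (c * (n : ℝ)) ^ 16 * Real.exp (-(c * n)) =
        c ^ 16 * ((n : ℝ) ^ 16 * Real.exp (-(c * n))) := by ring
    rw [h6] at h3
    have h7 : (0 : ℝ) < c ^ 16 := by positivity
    have h8 : c ^ 16 * ((n : ℝ) ^ 16 * Real.exp (-(c * n))) ≤ c ^ 16 * (1 / 400) := by
      calc _ ≤ c ^ 16 / 400 := h3
        _ = _ := by ring
    have h9 := le_of_mul_le_mul_left h8 h7
    calc 400 * (n : ℝ) ^ 16 * Real.exp (-(c * n))
        = 400 * ((n : ℝ) ^ 16 * Real.exp (-(c * n))) := by ring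
      _ ≤ 400 * (1 / 400) := by gcongr
      _ = 1 := by norm_num
  calc 400 * (n : ℝ) ^ 16 * Real.exp (-(n : ℝ) ^ 2 / 16500)
      ≤ 400 * (n : ℝ) ^ 16 * (Real.exp (-(c * n)) * Real.exp (-(n : ℝ) ^ 2 / 17000)) := by
        gcongr
    _ = (400 * (n : ℝ) ^ 16 * Real.exp (-(c * n))) * Real.exp (-(n : ℝ) ^ 2 / 17000) := by ring
    _ ≤ 1 * Real.exp (-(n : ℝ) ^ 2 / 17000) := by gcongr
    _ = _ := one_mul _

lemma sum_bs (n : ℕ) (e : ℝ) (he : 0 ≤ e) :
    ∑ l ∈ Finset.Ico 1 (Ln n + 1), |bs n l| * e ≤ 2 ^ Ln n * e := by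
  rw [← Finset.sum_mul]
  apply mul_le_mul_of_nonneg_right _ he
  have h1 : ∑ l ∈ Finset.Ico 1 (Ln n + 1), |bs n l| ≤
      ∑ l ∈ Finset.range (Ln n + 1), |bs n l| := by
    rw [Finset.range_eq_Ico]
    exact Finset.sum_le_sum_of_subset_of_nonneg (Finset.Ico_subset_Ico_left (by omega))
      fun _ _ _ => abs_nonneg _
  refine h1.trans ?_
  have h2 : ∀ l, |bs n l| = ((Ln n).choose l : ℝ) := by
    intro l
    unfold bs
    rw [abs_mul, abs_pow, abs_neg, abs_one, one_pow, one_mul]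
    exact abs_of_nonneg (by positivity)
  rw [Finset.sum_congr rfl fun l _ => h2 l]
  have h3 := Nat.sum_range_choose (Ln n)
  have h4 : ((∑ l ∈ Finset.range (Ln n + 1), (Ln n).choose l : ℕ) : ℝ) = 2 ^ Ln n := by
    rw [h3]
    push_cast
    rfl
  rw [← h4]
  push_cast
  rfl

/-- bound of the circle errors -/
lemma err_bd {n : ℕ} (hn : 2 ≤ n) {l : ℕ} (hl : 1 ≤ l) :
    Real.exp (4 * om n ^ 2 / tl n l) * Real.exp (-2 * tl n l) ≤
      3 * Real.exp (-8 * (n : ℝ) ^ 8) := by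
  have hn0 : (2 : ℝ) ≤ n := by exact_mod_cast hn
  have hl0 : (1 : ℝ) ≤ l := by exact_mod_cast hl
  have h1 : 4 * (n : ℝ) ^ 8 ≤ tl n l := by
    unfold tl t0 um
    have : (n : ℝ) ^ 8 ≤ l * (n : ℝ) ^ 8 := le_mul_of_one_le_left (by positivity) hl0
    nlinarith
  have h2 : 4 * om n ^ 2 / tl n l ≤ 1 := by
    rw [div_le_one (tl_pos n l)]
    unfold om
    have h3 : (n : ℝ) ^ 4 ≤ (n : ℝ) ^ 8 := pow_le_pow_right₀ (by linarith) (by norm_num)
    have h4 : 4 * ((n : ℝ) ^ 2 / 64) ^ 2 = (n : ℝ) ^ 4 / 1024 := by ring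
    rw [h4]
    have h5 : 0 ≤ (n : ℝ) ^ 4 := by positivity
    linarith
  have h6 : Real.exp (4 * om n ^ 2 / tl n l) ≤ 3 := by
    calc Real.exp (4 * om n ^ 2 / tl n l) ≤ Real.exp 1 := Real.exp_le_exp.2 h2
      _ ≤ 3 := by linarith [Real.exp_one_lt_d9]
  have h7 : Real.exp (-2 * tl n l) ≤ Real.exp (-8 * (n : ℝ) ^ 8) := by
    apply Real.exp_le_exp.2
    linarith
  gcongr

lemma tl_ge {n : ℕ} (hn : 2 ≤ n) {l : ℕ} (hl : 1 ≤ l) : 64 ≤ tl n l ∧
    (dm n : ℝ) ≤ Real.exp (tl n l) := by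
  have hn0 : (2 : ℝ) ≤ n := by exact_mod_cast hn
  have hl0 : (1 : ℝ) ≤ l := by exact_mod_cast hl
  have h1 : 4 * (n : ℝ) ^ 8 ≤ tl n l := by
    unfold tl t0 um
    have : (n : ℝ) ^ 8 ≤ l * (n : ℝ) ^ 8 := le_mul_of_one_le_left (by positivity) hl0
    nlinarith
  have h2 : (2 : ℝ) ^ 8 ≤ (n : ℝ) ^ 8 := by gcongr
  refine ⟨by linarith, ?_⟩
  have h3 : (dm n : ℝ) = (n : ℝ) ^ 4 := by unfold dm; push_cast; rfl
  have h4 : (n : ℝ) ^ 4 ≤ (n : ℝ) ^ 8 := pow_le_pow_right₀ (by linarith) (by norm_num)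
  have h5 := Real.add_one_le_exp (tl n l)
  rw [h3]
  have h6 : 0 ≤ (n : ℝ) ^ 8 := by positivity
  linarith

/-- final numerical inequality -/
lemma fin_bd {n : ℕ} (hn : 2 ≤ n) (h2 : 400 * (n : ℝ) ^ 16 * Real.exp (-(n : ℝ) ^ 2 / 16500) ≤
    Real.exp (-(n : ℝ) ^ 2 / 17000)) (p : ℕ) (b : ℝ) (hb : 0 ≤ b) :
    2 ^ Ln n * ((2 * (dm n : ℝ)) ^ p * (12 * dm n) * (2 * b) * (3 * Real.exp (-8 * (n : ℝ) ^ 8))) +
    dm n * (2 ^ Ln n * ((2 * (dm n : ℝ)) ^ (p + 1) * (12 * dm n) * (2 * b) *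
      (om n * (3 * Real.exp (-8 * (n : ℝ) ^ 8)))) +
      Rn n ^ (p + 1) * Real.exp (-2 * (n : ℝ) ^ 2) * (2 * b) +
      Rn n ^ (p + 1) * Real.exp (-(n : ℝ) ^ 2 / 16500) * (2 * b)) ≤
    Rn n ^ p * (th n / 4) * b := by
  have hn0 : (2 : ℝ) ≤ n := by exact_mod_cast hn
  have hn1 : (1 : ℝ) ≤ n := by linarith
  have hd : (dm n : ℝ) = (n : ℝ) ^ 4 := by unfold dm; push_cast; rfl
  have hR : Rn n = (n : ℝ) ^ 12 := rfl
  have hle : 2 * (dm n : ℝ) ≤ Rn n := by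
    rw [hd, hR]
    have h3 : (n : ℝ) ^ 12 = (n : ℝ) ^ 8 * (n : ℝ) ^ 4 := by ring
    rw [h3]
    have h4 : (2 : ℝ) ^ 8 ≤ (n : ℝ) ^ 8 := by gcongr
    have h5 : 0 ≤ (n : ℝ) ^ 4 := by positivity
    nlinarith
  have hRp : 0 ≤ Rn n := by rw [hR]; positivity
  have hp1 : (2 * (dm n : ℝ)) ^ p ≤ Rn n ^ p := by gcongr
  set E : ℝ := Real.exp (-(n : ℝ) ^ 2 / 16500) with hE
  have hE0 : 0 < E := Real.exp_pos _
  have h8 : (2 : ℝ) ^ Ln n * Real.exp (-8 * (n : ℝ) ^ 8) ≤ E := by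
    have h9 : (2 : ℝ) ^ Ln n ≤ Real.exp (4 * (n : ℝ) ^ 4) := by
      have h10 : (2 : ℝ) ≤ Real.exp 1 := by linarith [Real.exp_one_gt_d9]
      calc (2 : ℝ) ^ Ln n ≤ Real.exp 1 ^ Ln n := by gcongr
        _ = Real.exp (4 * (n : ℝ) ^ 4) := by
            rw [← Real.exp_nat_mul]
            unfold Ln
            push_cast
            ring_nf
    calc (2 : ℝ) ^ Ln n * Real.exp (-8 * (n : ℝ) ^ 8)
        ≤ Real.exp (4 * (n : ℝ) ^ 4) * Real.exp (-8 * (n : ℝ) ^ 8) := by gcongr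
      _ = Real.exp (4 * (n : ℝ) ^ 4 + -8 * (n : ℝ) ^ 8) := by rw [Real.exp_add]
      _ ≤ E := by
          rw [hE]
          apply Real.exp_le_exp.2
          have h11 : (n : ℝ) ^ 4 ≤ (n : ℝ) ^ 8 := pow_le_pow_right₀ hn1 (by norm_num)
          have h12 : (n : ℝ) ^ 2 ≤ (n : ℝ) ^ 8 := pow_le_pow_right₀ hn1 (by norm_num)
          have h13 : 0 ≤ (n : ℝ) ^ 8 := by positivity
          linarith
  have h14 : Real.exp (-2 * (n : ℝ) ^ 2) ≤ E := by
    rw [hE]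
    apply Real.exp_le_exp.2
    have : 0 ≤ (n : ℝ) ^ 2 := by positivity
    linarith
  have hN16 : ∀ j ≤ 16, (n : ℝ) ^ j ≤ (n : ℝ) ^ 16 := fun j hj => pow_le_pow_right₀ hn1 hj
  -- first term
  have t1 : 2 ^ Ln n * ((2 * (dm n : ℝ)) ^ p * (12 * dm n) * (2 * b) *
      (3 * Real.exp (-8 * (n : ℝ) ^ 8))) ≤ Rn n ^ p * (72 * (n : ℝ) ^ 16 * E) * b := by
    calc 2 ^ Ln n * ((2 * (dm n : ℝ)) ^ p * (12 * dm n) * (2 * b) *
        (3 * Real.exp (-8 * (n : ℝ) ^ 8)))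
        = (2 * (dm n : ℝ)) ^ p * (72 * (n : ℝ) ^ 4 *
          (2 ^ Ln n * Real.exp (-8 * (n : ℝ) ^ 8))) * b := by rw [hd]; ring
      _ ≤ Rn n ^ p * (72 * (n : ℝ) ^ 16 * E) * b := by
          have := hN16 4 (by norm_num)
          gcongr
  have t2 : dm n * (2 ^ Ln n * ((2 * (dm n : ℝ)) ^ (p + 1) * (12 * dm n) * (2 * b) *
      (om n * (3 * Real.exp (-8 * (n : ℝ) ^ 8))))) ≤
      Rn n ^ p * (3 * (n : ℝ) ^ 16 * E) * b := by
    calc dm n * (2 ^ Ln n * ((2 * (dm n : ℝ)) ^ (p + 1) * (12 * dm n) * (2 * b) *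
        (om n * (3 * Real.exp (-8 * (n : ℝ) ^ 8)))))
        = (2 * (dm n : ℝ)) ^ p * ((9 / 4) * (n : ℝ) ^ 14 *
          (2 ^ Ln n * Real.exp (-8 * (n : ℝ) ^ 8))) * b := by
          rw [hd]
          unfold om
          ring
      _ ≤ Rn n ^ p * (3 * (n : ℝ) ^ 16 * E) * b := by
          have := hN16 14 (by norm_num)
          gcongr
          norm_num
  have t3 : dm n * (Rn n ^ (p + 1) * Real.exp (-2 * (n : ℝ) ^ 2) * (2 * b)) ≤
      Rn n ^ p * (2 * (n : ℝ) ^ 16 * E) * b := by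
    calc dm n * (Rn n ^ (p + 1) * Real.exp (-2 * (n : ℝ) ^ 2) * (2 * b))
        = Rn n ^ p * (2 * (n : ℝ) ^ 16 * Real.exp (-2 * (n : ℝ) ^ 2)) * b := by
          rw [hd, pow_succ, hR]
          ring
      _ ≤ Rn n ^ p * (2 * (n : ℝ) ^ 16 * E) * b := by gcongr
  have t4 : dm n * (Rn n ^ (p + 1) * E * (2 * b)) = Rn n ^ p * (2 * (n : ℝ) ^ 16 * E) * b := by
    rw [hd, pow_succ, hR]
    ring
  have h15 : 79 * (n : ℝ) ^ 16 * E ≤ th n / 4 := by
    have h16 : th n = Real.exp (-(n : ℝ) ^ 2 / 17000) := rfl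
    rw [h16]
    have : 0 ≤ (n : ℝ) ^ 16 * E := by positivity
    linarith
  have h17 : Rn n ^ p * (79 * (n : ℝ) ^ 16 * E) * b ≤ Rn n ^ p * (th n / 4) * b := by gcongr
  have h18 : Rn n ^ p * (79 * (n : ℝ) ^ 16 * E) * b =
      Rn n ^ p * (72 * (n : ℝ) ^ 16 * E) * b + Rn n ^ p * (3 * (n : ℝ) ^ 16 * E) * b +
      Rn n ^ p * (2 * (n : ℝ) ^ 16 * E) * b + Rn n ^ p * (2 * (n : ℝ) ^ 16 * E) * b := by ring
  rw [mul_add (dm n : ℝ), mul_add (dm n : ℝ), t4]
  linarith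

end WID_

open WID_ in
/-- lattice sums of the wide kernel against `𝓛 Q` -/
theorem wid_proof (hWIA : Stmt_WIA) (hWIC : Stmt_WIC) (hWIE : Stmt_WIE) (hPO4 : Stmt_PO4)
    (hPO5 : Stmt_PO5) (hPGR : Stmt_PGR) (hPO1 : Stmt_PO1) (hSMO : Stmt_SMO)
    (hGWA : Stmt_GWA) (hCR1 : Stmt_CR1) : Stmt_WID := by
  obtain ⟨n1, hn1⟩ := evt1
  obtain ⟨n2, hn2⟩ := evt2
  obtain ⟨n3, hWIC⟩ := hWIC
  obtain ⟨n4, hWIE⟩ := hWIE
  obtain ⟨n5, hPGR⟩ := hPGR
  refine ⟨2 + n1 + n2 + n3 + n4 + n5, fun n hn X _ _ _ A Q z b w hA hb hQ hQz hw => ?_⟩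
  have hn' : 2 ≤ n := by omega
  have hcpl : CompleteSpace X := FiniteDimensional.complete ℝ X
  have hD1 : 1 ≤ dm n := by
    unfold dm
    exact Nat.one_le_pow _ _ (by omega)
  have hML : dm n ≤ Ln n := by unfold dm Ln; omega
  have hδ := hn1 n (by omega)
  have hδ0 : 0 ≤ dl n := by unfold dl; positivity
  have hω := om_pos hn'
  set G : P (dm n) → X := LL n A Q with hG
  have hGdef : G = fun y => ∑ q ∈ Finset.range (dm n), bq (om n) t0 q • ((DD A)^[q] Q) y := rfl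
  have hGp : IsPol (dm n) G := by
    rw [hGdef]
    exact (hPO1 (dm n) X A (dm n) Q hQ).2.2.2.2.2.1 (fun q => bq (om n) t0 q) (dm n)
  have hGz := (hPGR n (by omega) X A Q z z b hA hb hQ hQz).1
  have hGA : ∀ i, IsPol (dm n) (fun x => A i (G x)) := fun i =>
    (hPO1 (dm n) X A (dm n) G hGp).2.2.2.2.2.2 (A i)
  have hGAz : ∀ i, ∀ v : List (Fin (dm n)), ‖pdw v (fun x => A i (G x)) z‖ ≤
      2 * b * dl n ^ v.length := by
    intro i v
    obtain ⟨-, -, -, -, -, -, -, h8, -⟩ := hSMO (dm n) X A _ _ hGp.sm hGp.sm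
    rw [h8 v (A i)]
    calc ‖A i (pdw v G z)‖ ≤ ‖A i‖ * ‖pdw v G z‖ := (A i).le_opNorm _
      _ ≤ 1 * (2 * b * dl n ^ v.length) := by
          gcongr
          · exact hA.nrm i
          · exact hGz v
      _ = _ := one_mul _
  have hGz' : ∀ v : List (Fin (dm n)), ‖pdw v G z‖ ≤ 2 * b * dl n ^ v.length := hGz
  -- the four families of lattice sums
  have S0 : ∀ l ∈ Finset.Ico 1 (Ln n + 1), ∃ s : X,
      HasSum (fun k : Z (dm n) =>
        (cc (om n) (tl n l) (fun ζ => gw w ζ (z - zr k))).re • G (zr k)) s ∧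
      ‖s - pdw w (Ch (dm n) (om n) (tl n l) G) z‖ ≤
        (2 * (dm n : ℝ)) ^ w.length * (12 * dm n) * (2 * b) * (3 * Real.exp (-8 * (n : ℝ) ^ 8)) := by
    intro l hl
    have hl1 : 1 ≤ l := (Finset.mem_Ico.1 hl).1
    obtain ⟨ht1, ht2⟩ := tl_ge hn' hl1
    obtain ⟨⟨h1, h2⟩, -⟩ := hWIA (dm n) X (dm n) G (tl n l) (om n) (2 * b) (dl n) w z hGp hD1
      (by omega) ht1 ht2 hω.le (by positivity) hδ0 hδ (by omega) hGz'
    refine ⟨_, h1.of_norm.hasSum, h2.trans ?_⟩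
    rw [mul_assoc ((2 * (dm n : ℝ)) ^ w.length * (12 * dm n) * (2 * b))]
    have := err_bd hn' hl1
    gcongr
  choose! s0 hs0 he0 using S0
  have S1 : ∀ i : Fin (dm n), ∀ l ∈ Finset.Ico 1 (Ln n + 1), ∃ s : X,
      HasSum (fun k : Z (dm n) =>
        (cs (om n) (tl n l) (fun ζ => gw (i :: w) ζ (z - zr k))).re • A i (G (zr k))) s ∧
      ‖s - pdw (i :: w) (Sh (dm n) (om n) (tl n l) (fun x => A i (G x))) z‖ ≤
        (2 * (dm n : ℝ)) ^ (w.length + 1) * (12 * dm n) * (2 * b) *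
          (om n * (3 * Real.exp (-8 * (n : ℝ) ^ 8))) := by
    intro i l hl
    have hl1 : 1 ≤ l := (Finset.mem_Ico.1 hl).1
    obtain ⟨ht1, ht2⟩ := tl_ge hn' hl1
    obtain ⟨-, ⟨h1, h2⟩, -⟩ := hWIA (dm n) X (dm n) (fun x => A i (G x)) (tl n l) (om n) (2 * b)
      (dl n) (i :: w) z (hGA i) hD1 (by omega) ht1 ht2 hω.le (by positivity) hδ0 hδ
      (by simp only [List.length_cons]; omega) (hGAz i)
    refine ⟨_, h1.of_norm.hasSum, h2.trans ?_⟩
    rw [List.length_cons, mul_assoc ((2 * (dm n : ℝ)) ^ (w.length + 1) * (12 * dm n) * (2 * b)),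
      mul_assoc (om n)]
    have := err_bd hn' hl1
    gcongr
  choose! s1 hs1 he1 using S1
  have S2 : ∀ i : Fin (dm n), ∃ s : X,
      HasSum (fun k : Z (dm n) => (∫ u in Ioi (ub n), Wf (om n) u *
        ∑ l ∈ Finset.range (Ln n + 1), bs n l * gr (i :: w) (tl n l + 4 * u) (z - zr k)) •
          A i (G (zr k))) s ∧
      ‖s‖ ≤ Rn n ^ (w.length + 1) * Real.exp (-2 * (n : ℝ) ^ 2) * (2 * b) := by
    intro i
    obtain ⟨h1, h2⟩ := hWIC n (by omega) X (fun x => A i (G x)) z (2 * b) (i :: w)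
      (by positivity) (hGA i) (hGAz i) (by simp only [List.length_cons]; omega)
    exact ⟨_, h1.of_norm.hasSum, by simpa only [List.length_cons] using h2⟩
  choose s2 hs2 he2 using S2
  have S3 : ∀ i : Fin (dm n), ∃ s : X,
      HasSum (fun k : Z (dm n) => (∫ u in Ioc (0 : ℝ) (ub n), Wf (om n) u *
        ∑ l ∈ Finset.Ico 1 (Ln n + 1), bs n l * gr (i :: w) (tl n l + 4 * u) (z - zr k)) •
          A i (G (zr k))) s ∧
      ‖s‖ ≤ Rn n ^ (w.length + 1) * Real.exp (-(n : ℝ) ^ 2 / 16500) * (2 * b) := by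
    intro i
    obtain ⟨h1, h2⟩ := hWIE n (by omega) X (fun x => A i (G x)) z (2 * b) (i :: w)
      (by positivity) (hGA i) (hGAz i) (by simp only [List.length_cons]; omega)
    exact ⟨_, h1.of_norm.hasSum, by simpa only [List.length_cons] using h2⟩
  choose s3 hs3 he3 using S3
  -- total
  have hT : HasSum (fun k : Z (dm n) => W0 n w (z - zr k) • G (zr k) +
      ∑ i, W1 n (i :: w) (z - zr k) • A i (G (zr k)))
      (∑ l ∈ Finset.Ico 1 (Ln n + 1), bs n l • s0 l +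
        ∑ i, (∑ l ∈ Finset.Ico 1 (Ln n + 1), bs n l • s1 i l + s2 i + s3 i)) := by
    have h0 : HasSum (fun k : Z (dm n) => W0 n w (z - zr k) • G (zr k))
        (∑ l ∈ Finset.Ico 1 (Ln n + 1), bs n l • s0 l) := by
      have h1 := hasSum_sum (s := Finset.Ico 1 (Ln n + 1))
        (fun l hl => (hs0 l hl).const_smul (bs n l))
      convert h1 using 1
      ext k
      rw [W0_eq, Finset.sum_smul]
      exact Finset.sum_congr rfl fun l _ => by rw [mul_smul]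
    have h1 : ∀ i, HasSum (fun k : Z (dm n) => W1 n (i :: w) (z - zr k) • A i (G (zr k)))
        (∑ l ∈ Finset.Ico 1 (Ln n + 1), bs n l • s1 i l + s2 i + s3 i) := by
      intro i
      have h2 := hasSum_sum (s := Finset.Ico 1 (Ln n + 1))
        (fun l hl => (hs1 i l hl).const_smul (bs n l))
      have h3 := (h2.add (hs2 i)).add (hs3 i)
      convert h3 using 1
      ext k
      rw [W1_eq hGWA hCR1 hn', add_smul, add_smul, Finset.sum_smul]
      congr 2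
      exact Finset.sum_congr rfl fun l _ => by rw [mul_smul]
    exact h0.add (hasSum_sum fun i _ => h1 i)
  refine ⟨summable_norm_iff.2 hT.summable, ?_⟩
  rw [hT.tsum_eq]
  -- the main terms
  have f0 := fd_ident hSMO n (fun l => Ch (dm n) (om n) (tl n l) G)
    (fun l => ((hPO1 (dm n) X A (dm n) G hGp).2.2.2.2.1 (om n) (tl n l)).1.sm)
    (fun x => by
      have := (hPO4 (dm n) X (dm n) (Ln n) G t0 (um n) (om n) x hGp hML).2.1
      simpa only [bs, tl] using this) w z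
  have f1 : ∀ i, _ := fun i => fd_ident hSMO n
    (fun l => Sh (dm n) (om n) (tl n l) (fun x => A i (G x)))
    (fun l => ((hPO1 (dm n) X A (dm n) _ (hGA i)).2.2.2.2.1 (om n) (tl n l)).2.sm)
    (fun x => by
      have := (hPO4 (dm n) X (dm n) (Ln n) _ t0 (um n) (om n) x (hGA i) hML).2.2
      simpa only [bs, tl] using this) (i :: w) z
  have hmain := main_ident hSMO hPO1 hPO5 A hA (dm n) Q hQ t0 (om n) w z G hGdef
  rw [tl_zero] at f0
  simp only [tl_zero] at f1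
  have hkey : (∑ l ∈ Finset.Ico 1 (Ln n + 1), bs n l • s0 l +
        ∑ i, (∑ l ∈ Finset.Ico 1 (Ln n + 1), bs n l • s1 i l + s2 i + s3 i)) + pdw w Q z =
      ∑ l ∈ Finset.Ico 1 (Ln n + 1), bs n l • (s0 l - pdw w (Ch (dm n) (om n) (tl n l) G) z) +
        ∑ i, (∑ l ∈ Finset.Ico 1 (Ln n + 1), bs n l •
          (s1 i l - pdw (i :: w) (Sh (dm n) (om n) (tl n l) (fun x => A i (G x))) z) +
          s2 i + s3 i) := by
    simp only [smul_sub, Finset.sum_sub_distrib, f0, f1, ← hmain, Finset.sum_add_distrib,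
      Finset.sum_neg_distrib]
    abel
  rw [hkey]
  have hb0 : ‖∑ l ∈ Finset.Ico 1 (Ln n + 1), bs n l •
      (s0 l - pdw w (Ch (dm n) (om n) (tl n l) G) z)‖ ≤ 2 ^ Ln n *
      ((2 * (dm n : ℝ)) ^ w.length * (12 * dm n) * (2 * b) *
        (3 * Real.exp (-8 * (n : ℝ) ^ 8))) := by
    refine (norm_sum_le _ _).trans (le_trans ?_ (sum_bs n _ (by positivity)))
    refine Finset.sum_le_sum fun l hl => ?_
    rw [norm_smul, Real.norm_eq_abs]
    exact mul_le_mul_of_nonneg_left (he0 l hl) (abs_nonneg _)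
  have hb1 : ∀ i, ‖∑ l ∈ Finset.Ico 1 (Ln n + 1), bs n l •
      (s1 i l - pdw (i :: w) (Sh (dm n) (om n) (tl n l) (fun x => A i (G x))) z)‖ ≤ 2 ^ Ln n *
      ((2 * (dm n : ℝ)) ^ (w.length + 1) * (12 * dm n) * (2 * b) *
        (om n * (3 * Real.exp (-8 * (n : ℝ) ^ 8)))) := by
    intro i
    refine (norm_sum_le _ _).trans (le_trans ?_ (sum_bs n _ (by positivity)))
    refine Finset.sum_le_sum fun l hl => ?_
    rw [norm_smul, Real.norm_eq_abs]
    exact mul_le_mul_of_nonneg_left (he1 i l hl) (abs_nonneg _)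
  have hb2 : ‖∑ i, (∑ l ∈ Finset.Ico 1 (Ln n + 1), bs n l •
      (s1 i l - pdw (i :: w) (Sh (dm n) (om n) (tl n l) (fun x => A i (G x))) z) +
          s2 i + s3 i)‖ ≤ dm n * (2 ^ Ln n *
      ((2 * (dm n : ℝ)) ^ (w.length + 1) * (12 * dm n) * (2 * b) *
        (om n * (3 * Real.exp (-8 * (n : ℝ) ^ 8)))) +
      Rn n ^ (w.length + 1) * Real.exp (-2 * (n : ℝ) ^ 2) * (2 * b) +
      Rn n ^ (w.length + 1) * Real.exp (-(n : ℝ) ^ 2 / 16500) * (2 * b)) := by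
    refine (norm_sum_le _ _).trans ?_
    refine (Finset.sum_le_card_nsmul _ _ _ fun i _ => ?_).trans
      (by rw [Finset.card_univ, Fintype.card_fin, nsmul_eq_mul])
    refine (norm_add₃_le).trans ?_
    gcongr
    · exact hb1 i
    · exact he2 i
    · exact he3 i
  exact ((norm_add_le _ _).trans (add_le_add hb0 hb2)).trans
    (fin_bd hn' (hn2 n (by omega)) w.length b hb)

end Pool.Agent.HBW
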