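import Pool.Agent.HBW.Stmts

set_option autoImplicit false

namespace Pool.Agent.HBW

open MeasureTheory Set Filter Topology
open scoped ENNReal Real

namespace WIE_

section calc_

variable {D : ℕ} {X : Type} [NormedAddCommGroup X] [NormedSpace ℝ X]

lemma smo_lap (h : Stmt_SMO) {f : P D → X} (hf : Smo f) : Smo (Lap f) :=
  (h D X (fun _ => 0) f f hf hf).2.2.2.2.2.2.2.2.2.1

lemma pdw_lap (h : Stmt_SMO) {f : P D → X} (hf : Smo f) (w : List (Fin D)) :
    pdw w (Lap f) = Lap (pdw w f) :=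
  (h D X (fun _ => 0) f f hf hf).2.2.2.2.2.2.2.2.2.2.2.1 w

lemma smo_pdw (h : Stmt_SMO) {f : P D → X} (hf : Smo f) (w : List (Fin D)) : Smo (pdw w f) :=
  (h D X (fun _ => 0) f f hf hf).2.1 w

lemma pdw_append (h : Stmt_SMO) {f : P D → X} (hf : Smo f) (w w' : List (Fin D)) :
    pdw (w ++ w') f = pdw w (pdw w' f) :=
  (h D X (fun _ => 0) f f hf hf).2.2.2.2.1 w w'

lemma pdw_add (h : Stmt_SMO) {f g : P D → X} (hf : Smo f) (hg : Smo g) (w : List (Fin D)) :
    pdw w (fun x => f x + g x) = fun x => pdw w f x + pdw w g x :=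
  (h D X (fun _ => 0) f g hf hg).2.2.2.2.2.1 w

lemma pdw_smul (h : Stmt_SMO) {f : P D → X} (hf : Smo f) (w : List (Fin D)) (c : ℝ) :
    pdw w (fun x => c • f x) = fun x => c • pdw w f x :=
  (h D X (fun _ => 0) f f hf hf).2.2.2.2.2.2.1 w c

lemma smo_iter (h : Stmt_SMO) {f : P D → X} (hf : Smo f) (l : ℕ) : Smo (Lap^[l] f) := by
  induction l with
  | zero => exact hf
  | succ l ih => rw [Function.iterate_succ_apply']; exact smo_lap h ih

lemma pdw_iter (h : Stmt_SMO) {f : P D → X} (hf : Smo f) (l : ℕ) (w : List (Fin D)) :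
    pdw w (Lap^[l] f) = Lap^[l] (pdw w f) := by
  induction l with
  | zero => rfl
  | succ l ih =>
    rw [Function.iterate_succ_apply', Function.iterate_succ_apply', pdw_lap h (smo_iter h hf l),
      ih]

lemma pdw_sum (h : Stmt_SMO) {ι : Type} (s : Finset ι) (f : ι → P D → X)
    (hf : ∀ i, Smo (f i)) (w : List (Fin D)) :
    pdw w (fun x => ∑ i ∈ s, f i x) = fun x => ∑ i ∈ s, pdw w (f i) x := by
  classical
  induction s using Finset.induction_on with
  | empty =>
    have := pdw_smul h (f := fun _ : P D => (0 : X)) contDiff_const w 0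
    simpa using this
  | insert i s hi ih =>
    simp only [Finset.sum_insert hi]
    rw [pdw_add h (hf i) (ContDiff.sum fun i _ => hf i), ih]

lemma pdw_Tp (h : Stmt_SMO) {Q : P D → X} (hQ : Smo Q) (M : ℕ) (τ : ℝ) (w : List (Fin D)) :
    pdw w (Tp M τ Q) = Tp M τ (pdw w Q) := by
  unfold Tp
  rw [pdw_sum h _ (fun l x => ((τ / 4) ^ l / l.factorial : ℝ) • (Lap^[l] Q) x)
    (fun l => (smo_iter h hQ l).const_smul _)]
  funext x
  refine Finset.sum_congr rfl fun l _ => ?_
  rw [pdw_smul h (smo_iter h hQ l), pdw_iter h hQ]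

lemma lap_bd (h : Stmt_SMO) {Q : P D → X} (hQ : Smo Q) {z : P D} {b δ : ℝ}
    (hj : ∀ v : List (Fin D), ‖pdw v Q z‖ ≤ b * δ ^ v.length) (l : ℕ) :
    ∀ w : List (Fin D), ‖(Lap^[l] (pdw w Q)) z‖ ≤ (D : ℝ) ^ l * (b * δ ^ (w.length + 2 * l)) := by
  induction l with
  | zero => intro w; simpa using hj w
  | succ l ih =>
    intro w
    have e : (Lap^[l + 1] (pdw w Q)) z = ∑ i : Fin D, (Lap^[l] (pdw (i :: i :: w) Q)) z := by
      rw [Function.iterate_succ_apply']
      unfold Lap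
      refine Finset.sum_congr rfl fun i _ => ?_
      have h1 : pdw [i, i] (Lap^[l] (pdw w Q)) = Lap^[l] (pdw [i, i] (pdw w Q)) :=
        pdw_iter h (smo_pdw h hQ w) l [i, i]
      have h2 := congrFun h1 z
      exact h2
    rw [e]
    refine (norm_sum_le _ _).trans ?_
    calc ∑ i : Fin D, ‖(Lap^[l] (pdw (i :: i :: w) Q)) z‖
        ≤ ∑ _i : Fin D, (D : ℝ) ^ l * (b * δ ^ (w.length + 2 * (l + 1))) := by
          refine Finset.sum_le_sum fun i _ => ?_
          refine (ih _).trans (le_of_eq ?_)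
          simp only [List.length_cons]
          congr 3
          ring
      _ = (D : ℝ) ^ (l + 1) * (b * δ ^ (w.length + 2 * (l + 1))) := by
          rw [Finset.sum_const, Finset.card_univ, Fintype.card_fin, nsmul_eq_mul]
          ring

lemma tp_bd (h : Stmt_SMO) {Q : P D → X} (hQ : Smo Q) {z : P D} {b δ τ : ℝ} (hb : 0 ≤ b)
    (hδ : 0 ≤ δ) (hτ : 0 ≤ τ)
    (hj : ∀ v : List (Fin D), ‖pdw v Q z‖ ≤ b * δ ^ v.length) (M : ℕ) (w : List (Fin D)) :
    ‖Tp M τ (pdw w Q) z‖ ≤ b * δ ^ w.length * Real.exp (τ / 4 * D * δ ^ 2) := by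
  unfold Tp
  refine (norm_sum_le _ _).trans ?_
  calc ∑ l ∈ Finset.range M, ‖((τ / 4) ^ l / l.factorial : ℝ) • (Lap^[l] (pdw w Q)) z‖
      ≤ ∑ l ∈ Finset.range M, b * δ ^ w.length * ((τ / 4 * D * δ ^ 2) ^ l / l.factorial) := by
        refine Finset.sum_le_sum fun l _ => ?_
        rw [norm_smul, Real.norm_of_nonneg (by positivity)]
        calc _ ≤ (τ / 4) ^ l / l.factorial * ((D : ℝ) ^ l * (b * δ ^ (w.length + 2 * l))) :=
              mul_le_mul_of_nonneg_left (lap_bd h hQ hj l w) (by positivity)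
          _ = _ := by rw [mul_pow, mul_pow, pow_add, pow_mul]; ring
    _ = b * δ ^ w.length * ∑ l ∈ Finset.range M, (τ / 4 * D * δ ^ 2) ^ l / l.factorial := by
        rw [Finset.mul_sum]
    _ ≤ _ := by
        refine mul_le_mul_of_nonneg_left (Real.sum_le_exp_of_nonneg (by positivity) M)
          (by positivity)

lemma mon_bd (v : List (Fin D)) (y : P D) : |mon v y| ≤ ‖y‖ ^ v.length := by
  unfold mon
  induction v with
  | nil => simp
  | cons i v ih =>
    simp only [List.map_cons, List.prod_cons, List.length_cons, abs_mul]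
    rw [pow_succ']
    exact mul_le_mul (norm_le_pi_norm y i) ih (abs_nonneg _) (norm_nonneg _)

lemma growth (hT : Stmt_TEX) {M : ℕ} {Q : P D → X} (hQ : IsPol M Q) {z : P D} {b δ : ℝ}
    (hb : 0 ≤ b) (hδ : 0 ≤ δ) (hDδ : (D : ℝ) * δ ≤ 1)
    (hj : ∀ v : List (Fin D), ‖pdw v Q z‖ ≤ b * δ ^ v.length) (x : P D) :
    ‖Q x‖ ≤ M * b * (1 + ‖x - z‖) ^ M := by
  rw [hT D X M Q z x hQ]
  refine (norm_sum_le _ _).trans ?_
  calc ∑ m ∈ Finset.range M, ‖(1 / m.factorial : ℝ) • ∑ v : Fin m → Fin D,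
          mon (List.ofFn v) (x - z) • pdw (List.ofFn v) Q z‖
      ≤ ∑ _m ∈ Finset.range M, b * (1 + ‖x - z‖) ^ M := by
        refine Finset.sum_le_sum fun m hm => ?_
        rw [norm_smul, Real.norm_of_nonneg (by positivity)]
        have h1 : (1 / m.factorial : ℝ) ≤ 1 := by
          rw [div_le_one (by positivity)]
          exact_mod_cast Nat.succ_le_of_lt (Nat.factorial_pos m)
        have h2 : ‖∑ v : Fin m → Fin D, mon (List.ofFn v) (x - z) • pdw (List.ofFn v) Q z‖ ≤
            b * (1 + ‖x - z‖) ^ M := by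
          refine (norm_sum_le _ _).trans ?_
          calc ∑ v : Fin m → Fin D, ‖mon (List.ofFn v) (x - z) • pdw (List.ofFn v) Q z‖
              ≤ ∑ _v : Fin m → Fin D, ‖x - z‖ ^ m * (b * δ ^ m) := by
                refine Finset.sum_le_sum fun v _ => ?_
                rw [norm_smul]
                have e : (List.ofFn v).length = m := List.length_ofFn
                have h3 := mon_bd (List.ofFn v) (x - z)
                have h4 := hj (List.ofFn v)
                rw [e] at h3 h4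
                exact mul_le_mul h3 h4 (norm_nonneg _) (by positivity)
            _ = b * (((D : ℝ) * δ) ^ m * ‖x - z‖ ^ m) := by
                rw [Finset.sum_const, Finset.card_univ, Fintype.card_fun, Fintype.card_fin,
                  Fintype.card_fin, nsmul_eq_mul, mul_pow]
                push_cast
                ring
            _ ≤ b * (1 * (1 + ‖x - z‖) ^ M) := by
                refine mul_le_mul_of_nonneg_left ?_ hb
                refine mul_le_mul (pow_le_one₀ (by positivity) hDδ) ?_ (by positivity)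
                  zero_le_one
                calc ‖x - z‖ ^ m ≤ (1 + ‖x - z‖) ^ m :=
                      pow_le_pow_left₀ (norm_nonneg _) (by linarith) m
                  _ ≤ (1 + ‖x - z‖) ^ M :=
                      pow_le_pow_right₀ (by linarith [norm_nonneg (x - z)])
                        (Finset.mem_range.1 hm).le
            _ = _ := by ring
        calc _ ≤ 1 * (b * (1 + ‖x - z‖) ^ M) :=
              mul_le_mul h1 h2 (norm_nonneg _) zero_le_one
          _ = _ := one_mul _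
    _ = _ := by rw [Finset.sum_const, Finset.card_range, nsmul_eq_mul]; ring

end calc_

/-! ### the weight -/

lemma Wf_meas (ω : ℝ) : Measurable (Wf ω) := by
  unfold Wf
  fun_prop

lemma Wf_nonneg (ω u : ℝ) : 0 ≤ Wf ω u := by unfold Wf; positivity

lemma Wf_le {n : ℕ} (hn : 1 ≤ n) {u : ℝ} (hu : u ∈ Ioc (0 : ℝ) (ub n)) :
    Wf (om n) u ≤ Real.exp (-(n : ℝ) ^ 2 / 16384) * u ^ (-(1 / 2) : ℝ) := by
  have hn' : (1 : ℝ) ≤ n := by exact_mod_cast hn
  have hu0 := hu.1
  have hu1 : u ≤ (n : ℝ) ^ 2 := hu.2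
  unfold Wf
  rw [mul_comm]
  refine mul_le_mul ?_ ?_ (by positivity) (by positivity)
  · refine Real.exp_le_exp.2 ?_
    unfold om
    rw [div_le_div_iff₀ (by positivity) (by positivity)]
    have h1 : ((n : ℝ) ^ 2) * u ≤ (n : ℝ) ^ 2 * (n : ℝ) ^ 2 :=
      mul_le_mul_of_nonneg_left hu1 (by positivity)
    nlinarith [h1]
  · rw [Real.rpow_neg hu0.le, ← Real.sqrt_eq_rpow]
    refine inv_anti₀ (Real.sqrt_pos.2 hu0) (Real.sqrt_le_sqrt ?_)
    nlinarith [Real.pi_gt_three]

lemma g_int (c ub : ℝ) (hub : 0 ≤ ub) :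
    IntegrableOn (fun u : ℝ => c * u ^ (-(1 / 2) : ℝ)) (Ioc 0 ub) ∧
      ∫ u in Ioc (0 : ℝ) ub, c * u ^ (-(1 / 2) : ℝ) = c * (2 * Real.sqrt ub) := by
  constructor
  · rw [← intervalIntegrable_iff_integrableOn_Ioc_of_le hub]
    exact (intervalIntegral.intervalIntegrable_rpow' (by norm_num)).const_mul c
  · rw [← intervalIntegral.integral_of_le hub, intervalIntegral.integral_const_mul,
      integral_rpow (Or.inl (by norm_num))]
    rw [Real.zero_rpow (by norm_num), Real.sqrt_eq_rpow]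
    norm_num
    left
    ring

lemma bs_sum (n : ℕ) : ∑ l ∈ Finset.Ico 1 (Ln n + 1), |bs n l| ≤ 2 ^ Ln n := by
  calc ∑ l ∈ Finset.Ico 1 (Ln n + 1), |bs n l|
      ≤ ∑ l ∈ Finset.range (Ln n + 1), |bs n l| := by
        refine Finset.sum_le_sum_of_subset_of_nonneg ?_ fun _ _ _ => abs_nonneg _
        intro l hl
        rw [Finset.mem_Ico] at hl
        exact Finset.mem_range.2 hl.2
    _ = ∑ l ∈ Finset.range (Ln n + 1), ((Ln n).choose l : ℝ) := by
        refine Finset.sum_congr rfl fun l _ => ?_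
        unfold bs
        rw [abs_mul, abs_pow, abs_neg, abs_one, one_pow, one_mul, Nat.abs_cast]
    _ = 2 ^ Ln n := by
        have := Nat.sum_range_choose (Ln n)
        exact_mod_cast this

lemma gr_cont (hGWA : Stmt_GWA) {D : ℕ} (w : List (Fin D)) (y : P D) (t : ℝ) (ht : 0 < t)
    (ub : ℝ) : ContinuousOn (fun u : ℝ => gr w (t + 4 * u) y) (Ioc 0 ub) := by
  unfold gr
  refine Complex.continuous_re.comp_continuousOn ?_
  refine ((hGWA D w).2).comp (g := fun p : ℂ × P D => gw w p.1 p.2)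
    (f := fun u : ℝ => (((t + 4 * u : ℝ) : ℂ), y)) (Continuous.continuousOn (by fun_prop)) ?_
  intro u hu
  show 0 < (((t + 4 * u : ℝ) : ℂ)).re
  rw [Complex.ofReal_re]
  linarith [hu.1]

lemma num1 : ∃ n0 : ℕ, ∀ n ≥ n0, 64 * (n : ℝ) ^ 20 ≤ 2 ^ n := by
  have h := tendsto_pow_const_div_const_pow_of_one_lt 20 (r := (2 : ℝ)) (by norm_num)
  have h2 := h.eventually (gt_mem_nhds (show (0 : ℝ) < 1 / 64 by norm_num))
  obtain ⟨n0, hn0⟩ := eventually_atTop.1 h2
  refine ⟨n0, fun n hn => ?_⟩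
  have h3 := hn0 n hn
  rw [div_lt_iff₀ (by positivity)] at h3
  linarith

lemma num2 {n : ℕ} (hn : 100000 ≤ n) :
    6 * (n : ℝ) * Real.exp (-(n : ℝ) ^ 2 / 16384) ≤ Real.exp (-(n : ℝ) ^ 2 / 16500) := by
  have hn' : (100000 : ℝ) ≤ n := by exact_mod_cast hn
  set c : ℝ := 4 / 10000000 with hc
  have h1 : (n : ℝ) ^ 2 * c ≤ (n : ℝ) ^ 2 / 16384 - (n : ℝ) ^ 2 / 16500 := by
    rw [hc]
    nlinarith [sq_nonneg (n : ℝ)]
  have h2 : 6 * (n : ℝ) ≤ Real.exp ((n : ℝ) ^ 2 * c) := by
    have h3 : ((n : ℝ) ^ 2 * c) ^ 2 / 2 ≤ Real.exp ((n : ℝ) ^ 2 * c) := by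
      have := Real.quadratic_le_exp_of_nonneg (x := (n : ℝ) ^ 2 * c) (by positivity)
      have h4 : 0 ≤ (n : ℝ) ^ 2 * c := by positivity
      linarith
    refine le_trans ?_ h3
    have h5 : (100000 : ℝ) ^ 3 ≤ (n : ℝ) ^ 3 := pow_le_pow_left₀ (by norm_num) hn' 3
    rw [hc]
    nlinarith [h5]
  calc 6 * (n : ℝ) * Real.exp (-(n : ℝ) ^ 2 / 16384)
      ≤ Real.exp ((n : ℝ) ^ 2 * c) * Real.exp (-(n : ℝ) ^ 2 / 16384) :=
        mul_le_mul_of_nonneg_right h2 (by positivity)
    _ = Real.exp ((n : ℝ) ^ 2 * c + -(n : ℝ) ^ 2 / 16384) := by rw [Real.exp_add]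
    _ ≤ _ := by
        refine Real.exp_le_exp.2 ?_
        have : -(n : ℝ) ^ 2 / 16384 = -((n : ℝ) ^ 2 / 16384) := by ring
        have h' : -(n : ℝ) ^ 2 / 16500 = -((n : ℝ) ^ 2 / 16500) := by ring
        linarith

lemma num3 {n : ℕ} (hn : 1 ≤ n) :
    (2 : ℝ) ^ Ln n * (12 * (dm n : ℝ)) * Real.exp (-(8 * (n : ℝ) ^ 8)) ≤ 1 := by
  have hn' : (1 : ℝ) ≤ n := by exact_mod_cast hn
  have h4 : (1 : ℝ) ≤ (n : ℝ) ^ 4 := one_le_pow₀ hn'
  have hd : (dm n : ℝ) = (n : ℝ) ^ 4 := by unfold dm; push_cast; ring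
  rw [hd]
  have h1 : (2 : ℝ) ^ Ln n ≤ Real.exp (4 * (n : ℝ) ^ 4) := by
    have h5 : (2 : ℝ) ≤ Real.exp 1 := by
      have := Real.add_one_le_exp (1 : ℝ); linarith
    calc (2 : ℝ) ^ Ln n ≤ Real.exp 1 ^ Ln n := pow_le_pow_left₀ (by norm_num) h5 _
      _ = Real.exp (4 * (n : ℝ) ^ 4) := by
          rw [← Real.exp_nat_mul]
          congr 1
          unfold Ln
          push_cast
          ring
  have h2 : 12 * (n : ℝ) ^ 4 ≤ Real.exp (4 * (n : ℝ) ^ 4) := by
    have h6 := Real.quadratic_le_exp_of_nonneg (x := 4 * (n : ℝ) ^ 4) (by positivity)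
    nlinarith [h6, h4]
  calc _ ≤ Real.exp (4 * (n : ℝ) ^ 4) * Real.exp (4 * (n : ℝ) ^ 4) *
        Real.exp (-(8 * (n : ℝ) ^ 8)) := by
        refine mul_le_mul_of_nonneg_right ?_ (by positivity)
        exact mul_le_mul h1 h2 (by positivity) (by positivity)
    _ = Real.exp (8 * (n : ℝ) ^ 4 - 8 * (n : ℝ) ^ 8) := by
        rw [← Real.exp_add, ← Real.exp_add]
        congr 1
        ring
    _ ≤ 1 := by
        refine Real.exp_le_one_iff.2 ?_
        have : (n : ℝ) ^ 8 = (n : ℝ) ^ 4 * (n : ℝ) ^ 4 := by ring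
        nlinarith

end WIE_

open WIE_ in
theorem wie_proof (hWIA : Stmt_WIA) (hPO4 : Stmt_PO4) (hCR2 : Stmt_CR2) (hTEX : Stmt_TEX)
    (hLSW : Stmt_LSW) (hPO1 : Stmt_PO1) (hSMO : Stmt_SMO) (hGWA : Stmt_GWA) : Stmt_WIE := by
  obtain ⟨C, hC⟩ := hCR2
  obtain ⟨C', hL⟩ := hLSW
  obtain ⟨n0, hn0⟩ := num1
  refine ⟨max n0 100000, fun n hn X _ _ _ Q z b w hb hQ hj hw => ?_⟩
  have hn1 : 100000 ≤ n := le_trans (le_max_right _ _) hn
  have hN1 := hn0 n (le_trans (le_max_left _ _) hn)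
  have hn1' : (100000 : ℝ) ≤ n := by exact_mod_cast hn1
  have hnp : (1 : ℝ) ≤ n := by linarith
  have hD : (dm n : ℝ) = (n : ℝ) ^ 4 := by unfold dm; push_cast; ring
  have hD1 : 1 ≤ dm n := by unfold dm; exact Nat.one_le_pow _ _ (by omega)
  have hD1' : (1 : ℝ) ≤ (dm n : ℝ) := by exact_mod_cast hD1
  set δ := dl n with hδdef
  have hδ0 : 0 ≤ δ := by rw [hδdef]; unfold dl; positivity
  have hδ1 : 64 * (dm n : ℝ) ^ 3 * δ ≤ 1 := by
    rw [hD, hδdef]
    unfold dl
    rw [← mul_div_assoc, div_le_one (by positivity)]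
    calc _ = 64 * (n : ℝ) ^ 20 := by ring
      _ ≤ _ := hN1
  have hDδ : (dm n : ℝ) * δ ≤ 1 := by
    have h1 : (dm n : ℝ) * δ ≤ 64 * (dm n : ℝ) ^ 3 * δ := by
      refine mul_le_mul_of_nonneg_right ?_ hδ0
      have : (1 : ℝ) ≤ (dm n : ℝ) ^ 2 := one_le_pow₀ hD1'
      nlinarith
    linarith
  have hδle : δ ≤ 1 := by nlinarith
  -- the weight
  set Eg : ℝ := Real.exp (-(n : ℝ) ^ 2 / 16384) with hEg
  have hub0 : 0 ≤ ub n := by unfold ub; positivity
  obtain ⟨gI, gV⟩ := g_int Eg (ub n) hub0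
  have hsub : Real.sqrt (ub n) = n := by unfold ub; exact Real.sqrt_sq (by linarith)
  rw [hsub] at gV
  set g : ℝ → ℝ := fun u => Eg * u ^ (-(1 / 2) : ℝ) with hg
  have hWg : ∀ u ∈ Ioc (0 : ℝ) (ub n), Wf (om n) u ≤ g u := fun u hu =>
    Wf_le (by omega) hu
  have hg0 : ∀ u ∈ Ioc (0 : ℝ) (ub n), 0 ≤ g u := fun u hu => (Wf_nonneg _ _).trans (hWg u hu)
  -- the finite sums
  set S : Z (dm n) → ℝ → ℝ := fun k u =>
    ∑ l ∈ Finset.Ico 1 (Ln n + 1), bs n l * gr w (tl n l + 4 * u) (z - zr k) with hS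
  have htl : ∀ l, 0 < tl n l := fun l => by
    unfold tl t0 um; positivity
  set cst : ℝ := w.length.factorial * (dm n : ℝ) ^ w.length * (n : ℝ) ^ (C * n ^ 4) with hcst
  have hcst0 : 0 ≤ cst := by rw [hcst]; positivity
  have hSb : ∀ k, ∀ u ∈ Ioc (0 : ℝ) (ub n), |S k u| ≤
      2 ^ Ln n * (cst * (1 + ‖z - zr k‖) ^ (-(6 * (dm n : ℤ)))) := by
    intro k u hu
    have h1 : |S k u| ≤ ∑ l ∈ Finset.Ico 1 (Ln n + 1), |bs n l| *
        (cst * (1 + ‖z - zr k‖) ^ (-(6 * (dm n : ℤ)))) := by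
      refine (Finset.abs_sum_le_sum_abs _ _).trans (Finset.sum_le_sum fun l hl => ?_)
      rw [abs_mul]
      refine mul_le_mul_of_nonneg_left ?_ (abs_nonneg _)
      rw [Finset.mem_Ico] at hl
      exact hC n (by omega) w (z - zr k) u l hu.1.le hu.2 (by omega)
    refine h1.trans ?_
    rw [← Finset.sum_mul]
    exact mul_le_mul_of_nonneg_right (bs_sum n) (by positivity)
  have hQb : ∀ k : Z (dm n), ‖Q (zr k)‖ ≤ dm n * b * (1 + ‖z - zr k‖) ^ dm n := fun k => by
    have := growth hTEX hQ hb hδ0 hDδ hj (zr k)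
    rwa [norm_sub_rev] at this
  set F : Z (dm n) → ℝ → X := fun k u => (Wf (om n) u * S k u) • Q (zr k) with hF
  set K1 : ℝ := 2 ^ Ln n * cst * (dm n * b) with hK1
  set a : Z (dm n) → ℝ := fun k => (1 + ‖z - zr k‖) ^ (-(5 * (dm n : ℤ))) with ha
  have ha0 : ∀ k, 0 ≤ a k := fun k => by simp only [ha]; positivity
  have hFb : ∀ k, ∀ u ∈ Ioc (0 : ℝ) (ub n), ‖F k u‖ ≤ g u * (K1 * a k) := by
    intro k u hu
    simp only [hF]
    rw [norm_smul, norm_mul, Real.norm_of_nonneg (Wf_nonneg _ _), mul_assoc]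
    refine mul_le_mul (hWg u hu) ?_ (by positivity) (hg0 u hu)
    calc ‖S k u‖ * ‖Q (zr k)‖ ≤ (2 ^ Ln n * (cst * (1 + ‖z - zr k‖) ^ (-(6 * (dm n : ℤ))))) *
          (dm n * b * (1 + ‖z - zr k‖) ^ dm n) :=
          mul_le_mul (hSb k u hu) (hQb k) (norm_nonneg _) (by positivity)
      _ = 2 ^ Ln n * cst * (dm n * b) *
          ((1 + ‖z - zr k‖) ^ (-(6 * (dm n : ℤ))) * (1 + ‖z - zr k‖) ^ dm n) := by ring
      _ = K1 * a k := by
          simp only [hK1, ha]
          congr 1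
          have hpos : (1 + ‖z - zr k‖) ≠ 0 := by positivity
          rw [← zpow_natCast, ← zpow_add₀ hpos]
          congr 1
          ring
  have hSc : ∀ k, ContinuousOn (S k) (Ioc 0 (ub n)) := by
    intro k
    refine continuousOn_finsetSum _ fun l _ => ?_
    exact continuousOn_const.mul (gr_cont hGWA w (z - zr k) (tl n l) (htl l) (ub n))
  have hFm : ∀ k, AEStronglyMeasurable (F k) (volume.restrict (Ioc 0 (ub n))) := by
    intro k
    refine AEStronglyMeasurable.smul ?_ aestronglyMeasurable_const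
    exact (Wf_meas _).aestronglyMeasurable.mul ((hSc k).aestronglyMeasurable measurableSet_Ioc)
  have hmem : ∀ᵐ u ∂(volume.restrict (Ioc (0 : ℝ) (ub n))), u ∈ Ioc (0 : ℝ) (ub n) :=
    ae_restrict_mem measurableSet_Ioc
  have hFi : ∀ k, Integrable (F k) (volume.restrict (Ioc 0 (ub n))) := by
    intro k
    refine Integrable.mono' (gI.mul_const (K1 * a k)) (hFm k) ?_
    exact hmem.mono fun u hu => hFb k u hu
  have hFn : ∀ k, ∫ u in Ioc (0 : ℝ) (ub n), ‖F k u‖ ≤ (Eg * (2 * n)) * K1 * a k := by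
    intro k
    calc ∫ u in Ioc (0 : ℝ) (ub n), ‖F k u‖ ≤ ∫ u in Ioc (0 : ℝ) (ub n), g u * (K1 * a k) :=
          integral_mono_ae (hFi k).norm (gI.mul_const _) (hmem.mono fun u hu => hFb k u hu)
      _ = _ := by rw [integral_mul_const, gV]; ring
  have hasum : Summable a := by
    have := (hL n (by omega) z (5 * (dm n : ℤ)) (by linarith [Int.natCast_nonneg (dm n)])).1
    exact this
  have hFsum : Summable fun k => ∫ u in Ioc (0 : ℝ) (ub n), ‖F k u‖ :=
    Summable.of_nonneg_of_le (fun k => integral_nonneg fun u => norm_nonneg _) hFn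
      (hasum.mul_left _)
  have hFe : ∀ k, (∫ u in Ioc (0 : ℝ) (ub n), Wf (om n) u *
      ∑ l ∈ Finset.Ico 1 (Ln n + 1), bs n l * gr w (tl n l + 4 * u) (z - zr k)) • Q (zr k) =
      ∫ u in Ioc (0 : ℝ) (ub n), F k u := fun k => (integral_smul_const _ _).symm
  constructor
  · refine Summable.of_nonneg_of_le (fun k => norm_nonneg _) (fun k => ?_) hFsum
    rw [hFe k]
    exact norm_integral_le_integral_norm _
  · have hHS := (hasSum_integral_of_summable_integral_norm hFi hFsum).tsum_eq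
    simp only [hFe]
    rw [hHS]
    -- pointwise bound
    set K0 : ℝ := 3 * (Rn n ^ w.length * b) with hK0
    have hR : (2 * (dm n : ℝ)) ^ w.length ≤ Rn n ^ w.length := by
      refine pow_le_pow_left₀ (by positivity) ?_ _
      rw [hD]
      unfold Rn
      have h8 : (2 : ℝ) ≤ (n : ℝ) ^ 8 := by
        calc (2 : ℝ) ≤ n := by linarith
          _ = (n : ℝ) ^ 1 := (pow_one _).symm
          _ ≤ (n : ℝ) ^ 8 := pow_le_pow_right₀ hnp (by norm_num)
      calc 2 * (n : ℝ) ^ 4 ≤ (n : ℝ) ^ 8 * (n : ℝ) ^ 4 :=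
            mul_le_mul_of_nonneg_right h8 (by positivity)
        _ = _ := by ring
    have hR1 : (1 : ℝ) ≤ Rn n ^ w.length := one_le_pow₀ (by unfold Rn; exact one_le_pow₀ hnp)
    have hpt : ∀ u ∈ Ioc (0 : ℝ) (ub n), ‖∑' k, F k u‖ ≤ g u * K0 := by
      intro u hu
      have hu1 : u ≤ (n : ℝ) ^ 2 := hu.2
      -- the heat times
      have hτ : ∀ l ∈ Finset.Ico 1 (Ln n + 1), 4 * (n : ℝ) ^ 8 ≤ tl n l + 4 * u := by
        intro l hl
        rw [Finset.mem_Ico] at hl
        have h1 : (1 : ℝ) ≤ l := by exact_mod_cast hl.1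
        unfold tl t0 um
        have h2 : (n : ℝ) ^ 8 ≤ l * (n : ℝ) ^ 8 := by
          have : 0 ≤ (n : ℝ) ^ 8 := by positivity
          nlinarith
        nlinarith [hu.1]
      have hn8 : (n : ℝ) ^ 4 ≤ (n : ℝ) ^ 8 := pow_le_pow_right₀ hnp (by norm_num)
      have hn84 : (n : ℝ) ≤ (n : ℝ) ^ 8 := by
        calc (n : ℝ) = (n : ℝ) ^ 1 := (pow_one _).symm
          _ ≤ (n : ℝ) ^ 8 := pow_le_pow_right₀ hnp (by norm_num)
      have hW : ∀ l ∈ Finset.Ico 1 (Ln n + 1),
          Summable (fun k : Z (dm n) => ‖gr w (tl n l + 4 * u) (z - zr k) • Q (zr k)‖) ∧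
          ‖(∑' k : Z (dm n), gr w (tl n l + 4 * u) (z - zr k) • Q (zr k)) -
            pdw w (Tp (dm n) (tl n l + 4 * u) Q) z‖ ≤
            (2 * (dm n : ℝ)) ^ w.length * (12 * dm n) * b * Real.exp (-2 * (tl n l + 4 * u)) := by
        intro l hl
        have h1 := hτ l hl
        have h2 : 64 ≤ tl n l + 4 * u := by linarith
        have h3 : (dm n : ℝ) ≤ Real.exp (tl n l + 4 * u) := by
          rw [hD]
          have := Real.add_one_le_exp (tl n l + 4 * u)
          linarith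
        exact (hWIA (dm n) X (dm n) Q (tl n l + 4 * u) 0 b δ w z hQ hD1 (by omega) h2 h3 le_rfl
          hb hδ0 hδ1 hw hj).2.2
      set T : ℕ → X := fun l => ∑' k : Z (dm n), gr w (tl n l + 4 * u) (z - zr k) • Q (zr k)
        with hT
      have hsum1 : HasSum (fun k => F k u)
          (Wf (om n) u • ∑ l ∈ Finset.Ico 1 (Ln n + 1), bs n l • T l) := by
        have h1 : HasSum (fun k : Z (dm n) => ∑ l ∈ Finset.Ico 1 (Ln n + 1),
            bs n l • (gr w (tl n l + 4 * u) (z - zr k) • Q (zr k)))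
            (∑ l ∈ Finset.Ico 1 (Ln n + 1), bs n l • T l) := by
          refine hasSum_sum fun l hl => ?_
          exact ((hW l hl).1.of_norm.hasSum).const_smul _
        have h2 := h1.const_smul (Wf (om n) u)
        have e : (fun k => F k u) = fun k : Z (dm n) => Wf (om n) u •
            ∑ l ∈ Finset.Ico 1 (Ln n + 1),
              bs n l • (gr w (tl n l + 4 * u) (z - zr k) • Q (zr k)) := by
          funext k
          simp only [hF, hS]
          rw [mul_smul, Finset.sum_smul]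
          congr 1
          exact Finset.sum_congr rfl fun l _ => mul_smul _ _ _
        rw [e]
        exact h2
      rw [hsum1.tsum_eq, norm_smul, Real.norm_of_nonneg (Wf_nonneg _ _)]
      refine mul_le_mul (hWg u hu) ?_ (norm_nonneg _) (hg0 u hu)
      -- main part
      set Pl : ℕ → X := fun l => pdw w (Tp (dm n) (tl n l + 4 * u) Q) z with hPl
      have hPl' : ∀ l, Pl l = Tp (dm n) (tl n l + 4 * u) (pdw w Q) z := fun l => by
        simp only [hPl]
        rw [pdw_Tp hSMO hQ.sm]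
      have hQw : IsPol (dm n) (pdw w Q) := by
        have h1 := (hPO1 (dm n) X (fun _ => 0) (dm n) Q hQ).1 w
        exact ⟨h1.sm, fun v hv => h1.top v (by omega)⟩
      have hP0 := (hPO4 (dm n) X (dm n) (Ln n) (pdw w Q) (t0 + 4 * u) (um n) 0 z hQw (by
        unfold dm Ln; omega)).1
      have hmain : ∑ l ∈ Finset.Ico 1 (Ln n + 1), bs n l • Pl l = -Pl 0 := by
        have h1 : ∑ l ∈ Finset.range (Ln n + 1), bs n l • Pl l = 0 := by
          rw [← hP0]
          refine Finset.sum_congr rfl fun l _ => ?_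
          rw [hPl']
          unfold bs
          congr 2
          unfold tl
          ring
        rw [Finset.range_eq_Ico, Finset.sum_eq_sum_Ico_succ_bot (by omega)] at h1
        have h2 : bs n 0 = 1 := by unfold bs; simp
        rw [h2, one_smul] at h1
        have h3 := eq_neg_of_add_eq_zero_right h1
        simpa using h3
      have hP0b : ‖Pl 0‖ ≤ 2 * b := by
        rw [hPl']
        have h0 : 0 ≤ tl n 0 + 4 * u := by linarith [htl 0, hu.1]
        refine (tp_bd hSMO hQ.sm hb hδ0 h0 hj (dm n) w).trans ?_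
        have h1 : δ ^ w.length ≤ 1 := pow_le_one₀ hδ0 hδle
        have h2 : Real.exp ((tl n 0 + 4 * u) / 4 * (dm n : ℝ) * δ ^ 2) ≤ 2 := by
          have h3 : (tl n 0 + 4 * u) / 4 * (dm n : ℝ) * δ ^ 2 ≤ 1 / 2 := by
            have h4 : (tl n 0 + 4 * u) / 4 ≤ (dm n : ℝ) := by
              rw [hD]
              unfold tl t0
              have h5 : (n : ℝ) ^ 2 * 2 ≤ (n : ℝ) ^ 4 := by
                have : (n : ℝ) ^ 4 = (n : ℝ) ^ 2 * (n : ℝ) ^ 2 := by ring
                have h6 : (2 : ℝ) ≤ (n : ℝ) ^ 2 := by nlinarith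
                nlinarith [sq_nonneg (n : ℝ)]
              have h7 : (1 : ℝ) ≤ (n : ℝ) ^ 2 := one_le_pow₀ hnp
              norm_num
              linarith
            calc _ ≤ (dm n : ℝ) * (dm n : ℝ) * δ ^ 2 := by
                  refine mul_le_mul_of_nonneg_right (mul_le_mul_of_nonneg_right h4 ?_) ?_ <;>
                    positivity
              _ = ((dm n : ℝ) * δ) ^ 2 := by ring
              _ ≤ (1 / 64) ^ 2 := by
                  refine pow_le_pow_left₀ (by positivity) ?_ 2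
                  have h8 : 64 * ((dm n : ℝ) * δ) ≤ 64 * (dm n : ℝ) ^ 3 * δ := by
                    rw [← mul_assoc]
                    refine mul_le_mul_of_nonneg_right ?_ hδ0
                    have : (1 : ℝ) ≤ (dm n : ℝ) ^ 2 := one_le_pow₀ hD1'
                    nlinarith
                  linarith
              _ ≤ 1 / 2 := by norm_num
          calc Real.exp _ ≤ Real.exp (1 / 2) := Real.exp_le_exp.2 h3
            _ ≤ 2 := by
              have h9 : Real.exp (1 / 2) ^ 2 = Real.exp 1 := by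
                rw [← Real.exp_nat_mul]; norm_num
              have h10 := Real.exp_one_lt_d9
              have h11 := Real.exp_pos (1 / 2)
              nlinarith
        calc b * δ ^ w.length * Real.exp ((tl n 0 + 4 * u) / 4 * (dm n : ℝ) * δ ^ 2)
            ≤ b * 1 * 2 := mul_le_mul (mul_le_mul_of_nonneg_left h1 hb) h2 (by positivity)
              (by positivity)
          _ = 2 * b := by ring
      have herr : ‖∑ l ∈ Finset.Ico 1 (Ln n + 1), bs n l • T l -
          ∑ l ∈ Finset.Ico 1 (Ln n + 1), bs n l • Pl l‖ ≤ Rn n ^ w.length * b := by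
        rw [← Finset.sum_sub_distrib]
        refine (norm_sum_le _ _).trans ?_
        calc ∑ l ∈ Finset.Ico 1 (Ln n + 1), ‖bs n l • T l - bs n l • Pl l‖
            ≤ ∑ l ∈ Finset.Ico 1 (Ln n + 1), |bs n l| * ((2 * (dm n : ℝ)) ^ w.length *
              (12 * dm n) * b * Real.exp (-(8 * (n : ℝ) ^ 8))) := by
              refine Finset.sum_le_sum fun l hl => ?_
              rw [← smul_sub, norm_smul]
              refine mul_le_mul_of_nonneg_left ?_ (norm_nonneg _)
              refine ((hW l hl).2).trans ?_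
              refine mul_le_mul_of_nonneg_left ?_ (by positivity)
              exact Real.exp_le_exp.2 (by linarith [hτ l hl])
          _ ≤ 2 ^ Ln n * ((2 * (dm n : ℝ)) ^ w.length *
              (12 * dm n) * b * Real.exp (-(8 * (n : ℝ) ^ 8))) := by
              rw [← Finset.sum_mul]
              exact mul_le_mul_of_nonneg_right (bs_sum n) (by positivity)
          _ = (2 * (dm n : ℝ)) ^ w.length * b * (2 ^ Ln n * (12 * dm n) *
              Real.exp (-(8 * (n : ℝ) ^ 8))) := by ring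
          _ ≤ (2 * (dm n : ℝ)) ^ w.length * b * 1 :=
              mul_le_mul_of_nonneg_left (num3 (by omega)) (by positivity)
          _ ≤ _ := by
              rw [mul_one]
              exact mul_le_mul_of_nonneg_right hR hb
      calc ‖∑ l ∈ Finset.Ico 1 (Ln n + 1), bs n l • T l‖
          = ‖(∑ l ∈ Finset.Ico 1 (Ln n + 1), bs n l • T l -
            ∑ l ∈ Finset.Ico 1 (Ln n + 1), bs n l • Pl l) + -Pl 0‖ := by
            rw [← hmain, sub_add_cancel]
        _ ≤ Rn n ^ w.length * b + 2 * b := by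
            refine (norm_add_le _ _).trans (add_le_add herr ?_)
            rw [norm_neg]
            exact hP0b
        _ ≤ K0 := by
            rw [hK0]
            nlinarith
    calc ‖∫ u in Ioc (0 : ℝ) (ub n), ∑' k, F k u‖
        ≤ ∫ u in Ioc (0 : ℝ) (ub n), g u * K0 :=
          norm_integral_le_of_norm_le (gI.mul_const K0) (hmem.mono fun u hu => hpt u hu)
      _ = (6 * n * Eg) * (Rn n ^ w.length * b) := by
          rw [integral_mul_const, gV, hK0]
          ring
      _ ≤ Real.exp (-(n : ℝ) ^ 2 / 16500) * (Rn n ^ w.length * b) :=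
          mul_le_mul_of_nonneg_right (num2 hn1) (by positivity)
      _ = _ := by ring

end Pool.Agent.HBW
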