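import Pool.Agent.HBW.Stmts
import Pool.Agent.HBW.PHB
import Pool.Agent.HBW.GWD
import Pool.Agent.HBW.GWB
import Pool.Agent.HBW.GWA
import Pool.Agent.HBW.GSR
import Pool.Agent.HBW.GFT
import Pool.Agent.HBW.CCB
import Pool.Agent.HBW.CCI
import Pool.Agent.HBW.CCJ
import Pool.Agent.HBW.CCS
import Pool.Agent.HBW.CR0
import Pool.Agent.HBW.CR1
import Pool.Agent.HBW.CR2
import Pool.Agent.HBW.CRD
import Pool.Agent.HBW.KF0
import Pool.Agent.HBW.KF1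
import Pool.Agent.HBW.RS1
import Pool.Agent.HBW.TYH
import Pool.Agent.HBW.TYE
import Pool.Agent.HBW.IN1
import Pool.Agent.HBW.TH1
import Pool.Agent.HBW.ALB
import Pool.Agent.HBW.ALD
import Pool.Agent.HBW.SMO
import Pool.Agent.HBW.TPX
import Pool.Agent.HBW.TEX
import Pool.Agent.HBW.PO1
import Pool.Agent.HBW.PO3
import Pool.Agent.HBW.PO4
import Pool.Agent.HBW.PO5
import Pool.Agent.HBW.CMX
import Pool.Agent.HBW.WIA
import Pool.Agent.HBW.LLB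
import Pool.Agent.HBW.LLR
import Pool.Agent.HBW.PGR
import Pool.Agent.HBW.LSW
import Pool.Agent.HBW.WIC
import Pool.Agent.HBW.WIE
import Pool.Agent.HBW.WID
import Pool.Agent.HBW.DST
import Pool.Agent.HBW.LIM
import Pool.Agent.HBW.LIN
import Pool.Agent.HBW.SU1
import Pool.Agent.HBW.SU2
import Pool.Agent.HBW.SU3
import Pool.Agent.HBW.ONE
import Pool.Agent.HBW.SUB
import Pool.Agent.HBW.PB1
import Pool.Agent.HBW.PB2
import Pool.Agent.HBW.PB3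
import Pool.Agent.HBW.PB4
import Pool.Agent.HBW.PB5
import Pool.Agent.HBW.PB6
import Pool.Agent.HBW.PFT
import Pool.Agent.HBW.MIN
import Pool.Agent.HBW.FRK
import Pool.Agent.HBW.HAK
import Pool.Agent.HBW.HAC
import Pool.Agent.HBW.HAP
import Pool.Agent.HBW.K2P
import Pool.Agent.HBW.LSK
import Pool.Agent.HBW.SEQ
import Pool.Agent.HBW.DED
import Pool.Agent.HBW.MEA
import Pool.Agent.HBW.INC
import Pool.Agent.HBW.LIC
import Pool.Agent.HBW.FIN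

/-!
Squad HBW: assembly.
-/

set_option autoImplicit false

namespace Pool.Agent.HBW

theorem T_PHB : Stmt_PHB := Pool.Agent.HBW.phb_proof
theorem T_GWD : Stmt_GWD := Pool.Agent.HBW.gwd_proof
theorem T_GWB : Stmt_GWB := Pool.Agent.HBW.gwb_proof T_PHB
theorem T_GWA : Stmt_GWA := Pool.Agent.HBW.gwa_proof
theorem T_GSR : Stmt_GSR := Pool.Agent.HBW.gsr_proof T_GWD T_GWA
theorem T_GFT : Stmt_GFT := Pool.Agent.HBW.gft_proof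
theorem T_CCB : Stmt_CCB := Pool.Agent.HBW.ccb_proof
theorem T_CCI : Stmt_CCI := Pool.Agent.HBW.cci_proof
theorem T_CCJ : Stmt_CCJ := Pool.Agent.HBW.ccj_proof
theorem T_CCS : Stmt_CCS := Pool.Agent.HBW.ccs_proof T_CCI
theorem T_CR0 : Stmt_CR0 := Pool.Agent.HBW.cr0_proof T_GWB T_CCB
theorem T_CR1 : Stmt_CR1 := Pool.Agent.HBW.cr1_proof T_GWB T_GWA
theorem T_CR2 : Stmt_CR2 := Pool.Agent.HBW.cr2_proof T_GWB
theorem T_CRD : Stmt_CRD := Pool.Agent.HBW.crd_proof T_CR0 T_CR1 T_CR2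
theorem T_KF0 : Stmt_KF0 := Pool.Agent.HBW.kf0_proof T_GWD T_GWA T_GWB
theorem T_KF1 : Stmt_KF1 := Pool.Agent.HBW.kf1_proof T_KF0 T_GWD T_GWA T_GWB T_CR1 T_CR0
theorem T_RS1 : Stmt_RS1 := Pool.Agent.HBW.rs1_proof
theorem T_TYH : Stmt_TYH := Pool.Agent.HBW.tyh_proof T_GWB T_CCB T_RS1
theorem T_TYE : Stmt_TYE := Pool.Agent.HBW.tye_proof T_GWB T_RS1 T_CR2
theorem T_IN1 : Stmt_IN1 := Pool.Agent.HBW.in1_proof
theorem T_TH1 : Stmt_TH1 := Pool.Agent.HBW.th1_proof T_IN1 T_PHB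
theorem T_ALB : Stmt_ALB := Pool.Agent.HBW.ALB_proof T_GWB
theorem T_ALD : Stmt_ALD := Pool.Agent.HBW.ald_proof T_TH1 T_IN1 T_ALB
theorem T_SMO : Stmt_SMO := Pool.Agent.HBW.smo_proof
theorem T_TPX : Stmt_TPX := Pool.Agent.HBW.tpx_proof T_SMO
theorem T_TEX : Stmt_TEX := Pool.Agent.HBW.tex_proof T_SMO T_TPX
theorem T_PO1 : Stmt_PO1 := Pool.Agent.HBW.po1_proof T_SMO
theorem T_PO3 : Stmt_PO3 := Pool.Agent.HBW.po3_proof T_SMO T_TEX T_GSR T_GWB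
theorem T_PO4 : Stmt_PO4 := Pool.Agent.HBW.po4_proof T_SMO T_PO1
theorem T_PO5 : Stmt_PO5 := Pool.Agent.HBW.po5_proof T_SMO T_PO1
theorem T_CMX : Stmt_CMX := Pool.Agent.HBW.cmx_proof T_PO3 T_TEX T_IN1 T_CCS T_GSR T_PO1 T_SMO T_ALB
theorem T_WIA : Stmt_WIA := Pool.Agent.HBW.wia_proof T_ALD T_ALB T_CCI T_CCB T_CMX T_TEX T_GSR T_GWA T_IN1
theorem T_LLB : Stmt_LLB := Pool.Agent.HBW.llb_proof T_SMO
theorem T_LLR : Stmt_LLR := Pool.Agent.HBW.llr_proof T_SMO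
theorem T_PGR : Stmt_PGR := Pool.Agent.HBW.pgr_proof T_LLB T_TEX T_PO1 T_SMO
theorem T_LSW : Stmt_LSW := Pool.Agent.HBW.lsw_proof
theorem T_WIC : Stmt_WIC := Pool.Agent.HBW.wic_proof T_WIA T_PO4 T_CR1 T_TEX T_LSW T_PGR T_GWA
theorem T_WIE : Stmt_WIE := Pool.Agent.HBW.wie_proof T_WIA T_PO4 T_CR2 T_TEX T_LSW T_PO1 T_SMO T_GWA
theorem T_WID : Stmt_WID := Pool.Agent.HBW.wid_proof T_WIA T_WIC T_WIE T_PO4 T_PO5 T_PGR T_PO1 T_SMO T_GWA T_CR1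
theorem T_DST : Stmt_DST := Pool.Agent.HBW.dst_proof T_KF0 T_KF1 T_SMO
theorem T_LIM : Stmt_LIM := Pool.Agent.HBW.lim_proof T_WID T_TPX T_LLR T_PGR T_CRD T_LSW T_SMO
theorem T_LIN : Stmt_LIN := Pool.Agent.HBW.lin_proof T_LIM T_LLB T_CRD T_DST
theorem T_SU1 : Stmt_SU1 := Pool.Agent.HBW.su1_proof
theorem T_SU2 : Stmt_SU2 := Pool.Agent.HBW.su2_proof
theorem T_SU3 : Stmt_SU3 := Pool.Agent.HBW.su3_proof T_LSW
theorem T_ONE : Stmt_ONE := Pool.Agent.HBW.one_proof T_LIN T_TYH T_TYE T_SU1 T_SU2 T_SU3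
theorem T_SUB : Stmt_SUB := Pool.Agent.HBW.sub_proof
theorem T_PB1 : Stmt_PB1 := Pool.Agent.HBW.pb1_proof T_SUB T_GSR
theorem T_PB2 : Stmt_PB2 := Pool.Agent.HBW.pb2_proof T_PB1 T_SUB T_GSR
theorem T_PB3 : Stmt_PB3 := Pool.Agent.HBW.pb3_proof T_PB1 T_GSR T_SUB
theorem T_PB4 : Stmt_PB4 := Pool.Agent.HBW.pb4_proof T_PB1 T_SUB T_GSR
theorem T_PB5 : Stmt_PB5 := Pool.Agent.HBW.pb5_proof T_PB1 T_SUB T_GSR
theorem T_PB6 : Stmt_PB6 := Pool.Agent.HBW.pb6_proof T_PB1 T_PB3 T_SUB T_GSR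
theorem T_PFT : Stmt_PFT := Pool.Agent.HBW.pft_proof T_SUB T_PB1 T_GFT T_GSR
theorem T_MIN : Stmt_MIN := Pool.Agent.HBW.min_proof
theorem T_FRK : Stmt_FRK := Pool.Agent.HBW.frk_proof T_GFT T_CCS T_CCJ T_SUB T_MIN T_GWD
theorem T_HAK : Stmt_HAK := Pool.Agent.HBW.hak_proof T_FRK T_PFT T_MIN T_KF0 T_KF1 T_PB1 T_PB2 T_SUB
theorem T_HAC : Stmt_HAC := Pool.Agent.HBW.hac_proof T_PB1 T_PB2 T_PB3 T_PB5
theorem T_HAP : Stmt_HAP := Pool.Agent.HBW.hap_proof T_PB1 T_PB2 T_SUB T_GSR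
theorem T_K2P : Stmt_K2P := Pool.Agent.HBW.k2p_proof T_GWD T_GWB T_GWA T_CCS T_CCB T_KF0
theorem T_LSK : Stmt_LSK := Pool.Agent.HBW.lsk_proof T_CRD T_LSW T_KF0 T_KF1 T_K2P T_PB1 T_PB2 T_PB6
theorem T_SEQ : Stmt_SEQ := Pool.Agent.HBW.seq_proof T_ONE T_SMO T_KF0 T_KF1
theorem T_DED : Stmt_DED := Pool.Agent.HBW.ded_proof
theorem T_MEA : Stmt_MEA := Pool.Agent.HBW.mea_proof T_DED
theorem T_INC : Stmt_INC := Pool.Agent.HBW.inc_proof T_LSK T_PB5 T_PB2 T_HAK T_HAC T_SMO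
theorem T_LIC : Stmt_LIC := Pool.Agent.HBW.lic_proof T_SMO
theorem T_FIN : Stmt_FIN := Pool.Agent.HBW.fin_proof T_SEQ T_MEA T_INC T_LIC T_HAC T_HAP T_PB1 T_PB2

end Pool.Agent.HBW
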