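import Pool.Agent.HBW.Defs

/-!
The core theorem of Part I (statement).
-/

set_option autoImplicit false

namespace Pool.Agent.HBW

open MeasureTheory Set Filter Topology
open scoped ENNReal Real

/-- the unit cube -/
def Wd (D : ℕ) : Set (P D) := {x | ∀ i, x i ∈ Ioo (0 : ℝ) 1}

/-- CORE THEOREM (Part I) -/
def Stmt_CORE : Prop := ∃ D : ℕ, 2 ≤ D ∧
  ∀ (X : Type) [NormedAddCommGroup X] [NormedSpace ℝ X] [FiniteDimensional ℝ X]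
    (A : Fin D → (X →L[ℝ] X)), Cliff A → ∀ ε > 0, ∃ B : ℝ, 0 < B ∧
  ∀ N : ℕ, 1 ≤ N → ∀ (x0 : P D) (e : X), ‖e‖ ≤ 1 → ∃ f : P D → X,
    ContDiff ℝ 6 f ∧
    (∀ w : List (Fin D), w.length ≤ 6 → ∀ x, ‖pdw w f x‖ ≤ B * (N : ℝ) ^ w.length) ∧
    Hardy A f ∧
    volume {x | x ∈ Wd D ∧ f x ≠ 0} ≤ ENNReal.ofReal ε ∧
    ‖Poi f x0 (1 / N) - Real.exp (-1) • e‖ ≤ 1 / 10 ∧
    ∀ x, ∀ y > 0, ‖Poi f x y‖ ≤ B / (N * y)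

end Pool.Agent.HBW
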