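import Mathlib

/-!
Squad HBW (Part I of the disproof of Q1 of MP_71cfa6_an): definitions.
High dimensional Bourgain-Wolff type construction for the Dirac operator.
-/

set_option autoImplicit false

namespace Pool.Agent.HBW

open MeasureTheory Set Filter Topology
open scoped ENNReal Real

noncomputable section

/-- the space `ℝ^D` (sup norm, Lebesgue measure) -/
abbrev P (D : ℕ) := Fin D → ℝ

/-- the lattice `ℤ^D` -/
abbrev Z (D : ℕ) := Fin D → ℤ

variable {D : ℕ} {X : Type} [NormedAddCommGroup X] [NormedSpace ℝ X]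

/-- lattice points as points of `ℝ^D` -/
def zr (k : Z D) : P D := fun i => (k i : ℝ)

/-- partial derivative -/
def pd (i : Fin D) (f : P D → X) : P D → X := fun x => fderiv ℝ f x (Pi.single i 1)

/-- iterated partial derivatives along a word -/
def pdw : List (Fin D) → (P D → X) → (P D → X)
  | [], f => f
  | i :: w, f => pd i (pdw w f)

/-- Clifford module structure -/
structure Cliff (A : Fin D → (X →L[ℝ] X)) : Prop where
  nrm : ∀ i, ‖A i‖ ≤ 1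
  sq : ∀ i x, A i (A i x) = -x
  anti : ∀ i j, i ≠ j → ∀ x, A i (A j x) = -A j (A i x)

/-- the Dirac operator in the horizontal variables -/
def DD (A : Fin D → (X →L[ℝ] X)) (f : P D → X) : P D → X := fun x => ∑ i, A i (pd i f x)

/-- the Laplace operator -/
def Lap (f : P D → X) : P D → X := fun x => ∑ i, pd i (pd i f) x

/-! ### Gaussians -/

/-- complex one dimensional Gaussian `(πζ)^{-1/2} exp(-x²/ζ)` -/
def phc (ζ x : ℂ) : ℂ := ((π : ℂ) * ζ) ^ (-(1 / 2) : ℂ) * Complex.exp (-x ^ 2 / ζ)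

/-- the derivative along the word `w` of the `D`-dimensional Gaussian with complex parameter -/
def gw (w : List (Fin D)) (ζ : ℂ) (z : P D) : ℂ :=
  ∏ i, iteratedDeriv (w.count i) (phc ζ) (z i : ℂ)

/-- the same for real parameter, as a real number -/
def gr (w : List (Fin D)) (τ : ℝ) (z : P D) : ℝ := (gw w (τ : ℂ) z).re

/-- monomial along a word -/
def mon (v : List (Fin D)) (x : P D) : ℝ := (v.map x).prod

/-! ### the operators `cosh(ω|∇|)` and `sinh(ω|∇|)/|∇|` on functions of the heat time -/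

def Pc (ω : ℝ) (x : ℂ) : ℂ :=
  ∑' r : ℕ, (ω : ℂ) ^ (2 * r) * (-4) ^ r * (r.factorial : ℂ) / ((2 * r).factorial : ℂ) *
    (x ^ (r + 1))⁻¹

def Ps (ω : ℝ) (x : ℂ) : ℂ :=
  ∑' r : ℕ, (ω : ℂ) ^ (2 * r + 1) * (-4) ^ r * (r.factorial : ℂ) / ((2 * r + 1).factorial : ℂ) *
    (x ^ (r + 1))⁻¹

/-- `∑ ω^{2r} (-4)^r / (2r)! g^{(r)}(τ)` as a circle integral over `|ζ - τ| = τ / 2` -/
def cc (ω τ : ℝ) (g : ℂ → ℂ) : ℂ :=
  (2 * (π : ℂ) * Complex.I)⁻¹ * ∮ ζ in C((τ : ℂ), τ / 2), Pc ω (ζ - τ) * g ζ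

/-- `∑ ω^{2r+1} (-4)^r / (2r+1)! g^{(r)}(τ)` -/
def cs (ω τ : ℝ) (g : ℂ → ℂ) : ℂ :=
  (2 * (π : ℂ) * Complex.I)⁻¹ * ∮ ζ in C((τ : ℂ), τ / 2), Ps ω (ζ - τ) * g ζ

/-- the weight `(πu)^{-1/2} exp(-ω²/4u)` -/
def Wf (ω u : ℝ) : ℝ := (Real.sqrt (π * u))⁻¹ * Real.exp (-ω ^ 2 / (4 * u))

/-! ### parameters -/

/-- the dimension `D = n⁴` (also the number `M` of derivatives and the subdivision number `T`) -/
def dm (n : ℕ) : ℕ := n ^ 4
/-- order of the moment condition -/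
def Ln (n : ℕ) : ℕ := 4 * n ^ 4
/-- heat time step `D²` -/
def um (n : ℕ) : ℝ := (n : ℝ) ^ 8
def t0 : ℝ := 1 / 100
def om (n : ℕ) : ℝ := (n : ℝ) ^ 2 / 64
def ub (n : ℕ) : ℝ := (n : ℝ) ^ 2
/-- derivative normalisation `R = D³` -/
def Rn (n : ℕ) : ℝ := (n : ℝ) ^ 12
/-- `δ = R / ρ` -/
def dl (n : ℕ) : ℝ := (n : ℝ) ^ 8 / 2 ^ n
/-- near radius -/
def rn (n : ℕ) : ℕ := 2 ^ ((n + 1) / 2)
/-- scale ratio `ρ = T S`, `S = 2^n` -/
def rho (n : ℕ) : ℕ := n ^ 4 * 2 ^ n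
/-- heat times `τ₀ + 4 l u_m` -/
def tl (n l : ℕ) : ℝ := t0 + 4 * l * um n
/-- binomial signs -/
def bs (n l : ℕ) : ℝ := (-1) ^ l * ((Ln n).choose l : ℝ)

/-! ### kernels -/

/-- scalar part of the kernel (derivative along the word `w`) -/
def K0 (n : ℕ) (w : List (Fin (dm n))) (z : P (dm n)) : ℝ :=
  ∑ l ∈ Finset.range (Ln n + 1), bs n l * (cc (om n) (tl n l) (fun ζ => gw w ζ z)).re

/-- potential of the vector part -/
def K1 (n : ℕ) (w : List (Fin (dm n))) (z : P (dm n)) : ℝ :=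
  (∑ l ∈ Finset.range (Ln n + 1), bs n l * (cs (om n) (tl n l) (fun ζ => gw w ζ z)).re) +
  ∫ u in Ioi (0 : ℝ), Wf (om n) u *
    ∑ l ∈ Finset.range (Ln n + 1), bs n l * gr w (tl n l + 4 * u) z

/-- typical parts -/
def T0 (n : ℕ) (w : List (Fin (dm n))) (z : P (dm n)) : ℝ :=
  (cc (om n) t0 (fun ζ => gw w ζ z)).re
def T1a (n : ℕ) (w : List (Fin (dm n))) (z : P (dm n)) : ℝ :=
  (cs (om n) t0 (fun ζ => gw w ζ z)).re
def T1b (n : ℕ) (w : List (Fin (dm n))) (z : P (dm n)) : ℝ :=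
  ∫ u in Ioc (0 : ℝ) (ub n), Wf (om n) u * gr w (t0 + 4 * u) z

/-- wide parts -/
def W0 (n : ℕ) (w : List (Fin (dm n))) (z : P (dm n)) : ℝ := K0 n w z - T0 n w z
def W1 (n : ℕ) (w : List (Fin (dm n))) (z : P (dm n)) : ℝ := K1 n w z - T1a n w z - T1b n w z

/-- the vector valued kernel applied to `c` -/
def kap (n : ℕ) (A : Fin (dm n) → (X →L[ℝ] X)) (c : X) (z : P (dm n)) : X :=
  K0 n [] z • c + ∑ i, K1 n [i] z • A i c

/-! ### the inverse operator `𝓛` -/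

/-- coefficients of `exp(-ω t + τ t² / 4)` -/
def bq (ω τ : ℝ) (q : ℕ) : ℝ :=
  ∑ l ∈ Finset.range (q / 2 + 1), (-ω) ^ (q - 2 * l) * (τ / 4) ^ l /
    ((q - 2 * l).factorial * l.factorial)

/-- `𝓛 F = ∑_{q < M} b_q 𝒟^q F` -/
def LL (n : ℕ) (A : Fin (dm n) → (X →L[ℝ] X)) (F : P (dm n) → X) : P (dm n) → X :=
  fun x => ∑ q ∈ Finset.range (dm n), bq (om n) t0 q • ((DD A)^[q] F) x

/-! ### cubes (scaled coordinates) -/

/-- closed parent cube of side `2^n` -/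
def Pb (n : ℕ) (p : Z (dm n)) : Set (P (dm n)) :=
  {z | ∀ i, (p i : ℝ) * 2 ^ n ≤ z i ∧ z i ≤ ((p i : ℝ) + 1) * 2 ^ n}

/-- closed child cube of side `1 / D` -/
def Cb (n : ℕ) (q : Z (dm n)) : Set (P (dm n)) :=
  {z | ∀ i, (q i : ℝ) / dm n ≤ z i ∧ z i ≤ ((q i : ℝ) + 1) / dm n}

/-- parent of a lattice point -/
def pr (n : ℕ) (k : Z (dm n)) : Z (dm n) := fun i => k i / 2 ^ n

/-- parent of a child -/
def pc (n : ℕ) (q : Z (dm n)) : Z (dm n) := fun i => q i / (rho n : ℤ)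

/-- lattice points of a finite set of parents -/
def ZA (n : ℕ) (A : Finset (Z (dm n))) : Finset (Z (dm n)) :=
  A.biUnion fun p => Fintype.piFinset fun i => Finset.Ico (p i * 2 ^ n) ((p i + 1) * 2 ^ n)

/-- children of a finite set of parents -/
def chd (n : ℕ) (A : Finset (Z (dm n))) : Finset (Z (dm n)) :=
  A.biUnion fun p => Fintype.piFinset fun i =>
    Finset.Ico (p i * (rho n : ℤ)) ((p i + 1) * (rho n : ℤ))

/-- the child `q` and the parent `p` are within distance `r` -/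
def nrp (n : ℕ) (q p : Z (dm n)) : Prop :=
  ∃ z ∈ Cb n q, ∃ y ∈ Pb n p, ‖z - y‖ ≤ (rn n : ℝ)

/-- good child: all parents within distance `r` belong to `A` -/
def GC (n : ℕ) (A : Finset (Z (dm n))) (q : Z (dm n)) : Prop := ∀ p, nrp n q p → p ∈ A

/-- the lattice point `k` is near the child `q` -/
def nrk (n : ℕ) (q k : Z (dm n)) : Prop := ∀ i, |(q i : ℝ) / dm n - k i| ≤ (rn n : ℝ) - 1

/-- decay weight -/
def wt (n : ℕ) (q k : Z (dm n)) : ℝ := (1 + ‖(fun i => (q i : ℝ) / dm n - k i : P (dm n))‖) ^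
  (-(4 * (dm n : ℤ)))

/-- one step of the construction -/
def stp (n : ℕ) (A : Fin (dm n) → (X →L[ℝ] X)) (S : Finset (Z (dm n))) (F : P (dm n) → X) :
    P (dm n) → X :=
  fun z => F z + ∑ k ∈ ZA n S, kap n A (LL n A F (zr k)) (z - zr k)

/-- `exp(-n⁵/16)`: bound of all super small errors -/
def ep (n : ℕ) : ℝ := Real.exp (-(n : ℝ) ^ 5 / 16)
/-- size of the typical errors -/
def th (n : ℕ) : ℝ := Real.exp (-(n : ℝ) ^ 2 / 17000)
/-- gain per step -/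
def thh (n : ℕ) : ℝ := Real.exp (-(n : ℝ) ^ 2 / 40000)

/-! ### Poisson extension -/

/-- real Gaussian `(πτ)^{-D/2} exp(-|x|²/τ)` -/
def gs (τ : ℝ) (x : P D) : ℝ := (Real.sqrt (π * τ))⁻¹ ^ D * Real.exp (-(∑ i, x i ^ 2) / τ)

/-- heat extension -/
def ht (u : ℝ) (f : P D → X) (x : P D) : X := ∫ y, gs (4 * u) (x - y) • f y

/-- Levy density -/
def lev (y u : ℝ) : ℝ :=
  y / (2 * Real.sqrt π) * u ^ (-(3 / 2) : ℝ) * Real.exp (-y ^ 2 / (4 * u))

/-- Poisson extension -/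
def Poi (f : P D → X) (x : P D) (y : ℝ) : X := ∫ u in Ioi (0 : ℝ), lev y u • ht u f x

/-- bounded derivatives up to order `k` -/
structure BC (k : ℕ) (B : ℝ) (f : P D → X) : Prop where
  sm : ContDiff ℝ k f
  bd : ∀ w : List (Fin D), w.length ≤ k → ∀ x, ‖pdw w f x‖ ≤ B

/-- `f` is the boundary value of a function with `(∂_y + 𝒟) v = 0` (for `f` in `BC 1`) -/
def Hardy (A : Fin D → (X →L[ℝ] X)) (f : P D → X) : Prop :=
  ∀ x, ∀ y > 0, HasDerivAt (fun s => Poi f x s) (-(Poi (DD A f) x y)) y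

end

end Pool.Agent.HBW
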