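import Pool.Agent.HBW.Stmts

/-!
Squad HBW, module FIN: the core theorem.
-/

set_option autoImplicit false

namespace Pool.Agent.HBW

open MeasureTheory Set Filter Topology
open scoped ENNReal Real

namespace FIN_

variable {D : ℕ} {X : Type} [NormedAddCommGroup X] [NormedSpace ℝ X]

theorem pdw_neg (w : List (Fin D)) (f : P D → X) :
    pdw w (fun x => - f x) = fun x => - pdw w f x := by
  induction w with
  | nil => rfl
  | cons i w ih =>
    show pd i (pdw w (fun x => - f x)) = _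
    rw [ih]
    funext x
    show (fderiv ℝ (fun x => - pdw w f x) x) (Pi.single i 1) = _
    rw [fderiv_fun_neg]
    rfl

theorem pd_contDiff (i : Fin D) (f : P D → X) (k : ℕ) (hf : ContDiff ℝ ((k + 1 : ℕ) : WithTop ℕ∞) f) :
    ContDiff ℝ (k : WithTop ℕ∞) (pd i f) := by
  have h1 : ContDiff ℝ (k : WithTop ℕ∞) (fderiv ℝ f) :=
    hf.fderiv_right (by push_cast; exact le_rfl)
  exact h1.clm_apply contDiff_const

theorem pdw_contDiff (w : List (Fin D)) (f : P D → X) (k : ℕ)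
    (hf : ContDiff ℝ ((k + w.length : ℕ) : WithTop ℕ∞) f) :
    ContDiff ℝ (k : WithTop ℕ∞) (pdw w f) := by
  induction w generalizing k with
  | nil => simpa [pdw] using hf
  | cons i w ih =>
    apply pd_contDiff
    apply ih
    have e : k + 1 + w.length = k + (i :: w).length := by
      simp only [List.length_cons]; omega
    rw [e]; exact hf

theorem pdw_add (w : List (Fin D)) (f g : P D → X) (k : ℕ) (hk : w.length ≤ k)
    (hf : ContDiff ℝ (k : WithTop ℕ∞) f) (hg : ContDiff ℝ (k : WithTop ℕ∞) g) :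
    pdw w (fun x => f x + g x) = fun x => pdw w f x + pdw w g x := by
  induction w with
  | nil => rfl
  | cons i w ih =>
    have hk' : w.length + 1 ≤ k := by simpa using hk
    show pd i (pdw w (fun x => f x + g x)) = _
    rw [ih (by omega)]
    funext x
    show (fderiv ℝ (fun x => pdw w f x + pdw w g x) x) (Pi.single i 1) = _
    have h1 : ContDiff ℝ ((1 : ℕ) : WithTop ℕ∞) (pdw w f) :=
      pdw_contDiff w f 1 (hf.of_le (by exact_mod_cast (by omega : 1 + w.length ≤ k)))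
    have h2 : ContDiff ℝ ((1 : ℕ) : WithTop ℕ∞) (pdw w g) :=
      pdw_contDiff w g 1 (hg.of_le (by exact_mod_cast (by omega : 1 + w.length ≤ k)))
    rw [fderiv_fun_add (h1.differentiable (by norm_num) x) (h2.differentiable (by norm_num) x)]
    rfl

/-- the numerical part: sums of the increments -/
theorem geo {r c : ℝ} (hr0 : 0 ≤ r) (hr : r ≤ 1 / 2) (hc : 0 ≤ c) :
    Summable (fun j : ℕ => c * r ^ j) ∧ ∑' j : ℕ, c * r ^ j ≤ 2 * c := by
  have h1 : r < 1 := by linarith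
  have hs : Summable (fun j : ℕ => r ^ j) := summable_geometric_of_lt_one hr0 h1
  refine ⟨hs.mul_left c, ?_⟩
  rw [tsum_mul_left, tsum_geometric_of_lt_one hr0 h1]
  have h2 : (1 - r)⁻¹ ≤ 2 := by
    rw [inv_le_comm₀ (by linarith) (by norm_num)]
    linarith
  nlinarith

theorem rho_ge (n : ℕ) (hn : 2 ≤ n) : 2 ≤ rho n := by
  unfold rho
  have h1 : 2 ^ 1 ≤ 2 ^ n := Nat.pow_le_pow_right (by norm_num) (by omega)
  have h2 : 1 ≤ n ^ 4 := Nat.one_le_pow _ _ (by omega)
  calc 2 = 1 * 2 ^ 1 := by norm_num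
    _ ≤ n ^ 4 * 2 ^ n := Nat.mul_le_mul h2 h1

theorem lam_pos (n : ℕ) (hn : 2 ≤ n) : 0 < lam n := by
  unfold lam
  have : (0 : ℝ) < rho n := by
    have := rho_ge n hn
    exact_mod_cast (by omega : 0 < rho n)
  positivity

theorem lam_rho (n : ℕ) (hn : 2 ≤ n) (k : ℕ) (hk : k ≤ 7) :
    lam n * (rho n : ℝ) ^ k ≤ 1 / 2 := by
  have h2 : (2 : ℝ) ≤ rho n := by exact_mod_cast rho_ge n hn
  have h0 : (0 : ℝ) < rho n := by linarith
  unfold lam
  have h3 : (rho n : ℝ) ^ k ≤ (rho n : ℝ) ^ 7 := pow_le_pow_right₀ (by linarith) hk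
  have h4 : ((rho n : ℝ) ^ 8)⁻¹ * (rho n : ℝ) ^ 7 = (rho n : ℝ)⁻¹ := by
    field_simp
  calc ((rho n : ℝ) ^ 8)⁻¹ * (rho n : ℝ) ^ k ≤ ((rho n : ℝ) ^ 8)⁻¹ * (rho n : ℝ) ^ 7 :=
        mul_le_mul_of_nonneg_left h3 (by positivity)
    _ = (rho n : ℝ)⁻¹ := h4
    _ ≤ 1 / 2 := by
        rw [inv_le_comm₀ h0 (by norm_num)]
        norm_num
        exact rho_ge n hn

/-- the majorant of the increments -/
noncomputable def bb (n N0 : ℕ) (C B0 : ℝ) (k j : ℕ) : ℝ :=
  C * B0 * lam n ^ j * (Nj n N0 (j + 1) : ℝ) ^ k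

theorem bb_eq (n N0 : ℕ) (C B0 : ℝ) (k j : ℕ) :
    bb n N0 C B0 k j = (C * B0 * ((N0 : ℝ) * rho n) ^ k) * (lam n * (rho n : ℝ) ^ k) ^ j := by
  unfold bb Nj
  push_cast
  rw [mul_pow (lam n), mul_pow (N0 : ℝ), mul_pow (N0 : ℝ)]
  rw [← pow_mul, ← pow_mul]
  have : (j + 1) * k = k + k * j := by ring
  rw [this, pow_add]
  ring

theorem bb_sum (n N0 : ℕ) (C B0 : ℝ) (k : ℕ) (hn : 2 ≤ n) (hk : k ≤ 7) (hC : 0 ≤ C)
    (hB : 0 ≤ B0) : Summable (bb n N0 C B0 k) ∧
    ∑' j, bb n N0 C B0 k j ≤ 2 * (C * B0 * ((N0 : ℝ) * rho n) ^ k) := by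
  have e : bb n N0 C B0 k = fun j => (C * B0 * ((N0 : ℝ) * rho n) ^ k) *
      (lam n * (rho n : ℝ) ^ k) ^ j := by
    funext j
    exact bb_eq n N0 C B0 k j
  rw [e]
  apply geo
  · have := lam_pos n hn
    positivity
  · exact lam_rho n hn k hk
  · positivity

theorem bb_nonneg (n N0 : ℕ) (C B0 : ℝ) (k j : ℕ) (hn : 2 ≤ n) (hC : 0 ≤ C)
    (hB : 0 ≤ B0) : 0 ≤ bb n N0 C B0 k j := by
  unfold bb
  have := lam_pos n hn
  positivity

theorem tail (n N0 : ℕ) (C B0 : ℝ) (k : ℕ) : Tendsto (fun j => ∑' i, bb n N0 C B0 k (i + j)) atTop (𝓝 0) :=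
  tendsto_sum_nat_add (bb n N0 C B0 k)

/-- sum of the decay factors -/
theorem dec_sum (n N0 : ℕ) (C B0 y : ℝ) (hn : 2 ≤ n) (hN : 1 ≤ N0) (hC : 0 ≤ C) (hB : 0 ≤ B0)
    (hy : 0 < y) (m : ℕ) :
    ∑ j ∈ Finset.range m, C * B0 * lam n ^ j / (Nj n N0 (j + 1) * y) ≤ C * B0 / (N0 * y) := by
  have h2 : (2 : ℝ) ≤ rho n := by exact_mod_cast rho_ge n hn
  have h0 : (0 : ℝ) < rho n := by linarith
  have hN0 : (0 : ℝ) < N0 := by exact_mod_cast hN
  have hl := lam_pos n hn
  have hl1 : lam n ≤ 1 := by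
    have := lam_rho n hn 0 (by norm_num)
    simp at this
    linarith
  have hstep : ∀ j ∈ Finset.range m, C * B0 * lam n ^ j / (Nj n N0 (j + 1) * y) ≤
      (C * B0 / (N0 * y)) * (1 / 2) ^ (j + 1) := by
    intro j _
    unfold Nj
    push_cast
    have h3 : lam n ^ j ≤ 1 := pow_le_one₀ hl.le hl1
    have h4 : (2 : ℝ) ^ (j + 1) ≤ (rho n : ℝ) ^ (j + 1) := pow_le_pow_left₀ (by norm_num) h2 _
    have h5 : (0 : ℝ) < (2 : ℝ) ^ (j + 1) := by positivity
    calc C * B0 * lam n ^ j / ((N0 : ℝ) * (rho n : ℝ) ^ (j + 1) * y)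
        ≤ C * B0 * 1 / ((N0 : ℝ) * (2 : ℝ) ^ (j + 1) * y) := by
          gcongr
      _ = (C * B0 / (N0 * y)) * (1 / 2) ^ (j + 1) := by
          rw [one_div, inv_pow]
          field_simp
  refine (Finset.sum_le_sum hstep).trans ?_
  rw [← Finset.mul_sum]
  have h6 : ∑ j ∈ Finset.range m, ((1 : ℝ) / 2) ^ (j + 1) ≤ 1 := by
    have : ∀ m : ℕ, ∑ j ∈ Finset.range m, ((1 : ℝ) / 2) ^ (j + 1) = 1 - (1 / 2) ^ m := by
      intro m
      induction m with
      | zero => simp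
      | succ m ih => rw [Finset.sum_range_succ, ih, pow_succ]; ring
    rw [this m]
    have : (0 : ℝ) ≤ (1 / 2) ^ m := by positivity
    linarith
  have h7 : 0 ≤ C * B0 / (N0 * y) := by positivity
  nlinarith

end FIN_

open FIN_

theorem fin_proof (hSEQ : Stmt_SEQ) (hMEA : Stmt_MEA) (hINC : Stmt_INC) (hLIC : Stmt_LIC)
    (hHAC : Stmt_HAC) (hHAP : Stmt_HAP) (hPB1 : Stmt_PB1) (hPB2 : Stmt_PB2) : Stmt_FIN := by
  obtain ⟨n1, hSEQ⟩ := hSEQ
  obtain ⟨n2, hMEA⟩ := hMEA
  obtain ⟨n, hn1, hn2, hn⟩ : ∃ n : ℕ, n1 ≤ n ∧ n2 ≤ n ∧ 2 ≤ n :=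
    ⟨max n1 (max n2 2), le_max_left _ _, (le_max_left _ _).trans (le_max_right _ _),
      (le_max_right _ _).trans (le_max_right _ _)⟩
  have hdm : 2 ≤ dm n := by
    unfold dm
    calc 2 ≤ 2 ^ 4 := by norm_num
      _ ≤ n ^ 4 := Nat.pow_le_pow_left hn 4
  obtain ⟨C, hC, hINC⟩ := hINC n hn
  refine ⟨dm n, hdm, ?_⟩
  intro X _ _ _ A hA ε hε
  set B0 : ℝ := (8 / ε) ^ 2 + 2 with hB0
  have hB02 : 2 ≤ B0 := by rw [hB0]; nlinarith [sq_nonneg (8 / ε)]
  have hB0p : 0 < B0 := by linarith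
  have hsq : 4 / Real.sqrt B0 ≤ ε / 2 := by
    have h1 : 8 / ε ≤ Real.sqrt B0 := by
      apply Real.le_sqrt_of_sq_le
      rw [hB0]; linarith
    have h2 : 0 < 8 / ε := by positivity
    calc 4 / Real.sqrt B0 ≤ 4 / (8 / ε) := by gcongr
      _ = ε / 2 := by field_simp; norm_num
  have h2r : (2 : ℝ) ≤ rho n := by exact_mod_cast rho_ge n hn
  have h0r : (0 : ℝ) < rho n := by linarith
  obtain ⟨m0, hm0⟩ := exists_nat_ge (max (8 * dm n * ((rn n : ℝ) + 2) / (rho n * ε) + 1) (10 * (C * B0)))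
  have hm1 : 8 * dm n * ((rn n : ℝ) + 2) / (rho n * ε) + 1 ≤ m0 := (le_max_left _ _).trans hm0
  have hm2 : 10 * (C * B0) ≤ m0 := (le_max_right _ _).trans hm0
  have hmpos : (1 : ℝ) ≤ m0 := by
    have : 0 ≤ 8 * dm n * ((rn n : ℝ) + 2) / (rho n * ε) := by positivity
    linarith
  have hmpos' : 1 ≤ m0 := by exact_mod_cast hmpos
  have hm0p : (0 : ℝ) < m0 := by linarith
  refine ⟨2 + 2 * (C * B0 * ((m0 : ℝ) * rho n) ^ 6), by positivity, ?_⟩
  intro N hN x0 e he
  have hNp : (0 : ℝ) < N := by exact_mod_cast hN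
  have hN1 : (1 : ℝ) ≤ N := by exact_mod_cast hN
  set N0 : ℕ := m0 * N with hN0
  have hN0' : (N0 : ℝ) = m0 * N := by rw [hN0]; push_cast; rfl
  have hN01 : 1 ≤ N0 := Nat.one_le_iff_ne_zero.mpr (Nat.mul_ne_zero (by omega) (by omega))
  have hN0p : (0 : ℝ) < N0 := by exact_mod_cast hN01
  have hNle : (N : ℝ) ≤ N0 := by rw [hN0']; nlinarith
  let i0 : Fin (dm n) := ⟨0, by omega⟩
  obtain ⟨hf0s, hf0b, hf0H, hf0P⟩ := hHAP (dm n) X A i0 N x0 e hA hNp he
  obtain ⟨f, S, a, hc, hf0⟩ := hSEQ n hn1 X A N0 B0 (pw A i0 N x0 e) hA hN01 hB02 hf0s (by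
    intro w _ x
    refine (hf0b w x).trans ?_
    gcongr)
  have hBC0 : ∃ B, BC 1 B (f 0) := by
    refine ⟨2 * N, ?_, ?_⟩
    · rw [hf0]
      exact hf0s.of_le (by exact_mod_cast le_top)
    · intro w hw x
      rw [hf0]
      refine (hf0b w x).trans ?_
      have : (N : ℝ) ^ w.length ≤ (N : ℝ) ^ 1 := pow_le_pow_right₀ hN1 hw
      rw [pow_one] at this
      linarith
  have hH0 : Hardy A (f 0) := by rw [hf0]; exact hf0H
  have hI := hINC X A N0 B0 f S a hA hN01 hB02 hc hBC0 hH0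
  have hCn : 0 ≤ C := hC.le
  obtain ⟨g, hg6, hgb⟩ := hLIC (dm n) X f (bb n N0 C B0) hc.sm (fun j w hw x => (hI j).1 w hw x)
    (fun k hk => (bb_sum n N0 C B0 k hn hk hCn hB0p.le).1)
  have hBCj : ∀ j, ∃ B, BC 1 B (f j) := fun j => (hI j).2.2.2
  have hHj : ∀ j, Hardy A (f j) := fun j => (hI j).2.2.1
  have hfc : ∀ j, Continuous (f j) := fun j => (hc.sm j).continuous
  have hgc : Continuous g := hg6.continuous
  have hg0 : ∀ j x, ‖g x - f j x‖ ≤ ∑' i, bb n N0 C B0 0 (i + j) := by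
    intro j x
    exact hgb j [] (by simp) x
  have hT0 := tail n N0 C B0 0
  have hT1 := tail n N0 C B0 1
  have htn : ∀ k j, 0 ≤ ∑' i, bb n N0 C B0 k (i + j) := fun k j =>
    tsum_nonneg fun i => bb_nonneg n N0 C B0 k _ hn hCn hB0p.le
  -- Poisson extension of the limit
  have hPoi : ∀ x, ∀ y > 0, ‖Poi g x y - Poi (f 0) x y‖ ≤ C * B0 / (N0 * y) := by
    intro x y hy
    have hsum : ∀ j, Poi (f j) x y = Poi (f 0) x y +
        ∑ i ∈ Finset.range j, Poi (fun z => f (i + 1) z - f i z) x y := by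
      intro j
      induction j with
      | zero => simp
      | succ j ih =>
        obtain ⟨B1, hB1⟩ := hBCj j
        obtain ⟨B2, hB2⟩ := hBCj (j + 1)
        have b1 : ∀ z, ‖f j z‖ ≤ B1 := fun z => hB1.bd [] (by simp) z
        have b2 : ∀ z, ‖f (j + 1) z‖ ≤ B2 := fun z => hB2.bd [] (by simp) z
        have b10 : 0 ≤ B1 := (norm_nonneg _).trans (b1 0)
        have b20 : 0 ≤ B2 := (norm_nonneg _).trans (b2 0)
        have h := (hPB2 (dm n) X (f j) (fun z => f (j + 1) z - f j z) (B1 + B2 + B1) (hfc j)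
          ((hfc (j + 1)).sub (hfc j)) (fun z => (b1 z).trans (by linarith))
          (fun z => (norm_sub_le _ _).trans (by have := b1 z; have := b2 z; linarith)) y hy x).1
        have e1 : (fun z => f j z + (f (j + 1) z - f j z)) = f (j + 1) := by
          funext z; abel
        rw [e1] at h
        rw [h, ih, Finset.sum_range_succ, add_assoc]
    have hj : ∀ j, ‖Poi g x y - Poi (f 0) x y‖ ≤
        ∑' i, bb n N0 C B0 0 (i + j) + C * B0 / (N0 * y) := by
      intro j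
      obtain ⟨B1, hB1⟩ := hBCj j
      have b1 : ∀ z, ‖f j z‖ ≤ B1 := fun z => hB1.bd [] (by simp) z
      have b10 : 0 ≤ B1 := (norm_nonneg _).trans (b1 0)
      have hd : Continuous (fun z => g z - f j z) := hgc.sub (hfc j)
      have h := (hPB2 (dm n) X (f j) (fun z => g z - f j z)
        (B1 + ∑' i, bb n N0 C B0 0 (i + j)) (hfc j)
        hd (fun z => (b1 z).trans (by have := htn 0 j; linarith))
        (fun z => (hg0 j z).trans (by linarith)) y hy x).1
      have e1 : (fun z => f j z + (g z - f j z)) = g := by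
        funext z; abel
      rw [e1] at h
      have h1 := ((hPB1 (dm n) X (fun z => g z - f j z) _ hd (hg0 j)).2.1 y hy x).2
      rw [h, hsum j]
      have e2 : Poi (f 0) x y + ∑ i ∈ Finset.range j, Poi (fun z => f (i + 1) z - f i z) x y +
          Poi (fun z => g z - f j z) x y - Poi (f 0) x y =
          Poi (fun z => g z - f j z) x y +
          ∑ i ∈ Finset.range j, Poi (fun z => f (i + 1) z - f i z) x y := by abel
      rw [e2]
      refine (norm_add_le _ _).trans (add_le_add h1 ?_)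
      refine (norm_sum_le _ _).trans ?_
      refine (Finset.sum_le_sum fun i _ => (hI i).2.1 x y hy).trans ?_
      exact dec_sum n N0 C B0 y hn hN01 hCn hB0p.le hy j
    have hlim : Tendsto (fun j => ∑' i, bb n N0 C B0 0 (i + j) + C * B0 / (N0 * y)) atTop
        (𝓝 (0 + C * B0 / (N0 * y))) := hT0.add_const _
    rw [zero_add] at hlim
    exact ge_of_tendsto' hlim hj
  refine ⟨g, hg6, ?_, ?_, ?_, ?_, ?_⟩
  · -- derivative bounds
    intro w hw x
    have e1 : g = fun x => (g x - f 0 x) + f 0 x := by funext x; abel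
    have hf06 : ContDiff ℝ ((6 : ℕ) : WithTop ℕ∞) (f 0) :=
      (hc.sm 0).of_le (WithTop.coe_le_coe.2 (le_top : ((6 : ℕ) : ℕ∞) ≤ ⊤))
    have hg6' : ContDiff ℝ ((6 : ℕ) : WithTop ℕ∞) g := hg6
    have e2 := pdw_add w (fun x => g x - f 0 x) (f 0) 6 hw (hg6'.sub hf06) hf06
    have e3 : pdw w g x = pdw w (fun x => g x - f 0 x) x + pdw w (f 0) x := by
      have : pdw w g = fun x => pdw w (fun x => g x - f 0 x) x + pdw w (f 0) x := by
        rw [← e2, ← e1]
      rw [this]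
    rw [e3]
    have h1 := hgb 0 w hw x
    have h2 : ‖pdw w (f 0) x‖ ≤ 2 * (N : ℝ) ^ w.length := by rw [hf0]; exact hf0b w x
    have h3 := (bb_sum n N0 C B0 w.length hn (by omega) hCn hB0p.le).2
    simp only [add_zero] at h1
    have h4 : ((N0 : ℝ) * rho n) ^ w.length ≤ ((m0 : ℝ) * rho n) ^ 6 * (N : ℝ) ^ w.length := by
      have e4 : (N0 : ℝ) * rho n = (m0 * rho n) * N := by rw [hN0']; ring
      rw [e4, mul_pow]
      have h5 : ((m0 : ℝ) * rho n) ^ w.length ≤ ((m0 : ℝ) * rho n) ^ 6 :=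
        pow_le_pow_right₀ (by nlinarith) hw
      gcongr
    refine (norm_add_le _ _).trans ?_
    have h6 : C * B0 * ((N0 : ℝ) * rho n) ^ w.length ≤
        C * B0 * (((m0 : ℝ) * rho n) ^ 6 * (N : ℝ) ^ w.length) := by gcongr
    calc ‖pdw w (fun x => g x - f 0 x) x‖ + ‖pdw w (f 0) x‖
        ≤ 2 * (C * B0 * (((m0 : ℝ) * rho n) ^ 6 * (N : ℝ) ^ w.length)) +
          2 * (N : ℝ) ^ w.length := by linarith
      _ = (2 + 2 * (C * B0 * ((m0 : ℝ) * rho n) ^ 6)) * (N : ℝ) ^ w.length := by ring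
  · -- Hardy
    choose Bj hBj using hBCj
    refine (hHAC (dm n) X A).2.2 f g Bj
      (fun j => ∑' i, bb n N0 C B0 0 (i + j) + ∑' i, bb n N0 C B0 1 (i + j)) hBj ?_ ?_ hHj
    · intro j
      refine ⟨?_, ?_⟩
      · exact ((hc.sm j).of_le (by exact_mod_cast le_top)).sub
          (hg6.of_le (by norm_num))
      · intro w hw x
        have e1 : (fun x => f j x - g x) = fun x => -(g x - f j x) := by
          funext x; abel
        rw [e1, pdw_neg, norm_neg]
        refine (hgb j w (by omega) x).trans ?_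
        have t0 := htn 0 j
        have t1 := htn 1 j
        have : w.length = 0 ∨ w.length = 1 := by omega
        rcases this with h | h
        · rw [h]; linarith
        · rw [h]; linarith
    · have := hT0.add hT1
      simpa using this
  · -- measure
    have hsub : {x | x ∈ Wd (dm n) ∧ g x ≠ 0} ⊆
        {x | x ∈ Wd (dm n) ∧ ∃ j, ∀ p ∈ S j, x ∉ cube n N0 j p} := by
      rintro x ⟨hx1, hx2⟩
      refine ⟨hx1, ?_⟩
      by_contra hcon
      push Not at hcon
      apply hx2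
      have hle : ∀ j, ‖g x‖ ≤ ∑' i, bb n N0 C B0 0 (i + j) + B0 * lam n ^ j := by
        intro j
        obtain ⟨p, hp, hxp⟩ := hcon j
        have h1 := hc.jets j p hp x hxp [] (by simp)
        have h2 := hc.ale j p hp
        have h3 : ‖f j x‖ ≤ B0 * lam n ^ j := by
          have h4 : ‖f j x‖ ≤ a j p := by simpa [pdw] using h1
          exact h4.trans h2
        have h5 : ‖g x‖ ≤ ‖g x - f j x‖ + ‖f j x‖ := by
          have : g x = (g x - f j x) + f j x := by abel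
          calc ‖g x‖ = ‖(g x - f j x) + f j x‖ := by rw [← this]
            _ ≤ _ := norm_add_le _ _
        exact h5.trans (add_le_add (hg0 j x) h3)
      have hl0 := lam_pos n hn
      have hl1 : lam n < 1 := by
        have := lam_rho n hn 0 (by norm_num)
        simp at this
        linarith
      have hlim : Tendsto (fun j => ∑' i, bb n N0 C B0 0 (i + j) + B0 * lam n ^ j) atTop
          (𝓝 (0 + B0 * 0)) :=
        hT0.add ((tendsto_pow_atTop_nhds_zero_of_lt_one hl0.le hl1).const_mul B0)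
      have := ge_of_tendsto' hlim hle
      simp at this
      exact this
    refine (measure_mono hsub).trans ((hMEA n hn2 X A N0 B0 f S a hN01 hB02 hc).trans ?_)
    apply ENNReal.ofReal_le_ofReal
    have h1 : 4 * dm n * ((rn n : ℝ) + 2) / (rho n * N0) ≤ ε / 2 := by
      have h2 : 8 * dm n * ((rn n : ℝ) + 2) / (rho n * ε) ≤ N0 := by
        have : (m0 : ℝ) ≤ N0 := by rw [hN0']; nlinarith
        linarith
      rw [div_le_iff₀ (by positivity)] at h2
      rw [div_le_iff₀ (by positivity)]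
      nlinarith
    linarith
  · -- value at the base point
    have h1 := hPoi x0 (1 / N) (by positivity)
    have h2 : Poi (f 0) x0 (1 / N) = Real.exp (-1) • e := by
      rw [hf0, hf0P x0 (1 / N) (by positivity)]
      have e1 : (N : ℝ) * (1 / N) = 1 := by field_simp
      rw [e1]
      unfold pw
      simp
    rw [h2] at h1
    refine h1.trans ?_
    have e2 : C * B0 / ((N0 : ℝ) * (1 / N)) = C * B0 / m0 := by
      rw [hN0']; field_simp
    rw [e2, div_le_div_iff₀ hm0p (by norm_num)]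
    linarith
  · -- decay
    intro x y hy
    have h1 := hPoi x y hy
    have h2 : ‖Poi (f 0) x y‖ ≤ 2 / (N * y) := by
      rw [hf0, hf0P x y hy, norm_smul, Real.norm_eq_abs, abs_of_pos (Real.exp_pos _)]
      have h3 : ‖pw A i0 N x0 e x‖ ≤ 2 := by
        have := hf0b [] x
        simpa [pdw] using this
      have h4 : Real.exp (-((N : ℝ) * y)) ≤ 1 / (N * y) := by
        rw [Real.exp_neg, one_div]
        apply inv_anti₀ (by positivity)
        have := Real.add_one_le_exp ((N : ℝ) * y)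
        linarith
      calc Real.exp (-((N : ℝ) * y)) * ‖pw A i0 N x0 e x‖ ≤ 1 / (N * y) * 2 := by
            gcongr
        _ = 2 / (N * y) := by ring
    have h5 : ‖Poi g x y‖ ≤ ‖Poi g x y - Poi (f 0) x y‖ + ‖Poi (f 0) x y‖ := by
      have : Poi g x y = (Poi g x y - Poi (f 0) x y) + Poi (f 0) x y := by abel
      calc ‖Poi g x y‖ = ‖(Poi g x y - Poi (f 0) x y) + Poi (f 0) x y‖ := by rw [← this]
        _ ≤ _ := norm_add_le _ _
    have h6 : C * B0 / (N0 * y) ≤ C * B0 / (N * y) := by gcongr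
    have h7 : (1 : ℝ) ≤ ((m0 : ℝ) * rho n) ^ 6 := one_le_pow₀ (by nlinarith)
    have h8 : C * B0 ≤ 2 * (C * B0 * ((m0 : ℝ) * rho n) ^ 6) := by
      have : 0 ≤ C * B0 := by positivity
      nlinarith
    calc ‖Poi g x y‖ ≤ C * B0 / (N * y) + 2 / (N * y) := by linarith
      _ = (2 + C * B0) / (N * y) := by ring
      _ ≤ (2 + 2 * (C * B0 * ((m0 : ℝ) * rho n) ^ 6)) / (N * y) := by gcongr

end Pool.Agent.HBW
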