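import Pool.Agent.HBW.Stmts

set_option autoImplicit false

namespace Pool.Agent.HBW

open MeasureTheory Set Filter Topology
open scoped ENNReal Real

namespace KF1_

noncomputable section

variable {D : ℕ} {Y Y' : Type} [NormedAddCommGroup Y] [NormedSpace ℝ Y]
  [NormedAddCommGroup Y'] [NormedSpace ℝ Y']

/-- total derivative from the partial ones -/
def tot (g : List (Fin D) → P D → Y) (w : List (Fin D)) (z : P D) : P D →L[ℝ] Y :=
  ∑ i, (ContinuousLinearMap.proj (R := ℝ) (φ := fun _ : Fin D => ℝ) i).smulRight (g (i :: w) z)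

lemma tot_apply (g : List (Fin D) → P D → Y) (w : List (Fin D)) (z h : P D) :
    tot g w z h = ∑ i, h i • g (i :: w) z := by
  simp [tot]

def Good (g : List (Fin D) → P D → Y) : Prop := ∀ w z, HasFDerivAt (g w) (tot g w z) z

lemma Good.pd {g : List (Fin D) → P D → Y} (h : Good g) (w : List (Fin D)) (i : Fin D) :
    pd i (g w) = g (i :: w) := by
  funext z
  rw [HBW.pd, (h w z).fderiv, tot_apply, Finset.sum_eq_single i]
  · simp
  · intro j _ hj; simp [Pi.single_eq_of_ne hj]
  · simp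

lemma Good.smo {g : List (Fin D) → P D → Y} (h : Good g) (w : List (Fin D)) : Smo (g w) := by
  rw [Smo, contDiff_infty]
  intro n
  induction n generalizing w with
  | zero =>
    rw [Nat.cast_zero, contDiff_zero]
    exact continuous_iff_continuousAt.2 fun z => (h w z).continuousAt
  | succ n ih =>
    rw [Nat.cast_succ, contDiff_succ_iff_fderiv]
    refine ⟨fun z => (h w z).differentiableAt, by simp, ?_⟩
    have : fderiv ℝ (g w) = fun z => tot g w z := by
      funext z; exact (h w z).fderiv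
    rw [this]
    refine ContDiff.sum fun i _ => ?_
    exact (ContinuousLinearMap.smulRightL ℝ (P D) Y
      (ContinuousLinearMap.proj (R := ℝ) (φ := fun _ : Fin D => ℝ) i)).contDiff.comp (ih (i :: w))

lemma good_of {g : List (Fin D) → P D → Y} (h1 : ∀ w, Smo (g w))
    (h2 : ∀ w i, HBW.pd i (g w) = g (i :: w)) : Good g := by
  intro w z
  have h3 : DifferentiableAt ℝ (g w) z := ((h1 w).differentiable (by simp)) z
  have h4 : fderiv ℝ (g w) z = tot g w z := by
    ext h
    rw [tot_apply]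
    conv_lhs => rw [← Finset.univ_sum_single h]
    rw [map_sum]
    refine Finset.sum_congr rfl fun i _ => ?_
    have h5 : (Pi.single i (h i) : P D) = h i • Pi.single i (1 : ℝ) := by
      rw [← Pi.single_smul]; simp
    rw [h5, map_smul, ← h2 w i]; rfl
  rw [← h4]; exact h3.hasFDerivAt

lemma Good.clm {g : List (Fin D) → P D → Y} (h : Good g) (L : Y →L[ℝ] Y') :
    Good (fun w z => L (g w z)) := by
  intro w z
  have := L.hasFDerivAt.comp z (h w z)
  refine this.congr_fderiv ?_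
  ext v
  simp [tot_apply, map_sum]

lemma Good.sum {ι : Type} (s : Finset ι) (g : ι → List (Fin D) → P D → Y)
    (h : ∀ i ∈ s, Good (g i)) : Good (fun w z => ∑ i ∈ s, g i w z) := by
  intro w z
  have := HasFDerivAt.fun_sum (u := s) (fun i hi => h i hi w z)
  refine this.congr_fderiv ?_
  ext v
  simp only [sum_apply, tot_apply, Finset.smul_sum]
  rw [Finset.sum_comm]

lemma Good.add {g g' : List (Fin D) → P D → Y} (h : Good g) (h' : Good g') :
    Good (fun w z => g w z + g' w z) := by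
  intro w z
  refine ((h w z).add (h' w z)).congr_fderiv ?_
  ext v
  simp [tot_apply, Finset.sum_add_distrib]

lemma norm_tot_le (g : List (Fin D) → P D → Y) (w : List (Fin D)) (z : P D) :
    ‖tot g w z‖ ≤ ∑ i, ‖g (i :: w) z‖ := by
  refine ContinuousLinearMap.opNorm_le_bound _ (Finset.sum_nonneg fun i _ => norm_nonneg _) ?_
  intro v
  rw [tot_apply, Finset.sum_mul]
  refine (norm_sum_le _ _).trans (Finset.sum_le_sum fun i _ => ?_)
  rw [norm_smul, mul_comm]
  exact mul_le_mul_of_nonneg_left (norm_le_pi_norm v i) (norm_nonneg _)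

/-- differentiation under the integral -/
lemma good_int [CompleteSpace Y] {α : Type} [MeasurableSpace α] (μ : Measure α)
    (g : List (Fin D) → α → P D → Y) (b : List (Fin D) → α → ℝ)
    (hm : ∀ w z, AEStronglyMeasurable (fun a => g w a z) μ)
    (hb : ∀ w, ∀ᵐ a ∂μ, ∀ z, ‖g w a z‖ ≤ b w a) (hbi : ∀ w, Integrable (b w) μ)
    (hd : ∀ᵐ a ∂μ, Good (fun w z => g w a z)) :
    Good (fun w z => ∫ a, g w a z ∂μ) := by
  intro w z
  have hint : ∀ w z, Integrable (fun a => g w a z) μ := fun w z =>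
    (hbi w).mono' (hm w z) ((hb w).mono fun a ha => ha z)
  have key := hasFDerivAt_integral_of_dominated_of_fderiv_le (𝕜 := ℝ) (μ := μ)
    (F := fun z a => g w a z) (F' := fun z a => tot (fun w z => g w a z) w z)
    (bound := fun a => ∑ i, b (i :: w) a) (x₀ := z) (s := univ) univ_mem
    (Eventually.of_forall fun z => hm w z) (hint w z) ?_ ?_ ?_ ?_
  · refine key.congr_fderiv ?_
    unfold tot
    rw [integral_finsetSum]
    · refine Finset.sum_congr rfl fun i _ => ?_
      exact ((ContinuousLinearMap.smulRightL ℝ (P D) Y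
        (ContinuousLinearMap.proj (R := ℝ) (φ := fun _ : Fin D => ℝ) i)).integral_comp_comm
          (hint (i :: w) z))
    · intro i _
      exact (ContinuousLinearMap.smulRightL ℝ (P D) Y
        (ContinuousLinearMap.proj (R := ℝ) (φ := fun _ : Fin D => ℝ) i)).integrable_comp
          (hint (i :: w) z)
  · unfold tot
    refine Finset.aestronglyMeasurable_fun_sum _ fun i _ => ?_
    exact (ContinuousLinearMap.smulRightL ℝ (P D) Y
        (ContinuousLinearMap.proj (R := ℝ) (φ := fun _ : Fin D => ℝ) i)).continuous.comp_aestronglyMeasurable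
          (hm (i :: w) z)
  · have : ∀ᵐ a ∂μ, ∀ i, ∀ z, ‖g (i :: w) a z‖ ≤ b (i :: w) a :=
      (ae_all_iff).2 fun i => hb (i :: w)
    filter_upwards [this] with a ha z _
    exact (norm_tot_le _ _ _).trans (Finset.sum_le_sum fun i _ => ha i z)
  · exact integrable_finsetSum _ fun i _ => hbi (i :: w)
  · filter_upwards [hd] with a ha z _ using ha w z

/-! ### the circle part -/

lemma fac_le (r : ℕ) : (r.factorial : ℝ) / ((2 * r + 1).factorial : ℝ) ≤ 1 / (r.factorial : ℝ) := by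
  have h1 : r.factorial * r.factorial ≤ (2 * r + 1).factorial := by
    have h2 : r.factorial * r.factorial ≤ (r + r).factorial :=
      Nat.le_of_dvd (Nat.factorial_pos _) (Nat.factorial_mul_factorial_dvd_factorial_add r r)
    exact h2.trans (Nat.factorial_le (by omega))
  have h3 : (0 : ℝ) < r.factorial := by exact_mod_cast Nat.factorial_pos r
  have h4 : (0 : ℝ) < (2 * r + 1).factorial := by exact_mod_cast Nat.factorial_pos _
  rw [div_le_div_iff₀ h4 h3, one_mul]
  exact_mod_cast h1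

lemma ps_term (ω R : ℝ) (hω : 0 ≤ ω) (hR : 0 < R) (r : ℕ) (θ : ℝ) :
    ‖(ω : ℂ) ^ (2 * r + 1) * (-4) ^ r * (r.factorial : ℂ) / ((2 * r + 1).factorial : ℂ) *
      ((circleMap 0 R θ) ^ (r + 1))⁻¹‖ ≤ ω / R * ((4 * ω ^ 2 / R) ^ r / r.factorial) := by
  have h1 : ‖circleMap 0 R θ‖ = R := by simp [abs_of_pos hR]
  rw [norm_mul, norm_div, norm_mul, norm_mul, norm_pow, norm_pow, norm_inv, norm_pow, h1,
    Complex.norm_natCast, Complex.norm_natCast, Complex.norm_real, norm_neg]
  have h4 : ‖(4 : ℂ)‖ = 4 := by simp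
  rw [h4, Real.norm_of_nonneg hω]
  have h5 := fac_le r
  have h6 : ω ^ (2 * r + 1) * 4 ^ r * (r.factorial : ℝ) / ((2 * r + 1).factorial : ℝ) * (R ^ (r + 1))⁻¹
      = (ω / R * (4 * ω ^ 2 / R) ^ r) * ((r.factorial : ℝ) / ((2 * r + 1).factorial : ℝ)) := by
    rw [div_pow, mul_pow, ← pow_mul, pow_succ R, pow_succ ω]
    field_simp
  rw [h6]
  refine (mul_le_mul_of_nonneg_left h5 (by positivity)).trans (le_of_eq ?_)
  ring

lemma ps_cont (ω R : ℝ) (hω : 0 ≤ ω) (hR : 0 < R) :
    Continuous (fun θ : ℝ => Ps ω (circleMap 0 R θ)) ∧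
    ∃ B, ∀ θ : ℝ, ‖Ps ω (circleMap 0 R θ)‖ ≤ B := by
  have hs : Summable fun r : ℕ => ω / R * ((4 * ω ^ 2 / R) ^ r / r.factorial) :=
    (Real.summable_pow_div_factorial _).mul_left _
  refine ⟨?_, _, fun θ => tsum_of_norm_bounded hs.hasSum fun r => ps_term ω R hω hR r θ⟩
  unfold Ps
  refine continuous_tsum (fun r => ?_) hs fun r θ => ps_term ω R hω hR r θ
  refine continuous_const.mul (Continuous.inv₀ ((continuous_circleMap 0 R).pow _) fun θ => ?_)
  exact pow_ne_zero _ (circleMap_ne_center hR.ne')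

lemma circ (τ : ℝ) (hτ : 0 < τ) (θ : ℝ) :
    0 < (circleMap (τ : ℂ) (τ / 2) θ).re ∧ τ / 2 ≤ ‖circleMap (τ : ℂ) (τ / 2) θ‖ ∧
    2 / (3 * τ) ≤ ((circleMap (τ : ℂ) (τ / 2) θ)⁻¹).re := by
  have hre : (circleMap (τ : ℂ) (τ / 2) θ).re = τ + τ / 2 * Real.cos θ := by
    simp [circleMap, Complex.exp_ofReal_mul_I_re]
  have him : (circleMap (τ : ℂ) (τ / 2) θ).im = τ / 2 * Real.sin θ := by
    simp [circleMap, Complex.exp_ofReal_mul_I_im]
  have hc1 := Real.neg_one_le_cos θ
  have hc2 := Real.cos_le_one θ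
  have h0 : τ / 2 ≤ (circleMap (τ : ℂ) (τ / 2) θ).re := by rw [hre]; nlinarith
  refine ⟨by linarith, h0.trans (Complex.re_le_norm _), ?_⟩
  rw [Complex.inv_re, Complex.normSq_apply, hre, him]
  have hs : Real.sin θ ^ 2 = 1 - Real.cos θ ^ 2 := by
    have := Real.sin_sq_add_cos_sq θ; linarith
  have h1 : (τ + τ / 2 * Real.cos θ) * (τ + τ / 2 * Real.cos θ) +
      τ / 2 * Real.sin θ * (τ / 2 * Real.sin θ) = τ ^ 2 * (5 / 4 + Real.cos θ) := by
    have : τ / 2 * Real.sin θ * (τ / 2 * Real.sin θ) = τ ^ 2 / 4 * Real.sin θ ^ 2 := by ring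
    rw [this, hs]; ring
  rw [h1, div_le_div_iff₀ (by positivity) (by have : 0 < 5 / 4 + Real.cos θ := by linarith
                                              positivity)]
  nlinarith [mul_nonneg (sq_nonneg τ) (sub_nonneg.2 hc2)]

lemma gw_bound (hGWB : Stmt_GWB) (τ : ℝ) (hτ : 0 < τ) (w : List (Fin D)) :
    ∃ B, ∀ (θ : ℝ) (z : P D), ‖gw w (circleMap (τ : ℂ) (τ / 2) θ) z‖ ≤ B := by
  refine ⟨w.length.factorial * (1 : ℝ)⁻¹ ^ w.length * (Real.sqrt (π * (τ / 2)))⁻¹ ^ D *
    Real.exp (∑ _i : Fin D, (1 / ((2 / (3 * τ)) * (τ / 2) ^ 2) + 1 / (τ / 2))), fun θ z => ?_⟩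
  obtain ⟨h1, h2, h3⟩ := circ τ hτ θ
  refine (hGWB D _ (2 / (3 * τ)) (τ / 2) 1 w z (by positivity) h2 h1 h3 one_pos).trans ?_
  refine mul_le_mul_of_nonneg_left (Real.exp_le_exp.2 (Finset.sum_le_sum fun i _ => ?_))
    (by positivity)
  have hk : 0 < 2 / (3 * τ) := by positivity
  have hm : 0 < τ / 2 := by positivity
  generalize 2 / (3 * τ) = κ at *
  generalize τ / 2 = m at *
  have h5 : 0 ≤ κ * (|z i| - 1 / (κ * m)) ^ 2 := by positivity
  have h6 : κ * (|z i| - 1 / (κ * m)) ^ 2 = κ * z i ^ 2 - 2 * |z i| / m + 1 / (κ * m ^ 2) := by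
    rw [sub_sq, sq_abs]; field_simp
  have h7 : (2 * |z i| * 1 + 1 ^ 2) / m = 2 * |z i| / m + 1 / m := by ring
  rw [h7]; linarith

lemma gw_good (hGWD : Stmt_GWD) (ζ : ℂ) : Good (fun (w : List (Fin D)) z => gw w ζ z) :=
  good_of (fun w => (hGWD D ζ w).1) fun w i => (hGWD D ζ w).2.1 i

lemma gw_cont (hGWA : Stmt_GWA) (w : List (Fin D)) (z : P D) {α : Type} [TopologicalSpace α]
    {s : Set α} (f : α → ℂ) (hf : ContinuousOn f s) (hf' : ∀ a ∈ s, 0 < (f a).re) :
    ContinuousOn (fun a => gw w (f a) z) s :=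
  ((hGWA D w).2.comp (f := fun a => (f a, z)) (hf.prodMk continuousOn_const)
    fun a ha => hf' a ha)

lemma cs_good (hGWD : Stmt_GWD) (hGWA : Stmt_GWA) (hGWB : Stmt_GWB) (ω τ : ℝ) (hω : 0 ≤ ω)
    (hτ : 0 < τ) : Good (fun (w : List (Fin D)) z => cs ω τ (fun ζ => gw w ζ z)) := by
  have hR : 0 < τ / 2 := by positivity
  obtain ⟨hP1, BP, hP2⟩ := ps_cont ω (τ / 2) hω hR
  choose B hB using fun w : List (Fin D) => gw_bound hGWB τ hτ w
  have hG : Good (fun (w : List (Fin D)) z => ∫ θ in Ioc 0 (2 * π),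
      deriv (circleMap (τ : ℂ) (τ / 2)) θ • (Ps ω (circleMap (τ : ℂ) (τ / 2) θ - τ) *
        gw w (circleMap (τ : ℂ) (τ / 2) θ) z)) := by
    refine good_int (Y := ℂ) (volume.restrict (Ioc 0 (2 * π))) _
      (fun w _ => (τ / 2) * (BP * B w)) ?_ ?_ ?_ ?_
    · intro w z
      have c1 : Continuous (fun θ => deriv (circleMap (τ : ℂ) (τ / 2)) θ) := by
        have : (fun θ => deriv (circleMap (τ : ℂ) (τ / 2)) θ) =
            fun θ => circleMap 0 (τ / 2) θ * Complex.I := by
          funext θ; rw [deriv_circleMap]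
        rw [this]; exact (continuous_circleMap _ _).mul continuous_const
      have c2 : Continuous (fun θ : ℝ => Ps ω (circleMap (τ : ℂ) (τ / 2) θ - τ)) := by
        simp only [circleMap_sub_center]; exact hP1
      have c3 : Continuous (fun θ : ℝ => gw w (circleMap (τ : ℂ) (τ / 2) θ) z) := by
        rw [← continuousOn_univ]
        exact gw_cont hGWA w z (s := (univ : Set ℝ)) (fun θ => circleMap (τ : ℂ) (τ / 2) θ)
          (continuous_circleMap _ _).continuousOn fun θ _ => (circ τ hτ θ).1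
      exact (c1.smul (c2.mul c3)).aestronglyMeasurable
    · intro w
      refine Eventually.of_forall fun θ z => ?_
      rw [norm_smul, norm_mul, deriv_circleMap, circleMap_sub_center]
      have h1 : ‖circleMap 0 (τ / 2) θ * Complex.I‖ = τ / 2 := by
        rw [norm_mul, Complex.norm_I, mul_one, norm_circleMap_zero, abs_of_pos hR]
      rw [h1]
      exact mul_le_mul_of_nonneg_left (mul_le_mul (hP2 θ) (hB w θ z) (norm_nonneg _)
        ((norm_nonneg _).trans (hP2 θ))) hR.le
    · intro w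
      exact integrable_const _
    · refine Eventually.of_forall fun θ => ?_
      have := (gw_good (D := D) hGWD (circleMap (τ : ℂ) (τ / 2) θ)).clm
        (((deriv (circleMap (τ : ℂ) (τ / 2)) θ * Ps ω (circleMap (τ : ℂ) (τ / 2) θ - τ)) •
          ContinuousLinearMap.id ℝ ℂ : ℂ →L[ℝ] ℂ))
      simpa [mul_assoc] using this
  have hG2 := hG.clm (((2 * (π : ℂ) * Complex.I)⁻¹ • ContinuousLinearMap.id ℝ ℂ : ℂ →L[ℝ] ℂ))
  have : (fun (w : List (Fin D)) z => cs ω τ (fun ζ => gw w ζ z)) = fun w z =>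
      ((2 * (π : ℂ) * Complex.I)⁻¹ • ContinuousLinearMap.id ℝ ℂ : ℂ →L[ℝ] ℂ)
      (∫ θ in Ioc 0 (2 * π),
      deriv (circleMap (τ : ℂ) (τ / 2)) θ • (Ps ω (circleMap (τ : ℂ) (τ / 2) θ - τ) *
        gw w (circleMap (τ : ℂ) (τ / 2) θ) z)) := by
    funext w z
    rw [cs, circleIntegral, intervalIntegral.integral_of_le (by positivity)]
    simp
  rw [this]; exact hG2

/-! ### the heat part -/

lemma wf_le (ω u : ℝ) (hω : 0 < ω) (hu : 0 < u) : Wf ω u ≤ (Real.sqrt π * ω)⁻¹ := by
  unfold Wf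
  have hp : 0 < Real.sqrt π := Real.sqrt_pos.2 Real.pi_pos
  have hsu : 0 < Real.sqrt u := Real.sqrt_pos.2 hu
  have hu2 : Real.sqrt u ^ 2 = u := Real.sq_sqrt hu.le
  rw [Real.sqrt_mul Real.pi_pos.le]
  have h1 : Real.exp (-ω ^ 2 / (4 * u)) ≤ Real.sqrt u / ω := by
    have h2 : -ω ^ 2 / (4 * u) = -(ω ^ 2 / (4 * u)) := by ring
    rw [h2, Real.exp_neg]
    have h3 : ω / Real.sqrt u ≤ Real.exp (ω ^ 2 / (4 * u)) := by
      have h4 := Real.add_one_le_exp (ω ^ 2 / (4 * u))
      have h5 : ω ^ 2 / (4 * u) = (ω / Real.sqrt u) ^ 2 / 4 := by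
        rw [div_pow, hu2]; field_simp
      rw [h5] at h4 ⊢
      nlinarith [sq_nonneg (ω / Real.sqrt u / 2 - 1)]
    rw [inv_le_comm₀ (Real.exp_pos _) (by positivity), inv_div]
    exact h3
  calc (Real.sqrt π * Real.sqrt u)⁻¹ * Real.exp (-ω ^ 2 / (4 * u))
      ≤ (Real.sqrt π * Real.sqrt u)⁻¹ * (Real.sqrt u / ω) :=
        mul_le_mul_of_nonneg_left h1 (by positivity)
    _ = (Real.sqrt π * ω)⁻¹ := by field_simp

lemma wf_nonneg (ω u : ℝ) : 0 ≤ Wf ω u := by unfold Wf; positivity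

lemma crd_le (n C : ℕ) (w : List (Fin (dm n))) (z : P (dm n)) :
    crd n C w z ≤ w.length.factorial * (dm n : ℝ) ^ w.length * (n : ℝ) ^ (C * n ^ 4) := by
  unfold crd
  refine mul_le_of_le_one_right (by positivity) ?_
  refine zpow_le_one_of_nonpos₀ (by linarith [norm_nonneg z]) (by omega)

lemma tl_pos (n l : ℕ) : 0 < tl n l := by
  unfold tl t0 um; positivity

end

end KF1_

open KF1_ in
theorem kf1_proof (_hKF0 : Stmt_KF0) (hGWD : Stmt_GWD) (hGWA : Stmt_GWA) (hGWB : Stmt_GWB)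
    (hCR1 : Stmt_CR1) (_hCR0 : Stmt_CR0) : Stmt_KF1 := by
  obtain ⟨C, hC⟩ := hCR1
  intro n hn
  have hom : 0 < om n := by
    unfold om; have : (0 : ℝ) < n := by exact_mod_cast (by omega : 0 < n)
    positivity
  have g1 : Good (fun (w : List (Fin (dm n))) z => ∑ l ∈ Finset.range (Ln n + 1),
      bs n l * (cs (om n) (tl n l) (fun ζ => gw w ζ z)).re) := by
    refine Good.sum _ (fun l w z => bs n l * (cs (om n) (tl n l) (fun ζ => gw w ζ z)).re) ?_
    intro l _
    exact (cs_good (D := dm n) hGWD hGWA hGWB (om n) (tl n l) hom.le (tl_pos n l)).clm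
      (bs n l • Complex.reCLM)
  have g2 : Good (fun (w : List (Fin (dm n))) z => ∫ u in Ioi (0 : ℝ), Wf (om n) u *
    ∑ l ∈ Finset.range (Ln n + 1), bs n l * gr w (tl n l + 4 * u) z) := by
    refine good_int (Y := ℝ) (volume.restrict (Ioi (0 : ℝ))) (fun w u z => Wf (om n) u *
      ∑ l ∈ Finset.range (Ln n + 1), bs n l * gr w (tl n l + 4 * u) z)
      (fun w u => ((Real.sqrt π * om n)⁻¹ * (w.length.factorial * (dm n : ℝ) ^ w.length *
        (n : ℝ) ^ (C * n ^ 4))) * (1 + u) ^ (-2 : ℤ)) ?_ ?_ ?_ ?_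
    · intro w z
      refine AEStronglyMeasurable.mul ?_ ?_
      · refine Measurable.aestronglyMeasurable ?_
        unfold Wf; fun_prop
      · refine Finset.aestronglyMeasurable_fun_sum _ fun l _ => AEStronglyMeasurable.const_mul ?_ _
        refine ContinuousOn.aestronglyMeasurable ?_ measurableSet_Ioi
        unfold gr
        refine Complex.continuous_re.comp_continuousOn ?_
        refine gw_cont hGWA w z _ (by fun_prop) fun u hu => ?_
        have h1 := tl_pos n l
        have h2 : (0 : ℝ) < u := hu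
        simp only [Complex.ofReal_re]; positivity
    · intro w
      filter_upwards [ae_restrict_mem measurableSet_Ioi] with u hu z
      have hu' : (0 : ℝ) < u := hu
      rw [norm_mul, Real.norm_of_nonneg (wf_nonneg _ _), Real.norm_eq_abs, mul_assoc]
      refine mul_le_mul (wf_le _ _ hom hu') ?_ (abs_nonneg _) (by positivity)
      exact (hC n hn w z u hu'.le).trans
        (mul_le_mul_of_nonneg_right (crd_le n C w z) (by positivity))
    · intro w
      refine Integrable.const_mul ?_ _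
      have h1 := integrableOn_Ioi_rpow_of_lt (a := (-2 : ℝ)) (by norm_num) (c := 1) one_pos
      have h2 : IntegrableOn (fun u : ℝ => (1 + u) ^ (-2 : ℝ)) (Ioi 0) := by
        have h3 := (measurePreserving_add_left (volume : Measure ℝ) 1)
        have h4 := (h3.integrableOn_comp_preimage (measurableEmbedding_addLeft (1 : ℝ))
          (f := fun x : ℝ => x ^ (-2 : ℝ)) (s := Ioi 1)).2 h1
        have h5 : ((fun x : ℝ => 1 + x) ⁻¹' (Ioi 1)) = Ioi 0 := by
          ext x; simp
        rw [h5] at h4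
        exact h4
      refine (integrableOn_congr_fun (fun u hu => ?_) measurableSet_Ioi).1 h2
      have hu' : (0 : ℝ) < u := hu
      rw [show (-2 : ℝ) = ((-2 : ℤ) : ℝ) by norm_num, Real.rpow_intCast]
    · filter_upwards [ae_restrict_mem measurableSet_Ioi] with u hu
      have h1 : Good (fun (w : List (Fin (dm n))) z => ∑ l ∈ Finset.range (Ln n + 1),
          bs n l * gr w (tl n l + 4 * u) z) := by
        refine Good.sum _ (fun l w z => bs n l * gr w (tl n l + 4 * u) z) fun l _ => ?_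
        exact (gw_good (D := dm n) hGWD ((tl n l + 4 * u : ℝ) : ℂ)).clm
          (bs n l • Complex.reCLM)
      exact h1.clm (Wf (om n) u • ContinuousLinearMap.id ℝ ℝ)
  have g : Good (K1 n) := g1.add g2
  intro w
  refine ⟨g.smo w, fun i => g.pd w i, fun w' hw => ?_⟩
  have h1 : ∀ ζ, gw w' ζ = gw w ζ := fun ζ => (hGWD (dm n) ζ w).2.2 w' hw
  funext z
  simp only [K1, gr, h1]

end Pool.Agent.HBW
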