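import Pool.Agent.HBW.Stmts
import Pool.Agent.HBZ.REP

/-!
Squad HBW: the Poisson kernel as a probability measure (bridge to squad HBZ), helper32.
-/

set_option autoImplicit false

namespace Pool.Agent.HBW

open MeasureTheory Set Filter Topology
open scoped ENNReal Real

namespace PB0_

lemma gs_cont (D : ℕ) (τ : ℝ) : Continuous (gs τ : P D → ℝ) := by
  unfold gs
  fun_prop

lemma gs_int (hGSR : Stmt_GSR) (D : ℕ) (τ : ℝ) (hτ : 0 < τ) :
    Integrable (gs τ : P D → ℝ) :=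
  integrable_of_integral_eq_one (hGSR D τ hτ).2.2.1

lemma gs1 (hGSR : Stmt_GSR) : Pool.Agent.HBZ.Stmt_GS1 := fun D τ hτ =>
  ⟨gs_cont D τ, gs_int hGSR D τ hτ, (hGSR D τ hτ).2.2.1⟩

lemma lv1 (hSUB : Stmt_SUB) : Pool.Agent.HBZ.Stmt_LV1 := fun y hy => hSUB.2.2.2.1 y hy

end PB0_

theorem pb0_rep (hSUB : Stmt_SUB) (hGSR : Stmt_GSR) : Pool.Agent.HBZ.Stmt_REP :=
  Pool.Agent.HBZ.rep_proof (PB0_.gs1 hGSR) (PB0_.lv1 hSUB)

end Pool.Agent.HBW
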