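import Pool.Agent.HBW.PB0
import Pool.Agent.HBZ.PCO
import Pool.Agent.HBZ.PFD
import Pool.Agent.HBZ.PDR
import Pool.Agent.HBZ.BCR

/-!
Squad HBW, module PB3 (helper32): horizontal derivatives of Poisson extensions.
-/

set_option autoImplicit false

namespace Pool.Agent.HBW

open MeasureTheory Set Filter Topology
open scoped ENNReal Real

theorem pb3_proof (_hPB1 : Stmt_PB1) (hGSR : Stmt_GSR) (hSUB : Stmt_SUB) : Stmt_PB3 := by
  intro D X _ _ _ f B hf y hy
  have : CompleteSpace X := FiniteDimensional.complete ℝ X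
  have hREP := pb0_rep hSUB hGSR
  have h0 : ∀ x, ‖f x‖ ≤ B := fun x => hf.bd [] (by simp) x
  have hB0 : 0 ≤ B := (norm_nonneg _).trans (h0 0)
  have h1 : ∀ x, ‖fderiv ℝ f x‖ ≤ D * B :=
    (Pool.Agent.HBZ.bcr_proof Pool.Agent.HBZ.pdr_proof D X X 0 B B f f
      (ContinuousLinearMap.id ℝ X) (fun _ => ContinuousLinearMap.id ℝ X)).2.2.2.2.2.2 hf
  have hsm : ContDiff ℝ 1 f := hf.sm
  have hmax0 : ∀ x, ‖f x‖ ≤ max B (D * B) := fun x => (h0 x).trans (le_max_left _ _)
  have hmax1 : ∀ x, ‖fderiv ℝ f x‖ ≤ max B (D * B) := fun x => (h1 x).trans (le_max_right _ _)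
  have hp := fun x => Pool.Agent.HBZ.pfd_proof hREP D X f (max B (D * B)) hsm hmax0 hmax1 x y hy
  refine ⟨?_, fun i x => (hp x).2.2 i⟩
  rw [contDiff_one_iff_fderiv]
  refine ⟨fun x => (hp x).1.differentiableAt, ?_⟩
  have h2 : fderiv ℝ (fun x => Poi f x y) = fun x => Poi (fderiv ℝ f) x y := by
    funext x
    exact (hp x).1.fderiv
  rw [h2]
  have h3 := (Pool.Agent.HBZ.pco_proof hREP D (P D →L[ℝ] X) (fderiv ℝ f) (max B (D * B))
    (hsm.continuous_fderiv (by norm_num)) hmax1).1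
  have h4 : (fun x => Poi (fderiv ℝ f) x y) =
      fun x => Pool.Agent.HBZ.vv (fderiv ℝ f) (x, y) := by
    funext x
    simp only [Pool.Agent.HBZ.vv, if_pos hy]
  rw [h4]
  exact h3.comp (continuous_id.prodMk continuous_const)

end Pool.Agent.HBW
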