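import Pool.Agent.HBW.Core

/-!
Squad HBW: statements of the modules of Part I.
-/

set_option autoImplicit false

namespace Pool.Agent.HBW

open MeasureTheory Set Filter Topology
open scoped ENNReal Real

noncomputable section

/-- smooth -/
abbrev Smo {D : ℕ} {Y : Type} [NormedAddCommGroup Y] [NormedSpace ℝ Y] (f : P D → Y) : Prop :=
  ContDiff ℝ ((⊤ : ℕ∞) : WithTop ℕ∞) f

/-! ### G. Gaussians -/

/-- Cauchy estimate for the derivatives of the complex Gaussian -/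
def Stmt_PHB : Prop := ∀ (ζ : ℂ) (κ m h x : ℝ) (a : ℕ), 0 < m → m ≤ ‖ζ‖ → 0 < ζ.re →
  κ ≤ (ζ⁻¹).re → 0 < h →
  ‖iteratedDeriv a (phc ζ) (x : ℂ)‖ ≤ a.factorial * h⁻¹ ^ a * (Real.sqrt (π * m))⁻¹ *
    Real.exp (-κ * x ^ 2 + (2 * |x| * h + h ^ 2) / m)

/-- smoothness in `z` and the derivatives of the family `gw` -/
def Stmt_GWD : Prop := ∀ (D : ℕ) (ζ : ℂ) (w : List (Fin D)),
  Smo (gw w ζ) ∧ (∀ i, pd i (gw w ζ) = gw (i :: w) ζ) ∧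
  (∀ w' : List (Fin D), w.Perm w' → gw w' ζ = gw w ζ)

/-- bound for `gw` -/
def Stmt_GWB : Prop := ∀ (D : ℕ) (ζ : ℂ) (κ m h : ℝ) (w : List (Fin D)) (z : P D),
  0 < m → m ≤ ‖ζ‖ → 0 < ζ.re → κ ≤ (ζ⁻¹).re → 0 < h →
  ‖gw w ζ z‖ ≤ w.length.factorial * h⁻¹ ^ w.length * (Real.sqrt (π * m))⁻¹ ^ D *
    Real.exp (∑ i, (-κ * z i ^ 2 + (2 * |z i| * h + h ^ 2) / m))

/-- holomorphy in `ζ`, joint continuity -/
def Stmt_GWA : Prop := ∀ (D : ℕ) (w : List (Fin D)),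
  (∀ z : P D, DifferentiableOn ℂ (fun ζ => gw w ζ z) {ζ | 0 < ζ.re}) ∧
  ContinuousOn (fun p : ℂ × P D => gw w p.1 p.2) {p | 0 < p.1.re}

/-- real Gaussians: `gr` are the derivatives of `gs`, and are real -/
def Stmt_GSR : Prop := ∀ (D : ℕ) (τ : ℝ), 0 < τ →
  (∀ (w : List (Fin D)) (z : P D), gw w (τ : ℂ) z = (gr w τ z : ℂ)) ∧
  (∀ w : List (Fin D), pdw w (gs τ) = gr w τ) ∧
  (∫ x : P D, gs τ x = 1) ∧ (∀ x : P D, 0 < gs τ x)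

/-- Fourier representation of the complex Gaussian -/
def Stmt_GFT : Prop := ∀ (D : ℕ) (ζ : ℂ) (z : P D), 0 < ζ.re →
  ∫ ξ : P D, Complex.exp (-(ζ / 4) * (∑ i, (ξ i : ℂ) ^ 2)) *
      Complex.exp (Complex.I * ∑ i, (z i : ℂ) * (ξ i : ℂ)) =
    (2 * (π : ℂ)) ^ D * gw [] ζ z

/-! ### C. Circle transforms -/

/-- bounds -/
def Stmt_CCB : Prop := ∀ (ω τ C : ℝ) (g : ℂ → ℂ), 0 < τ → 0 ≤ ω →
  (∀ ζ : ℂ, ‖ζ - τ‖ = τ / 2 → ‖g ζ‖ ≤ C) →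
  ‖cc ω τ g‖ ≤ Real.exp (4 * ω ^ 2 / τ) * C ∧ ‖cs ω τ g‖ ≤ ω * Real.exp (4 * ω ^ 2 / τ) * C

/-- series -/
def Stmt_CCS : Prop := ∀ (ω τ : ℝ) (g : ℂ → ℂ), 0 < τ → DifferentiableOn ℂ g {ζ | 0 < ζ.re} →
  HasSum (fun r : ℕ => (ω : ℂ) ^ (2 * r) * (-4) ^ r / ((2 * r).factorial : ℂ) *
    iteratedDeriv r g τ) (cc ω τ g) ∧
  HasSum (fun r : ℕ => (ω : ℂ) ^ (2 * r + 1) * (-4) ^ r / ((2 * r + 1).factorial : ℂ) *
    iteratedDeriv r g τ) (cs ω τ g)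

/-- interchange with sums -/
def Stmt_CCI : Prop := ∀ (ι : Type) (ω τ : ℝ) (g : ι → ℂ → ℂ) (b : ι → ℝ), 0 < τ → Countable ι →
  (∀ k, ContinuousOn (g k) (Metric.sphere (τ : ℂ) (τ / 2))) → Summable b →
  (∀ (k : ι) (ζ : ℂ), ‖ζ - τ‖ = τ / 2 → ‖g k ζ‖ ≤ b k) →
  HasSum (fun k => cc ω τ (g k)) (cc ω τ (fun ζ => ∑' k, g k ζ)) ∧
  HasSum (fun k => cs ω τ (g k)) (cs ω τ (fun ζ => ∑' k, g k ζ))

/-- interchange with integrals -/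
def Stmt_CCJ : Prop := ∀ (D : ℕ) (ω τ : ℝ) (g : ℂ → P D → ℂ) (b : P D → ℝ), 0 < τ →
  ContinuousOn (fun p : ℂ × P D => g p.1 p.2) (Metric.sphere (τ : ℂ) (τ / 2) ×ˢ univ) →
  Integrable b → (∀ (ζ : ℂ) (x : P D), ‖ζ - τ‖ = τ / 2 → ‖g ζ x‖ ≤ b x) →
  Integrable (fun x => cc ω τ (fun ζ => g ζ x)) ∧
  ∫ x, cc ω τ (fun ζ => g ζ x) = cc ω τ (fun ζ => ∫ x, g ζ x) ∧
  Integrable (fun x => cs ω τ (fun ζ => g ζ x)) ∧
  ∫ x, cs ω τ (fun ζ => g ζ x) = cs ω τ (fun ζ => ∫ x, g ζ x)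

/-! ### K. The kernels: smoothness and crude bounds -/

/-- crude constant times decay -/
def crd (n C : ℕ) (w : List (Fin (dm n))) (z : P (dm n)) : ℝ :=
  w.length.factorial * (dm n : ℝ) ^ w.length * (n : ℝ) ^ (C * n ^ 4) *
    (1 + ‖z‖) ^ (-(6 * (dm n : ℤ)))

/-- the heat time families: values and crude bound for one Gaussian in the circle transforms -/
def Stmt_CR0 : Prop := ∃ C : ℕ, ∀ n ≥ 2, ∀ (w : List (Fin (dm n))) (z : P (dm n)) (l : ℕ),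
  l ≤ Ln n → ‖cc (om n) (tl n l) (fun ζ => gw w ζ z)‖ ≤ crd n C w z ∧
    ‖cs (om n) (tl n l) (fun ζ => gw w ζ z)‖ ≤ crd n C w z

/-- crude bound for the finite differences of Gaussians -/
def Stmt_CR1 : Prop := ∃ C : ℕ, ∀ n ≥ 2, ∀ (w : List (Fin (dm n))) (z : P (dm n)) (u : ℝ),
  0 ≤ u → |∑ l ∈ Finset.range (Ln n + 1), bs n l * gr w (tl n l + 4 * u) z| ≤
    crd n C w z * (1 + u) ^ (-2 : ℤ)

/-- crude bound for single Gaussians -/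
def Stmt_CR2 : Prop := ∃ C : ℕ, ∀ n ≥ 2, ∀ (w : List (Fin (dm n))) (z : P (dm n)) (u : ℝ)
    (l : ℕ), 0 ≤ u → u ≤ ub n → l ≤ Ln n → |gr w (tl n l + 4 * u) z| ≤ crd n C w z

/-- crude bounds for the kernels -/
def Stmt_CRD : Prop := ∃ C : ℕ, ∀ n ≥ 2, ∀ (w : List (Fin (dm n))) (z : P (dm n)),
  |K0 n w z| ≤ crd n C w z ∧ |K1 n w z| ≤ crd n C w z ∧ |T0 n w z| ≤ crd n C w z ∧
  |T1a n w z| ≤ crd n C w z ∧ |T1b n w z| ≤ crd n C w z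

/-- the kernels are smooth, with the expected derivatives -/
def Stmt_KF0 : Prop := ∀ n ≥ 2, ∀ w : List (Fin (dm n)),
  Smo (K0 n w) ∧ (∀ i, pd i (K0 n w) = K0 n (i :: w)) ∧
  (∀ w' : List (Fin (dm n)), w.Perm w' → K0 n w' = K0 n w)
def Stmt_KF1 : Prop := ∀ n ≥ 2, ∀ w : List (Fin (dm n)),
  Smo (K1 n w) ∧ (∀ i, pd i (K1 n w) = K1 n (i :: w)) ∧
  (∀ w' : List (Fin (dm n)), w.Perm w' → K1 n w' = K1 n w)

/-! ### T. Typical parts -/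

/-- one dimensional upper Riemann sums -/
def Stmt_RS1 : Prop := ∀ (T : ℕ) (κ c : ℝ), 1 ≤ T → 0 < κ → 0 ≤ c → ∃ β : ℤ → ℝ,
  (∀ j, 0 ≤ β j) ∧
  (∀ (j : ℤ) (x : ℝ), (j : ℝ) / T ≤ x → x ≤ ((j : ℝ) + 1) / T →
    Real.exp (-κ * x ^ 2 + c * |x|) ≤ β j) ∧
  Summable β ∧ ∑' j, β j ≤
    T * (Real.exp (c ^ 2 / (4 * κ)) * (Real.sqrt (π / κ) + c / κ + 4 / T))

/-- the local part is small in the `p = 1/2` sense -/
def Stmt_TYH : Prop := ∃ n0 : ℕ, ∀ n ≥ n0, ∃ g : Z (dm n) → ℝ, (∀ j, 0 ≤ g j) ∧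
  (∀ j, ∀ z ∈ Cb n j, ∀ w : List (Fin (dm n)), w.length ≤ dm n →
    |T0 n w z| + ∑ i, |T1a n (i :: w) z| ≤ Rn n ^ w.length * g j) ∧
  Summable (fun j => Real.sqrt (g j)) ∧
  ∑' j, Real.sqrt (g j) ≤ Real.exp (-(n : ℝ) ^ 4 / 50) * (dm n : ℝ) ^ dm n

/-- the narrow part of the subordination integral is small in `L¹` -/
def Stmt_TYE : Prop := ∃ n0 : ℕ, ∀ n ≥ n0, ∃ g : Z (dm n) → ℝ, (∀ j, 0 ≤ g j) ∧
  (∀ j, ∀ z ∈ Cb n j, ∀ w : List (Fin (dm n)), w.length ≤ dm n →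
    ∑ i, |T1b n (i :: w) z| ≤ Rn n ^ w.length * g j) ∧
  Summable g ∧ ∑' j, g j ≤ Real.exp (-(n : ℝ) ^ 2 / 16500) * (dm n : ℝ) ^ dm n

/-! ### A. Aliasing -/

/-- one dimensional lattice sums of wide Gaussians -/
def Stmt_TH1 : Prop := ∀ (τ : ℝ) (ζ : ℂ) (a b : ℕ) (x : ℝ), 64 ≤ τ → ‖ζ - τ‖ ≤ τ / 2 →
  Summable (fun k : ℤ => ‖iteratedDeriv a (phc ζ) ((x - k : ℝ) : ℂ) * (((k : ℝ) - x : ℝ) : ℂ) ^ b‖) ∧
  ‖(∑' k : ℤ, iteratedDeriv a (phc ζ) ((x - k : ℝ) : ℂ) * (((k : ℝ) - x : ℝ) : ℂ) ^ b) -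
    ∫ t : ℝ, iteratedDeriv a (phc ζ) ((-t : ℝ) : ℂ) * (t : ℂ) ^ b‖ ≤
    a.factorial * b.factorial * 8 ^ b * 3 * Real.exp (-3 * τ)

/-- one dimensional moments -/
def Stmt_IN1 : Prop := ∀ (ζ : ℂ) (a b : ℕ), 0 < ζ.re →
  Integrable (fun t : ℝ => iteratedDeriv a (phc ζ) ((-t : ℝ) : ℂ) * (t : ℂ) ^ b) ∧
  (∃ (m : ℂ) (j : ℕ), ‖m‖ ≤ b.factorial ∧ j ≤ b ∧ (a = 0 → b = 0 → m = 1 ∧ j = 0) ∧
    (∀ ζ' : ℂ, 0 < ζ'.re →
      ∫ t : ℝ, iteratedDeriv a (phc ζ') ((-t : ℝ) : ℂ) * (t : ℂ) ^ b = m * ζ' ^ j))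

/-- moments of `gw` against monomials -/
def INc {D : ℕ} (ζ : ℂ) (w v : List (Fin D)) : ℂ := ∫ x : P D, gw w ζ (-x) * (mon v x : ℂ)

/-- aliasing in dimension `D` -/
def Stmt_ALD : Prop := ∀ (D : ℕ) (τ : ℝ) (ζ : ℂ) (w v : List (Fin D)) (z : P D), 1 ≤ D →
  64 ≤ τ → (D : ℝ) ≤ Real.exp τ → ‖ζ - τ‖ ≤ τ / 2 → w.length ≤ 2 * D → v.length ≤ 2 * D →
  Summable (fun k : Z D => ‖gw w ζ (z - zr k) * (mon v (zr k - z) : ℂ)‖) ∧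
  ‖(∑' k : Z D, gw w ζ (z - zr k) * (mon v (zr k - z) : ℂ)) - INc ζ w v‖ ≤
    (2 * (D : ℝ)) ^ w.length * (32 * (D : ℝ) ^ 2) ^ v.length * (6 * D) * Real.exp (-2 * τ)

/-- domination of the lattice terms on the circle (for interchanging sum and circle integral) -/
def Stmt_ALB : Prop := ∀ (D : ℕ) (τ : ℝ) (w v : List (Fin D)) (z : P D), 0 < τ →
  ∃ b : Z D → ℝ, Summable b ∧ ∀ (ζ : ℂ), ‖ζ - τ‖ ≤ τ / 2 → ∀ k : Z D,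
    ‖gw w ζ (z - zr k) * (mon v (zr k - z) : ℂ)‖ ≤ b k

/-! ### O. Polynomials -/

variable {D : ℕ} {X : Type} [NormedAddCommGroup X] [NormedSpace ℝ X]

/-- polynomial maps of degree `< M` -/
structure IsPol (M : ℕ) (Q : P D → X) : Prop where
  sm : Smo Q
  top : ∀ w : List (Fin D), M ≤ w.length → ∀ x, pdw w Q x = 0

/-- `e^{τΔ/4}` on polynomials -/
def Tp (M : ℕ) (τ : ℝ) (Q : P D → X) : P D → X :=
  fun x => ∑ l ∈ Finset.range M, ((τ / 4) ^ l / l.factorial : ℝ) • (Lap^[l] Q) x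

/-- `cosh(ω|∇|) e^{τΔ/4}` on polynomials -/
def Ch (M : ℕ) (ω τ : ℝ) (Q : P D → X) : P D → X :=
  fun x => ∑ r ∈ Finset.range M,
    ((-1) ^ r * ω ^ (2 * r) / (2 * r).factorial : ℝ) • (Lap^[r] (Tp M τ Q)) x

/-- `sinh(ω|∇|)/|∇| e^{τΔ/4}` on polynomials -/
def Sh (M : ℕ) (ω τ : ℝ) (Q : P D → X) : P D → X :=
  fun x => ∑ r ∈ Finset.range M,
    ((-1) ^ r * ω ^ (2 * r + 1) / (2 * r + 1).factorial : ℝ) • (Lap^[r] (Tp M τ Q)) x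

/-- calculus of smooth functions -/
def Stmt_SMO : Prop := ∀ (D : ℕ) (X : Type) [NormedAddCommGroup X] [NormedSpace ℝ X]
    (A : Fin D → (X →L[ℝ] X)) (f g : P D → X), Smo f → Smo g →
  (∀ i, Smo (pd i f)) ∧ (∀ w, Smo (pdw w f)) ∧ (∀ i j, pd i (pd j f) = pd j (pd i f)) ∧
  (∀ w w' : List (Fin D), w.Perm w' → pdw w f = pdw w' f) ∧
  (∀ w w' : List (Fin D), pdw (w ++ w') f = pdw w (pdw w' f)) ∧
  (∀ w, pdw w (fun x => f x + g x) = fun x => pdw w f x + pdw w g x) ∧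
  (∀ w (c : ℝ), pdw w (fun x => c • f x) = fun x => c • pdw w f x) ∧
  (∀ w (B : X →L[ℝ] X), pdw w (fun x => B (f x)) = fun x => B (pdw w f x)) ∧
  Smo (DD A f) ∧ Smo (Lap f) ∧ (∀ w, pdw w (DD A f) = DD A (pdw w f)) ∧
  (∀ w, pdw w (Lap f) = Lap (pdw w f)) ∧
  (Cliff A → ∀ x, DD A (DD A f) x = -Lap f x)

/-- Taylor polynomial with remainder -/
def Stmt_TPX : Prop := ∀ (D : ℕ) (X : Type) [NormedAddCommGroup X] [NormedSpace ℝ X]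
    (M : ℕ) (f : P D → X) (z : P D), Smo f → ∃ Q : P D → X, IsPol M Q ∧
  (∀ w : List (Fin D), w.length < M → pdw w Q z = pdw w f z) ∧
  (∀ (y : P D) (b : ℝ), (∀ t ∈ Icc (0 : ℝ) 1, ∀ w : List (Fin D), w.length = M →
      ‖pdw w f (z + t • (y - z))‖ ≤ b) →
    ∀ w : List (Fin D), w.length < M →
      ‖pdw w f y - pdw w Q y‖ ≤ b * (D * ‖y - z‖) ^ (M - w.length))

/-- polynomials are equal to their Taylor expansion -/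
def Stmt_TEX : Prop := ∀ (D : ℕ) (X : Type) [NormedAddCommGroup X] [NormedSpace ℝ X]
    (M : ℕ) (Q : P D → X) (z x : P D), IsPol M Q →
  Q x = ∑ m ∈ Finset.range M, (1 / m.factorial : ℝ) • ∑ v : Fin m → Fin D,
    mon (List.ofFn v) (x - z) • pdw (List.ofFn v) Q z

/-- closure properties -/
def Stmt_PO1 : Prop := ∀ (D : ℕ) (X : Type) [NormedAddCommGroup X] [NormedSpace ℝ X]
    (A : Fin D → (X →L[ℝ] X)) (M : ℕ) (Q : P D → X), IsPol M Q →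
  (∀ w, IsPol (M - w.length) (pdw w Q)) ∧ IsPol M (DD A Q) ∧ IsPol M (Lap Q) ∧
  (∀ τ, IsPol M (Tp M τ Q)) ∧ (∀ ω τ, IsPol M (Ch M ω τ Q) ∧ IsPol M (Sh M ω τ Q)) ∧
  (∀ (b : ℕ → ℝ) (K : ℕ), IsPol M (fun x => ∑ q ∈ Finset.range K, b q • ((DD A)^[q] Q) x)) ∧
  (∀ B : X →L[ℝ] X, IsPol M (fun x => B (Q x)))

/-- integrals of polynomials against derivatives of real Gaussians -/
def Stmt_PO3 : Prop := ∀ (D : ℕ) (X : Type) [NormedAddCommGroup X] [NormedSpace ℝ X]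
    [FiniteDimensional ℝ X] (M : ℕ) (Q : P D → X) (τ : ℝ) (w : List (Fin D)) (z : P D),
  IsPol M Q → 0 < τ → Integrable (fun x => gr w τ (z - x) • Q x) ∧
  ∫ x, gr w τ (z - x) • Q x = pdw w (Tp M τ Q) z

/-- finite differences in the heat time kill polynomials -/
def Stmt_PO4 : Prop := ∀ (D : ℕ) (X : Type) [NormedAddCommGroup X] [NormedSpace ℝ X]
    (M L : ℕ) (Q : P D → X) (τ u ω : ℝ) (x : P D), IsPol M Q → M ≤ L →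
  (∑ l ∈ Finset.range (L + 1), ((-1) ^ l * (L.choose l : ℝ)) • Tp M (τ + 4 * l * u) Q x = 0) ∧
  (∑ l ∈ Finset.range (L + 1), ((-1) ^ l * (L.choose l : ℝ)) • Ch M ω (τ + 4 * l * u) Q x = 0) ∧
  (∑ l ∈ Finset.range (L + 1), ((-1) ^ l * (L.choose l : ℝ)) • Sh M ω (τ + 4 * l * u) Q x = 0)

/-- the operator `𝓛` inverts `e^{ω𝒟} e^{τΔ/4}` on polynomials -/
def Stmt_PO5 : Prop := ∀ (D : ℕ) (X : Type) [NormedAddCommGroup X] [NormedSpace ℝ X]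
    (A : Fin D → (X →L[ℝ] X)) (M : ℕ) (Q : P D → X) (τ ω : ℝ) (x : P D), Cliff A → IsPol M Q →
  Ch M ω τ (fun y => ∑ q ∈ Finset.range M, bq ω τ q • ((DD A)^[q] Q) y) x +
    DD A (Sh M ω τ (fun y => ∑ q ∈ Finset.range M, bq ω τ q • ((DD A)^[q] Q) y)) x = Q x

/-- moments, circle transforms and polynomials -/
def Stmt_CMX : Prop := ∀ (D : ℕ) (X : Type) [NormedAddCommGroup X] [NormedSpace ℝ X]
    [FiniteDimensional ℝ X] (M : ℕ) (Q : P D → X) (τ ω : ℝ) (w : List (Fin D)) (z : P D),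
  IsPol M Q → 0 < τ →
  (∑ m ∈ Finset.range M, (1 / m.factorial : ℝ) • ∑ v : Fin m → Fin D,
    (cc ω τ (fun ζ => INc ζ w (List.ofFn v))).re • pdw (List.ofFn v) Q z =
      pdw w (Ch M ω τ Q) z) ∧
  (∑ m ∈ Finset.range M, (1 / m.factorial : ℝ) • ∑ v : Fin m → Fin D,
    (cs ω τ (fun ζ => INc ζ w (List.ofFn v))).re • pdw (List.ofFn v) Q z =
      pdw w (Sh M ω τ Q) z) ∧
  (∑ m ∈ Finset.range M, (1 / m.factorial : ℝ) • ∑ v : Fin m → Fin D,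
    (INc (τ : ℂ) w (List.ofFn v)).re • pdw (List.ofFn v) Q z = pdw w (Tp M τ Q) z)

/-! ### W. Wide parts against polynomials -/

/-- lattice sums of the circle transforms (wide) -/
def Stmt_WIA : Prop := ∀ (D : ℕ) (X : Type) [NormedAddCommGroup X] [NormedSpace ℝ X]
    [FiniteDimensional ℝ X] (M : ℕ) (Q : P D → X) (τ ω b δ : ℝ) (w : List (Fin D)) (z : P D),
  IsPol M Q → 1 ≤ D → M ≤ 2 * D → 64 ≤ τ → (D : ℝ) ≤ Real.exp τ → 0 ≤ ω → 0 ≤ b → 0 ≤ δ →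
  64 * (D : ℝ) ^ 3 * δ ≤ 1 → w.length ≤ 2 * D →
  (∀ v : List (Fin D), ‖pdw v Q z‖ ≤ b * δ ^ v.length) →
  (Summable (fun k : Z D => ‖(cc ω τ (fun ζ => gw w ζ (z - zr k))).re • Q (zr k)‖) ∧
    ‖(∑' k : Z D, (cc ω τ (fun ζ => gw w ζ (z - zr k))).re • Q (zr k)) -
      pdw w (Ch M ω τ Q) z‖ ≤
      (2 * (D : ℝ)) ^ w.length * (12 * D) * b * Real.exp (4 * ω ^ 2 / τ) * Real.exp (-2 * τ)) ∧
  (Summable (fun k : Z D => ‖(cs ω τ (fun ζ => gw w ζ (z - zr k))).re • Q (zr k)‖) ∧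
    ‖(∑' k : Z D, (cs ω τ (fun ζ => gw w ζ (z - zr k))).re • Q (zr k)) -
      pdw w (Sh M ω τ Q) z‖ ≤
      (2 * (D : ℝ)) ^ w.length * (12 * D) * b * (ω * Real.exp (4 * ω ^ 2 / τ)) *
        Real.exp (-2 * τ)) ∧
  (Summable (fun k : Z D => ‖gr w τ (z - zr k) • Q (zr k)‖) ∧
    ‖(∑' k : Z D, gr w τ (z - zr k) • Q (zr k)) - pdw w (Tp M τ Q) z‖ ≤
      (2 * (D : ℝ)) ^ w.length * (12 * D) * b * Real.exp (-2 * τ))

/-- wide part of the subordination integral, large heat times (`u > u_b`) -/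
def Stmt_WIC : Prop := ∃ n0 : ℕ, ∀ n ≥ n0, ∀ (X : Type) [NormedAddCommGroup X]
    [NormedSpace ℝ X] [FiniteDimensional ℝ X] (Q : P (dm n) → X) (z : P (dm n)) (b : ℝ)
    (w : List (Fin (dm n))), 0 ≤ b → IsPol (dm n) Q →
  (∀ v : List (Fin (dm n)), ‖pdw v Q z‖ ≤ b * dl n ^ v.length) → w.length ≤ 2 * dm n →
  Summable (fun k : Z (dm n) => ‖(∫ u in Ioi (ub n), Wf (om n) u *
    ∑ l ∈ Finset.range (Ln n + 1), bs n l * gr w (tl n l + 4 * u) (z - zr k)) • Q (zr k)‖) ∧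
  ‖∑' k : Z (dm n), (∫ u in Ioi (ub n), Wf (om n) u *
    ∑ l ∈ Finset.range (Ln n + 1), bs n l * gr w (tl n l + 4 * u) (z - zr k)) • Q (zr k)‖ ≤
    Rn n ^ w.length * Real.exp (-2 * (n : ℝ) ^ 2) * b

/-- wide part of the subordination integral, small heat times, `l ≥ 1` -/
def Stmt_WIE : Prop := ∃ n0 : ℕ, ∀ n ≥ n0, ∀ (X : Type) [NormedAddCommGroup X]
    [NormedSpace ℝ X] [FiniteDimensional ℝ X] (Q : P (dm n) → X) (z : P (dm n)) (b : ℝ)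
    (w : List (Fin (dm n))), 0 ≤ b → IsPol (dm n) Q →
  (∀ v : List (Fin (dm n)), ‖pdw v Q z‖ ≤ b * dl n ^ v.length) → w.length ≤ 2 * dm n →
  Summable (fun k : Z (dm n) => ‖(∫ u in Ioc (0 : ℝ) (ub n), Wf (om n) u *
    ∑ l ∈ Finset.Ico 1 (Ln n + 1), bs n l * gr w (tl n l + 4 * u) (z - zr k)) • Q (zr k)‖) ∧
  ‖∑' k : Z (dm n), (∫ u in Ioc (0 : ℝ) (ub n), Wf (om n) u *
    ∑ l ∈ Finset.Ico 1 (Ln n + 1), bs n l * gr w (tl n l + 4 * u) (z - zr k)) • Q (zr k)‖ ≤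
    (Rn n ^ w.length * Real.exp (-(n : ℝ) ^ 2 / 16500)) * b

/-- lattice sums of the wide kernel against `𝓛 Q` -/
def Stmt_WID : Prop := ∃ n0 : ℕ, ∀ n ≥ n0, ∀ (X : Type) [NormedAddCommGroup X]
    [NormedSpace ℝ X] [FiniteDimensional ℝ X] (A : Fin (dm n) → (X →L[ℝ] X))
    (Q : P (dm n) → X) (z : P (dm n)) (b : ℝ) (w : List (Fin (dm n))), Cliff A → 0 ≤ b →
  IsPol (dm n) Q → (∀ v : List (Fin (dm n)), ‖pdw v Q z‖ ≤ b * dl n ^ v.length) →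
  w.length ≤ dm n →
  Summable (fun k : Z (dm n) => ‖W0 n w (z - zr k) • LL n A Q (zr k) +
    ∑ i, W1 n (i :: w) (z - zr k) • A i (LL n A Q (zr k))‖) ∧
  ‖(∑' k : Z (dm n), (W0 n w (z - zr k) • LL n A Q (zr k) +
    ∑ i, W1 n (i :: w) (z - zr k) • A i (LL n A Q (zr k)))) + pdw w Q z‖ ≤
    Rn n ^ w.length * (th n / 4) * b

/-! ### L. The local inequality -/

/-- bounds for `𝓛 F` -/
def Stmt_LLB : Prop := ∃ n0 : ℕ, ∀ n ≥ n0, ∀ (X : Type) [NormedAddCommGroup X]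
    [NormedSpace ℝ X] (A : Fin (dm n) → (X →L[ℝ] X)) (F : P (dm n) → X)
    (x : P (dm n)) (a : ℝ), Cliff A → Smo F → 0 ≤ a →
  (∀ w : List (Fin (dm n)), w.length < dm n → ‖pdw w F x‖ ≤ a * dl n ^ w.length) →
  ‖LL n A F x‖ ≤ 2 * a

/-- `𝓛` of a Taylor remainder -/
def Stmt_LLR : Prop := ∃ C n0 : ℕ, ∀ n ≥ n0, ∀ (X : Type) [NormedAddCommGroup X]
    [NormedSpace ℝ X] (A : Fin (dm n) → (X →L[ℝ] X)) (F : P (dm n) → X)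
    (x : P (dm n)) (a s : ℝ), Cliff A → Smo F → 0 ≤ a → 0 ≤ s →
  (∀ w : List (Fin (dm n)), w.length < dm n →
    ‖pdw w F x‖ ≤ a * dl n ^ dm n * (dm n * s) ^ (dm n - w.length)) →
  ‖LL n A F x‖ ≤ a * (dl n * (n : ℝ) ^ C) ^ dm n * (1 + s) ^ dm n

/-- growth of polynomials -/
def Stmt_PGR : Prop := ∃ n0 : ℕ, ∀ n ≥ n0, ∀ (X : Type) [NormedAddCommGroup X]
    [NormedSpace ℝ X] (A : Fin (dm n) → (X →L[ℝ] X)) (Q : P (dm n) → X)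
    (z x : P (dm n)) (b : ℝ), Cliff A → 0 ≤ b → IsPol (dm n) Q →
  (∀ v : List (Fin (dm n)), ‖pdw v Q z‖ ≤ b * dl n ^ v.length) →
  (∀ v : List (Fin (dm n)), ‖pdw v (LL n A Q) z‖ ≤ 2 * b * dl n ^ v.length) ∧
  ‖LL n A Q x‖ ≤ 2 * b * (1 + ‖x - z‖) ^ dm n

/-- lattice sums of the decay weights -/
def Stmt_LSW : Prop := ∃ C : ℕ, ∀ n ≥ 2, ∀ (x : P (dm n)) (e : ℤ), 2 * (dm n : ℤ) ≤ e →
  Summable (fun k : Z (dm n) => (1 + ‖x - zr k‖) ^ (-e)) ∧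
  ∑' k : Z (dm n), (1 + ‖x - zr k‖) ^ (-e) ≤ (n : ℝ) ^ (C * n ^ 4)

/-- the derivative of one step -/
def Stmt_DST : Prop := ∀ n ≥ 2, ∀ (X : Type) [NormedAddCommGroup X] [NormedSpace ℝ X]
    (A : Fin (dm n) → (X →L[ℝ] X)) (S : Finset (Z (dm n))) (F : P (dm n) → X), Smo F →
  Smo (stp n A S F) ∧ ∀ (w : List (Fin (dm n))) (z : P (dm n)), pdw w (stp n A S F) z =
    pdw w F z + ∑ k ∈ ZA n S, (K0 n w (z - zr k) • LL n A F (zr k) +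
      ∑ i, K1 n (i :: w) (z - zr k) • A i (LL n A F (zr k)))

/-- near part of the Taylor error and the main term: the jet at `z` -/
def Stmt_LIM : Prop := ∃ n0 : ℕ, ∀ n ≥ n0, ∀ (X : Type) [NormedAddCommGroup X]
    [NormedSpace ℝ X] [FiniteDimensional ℝ X] (A : Fin (dm n) → (X →L[ℝ] X))
    (F : P (dm n) → X) (q : Z (dm n)) (z : P (dm n)) (b bb : ℝ) (w : List (Fin (dm n))),
  Cliff A → Smo F → 0 ≤ b → 0 ≤ bb → z ∈ Cb n q → w.length ≤ dm n →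
  (∀ v : List (Fin (dm n)), v.length ≤ dm n → ‖pdw v F z‖ ≤ b * dl n ^ v.length) →
  (∀ y : P (dm n), ‖y - z‖ ≤ (rn n : ℝ) → ∀ v : List (Fin (dm n)), v.length = dm n →
    ‖pdw v F y‖ ≤ bb * dl n ^ dm n) →
  ∀ Nr : Finset (Z (dm n)), (∀ k, k ∈ Nr ↔ nrk n q k) →
  ‖pdw w F z + ∑ k ∈ Nr, (W0 n w (z - zr k) • LL n A F (zr k) +
    ∑ i, W1 n (i :: w) (z - zr k) • A i (LL n A F (zr k)))‖ ≤
    Rn n ^ w.length * (th n / 2 * b + ep n * bb)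

/-- the local inequality -/
def Stmt_LIN : Prop := ∃ n0 : ℕ, ∀ n ≥ n0, ∀ (X : Type) [NormedAddCommGroup X]
    [NormedSpace ℝ X] [FiniteDimensional ℝ X] (A : Fin (dm n) → (X →L[ℝ] X))
    (S : Finset (Z (dm n))) (F : P (dm n) → X) (a : Z (dm n) → ℝ) (g : Z (dm n) → ℝ),
  Cliff A → Smo F → (∀ p, 0 ≤ a p) →
  (∀ p ∈ S, ∀ z ∈ Pb n p, ∀ w : List (Fin (dm n)), w.length ≤ dm n →
    ‖pdw w F z‖ ≤ a p * dl n ^ w.length) → (∀ j, 0 ≤ g j) →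
  (∀ j, ∀ z ∈ Cb n j, ∀ w : List (Fin (dm n)), w.length ≤ dm n →
    |T0 n w z| + (∑ i, |T1a n (i :: w) z|) + (∑ i, |T1b n (i :: w) z|) ≤
      Rn n ^ w.length * g j) →
  ∀ q ∈ chd n S, GC n S q → ∀ z ∈ Cb n q, ∀ w : List (Fin (dm n)), w.length ≤ dm n →
  open scoped Classical in
  ‖pdw w (stp n A S F) z‖ ≤ Rn n ^ w.length *
    (2 * (∑ k ∈ (ZA n S).filter (nrk n q), g (q - (dm n : ℤ) • k) * a (pr n k)) +
      th n * a (pc n q) + ep n * (∑ p ∈ S.filter (nrp n q), a p) +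
      ep n * ∑ k ∈ ZA n S, wt n q k * a (pr n k))

/-! ### S. The one step theorem -/

/-- one step -/
def Stmt_ONE : Prop := ∃ n0 : ℕ, ∀ n ≥ n0, ∀ (X : Type) [NormedAddCommGroup X]
    [NormedSpace ℝ X] [FiniteDimensional ℝ X] (A : Fin (dm n) → (X →L[ℝ] X))
    (S : Finset (Z (dm n))) (F : P (dm n) → X) (a : Z (dm n) → ℝ),
  Cliff A → Smo F → (∀ p, 0 ≤ a p) →
  (∀ p ∈ S, ∀ z ∈ Pb n p, ∀ w : List (Fin (dm n)), w.length ≤ dm n →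
    ‖pdw w F z‖ ≤ a p * dl n ^ w.length) →
  ∃ a' : Z (dm n) → ℝ, (∀ q, 0 ≤ a' q) ∧
    (∀ q ∈ chd n S, GC n S q → ∀ z ∈ Cb n q, ∀ w : List (Fin (dm n)), w.length ≤ dm n →
      ‖pdw w (stp n A S F) z‖ ≤ a' q * Rn n ^ w.length) ∧
    open scoped Classical in
    ∑ q ∈ (chd n S).filter (GC n S), Real.sqrt (a' q) ≤
      thh n * (rho n : ℝ) ^ dm n * ∑ p ∈ S, Real.sqrt (a p)

/-- sums over children of kernel weights: local part -/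
def Stmt_SU1 : Prop := ∀ n ≥ 2, ∀ (S : Finset (Z (dm n))) (a g : Z (dm n) → ℝ),
  (∀ p, 0 ≤ a p) → (∀ j, 0 ≤ g j) → Summable (fun j => Real.sqrt (g j)) →
  open scoped Classical in
  ∑ q ∈ (chd n S).filter (GC n S),
    Real.sqrt (∑ k ∈ (ZA n S).filter (nrk n q), g (q - (dm n : ℤ) • k) * a (pr n k)) ≤
    (∑' j, Real.sqrt (g j)) * ((2 : ℝ) ^ n) ^ dm n * ∑ p ∈ S, Real.sqrt (a p)

/-- sums over children of kernel weights: `L¹` part -/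
def Stmt_SU2 : Prop := ∃ n0 : ℕ, ∀ n ≥ n0, ∀ (S : Finset (Z (dm n))) (a g : Z (dm n) → ℝ),
  (∀ p, 0 ≤ a p) → (∀ j, 0 ≤ g j) → Summable g →
  open scoped Classical in
  ∑ q ∈ (chd n S).filter (GC n S),
    Real.sqrt (∑ k ∈ (ZA n S).filter (nrk n q), g (q - (dm n : ℤ) • k) * a (pr n k)) ≤
    2 * Real.sqrt ((∑' j, g j) * ((dm n : ℝ) ^ dm n)⁻¹) * (rho n : ℝ) ^ dm n *
      ∑ p ∈ S, Real.sqrt (a p)

/-- the remaining sums -/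
def Stmt_SU3 : Prop := ∃ C : ℕ, ∀ n ≥ 2, ∀ (S : Finset (Z (dm n))) (a : Z (dm n) → ℝ),
  (∀ p, 0 ≤ a p) →
  open scoped Classical in
  ∑ q ∈ (chd n S).filter (GC n S), Real.sqrt (a (pc n q)) ≤
    (rho n : ℝ) ^ dm n * ∑ p ∈ S, Real.sqrt (a p) ∧
  ∑ q ∈ (chd n S).filter (GC n S), Real.sqrt (∑ p ∈ S.filter (nrp n q), a p) ≤
    (n : ℝ) ^ (C * n ^ 4) * (rho n : ℝ) ^ dm n * ∑ p ∈ S, Real.sqrt (a p) ∧
  ∑ q ∈ (chd n S).filter (GC n S), Real.sqrt (∑ k ∈ ZA n S, wt n q k * a (pr n k)) ≤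
    (n : ℝ) ^ (C * n ^ 4) * (rho n : ℝ) ^ dm n * ∑ p ∈ S, Real.sqrt (a p)

/-! ### P. Poisson extension: general facts -/

/-- subordination -/
def Stmt_SUB : Prop :=
  (∀ y > 0, ∀ s ≥ 0, IntegrableOn (fun u => lev y u * Real.exp (-u * s ^ 2)) (Ioi 0) ∧
    ∫ u in Ioi (0 : ℝ), lev y u * Real.exp (-u * s ^ 2) = Real.exp (-y * s)) ∧
  (∀ y > 0, ∀ u > 0, 0 ≤ lev y u) ∧
  (∀ ω ≥ 0, ∀ s > 0, IntegrableOn (fun u => Wf ω u * Real.exp (-u * s ^ 2)) (Ioi 0) ∧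
    ∫ u in Ioi (0 : ℝ), Wf ω u * Real.exp (-u * s ^ 2) = Real.exp (-ω * s) / s) ∧
  (∀ y > 0, IntegrableOn (lev y) (Ioi 0) ∧ ∫ u in Ioi (0 : ℝ), lev y u = 1) ∧
  (∃ C : ℝ, ∀ y > 0, IntegrableOn (fun u => lev y u / Real.sqrt u) (Ioi 0) ∧
    ∫ u in Ioi (0 : ℝ), lev y u / Real.sqrt u ≤ C / y) ∧
  (∃ C : ℝ, ∀ y > 0, y ≤ 1 → IntegrableOn (fun u => lev y u * min 1 (Real.sqrt u)) (Ioi 0) ∧
    ∫ u in Ioi (0 : ℝ), lev y u * min 1 (Real.sqrt u) ≤ C * Real.sqrt y)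

/-- bounded continuous functions: integrability and sup bound -/
def Stmt_PB1 : Prop := ∀ (D : ℕ) (X : Type) [NormedAddCommGroup X] [NormedSpace ℝ X]
    [FiniteDimensional ℝ X] (f : P D → X) (B : ℝ), Continuous f → (∀ x, ‖f x‖ ≤ B) →
  (∀ u > 0, ∀ x, Integrable (fun y => gs (4 * u) (x - y) • f y) ∧ ‖ht u f x‖ ≤ B) ∧
  (∀ y > 0, ∀ x, IntegrableOn (fun u => lev y u • ht u f x) (Ioi 0) ∧ ‖Poi f x y‖ ≤ B) ∧
  (ContinuousOn (fun p : P D × ℝ => Poi f p.1 p.2) {p | 0 < p.2})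

/-- linearity -/
def Stmt_PB2 : Prop := ∀ (D : ℕ) (X : Type) [NormedAddCommGroup X] [NormedSpace ℝ X]
    [FiniteDimensional ℝ X] (f g : P D → X) (B : ℝ), Continuous f → Continuous g →
  (∀ x, ‖f x‖ ≤ B) → (∀ x, ‖g x‖ ≤ B) → ∀ y > 0, ∀ x,
  Poi (fun z => f z + g z) x y = Poi f x y + Poi g x y ∧
  (∀ c : ℝ, Poi (fun z => c • f z) x y = c • Poi f x y) ∧
  (∀ (Y : Type) [NormedAddCommGroup Y] [NormedSpace ℝ Y] [FiniteDimensional ℝ Y]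
    (T : X →L[ℝ] Y), Poi (fun z => T (f z)) x y = T (Poi f x y)) ∧
  (∀ c : X, Poi (fun _ : P D => c) x y = c)

/-- derivatives in `x` -/
def Stmt_PB3 : Prop := ∀ (D : ℕ) (X : Type) [NormedAddCommGroup X] [NormedSpace ℝ X]
    [FiniteDimensional ℝ X] (f : P D → X) (B : ℝ), BC 1 B f → ∀ y > 0,
  ContDiff ℝ 1 (fun x => Poi f x y) ∧
  (∀ i x, pd i (fun x => Poi f x y) x = Poi (pd i f) x y)

/-- boundary values -/
def Stmt_PB4 : Prop := ∀ D : ℕ, ∃ C : ℝ, ∀ (X : Type) [NormedAddCommGroup X]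
    [NormedSpace ℝ X] [FiniteDimensional ℝ X] (f : P D → X) (B : ℝ), BC 1 B f →
  ∀ x y, 0 < y → y ≤ 1 → ‖Poi f x y - f x‖ ≤ C * B * Real.sqrt y

/-- scaling and translation -/
def Stmt_PB5 : Prop := ∀ (D : ℕ) (X : Type) [NormedAddCommGroup X] [NormedSpace ℝ X]
    [FiniteDimensional ℝ X] (f : P D → X) (B N : ℝ) (x0 x : P D) (y : ℝ), Continuous f →
  (∀ x, ‖f x‖ ≤ B) → 0 < N → 0 < y →
  Poi (fun z => f (N • z - x0)) x y = Poi f (N • x - x0) (N * y)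

/-- decay of derivatives of Poisson extensions -/
def Stmt_PB6 : Prop := ∀ D : ℕ, ∃ C : ℝ, ∀ (X : Type) [NormedAddCommGroup X]
    [NormedSpace ℝ X] [FiniteDimensional ℝ X] (f : P D → X) (B B' : ℝ), BC 1 B' f →
  (∀ x, ‖f x‖ ≤ B) → ∀ i x y, 0 < y → ‖Poi (pd i f) x y‖ ≤ C * B / y

/-- Poisson extension of Fourier integrals -/
def Stmt_PFT : Prop := ∀ (D : ℕ) (m : P D → ℝ), Integrable m → ∀ x : P D, ∀ y > 0,
  Poi (fun z : P D => ∫ ξ : P D, m ξ * Real.cos (∑ i, z i * ξ i)) x y =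
    ∫ ξ : P D, m ξ * Real.exp (-y * Real.sqrt (∑ i, ξ i ^ 2)) * Real.cos (∑ i, x i * ξ i) ∧
  Poi (fun z : P D => ∫ ξ : P D, m ξ * Real.sin (∑ i, z i * ξ i)) x y =
    ∫ ξ : P D, m ξ * Real.exp (-y * Real.sqrt (∑ i, ξ i ^ 2)) * Real.sin (∑ i, x i * ξ i)

/-! ### H. Hardy functions -/

/-- the symbol of the scalar part of the kernel -/
def m0 (n : ℕ) (ξ : P (dm n)) : ℝ :=
  Real.cosh (om n * Real.sqrt (∑ i, ξ i ^ 2)) *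
    (1 - Real.exp (-um n * ∑ i, ξ i ^ 2)) ^ Ln n * Real.exp (-t0 / 4 * ∑ i, ξ i ^ 2)

/-- the symbol is integrable against polynomials -/
def Stmt_MIN : Prop := ∀ n ≥ 2, ∀ k : ℕ,
  Integrable (fun ξ : P (dm n) => m0 n ξ * (1 + Real.sqrt (∑ i, ξ i ^ 2)) ^ k)

/-- Fourier representation of the kernels -/
def Stmt_FRK : Prop := ∀ n ≥ 2, ∀ z : P (dm n),
  K0 n [] z = ((2 * π) ^ dm n)⁻¹ * ∫ ξ : P (dm n), m0 n ξ * Real.cos (∑ i, z i * ξ i) ∧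
  ∀ i, K1 n [i] z = -(((2 * π) ^ dm n)⁻¹ * ∫ ξ : P (dm n),
    (m0 n ξ * (ξ i / Real.sqrt (∑ i, ξ i ^ 2))) * Real.sin (∑ i, z i * ξ i))

/-- the kernel is a Hardy function -/
def Stmt_HAK : Prop := ∀ n ≥ 2, ∀ (X : Type) [NormedAddCommGroup X] [NormedSpace ℝ X]
    [FiniteDimensional ℝ X] (A : Fin (dm n) → (X →L[ℝ] X)) (c : X), Cliff A →
  Hardy A (kap n A c)

/-- closure properties of the class of Hardy functions -/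
def Stmt_HAC : Prop := ∀ (D : ℕ) (X : Type) [NormedAddCommGroup X] [NormedSpace ℝ X]
    [FiniteDimensional ℝ X] (A : Fin D → (X →L[ℝ] X)),
  (∀ (f g : P D → X) (B : ℝ), BC 1 B f → BC 1 B g → Hardy A f → Hardy A g →
    Hardy A (fun x => f x + g x) ∧ ∀ c : ℝ, Hardy A (fun x => c • f x)) ∧
  (∀ (f : P D → X) (B N : ℝ) (x0 : P D), BC 1 B f → 0 < N → Hardy A f →
    Hardy A (fun x => f (N • x - x0))) ∧
  (∀ (f : ℕ → P D → X) (g : P D → X) (B : ℕ → ℝ) (ε : ℕ → ℝ), (∀ j, BC 1 (B j) (f j)) →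
    (∀ j, BC 1 (ε j) (fun x => f j x - g x)) → Tendsto ε atTop (𝓝 0) →
    (∀ j, Hardy A (f j)) → Hardy A g)

/-- the plane wave -/
def pw (A : Fin D → (X →L[ℝ] X)) (i : Fin D) (N : ℝ) (x0 : P D) (e : X) : P D → X :=
  fun x => Real.cos (N * (x i - x0 i)) • e - Real.sin (N * (x i - x0 i)) • A i e

def Stmt_HAP : Prop := ∀ (D : ℕ) (X : Type) [NormedAddCommGroup X] [NormedSpace ℝ X]
    [FiniteDimensional ℝ X] (A : Fin D → (X →L[ℝ] X)) (i : Fin D) (N : ℝ) (x0 : P D) (e : X),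
  Cliff A → 0 < N → ‖e‖ ≤ 1 →
  Smo (pw A i N x0 e) ∧ (∀ w x, ‖pdw w (pw A i N x0 e) x‖ ≤ 2 * N ^ w.length) ∧
  Hardy A (pw A i N x0 e) ∧
  ∀ x, ∀ y > 0, Poi (pw A i N x0 e) x y = Real.exp (-(N * y)) • pw A i N x0 e x

/-- lattice sums of kernels: boundedness and decay (constants depend on `n` only) -/
def Stmt_LSK : Prop := ∀ n ≥ 2, ∃ C : ℝ, 0 < C ∧ ∀ (X : Type) [NormedAddCommGroup X]
    [NormedSpace ℝ X] [FiniteDimensional ℝ X] (A : Fin (dm n) → (X →L[ℝ] X))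
    (S : Finset (Z (dm n))) (c : Z (dm n) → X) (a : ℝ), Cliff A → (∀ k ∈ S, ‖c k‖ ≤ a) → 0 ≤ a →
  Smo (fun z => ∑ k ∈ S, kap n A (c k) (z - zr k)) ∧
  (∀ w : List (Fin (dm n)), w.length ≤ 7 → ∀ z,
    ‖pdw w (fun z => ∑ k ∈ S, kap n A (c k) (z - zr k)) z‖ ≤ C * a) ∧
  (∀ z, ∀ y > 0, ‖Poi (fun z => ∑ k ∈ S, kap n A (c k) (z - zr k)) z y‖ ≤ C * a / y)

/-- the scalar part of the kernel is a Laplacian of a decaying function -/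
def Stmt_K2P : Prop := ∀ n ≥ 2, ∃ K : P (dm n) → ℝ, Smo K ∧ (∀ z, K0 n [] z = Lap K z) ∧
  ∃ C : ℝ, ∀ i z, |pd i K z| ≤ C * (1 + ‖z‖) ^ (-(2 * (dm n : ℤ))) ∧
    ∀ j, |pd j (pd i K) z| ≤ C * (1 + ‖z‖) ^ (-(2 * (dm n : ℤ)))

/-! ### C. The cascade -/

/-- frequencies -/
def Nj (n N0 j : ℕ) : ℕ := N0 * rho n ^ j

/-- the factor of the admissible amplitudes -/
def lam (n : ℕ) : ℝ := ((rho n : ℝ) ^ 8)⁻¹

/-- closed cube of generation `j` -/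
def cube (n N0 j : ℕ) (p : Z (dm n)) : Set (P (dm n)) :=
  {x | ∀ i, (p i : ℝ) / (dm n * Nj n N0 j) ≤ x i ∧ x i ≤ ((p i : ℝ) + 1) / (dm n * Nj n N0 j)}

/-- one step in the original coordinates; `N` is the new frequency -/
def stepN (n : ℕ) (A : Fin (dm n) → (X →L[ℝ] X)) (S : Finset (Z (dm n))) (f : P (dm n) → X)
    (N : ℝ) : P (dm n) → X :=
  fun x => stp n A S (fun z => f (N⁻¹ • z)) (N • x)

/-- a run of the construction -/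
structure Casc (n N0 : ℕ) (B0 : ℝ) (A : Fin (dm n) → (X →L[ℝ] X)) (f : ℕ → P (dm n) → X)
    (S : ℕ → Finset (Z (dm n))) (a : ℕ → Z (dm n) → ℝ) : Prop where
  sm : ∀ j, Smo (f j)
  nn : ∀ j p, 0 ≤ a j p
  s0 : ∀ p, p ∈ S 0 ↔ ∀ i, 0 ≤ p i ∧ p i < dm n * N0
  a0 : ∀ p ∈ S 0, a 0 p ≤ 2
  step : ∀ j, f (j + 1) = stepN n A (S j) (f j) (Nj n N0 (j + 1))
  jets : ∀ j, ∀ p ∈ S j, ∀ x ∈ cube n N0 j p, ∀ w : List (Fin (dm n)), w.length ≤ dm n →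
    ‖pdw w (f j) x‖ ≤ a j p * (Rn n * Nj n N0 j) ^ w.length
  ale : ∀ j, ∀ p ∈ S j, a j p ≤ B0 * lam n ^ j
  alive : ∀ j q, q ∈ S (j + 1) ↔ q ∈ chd n (S j) ∧ GC n (S j) q ∧
    a (j + 1) q ≤ B0 * lam n ^ (j + 1)
  sum : ∀ j, open scoped Classical in
    ∑ q ∈ (chd n (S j)).filter (GC n (S j)), Real.sqrt (a (j + 1) q) ≤
      thh n * (rho n : ℝ) ^ dm n * ∑ p ∈ S j, Real.sqrt (a j p)

/-- existence of a run -/
def Stmt_SEQ : Prop := ∃ n0 : ℕ, ∀ n ≥ n0, ∀ (X : Type) [NormedAddCommGroup X]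
    [NormedSpace ℝ X] [FiniteDimensional ℝ X] (A : Fin (dm n) → (X →L[ℝ] X)) (N0 : ℕ) (B0 : ℝ)
    (f0 : P (dm n) → X), Cliff A → 1 ≤ N0 → 2 ≤ B0 → Smo f0 →
  (∀ w : List (Fin (dm n)), w.length ≤ dm n → ∀ x, ‖pdw w f0 x‖ ≤ 2 * (N0 : ℝ) ^ w.length) →
  ∃ f S a, Casc n N0 B0 A f S a ∧ f 0 = f0

/-- the points which are alive for ever fill most of the unit cube, and the limit vanishes there -/
def Stmt_MEA : Prop := ∃ n0 : ℕ, ∀ n ≥ n0, ∀ (X : Type) [NormedAddCommGroup X]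
    [NormedSpace ℝ X] (A : Fin (dm n) → (X →L[ℝ] X)) (N0 : ℕ) (B0 : ℝ)
    (f : ℕ → P (dm n) → X) (S : ℕ → Finset (Z (dm n))) (a : ℕ → Z (dm n) → ℝ),
  1 ≤ N0 → 2 ≤ B0 → Casc n N0 B0 A f S a →
  volume {x | x ∈ Wd (dm n) ∧ ∃ j, ∀ p ∈ S j, x ∉ cube n N0 j p} ≤
    ENNReal.ofReal (4 * dm n * ((rn n : ℝ) + 2) / (rho n * N0) + 4 / Real.sqrt B0)

/-- location of dead points -/
def Stmt_DED : Prop := ∀ (n N0 : ℕ) (B0 : ℝ) (X : Type) [NormedAddCommGroup X]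
    [NormedSpace ℝ X] (A : Fin (dm n) → (X →L[ℝ] X))
    (f : ℕ → P (dm n) → X) (S : ℕ → Finset (Z (dm n))) (a : ℕ → Z (dm n) → ℝ),
  2 ≤ n → 1 ≤ N0 → Casc n N0 B0 A f S a → ∀ j, ∀ x ∈ Wd (dm n), (∀ p ∈ S j, x ∉ cube n N0 j p) →
  (∃ i, x i ≤ 2 * ((rn n : ℝ) + 2) / (rho n * N0) ∨
    1 - 2 * ((rn n : ℝ) + 2) / (rho n * N0) ≤ x i) ∨
  ∃ i ≥ 1, ∃ q ∈ chd n (S (i - 1)), GC n (S (i - 1)) q ∧ B0 * lam n ^ i < a i q ∧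
    ∃ y ∈ cube n N0 i q, ‖x - y‖ ≤ 2 * ((rn n : ℝ) + 2) / (rho n * Nj n N0 i)

/-- increments -/
def Stmt_INC : Prop := ∀ n ≥ 2, ∃ C : ℝ, 0 < C ∧ ∀ (X : Type) [NormedAddCommGroup X]
    [NormedSpace ℝ X] [FiniteDimensional ℝ X] (A : Fin (dm n) → (X →L[ℝ] X)) (N0 : ℕ) (B0 : ℝ)
    (f : ℕ → P (dm n) → X) (S : ℕ → Finset (Z (dm n))) (a : ℕ → Z (dm n) → ℝ), Cliff A →
  1 ≤ N0 → 2 ≤ B0 → Casc n N0 B0 A f S a → (∃ B, BC 1 B (f 0)) → Hardy A (f 0) → ∀ j,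
  (∀ w : List (Fin (dm n)), w.length ≤ 7 → ∀ x, ‖pdw w (fun z => f (j + 1) z - f j z) x‖ ≤
    C * B0 * lam n ^ j * (Nj n N0 (j + 1) : ℝ) ^ w.length) ∧
  (∀ x, ∀ y > 0, ‖Poi (fun z => f (j + 1) z - f j z) x y‖ ≤
    C * B0 * lam n ^ j / (Nj n N0 (j + 1) * y)) ∧
  Hardy A (f j) ∧ (∃ B, BC 1 B (f j))

/-- limits in `C⁶` -/
def Stmt_LIC : Prop := ∀ (D : ℕ) (X : Type) [NormedAddCommGroup X] [NormedSpace ℝ X]
    [FiniteDimensional ℝ X] (f : ℕ → P D → X) (b : ℕ → ℕ → ℝ), (∀ j, Smo (f j)) →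
  (∀ j, ∀ w : List (Fin D), w.length ≤ 7 → ∀ x,
    ‖pdw w (fun z => f (j + 1) z - f j z) x‖ ≤ b w.length j) → (∀ k ≤ 7, Summable (b k)) →
  ∃ g : P D → X, ContDiff ℝ 6 g ∧ ∀ j, ∀ w : List (Fin D), w.length ≤ 6 → ∀ x,
    ‖pdw w (fun z => g z - f j z) x‖ ≤ ∑' i, b w.length (i + j)

/-- the core theorem -/
def Stmt_FIN : Prop := Stmt_CORE

end

end Pool.Agent.HBW
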